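import Mathlib

/-!
General real-analysis lemmas for `MP_c1e222_an`.
-/

namespace MPc1e222

open MeasureTheory intervalIntegral Set Filter Topology

/-- Differentiation under the integral sign with an integrable weight. -/
theorem hasDerivAt_wint {w : ℝ → ℝ} {a b : ℝ} (hw : IntervalIntegrable w volume a b)
    {A A' : ℝ → ℝ → ℝ} (hA : Continuous (fun p : ℝ × ℝ => A p.1 p.2))
    (hA' : Continuous (fun p : ℝ × ℝ => A' p.1 p.2))
    (hd : ∀ t x, HasDerivAt (fun s => A s x) (A' t x) t) (t : ℝ) :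
    HasDerivAt (fun s => ∫ x in a..b, w x * A s x) (∫ x in a..b, w x * A' t x) t := by
  have hAt : ∀ s, Continuous (A s) := fun s => hA.comp (by fun_prop : Continuous fun x : ℝ => (s, x))
  have hAt' : ∀ s, Continuous (A' s) := fun s =>
    hA'.comp (by fun_prop : Continuous fun x : ℝ => (s, x))
  have hK : IsCompact (Icc (t - 1) (t + 1) ×ˢ uIcc a b) := isCompact_Icc.prod isCompact_uIcc
  obtain ⟨M, hM⟩ := hK.exists_bound_of_continuousOn hA'.continuousOn
  have hs : Icc (t - 1) (t + 1) ∈ 𝓝 t := Icc_mem_nhds (by linarith) (by linarith)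
  refine (intervalIntegral.hasDerivAt_integral_of_dominated_loc_of_deriv_le
    (F := fun s x => w x * A s x) (F' := fun s x => w x * A' s x) (bound := fun x => |w x| * M)
    hs ?_ ?_ ?_ ?_ ?_ ?_).2
  · refine Eventually.of_forall fun s => ?_
    have := (hw.mul_continuousOn (hAt s).continuousOn)
    exact (intervalIntegrable_iff.mp this).aestronglyMeasurable
  · exact hw.mul_continuousOn (hAt t).continuousOn
  · have := (hw.mul_continuousOn (hAt' t).continuousOn)
    exact (intervalIntegrable_iff.mp this).aestronglyMeasurable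
  · refine Eventually.of_forall fun x hx s hs' => ?_
    rw [norm_mul, Real.norm_eq_abs]
    exact mul_le_mul_of_nonneg_left (hM (s, x) ⟨hs', uIoc_subset_uIcc hx⟩) (abs_nonneg _)
  · exact hw.norm.mul_const M
  · exact Eventually.of_forall fun x hx s hs' => (hd s x).const_mul (w x)

/-- Differentiation under the integral sign, continuous case. -/
theorem hasDerivAt_int {a b : ℝ}
    {A A' : ℝ → ℝ → ℝ} (hA : Continuous (fun p : ℝ × ℝ => A p.1 p.2))
    (hA' : Continuous (fun p : ℝ × ℝ => A' p.1 p.2))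
    (hd : ∀ t x, HasDerivAt (fun s => A s x) (A' t x) t) (t : ℝ) :
    HasDerivAt (fun s => ∫ x in a..b, A s x) (∫ x in a..b, A' t x) t := by
  have h := hasDerivAt_wint (w := fun _ => (1:ℝ)) (a := a) (b := b) intervalIntegrable_const
    hA hA' hd t
  simpa using h

/-- The differential inequality `|Φ'| ≤ c Φ^(1/4)` gives growth at most `t^(4/3)`. -/
theorem growth {F F' : ℝ → ℝ} {c : ℝ} (hF : ∀ t, HasDerivAt F (F' t) t) (h1 : ∀ t, 1 ≤ F t)
    (hb : ∀ t, |F' t| ≤ c * (F t) ^ ((1:ℝ) / 4)) (t : ℝ) :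
    F t ≤ ((F 0) ^ ((3:ℝ) / 4) + c * |t|) ^ ((4:ℝ) / 3) := by
  have hpos : ∀ s, 0 < F s := fun s => lt_of_lt_of_le one_pos (h1 s)
  have hc : 0 ≤ c := by
    have h := (abs_nonneg _).trans (hb 0)
    have h2 : 0 < F 0 ^ ((1:ℝ) / 4) := Real.rpow_pos_of_pos (hpos 0) _
    exact nonneg_of_mul_nonneg_left h h2
  have hd : ∀ s, HasDerivAt (fun r => (F r) ^ ((3:ℝ) / 4))
      (F' s * ((3:ℝ) / 4) * (F s) ^ ((3:ℝ) / 4 - 1)) s := fun s =>
    (hF s).rpow_const (Or.inl (hpos s).ne')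
  have hbd : ∀ s, ‖F' s * ((3:ℝ) / 4) * (F s) ^ ((3:ℝ) / 4 - 1)‖ ≤ c := by
    intro s
    rw [norm_mul, norm_mul, Real.norm_eq_abs, Real.norm_eq_abs, Real.norm_eq_abs,
      abs_of_pos (by norm_num : (0:ℝ) < 3 / 4), abs_of_pos (Real.rpow_pos_of_pos (hpos s) _)]
    have h2 : (F s) ^ ((1:ℝ) / 4) * (F s) ^ ((3:ℝ) / 4 - 1) = 1 := by
      rw [← Real.rpow_add (hpos s)]
      norm_num
    have h3 : 0 < (F s) ^ ((3:ℝ) / 4 - 1) := Real.rpow_pos_of_pos (hpos s) _
    calc |F' s| * (3 / 4) * F s ^ ((3:ℝ) / 4 - 1)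
        ≤ (c * (F s) ^ ((1:ℝ) / 4)) * (3 / 4) * F s ^ ((3:ℝ) / 4 - 1) := by
          gcongr
          exact hb s
      _ = c * (3 / 4) * ((F s) ^ ((1:ℝ) / 4) * (F s) ^ ((3:ℝ) / 4 - 1)) := by ring
      _ = c * (3 / 4) := by rw [h2, mul_one]
      _ ≤ c := by linarith
  have hmv := convex_univ.norm_image_sub_le_of_norm_hasDerivWithin_le (𝕜 := ℝ)
    (f := fun r => (F r) ^ ((3:ℝ) / 4)) (C := c) (x := 0) (y := t)
    (fun s _ => (hd s).hasDerivWithinAt) (fun s _ => hbd s) (mem_univ _) (mem_univ _)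
  rw [sub_zero, Real.norm_eq_abs, Real.norm_eq_abs] at hmv
  have h4 : (F t) ^ ((3:ℝ) / 4) ≤ (F 0) ^ ((3:ℝ) / 4) + c * |t| := by
    have := le_abs_self ((F t) ^ ((3:ℝ) / 4) - (F 0) ^ ((3:ℝ) / 4))
    linarith
  calc F t = ((F t) ^ ((3:ℝ) / 4)) ^ ((4:ℝ) / 3) := by
        rw [← Real.rpow_mul (hpos t).le]
        norm_num
    _ ≤ _ := Real.rpow_le_rpow (Real.rpow_nonneg (hpos t).le _) h4 (by norm_num)

/-- Integral of a `2`-periodic function over a shifted window. -/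
theorem per_int {f : ℝ → ℝ} (hf : ∀ x, f (x + 2) = f x) (s : ℝ) :
    ∫ x in (-1)..1, f (x - s) = ∫ x in (-1)..1, f x := by
  have hp : Function.Periodic f 2 := hf
  rw [intervalIntegral.integral_comp_sub_right]
  have h := hp.intervalIntegral_add_eq (-1 - s) (-1)
  have e1 : (-1 - s + 2 : ℝ) = 1 - s := by ring
  have e2 : (-1 + 2 : ℝ) = 1 := by norm_num
  rw [e1, e2] at h
  exact h

/-- Reflection. -/
theorem refl_int (f : ℝ → ℝ) :
    ∫ x in (-1)..1, f (-x) = ∫ x in (-1)..1, f x := by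
  rw [intervalIntegral.integral_comp_neg]
  norm_num

end MPc1e222
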