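import Pool.Agent.Lib.MP_c1e222_an.LSize

/-!
# MP_c1e222_an, row Bern: Bernstein inequalities, plain and weighted
-/

namespace Pool.Agent.C1E

open MeasureTheory Set Filter Topology

noncomputable section

namespace Brn

theorem ee_deriv (n : ℤ) (x : ℝ) : HasDerivAt (ee n) (Real.pi * n * Complex.I * ee n x) x := by
  have h1 : HasDerivAt (fun x : ℝ => (Real.pi * n * x * Complex.I : ℂ)) (Real.pi * n * Complex.I) x := by
    have h2 : HasDerivAt (fun x : ℝ => (x : ℂ)) 1 x := Complex.ofRealCLM.hasDerivAt
    have h3 := (h2.const_mul (Real.pi * n : ℂ)).mul_const Complex.I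
    simpa using h3
  have h4 := h1.cexp
  unfold ee
  convert h4 using 1
  ring

theorem ee_cont (n : ℤ) : Continuous (ee n) := by
  unfold ee
  fun_prop

theorem ee_add (n : ℤ) (x y : ℝ) : ee n (x + y) = ee n x * ee n y := by
  unfold ee
  rw [← Complex.exp_add]
  congr 1
  push_cast
  ring

/-- a trigonometric polynomial which is real is differentiable -/
theorem tp_deriv {f : ℝ → ℂ} {S : Set ℤ} (h : TP f S) :
    ∃ f' : ℝ → ℂ, Continuous f' ∧ ∀ x, HasDerivAt f (f' x) x := by
  obtain ⟨c, -, hf⟩ := h
  refine ⟨fun x => ∑ n ∈ c.support, c n * (Real.pi * n * Complex.I * ee n x), ?_, ?_⟩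
  · refine continuous_finsetSum _ fun n _ => ?_
    exact continuous_const.mul (continuous_const.mul (ee_cont n))
  · intro x
    have h1 : f = fun x => ∑ n ∈ c.support, c n * ee n x := by
      funext y
      rw [hf y, Finsupp.sum]
    rw [h1]
    exact HasDerivAt.fun_sum fun n _ => (ee_deriv n x).const_mul (c n)

theorem tp_cont {f : ℝ → ℂ} {S : Set ℤ} (h : TP f S) : Continuous f := by
  obtain ⟨f', -, hd⟩ := tp_deriv h
  exact continuous_iff_continuousAt.2 fun x => (hd x).continuousAt

/-- real form -/
theorem tp_real {f : ℝ → ℝ} {S : Set ℤ} (h : TP (fun x => (f x : ℂ)) S) :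
    ∃ f' : ℝ → ℝ, Continuous f' ∧ Continuous f ∧ (∀ x, HasDerivAt f (f' x) x) ∧
      ∀ x, HasDerivAt (fun x => (f x : ℂ)) (f' x : ℂ) x := by
  obtain ⟨g, hg, hd⟩ := tp_deriv h
  have h1 : ∀ x, HasDerivAt f ((g x).re) x := by
    intro x
    have h2 := Complex.reCLM.hasFDerivAt.comp_hasDerivAt x (hd x)
    exact h2
  refine ⟨fun x => (g x).re, Complex.continuous_re.comp hg,
    continuous_iff_continuousAt.2 fun x => (h1 x).continuousAt, h1, fun x => (h1 x).ofReal_comp⟩

/-- translation -/
theorem tp_shift {f : ℝ → ℂ} {S : Set ℤ} (h : TP f S) (s : ℝ) : TP (fun x => f (x - s)) S := by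
  obtain ⟨c, hc, hf⟩ := h
  refine ⟨Finsupp.onFinset c.support (fun n => c n * ee n (-s)) (fun n hn => ?_), ?_, fun x => ?_⟩
  · rw [Finsupp.mem_support_iff]
    exact left_ne_zero_of_mul hn
  · intro n hn
    refine hc n ?_
    exact Finsupp.support_onFinset_subset hn
  · simp only
    rw [hf, Finsupp.onFinset_sum _ (fun n => by simp), Finsupp.sum]
    refine Finset.sum_congr rfl fun n _ => ?_
    rw [sub_eq_add_neg, ee_add]
    ring

theorem norm_real_sq (a : ℝ) : ‖(a : ℂ)‖ ^ 2 = a ^ 2 := by
  rw [Complex.norm_real, Real.norm_eq_abs, sq_abs]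

/-- Bernstein for real trigonometric polynomials -/
theorem upper (hSpc : SpcStatement) {f f' : ℝ → ℝ} {S : Set ℤ} (h : TP (fun x => (f x : ℂ)) S)
    (hd : ∀ x, HasDerivAt f (f' x) x) {N : ℝ} (hN : ∀ n ∈ S, |(n : ℝ)| ≤ N) :
    cint (fun x => (f' x) ^ 2) ≤ (Real.pi * N) ^ 2 * cint (fun x => (f x) ^ 2) := by
  have h1 := hSpc.2.2.2.2.2.2.1 _ S N h hN
  have h2 : ∀ x, deriv (fun x => (f x : ℂ)) x = (f' x : ℂ) := fun x => (hd x).ofReal_comp.deriv
  simp only [h2, norm_real_sq] at h1
  exact h1

theorem lower (hSpc : SpcStatement) {f f' : ℝ → ℝ} {S : Set ℤ} (h : TP (fun x => (f x : ℂ)) S)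
    (hd : ∀ x, HasDerivAt f (f' x) x) {N : ℝ} (h0 : 0 ≤ N) (hN : ∀ n ∈ S, N ≤ |(n : ℝ)|) :
    (Real.pi * N) ^ 2 * cint (fun x => (f x) ^ 2) ≤ cint (fun x => (f' x) ^ 2) := by
  have h1 := hSpc.2.2.2.2.2.2.2 _ S N h h0 hN
  have h2 : ∀ x, deriv (fun x => (f x : ℂ)) x = (f' x : ℂ) := fun x => (hd x).ofReal_comp.deriv
  simp only [h2, norm_real_sq] at h1
  exact h1

theorem si_univ {f : ℝ → ℝ} (hf : CP f) : SI (fun x => (f x : ℂ)) Set.univ := by
  refine ⟨Complex.continuous_ofReal.comp hf.1, fun x => ?_, fun n hn => absurd (mem_univ n) hn⟩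
  simp only [hf.2 x]

end Brn

open Brn LSz in
theorem bern_proof (hMul : MulStatement) (hSpc : SpcStatement) (hKer : KerStatement)
    (hIdn : IdnStatement) : BernStatement := by
  obtain ⟨CK, hCK, hK⟩ := hKer
  have hVc : ∀ i, Continuous (V i) := fun i => (hK i).1.continuous
  have hV' : ∀ i, Continuous (deriv (V i)) := fun i => (hK i).1.continuous_deriv (by norm_num)
  have hVd : ∀ i x, HasDerivAt (V i) (deriv (V i) x) x := fun i x =>
    ((hK i).1.differentiable (by norm_num) x).hasDerivAt
  have hth : ∀ i, Continuous (th i) := by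
    intro i
    have hκ := kap_pos i
    have hdl : Continuous dl := by
      unfold dl
      fun_prop
    unfold th
    refine continuous_const.div (by fun_prop) fun x => ?_
    have : 0 ≤ dl x := by
      unfold dl
      exact abs_nonneg _
    positivity
  have hth0 : ∀ i x, 0 ≤ th i x := by
    intro i x
    have hκ := kap_pos i
    unfold th
    positivity
  have hPp : ∀ i f, CP f → TP (fun x => (Pp i f x : ℂ))
      {n | n ∈ (Set.univ : Set ℤ) ∧ (63 / 64) * kap i < |(n : ℝ)| ∧ |(n : ℝ)| < kap (i + 1)} :=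
    fun i f hf => ((hMul i).2.1 f Set.univ (si_univ hf)).2.2.2
  have hLo : ∀ i f, CP f → TP (fun x => (Lo i f x : ℂ)) {n | n ∈ (Set.univ : Set ℤ) ∧ |(n : ℝ)| < kap i} :=
    fun i f hf => ((hMul i).2.1 f Set.univ (si_univ hf)).1
  have hPd : ∀ i f, CP f → ∀ x, HasDerivAt (Pp i f) (Pa i f x) x := fun i f hf => hIdn.1 i f hf
  -- the weighted functions for one shift
  have hspec : ∀ (i l m : ℕ) (f g : ℝ → ℝ) (s : ℝ), CP f → CP g →
      TP (fun x => ((V i (x - s) * Lo m g x * Pp l f x : ℝ) : ℂ))
        {n | ∃ p q r : ℤ, n = p + q + r ∧ |(p : ℝ)| < kap i ∧ |(q : ℝ)| < kap m ∧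
          (63 / 64) * kap l < |(r : ℝ)| ∧ |(r : ℝ)| < kap (l + 1)} := by
    intro i l m f g s hf hg
    have h1 := hSpc.2.1 _ _ _ _ (tp_shift (hMul i).1 s) (hLo m g hg)
    have h2 := hSpc.2.1 _ _ _ _ h1 (hPp l f hf)
    obtain ⟨c, hc, hx⟩ := h2
    refine ⟨c, fun n hn => ?_, fun x => ?_⟩
    · obtain ⟨a, ⟨p, hp, q, hq, rfl⟩, r, hr, rfl⟩ := hc n hn
      exact ⟨p, q, r, rfl, hp, hq.2, hr.2.1, hr.2.2⟩
    · rw [← hx x]
      push_cast
      ring
  -- Fubini for the kernels
  have hKK : ∀ (i : ℕ) (x' : ℝ) (F : ℝ → ℝ), Continuous F →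
      cint (fun x => KK i (x - x') * F x) = (1 / kap i) * cint (fun h => th i h *
        cint (fun x => (V i (x - x' - h)) ^ 2 * F x)) := by
    intro i x' F hF
    have hVi := hVc i
    have hti := hth i
    have h1 : cint (fun x => KK i (x - x') * F x) = (1 / kap i) * ∫ x in (-1 : ℝ)..1,
        ∫ h in (-1 : ℝ)..1, th i h * ((V i (x - x' - h)) ^ 2 * F x) := by
      rw [cint, ← intervalIntegral.integral_const_mul]
      refine intervalIntegral.integral_congr fun x _ => ?_
      simp only [KK, cint]
      rw [mul_assoc, ← intervalIntegral.integral_mul_const]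
      congr 1
      refine intervalIntegral.integral_congr fun h _ => ?_
      ring
    rw [h1, swap (by fun_prop), cint]
    congr 1
    refine intervalIntegral.integral_congr fun h _ => ?_
    simp only [cint]
    rw [intervalIntegral.integral_const_mul]
  have hK1 : ∀ (i : ℕ) (x' : ℝ) (F : ℝ → ℝ), Continuous F →
      cint (fun x => K1 i (x - x') * F x) = (1 / kap i) * cint (fun h => th i h *
        cint (fun x => (deriv (V i) (x - x' - h)) ^ 2 * F x)) := by
    intro i x' F hF
    have hVi := hV' i
    have hti := hth i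
    have h1 : cint (fun x => K1 i (x - x') * F x) = (1 / kap i) * ∫ x in (-1 : ℝ)..1,
        ∫ h in (-1 : ℝ)..1, th i h * ((deriv (V i) (x - x' - h)) ^ 2 * F x) := by
      rw [cint, ← intervalIntegral.integral_const_mul]
      refine intervalIntegral.integral_congr fun x _ => ?_
      simp only [K1, cint]
      rw [mul_assoc, ← intervalIntegral.integral_mul_const]
      congr 1
      refine intervalIntegral.integral_congr fun h _ => ?_
      ring
    rw [h1, swap (by fun_prop), cint]
    congr 1
    refine intervalIntegral.integral_congr fun h _ => ?_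
    simp only [cint]
    rw [intervalIntegral.integral_const_mul]
  have hKKc : ∀ i, Continuous (KK i) := by
    intro i
    have hVi := hVc i
    have hti := hth i
    unfold KK cint
    exact continuous_const.mul
      (intervalIntegral.continuous_parametric_intervalIntegral_of_continuous' (by fun_prop) _ _)
  have hK1c : ∀ i, Continuous (K1 i) := by
    intro i
    have hVi := hV' i
    have hti := hth i
    unfold K1 cint
    exact continuous_const.mul
      (intervalIntegral.continuous_parametric_intervalIntegral_of_continuous' (by fun_prop) _ _)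
  -- pointwise in the shift
  have hpt : ∀ (i l m : ℕ) (f g : ℝ → ℝ) (s : ℝ), CP f → CP g →
      (cint (fun x => (V i (x - s)) ^ 2 * ((Lo m g x) ^ 2 * (Pa l f x) ^ 2)) ≤
        (101 / 100) * Real.pi ^ 2 * (kap (l + 1) + kap m + kap i) ^ 2 *
          cint (fun x => (V i (x - s)) ^ 2 * ((Lo m g x) ^ 2 * (Pp l f x) ^ 2))
        + 202 * (cint (fun x => (deriv (V i) (x - s)) ^ 2 * ((Lo m g x) ^ 2 * (Pp l f x) ^ 2))
          + cint (fun x => (V i (x - s)) ^ 2 * ((deriv (Lo m g) x) ^ 2 * (Pp l f x) ^ 2)))) ∧
      (kap i + kap m ≤ (63 / 64) * kap l →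
        Real.pi ^ 2 * ((63 / 64) * kap l - kap m - kap i) ^ 2 *
          cint (fun x => (V i (x - s)) ^ 2 * ((Lo m g x) ^ 2 * (Pp l f x) ^ 2)) ≤
        (101 / 100) * cint (fun x => (V i (x - s)) ^ 2 * ((Lo m g x) ^ 2 * (Pa l f x) ^ 2))
        + 202 * (cint (fun x => (deriv (V i) (x - s)) ^ 2 * ((Lo m g x) ^ 2 * (Pp l f x) ^ 2))
          + cint (fun x => (V i (x - s)) ^ 2 * ((deriv (Lo m g) x) ^ 2 * (Pp l f x) ^ 2)))) := by
    intro i l m f g s hf hg
    obtain ⟨Lo', hLo'c, hLoc, hLod, -⟩ := tp_real (hLo m g hg)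
    have hLo'e : ∀ x, deriv (Lo m g) x = Lo' x := fun x => (hLod x).deriv
    obtain ⟨Pp', hPp'c, hPpc, hPpd, -⟩ := tp_real (hPp l f hf)
    have hPp'e : ∀ x, Pa l f x = Pp' x := fun x => (hPd l f hf x).unique (hPpd x)
    have hPac : Continuous (Pa l f) := by
      have : Pa l f = Pp' := funext hPp'e
      rw [this]
      exact hPp'c
    have hVi := hVc i
    have hVi' := hV' i
    have hder : ∀ x, HasDerivAt (fun x => V i (x - s) * Lo m g x * Pp l f x)
        ((deriv (V i) (x - s) * Lo m g x + V i (x - s) * Lo' x) * Pp l f x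
          + V i (x - s) * Lo m g x * Pa l f x) x := by
      intro x
      have h1 : HasDerivAt (fun x => V i (x - s)) (deriv (V i) (x - s)) x :=
        (hVd i (x - s)).comp_sub_const x s
      exact (h1.mul (hLod x)).mul (hPd l f hf x)
    simp only [hLo'e]
    have hint : ∀ {F : ℝ → ℝ}, Continuous F → IntervalIntegrable F volume (-1) 1 :=
      fun h => h.intervalIntegrable _ _
    -- the three integrals of the proof
    have e1 : cint (fun x => ((deriv (V i) (x - s) * Lo m g x + V i (x - s) * Lo' x) * Pp l f x) ^ 2) ≤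
        2 * (cint (fun x => (deriv (V i) (x - s)) ^ 2 * ((Lo m g x) ^ 2 * (Pp l f x) ^ 2))
          + cint (fun x => (V i (x - s)) ^ 2 * ((Lo' x) ^ 2 * (Pp l f x) ^ 2))) := by
      rw [cint, cint, cint, ← intervalIntegral.integral_add (hint (by fun_prop)) (hint (by fun_prop)),
        ← intervalIntegral.integral_const_mul]
      refine intervalIntegral.integral_mono_on (by norm_num) (hint (by fun_prop))
        (hint (by fun_prop)) fun x _ => ?_
      nlinarith [mul_nonneg (sq_nonneg (deriv (V i) (x - s) * Lo m g x - V i (x - s) * Lo' x))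
        (sq_nonneg (Pp l f x))]
    have e2 : cint (fun x => (V i (x - s) * Lo m g x * Pp l f x) ^ 2) =
        cint (fun x => (V i (x - s)) ^ 2 * ((Lo m g x) ^ 2 * (Pp l f x) ^ 2)) := by
      unfold cint
      refine intervalIntegral.integral_congr fun x _ => ?_
      ring
    have e3 : cint (fun x => (V i (x - s) * Lo m g x * Pa l f x) ^ 2) =
        cint (fun x => (V i (x - s)) ^ 2 * ((Lo m g x) ^ 2 * (Pa l f x) ^ 2)) := by
      unfold cint
      refine intervalIntegral.integral_congr fun x _ => ?_
      ring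
    have hsp := hspec i l m f g s hf hg
    constructor
    · have h1 := upper hSpc hsp hder (N := kap (l + 1) + kap m + kap i) (by
        rintro n ⟨p, q, r, rfl, hp, hq, -, hr⟩
        push_cast
        have h2 := abs_add_le ((p : ℝ) + q) r
        have h3 := abs_add_le (p : ℝ) q
        linarith)
      rw [e2] at h1
      have h2 : cint (fun x => (V i (x - s) * Lo m g x * Pa l f x) ^ 2) ≤
          (101 / 100) * cint (fun x =>
            ((deriv (V i) (x - s) * Lo m g x + V i (x - s) * Lo' x) * Pp l f x
              + V i (x - s) * Lo m g x * Pa l f x) ^ 2)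
          + 101 * cint (fun x => ((deriv (V i) (x - s) * Lo m g x + V i (x - s) * Lo' x) *
              Pp l f x) ^ 2) := by
        rw [cint, cint, cint, ← intervalIntegral.integral_const_mul,
          ← intervalIntegral.integral_const_mul,
          ← intervalIntegral.integral_add (hint (by fun_prop)) (hint (by fun_prop))]
        refine intervalIntegral.integral_mono_on (by norm_num) (hint (by fun_prop))
          (hint (by fun_prop)) fun x _ => ?_
        set a := (deriv (V i) (x - s) * Lo m g x + V i (x - s) * Lo' x) * Pp l f x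
        set b := V i (x - s) * Lo m g x * Pa l f x
        nlinarith [sq_nonneg ((a + b) / 10 + 10 * a)]
      rw [e3] at h2
      rw [mul_pow] at h1
      nlinarith [h1, h2, e1]
    · intro hN
      have h1 := lower hSpc hsp hder (N := (63 / 64) * kap l - kap m - kap i) (by linarith) (by
        rintro n ⟨p, q, r, rfl, hp, hq, hr, -⟩
        push_cast
        have h2 : |(r : ℝ)| ≤ |(p : ℝ) + q + r| + |(p : ℝ)| + |(q : ℝ)| := by
          have h3 : (r : ℝ) = ((p : ℝ) + q + r) + (-(p : ℝ)) + (-(q : ℝ)) := by ring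
          have h4 := abs_add_le (((p : ℝ) + q + r) + (-(p : ℝ))) (-(q : ℝ))
          have h5 := abs_add_le ((p : ℝ) + q + r) (-(p : ℝ))
          rw [← h3] at h4
          rw [abs_neg] at h4 h5
          linarith
        linarith)
      rw [e2, mul_pow] at h1
      have h2 : cint (fun x =>
            ((deriv (V i) (x - s) * Lo m g x + V i (x - s) * Lo' x) * Pp l f x
              + V i (x - s) * Lo m g x * Pa l f x) ^ 2) ≤
          (101 / 100) * cint (fun x => (V i (x - s) * Lo m g x * Pa l f x) ^ 2)
          + 101 * cint (fun x => ((deriv (V i) (x - s) * Lo m g x + V i (x - s) * Lo' x) *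
              Pp l f x) ^ 2) := by
        rw [cint, cint, cint, ← intervalIntegral.integral_const_mul,
          ← intervalIntegral.integral_const_mul,
          ← intervalIntegral.integral_add (hint (by fun_prop)) (hint (by fun_prop))]
        refine intervalIntegral.integral_mono_on (by norm_num) (hint (by fun_prop))
          (hint (by fun_prop)) fun x _ => ?_
        set a := (deriv (V i) (x - s) * Lo m g x + V i (x - s) * Lo' x) * Pp l f x
        set b := V i (x - s) * Lo m g x * Pa l f x
        nlinarith [sq_nonneg (b / 10 - 10 * a)]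
      rw [e3] at h2
      nlinarith [h1, h2, e1]
  -- all data after Fubini
  have hall : ∀ (i l m : ℕ) (f g : ℝ → ℝ) (x' : ℝ), CP f → CP g →
      ∃ A1 A0 B1 B2 : ℝ → ℝ, Continuous A1 ∧ Continuous A0 ∧ Continuous B1 ∧ Continuous B2 ∧
        cint (fun x => KK i (x - x') * (Lo m g x) ^ 2 * (Pa l f x) ^ 2) =
          (1 / kap i) * cint (fun h => th i h * A1 h) ∧
        cint (fun x => KK i (x - x') * (Lo m g x) ^ 2 * (Pp l f x) ^ 2) =
          (1 / kap i) * cint (fun h => th i h * A0 h) ∧
        cint (fun x => (K1 i (x - x') * (Lo m g x) ^ 2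
          + KK i (x - x') * (deriv (Lo m g) x) ^ 2) * (Pp l f x) ^ 2) =
          (1 / kap i) * cint (fun h => th i h * (B1 h + B2 h)) ∧
        (∀ h, A1 h ≤ (101 / 100) * Real.pi ^ 2 * (kap (l + 1) + kap m + kap i) ^ 2 * A0 h
          + 202 * (B1 h + B2 h)) ∧
        (kap i + kap m ≤ (63 / 64) * kap l → ∀ h,
          Real.pi ^ 2 * ((63 / 64) * kap l - kap m - kap i) ^ 2 * A0 h ≤
            (101 / 100) * A1 h + 202 * (B1 h + B2 h)) := by
    intro i l m f g x' hf hg
    obtain ⟨Lo', hLo'c, hLoc, hLod, -⟩ := tp_real (hLo m g hg)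
    have hLo'e : deriv (Lo m g) = Lo' := funext fun x => (hLod x).deriv
    obtain ⟨Pp', hPp'c, hPpc, hPpd, -⟩ := tp_real (hPp l f hf)
    have hPac : Continuous (Pa l f) := by
      have : Pa l f = Pp' := funext fun x => (hPd l f hf x).unique (hPpd x)
      rw [this]
      exact hPp'c
    have hLd : Continuous (deriv (Lo m g)) := hLo'e ▸ hLo'c
    have hVi := hVc i
    have hVi' := hV' i
    have hti := hth i
    have hKKi := hKKc i
    have hK1i := hK1c i
    refine ⟨fun h => cint (fun x => (V i (x - (x' + h))) ^ 2 * ((Lo m g x) ^ 2 * (Pa l f x) ^ 2)),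
      fun h => cint (fun x => (V i (x - (x' + h))) ^ 2 * ((Lo m g x) ^ 2 * (Pp l f x) ^ 2)),
      fun h => cint (fun x => (deriv (V i) (x - (x' + h))) ^ 2 * ((Lo m g x) ^ 2 * (Pp l f x) ^ 2)),
      fun h => cint (fun x => (V i (x - (x' + h))) ^ 2 * ((deriv (Lo m g) x) ^ 2 * (Pp l f x) ^ 2)),
      ?_, ?_, ?_, ?_, ?_, ?_, ?_, ?_, ?_⟩
    · exact intervalIntegral.continuous_parametric_intervalIntegral_of_continuous' (by fun_prop) _ _
    · exact intervalIntegral.continuous_parametric_intervalIntegral_of_continuous' (by fun_prop) _ _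
    · exact intervalIntegral.continuous_parametric_intervalIntegral_of_continuous' (by fun_prop) _ _
    · exact intervalIntegral.continuous_parametric_intervalIntegral_of_continuous' (by fun_prop) _ _
    · have h1 := hKK i x' (fun x => (Lo m g x) ^ 2 * (Pa l f x) ^ 2) (by fun_prop)
      simp only [← mul_assoc, sub_sub] at h1 ⊢
      exact h1
    · have h1 := hKK i x' (fun x => (Lo m g x) ^ 2 * (Pp l f x) ^ 2) (by fun_prop)
      simp only [← mul_assoc, sub_sub] at h1 ⊢
      exact h1
    · have h1 := hK1 i x' (fun x => (Lo m g x) ^ 2 * (Pp l f x) ^ 2) (by fun_prop)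
      have h2 := hKK i x' (fun x => (deriv (Lo m g) x) ^ 2 * (Pp l f x) ^ 2) (by fun_prop)
      have hc1 : Continuous fun h => cint (fun x => (deriv (V i) (x - (x' + h))) ^ 2 *
          ((Lo m g x) ^ 2 * (Pp l f x) ^ 2)) :=
        intervalIntegral.continuous_parametric_intervalIntegral_of_continuous' (by fun_prop) _ _
      have hc2 : Continuous fun h => cint (fun x => (V i (x - (x' + h))) ^ 2 *
          ((deriv (Lo m g) x) ^ 2 * (Pp l f x) ^ 2)) :=
        intervalIntegral.continuous_parametric_intervalIntegral_of_continuous' (by fun_prop) _ _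
      have h3 : cint (fun x => (K1 i (x - x') * (Lo m g x) ^ 2
          + KK i (x - x') * (deriv (Lo m g) x) ^ 2) * (Pp l f x) ^ 2) =
          cint (fun x => K1 i (x - x') * ((Lo m g x) ^ 2 * (Pp l f x) ^ 2))
          + cint (fun x => KK i (x - x') * ((deriv (Lo m g) x) ^ 2 * (Pp l f x) ^ 2)) := by
        rw [cint, cint, cint, ← intervalIntegral.integral_add
          (Continuous.intervalIntegrable (by fun_prop) _ _)
          (Continuous.intervalIntegrable (by fun_prop) _ _)]
        refine intervalIntegral.integral_congr fun x _ => ?_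
        ring
      rw [h3, h1, h2, ← mul_add]
      congr 1
      simp only [sub_sub]
      have h4 : (fun h => th i h * ((cint fun x => (deriv (V i) (x - (x' + h))) ^ 2 *
          ((Lo m g x) ^ 2 * (Pp l f x) ^ 2)) + cint fun x => (V i (x - (x' + h))) ^ 2 *
          ((deriv (Lo m g) x) ^ 2 * (Pp l f x) ^ 2))) =
          fun h => th i h * (cint fun x => (deriv (V i) (x - (x' + h))) ^ 2 *
          ((Lo m g x) ^ 2 * (Pp l f x) ^ 2)) + th i h * cint fun x => (V i (x - (x' + h))) ^ 2 *
          ((deriv (Lo m g) x) ^ 2 * (Pp l f x) ^ 2) := by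
        funext h
        ring
      rw [h4]
      exact (intervalIntegral.integral_add ((hti.mul hc1).intervalIntegrable _ _)
        ((hti.mul hc2).intervalIntegrable _ _)).symm
    · intro h
      exact (hpt i l m f g (x' + h) hf hg).1
    · intro hN h
      exact (hpt i l m f g (x' + h) hf hg).2 hN
  refine ⟨?_, ?_, ?_⟩
  · intro i f hf
    have h1 := lower hSpc (hPp i f hf) (hPd i f hf) (N := (63 / 64) * kap i)
      (by have := kap_pos i; positivity) (fun n hn => hn.2.1.le)
    have h2 : 0 ≤ cint (fun x => (Pp i f x) ^ 2) :=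
      intervalIntegral.integral_nonneg (by norm_num) fun x _ => sq_nonneg _
    refine le_trans (mul_le_mul_of_nonneg_right ?_ h2) h1
    have hκ := kap_pos i
    have hpi := Real.pi_gt_three
    have h3 : kap i ≤ Real.pi * ((63 / 64) * kap i) := by nlinarith
    exact pow_le_pow_left₀ hκ.le h3 2
  · intro i l m f g x' hf hg
    obtain ⟨A1, A0, B1, B2, hA1, hA0, hB1, hB2, e1, e0, e2, hup, -⟩ := hall i l m f g x' hf hg
    rw [e1, e0, e2]
    have hκ := kap_pos i
    have hti := hth i
    have h1 : cint (fun h => th i h * A1 h) ≤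
        cint (fun h => th i h * ((101 / 100) * Real.pi ^ 2 * (kap (l + 1) + kap m + kap i) ^ 2 * A0 h
          + 202 * (B1 h + B2 h))) :=
      intervalIntegral.integral_mono_on (by norm_num)
        (Continuous.intervalIntegrable (by fun_prop) _ _)
        (Continuous.intervalIntegrable (by fun_prop) _ _)
        fun h _ => mul_le_mul_of_nonneg_left (hup h) (hth0 i h)
    have h2 : cint (fun h => th i h * ((101 / 100) * Real.pi ^ 2 * (kap (l + 1) + kap m + kap i) ^ 2 * A0 h
          + 202 * (B1 h + B2 h))) =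
        (101 / 100) * Real.pi ^ 2 * (kap (l + 1) + kap m + kap i) ^ 2 * cint (fun h => th i h * A0 h)
          + 202 * cint (fun h => th i h * (B1 h + B2 h)) := by
      rw [cint, cint, cint, ← intervalIntegral.integral_const_mul,
        ← intervalIntegral.integral_const_mul, ← intervalIntegral.integral_add
          (Continuous.intervalIntegrable (by fun_prop) _ _)
          (Continuous.intervalIntegrable (by fun_prop) _ _)]
      refine intervalIntegral.integral_congr fun h _ => ?_
      ring
    rw [h2] at h1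
    have h3 := mul_le_mul_of_nonneg_left h1 (show 0 ≤ 1 / kap i by positivity)
    refine h3.trans (le_of_eq ?_)
    ring
  · intro i l m f g x' hf hg hN
    obtain ⟨A1, A0, B1, B2, hA1, hA0, hB1, hB2, e1, e0, e2, -, hlow⟩ := hall i l m f g x' hf hg
    rw [e1, e0, e2]
    have hκ := kap_pos i
    have hti := hth i
    have h1 : cint (fun h => th i h * (Real.pi ^ 2 * ((63 / 64) * kap l - kap m - kap i) ^ 2 * A0 h)) ≤
        cint (fun h => th i h * ((101 / 100) * A1 h + 202 * (B1 h + B2 h))) :=
      intervalIntegral.integral_mono_on (by norm_num)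
        (Continuous.intervalIntegrable (by fun_prop) _ _)
        (Continuous.intervalIntegrable (by fun_prop) _ _)
        fun h _ => mul_le_mul_of_nonneg_left (hlow hN h) (hth0 i h)
    have h2 : cint (fun h => th i h * ((101 / 100) * A1 h + 202 * (B1 h + B2 h))) =
        (101 / 100) * cint (fun h => th i h * A1 h) + 202 * cint (fun h => th i h * (B1 h + B2 h)) := by
      rw [cint, cint, cint, ← intervalIntegral.integral_const_mul,
        ← intervalIntegral.integral_const_mul, ← intervalIntegral.integral_add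
          (Continuous.intervalIntegrable (by fun_prop) _ _)
          (Continuous.intervalIntegrable (by fun_prop) _ _)]
      refine intervalIntegral.integral_congr fun h _ => ?_
      ring
    have h2' : cint (fun h => th i h * (Real.pi ^ 2 * ((63 / 64) * kap l - kap m - kap i) ^ 2 * A0 h)) =
        Real.pi ^ 2 * ((63 / 64) * kap l - kap m - kap i) ^ 2 * cint (fun h => th i h * A0 h) := by
      rw [cint, cint, ← intervalIntegral.integral_const_mul]
      refine intervalIntegral.integral_congr fun h _ => ?_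
      ring
    rw [h2, h2'] at h1
    have h3 := mul_le_mul_of_nonneg_left h1 (show 0 ≤ 1 / kap i by positivity)
    calc Real.pi ^ 2 * ((63 / 64) * kap l - kap m - kap i) ^ 2 *
          (1 / kap i * cint fun h => th i h * A0 h)
        = 1 / kap i * (Real.pi ^ 2 * ((63 / 64) * kap l - kap m - kap i) ^ 2 *
          cint fun h => th i h * A0 h) := by ring
      _ ≤ _ := h3
      _ = _ := by ring

end

end Pool.Agent.C1E
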