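import Pool.Agent.Lib.MP_c1e222_an.Iface

/-!
# MP_c1e222_an, row Dec: decomposition of the source
-/

namespace Pool.Agent.C1E

open MeasureTheory Set Filter Topology

namespace Dec31

theorem cont_Dir (a : ℕ) : Continuous (Dir a) := by
  unfold Dir
  fun_prop

theorem cont_V (i : ℕ) : Continuous (V i) := by
  have h1 := cont_Dir (vb i)
  have h2 := cont_Dir (va i)
  unfold V
  fun_prop

theorem cont_A (i : ℕ) : Continuous (A i) := by
  have h1 := cont_V i
  have h2 := cont_V (i + 1)
  unfold A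
  fun_prop

theorem cont_conv {P f : ℝ → ℝ} (hP : Continuous P) (hf : Continuous f) :
    Continuous (conv P f) := by
  unfold conv
  apply intervalIntegral.continuous_parametric_intervalIntegral_of_continuous'
  have : Continuous fun p : ℝ × ℝ => P (p.1 - p.2) * f p.2 := by fun_prop
  exact this

theorem cont_Lo (i : ℕ) {f : ℝ → ℝ} (hf : Continuous f) : Continuous (Lo i f) :=
  cont_conv (cont_V i) hf

theorem ii (i : ℕ) (x : ℝ) {f : ℝ → ℝ} (hf : Continuous f) :
    IntervalIntegrable (fun y => A i (x - y) * f y) volume (-1) 1 := by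
  have hA := cont_A i
  exact Continuous.intervalIntegrable (by fun_prop) _ _

theorem Pa_add (i : ℕ) {f g : ℝ → ℝ} (hf : Continuous f) (hg : Continuous g) (x : ℝ) :
    Pa i (fun y => f y + g y) x = Pa i f x + Pa i g x := by
  unfold Pa conv
  rw [← intervalIntegral.integral_add (ii i x hf) (ii i x hg)]
  congr 1
  funext y
  ring

theorem Pa_sub (i : ℕ) {f g : ℝ → ℝ} (hf : Continuous f) (hg : Continuous g) (x : ℝ) :
    Pa i (fun y => f y - g y) x = Pa i f x - Pa i g x := by
  unfold Pa conv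
  rw [← intervalIntegral.integral_sub (ii i x hf) (ii i x hg)]
  congr 1
  funext y
  ring

theorem Pa_smul (i : ℕ) (c : ℝ) (f : ℝ → ℝ) (x : ℝ) :
    Pa i (fun y => c * f y) x = c * Pa i f x := by
  unfold Pa conv
  rw [← intervalIntegral.integral_const_mul]
  congr 1
  funext y
  ring

end Dec31

open Dec31 in
theorem dec_proof (hV : VanStatement) : DecStatement := by
  intro M E u r hM hu j hj x
  obtain ⟨v1, v2, v3, -, -⟩ := hV M hM
  have hCP : CP u := ⟨hu.cu, hu.pu⟩
  have hc := hu.cu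
  have hlo := cont_Lo (j - M) hc
  have hhi := cont_Lo (j + M) hc
  have e1 := v1 j u hj hCP x
  have e2 := v2 j u hj hCP x
  have e3 := v3 j u hj hCP x
  -- Pa j u = Pa j um
  have a3 : Pa j u x = Pa j (fun y => Lo (j + M) u y - Lo (j - M) u y) x := by
    have h := Pa_sub j (f := u) (g := fun y => Lo (j + M) u y - Lo (j - M) u y) hc
      (by fun_prop) x
    rw [e3] at h
    linarith
  -- Pa j (ulo^2 u) = Pa j (ulo^2 um)
  have a2 : Pa j (fun y => (Lo (j - M) u y) ^ 2 * u y) x =
      Pa j (fun y => (Lo (j - M) u y) ^ 2 * (Lo (j + M) u y - Lo (j - M) u y)) x := by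
    have h := Pa_sub j (f := fun y => (Lo (j - M) u y) ^ 2 * u y)
      (g := fun y => (Lo (j - M) u y) ^ 2 * (Lo (j + M) u y - Lo (j - M) u y))
      (by fun_prop) (by fun_prop) x
    have h' : (fun y => (Lo (j - M) u y) ^ 2 * u y -
        (Lo (j - M) u y) ^ 2 * (Lo (j + M) u y - Lo (j - M) u y)) =
        fun y => (Lo (j - M) u y) ^ 2 * (u y - (Lo (j + M) u y - Lo (j - M) u y)) := by
      funext y
      ring
    rw [h', e2] at h
    linarith
  -- expansion of the cube
  have a4 : Pa j (fun y => (u y) ^ 3) x =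
      3 * Pa j (fun y => (Lo (j - M) u y) ^ 2 * (Lo (j + M) u y - Lo (j - M) u y)) x
      + 3 * Pa j (fun y => Lo (j - M) u y * (u y - Lo (j - M) u y) ^ 2) x
      + Pa j (fun y => (u y - Lo (j - M) u y) ^ 3) x := by
    have h0 : (fun y => (u y) ^ 3) = fun y =>
        ((3 * ((Lo (j - M) u y) ^ 2 * u y) + 3 * (Lo (j - M) u y * (u y - Lo (j - M) u y) ^ 2))
          + (u y - Lo (j - M) u y) ^ 3) - 2 * (Lo (j - M) u y) ^ 3 := by
      funext y
      ring
    rw [h0, Pa_sub j (by fun_prop) (by fun_prop), Pa_add j (by fun_prop) (by fun_prop),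
      Pa_add j (by fun_prop) (by fun_prop), Pa_smul, Pa_smul, Pa_smul, e1, a2]
    ring
  have hS : SS M j u r x = 3 * (Lo (j - M) u x * Lo (j - M) r x * (Pa j u x) ^ 2)
      + 3 * (cm M j u x * Pa j r x)
      - 3 * (Pa j (fun y => Lo (j - M) u y * (u y - Lo (j - M) u y) ^ 2) x * Pa j r x)
      - Pa j (fun y => (u y - Lo (j - M) u y) ^ 3) x * Pa j r x := by
    unfold SS cm
    rw [a4, ← a3]
    ring
  rw [hS]
  have t1 : ∀ a b c d : ℝ, |3 * a + 3 * b - 3 * c - d| ≤ 3 * |a| + 3 * |b| + 3 * |c| + |d| := by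
    intro a b c d
    rw [abs_le]
    constructor <;>
      nlinarith [neg_abs_le a, le_abs_self a, neg_abs_le b, le_abs_self b, neg_abs_le c,
        le_abs_self c, neg_abs_le d, le_abs_self d]
  refine (t1 _ _ _ _).trans ?_
  simp only [abs_mul, abs_pow, sq_abs]
  exact le_refl _

end Pool.Agent.C1E
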