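import Pool.Agent.Lib.MP_c1e222_an.Iface

/-!
# MP_c1e222_an, row Dom (section 1): domination
-/

namespace Pool.Agent.C1E

open MeasureTheory Set Filter Topology

noncomputable section

namespace DomRow

theorem kap_pos (i : ℕ) : 0 < kap i := by unfold kap; positivity

theorem kap_add3 (i : ℕ) : kap (i + 3) = (65 / 64 : ℝ) ^ 3 * kap i := by
  unfold kap; ring

theorem kap_le3 (i : ℕ) : kap i ≤ kap (i + 3) := by
  rw [kap_add3]
  have := kap_pos i
  nlinarith

theorem kap_3le (i : ℕ) : kap (i + 3) ≤ 2 * kap i := by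
  rw [kap_add3]
  have := kap_pos i
  norm_num
  nlinarith

theorem dl_nonneg (x : ℝ) : 0 ≤ dl x := abs_nonneg _

theorem dl_cont : Continuous dl := by unfold dl; fun_prop

theorem th_den_pos (i : ℕ) (x : ℝ) : 0 < 1 + kap i * dl x := by
  have := mul_nonneg (kap_pos i).le (dl_nonneg x)
  linarith

theorem th_nonneg (i : ℕ) (x : ℝ) : 0 ≤ th i x := by
  unfold th
  exact div_nonneg (kap_pos i).le (by positivity)

theorem th_cont (i : ℕ) : Continuous (th i) := by
  unfold th
  refine Continuous.div continuous_const ?_ (fun x => (pow_pos (th_den_pos i x) 2).ne')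
  exact ((continuous_const.add (continuous_const.mul dl_cont)).pow 2)

theorem dl_per : Function.Periodic dl 2 := by
  intro x
  unfold dl
  have : Real.pi * (x + 2) / 2 = Real.pi * x / 2 + Real.pi := by ring
  rw [this, Real.sin_add_pi, abs_neg]

theorem th_per (i : ℕ) : Function.Periodic (th i) 2 := by
  intro x
  unfold th
  rw [dl_per x]

theorem dl_lower {x : ℝ} (h : |x| ≤ 1) : |x| ≤ dl x := by
  have hp := Real.pi_pos
  have key : ∀ z : ℝ, 0 ≤ z → z ≤ 1 → z ≤ dl z := by
    intro z h0 h1
    have h2 := Real.mul_le_sin (x := Real.pi * z / 2) (by positivity) (by nlinarith)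
    have h3 : 2 / Real.pi * (Real.pi * z / 2) = z := by field_simp
    rw [h3] at h2
    exact h2.trans (le_abs_self _)
  have hev : dl |x| = dl x := by
    rcases abs_cases x with ⟨e, _⟩ | ⟨e, _⟩
    · rw [e]
    · rw [e]; unfold dl
      have : Real.pi * -x / 2 = -(Real.pi * x / 2) := by ring
      rw [this, Real.sin_neg, abs_neg]
  rw [← hev]
  exact key |x| (abs_nonneg x) h

/-- the integral of `θ_i` over a period is at most 2 -/
theorem th_int (i : ℕ) : cint (th i) ≤ 2 := by
  unfold cint
  have hk := kap_pos i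
  have hc : Continuous fun x : ℝ => kap i / (1 + kap i * |x|) ^ 2 := by
    refine Continuous.div continuous_const ?_ (fun x => ?_)
    · fun_prop
    · have : 0 < 1 + kap i * |x| := by positivity
      positivity
  have h1 : ∫ x in (-1 : ℝ)..1, th i x ≤ ∫ x in (-1 : ℝ)..1, kap i / (1 + kap i * |x|) ^ 2 := by
    refine intervalIntegral.integral_mono_on (by norm_num) ((th_cont i).intervalIntegrable _ _)
      (hc.intervalIntegrable _ _) ?_
    intro x hx
    have hx' : |x| ≤ 1 := abs_le.2 ⟨hx.1, hx.2⟩
    unfold th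
    have h2 := dl_lower hx'
    have h3 : 0 < 1 + kap i * |x| := by positivity
    have h4 : 1 + kap i * |x| ≤ 1 + kap i * dl x := by
      have := mul_le_mul_of_nonneg_left h2 hk.le
      linarith
    exact div_le_div_of_nonneg_left hk.le (by positivity) (pow_le_pow_left₀ h3.le h4 2)
  have h2 : ∫ x in (0 : ℝ)..1, kap i / (1 + kap i * |x|) ^ 2 ≤ 1 := by
    have e : ∫ x in (0 : ℝ)..1, kap i / (1 + kap i * |x|) ^ 2
        = ∫ x in (0 : ℝ)..1, kap i / (1 + kap i * x) ^ 2 := by
      refine intervalIntegral.integral_congr ?_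
      intro x hx
      rw [uIcc_of_le (by norm_num)] at hx
      simp only [abs_of_nonneg hx.1]
    have hd : ∀ x ∈ uIcc (0 : ℝ) 1, HasDerivAt (fun z : ℝ => -(1 + kap i * z)⁻¹)
        (kap i / (1 + kap i * x) ^ 2) x := by
      intro x hx
      rw [uIcc_of_le (by norm_num)] at hx
      have hpos : 0 < 1 + kap i * x := by
        have := mul_nonneg hk.le hx.1
        linarith
      have h5 : HasDerivAt (fun z : ℝ => 1 + kap i * z) (kap i) x := by
        have := ((hasDerivAt_id x).const_mul (kap i)).const_add 1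
        simpa using this
      have h6 := (h5.inv hpos.ne').neg
      have h7 : kap i / (1 + kap i * x) ^ 2 = -(-kap i / (1 + kap i * x) ^ 2) := by
        rw [neg_div, neg_neg]
      rw [h7]
      exact h6
    have hint : IntervalIntegrable (fun x : ℝ => kap i / (1 + kap i * x) ^ 2) volume 0 1 := by
      refine ContinuousOn.intervalIntegrable ?_
      rw [uIcc_of_le (by norm_num)]
      refine ContinuousOn.div continuousOn_const (by fun_prop) ?_
      intro x hx
      have hpos : 0 < 1 + kap i * x := by
        have := mul_nonneg hk.le hx.1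
        linarith
      positivity
    rw [e, intervalIntegral.integral_eq_sub_of_hasDerivAt hd hint]
    have : 0 ≤ (1 + kap i * 1)⁻¹ := by positivity
    simp only [mul_zero, add_zero, inv_one]
    linarith
  have h3 : ∫ x in (-1 : ℝ)..0, kap i / (1 + kap i * |x|) ^ 2
      = ∫ x in (0 : ℝ)..1, kap i / (1 + kap i * |x|) ^ 2 := by
    have := intervalIntegral.integral_comp_neg (a := (0 : ℝ)) (b := 1)
      (fun x : ℝ => kap i / (1 + kap i * |x|) ^ 2)
    simp only [abs_neg, neg_zero] at this
    exact this.symm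
  have h4 : ∫ x in (-1 : ℝ)..1, kap i / (1 + kap i * |x|) ^ 2
      = (∫ x in (-1 : ℝ)..0, kap i / (1 + kap i * |x|) ^ 2)
        + ∫ x in (0 : ℝ)..1, kap i / (1 + kap i * |x|) ^ 2 :=
    (intervalIntegral.integral_add_adjacent_intervals (hc.intervalIntegrable _ _)
      (hc.intervalIntegrable _ _)).symm
  rw [h4, h3] at h1
  linarith

/-- shift invariance of the integral over a period -/
theorem cint_shift {f : ℝ → ℝ} (hf : Function.Periodic f 2) (x : ℝ) :
    cint (fun y => f (x - y)) = cint f := by
  unfold cint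
  rw [intervalIntegral.integral_comp_sub_left (fun z => f z) x]
  have h := hf.intervalIntegral_add_eq (x - 1) (-1)
  have e1 : x - 1 + 2 = x - -1 := by ring
  have e2 : (-1 : ℝ) + 2 = 1 := by norm_num
  rw [e1, e2] at h
  exact h

theorem th_int_shift (i : ℕ) (x : ℝ) : cint (fun y => th i (x - y)) ≤ 2 := by
  rw [cint_shift (th_per i) x]
  exact th_int i

/-- Cauchy-Schwarz with a weight -/
theorem cs {w f : ℝ → ℝ} (hw : Continuous w) (hw0 : ∀ y, 0 ≤ w y) (hf : Continuous f) {B : ℝ}
    (hB : 0 < B) (h : cint w ≤ B) :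
    (cint (fun y => w y * |f y|)) ^ 2 ≤ B * cint (fun y => w y * (f y) ^ 2) := by
  have key : ∀ s : ℝ, 0 ≤ cint (fun y => w y * (f y) ^ 2) - 2 * s * cint (fun y => w y * |f y|)
      + s ^ 2 * cint w := by
    intro s
    have e : cint (fun y => w y * (|f y| - s) ^ 2) = cint (fun y => w y * (f y) ^ 2)
        - 2 * s * cint (fun y => w y * |f y|) + s ^ 2 * cint w := by
      unfold cint
      rw [← intervalIntegral.integral_const_mul, ← intervalIntegral.integral_const_mul,
        ← intervalIntegral.integral_sub, ← intervalIntegral.integral_add]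
      · refine intervalIntegral.integral_congr ?_
        intro y _
        have : |f y| ^ 2 = f y ^ 2 := sq_abs _
        change w y * (|f y| - s) ^ 2 = w y * f y ^ 2 - 2 * s * (w y * |f y|) + s ^ 2 * w y
        rw [← this]
        ring
      · exact Continuous.intervalIntegrable (by fun_prop) _ _
      · exact Continuous.intervalIntegrable (by fun_prop) _ _
      · exact Continuous.intervalIntegrable (by fun_prop) _ _
      · exact Continuous.intervalIntegrable (by fun_prop) _ _
    rw [← e]
    unfold cint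
    refine intervalIntegral.integral_nonneg (by norm_num) ?_
    intro y _
    exact mul_nonneg (hw0 y) (sq_nonneg _)
  have h1 := key (cint (fun y => w y * |f y|) / B)
  set t := cint (fun y => w y * |f y|) with ht
  set I2 := cint (fun y => w y * (f y) ^ 2) with hI2
  have h2 : (t / B) ^ 2 * cint w ≤ (t / B) ^ 2 * B := mul_le_mul_of_nonneg_left h (sq_nonneg _)
  have h3 : (t / B) ^ 2 * B = t ^ 2 / B := by field_simp
  have h4 : 2 * (t / B) * t = 2 * (t ^ 2 / B) := by ring
  rw [h3] at h2
  rw [h4] at h1
  have h5 : t ^ 2 / B ≤ I2 := by linarith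
  rw [div_le_iff₀ hB] at h5
  linarith

/-- the abstract estimate -/
theorem main {C : ℝ} (hC : 0 < C) (l : ℕ) {W g : ℝ → ℝ} (hW : Continuous W) (hg : Continuous g)
    (hb : ∀ x, |W x| ≤ C * kap (l + 3) / (1 + kap (l + 3) * dl x) ^ 4) (x : ℝ)
    (hr : conv W g x = g x) :
    (g x) ^ 2 ≤ 8 * C ^ 2 * cint (fun y => th l (x - y) * (g y) ^ 2) := by
  have hWb : ∀ z, |W z| ≤ 2 * C * th l z := by
    intro z
    refine (hb z).trans ?_
    have hk := kap_pos l
    have hk3 := kap_pos (l + 3)
    have hd := dl_nonneg z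
    have h1 : 1 + kap l * dl z ≤ 1 + kap (l + 3) * dl z := by
      have := mul_le_mul_of_nonneg_right (kap_le3 l) hd
      linarith
    have h0 := th_den_pos l z
    have h2 : (1 + kap l * dl z) ^ 2 ≤ (1 + kap (l + 3) * dl z) ^ 4 := by
      have h3 : (1 + kap l * dl z) ^ 2 ≤ (1 + kap (l + 3) * dl z) ^ 2 :=
        pow_le_pow_left₀ h0.le h1 2
      have h4 : (1 + kap (l + 3) * dl z) ^ 2 ≤ (1 + kap (l + 3) * dl z) ^ 4 := by
        refine pow_le_pow_right₀ ?_ (by norm_num)
        have := mul_nonneg hk3.le hd
        linarith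
      exact h3.trans h4
    unfold th
    rw [mul_div_assoc']
    refine div_le_div₀ (by positivity) ?_ (by positivity) h2
    have := mul_le_mul_of_nonneg_left (kap_3le l) hC.le
    linarith
  have h1 : |g x| ≤ 2 * C * cint (fun y => th l (x - y) * |g y|) := by
    rw [← hr]
    unfold conv cint
    rw [← intervalIntegral.integral_const_mul]
    refine (intervalIntegral.abs_integral_le_integral_abs (by norm_num)).trans ?_
    have hthc := th_cont l
    refine intervalIntegral.integral_mono_on (by norm_num)
      (Continuous.intervalIntegrable (by fun_prop) _ _)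
      (Continuous.intervalIntegrable (by fun_prop) _ _) ?_
    intro y _
    rw [abs_mul]
    have := mul_le_mul_of_nonneg_right (hWb (x - y)) (abs_nonneg (g y))
    linarith
  have hthc := th_cont l
  have h2 := cs (w := fun y => th l (x - y)) (f := g) (by fun_prop) (fun y => th_nonneg l _) hg
    (B := 2) (by norm_num) (th_int_shift l x)
  have h3 : (g x) ^ 2 ≤ (2 * C * cint (fun y => th l (x - y) * |g y|)) ^ 2 := by
    rw [← sq_abs (g x)]
    exact pow_le_pow_left₀ (abs_nonneg _) h1 2
  have h4 : (2 * C * cint (fun y => th l (x - y) * |g y|)) ^ 2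
      = 4 * C ^ 2 * (cint (fun y => th l (x - y) * |g y|)) ^ 2 := by ring
  rw [h4] at h3
  have h5 : 4 * C ^ 2 * (cint (fun y => th l (x - y) * |g y|)) ^ 2
      ≤ 4 * C ^ 2 * (2 * cint (fun y => th l (x - y) * (g y) ^ 2)) :=
    mul_le_mul_of_nonneg_left h2 (by positivity)
  linarith

/-- continuity of a convolution -/
theorem conv_cont {P f : ℝ → ℝ} (hP : Continuous P) (hf : Continuous f) :
    Continuous (conv P f) := by
  unfold conv
  refine intervalIntegral.continuous_parametric_intervalIntegral_of_continuous' ?_ _ _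
  fun_prop

end DomRow

open DomRow in
theorem dom_proof (h1 : KerStatement) (h2 : RepStatement) : DomStatement := by
  obtain ⟨C, hC, hK⟩ := h1
  refine ⟨8 * C ^ 2, by positivity, ?_⟩
  intro l f hf x
  have hV : ∀ i, Continuous (V i) := fun i => (hK i).1.continuous
  have hA : ∀ i, Continuous (A i) := fun i => (hV (i + 1)).sub (hV i)
  have hPA : ∀ i, Continuous (PA i) := fun i =>
    intervalIntegral.continuous_primitive (fun a b => (hA i).intervalIntegrable a b) 0
  obtain ⟨r1, r2⟩ := h2 l f hf x
  exact ⟨main hC l (hV _) (conv_cont (hA l) hf.1) (hK (l + 3)).2.2.2.2.2.1 x r1,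
    main hC l (hV _) (conv_cont (hPA l) hf.1) (hK (l + 3)).2.2.2.2.2.1 x r2⟩

end

end Pool.Agent.C1E
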