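import Pool.Agent.Lib.MP_c1e222_an.Cnv

/-!
# MP_c1e222_an, row Er (section 7: the error lemma)
-/

namespace Pool.Agent.C1E

open MeasureTheory Set Filter Topology intervalIntegral

noncomputable section

theorem er_cDir (a : ℕ) : Continuous (Dir a) := by
  unfold Dir
  fun_prop

theorem er_cV (i : ℕ) : Continuous (V i) := by
  unfold V
  exact (continuous_const.mul (er_cDir _)).mul (((er_cDir _).div_const _).pow 3)

theorem er_cA (i : ℕ) : Continuous (A i) := by
  unfold A
  exact (er_cV _).sub (er_cV _)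

theorem er_Lo (i : ℕ) {F : ℝ → ℝ → ℝ} (hF : Continuous (Function.uncurry F)) :
    Continuous (Function.uncurry fun t x => Lo i (F t) x) :=
  continuous_conv₂ (er_cV i) hF

theorem er_Pa (i : ℕ) {F : ℝ → ℝ → ℝ} (hF : Continuous (Function.uncurry F)) :
    Continuous (Function.uncurry fun t x => Pa i (F t) x) :=
  continuous_conv₂ (er_cA i) hF

theorem er_mul {F G : ℝ → ℝ → ℝ} (hF : Continuous (Function.uncurry F))
    (hG : Continuous (Function.uncurry G)) :
    Continuous (Function.uncurry fun t x => F t x * G t x) := hF.mul hG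

theorem er_sub {F G : ℝ → ℝ → ℝ} (hF : Continuous (Function.uncurry F))
    (hG : Continuous (Function.uncurry G)) :
    Continuous (Function.uncurry fun t x => F t x - G t x) := hF.sub hG

theorem er_add {F G : ℝ → ℝ → ℝ} (hF : Continuous (Function.uncurry F))
    (hG : Continuous (Function.uncurry G)) :
    Continuous (Function.uncurry fun t x => F t x + G t x) := hF.add hG

theorem er_pow {F : ℝ → ℝ → ℝ} (hF : Continuous (Function.uncurry F)) (n : ℕ) :
    Continuous (Function.uncurry fun t x => F t x ^ n) := hF.pow n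

theorem er_abs {F : ℝ → ℝ → ℝ} (hF : Continuous (Function.uncurry F)) :
    Continuous (Function.uncurry fun t x => |F t x|) := hF.abs

theorem er_const (c : ℝ) : Continuous (Function.uncurry fun (_ _ : ℝ) => c) := continuous_const

/-- first integrand -/
def erA (M j : ℕ) (u r : ℝ → ℝ) (x : ℝ) : ℝ :=
  |Lo (j - M) u x| * |Lo (j - M) r x| * (Pa j u x) ^ 2

def erB (M j : ℕ) (u r : ℝ → ℝ) (x : ℝ) : ℝ := |cm M j u x| * |Pa j r x|

def erC (M j : ℕ) (u r : ℝ → ℝ) (x : ℝ) : ℝ :=
  |Pa j (fun y => Lo (j - M) u y * (u y - Lo (j - M) u y) ^ 2) x| * |Pa j r x|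

def erD (M j : ℕ) (u r : ℝ → ℝ) (x : ℝ) : ℝ :=
  |Pa j (fun y => (u y - Lo (j - M) u y) ^ 3) x| * |Pa j r x|

theorem er_cA' {u r : ℝ → ℝ → ℝ} (hu : Continuous (Function.uncurry u))
    (hr : Continuous (Function.uncurry r)) (M j : ℕ) :
    Continuous (Function.uncurry fun t x => erA M j (u t) (r t) x) :=
  er_mul (er_mul (er_abs (er_Lo _ hu)) (er_abs (er_Lo _ hr))) (er_pow (er_Pa _ hu) 2)

theorem er_cB' {u r : ℝ → ℝ → ℝ} (hu : Continuous (Function.uncurry u))
    (hr : Continuous (Function.uncurry r)) (M j : ℕ) :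
    Continuous (Function.uncurry fun t x => erB M j (u t) (r t) x) := by
  refine er_mul (er_abs ?_) (er_abs (er_Pa _ hr))
  exact er_sub (er_mul (er_pow (er_Lo _ hu) 2) (er_Pa _ (er_sub (er_Lo _ hu) (er_Lo _ hu))))
    (er_Pa _ (er_mul (er_pow (er_Lo _ hu) 2) (er_sub (er_Lo _ hu) (er_Lo _ hu))))

theorem er_cC' {u r : ℝ → ℝ → ℝ} (hu : Continuous (Function.uncurry u))
    (hr : Continuous (Function.uncurry r)) (M j : ℕ) :
    Continuous (Function.uncurry fun t x => erC M j (u t) (r t) x) :=
  er_mul (er_abs (er_Pa _ (er_mul (er_Lo _ hu) (er_pow (er_sub hu (er_Lo _ hu)) 2))))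
    (er_abs (er_Pa _ hr))

theorem er_cD' {u r : ℝ → ℝ → ℝ} (hu : Continuous (Function.uncurry u))
    (hr : Continuous (Function.uncurry r)) (M j : ℕ) :
    Continuous (Function.uncurry fun t x => erD M j (u t) (r t) x) :=
  er_mul (er_abs (er_Pa _ (er_pow (er_sub hu (er_Lo _ hu)) 3))) (er_abs (er_Pa _ hr))

theorem er_cS' {u r : ℝ → ℝ → ℝ} (hu : Continuous (Function.uncurry u))
    (hr : Continuous (Function.uncurry r)) (M j : ℕ) :
    Continuous (Function.uncurry fun t x => |SS M j (u t) (r t) x|) := by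
  refine er_abs ?_
  refine er_add (er_mul (er_mul (er_mul (er_const 3) (er_Lo _ hu)) (er_Lo _ hr))
    (er_pow (er_Pa _ hu) 2)) ?_
  exact er_mul (er_sub (er_mul (er_mul (er_const 3) (er_pow (er_Lo _ hu) 2)) (er_Pa _ hu))
    (er_Pa _ (er_pow hu 3))) (er_Pa _ hr)

theorem er_slice {F : ℝ → ℝ → ℝ} (hF : Continuous (Function.uncurry F)) (t : ℝ) :
    Continuous (F t) := hF.comp (Continuous.prodMk_right t)

/-- the integrated decomposition -/
theorem er_dec (h1 : DecStatement) {M : ℕ} (hM : 1000 ≤ (65 / 64 : ℝ) ^ M) {E : ℝ}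
    {u r : ℝ → ℝ → ℝ} (hc : Core E u r) {j : ℕ} (hj : M ≤ j) {t0 t1 : ℝ} (ht : t0 ≤ t1) :
    Err M j u r t0 t1 ≤ 3 * (∫ t in t0..t1, cint (erA M j (u t) (r t)))
      + 3 * (∫ t in t0..t1, cint (erB M j (u t) (r t)))
      + 3 * (∫ t in t0..t1, cint (erC M j (u t) (r t)))
      + ∫ t in t0..t1, cint (erD M j (u t) (r t)) := by
  have cA := er_cA' hc.cu hc.cr M j
  have cB := er_cB' hc.cu hc.cr M j
  have cC := er_cC' hc.cu hc.cr M j
  have cD := er_cD' hc.cu hc.cr M j
  have cS := er_cS' hc.cu hc.cr M j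
  have iA : Continuous fun t => cint (erA M j (u t) (r t)) := continuous_cint cA
  have iB : Continuous fun t => cint (erB M j (u t) (r t)) := continuous_cint cB
  have iC : Continuous fun t => cint (erC M j (u t) (r t)) := continuous_cint cC
  have iD : Continuous fun t => cint (erD M j (u t) (r t)) := continuous_cint cD
  have iS : Continuous fun t => cint (fun x => |SS M j (u t) (r t) x|) := continuous_cint cS
  have hpt : ∀ t, cint (fun x => |SS M j (u t) (r t) x|) ≤
      3 * cint (erA M j (u t) (r t)) + 3 * cint (erB M j (u t) (r t))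
        + 3 * cint (erC M j (u t) (r t)) + cint (erD M j (u t) (r t)) := by
    intro t
    have kA : Continuous (erA M j (u t) (r t)) := er_slice cA t
    have kB : Continuous (erB M j (u t) (r t)) := er_slice cB t
    have kC : Continuous (erC M j (u t) (r t)) := er_slice cC t
    have kD : Continuous (erD M j (u t) (r t)) := er_slice cD t
    have kS : Continuous (fun x => |SS M j (u t) (r t) x|) := er_slice cS t
    have h2 : cint (fun x => |SS M j (u t) (r t) x|) ≤
        cint (fun x => 3 * erA M j (u t) (r t) x + 3 * erB M j (u t) (r t) x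
          + 3 * erC M j (u t) (r t) x + erD M j (u t) (r t) x) := by
      refine cint_mono kS (by fun_prop) fun x => ?_
      exact h1 M E (u t) (r t) hM (hc.prof t) j hj x
    rw [cint_add (by fun_prop) (by fun_prop), cint_add (by fun_prop) (by fun_prop),
      cint_add (by fun_prop) (by fun_prop), cint_mul_left, cint_mul_left, cint_mul_left] at h2
    exact h2
  have h3 : Err M j u r t0 t1 ≤ ∫ t in t0..t1, (3 * cint (erA M j (u t) (r t))
      + 3 * cint (erB M j (u t) (r t)) + 3 * cint (erC M j (u t) (r t))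
      + cint (erD M j (u t) (r t))) := by
    unfold Err
    refine intervalIntegral.integral_mono_on ht (iS.intervalIntegrable _ _) ?_ fun t _ => hpt t
    have : Continuous fun t => (3 * cint (erA M j (u t) (r t))
      + 3 * cint (erB M j (u t) (r t)) + 3 * cint (erC M j (u t) (r t))
      + cint (erD M j (u t) (r t))) := by fun_prop
    exact this.intervalIntegrable _ _
  have cc : ∀ f : ℝ → ℝ, Continuous f → IntervalIntegrable f volume t0 t1 :=
    fun f hf => hf.intervalIntegrable _ _
  rw [intervalIntegral.integral_add (cc _ (by fun_prop)) (cc _ (by fun_prop)),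
    intervalIntegral.integral_add (cc _ (by fun_prop)) (cc _ (by fun_prop)),
    intervalIntegral.integral_add (cc _ (by fun_prop)) (cc _ (by fun_prop)),
    intervalIntegral.integral_const_mul, intervalIntegral.integral_const_mul,
    intervalIntegral.integral_const_mul] at h3
  exact h3

theorem er_proof (h1 : DecStatement) (h2 : SaStatement) (h3 : SbStatement) (h4 : ScStatement)
    (h5 : SdStatement) : ErStatement := by
  intro M hM E
  obtain ⟨Ca, hCa, hA⟩ := h2 M hM E
  obtain ⟨Cb, hCb, hB⟩ := h3 M hM E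
  obtain ⟨Cc, hCc, hC⟩ := h4 M hM E
  obtain ⟨Cd, hCd, hD1, hD2⟩ := h5 M hM E
  refine ⟨9 * Ca + 9 * Cb + 3 * Cc + Cd, by positivity, ?_⟩
  intro u r hc t0 t1 ht L hL hHL J hJ Λ hΛ hX j hMj hjJ
  set T : ℝ := t1 - t0 + 1 with hT
  have hT1 : 1 ≤ T := by rw [hT]; linarith
  set k : ℝ := kap j with hk
  have hk0 : 0 < k := kap_pos j
  set W : ℝ := Real.sqrt (Λ * (T + k ^ 2) * T) with hW
  have hWT : T ≤ W := by
    rw [hW]
    apply Real.le_sqrt_of_sq_le
    have a1 : T ≤ Λ * (T + k ^ 2) := by
      have : 1 * (T + k ^ 2) ≤ Λ * (T + k ^ 2) :=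
        mul_le_mul_of_nonneg_right hΛ (by positivity)
      nlinarith [sq_nonneg k]
    nlinarith
  have hW0 : 0 < W := by linarith
  have hJ1 : (1 : ℝ) ≤ (J : ℝ) := by
    have : 1 ≤ J := by omega
    exact_mod_cast this
  have hJW : W ≤ J * W := by nlinarith
  have hiD : Continuous fun t => cint (erD M j (u t) (r t)) :=
    continuous_cint (er_cD' hc.cu hc.cr M j)
  by_cases hj2 : j < 2 * M
  · -- small j
    have e1 : Err M j u r t0 t1 ≤ ∫ t in t0..t1, Cd / k ^ 2 := by
      unfold Err
      have iS : Continuous fun t => cint (fun x => |SS M j (u t) (r t) x|) :=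
        continuous_cint (er_cS' hc.cu hc.cr M j)
      refine intervalIntegral.integral_mono_on ht (iS.intervalIntegrable _ _)
        intervalIntegrable_const fun t _ => ?_
      exact hD2 (u t) (r t) (hc.prof t) j hMj hj2
    rw [intervalIntegral.integral_const, smul_eq_mul] at e1
    refine e1.trans ?_
    have e2 : (t1 - t0) * (Cd / k ^ 2) ≤ (J * W) * (Cd / k ^ 2) := by
      refine mul_le_mul_of_nonneg_right ?_ (by positivity)
      have : t1 - t0 ≤ T := by rw [hT]; linarith
      linarith
    refine e2.trans ?_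
    have e3 : (J * W) * (Cd / k ^ 2) = Cd * J / k ^ 2 * W := by ring
    rw [e3]
    refine mul_le_mul_of_nonneg_right ?_ hW0.le
    refine div_le_div_of_nonneg_right ?_ (by positivity)
    refine mul_le_mul_of_nonneg_right ?_ (by positivity)
    linarith
  · have hj3 : 2 * M ≤ j := by omega
    -- the sum
    have hsum : T + ∑ l ∈ Finset.Ico M (j - M),
        Real.sqrt ((X l j u r t0 t1 + T) * T) ≤ 3 * (J * W) := by
      have hs : ∀ l ∈ Finset.Ico M (j - M), Real.sqrt ((X l j u r t0 t1 + T) * T) ≤ 2 * W := by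
        intro l hl
        rw [Finset.mem_Ico] at hl
        have hlM : l + M ≤ j := by omega
        have hkl : 1000 * kap l ≤ k := by
          have b1 : kap (l + M) ≤ kap j := kap_mono hlM
          rw [kap_add] at b1
          have b2 : 1000 * kap l ≤ (65 / 64 : ℝ) ^ M * kap l :=
            mul_le_mul_of_nonneg_right hM.1 (kap_pos l).le
          linarith
        have hkl0 := kap_pos l
        have hsep : Sep l j := by
          unfold Sep
          rw [← hk]
          linarith
        have hXl := hX l j hl.1 hjJ hsep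
        have hkk : (kap l) ^ 2 ≤ k ^ 2 := pow_le_pow_left₀ hkl0.le (by linarith) 2
        have hXl2 : X l j u r t0 t1 ≤ Λ * (T + k ^ 2) := by
          refine hXl.trans ?_
          refine mul_le_mul_of_nonneg_left ?_ (by linarith)
          linarith
        have hTT : T ≤ Λ * (T + k ^ 2) := by
          have : 1 * (T + k ^ 2) ≤ Λ * (T + k ^ 2) :=
            mul_le_mul_of_nonneg_right hΛ (by positivity)
          nlinarith [sq_nonneg k]
        have b3 : (X l j u r t0 t1 + T) * T ≤ 2 ^ 2 * (Λ * (T + k ^ 2) * T) := by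
          have b4 : (X l j u r t0 t1 + T) * T ≤ (2 * (Λ * (T + k ^ 2))) * T :=
            mul_le_mul_of_nonneg_right (by linarith) (by linarith)
          have b5 : 0 ≤ Λ * (T + k ^ 2) * T := by positivity
          nlinarith
        calc Real.sqrt ((X l j u r t0 t1 + T) * T) ≤ Real.sqrt (2 ^ 2 * (Λ * (T + k ^ 2) * T)) :=
              Real.sqrt_le_sqrt b3
          _ = 2 * W := by
              rw [Real.sqrt_mul (by positivity), Real.sqrt_sq (by norm_num)]
      have hs2 := Finset.sum_le_card_nsmul _ _ _ hs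
      rw [Nat.card_Ico, nsmul_eq_mul] at hs2
      have hcard : ((j - M - M : ℕ) : ℝ) ≤ (J : ℝ) := by
        have : j - M - M ≤ J := by omega
        exact_mod_cast this
      have hs3 : ((j - M - M : ℕ) : ℝ) * (2 * W) ≤ J * (2 * W) :=
        mul_le_mul_of_nonneg_right hcard (by linarith)
      linarith
    have hsum0 : 0 ≤ T + ∑ l ∈ Finset.Ico M (j - M), Real.sqrt ((X l j u r t0 t1 + T) * T) := by
      have : 0 ≤ ∑ l ∈ Finset.Ico M (j - M), Real.sqrt ((X l j u r t0 t1 + T) * T) :=
        Finset.sum_nonneg fun _ _ => Real.sqrt_nonneg _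
      linarith
    have hk2 : 0 < k ^ 2 := by positivity
    have fA : (∫ t in t0..t1, cint (erA M j (u t) (r t))) ≤ Ca / k ^ 2 * (3 * (J * W)) := by
      refine (hA u r hc j hj3 t0 t1 ht).trans ?_
      exact mul_le_mul_of_nonneg_left hsum (by positivity)
    have fB : (∫ t in t0..t1, cint (erB M j (u t) (r t))) ≤ Cb / k ^ 2 * (3 * (J * W)) := by
      refine (hB u r hc j hj3 t0 t1 ht).trans ?_
      exact mul_le_mul_of_nonneg_left hsum (by positivity)
    have fC : (∫ t in t0..t1, cint (erC M j (u t) (r t))) ≤ Cc / k ^ 2 * (J * W) := by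
      refine (hC u r hc t0 t1 ht L hL hHL J hJ Λ hΛ hX j hj3 hjJ).trans ?_
      exact mul_le_mul_of_nonneg_left hJW (by positivity)
    have fD : (∫ t in t0..t1, cint (erD M j (u t) (r t))) ≤ Cd / k ^ 2 * (J * W) := by
      have g1 : (∫ t in t0..t1, cint (erD M j (u t) (r t))) ≤ ∫ t in t0..t1, Cd / k ^ 2 := by
        refine intervalIntegral.integral_mono_on ht (hiD.intervalIntegrable _ _)
          intervalIntegrable_const fun t _ => ?_
        exact hD1 (u t) (r t) (hc.prof t) j hMj
      rw [intervalIntegral.integral_const, smul_eq_mul] at g1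
      refine g1.trans ?_
      rw [mul_comm]
      refine mul_le_mul_of_nonneg_left ?_ (by positivity)
      have : t1 - t0 ≤ T := by rw [hT]; linarith
      linarith
    have hdec := er_dec h1 hM.1 hc hMj ht
    have hfin : 3 * (Ca / k ^ 2 * (3 * (J * W))) + 3 * (Cb / k ^ 2 * (3 * (J * W)))
        + 3 * (Cc / k ^ 2 * (J * W)) + Cd / k ^ 2 * (J * W)
        = (9 * Ca + 9 * Cb + 3 * Cc + Cd) * J / k ^ 2 * W := by ring
    rw [← hfin]
    linarith

end

end Pool.Agent.C1E
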