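import Pool.Agent.Lib.MP_c1e222_an.ExtD

/-!
# Row Ext: extension to the circle, characteristic form, energy
-/

namespace Pool.Agent.C1E

open MeasureTheory Set Filter Topology

noncomputable section

namespace ExtAux

variable {u ux ut uxx utx : ℝ → ℝ → ℝ}

theorem v_mxx (h : VSol u ux ut uxx utx) (t : ℝ) : L2 (uxx t) := h.mxx t

theorem v_mtx (h : VSol u ux ut uxx utx) (t : ℝ) : L2 (utx t) := h.mtx t

theorem v_cut (h : VSol u ux ut uxx utx) (t : ℝ) : ContinuousOn (ut t) (Icc (0 : ℝ) 1) :=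
  (prim_cont (v_mtx h t)).congr (fun x hx => h.iut t x hx)

theorem v_cux (h : VSol u ux ut uxx utx) (t : ℝ) : ContinuousOn (ux t) (Icc (0 : ℝ) 1) :=
  (continuousOn_const.add (prim_cont (v_mxx h t))).congr (fun x hx => h.iux t x hx)

theorem v_mut (h : VSol u ux ut uxx utx) (t : ℝ) : L2 (ut t) := L2.of_cont (v_cut h t)

theorem v_mux (h : VSol u ux ut uxx utx) (t : ℝ) : L2 (ux t) := L2.of_cont (v_cux h t)

theorem v_cu (h : VSol u ux ut uxx utx) (t : ℝ) : ContinuousOn (u t) (Icc (0 : ℝ) 1) :=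
  (prim_cont (v_mux h t)).congr (fun x hx => h.iu t x hx)

theorem v_mu3 (h : VSol u ux ut uxx utx) (t : ℝ) : L2 (fun x => (u t x) ^ 3) :=
  L2.of_cont ((v_cu h t).pow 3)

theorem v_o (h : VSol u ux ut uxx utx) (t x : ℝ) :
    oext (u t) x = ∫ y in (0 : ℝ)..x, eext (ux t) y :=
  prim_o (v_mux h t).ii (h.u1 t) (h.iu t) x

theorem v_ot (h : VSol u ux ut uxx utx) (t x : ℝ) :
    oext (ut t) x = ∫ y in (0 : ℝ)..x, eext (utx t) y :=
  prim_o (v_mtx h t).ii (h.v1 t) (h.iut t) x

theorem v_e (h : VSol u ux ut uxx utx) (t x : ℝ) :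
    eext (ux t) x = ux t 0 + ∫ y in (0 : ℝ)..x, oext (uxx t) y :=
  prim_e (v_mxx h t).ii (h.iux t) x

theorem v_ce (h : VSol u ux ut uxx utx) (t : ℝ) : Continuous (eext (ux t)) := by
  have h1 : Continuous fun x => ux t 0 + ∫ y in (0 : ℝ)..x, oext (uxx t) y :=
    continuous_const.add (intervalIntegral.continuous_primitive (ii_oext (v_mxx h t).ii) 0)
  refine h1.congr ?_
  intro x; exact (v_e h t x).symm

theorem v_cot (h : VSol u ux ut uxx utx) (t : ℝ) : Continuous (oext (ut t)) := by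
  have h1 : Continuous fun x => ∫ y in (0 : ℝ)..x, eext (utx t) y :=
    intervalIntegral.continuous_primitive (ii_eext (v_mtx h t).ii) 0
  refine h1.congr ?_
  intro x; exact (v_ot h t x).symm

theorem v_dx (h : VSol u ux ut uxx utx) (t x : ℝ) :
    HasDerivAt (oext (u t)) (eext (ux t) x) x := by
  have e : oext (u t) = fun x => ∫ y in (0 : ℝ)..x, eext (ux t) y := by
    funext x; exact v_o h t x
  rw [e]
  exact ((v_ce h t).integral_hasStrictDerivAt 0 x).hasDerivAt

theorem v_co (h : VSol u ux ut uxx utx) (t : ℝ) : Continuous (oext (u t)) :=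
  continuous_iff_continuousAt.2 fun x => (v_dx h t x).continuousAt

/-! ### continuity in time -/

theorem sqrt_tend {f : ℝ → ℝ} {l : Filter ℝ} (h : Tendsto f l (𝓝 0)) (c : ℝ) :
    Tendsto (fun s => c * Real.sqrt (f s)) l (𝓝 0) := by
  have := ((Real.continuous_sqrt.tendsto _).comp h).const_mul c
  rw [Real.sqrt_zero, mul_zero] at this
  exact this

theorem v_tut (h : VSol u ux ut uxx utx) (s t : ℝ) {x : ℝ} (hx : x ∈ Icc (0 : ℝ) 1) :
    |ut s x - ut t x| ≤ Real.sqrt (∫ y in (0 : ℝ)..1, (utx s y - utx t y) ^ 2) := by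
  have hs : uIcc (0 : ℝ) x ⊆ uIcc (0 : ℝ) 1 := by
    rw [uIcc_of_le hx.1, uIcc_of_le zero_le_one]
    exact Icc_subset_Icc_right hx.2
  rw [h.iut s x hx, h.iut t x hx, ← intervalIntegral.integral_sub
    ((v_mtx h s).ii.mono_set hs) ((v_mtx h t).ii.mono_set hs)]
  exact prim_le ((v_mtx h s).sub (v_mtx h t)) hx

theorem v_tux (h : VSol u ux ut uxx utx) (s t : ℝ) {x : ℝ} (hx : x ∈ Icc (0 : ℝ) 1) :
    |ux s x - ux t x| ≤ 2 * Real.sqrt (∫ y in (0 : ℝ)..1, (uxx s y - uxx t y) ^ 2) := by
  refine mean_le (f := fun x => ux s x - ux t x) ((v_mxx h s).sub (v_mxx h t))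
    ((v_cux h s).sub (v_cux h t)) ?_ ?_ hx
  · intro x hx
    have hs : uIcc (0 : ℝ) x ⊆ uIcc (0 : ℝ) 1 := by
      rw [uIcc_of_le hx.1, uIcc_of_le zero_le_one]
      exact Icc_subset_Icc_right hx.2
    rw [h.iux s x hx, h.iux t x hx, intervalIntegral.integral_sub
      ((v_mxx h s).ii.mono_set hs) ((v_mxx h t).ii.mono_set hs)]
    ring
  · rw [intervalIntegral.integral_sub (v_mux h s).ii (v_mux h t).ii,
      ← h.iu s 1 ⟨zero_le_one, le_rfl⟩, ← h.iu t 1 ⟨zero_le_one, le_rfl⟩, h.u1, h.u1, sub_zero]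

theorem v_tu (h : VSol u ux ut uxx utx) (s t : ℝ) {x : ℝ} (hx : x ∈ Icc (0 : ℝ) 1) :
    |u s x - u t x| ≤ 2 * Real.sqrt (∫ y in (0 : ℝ)..1, (uxx s y - uxx t y) ^ 2) := by
  set S := 2 * Real.sqrt (∫ y in (0 : ℝ)..1, (uxx s y - uxx t y) ^ 2) with hS
  have hS0 : 0 ≤ S := by positivity
  have hs : uIcc (0 : ℝ) x ⊆ uIcc (0 : ℝ) 1 := by
    rw [uIcc_of_le hx.1, uIcc_of_le zero_le_one]
    exact Icc_subset_Icc_right hx.2
  rw [h.iu s x hx, h.iu t x hx, ← intervalIntegral.integral_sub
    ((v_mux h s).ii.mono_set hs) ((v_mux h t).ii.mono_set hs)]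
  have := intervalIntegral.norm_integral_le_of_norm_le_const (a := (0 : ℝ)) (b := x)
    (f := fun x => ux s x - ux t x) (C := S) ?_
  · rw [Real.norm_eq_abs] at this
    refine this.trans ?_
    rw [sub_zero, abs_of_nonneg hx.1]
    exact mul_le_of_le_one_right hS0 hx.2
  · intro y hy
    rw [uIoc_of_le hx.1] at hy
    rw [Real.norm_eq_abs]
    exact v_tux h s t ⟨hy.1.le, hy.2.trans hx.2⟩

theorem oext_sub (f g : ℝ → ℝ) (x : ℝ) : oext f x - oext g x = oext (fun y => f y - g y) x := by
  unfold oext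
  split_ifs
  · rfl
  · ring

theorem v_jo (h : VSol u ux ut uxx utx) : Continuous (Function.uncurry fun t => oext (u t)) := by
  refine joint (fun t => v_co h t) ?_
  intro t ε hε
  have h1 := (sqrt_tend (h.cxx t) 2).eventually_le_const hε
  filter_upwards [h1] with s hs x
  rw [oext_sub]
  exact oext_le (fun x hx => (v_tu h s t hx).trans hs) x

theorem v_jot (h : VSol u ux ut uxx utx) : Continuous (Function.uncurry fun t => oext (ut t)) := by
  refine joint (fun t => v_cot h t) ?_
  intro t ε hε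
  have h1 := (sqrt_tend (h.ctx t) 1).eventually_le_const hε
  filter_upwards [h1] with s hs x
  rw [oext_sub]
  rw [one_mul] at hs
  exact oext_le (fun x hx => (v_tut h s t hx).trans hs) x

theorem v_je (h : VSol u ux ut uxx utx) : Continuous (Function.uncurry fun t => eext (ux t)) := by
  refine joint (fun t => v_ce h t) ?_
  intro t ε hε
  have h1 := (sqrt_tend (h.cxx t) 2).eventually_le_const hε
  filter_upwards [h1] with s hs x
  have e : eext (ux s) x - eext (ux t) x = eext (fun y => ux s y - ux t y) x := rfl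
  rw [e]
  exact eext_le (fun x hx => (v_tux h s t hx).trans hs) x

theorem v_jr (h : VSol u ux ut uxx utx) :
    Continuous (Function.uncurry fun t x => oext (ut t) x + eext (ux t) x) :=
  (v_jot h).add (v_je h)

theorem v_jp (h : VSol u ux ut uxx utx) :
    Continuous (Function.uncurry fun t x => (oext (u t) x) ^ 3) :=
  (v_jo h).pow 3

/-! ### derivative in time -/

theorem v_dt (h : VSol u ux ut uxx utx) (t : ℝ) {x : ℝ} (hx : x ∈ Icc (0 : ℝ) 1) :
    HasDerivAt (fun s => u s x) (ut t x) t := by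
  rw [hasDerivAt_iff_tendsto_slope_zero, tendsto_iff_norm_sub_tendsto_zero]
  refine squeeze_zero' (Eventually.of_forall fun _ => norm_nonneg _) ?_ (sqrt_tend (h.dux t) 1)
  filter_upwards [self_mem_nhdsWithin] with k hk
  have hk' : k ≠ 0 := hk
  have hs : uIcc (0 : ℝ) x ⊆ uIcc (0 : ℝ) 1 := by
    rw [uIcc_of_le hx.1, uIcc_of_le zero_le_one]
    exact Icc_subset_Icc_right hx.2
  have i1 := (v_mux h (t + k)).ii.mono_set hs
  have i2 := (v_mux h t).ii.mono_set hs
  have i3 := (v_mtx h t).ii.mono_set hs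
  have e1 : k⁻¹ • (u (t + k) x - u t x) - ut t x =
      ∫ y in (0 : ℝ)..x, ((ux (t + k) y - ux t y) / k - utx t y) := by
    rw [h.iu (t + k) x hx, h.iu t x hx, h.iut t x hx, intervalIntegral.integral_sub
      ((i1.sub i2).div_const k) i3, intervalIntegral.integral_div,
      intervalIntegral.integral_sub i1 i2, smul_eq_mul, div_eq_inv_mul]
  rw [e1, one_mul, Real.norm_eq_abs]
  exact prim_le ((((v_mux h (t + k)).sub (v_mux h t)).div k).sub (v_mtx h t)) hx

theorem v_dto (h : VSol u ux ut uxx utx) (t x : ℝ) :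
    HasDerivAt (fun s => oext (u s) x) (oext (ut t) x) t := by
  have hx := rd_mem x
  unfold oext
  split_ifs with h1
  · exact v_dt h t ⟨h1, hx.2.le⟩
  · exact (v_dt h t ⟨by linarith, by linarith [hx.1]⟩).neg

/-! ### the equation for `r` -/

/-- weak derivative of `r` -/
def gx (uxx utx : ℝ → ℝ → ℝ) (t x : ℝ) : ℝ := oext (uxx t) x + eext (utx t) x

theorem v_pl (h : VSol u ux ut uxx utx) (t : ℝ) : PL (gx uxx utx t) :=
  PL.mk' (v_mxx h t) (v_mtx h t)

theorem v_hr (h : VSol u ux ut uxx utx) (t x y : ℝ) :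
    (oext (ut t) x + eext (ux t) x) - (oext (ut t) y + eext (ux t) y) =
      ∫ s in y..x, gx uxx utx t s := by
  have i1 := ii_oext (v_mxx h t).ii
  have i2 := ii_eext (v_mtx h t).ii
  unfold gx
  rw [intervalIntegral.integral_add (i1 _ _) (i2 _ _), v_ot h t x, v_ot h t y, v_e h t x,
    v_e h t y, ← intervalIntegral.integral_interval_sub_left (i1 0 x) (i1 0 y),
    ← intervalIntegral.integral_interval_sub_left (i2 0 x) (i2 0 y)]
  ring

theorem v_quot (t k x : ℝ) :
    ((oext (ut (t + k)) x + eext (ux (t + k)) x) - (oext (ut t) x + eext (ux t) x)) / k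
      - (gx uxx utx t x - (oext (u t) x) ^ 3) =
    oext (fun y => (ut (t + k) y - ut t y) / k - (uxx t y - (u t y) ^ 3)) x
      + eext (fun y => (ux (t + k) y - ux t y) / k - utx t y) x := by
  unfold gx oext eext
  split_ifs with h
  · ring
  · ring

theorem v_l1 (h : VSol u ux ut uxx utx) (t k : ℝ) :
    L2 (fun y => (ut (t + k) y - ut t y) / k - (uxx t y - (u t y) ^ 3)) :=
  (((v_mut h (t + k)).sub (v_mut h t)).div k).sub ((v_mxx h t).sub (v_mu3 h t))

theorem v_l2 (h : VSol u ux ut uxx utx) (t k : ℝ) :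
    L2 (fun y => (ux (t + k) y - ux t y) / k - utx t y) :=
  (((v_mux h (t + k)).sub (v_mux h t)).div k).sub (v_mtx h t)

theorem v_rt (h : VSol u ux ut uxx utx) (t y : ℝ) :
    HasDerivAt (fun s => oext (ut s) (y - s) + eext (ux s) (y - s)) (-(oext (u t) (y - t)) ^ 3) t := by
  refine transport (R := fun t x => oext (ut t) x + eext (ux t) x)
    (P := fun t x => (oext (u t) x) ^ 3) (g := gx uxx utx) (v_jr h) (v_jp h)
    (fun t a b => (v_pl h t).ii a b) (fun t x y => v_hr h t x y) ?_ ?_ t y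
  · intro t k
    simp only [v_quot]
    exact PL.mk' (v_l1 h t k) (v_l2 h t k)
  · intro t
    simp only [v_quot]
    have e : ∀ k, cint (fun x => (oext (fun y => (ut (t + k) y - ut t y) / k
        - (uxx t y - (u t y) ^ 3)) x + eext (fun y => (ux (t + k) y - ux t y) / k
          - utx t y) x) ^ 2) =
        2 * ((∫ x in (0 : ℝ)..1, ((ut (t + k) x - ut t x) / k - (uxx t x - (u t x) ^ 3)) ^ 2)
          + ∫ x in (0 : ℝ)..1, ((ux (t + k) x - ux t x) / k - utx t x) ^ 2) := by
      intro k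
      rw [cint_sum_sq (v_l1 h t k) (v_l2 h t k), intervalIntegral.integral_add
        (v_l1 h t k).sq (v_l2 h t k).sq]
    simp only [e]
    have := ((h.dut t).add (h.dux t)).const_mul 2
    rw [add_zero, mul_zero] at this
    exact this

/-! ### energy -/

theorem v_energy (h : VSol u ux ut uxx utx) (t : ℝ) :
    cint (fun x => (oext (ut t) x + eext (ux t) x) ^ 2) ≤
      cint (fun x => (oext (ut 0) x + eext (ux 0) x) ^ 2)
        + (1 / 2) * cint (fun x => (oext (u 0) x) ^ 4) := by
  -- continuity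
  have hR := v_jr h
  have hU := v_jo h
  have hV := v_jot h
  have hRt : ∀ t, Continuous fun x => oext (ut t) x + eext (ux t) x := fun t =>
    (v_cot h t).add (v_ce h t)
  have hm : Continuous fun p : ℝ × ℝ => (p.1, p.2 - p.1) :=
    continuous_fst.prodMk (continuous_snd.sub continuous_fst)
  have q1 : Continuous fun p : ℝ × ℝ => oext (ut p.1) (p.2 - p.1) + eext (ux p.1) (p.2 - p.1) :=
    hR.comp hm
  have q2 : Continuous fun p : ℝ × ℝ => oext (u p.1) (p.2 - p.1) := hU.comp hm
  have q3 : Continuous fun p : ℝ × ℝ => oext (u p.1) p.2 := hU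
  have q4 : Continuous fun p : ℝ × ℝ => oext (ut p.1) p.2 := hV
  have k1 : Continuous fun p : ℝ × ℝ => 2 * (oext (ut p.1) (p.2 - p.1)
      + eext (ux p.1) (p.2 - p.1)) * -(oext (u p.1) (p.2 - p.1)) ^ 3 := by fun_prop
  have k2 : Continuous fun p : ℝ × ℝ => 4 * (oext (u p.1) p.2) ^ 3 * oext (ut p.1) p.2 := by
    fun_prop
  have d1 : ∀ s y, HasDerivAt (fun s => (oext (ut s) (y - s) + eext (ux s) (y - s)) ^ 2)
      (2 * (oext (ut s) (y - s) + eext (ux s) (y - s)) * -(oext (u s) (y - s)) ^ 3) s := by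
    intro s y
    refine ((v_rt h s y).fun_pow 2).congr_deriv ?_
    simp
  have d2 : ∀ s y, HasDerivAt (fun s => (oext (u s) y) ^ 4)
      (4 * (oext (u s) y) ^ 3 * oext (ut s) y) s := by
    intro s y
    refine ((v_dto h s y).fun_pow 4).congr_deriv ?_
    simp
  -- first part
  have a1 := int_time (F := fun s y => (oext (ut s) (y - s) + eext (ux s) (y - s)) ^ 2)
    (F' := fun s y => 2 * (oext (ut s) (y - s) + eext (ux s) (y - s)) * -(oext (u s) (y - s)) ^ 3)
    (fun t => ((hRt t).comp (continuous_id.sub continuous_const)).pow 2) k1 d1 (-1) 1 0 t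
  have a2 := int_time (F := fun s y => (oext (u s) y) ^ 4)
    (F' := fun s y => 4 * (oext (u s) y) ^ 3 * oext (ut s) y)
    (fun t => (v_co h t).pow 4) k2 d2 (-1) 1 0 t
  -- shifts
  have hper : ∀ s, Function.Periodic (fun x => oext (ut s) x + eext (ux s) x) 2 := by
    intro s x
    simp only [oext_per (ut s) x, eext_per (ux s) x]
  have b1 : ∀ s, ∫ y in (-1 : ℝ)..1, (oext (ut s) (y - s) + eext (ux s) (y - s)) ^ 2 =
      cint (fun x => (oext (ut s) x + eext (ux s) x) ^ 2) := by
    intro s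
    have hq : Function.Periodic (fun x => (oext (ut s) x + eext (ux s) x) ^ 2) 2 := by
      intro x
      have := hper s x
      simp only at this ⊢
      rw [this]
    exact cint_shift hq (-s)
  have b2 : ∀ s, ∫ y in (-1 : ℝ)..1, 2 * (oext (ut s) (y - s) + eext (ux s) (y - s))
      * -(oext (u s) (y - s)) ^ 3 =
      cint (fun x => 2 * (oext (ut s) x + eext (ux s) x) * -(oext (u s) x) ^ 3) := by
    intro s
    have hq : Function.Periodic
        (fun x => 2 * (oext (ut s) x + eext (ux s) x) * -(oext (u s) x) ^ 3) 2 := by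
      intro x
      have := hper s x
      simp only at this ⊢
      rw [this, oext_per (u s) x]
    exact cint_shift hq (-s)
  have b3 : ∀ s, cint (fun x => 2 * (oext (ut s) x + eext (ux s) x) * -(oext (u s) x) ^ 3)
      + (1 / 2) * cint (fun y => 4 * (oext (u s) y) ^ 3 * oext (ut s) y) = 0 := by
    intro s
    have c1 : IntervalIntegrable (fun x => 2 * (oext (ut s) x + eext (ux s) x)
        * -(oext (u s) x) ^ 3) volume (-1) 1 :=
      ((continuous_const.mul (hRt s)).mul ((v_co h s).pow 3).neg).intervalIntegrable _ _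
    have c2 : IntervalIntegrable (fun y => 4 * (oext (u s) y) ^ 3 * oext (ut s) y)
        volume (-1) 1 :=
      ((continuous_const.mul ((v_co h s).pow 3)).mul (v_cot h s)).intervalIntegrable _ _
    have c3 : cint (oext (fun y => (-2) * ((u s y) ^ 3 * ux s y))) = 0 :=
      cint_oext (((v_mu3 h s).mul (v_mux h s)).const_mul (-2))
    unfold cint at c3 ⊢
    rw [← intervalIntegral.integral_const_mul, ← intervalIntegral.integral_add c1
      (c2.const_mul _), ← c3]
    congr 1
    funext x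
    unfold oext eext
    split_ifs with h1
    · rw [abs_of_nonneg h1]; ring
    · rw [abs_of_neg (not_le.1 h1)]; ring
  -- sum
  rw [b1, b1] at a1
  have b4 : (∫ s in (0 : ℝ)..t, ∫ y in (-1 : ℝ)..1, 2 * (oext (ut s) (y - s)
      + eext (ux s) (y - s)) * -(oext (u s) (y - s)) ^ 3) =
      -(1 / 2) * ∫ s in (0 : ℝ)..t, ∫ y in (-1 : ℝ)..1, 4 * (oext (u s) y) ^ 3 * oext (ut s) y := by
    rw [← intervalIntegral.integral_const_mul]
    congr 1
    funext s
    rw [b2 s]
    have := b3 s
    unfold cint at this ⊢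
    linarith
  rw [b4, ← a2] at a1
  have b5 : 0 ≤ ∫ y in (-1 : ℝ)..1, (oext (u t) y) ^ 4 :=
    intervalIntegral.integral_nonneg (by norm_num) (fun y _ => by positivity)
  unfold cint at a1 ⊢
  linarith

theorem v_core (h : VSol u ux ut uxx utx) :
    Core (cint (fun x => (oext (ut 0) x + eext (ux 0) x) ^ 2)
        + (1 / 2) * cint (fun x => (oext (u 0) x) ^ 4))
      (fun t => oext (u t)) (fun t x => oext (ut t) x + eext (ux t) x) where
  cu := v_jo h
  cr := v_jr h
  pu t := oext_per (u t)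
  pr t := by
    intro x
    simp only [oext_per (ut t) x, eext_per (ux t) x]
  odd t x := oext_odd (h.u0 t) (h.u1 t) x
  ux t x := by
    have e : (oext (ut t) x + eext (ux t) x + (oext (ut t) (-x) + eext (ux t) (-x))) / 2 =
        eext (ux t) x := by
      rw [oext_odd (h.v0 t) (h.v1 t) x, eext_even]; ring
    rw [e]
    exact v_dx h t x
  ut t x := by
    have e : (oext (ut t) x + eext (ux t) x - (oext (ut t) (-x) + eext (ux t) (-x))) / 2 =
        oext (ut t) x := by
      rw [oext_odd (h.v0 t) (h.v1 t) x, eext_even]; ring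
    rw [e]
    exact v_dto h t x
  rt t y := v_rt h t y
  hE t := v_energy h t

end ExtAux

open ExtAux in
theorem ext_proof : ExtStatement := by
  intro u ux ut uxx utx h
  refine ⟨?_, ?_⟩
  · have e1 := cint_sum_sq (v_mut h 0) (v_mux h 0)
    have hu4 : IntervalIntegrable (fun x => (u 0 x) ^ 4) volume 0 1 :=
      (L2.of_cont ((v_cu h 0).pow 4)).ii
    have e2 : cint (fun x => (oext (u 0) x) ^ 4) = 2 * ∫ x in (0 : ℝ)..1, (u 0 x) ^ 4 := by
      rw [← cint_eext hu4]
      congr 1
      funext x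
      unfold oext eext
      split_ifs with h1
      · rw [abs_of_nonneg h1]
      · rw [abs_of_neg (not_le.1 h1)]; ring
    have e3 : E0 u ux ut = cint (fun x => (oext (ut 0) x + eext (ux 0) x) ^ 2)
        + (1 / 2) * cint (fun x => (oext (u 0) x) ^ 4) := by
      rw [e1, e2]
      unfold E0
      ring
    rw [e3]
    exact v_core h
  · intro L t _ hL
    refine (v_pl h t).hl (fun x y => v_hr h t x y) ((v_cot h t).add (v_ce h t)) ?_ ?_
    · intro x
      simp only [oext_per (ut t) x, eext_per (ux t) x]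
    · have e := cint_sum_sq (v_mxx h t) (v_mtx h t)
      unfold gx
      rw [e]
      exact hL

end

end Pool.Agent.C1E
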