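import Pool.Agent.Lib.MP_c1e222_an.Defs

/-!
# MP_c1e222_an, interface: every row of the board proves one `XxxStatement`
(module `Xxx.lean`, theorem `xxx_proof (h1 : UsedStatement) ... : XxxStatement`).
-/

namespace Pool.Agent.C1E

open MeasureTheory Set Filter Topology

noncomputable section

/-- continuous and 2-periodic -/
def CP (f : ℝ → ℝ) : Prop := Continuous f ∧ Function.Periodic f 2

/-- characters of the circle of length 2 -/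
def ee (n : ℤ) (x : ℝ) : ℂ := Complex.exp (Real.pi * n * x * Complex.I)

/-! ## kernels -/

/-- row Ker (section 0): size of the kernels `V_i` -/
def KerStatement : Prop := ∃ C : ℝ, 0 < C ∧ ∀ i : ℕ,
  ContDiff ℝ 2 (V i) ∧ Function.Periodic (V i) 2 ∧ (∀ x, V i (-x) = V i x) ∧ cint (V i) = 1 ∧
  kap i / 2 ≤ V i 0 ∧
  (∀ x, |V i x| ≤ C * kap i / (1 + kap i * dl x) ^ 4) ∧
  (∀ x, |deriv (V i) x| ≤ C * (kap i) ^ 2 / (1 + kap i * dl x) ^ 4)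

/-- row VSpec (section 0): the Fourier coefficients of `V_i` -/
def VSpecStatement : Prop := ∀ i : ℕ, ∃ c : ℤ → ℝ,
  (∀ n : ℤ, |(n : ℝ)| ≤ (63 / 64) * kap i → c n = 1 / 2) ∧
  (∀ n : ℤ, kap i ≤ |(n : ℝ)| → c n = 0) ∧ (∀ n, c (-n) = c n) ∧
  ∀ x, (V i x : ℂ) = ∑ n ∈ Finset.Icc (-(⌈kap i⌉₊ : ℤ)) (⌈kap i⌉₊ : ℤ), (c n : ℂ) * ee n x

/-- row KKr (section 0): the kernels `K_i`, `K_i^{(1)}` are comparable with `θ_i` -/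
def KKrStatement : Prop := ∃ c C : ℝ, 0 < c ∧ 0 < C ∧ ∀ i : ℕ,
  Continuous (KK i) ∧ Continuous (K1 i) ∧ Function.Periodic (KK i) 2 ∧ Function.Periodic (K1 i) 2 ∧
  (∀ x, KK i (-x) = KK i x) ∧ (∀ x, 0 ≤ K1 i x) ∧
  (∀ x, c * th i x ≤ KK i x) ∧ (∀ x, KK i x ≤ C * th i x) ∧
  (∀ x, K1 i x ≤ C * (kap i) ^ 2 * th i x)

/-- row Gd (section 0): a good `M` exists -/
def GdStatement : Prop := ∃ M : ℕ, Good M

/-! ## spectral calculus (complex form, used only by the rows Rep, Van, Bern) -/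

/-- Fourier coefficient -/
def fc (f : ℝ → ℂ) (n : ℤ) : ℂ := (1 / 2) * ∫ x in (-1 : ℝ)..1, ee (-n) x * f x

/-- trigonometric polynomial with spectrum in `S` -/
def TP (f : ℝ → ℂ) (S : Set ℤ) : Prop :=
  ∃ c : ℤ →₀ ℂ, (∀ n ∈ c.support, n ∈ S) ∧ ∀ x, f x = c.sum fun n a => a * ee n x

/-- continuous 2-periodic function with spectrum in `S` -/
def SI (f : ℝ → ℂ) (S : Set ℤ) : Prop :=
  Continuous f ∧ Function.Periodic f 2 ∧ ∀ n, n ∉ S → fc f n = 0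

/-- row Spc: general facts -/
def SpcStatement : Prop :=
  (∀ f S, TP f S → SI f S) ∧
  (∀ f g S T, TP f S → TP g T → TP (fun x => f x * g x) {n | ∃ a ∈ S, ∃ b ∈ T, n = a + b}) ∧
  (∀ f g S T, TP f S → SI g T → SI (fun x => f x * g x) {n | ∃ a ∈ S, ∃ b ∈ T, n = a + b}) ∧
  (∀ f g S, TP f S → TP g S → TP (fun x => f x - g x) S ∧ TP (fun x => f x + g x) S) ∧
  (∀ f g S, SI f S → SI g S → SI (fun x => f x - g x) S ∧ SI (fun x => f x + g x) S) ∧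
  (∀ f S, SI f S → (0 : ℤ) ∉ S → ∫ x in (-1 : ℝ)..1, f x = 0) ∧
  (∀ f S (N : ℝ), TP f S → (∀ n ∈ S, |(n : ℝ)| ≤ N) →
    ∫ x in (-1 : ℝ)..1, ‖deriv f x‖ ^ 2 ≤ (Real.pi * N) ^ 2 * ∫ x in (-1 : ℝ)..1, ‖f x‖ ^ 2) ∧
  (∀ f S (N : ℝ), TP f S → 0 ≤ N → (∀ n ∈ S, N ≤ |(n : ℝ)|) →
    (Real.pi * N) ^ 2 * ∫ x in (-1 : ℝ)..1, ‖f x‖ ^ 2 ≤ ∫ x in (-1 : ℝ)..1, ‖deriv f x‖ ^ 2)

/-- row Mul: the multipliers `V_i`, `A_i`, `PA_i` (uses VSpec, Spc) -/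
def MulStatement : Prop := ∀ i : ℕ,
  TP (fun x => (V i x : ℂ)) {n | |(n : ℝ)| < kap i} ∧
  (∀ (f : ℝ → ℝ) (S : Set ℤ), SI (fun x => (f x : ℂ)) S →
    TP (fun x => (Lo i f x : ℂ)) {n | n ∈ S ∧ |(n : ℝ)| < kap i} ∧
    SI (fun x => ((f x - Lo i f x : ℝ) : ℂ)) {n | n ∈ S ∧ (63 / 64) * kap i < |(n : ℝ)|} ∧
    TP (fun x => (Pa i f x : ℂ)) {n | n ∈ S ∧ (63 / 64) * kap i < |(n : ℝ)| ∧ |(n : ℝ)| < kap (i + 1)} ∧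
    TP (fun x => (Pp i f x : ℂ)) {n | n ∈ S ∧ (63 / 64) * kap i < |(n : ℝ)| ∧ |(n : ℝ)| < kap (i + 1)}) ∧
  (∀ (f : ℝ → ℝ), CP f → TP (fun x => (f x : ℂ)) {n | |(n : ℝ)| ≤ (63 / 64) * kap i} →
    ∀ x, Lo i f x = f x) ∧
  (∀ (f : ℝ → ℝ) (S : Set ℤ), SI (fun x => (f x : ℂ)) S →
    (∀ n ∈ S, |(n : ℝ)| ≤ (63 / 64) * kap i ∨ kap (i + 1) ≤ |(n : ℝ)|) → ∀ x, Pa i f x = 0)

/-! ## spectral facts, all in real form -/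

/-- row Rep (section 1): reproducing formulas -/
def RepStatement : Prop := ∀ (i : ℕ) (f : ℝ → ℝ), CP f → ∀ x,
  Lo (i + 3) (Pa i f) x = Pa i f x ∧ Lo (i + 3) (Pp i f) x = Pp i f x

/-- row Van (sections 7, 9): products without resonance -/
def VanStatement : Prop := ∀ M : ℕ, 1000 ≤ (65 / 64 : ℝ) ^ M →
  (∀ (j : ℕ) (f : ℝ → ℝ), M ≤ j → CP f → ∀ x,
    Pa j (fun y => (Lo (j - M) f y) ^ 3) x = 0) ∧
  (∀ (j : ℕ) (f : ℝ → ℝ), M ≤ j → CP f → ∀ x,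
    Pa j (fun y => (Lo (j - M) f y) ^ 2 * (f y - (Lo (j + M) f y - Lo (j - M) f y))) x = 0) ∧
  (∀ (j : ℕ) (f : ℝ → ℝ), M ≤ j → CP f → ∀ x,
    Pa j (fun y => f y - (Lo (j + M) f y - Lo (j - M) f y)) x = 0) ∧
  (∀ (j h h' : ℕ) (f g g' : ℝ → ℝ), M ≤ j → CP f → CP g → CP g' →
    ¬ Sep h j → ¬ Sep j h → ¬ Sep h' j → ¬ Sep j h' → ∀ x,
    Pa j (fun y => Lo (j - M) f y * Pa h g y * Pa h' g' y) x = 0) ∧
  (∀ (a b c : ℕ) (f g : ℝ → ℝ), M ≤ a → a ≤ b → b ≤ c → ¬ Sep a c → CP f → CP g →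
    cint (fun x => Lo (a - M) f x * Pa a g x * Pa b g x * Pa c g x) = 0)

/-- row Bern (section 2): Bernstein inequalities, plain and weighted -/
def BernStatement : Prop :=
  (∀ (i : ℕ) (f : ℝ → ℝ), CP f →
    (kap i) ^ 2 * cint (fun x => (Pp i f x) ^ 2) ≤ cint (fun x => (Pa i f x) ^ 2)) ∧
  (∀ (i l m : ℕ) (f g : ℝ → ℝ) (x' : ℝ), CP f → CP g →
    cint (fun x => KK i (x - x') * (Lo m g x) ^ 2 * (Pa l f x) ^ 2) ≤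
      (101 / 100) * Real.pi ^ 2 * (kap (l + 1) + kap m + kap i) ^ 2 *
        cint (fun x => KK i (x - x') * (Lo m g x) ^ 2 * (Pp l f x) ^ 2)
      + 202 * cint (fun x => (K1 i (x - x') * (Lo m g x) ^ 2
          + KK i (x - x') * (deriv (Lo m g) x) ^ 2) * (Pp l f x) ^ 2)) ∧
  (∀ (i l m : ℕ) (f g : ℝ → ℝ) (x' : ℝ), CP f → CP g → kap i + kap m ≤ (63 / 64) * kap l →
    Real.pi ^ 2 * ((63 / 64) * kap l - kap m - kap i) ^ 2 *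
        cint (fun x => KK i (x - x') * (Lo m g x) ^ 2 * (Pp l f x) ^ 2) ≤
      (101 / 100) * cint (fun x => KK i (x - x') * (Lo m g x) ^ 2 * (Pa l f x) ^ 2)
      + 202 * cint (fun x => (K1 i (x - x') * (Lo m g x) ^ 2
          + KK i (x - x') * (deriv (Lo m g) x) ^ 2) * (Pp l f x) ^ 2))

/-! ## fixed time estimates -/

/-- row Idn (sections 0, 1): derivatives, parity and `w = (a - a~)/2` -/
def IdnStatement : Prop :=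
  (∀ (i : ℕ) (f : ℝ → ℝ), CP f → ∀ x, HasDerivAt (Pp i f) (Pa i f x) x) ∧
  ∀ (E : ℝ) (u r : ℝ → ℝ), Prof E u r → ∀ (i : ℕ) (x : ℝ),
    Pa i u x = (Pp i r x - Pp i r (-x)) / 2 ∧
    HasDerivAt (Lo i u) ((Lo i r x + Lo i r (-x)) / 2) x ∧
    HasDerivAt (Pa i u) ((Pa i r x + Pa i r (-x)) / 2) x ∧
    Lo i u (-x) = -Lo i u x ∧ Pa i u (-x) = -Pa i u x

/-- row Size (section 1) -/
def SizeStatement : Prop := ∀ E : ℝ, ∃ C : ℝ, 1 ≤ C ∧ ∀ u r : ℝ → ℝ, Prof E u r →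
  (∀ x, |u x| ≤ C) ∧ (∀ x y, (u x - u y) ^ 2 ≤ C * dl (x - y)) ∧
  ∀ i : ℕ,
    (∀ x, (u x - Lo i u x) ^ 2 ≤ C / kap i) ∧ (∀ x, |Lo i u x| ≤ C) ∧
    (∀ x, (deriv (Lo i u) x) ^ 2 ≤ C * kap i) ∧
    (∀ x, (Lo i r x) ^ 2 ≤ C * kap i) ∧ (∀ x, (Pa i r x) ^ 2 ≤ C * kap i) ∧
    (∀ x, (Pa i u x) ^ 2 ≤ C / kap i) ∧
    cint (fun x => (Lo i r x) ^ 2) ≤ C ∧ cint (fun x => (Pa i r x) ^ 2) ≤ C ∧
    cint (fun x => (Pp i r x) ^ 2) ≤ C / (kap i) ^ 2 ∧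
    cint (fun x => (Pa i u x) ^ 2) ≤ C / (kap i) ^ 2 ∧
    cint (fun x => (u x - Lo i u x) ^ 2) ≤ C / (kap i) ^ 2 ∧
    (∀ x, |Pa i (fun y => (u y) ^ 3) x| ≤ C) ∧ (∀ x, |Lo i (fun y => (u y) ^ 3) x| ≤ C) ∧
    cint (fun x => (Pp i (fun y => (u y) ^ 3) x) ^ 2) ≤ C / (kap i) ^ 2

/-- row LSize (section 1): estimates with `‖r_x‖ ≤ L` -/
def LSizeStatement : Prop := ∀ E : ℝ, ∃ C : ℝ, 1 ≤ C ∧ ∀ u r : ℝ → ℝ, Prof E u r →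
  ∀ L : ℝ, 0 ≤ L → HL L r → ∀ i : ℕ,
    cint (fun x => (Pa i r x) ^ 2) ≤ C * L ^ 2 / (kap i) ^ 2 ∧
    (∀ x, (r x - Lo i r x) ^ 2 ≤ C * L ^ 2 / kap i) ∧
    (∀ x, (u x - Lo i u x) ^ 2 ≤ C * L ^ 2 / (kap i) ^ 3)

/-- row Dom (section 1): domination -/
def DomStatement : Prop := ∃ C : ℝ, 0 < C ∧ ∀ (l : ℕ) (f : ℝ → ℝ), CP f → ∀ x,
  (Pa l f x) ^ 2 ≤ C * cint (fun y => th l (x - y) * (Pa l f y) ^ 2) ∧
  (Pp l f x) ^ 2 ≤ C * cint (fun y => th l (x - y) * (Pp l f y) ^ 2)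

/-- row LB (section 2): local Bernstein inequality -/
def LBStatement : Prop := ∀ M : ℕ, Good M → ∃ C : ℝ, 0 < C ∧
  ∀ l j : ℕ, M ≤ l → l ≤ j → ∀ f : ℝ → ℝ, CP f → ∀ x,
    cint (fun y => th l (x - y) * (Pp j f y) ^ 2) ≤
      C / (kap j) ^ 2 * cint (fun y => th l (x - y) * (Pa j f y) ^ 2)

/-- row Pos (section 5): positivity at fixed time -/
def PosStatement : Prop := ∀ M : ℕ, Good M → ∀ E : ℝ, ∃ C₀ C : ℝ, 0 < C₀ ∧ 0 < C ∧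
  ∀ u r : ℝ → ℝ, Prof E u r → ∀ l j : ℕ, M ≤ l → Sep l j →
    xx l j u r ≤ C
      + C₀ * (kap l) ^ 2 * (cint fun x => cint fun y => KK (l - M) (x - y) *
          (FF M l u x * (Pa j r y) ^ 2 - (Pa l r x) ^ 2 * FF M j u y))
      + C * (kap l) ^ 2 * (cint fun x => cint fun y => KK (l - M) (x - y) *
          ((Pp l r (-x)) ^ 2 * (Pa j r y) ^ 2 + (Pa l r x) ^ 2 * (Pp j r (-y)) ^ 2))

/-- row TR (section 6): transfer at fixed time -/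
def TRStatement : Prop := ∀ M : ℕ, Good M → ∀ E : ℝ, ∃ C : ℝ, 0 < C ∧
  ∀ u r : ℝ → ℝ, Prof E u r → ∀ l j : ℕ, M ≤ l → Sep l j → ∀ z : ℝ,
    cint (fun x => (u (x + z)) ^ 2 * (Pa l r (x + z)) ^ 2 * (Pa j r x) ^ 2) ≤
      C * (1 + kap l * dl z) ^ 2 * (xx l j u r + 1) ∧
    (kap l) ^ 2 * cint (fun x => (u (x + z)) ^ 2 * (Pp l r (x + z)) ^ 2 * (Pa j r x) ^ 2) ≤
      C * (1 + kap l * dl z) ^ 2 * (xx l j u r + 1) ∧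
    (kap j) ^ 2 * cint (fun x => (u (x + z)) ^ 2 * (Pp j r (x + z)) ^ 2 * (Pa l r x) ^ 2) ≤
      C * (1 + kap l * dl z) ^ 2 * (xx l j u r + 1)

/-! ## time dependent facts -/

/-- row Cross (section 3): crossing lemma and the instances which are used -/
def CrossStatement : Prop := ∀ E : ℝ, ∃ C : ℝ, 0 < C ∧ ∀ u r : ℝ → ℝ → ℝ, Core E u r →
  ∀ t0 t1 : ℝ, t0 ≤ t1 →
    (∀ (l j : ℕ) (h : ℝ), (kap j) ^ 2 * (∫ t in t0..t1, cint (fun x =>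
      (Pa l (r t) x) ^ 2 * (Pp j (r t) (h - x)) ^ 2)) ≤ C * (t1 - t0 + 1)) ∧
    (∀ (i j : ℕ) (h : ℝ), (∫ t in t0..t1, cint (fun x =>
      (Pa j (r t) x) ^ 2 * (Lo i (r t) (h - x)) ^ 2)) ≤ C * (t1 - t0 + 1)) ∧
    (∫ t in t0..t1, cint (fun x => (r t x) ^ 2 * (r t (-x)) ^ 2)) ≤ C * (t1 - t0 + 1)

/-- a density `ρ` with flux `F` and source `S`: `(∂_t - ∂_x) ρ = - ∂_x F + S` -/
structure LawOf (ρ ρt ρx F Fx S : ℝ → ℝ → ℝ) : Prop where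
  c1 : Continuous (Function.uncurry ρ)
  c2 : Continuous (Function.uncurry ρt)
  c3 : Continuous (Function.uncurry ρx)
  c4 : Continuous (Function.uncurry F)
  c5 : Continuous (Function.uncurry Fx)
  c6 : Continuous (Function.uncurry S)
  p1 : ∀ t, Function.Periodic (ρ t) 2
  p2 : ∀ t, Function.Periodic (F t) 2
  dt : ∀ t x, HasDerivAt (fun s => ρ s x) (ρt t x) t
  dx : ∀ t x, HasDerivAt (ρ t) (ρx t x) x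
  dF : ∀ t x, HasDerivAt (F t) (Fx t x) x
  eq : ∀ t x, ρt t x = ρx t x - Fx t x + S t x

/-- row Law (section 4): the local law -/
def LawStatement : Prop := ∀ (M : ℕ) (E : ℝ) (u r : ℝ → ℝ → ℝ), Core E u r → ∀ j : ℕ,
  ∃ ρt ρx Fx : ℝ → ℝ → ℝ, LawOf (fun t => Rho M j (u t) (r t)) ρt ρx (fun t => FF M j (u t)) Fx
    (fun t => SS M j (u t) (r t))

/-- row MDer (section 5): derivative of the interaction functional, abstract -/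
def MDerStatement : Prop :=
  ∀ χ χ' : ℝ → ℝ, Continuous χ' → Function.Periodic χ 2 → (∀ x, HasDerivAt χ (χ' x) x) →
  ∀ ρ₁ ρt₁ ρx₁ F₁ Fx₁ S₁ ρ₂ ρt₂ ρx₂ F₂ Fx₂ S₂ : ℝ → ℝ → ℝ,
    LawOf ρ₁ ρt₁ ρx₁ F₁ Fx₁ S₁ → LawOf ρ₂ ρt₂ ρx₂ F₂ Fx₂ S₂ → ∀ t0 t1 : ℝ, t0 ≤ t1 →
    (cint fun x => cint fun y => χ (x - y) * (ρ₁ t1 x * ρ₂ t1 y))
      - (cint fun x => cint fun y => χ (x - y) * (ρ₁ t0 x * ρ₂ t0 y)) =
    ∫ t in t0..t1, ((cint fun x => cint fun y => χ' (x - y) *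
          (F₁ t x * ρ₂ t y - ρ₁ t x * F₂ t y))
        + (cint fun x => cint fun y => χ (x - y) * (S₁ t x * ρ₂ t y + ρ₁ t x * S₂ t y)))

/-- row Main (section 5): the main lemma -/
def MainStatement : Prop := ∀ M : ℕ, Good M → ∀ E : ℝ, ∃ C : ℝ, 0 < C ∧
  ∀ u r : ℝ → ℝ → ℝ, Core E u r → ∀ l j : ℕ, M ≤ l → Sep l j → ∀ t0 t1 : ℝ, t0 ≤ t1 →
    X l j u r t0 t1 ≤ C * ((t1 - t0 + 1) + (kap l) ^ 2)
      + C * (kap l) ^ 2 * (Err M l u r t0 t1 + Err M j u r t0 t1)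

/-- the commutator of section 7 (S2) -/
def cm (M j : ℕ) (u : ℝ → ℝ) (x : ℝ) : ℝ :=
  (Lo (j - M) u x) ^ 2 * Pa j (fun y => Lo (j + M) u y - Lo (j - M) u y) x
    - Pa j (fun y => (Lo (j - M) u y) ^ 2 * (Lo (j + M) u y - Lo (j - M) u y)) x

/-- row Dec (section 7): decomposition of the source -/
def DecStatement : Prop := ∀ (M : ℕ) (E : ℝ) (u r : ℝ → ℝ), 1000 ≤ (65 / 64 : ℝ) ^ M →
  Prof E u r → ∀ j : ℕ, M ≤ j → ∀ x,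
    |SS M j u r x| ≤ 3 * (|Lo (j - M) u x| * |Lo (j - M) r x| * (Pa j u x) ^ 2)
      + 3 * (|cm M j u x| * |Pa j r x|)
      + 3 * (|Pa j (fun y => Lo (j - M) u y * (u y - Lo (j - M) u y) ^ 2) x| * |Pa j r x|)
      + |Pa j (fun y => (u y - Lo (j - M) u y) ^ 3) x| * |Pa j r x|

/-- row Sa (section 7, (S1)) -/
def SaStatement : Prop := ∀ M : ℕ, Good M → ∀ E : ℝ, ∃ C : ℝ, 0 < C ∧
  ∀ u r : ℝ → ℝ → ℝ, Core E u r → ∀ j : ℕ, 2 * M ≤ j → ∀ t0 t1 : ℝ, t0 ≤ t1 →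
    (∫ t in t0..t1, cint (fun x =>
      |Lo (j - M) (u t) x| * |Lo (j - M) (r t) x| * (Pa j (u t) x) ^ 2)) ≤
    C / (kap j) ^ 2 * ((t1 - t0 + 1) + ∑ l ∈ Finset.Ico M (j - M),
      Real.sqrt ((X l j u r t0 t1 + (t1 - t0 + 1)) * (t1 - t0 + 1)))

/-- row Sb (section 7, (S2)) -/
def SbStatement : Prop := ∀ M : ℕ, Good M → ∀ E : ℝ, ∃ C : ℝ, 0 < C ∧
  ∀ u r : ℝ → ℝ → ℝ, Core E u r → ∀ j : ℕ, 2 * M ≤ j → ∀ t0 t1 : ℝ, t0 ≤ t1 →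
    (∫ t in t0..t1, cint (fun x => |cm M j (u t) x| * |Pa j (r t) x|)) ≤
    C / (kap j) ^ 2 * ((t1 - t0 + 1) + ∑ l ∈ Finset.Ico M (j - M),
      Real.sqrt ((X l j u r t0 t1 + (t1 - t0 + 1)) * (t1 - t0 + 1)))

/-- row Sc (section 7, (S3)) -/
def ScStatement : Prop := ∀ M : ℕ, Good M → ∀ E : ℝ, ∃ C : ℝ, 0 < C ∧
  ∀ u r : ℝ → ℝ → ℝ, Core E u r → ∀ t0 t1 : ℝ, t0 ≤ t1 →
  ∀ L : ℝ, 1 ≤ L → (∀ t ∈ Icc t0 t1, HL L (r t)) → ∀ J : ℕ, L ^ 2 ≤ kap J →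
  ∀ Λ : ℝ, 1 ≤ Λ →
    (∀ l h : ℕ, M ≤ l → h < J → Sep l h → X l h u r t0 t1 ≤ Λ * ((t1 - t0 + 1) + (kap l) ^ 2)) →
  ∀ j : ℕ, 2 * M ≤ j → j < J →
    (∫ t in t0..t1, cint (fun x =>
      |Pa j (fun y => Lo (j - M) (u t) y * (u t y - Lo (j - M) (u t) y) ^ 2) x| *
        |Pa j (r t) x|)) ≤
    C / (kap j) ^ 2 * Real.sqrt (Λ * ((t1 - t0 + 1) + (kap j) ^ 2) * (t1 - t0 + 1))

/-- row Sd (section 7, (S4), and small `j`) -/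
def SdStatement : Prop := ∀ M : ℕ, Good M → ∀ E : ℝ, ∃ C : ℝ, 0 < C ∧
  (∀ u r : ℝ → ℝ, Prof E u r → ∀ j : ℕ, M ≤ j →
    cint (fun x => |Pa j (fun y => (u y - Lo (j - M) u y) ^ 3) x| * |Pa j r x|) ≤
      C / (kap j) ^ 2) ∧
  (∀ u r : ℝ → ℝ, Prof E u r → ∀ j : ℕ, M ≤ j → j < 2 * M →
    cint (fun x => |SS M j u r x|) ≤ C / (kap j) ^ 2)

/-- row Er (section 7): the error lemma -/
def ErStatement : Prop := ∀ M : ℕ, Good M → ∀ E : ℝ, ∃ C : ℝ, 0 < C ∧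
  ∀ u r : ℝ → ℝ → ℝ, Core E u r → ∀ t0 t1 : ℝ, t0 ≤ t1 →
  ∀ L : ℝ, 1 ≤ L → (∀ t ∈ Icc t0 t1, HL L (r t)) → ∀ J : ℕ, L ^ 2 ≤ kap J →
  ∀ Λ : ℝ, 1 ≤ Λ →
    (∀ l h : ℕ, M ≤ l → h < J → Sep l h → X l h u r t0 t1 ≤ Λ * ((t1 - t0 + 1) + (kap l) ^ 2)) →
  ∀ j : ℕ, M ≤ j → j < J →
    Err M j u r t0 t1 ≤
      C * J / (kap j) ^ 2 * Real.sqrt (Λ * ((t1 - t0 + 1) + (kap j) ^ 2) * (t1 - t0 + 1))

/-- row Boot (section 8) -/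
def BootStatement : Prop := ∀ M : ℕ, Good M → ∀ E : ℝ, ∃ C : ℝ, 0 < C ∧
  ∀ u r : ℝ → ℝ → ℝ, Core E u r → ∀ t0 t1 : ℝ, t0 ≤ t1 →
  ∀ L : ℝ, 1 ≤ L → (∀ t ∈ Icc t0 t1, HL L (r t)) → ∀ J : ℕ, 1 ≤ J → L ^ 2 ≤ kap J →
  ∀ l j : ℕ, M ≤ l → j < J → Sep l j →
    X l j u r t0 t1 ≤ C * (J : ℝ) ^ 2 * ((t1 - t0 + 1) + (kap l) ^ 2)

/-- row Tri (section 9): the trilinear estimate -/
def TriStatement : Prop := ∀ E : ℝ, ∃ C : ℝ, 0 < C ∧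
  ∀ u r : ℝ → ℝ → ℝ, Core E u r → ∀ t0 t1 : ℝ, t0 ≤ t1 →
  ∀ L : ℝ, 1 ≤ L → (∀ t ∈ Icc t0 t1, HL L (r t)) → ∀ J : ℕ, 1 ≤ J → L ^ 2 ≤ kap J →
    |∫ t in t0..t1, cint (fun x => u t x * (r t x) ^ 3)| ≤
      C * (J : ℝ) ^ 4 * Real.sqrt (((t1 - t0 + 1) + L ^ 2) * (t1 - t0 + 1))

/-! ## solutions of class V on (0,1) -/

/-- `u` is a solution of `u_tt - u_xx + u³ = 0` on `(0,1)` with Dirichlet conditions, of class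
`C(ℝ; H² ∩ H¹₀) ∩ C¹(ℝ; H¹₀)`; `ux, ut, uxx, utx` are its derivatives. Only the values for
`x ∈ [0,1]` matter. -/
structure VSol (u ux ut uxx utx : ℝ → ℝ → ℝ) : Prop where
  u0 : ∀ t, u t 0 = 0
  u1 : ∀ t, u t 1 = 0
  v0 : ∀ t, ut t 0 = 0
  v1 : ∀ t, ut t 1 = 0
  mxx : ∀ t, MemLp (uxx t) 2 (volume.restrict (Ioc (0 : ℝ) 1))
  mtx : ∀ t, MemLp (utx t) 2 (volume.restrict (Ioc (0 : ℝ) 1))
  iu : ∀ t, ∀ x ∈ Icc (0 : ℝ) 1, u t x = ∫ y in (0 : ℝ)..x, ux t y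
  iux : ∀ t, ∀ x ∈ Icc (0 : ℝ) 1, ux t x = ux t 0 + ∫ y in (0 : ℝ)..x, uxx t y
  iut : ∀ t, ∀ x ∈ Icc (0 : ℝ) 1, ut t x = ∫ y in (0 : ℝ)..x, utx t y
  cxx : ∀ t, Tendsto (fun s => ∫ x in (0 : ℝ)..1, (uxx s x - uxx t x) ^ 2) (𝓝 t) (𝓝 0)
  ctx : ∀ t, Tendsto (fun s => ∫ x in (0 : ℝ)..1, (utx s x - utx t x) ^ 2) (𝓝 t) (𝓝 0)
  dux : ∀ t, Tendsto (fun h => ∫ x in (0 : ℝ)..1,
    ((ux (t + h) x - ux t x) / h - utx t x) ^ 2) (𝓝[≠] 0) (𝓝 0)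
  dut : ∀ t, Tendsto (fun h => ∫ x in (0 : ℝ)..1,
    ((ut (t + h) x - ut t x) / h - (uxx t x - (u t x) ^ 3)) ^ 2) (𝓝[≠] 0) (𝓝 0)

/-- representative of `x` modulo 2 in `[-1,1)` -/
def rd (x : ℝ) : ℝ := x - 2 * ⌊(x + 1) / 2⌋

/-- odd 2-periodic extension -/
def oext (f : ℝ → ℝ) (x : ℝ) : ℝ := if 0 ≤ rd x then f (rd x) else -f (-rd x)

/-- even 2-periodic extension -/
def eext (f : ℝ → ℝ) (x : ℝ) : ℝ := f |rd x|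

/-- energy bound in terms of the data at time 0 -/
def E0 (u ux ut : ℝ → ℝ → ℝ) : ℝ :=
  2 * (∫ x in (0 : ℝ)..1, ((ut 0 x) ^ 2 + (ux 0 x) ^ 2)) + ∫ x in (0 : ℝ)..1, (u 0 x) ^ 4

/-- row Ext (section 10): extension to the circle; characteristic form; energy -/
def ExtStatement : Prop := ∀ u ux ut uxx utx : ℝ → ℝ → ℝ, VSol u ux ut uxx utx →
  Core (E0 u ux ut) (fun t => oext (u t)) (fun t x => oext (ut t) x + eext (ux t) x) ∧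
  ∀ (L : ℝ) (t : ℝ), 0 ≤ L → 2 * (∫ x in (0 : ℝ)..1, ((uxx t x) ^ 2 + (utx t x) ^ 2)) ≤ L ^ 2 →
    HL L (fun x => oext (ut t) x + eext (ux t) x)

/-- the modified energy -/
def Fm (u ut uxx utx : ℝ → ℝ → ℝ) (t : ℝ) : ℝ :=
  (∫ x in (0 : ℝ)..1, ((uxx t x - (u t x) ^ 3) ^ 2 + (utx t x) ^ 2))
    + 3 * ∫ x in (0 : ℝ)..1, (u t x) ^ 2 * (ut t x) ^ 2

/-- row Fid (section 10): the identity for the modified energy -/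
def FidStatement : Prop := ∀ u ux ut uxx utx : ℝ → ℝ → ℝ, VSol u ux ut uxx utx →
  Continuous (Fm u ut uxx utx) ∧ ∀ t0 t1 : ℝ, t0 ≤ t1 →
    Fm u ut uxx utx t1 - Fm u ut uxx utx t0 =
      6 * ∫ t in t0..t1, ∫ x in (0 : ℝ)..1, u t x * (ut t x) ^ 3

/-- square of the norm of `V` -/
def VN (u ux ut uxx utx : ℝ → ℝ → ℝ) (t : ℝ) : ℝ :=
  (∫ x in (0 : ℝ)..1, ((u t x) ^ 2 + (ux t x) ^ 2 + (uxx t x) ^ 2))
    + ∫ x in (0 : ℝ)..1, ((ut t x) ^ 2 + (utx t x) ^ 2)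

/-- row Gro (section 10): growth for positive times; `C` depends only on the size of the data -/
def GroStatement : Prop := ∀ R : ℝ, ∃ C : ℝ, 0 < C ∧ ∀ u ux ut uxx utx : ℝ → ℝ → ℝ,
  VSol u ux ut uxx utx → VN u ux ut uxx utx 0 ≤ R →
    ∀ t : ℝ, 0 ≤ t → VN u ux ut uxx utx t ≤ C * (1 + t) * (Real.log (2 + t)) ^ 8

/-- row Fin: the theorem -/
def FinStatement : Prop := ∀ R : ℝ, ∃ C : ℝ, 0 < C ∧ ∀ u ux ut uxx utx : ℝ → ℝ → ℝ,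
  VSol u ux ut uxx utx → VN u ux ut uxx utx 0 ≤ R →
    ∀ t : ℝ, Real.sqrt (VN u ux ut uxx utx t) ≤
      C * (1 + |t|) ^ ((1 : ℝ) / 2) * (Real.log (2 + |t|)) ^ 4

end

end Pool.Agent.C1E
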