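import Pool.Agent.Lib.MP_c1e222_an.Bas
import Pool.Agent.Lib.MP_c1e222_an.Iface

/-!
# MP_c1e222_an, row Gd: good shifts exist
-/

namespace Pool.Agent.C1E

open MeasureTheory Set Filter Topology

noncomputable section

theorem gd_proof (h1 : KKrStatement) : GdStatement := by
  obtain ⟨c, C, hc, hC, h⟩ := h1
  obtain ⟨M, hM⟩ := pow_unbounded_of_one_lt (max 1000 (10 ^ 6 * (C / c)))
    (show (1 : ℝ) < 65 / 64 by norm_num)
  have h1000 : (1000 : ℝ) ≤ (65 / 64 : ℝ) ^ M := (le_max_left _ _).trans hM.le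
  have hCc : 10 ^ 6 * (C / c) ≤ (65 / 64 : ℝ) ^ M := (le_max_right _ _).trans hM.le
  refine ⟨M, h1000, fun i x => ?_⟩
  obtain ⟨-, -, -, -, -, -, hKl, -, hK1⟩ := h i
  have hk := kap_pos i
  have ht := th_pos i x
  have e1 : th i x ≤ KK i x / c := by
    rw [le_div_iff₀ hc]; linarith [hKl x]
  have hKK : 0 < KK i x := lt_of_lt_of_le (mul_pos hc ht) (hKl x)
  have e2 : K1 i x ≤ C / c * ((kap i) ^ 2 * KK i x) := by
    calc K1 i x ≤ C * (kap i) ^ 2 * th i x := hK1 x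
      _ ≤ C * (kap i) ^ 2 * (KK i x / c) := by gcongr
      _ = C / c * ((kap i) ^ 2 * KK i x) := by ring
  have e3 : C / c ≤ ((65 / 64 : ℝ) ^ M) ^ 2 / 10 ^ 6 := by
    have hle : (65 / 64 : ℝ) ^ M ≤ ((65 / 64 : ℝ) ^ M) ^ 2 := by nlinarith
    rw [le_div_iff₀ (by norm_num)]
    linarith
  calc K1 i x ≤ C / c * ((kap i) ^ 2 * KK i x) := e2
    _ ≤ ((65 / 64 : ℝ) ^ M) ^ 2 / 10 ^ 6 * ((kap i) ^ 2 * KK i x) := by gcongr
    _ = ((65 / 64 : ℝ) ^ M) ^ 2 / 10 ^ 6 * (kap i) ^ 2 * KK i x := by ring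

end

end Pool.Agent.C1E
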