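import Pool.Agent.Lib.MP_c1e222_an.Iface

/-!
# MP_c1e222_an, basic library
-/

namespace Pool.Agent.C1E

open MeasureTheory Set Filter Topology intervalIntegral

noncomputable section

/-! ## kap -/

theorem one_le_q : (1 : ℝ) ≤ 65 / 64 := by norm_num

theorem le_kap (i : ℕ) : 1024 ≤ kap i := by
  have := one_le_pow₀ (n := i) one_le_q
  unfold kap; linarith

theorem kap_pos (i : ℕ) : 0 < kap i := by have := le_kap i; linarith

theorem kap_ne (i : ℕ) : kap i ≠ 0 := (kap_pos i).ne'

theorem kap_zero : kap 0 = 1024 := by simp [kap]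

theorem kap_succ (i : ℕ) : kap (i + 1) = 65 / 64 * kap i := by unfold kap; rw [pow_succ]; ring

theorem kap_add (i m : ℕ) : kap (i + m) = (65 / 64) ^ m * kap i := by
  unfold kap; rw [pow_add]; ring

theorem kap_mono : Monotone kap := by
  intro i j h
  unfold kap
  have := pow_le_pow_right₀ one_le_q h
  linarith

theorem kap_sub {M j : ℕ} (h : M ≤ j) : (65 / 64 : ℝ) ^ M * kap (j - M) = kap j := by
  rw [← kap_add, Nat.sub_add_cancel h]

theorem kap_sub_le (M j : ℕ) : kap (j - M) ≤ kap j := kap_mono (Nat.sub_le _ _)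

theorem Sep.kap_le {l j : ℕ} (h : Sep l j) : kap l ≤ kap j := by
  have h1 := kap_pos l
  unfold Sep at h; linarith

theorem Sep.le {l j : ℕ} (h : Sep l j) : l ≤ j := by
  by_contra hc
  have h1 := kap_mono (le_of_lt (not_le.1 hc))
  have h2 := kap_pos l
  unfold Sep at h; linarith

theorem Sep.lt {l j : ℕ} (h : Sep l j) : l < j := by
  rcases lt_or_eq_of_le h.le with h1 | h1
  · exact h1
  · subst h1
    have h2 := kap_pos l
    unfold Sep at h; linarith

/-! ## dl -/

theorem dl_nonneg (x : ℝ) : 0 ≤ dl x := abs_nonneg _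

theorem dl_le_one (x : ℝ) : dl x ≤ 1 := Real.abs_sin_le_one _

theorem dl_zero : dl 0 = 0 := by simp [dl]

theorem dl_neg (x : ℝ) : dl (-x) = dl x := by
  unfold dl
  rw [show Real.pi * (-x) / 2 = -(Real.pi * x / 2) by ring, Real.sin_neg, abs_neg]

theorem dl_sub_comm (x y : ℝ) : dl (x - y) = dl (y - x) := by rw [← dl_neg, neg_sub]

theorem dl_periodic : Function.Periodic dl 2 := by
  intro x
  unfold dl
  rw [show Real.pi * (x + 2) / 2 = Real.pi * x / 2 + Real.pi by ring, Real.sin_add_pi, abs_neg]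

theorem dl_add_le (x y : ℝ) : dl (x + y) ≤ dl x + dl y := by
  unfold dl
  rw [show Real.pi * (x + y) / 2 = Real.pi * x / 2 + Real.pi * y / 2 by ring, Real.sin_add]
  refine (abs_add_le _ _).trans ?_
  rw [abs_mul, abs_mul]
  have h1 := Real.abs_cos_le_one (Real.pi * x / 2)
  have h2 := Real.abs_cos_le_one (Real.pi * y / 2)
  have h3 := abs_nonneg (Real.sin (Real.pi * x / 2))
  have h4 := abs_nonneg (Real.sin (Real.pi * y / 2))
  have h5 := abs_nonneg (Real.cos (Real.pi * x / 2))
  nlinarith

theorem dl_sub_le (x y z : ℝ) : dl (x - z) ≤ dl (x - y) + dl (y - z) := by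
  have := dl_add_le (x - y) (y - z)
  rwa [sub_add_sub_cancel] at this

theorem abs_le_dl {x : ℝ} (h : |x| ≤ 1) : |x| ≤ dl x := by
  unfold dl
  have h0 : |Real.pi * x / 2| ≤ Real.pi / 2 := by
    rw [abs_div, abs_mul, abs_of_pos Real.pi_pos, abs_of_pos (by norm_num : (0:ℝ) < 2)]
    have := Real.pi_pos
    nlinarith [abs_nonneg x]
  have h1 := Real.mul_abs_le_abs_sin h0
  have h2 : 2 / Real.pi * |Real.pi * x / 2| = |x| := by
    rw [abs_div, abs_mul, abs_of_pos Real.pi_pos, abs_of_pos (by norm_num : (0:ℝ) < 2)]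
    have := Real.pi_ne_zero
    field_simp
  rwa [h2] at h1

theorem dl_le (x : ℝ) : dl x ≤ 2 * |x| := by
  unfold dl
  refine (Real.abs_sin_le_abs).trans ?_
  rw [abs_div, abs_mul, abs_of_pos Real.pi_pos, abs_of_pos (by norm_num : (0:ℝ) < 2)]
  have := Real.pi_le_four
  nlinarith [abs_nonneg x]

theorem continuous_dl : Continuous dl := by unfold dl; fun_prop

/-! ## th -/

theorem den_pos (i : ℕ) (x : ℝ) : 0 < 1 + kap i * dl x := by
  have := mul_nonneg (kap_pos i).le (dl_nonneg x); linarith

theorem one_le_den (i : ℕ) (x : ℝ) : 1 ≤ 1 + kap i * dl x := by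
  have := mul_nonneg (kap_pos i).le (dl_nonneg x); linarith

theorem th_pos (i : ℕ) (x : ℝ) : 0 < th i x := div_pos (kap_pos i) (pow_pos (den_pos i x) 2)

theorem th_nonneg (i : ℕ) (x : ℝ) : 0 ≤ th i x := (th_pos i x).le

theorem th_le_kap (i : ℕ) (x : ℝ) : th i x ≤ kap i := by
  unfold th
  exact div_le_self (kap_pos i).le (one_le_pow₀ (one_le_den i x))

theorem continuous_th (i : ℕ) : Continuous (th i) := by
  unfold th
  refine continuous_const.div ?_ fun x => (pow_pos (den_pos i x) 2).ne'
  exact (continuous_const.add (continuous_const.mul continuous_dl)).pow 2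

theorem th_neg (i : ℕ) (x : ℝ) : th i (-x) = th i x := by unfold th; rw [dl_neg]

theorem th_sub_comm (i : ℕ) (x y : ℝ) : th i (x - y) = th i (y - x) := by rw [← th_neg, neg_sub]

theorem th_periodic (i : ℕ) : Function.Periodic (th i) 2 := by
  intro x; unfold th; rw [dl_periodic x]

/-- doubling -/
theorem th_double (i : ℕ) (x y : ℝ) : th i y ≤ (1 + kap i * dl (x - y)) ^ 2 * th i x := by
  unfold th
  rw [mul_div_assoc', div_le_div_iff₀ (pow_pos (den_pos i y) 2) (pow_pos (den_pos i x) 2)]
  have h1 : dl x ≤ dl (x - y) + dl y := by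
    have := dl_add_le (x - y) y; rwa [sub_add_cancel] at this
  have hk := kap_pos i
  have h2 : 1 + kap i * dl x ≤ (1 + kap i * dl (x - y)) * (1 + kap i * dl y) := by
    have h3 := mul_le_mul_of_nonneg_left h1 hk.le
    have h4 : 0 ≤ kap i * dl (x - y) * (kap i * dl y) :=
      mul_nonneg (mul_nonneg hk.le (dl_nonneg _)) (mul_nonneg hk.le (dl_nonneg _))
    nlinarith
  have h5 : (1 + kap i * dl x) ^ 2 ≤ ((1 + kap i * dl (x - y)) * (1 + kap i * dl y)) ^ 2 :=
    pow_le_pow_left₀ (den_pos i x).le h2 2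
  calc kap i * (1 + kap i * dl x) ^ 2 ≤ kap i * ((1 + kap i * dl (x - y)) * (1 + kap i * dl y)) ^ 2 :=
        mul_le_mul_of_nonneg_left h5 hk.le
    _ = (1 + kap i * dl (x - y)) ^ 2 * kap i * (1 + kap i * dl y) ^ 2 := by ring

theorem th_mul_le (i : ℕ) (x : ℝ) : th i x * (dl x + 1 / kap i) ≤ 1 := by
  unfold th
  have hk := kap_pos i
  rw [div_mul_eq_mul_div, div_le_one (pow_pos (den_pos i x) 2)]
  have h1 : kap i * (dl x + 1 / kap i) = 1 + kap i * dl x := by field_simp; ring
  rw [h1]
  have := one_le_den i x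
  nlinarith

theorem th_mul_dl_le (i : ℕ) (x : ℝ) : th i x * dl x ≤ 1 := by
  refine le_trans ?_ (th_mul_le i x)
  have h1 : 0 ≤ 1 / kap i := (one_div_pos.2 (kap_pos i)).le
  exact mul_le_mul_of_nonneg_left (by linarith) (th_nonneg i x)

theorem th_add_le (i m : ℕ) (x : ℝ) : th (i + m) x ≤ (65 / 64) ^ m * th i x := by
  unfold th
  rw [kap_add, mul_div_assoc', div_le_div_iff₀]
  · have hq : (1 : ℝ) ≤ (65 / 64) ^ m := one_le_pow₀ one_le_q
    have hk := kap_pos i
    have h1 : 1 + kap i * dl x ≤ 1 + (65 / 64) ^ m * kap i * dl x := by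
      have := mul_nonneg hk.le (dl_nonneg x); nlinarith
    have h2 := pow_le_pow_left₀ (den_pos i x).le h1 2
    have h3 : 0 ≤ (65 / 64 : ℝ) ^ m * kap i := by positivity
    exact mul_le_mul_of_nonneg_left h2 h3
  · have := den_pos (i + m) x
    rw [kap_add] at this; positivity
  · exact pow_pos (den_pos i x) 2

theorem th_le_add (i m : ℕ) (x : ℝ) : th i x ≤ (65 / 64) ^ m * th (i + m) x := by
  unfold th
  rw [kap_add, mul_div_assoc', div_le_div_iff₀ (pow_pos (den_pos i x) 2)]
  · have hq : (1 : ℝ) ≤ (65 / 64) ^ m := one_le_pow₀ one_le_q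
    have hk := kap_pos i
    have hd := mul_nonneg hk.le (dl_nonneg x)
    have h1 : 1 + (65 / 64) ^ m * kap i * dl x ≤ (65 / 64) ^ m * (1 + kap i * dl x) := by
      nlinarith
    have h0 : 0 ≤ 1 + (65 / 64) ^ m * kap i * dl x := by
      have := den_pos (i + m) x
      rw [kap_add] at this; exact this.le
    have h2 := pow_le_pow_left₀ h0 h1 2
    calc kap i * (1 + (65 / 64) ^ m * kap i * dl x) ^ 2
        ≤ kap i * ((65 / 64) ^ m * (1 + kap i * dl x)) ^ 2 := mul_le_mul_of_nonneg_left h2 hk.le
      _ = _ := by ring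
  · have := den_pos (i + m) x
    rw [kap_add] at this; positivity

/-! ## cint -/

theorem cint_def (f : ℝ → ℝ) : cint f = ∫ x in (-1 : ℝ)..1, f x := rfl

theorem cint_congr {f g : ℝ → ℝ} (h : ∀ x, f x = g x) : cint f = cint g := by
  unfold cint; simp only [h]

theorem cint_const (c : ℝ) : cint (fun _ => c) = 2 * c := by
  unfold cint; rw [intervalIntegral.integral_const, smul_eq_mul]; norm_num

theorem cint_zero : cint (fun _ => 0) = 0 := by rw [cint_const]; ring

theorem cint_add {f g : ℝ → ℝ} (hf : Continuous f) (hg : Continuous g) :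
    cint (fun x => f x + g x) = cint f + cint g :=
  intervalIntegral.integral_add (hf.intervalIntegrable _ _) (hg.intervalIntegrable _ _)

theorem cint_sub {f g : ℝ → ℝ} (hf : Continuous f) (hg : Continuous g) :
    cint (fun x => f x - g x) = cint f - cint g :=
  intervalIntegral.integral_sub (hf.intervalIntegrable _ _) (hg.intervalIntegrable _ _)

theorem cint_mul_left (c : ℝ) (f : ℝ → ℝ) : cint (fun x => c * f x) = c * cint f := by
  unfold cint; rw [intervalIntegral.integral_const_mul]

theorem cint_mul_right (c : ℝ) (f : ℝ → ℝ) : cint (fun x => f x * c) = cint f * c := by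
  unfold cint; rw [intervalIntegral.integral_mul_const]

theorem cint_neg_fun (f : ℝ → ℝ) : cint (fun x => -f x) = -cint f := by
  unfold cint; rw [intervalIntegral.integral_neg]

theorem cint_nonneg {f : ℝ → ℝ} (h : ∀ x, 0 ≤ f x) : 0 ≤ cint f :=
  intervalIntegral.integral_nonneg (by norm_num) fun x _ => h x

theorem cint_mono {f g : ℝ → ℝ} (hf : Continuous f) (hg : Continuous g) (h : ∀ x, f x ≤ g x) :
    cint f ≤ cint g :=
  intervalIntegral.integral_mono_on (by norm_num) (hf.intervalIntegrable _ _)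
    (hg.intervalIntegrable _ _) fun x _ => h x

theorem cint_le_of_le {f : ℝ → ℝ} (hf : Continuous f) {c : ℝ} (h : ∀ x, f x ≤ c) :
    cint f ≤ 2 * c := by
  rw [← cint_const]; exact cint_mono hf continuous_const h

theorem abs_cint_le {f : ℝ → ℝ} : |cint f| ≤ cint (fun x => |f x|) :=
  intervalIntegral.abs_integral_le_integral_abs (by norm_num)

theorem cint_shift {f : ℝ → ℝ} (hp : Function.Periodic f 2) (a : ℝ) :
    cint (fun x => f (x + a)) = cint f := by
  unfold cint
  rw [intervalIntegral.integral_comp_add_right]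
  have := hp.intervalIntegral_add_eq (-1 + a) (-1)
  rw [show (-1 : ℝ) + a + 2 = 1 + a by ring, show (-1 : ℝ) + 2 = 1 by ring] at this
  exact this

theorem cint_shift_sub {f : ℝ → ℝ} (hp : Function.Periodic f 2) (a : ℝ) :
    cint (fun x => f (x - a)) = cint f := by
  have := cint_shift hp (-a)
  simpa [sub_eq_add_neg] using this

theorem cint_flip (f : ℝ → ℝ) : cint (fun x => f (-x)) = cint f := by
  unfold cint
  rw [intervalIntegral.integral_comp_neg]
  norm_num

theorem cint_sub_left {f : ℝ → ℝ} (hp : Function.Periodic f 2) (a : ℝ) :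
    cint (fun x => f (a - x)) = cint f := by
  have h1 := cint_flip (fun x => f (a + x))
  simp only [← sub_eq_add_neg] at h1
  rw [h1]
  have := cint_shift hp a
  simpa [add_comm] using this

/-- integration over any period -/
theorem integral_period {f : ℝ → ℝ} (hp : Function.Periodic f 2) (a : ℝ) :
    ∫ x in a..(a + 2), f x = cint f := by
  unfold cint
  have := hp.intervalIntegral_add_eq a (-1)
  rw [show (-1 : ℝ) + 2 = 1 by ring] at this
  exact this

theorem swap_aux {F : ℝ → ℝ → ℝ} (hF : Continuous (Function.uncurry F)) (a b c d : ℝ) :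
    (∫ x in a..b, ∫ y in c..d, F x y) = ∫ y in c..d, ∫ x in a..b, F x y := by
  apply MeasureTheory.intervalIntegral_intervalIntegral_swap
  have h1 : IsCompact (Set.uIcc a b ×ˢ Set.uIcc c d) := isCompact_uIcc.prod isCompact_uIcc
  have h2 : IntegrableOn (Function.uncurry F) (Set.uIcc a b ×ˢ Set.uIcc c d) (volume.prod volume) :=
    hF.continuousOn.integrableOn_compact h1
  exact h2.mono_set (Set.prod_mono Set.uIoc_subset_uIcc Set.uIoc_subset_uIcc)

/-- Fubini for continuous functions, time and space -/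
theorem time_cint_swap {F : ℝ → ℝ → ℝ} (hF : Continuous (Function.uncurry F)) (a b : ℝ) :
    (∫ t in a..b, cint fun x => F t x) = cint fun x => ∫ t in a..b, F t x :=
  swap_aux hF a b (-1) 1

/-- Fubini for continuous functions -/
theorem cint_swap {F : ℝ → ℝ → ℝ} (hF : Continuous (Function.uncurry F)) :
    (cint fun x => cint fun y => F x y) = cint fun y => cint fun x => F x y := by
  exact swap_aux hF (-1) 1 (-1) 1

theorem continuous_cint {F : ℝ → ℝ → ℝ} (hF : Continuous (Function.uncurry F)) :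
    Continuous fun t => cint (F t) := by
  unfold cint
  exact intervalIntegral.continuous_parametric_intervalIntegral_of_continuous' hF _ _

/-- with parameters in any space -/
theorem continuous_cint' {Y : Type*} [TopologicalSpace Y] {F : Y → ℝ → ℝ}
    (hF : Continuous fun p : Y × ℝ => F p.1 p.2) : Continuous fun t => cint (F t) := by
  unfold cint
  exact intervalIntegral.continuous_parametric_intervalIntegral_of_continuous' hF _ _

/-- Cauchy–Schwarz -/
theorem cint_mul_sq_le {f g : ℝ → ℝ} (hf : Continuous f) (hg : Continuous g) :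
    (cint fun x => f x * g x) ^ 2 ≤ (cint fun x => (f x) ^ 2) * cint fun x => (g x) ^ 2 := by
  set a := cint fun x => (f x) ^ 2
  set b := cint fun x => f x * g x
  set c := cint fun x => (g x) ^ 2
  have key : ∀ s : ℝ, 0 ≤ a * (s * s) + (2 * b) * s + c := by
    intro s
    have h1 : 0 ≤ cint fun x => (s * f x + g x) ^ 2 := cint_nonneg fun x => sq_nonneg _
    have h2 : (cint fun x => (s * f x + g x) ^ 2) = a * (s * s) + (2 * b) * s + c := by
      have h3 : ∀ x, (s * f x + g x) ^ 2 = (s * s) * (f x) ^ 2 + ((2 * s) * (f x * g x) + (g x) ^ 2) := by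
        intro x; ring
      rw [cint_congr h3, cint_add (by fun_prop) (by fun_prop), cint_add (by fun_prop) (by fun_prop),
        cint_mul_left, cint_mul_left]
      ring
    rwa [h2] at h1
  have h4 := discrim_le_zero key
  unfold discrim at h4
  nlinarith

theorem cint_mul_abs_le {f g : ℝ → ℝ} (hf : Continuous f) (hg : Continuous g) :
    (cint fun x => |f x| * |g x|) ≤
      Real.sqrt (cint fun x => (f x) ^ 2) * Real.sqrt (cint fun x => (g x) ^ 2) := by
  rw [← Real.sqrt_mul (cint_nonneg fun x => sq_nonneg _)]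
  apply Real.le_sqrt_of_sq_le
  have := cint_mul_sq_le hf.abs hg.abs
  simpa [sq_abs] using this

end

end Pool.Agent.C1E
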