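import Pool.Agent.Lib.MP_c1e222_an.Cnv

/-!
# MP_c1e222_an, row Idn (helper94): derivatives, parity and `w = (a - a~)/2`
-/

namespace Pool.Agent.C1E

open MeasureTheory Set Filter Topology

noncomputable section

namespace IDN

theorem A_cont (hK : KerStatement) (i : ℕ) : Continuous (A i) := by
  obtain ⟨C, _, h⟩ := hK
  exact (h (i + 1)).1.continuous.sub (h i).1.continuous

theorem V_cont (hK : KerStatement) (i : ℕ) : Continuous (V i) := by
  obtain ⟨C, _, h⟩ := hK
  exact (h i).1.continuous

theorem V_per (hK : KerStatement) (i : ℕ) : Function.Periodic (V i) 2 := by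
  obtain ⟨C, _, h⟩ := hK
  exact (h i).2.1

theorem A_per (hK : KerStatement) (i : ℕ) : Function.Periodic (A i) 2 := by
  intro x
  unfold A
  rw [V_per hK (i + 1) x, V_per hK i x]

theorem V_even (hK : KerStatement) (i : ℕ) (x : ℝ) : V i (-x) = V i x := by
  obtain ⟨C, _, h⟩ := hK
  exact (h i).2.2.1 x

theorem A_even (hK : KerStatement) (i : ℕ) (x : ℝ) : A i (-x) = A i x := by
  unfold A
  rw [V_even hK, V_even hK]

theorem A_mean (hK : KerStatement) (i : ℕ) : cint (A i) = 0 := by
  have h1 := cint_sub (V_cont hK (i + 1)) (V_cont hK i)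
  obtain ⟨C, _, h⟩ := hK
  have e : cint (A i) = cint (fun x => V (i + 1) x - V i x) := rfl
  rw [e, h1, (h (i + 1)).2.2.2.1, (h i).2.2.2.1, sub_self]

theorem PA_deriv (hK : KerStatement) (i : ℕ) (x : ℝ) : HasDerivAt (PA i) (A i x) x :=
  hasDerivAt_PA_aux (A_cont hK i) x

theorem PA_cont (hK : KerStatement) (i : ℕ) : Continuous (PA i) :=
  continuous_iff_continuousAt.2 fun x => (PA_deriv hK i x).continuousAt

theorem PA_per (hK : KerStatement) (i : ℕ) : Function.Periodic (PA i) 2 := by
  intro x
  have hc := A_cont hK i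
  have h1 : PA i (x + 2) - PA i x = ∫ z in x..(x + 2), A i z := by
    unfold PA
    exact intervalIntegral.integral_interval_sub_left (hc.intervalIntegrable _ _)
      (hc.intervalIntegrable _ _)
  rw [integral_period (A_per hK i) x, A_mean hK i] at h1
  linarith

theorem PA_odd (hK : KerStatement) (i : ℕ) (x : ℝ) : PA i (-x) = -PA i x := by
  unfold PA
  have h1 := intervalIntegral.integral_comp_neg (a := 0) (b := x) (A i)
  simp only [A_even hK i, neg_zero] at h1
  rw [h1, intervalIntegral.integral_symm]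

/-- the convolution with an odd function of even kernels is odd -/
theorem conv_odd_fun {P u : ℝ → ℝ} (hP : ∀ x, P (-x) = P x) (hu : ∀ x, u (-x) = -u x) (x : ℝ) :
    conv P u (-x) = -conv P u x := by
  rw [← conv_even hP u x, ← conv_neg_fun]
  exact congrArg (fun g => conv P g x) (funext hu)

theorem conv_half {P r : ℝ → ℝ} (hP : Continuous P) (hr : Continuous r) (x : ℝ) :
    conv P (fun y => (r y + r (-y)) / 2) x = (conv P r x + conv P (fun y => r (-y)) x) / 2 := by
  have e : (fun y => (r y + r (-y)) / 2) = fun y => (1 / 2 : ℝ) * (r y + r (-y)) := by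
    funext y; ring
  have hr' : Continuous fun y => r (-y) := hr.comp continuous_neg
  rw [e, conv_smul, conv_add_fun hP hr hr']
  ring

theorem deriv_even {P : ℝ → ℝ} (hPc : Continuous P) (hPp : Function.Periodic P 2)
    (hP : ∀ x, P (-x) = P x) {E : ℝ} {u r : ℝ → ℝ} (h : Prof E u r) (x : ℝ) :
    HasDerivAt (conv P u) ((conv P r x + conv P r (-x)) / 2) x := by
  have hc : Continuous fun y => (r y + r (-y)) / 2 :=
    (h.cr.add (h.cr.comp continuous_neg)).div_const 2
  have h1 := hasDerivAt_conv' hPc hPp h.pu h.ux hc x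
  rwa [conv_half hPc h.cr, conv_even hP r x] at h1

end IDN

open IDN in
/-- row Idn -/
theorem idn_proof (hK : KerStatement) : IdnStatement := by
  refine ⟨fun i f hf x => ?_, fun E u r h i x => ⟨?_, ?_, ?_, ?_, ?_⟩⟩
  · exact hasDerivAt_conv (PA_deriv hK i) (A_cont hK i) hf.1 x
  · have hc : Continuous fun y => (r y + r (-y)) / 2 :=
      (h.cr.add (h.cr.comp continuous_neg)).div_const 2
    have h1 : HasDerivAt (conv (PA i) u) (conv (A i) u x) x :=
      hasDerivAt_conv (PA_deriv hK i) (A_cont hK i) h.cu x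
    have h2 := hasDerivAt_conv' (PA_cont hK i) (PA_per hK i) h.pu h.ux hc x
    have h3 := h1.unique h2
    rw [conv_half (PA_cont hK i) h.cr, conv_odd (PA_odd hK i)] at h3
    change conv (A i) u x = (conv (PA i) r x - conv (PA i) r (-x)) / 2
    rw [h3]
    ring
  · exact deriv_even (V_cont hK i) (V_per hK i) (V_even hK i) h x
  · exact deriv_even (A_cont hK i) (A_per hK i) (A_even hK i) h x
  · exact conv_odd_fun (V_even hK i) h.odd x
  · exact conv_odd_fun (A_even hK i) h.odd x

end

end Pool.Agent.C1E
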