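import Pool.Agent.Lib.MP_c1e222_an.Iface

/-!
# MP_c1e222_an, row KKr (helper74): the kernels `K_i`, `K_i^{(1)}` are comparable with `θ_i`
-/

namespace Pool.Agent.C1E

open MeasureTheory Set Filter Topology

noncomputable section

namespace KKr

theorem kap_ge (i : ℕ) : (1024 : ℝ) ≤ kap i := by
  unfold kap
  have : (1 : ℝ) ≤ (65 / 64 : ℝ) ^ i := one_le_pow₀ (by norm_num)
  linarith

theorem kap_pos (i : ℕ) : 0 < kap i := by linarith [kap_ge i]

theorem dl_nonneg (x : ℝ) : 0 ≤ dl x := abs_nonneg _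

theorem dl_neg (x : ℝ) : dl (-x) = dl x := by
  unfold dl
  rw [show Real.pi * -x / 2 = -(Real.pi * x / 2) by ring, Real.sin_neg, abs_neg]

theorem dl_per (x : ℝ) : dl (x + 2) = dl x := by
  unfold dl
  rw [show Real.pi * (x + 2) / 2 = Real.pi * x / 2 + Real.pi by ring, Real.sin_add_pi, abs_neg]

theorem dl_add (x y : ℝ) : dl (x + y) ≤ dl x + dl y := by
  unfold dl
  rw [show Real.pi * (x + y) / 2 = Real.pi * x / 2 + Real.pi * y / 2 by ring, Real.sin_add]
  refine (abs_add_le _ _).trans ?_
  rw [abs_mul, abs_mul]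
  refine add_le_add ?_ ?_
  · exact mul_le_of_le_one_right (abs_nonneg _) (Real.abs_cos_le_one _)
  · exact mul_le_of_le_one_left (abs_nonneg _) (Real.abs_cos_le_one _)

theorem le_dl {x : ℝ} (h : |x| ≤ 1) : |x| ≤ dl x := by
  have h1 := Real.mul_le_sin (x := Real.pi * |x| / 2) (by positivity)
    (by have := Real.pi_pos; nlinarith [abs_nonneg x])
  have h2 : 2 / Real.pi * (Real.pi * |x| / 2) = |x| := by
    have := Real.pi_pos.ne'
    field_simp
  rw [h2] at h1
  refine h1.trans ?_
  unfold dl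
  rcases abs_cases x with ⟨hx, _⟩ | ⟨hx, _⟩
  · rw [hx]; exact le_abs_self _
  · rw [hx, show Real.pi * -x / 2 = -(Real.pi * x / 2) by ring, Real.sin_neg]
    exact neg_le_abs _

theorem dl_le (x : ℝ) : dl x ≤ 2 * |x| := by
  unfold dl
  have h1 : |Real.sin (Real.pi * x / 2)| ≤ |Real.pi * x / 2| := Real.abs_sin_le_abs
  refine h1.trans ?_
  rw [abs_div, abs_mul, abs_of_pos Real.pi_pos, abs_of_pos (two_pos : (0 : ℝ) < 2)]
  have := Real.pi_lt_four
  nlinarith [abs_nonneg x]

theorem dl_cont : Continuous dl := by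
  unfold dl
  fun_prop

theorem den_pos (i : ℕ) (x : ℝ) : 0 < 1 + kap i * dl x := by
  have := mul_nonneg (kap_pos i).le (dl_nonneg x)
  linarith

theorem den_ge (i : ℕ) (x : ℝ) : 1 ≤ 1 + kap i * dl x := by
  have := mul_nonneg (kap_pos i).le (dl_nonneg x)
  linarith

theorem th_pos (i : ℕ) (x : ℝ) : 0 < th i x := div_pos (kap_pos i) (pow_pos (den_pos i x) 2)

theorem th_cont (i : ℕ) : Continuous (th i) := by
  unfold th
  refine Continuous.div continuous_const ?_ fun x => (pow_pos (den_pos i x) 2).ne'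
  have := dl_cont
  fun_prop

theorem th_neg (i : ℕ) (x : ℝ) : th i (-x) = th i x := by
  unfold th
  rw [dl_neg]

theorem th_per (i : ℕ) (x : ℝ) : th i (x + 2) = th i x := by
  unfold th
  rw [dl_per]

theorem th_dbl (i : ℕ) (x y : ℝ) : th i y ≤ (1 + kap i * dl (x - y)) ^ 2 * th i x := by
  have hk := kap_pos i
  have h1 : dl x ≤ dl y + dl (x - y) := by
    have := dl_add y (x - y)
    rwa [add_sub_cancel] at this
  have h2 : 1 + kap i * dl x ≤ (1 + kap i * dl y) * (1 + kap i * dl (x - y)) := by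
    have h3 := mul_le_mul_of_nonneg_left h1 hk.le
    have h4 : 0 ≤ (kap i * dl y) * (kap i * dl (x - y)) :=
      mul_nonneg (mul_nonneg hk.le (dl_nonneg _)) (mul_nonneg hk.le (dl_nonneg _))
    nlinarith
  have h3 : (1 + kap i * dl x) ^ 2 ≤ ((1 + kap i * dl y) * (1 + kap i * dl (x - y))) ^ 2 :=
    pow_le_pow_left₀ (den_pos i x).le h2 2
  unfold th
  rw [← mul_div_assoc, div_le_div_iff₀ (pow_pos (den_pos i y) 2) (pow_pos (den_pos i x) 2)]
  rw [mul_pow] at h3
  have h5 := mul_le_mul_of_nonneg_left h3 hk.le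
  linarith

theorem int_th_half (i : ℕ) : ∫ x in (0 : ℝ)..1, th i x ≤ 1 := by
  have hk := kap_pos i
  have hden : ∀ x ∈ Icc (0 : ℝ) 1, 0 < 1 + kap i * x := fun x hx => by
    have := mul_nonneg hk.le hx.1
    linarith
  have hcont : ContinuousOn (fun x : ℝ => kap i / (1 + kap i * x) ^ 2) (uIcc (0 : ℝ) 1) := by
    rw [uIcc_of_le zero_le_one]
    refine ContinuousOn.div continuousOn_const (by fun_prop) fun x hx => (pow_pos (hden x hx) 2).ne'
  have h1 : ∫ x in (0 : ℝ)..1, th i x ≤ ∫ x in (0 : ℝ)..1, kap i / (1 + kap i * x) ^ 2 := by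
    refine intervalIntegral.integral_mono_on zero_le_one ((th_cont i).intervalIntegrable _ _)
      hcont.intervalIntegrable fun x hx => ?_
    unfold th
    have h2 : x ≤ dl x := by
      have := le_dl (x := x) (by rw [abs_of_nonneg hx.1]; exact hx.2)
      rwa [abs_of_nonneg hx.1] at this
    refine div_le_div_of_nonneg_left hk.le (pow_pos (hden x hx) 2) ?_
    refine pow_le_pow_left₀ (hden x hx).le ?_ 2
    have := mul_le_mul_of_nonneg_left h2 hk.le
    linarith
  refine h1.trans ?_
  have h2 : ∀ x ∈ uIcc (0 : ℝ) 1, HasDerivAt (fun x : ℝ => -(1 + kap i * x)⁻¹) (kap i / (1 + kap i * x) ^ 2) x := by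
    intro x hx
    rw [uIcc_of_le zero_le_one] at hx
    have h3 : HasDerivAt (fun x : ℝ => 1 + kap i * x) (kap i) x := by
      simpa using ((hasDerivAt_id x).const_mul (kap i)).const_add 1
    have h4 := (h3.inv (hden x hx).ne').neg
    exact h4.congr_deriv (by ring)
  rw [intervalIntegral.integral_eq_sub_of_hasDerivAt h2 hcont.intervalIntegrable]
  have h3 : 0 < (1 + kap i * 1)⁻¹ := inv_pos.2 (hden 1 ⟨zero_le_one, le_rfl⟩)
  have h4 : (1 + kap i * (0 : ℝ))⁻¹ = 1 := by norm_num
  rw [h4]
  linarith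

theorem int_th (i : ℕ) : cint (th i) ≤ 2 := by
  unfold cint
  have h1 := intervalIntegral.integral_add_adjacent_intervals ((th_cont i).intervalIntegrable (-1) 0 (μ := volume))
    ((th_cont i).intervalIntegrable 0 1)
  have h2 : ∫ x in (-1 : ℝ)..0, th i x = ∫ x in (0 : ℝ)..1, th i x := by
    have h3 := intervalIntegral.integral_comp_neg (a := (0 : ℝ)) (b := 1) (fun x => th i x)
    rw [neg_zero] at h3
    rw [← h3]
    exact intervalIntegral.integral_congr fun x _ => th_neg i x
  have h3 := int_th_half i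
  rw [← h1, h2]
  linarith

/-- reflection and shift of the variable of integration -/
theorem shift {g : ℝ → ℝ} (hg : Function.Periodic g 2) (x : ℝ) : cint (fun h => g (x - h)) = cint g := by
  unfold cint
  rw [intervalIntegral.integral_comp_sub_left (fun h => g h) x]
  have h1 := hg.intervalIntegral_add_eq (x - 1) (-1)
  rw [show x - 1 + 2 = x - -1 by ring, show (-1 : ℝ) + 2 = 1 by norm_num] at h1
  exact h1

theorem sub_per {f : ℝ → ℝ} (hf : ∀ x, f (x + 2) = f x) (x : ℝ) : f (x - 2) = f x := by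
  have := hf (x - 2)
  rw [sub_add_cancel] at this
  exact this.symm

theorem mono {f g : ℝ → ℝ} (hf : Continuous f) (hg : Continuous g) (h : ∀ x, f x ≤ g x) : cint f ≤ cint g :=
  intervalIntegral.integral_mono_on (by norm_num) (hf.intervalIntegrable _ _) (hg.intervalIntegrable _ _) fun x _ => h x

/-- upper bound for both kernels -/
theorem upper (i : ℕ) (W : ℝ → ℝ) (hW : Continuous W) (B : ℝ)
    (hB : ∀ x, |W x| ≤ B / (1 + kap i * dl x) ^ 4) (x : ℝ) :
    (1 / kap i) * cint (fun h => th i h * (W (x - h)) ^ 2) ≤ 2 * B ^ 2 / (kap i) ^ 2 * th i x := by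
  have hk := kap_pos i
  have h1 : ∀ h, th i h * (W (x - h)) ^ 2 ≤ (B ^ 2 / kap i * th i x) * th i (x - h) := by
    intro h
    have hd := den_ge i (x - h)
    have hdp := den_pos i (x - h)
    obtain ⟨d, hd'⟩ : ∃ d, d = 1 + kap i * dl (x - h) := ⟨_, rfl⟩
    rw [← hd'] at hd hdp
    have h2 : (W (x - h)) ^ 2 ≤ (B / d ^ 4) ^ 2 := by
      have h3 := hB (x - h)
      rw [← hd'] at h3
      rw [← sq_abs]
      exact pow_le_pow_left₀ (abs_nonneg _) h3 2
    have h3 := th_dbl i x h
    rw [← hd'] at h3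
    have h4 : th i h * (W (x - h)) ^ 2 ≤ (d ^ 2 * th i x) * (B / d ^ 4) ^ 2 :=
      mul_le_mul h3 h2 (sq_nonneg _) (mul_nonneg (sq_nonneg _) (th_pos i x).le)
    refine h4.trans ?_
    have h5 : th i (x - h) = kap i / d ^ 2 := by unfold th; rw [← hd']
    rw [h5]
    have e1 : (d ^ 2 * th i x) * (B / d ^ 4) ^ 2 = (B ^ 2 * th i x) * (1 / d ^ 6) := by
      field_simp
    have e2 : (B ^ 2 / kap i * th i x) * (kap i / d ^ 2) = (B ^ 2 * th i x) * (1 / d ^ 2) := by
      field_simp
    rw [e1, e2]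
    refine mul_le_mul_of_nonneg_left ?_ (mul_nonneg (sq_nonneg _) (th_pos i x).le)
    exact one_div_le_one_div_of_le (by positivity) (pow_le_pow_right₀ hd (by norm_num))
  have hth := th_cont i
  have h2 := mono (f := fun h => th i h * (W (x - h)) ^ 2) (g := fun h => (B ^ 2 / kap i * th i x) * th i (x - h))
    (by fun_prop) (by fun_prop) h1
  have h3 : cint (fun h => (B ^ 2 / kap i * th i x) * th i (x - h)) = (B ^ 2 / kap i * th i x) * cint (th i) := by
    rw [← shift (g := th i) (th_per i) x]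
    unfold cint
    rw [intervalIntegral.integral_const_mul]
  rw [h3] at h2
  have h4 : (B ^ 2 / kap i * th i x) * cint (th i) ≤ (B ^ 2 / kap i * th i x) * 2 :=
    mul_le_mul_of_nonneg_left (int_th i) (mul_nonneg (by positivity) (th_pos i x).le)
  calc (1 / kap i) * cint (fun h => th i h * (W (x - h)) ^ 2)
      ≤ (1 / kap i) * ((B ^ 2 / kap i * th i x) * 2) := by
        exact mul_le_mul_of_nonneg_left (h2.trans h4) (by positivity)
    _ = _ := by field_simp

theorem cont (i : ℕ) (W : ℝ → ℝ) (hW : Continuous W) :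
    Continuous fun x => (1 / kap i) * cint (fun h => th i h * (W (x - h)) ^ 2) := by
  unfold cint
  refine continuous_const.mul ?_
  have hth := th_cont i
  refine intervalIntegral.continuous_parametric_intervalIntegral_of_continuous' (f := fun x h => th i h * (W (x - h)) ^ 2)
    ?_ _ _
  show Continuous fun p : ℝ × ℝ => th i p.2 * (W (p.1 - p.2)) ^ 2
  fun_prop

theorem deriv_per {f : ℝ → ℝ} (hf : Function.Periodic f 2) : Function.Periodic (deriv f) 2 := by
  intro x
  have h1 : (fun y => f (y + 2)) = f := funext hf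
  have h2 : deriv (fun y => f (y + 2)) x = deriv f (x + 2) := deriv_comp_add_const f 2 x
  rw [← h2, h1]

/-- lower bound -/
theorem lower (i : ℕ) (C : ℝ) (hC : 1 ≤ C) (hV : ContDiff ℝ 2 (V i)) (hp : Function.Periodic (V i) 2)
    (h0 : kap i / 2 ≤ V i 0) (hd : ∀ x, |deriv (V i) x| ≤ C * (kap i) ^ 2) (x : ℝ) :
    1 / (128 * C) * th i x ≤ KK i x := by
  have hk := kap_pos i
  have hk1 := kap_ge i
  have hth := th_cont i
  have hVc : Continuous (V i) := hV.continuous
  obtain ⟨δ, hδ⟩ : ∃ δ, δ = 1 / (4 * C * kap i) := ⟨_, rfl⟩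
  have hδ0 : 0 < δ := by rw [hδ]; positivity
  have hδk : kap i * δ = 1 / (4 * C) := by rw [hδ]; field_simp
  have hδk' : kap i * δ ≤ 1 / 4 := by
    rw [hδk]
    exact one_div_le_one_div_of_le (by norm_num) (by linarith)
  have hδ1 : δ ≤ 1 := by nlinarith
  have hVlow : ∀ z, |z| ≤ δ → kap i / 4 ≤ V i z := by
    intro z hz
    have h1 : ‖V i z - V i 0‖ ≤ C * (kap i) ^ 2 * ‖z - 0‖ :=
      Convex.norm_image_sub_le_of_norm_deriv_le (s := univ) (fun y _ => (hV.differentiable (by norm_num)).differentiableAt)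
        (fun y _ => by rw [Real.norm_eq_abs]; exact hd y) convex_univ (mem_univ _) (mem_univ _)
    rw [sub_zero, Real.norm_eq_abs, Real.norm_eq_abs] at h1
    have h2 : C * (kap i) ^ 2 * |z| ≤ kap i / 4 := by
      calc C * (kap i) ^ 2 * |z| ≤ C * (kap i) ^ 2 * δ := mul_le_mul_of_nonneg_left hz (by positivity)
        _ = C * kap i * (kap i * δ) := by ring
        _ = kap i / 4 := by rw [hδk]; field_simp
    have h3 := (abs_le.1 (h1.trans h2)).1
    linarith
  have hg : Function.Periodic (fun z => th i (x - z) * (V i z) ^ 2) 2 := by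
    intro z
    show th i (x - (z + 2)) * (V i (z + 2)) ^ 2 = _
    rw [show x - (z + 2) = x - z - 2 by ring, sub_per (th_per i), hp z]
  have hKK : KK i x = (1 / kap i) * cint (fun z => th i (x - z) * (V i z) ^ 2) := by
    unfold KK
    rw [← shift hg x]
    congr 2
    funext h
    show _ = th i (x - (x - h)) * (V i (x - h)) ^ 2
    rw [sub_sub_cancel]
  have hgc : Continuous (fun z => th i (x - z) * (V i z) ^ 2) := by fun_prop
  have hint : ∫ z in (-δ)..δ, (th i x / 4) * (kap i ^ 2 / 16) ≤ cint (fun z => th i (x - z) * (V i z) ^ 2) := by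
    have h1 : ∫ z in (-δ)..δ, (th i x / 4) * (kap i ^ 2 / 16) ≤ ∫ z in (-δ)..δ, th i (x - z) * (V i z) ^ 2 := by
      refine intervalIntegral.integral_mono_on (by linarith) (continuous_const.intervalIntegrable _ _)
        (hgc.intervalIntegrable _ _) fun z hz => ?_
      have hz' : |z| ≤ δ := abs_le.2 hz
      have h2 := hVlow z hz'
      have h3 : kap i ^ 2 / 16 ≤ (V i z) ^ 2 := by
        have h4 := pow_le_pow_left₀ (by positivity) h2 2
        calc kap i ^ 2 / 16 = (kap i / 4) ^ 2 := by ring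
          _ ≤ _ := h4
      have h4 : th i x / 4 ≤ th i (x - z) := by
        have h5 := th_dbl i (x - z) x
        rw [show x - z - x = -z by ring, dl_neg] at h5
        have h6 : 1 + kap i * dl z ≤ 2 := by
          have h7 := dl_le z
          have h8 : kap i * dl z ≤ kap i * (2 * δ) := mul_le_mul_of_nonneg_left (by linarith) hk.le
          nlinarith
        have h7 : (1 + kap i * dl z) ^ 2 ≤ 4 := by
          have := pow_le_pow_left₀ (den_pos i z).le h6 2
          linarith
        have h8 := mul_le_mul_of_nonneg_right h7 (th_pos i (x - z)).le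
        linarith
      exact mul_le_mul h4 h3 (by positivity) (th_pos i _).le
    refine h1.trans ?_
    unfold cint
    refine intervalIntegral.integral_mono_interval (by linarith) (by linarith) hδ1 ?_ (hgc.intervalIntegrable _ _)
    exact Filter.Eventually.of_forall fun z => mul_nonneg (th_pos i _).le (sq_nonneg _)
  rw [intervalIntegral.integral_const, smul_eq_mul] at hint
  rw [hKK]
  calc 1 / (128 * C) * th i x = (1 / kap i) * ((δ - -δ) * ((th i x / 4) * (kap i ^ 2 / 16))) := by
        rw [hδ]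
        field_simp
        ring
    _ ≤ _ := mul_le_mul_of_nonneg_left hint (by positivity)

end KKr

open KKr in
theorem kkr_proof (hKer : KerStatement) : KKrStatement := by
  obtain ⟨C, hC, h⟩ := hKer
  obtain ⟨B, hB⟩ : ∃ B, B = max C 1 := ⟨_, rfl⟩
  have hB1 : 1 ≤ B := hB ▸ le_max_right _ _
  have hCB : C ≤ B := hB ▸ le_max_left _ _
  refine ⟨1 / (128 * B), 2 * B ^ 2, by positivity, by positivity, fun i => ?_⟩
  obtain ⟨hV, hp, hev, -, h0, hb, hb'⟩ := h i
  have hk := kap_pos i
  have hVc : Continuous (V i) := hV.continuous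
  have hdc : Continuous (deriv (V i)) := hV.continuous_deriv (by norm_num)
  have hbB : ∀ x, |V i x| ≤ (B * kap i) / (1 + kap i * dl x) ^ 4 := fun x => by
    refine (hb x).trans ?_
    exact div_le_div_of_nonneg_right (mul_le_mul_of_nonneg_right hCB hk.le) (pow_pos (den_pos i x) 4).le
  have hbB' : ∀ x, |deriv (V i) x| ≤ (B * (kap i) ^ 2) / (1 + kap i * dl x) ^ 4 := fun x => by
    refine (hb' x).trans ?_
    exact div_le_div_of_nonneg_right (mul_le_mul_of_nonneg_right hCB (by positivity)) (pow_pos (den_pos i x) 4).le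
  refine ⟨cont i (V i) hVc, cont i (deriv (V i)) hdc, ?_, ?_, ?_, ?_, ?_, ?_, ?_⟩
  · intro x
    unfold KK
    congr 2
    funext t
    rw [show x + 2 - t = x - t + 2 by ring, hp]
  · intro x
    unfold K1
    congr 2
    funext t
    rw [show x + 2 - t = x - t + 2 by ring, deriv_per hp]
  · intro x
    unfold KK cint
    congr 1
    have h3 := intervalIntegral.integral_comp_neg (a := (-1 : ℝ)) (b := 1) (fun t => th i t * (V i (x - t)) ^ 2)
    rw [neg_neg] at h3
    refine Eq.trans ?_ h3
    refine intervalIntegral.integral_congr fun t _ => ?_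
    show th i t * (V i (-x - t)) ^ 2 = th i (-t) * (V i (x - -t)) ^ 2
    rw [th_neg, show x - -t = -(-x - t) by ring, hev]
  · intro x
    unfold K1
    refine mul_nonneg (by positivity) (intervalIntegral.integral_nonneg (by norm_num) fun t _ => ?_)
    exact mul_nonneg (th_pos i t).le (sq_nonneg _)
  · exact fun x => lower i B hB1 hV hp h0 (fun y => (hbB' y).trans (by
      refine div_le_self (by positivity) (one_le_pow₀ (den_ge i y)))) x
  · intro x
    refine (upper i (V i) hVc (B * kap i) hbB x).trans (le_of_eq ?_)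
    field_simp
  · intro x
    refine (upper i (deriv (V i)) hdc (B * (kap i) ^ 2) hbB' x).trans (le_of_eq ?_)
    field_simp

end

end Pool.Agent.C1E
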