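import Pool.Agent.Lib.MP_c1e222_an.Iface

/-!
# MP_c1e222_an, row LB (section 2): local Bernstein inequality
-/

namespace Pool.Agent.C1E.LBx

open MeasureTheory Set Filter Topology Pool.Agent.C1E

noncomputable section

theorem kap_pos (i : ℕ) : 0 < kap i := by unfold kap; positivity

theorem dl_nonneg (x : ℝ) : 0 ≤ dl x := abs_nonneg _

theorem dl_neg (x : ℝ) : dl (-x) = dl x := by
  unfold dl
  rw [show Real.pi * -x / 2 = -(Real.pi * x / 2) by ring, Real.sin_neg, abs_neg]

theorem dl_cont : Continuous dl := by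
  unfold dl
  fun_prop

theorem den_pos (i : ℕ) (x : ℝ) : 0 < 1 + kap i * dl x := by
  have := mul_nonneg (kap_pos i).le (dl_nonneg x)
  linarith

theorem th_cont (i : ℕ) : Continuous (th i) := by
  unfold th
  exact continuous_const.div ((continuous_const.add (continuous_const.mul dl_cont)).pow 2)
    (fun x => (pow_pos (den_pos i x) 2).ne')

theorem th_nonneg (i : ℕ) (x : ℝ) : 0 ≤ th i x :=
  div_nonneg (kap_pos i).le (pow_pos (den_pos i x) 2).le

theorem th_neg (i : ℕ) (x : ℝ) : th i (-x) = th i x := by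
  unfold th; rw [dl_neg]

theorem kap_mono {i j : ℕ} (h : i ≤ j) : kap i ≤ kap j := by
  unfold kap
  exact mul_le_mul_of_nonneg_left (pow_le_pow_right₀ (by norm_num) h) (by norm_num)

theorem kap_add (i M : ℕ) : kap (i + M) = (65 / 64 : ℝ) ^ M * kap i := by
  unfold kap; rw [pow_add]; ring

/-- comparison of the weights of two scales -/
theorem th_le (i M : ℕ) (x : ℝ) : th (i + M) x ≤ (65 / 64 : ℝ) ^ M * th i x := by
  have hq : (1 : ℝ) ≤ (65 / 64 : ℝ) ^ M := one_le_pow₀ (by norm_num)
  have h1 := kap_mono (Nat.le_add_right i M)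
  have h2 : 1 + kap i * dl x ≤ 1 + kap (i + M) * dl x := by
    have := mul_le_mul_of_nonneg_right h1 (dl_nonneg x)
    linarith
  unfold th
  rw [kap_add, mul_div_assoc, ← kap_add]
  refine mul_le_mul_of_nonneg_left ?_ (by positivity)
  exact div_le_div_of_nonneg_left (kap_pos i).le (pow_pos (den_pos i x) 2)
    (pow_le_pow_left₀ (den_pos i x).le h2 2)

theorem th_ge (i M : ℕ) (x : ℝ) : th i x ≤ (65 / 64 : ℝ) ^ M * th (i + M) x := by
  set Q := (65 / 64 : ℝ) ^ M with hQ
  have hq : (1 : ℝ) ≤ Q := one_le_pow₀ (by norm_num)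
  have hk := kap_pos i
  have hd := dl_nonneg x
  have e : kap (i + M) = Q * kap i := kap_add i M
  have h2 : 1 + kap (i + M) * dl x ≤ Q * (1 + kap i * dl x) := by
    rw [e]; nlinarith
  have p1 := den_pos i x
  have p2 := den_pos (i + M) x
  unfold th
  rw [← mul_div_assoc, div_le_div_iff₀ (pow_pos p1 2) (pow_pos p2 2)]
  have h3 : (1 + kap (i + M) * dl x) ^ 2 ≤ Q ^ 2 * (1 + kap i * dl x) ^ 2 := by
    rw [← mul_pow]; exact pow_le_pow_left₀ p2.le h2 2
  calc kap i * (1 + kap (i + M) * dl x) ^ 2 ≤ kap i * (Q ^ 2 * (1 + kap i * dl x) ^ 2) :=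
        mul_le_mul_of_nonneg_left h3 hk.le
    _ = Q * kap (i + M) * (1 + kap i * dl x) ^ 2 := by rw [e]; ring

theorem conv_cont {P f : ℝ → ℝ} (hP : Continuous P) (hf : Continuous f) :
    Continuous (conv P f) := by
  unfold conv
  refine intervalIntegral.continuous_parametric_intervalIntegral_of_continuous' ?_ _ _
  exact (hP.comp (continuous_fst.sub continuous_snd)).mul (hf.comp continuous_snd)

theorem cint_mono {f g : ℝ → ℝ} (hf : Continuous f) (hg : Continuous g) (h : ∀ x, f x ≤ g x) :
    cint f ≤ cint g :=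
  intervalIntegral.integral_mono_on (by norm_num) (hf.intervalIntegrable _ _)
    (hg.intervalIntegrable _ _) (fun x _ => h x)

theorem cint_mul (c : ℝ) (f : ℝ → ℝ) : cint (fun x => c * f x) = c * cint f :=
  intervalIntegral.integral_const_mul _ _

theorem Lo_one (h : KerStatement) (m : ℕ) : Lo m (fun _ => (1 : ℝ)) = fun _ => 1 := by
  obtain ⟨C, hC, H⟩ := h
  obtain ⟨-, hp, -, h1, -⟩ := H m
  funext x
  unfold Lo conv
  simp only [mul_one]
  rw [intervalIntegral.integral_comp_sub_left (fun y => V m y) x]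
  have := hp.intervalIntegral_add_eq (x - 1) (-1)
  rw [show x - 1 + 2 = x - -1 by ring, show (-1 : ℝ) + 2 = 1 by norm_num] at this
  rw [this]
  exact h1

theorem A_cont (h : KerStatement) (i : ℕ) : Continuous (A i) := by
  obtain ⟨C, hC, H⟩ := h
  unfold A
  exact (H (i + 1)).1.continuous.sub (H i).1.continuous

theorem PA_cont (h : KerStatement) (i : ℕ) : Continuous (PA i) := by
  unfold PA
  exact intervalIntegral.continuous_primitive
    (fun a b => (A_cont h i).intervalIntegrable a b) 0

theorem Pa_cont (h : KerStatement) (i : ℕ) {f : ℝ → ℝ} (hf : Continuous f) :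
    Continuous (Pa i f) := by
  unfold Pa; exact conv_cont (A_cont h i) hf

theorem Pp_cont (h : KerStatement) (i : ℕ) {f : ℝ → ℝ} (hf : Continuous f) :
    Continuous (Pp i f) := by
  unfold Pp; exact conv_cont (PA_cont h i) hf

end

end Pool.Agent.C1E.LBx

namespace Pool.Agent.C1E

open MeasureTheory Set Filter Topology Pool.Agent.C1E.LBx

theorem lb_proof (hBern : BernStatement) (hKKr : KKrStatement) (hKer : KerStatement) :
    LBStatement := by
  intro M hM
  obtain ⟨hM1, hM2⟩ := hM
  obtain ⟨c, C, hc, hC, hK⟩ := hKKr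
  obtain ⟨-, -, hB⟩ := hBern
  set Q : ℝ := (65 / 64 : ℝ) ^ M with hQ
  have hQ1 : 1 ≤ Q := by linarith
  have hQ0 : 0 < Q := by linarith
  refine ⟨Q ^ 2 * C / c, by positivity, ?_⟩
  intro l j hl hlj f hf x
  obtain ⟨i, rfl⟩ : ∃ i, l = i + M := ⟨l - M, by omega⟩
  obtain ⟨kc, k1c, -, -, keven, k1nn, klo, kup, -⟩ := hK i
  have ki := kap_pos i
  have kj := kap_pos j
  have kl : kap (i + M) = Q * kap i := kap_add i M
  have klj : Q * kap i ≤ kap j := by rw [← kl]; exact kap_mono hlj
  have kij : 1000 * kap i ≤ kap j := le_trans (mul_le_mul_of_nonneg_right hM1 ki.le) klj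
  have hPa : Continuous (Pa j f) := Pa_cont hKer j hf.1
  have hPp : Continuous (Pp j f) := Pp_cont hKer j hf.1
  have kk0 : ∀ y, 0 ≤ KK i y := fun y =>
    le_trans (mul_nonneg hc.le (th_nonneg i y)) (klo y)
  have cP1 : CP (fun _ : ℝ => (1 : ℝ)) := ⟨continuous_const, fun _ => rfl⟩
  have b := hB i j i f (fun _ => 1) x hf cP1 (by linarith)
  rw [Lo_one hKer i] at b
  have dd : deriv (fun _ : ℝ => (1 : ℝ)) = fun _ => 0 := by funext z; simp
  simp only [dd, one_pow, mul_one, ne_eq, OfNat.ofNat_ne_zero, not_false_eq_true, zero_pow,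
    mul_zero, add_zero] at b
  set P := cint (fun y => KK i (y - x) * (Pp j f y) ^ 2) with hP
  set R := cint (fun y => KK i (y - x) * (Pa j f y) ^ 2) with hR
  have cKK : Continuous (fun y => KK i (y - x)) := kc.comp (continuous_id.sub continuous_const)
  have cK1 : Continuous (fun y => K1 i (y - x)) := k1c.comp (continuous_id.sub continuous_const)
  have P0 : 0 ≤ P := by
    rw [hP]; unfold cint
    exact intervalIntegral.integral_nonneg (by norm_num)
      (fun y _ => mul_nonneg (kk0 _) (sq_nonneg _))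
  have k1le : cint (fun y => K1 i (y - x) * (Pp j f y) ^ 2) ≤ (kap j) ^ 2 / 10 ^ 6 * P := by
    rw [hP, ← cint_mul]
    refine cint_mono (cK1.mul (hPp.pow 2)) (continuous_const.mul (cKK.mul (hPp.pow 2))) ?_
    intro y
    have e1 := hM2 i (y - x)
    have e2 : Q ^ 2 / 10 ^ 6 * (kap i) ^ 2 * KK i (y - x) ≤ (kap j) ^ 2 / 10 ^ 6 * KK i (y - x) := by
      refine mul_le_mul_of_nonneg_right ?_ (kk0 _)
      have : (Q * kap i) ^ 2 ≤ (kap j) ^ 2 := pow_le_pow_left₀ (by positivity) klj 2
      rw [mul_pow] at this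
      rw [div_mul_eq_mul_div]
      exact div_le_div_of_nonneg_right this (by norm_num)
    have e3 := mul_le_mul_of_nonneg_right (e1.trans e2) (sq_nonneg (Pp j f y))
    linarith
  have main : (kap j) ^ 2 * P ≤ R := by
    have hpi : (9 : ℝ) ≤ Real.pi ^ 2 := by nlinarith [Real.pi_gt_three]
    have h1 : (9 / 10 * kap j) ^ 2 ≤ ((63 / 64) * kap j - kap i - kap i) ^ 2 :=
      pow_le_pow_left₀ (by positivity) (by linarith) 2
    have h2 : 9 * (9 / 10 * kap j) ^ 2 ≤ Real.pi ^ 2 * ((63 / 64) * kap j - kap i - kap i) ^ 2 :=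
      mul_le_mul hpi h1 (sq_nonneg _) (sq_nonneg _)
    have h3 := mul_le_mul_of_nonneg_right h2 P0
    have h4 : 0 ≤ (kap j) ^ 2 * P := by positivity
    have R0 : 0 ≤ R := by
      rw [hR]; unfold cint
      exact intervalIntegral.integral_nonneg (by norm_num)
        (fun y _ => mul_nonneg (kk0 _) (sq_nonneg _))
    nlinarith
  -- comparison of weights
  have s1 : cint (fun y => th (i + M) (x - y) * (Pp j f y) ^ 2) ≤ Q / c * P := by
    rw [hP, ← cint_mul]
    refine cint_mono (((th_cont _).comp (continuous_const.sub continuous_id)).mul (hPp.pow 2))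
      (continuous_const.mul (cKK.mul (hPp.pow 2))) ?_
    intro y
    have e1 := th_le i M (x - y)
    have e2 := klo (x - y)
    rw [← keven (x - y), show -(x - y) = y - x by ring] at e2
    have e3 : th i (x - y) ≤ KK i (y - x) / c := by
      rw [le_div_iff₀ hc]; linarith
    have e4 : th (i + M) (x - y) ≤ Q / c * KK i (y - x) := by
      calc th (i + M) (x - y) ≤ Q * th i (x - y) := e1
        _ ≤ Q * (KK i (y - x) / c) := mul_le_mul_of_nonneg_left e3 hQ0.le
        _ = _ := by ring
    have := mul_le_mul_of_nonneg_right e4 (sq_nonneg (Pp j f y))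
    linarith
  have s2 : R ≤ C * Q * cint (fun y => th (i + M) (x - y) * (Pa j f y) ^ 2) := by
    rw [hR, ← cint_mul]
    refine cint_mono (cKK.mul (hPa.pow 2)) (continuous_const.mul
      (((th_cont _).comp (continuous_const.sub continuous_id)).mul (hPa.pow 2))) ?_
    intro y
    have e1 := th_ge i M (x - y)
    have e2 := kup (x - y)
    rw [← keven (x - y), show -(x - y) = y - x by ring] at e2
    have e4 : KK i (y - x) ≤ C * Q * th (i + M) (x - y) := by
      calc KK i (y - x) ≤ C * th i (x - y) := e2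
        _ ≤ C * (Q * th (i + M) (x - y)) := mul_le_mul_of_nonneg_left e1 hC.le
        _ = _ := by ring
    have := mul_le_mul_of_nonneg_right e4 (sq_nonneg (Pa j f y))
    linarith
  have s3 : P ≤ R / (kap j) ^ 2 := by
    rw [le_div_iff₀ (by positivity)]; linarith
  calc cint (fun y => th (i + M) (x - y) * (Pp j f y) ^ 2) ≤ Q / c * P := s1
    _ ≤ Q / c * (R / (kap j) ^ 2) := mul_le_mul_of_nonneg_left s3 (by positivity)
    _ ≤ Q / c * ((C * Q * cint (fun y => th (i + M) (x - y) * (Pa j f y) ^ 2)) / (kap j) ^ 2) :=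
        mul_le_mul_of_nonneg_left (div_le_div_of_nonneg_right s2 (by positivity)) (by positivity)
    _ = _ := by field_simp

end Pool.Agent.C1E
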