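import Pool.Agent.Lib.MP_c1e222_an.Iface

/-!
# MP_c1e222_an, row LSize: estimates with `‖r_x‖ ≤ L`
-/

namespace Pool.Agent.C1E

open MeasureTheory Set Filter Topology

noncomputable section

namespace LSz

/-- Fubini for continuous functions. -/
theorem swap {F : ℝ → ℝ → ℝ} (hF : Continuous (Function.uncurry F)) (a b c d : ℝ) :
    ∫ x in a..b, ∫ y in c..d, F x y = ∫ y in c..d, ∫ x in a..b, F x y := by
  refine intervalIntegral_intervalIntegral_swap ?_
  exact (hF.continuousOn.integrableOn_compact (isCompact_uIcc.prod isCompact_uIcc)).mono_set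
    (prod_mono uIoc_subset_uIcc uIoc_subset_uIcc)

/-- Cauchy-Schwarz for continuous functions. -/
theorem cs {f g : ℝ → ℝ} (hf : Continuous f) (hg : Continuous g) {a b : ℝ} (hab : a ≤ b) :
    (∫ x in a..b, f x * g x) ^ 2 ≤ (∫ x in a..b, (f x) ^ 2) * ∫ x in a..b, (g x) ^ 2 := by
  have h0 : ∀ t : ℝ, 0 ≤ (∫ x in a..b, (f x) ^ 2) * (t * t) + (2 * ∫ x in a..b, f x * g x) * t
      + ∫ x in a..b, (g x) ^ 2 := by
    intro t
    have h1 : (∫ x in a..b, (f x) ^ 2) * (t * t) + (2 * ∫ x in a..b, f x * g x) * t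
        + ∫ x in a..b, (g x) ^ 2 = ∫ x in a..b, (t * f x + g x) ^ 2 := by
      have h2 : (fun x => (t * f x + g x) ^ 2) =
          fun x => ((f x) ^ 2 * (t * t) + (f x * g x) * (2 * t)) + (g x) ^ 2 := by
        funext x
        ring
      rw [h2, intervalIntegral.integral_add, intervalIntegral.integral_add,
        intervalIntegral.integral_mul_const, intervalIntegral.integral_mul_const]
      · ring
      all_goals
        refine Continuous.intervalIntegrable ?_ _ _
        fun_prop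
    rw [h1]
    exact intervalIntegral.integral_nonneg hab fun x _ => sq_nonneg _
  have h := discrim_le_zero h0
  rw [discrim] at h
  nlinarith [h]

theorem kap_pos (i : ℕ) : 0 < kap i := by
  rw [kap]
  positivity

theorem kap_mono (i : ℕ) : kap i ≤ kap (i + 1) := by
  rw [kap, kap, pow_succ]
  have : (0 : ℝ) < (65 / 64) ^ i := by positivity
  nlinarith

theorem dl_ge {z : ℝ} (h1 : -1 ≤ z) (h2 : z ≤ 1) : |z| ≤ dl z := by
  have key : ∀ w : ℝ, 0 ≤ w → w ≤ 1 → w ≤ Real.sin (Real.pi * w / 2) := by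
    intro w h0 hw
    have hp := Real.pi_pos
    have h := Real.mul_le_sin (x := Real.pi * w / 2) (by positivity) (by nlinarith)
    have h3 : 2 / Real.pi * (Real.pi * w / 2) = w := by
      field_simp
    linarith
  rw [dl]
  rcases le_total 0 z with h | h
  · rw [abs_of_nonneg h]
    exact (key z h h2).trans (le_abs_self _)
  · rw [abs_of_nonpos h]
    have h3 := key (-z) (by linarith) (by linarith)
    have h4 : Real.sin (Real.pi * z / 2) = -Real.sin (Real.pi * (-z) / 2) := by
      rw [← Real.sin_neg]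
      congr 1
      ring
    rw [h4, abs_neg]
    exact h3.trans (le_abs_self _)

/-- `∫ (1 + κ |z|)^(-2) ≤ 2 / κ` -/
theorem int_weight {κ : ℝ} (hκ : 0 < κ) : (∫ z in (-1 : ℝ)..1, 1 / (1 + κ * |z|) ^ 2) ≤ 2 / κ := by
  have hpos : ∀ z : ℝ, 0 < 1 + κ * |z| := fun z => by positivity
  have hcont : Continuous fun z : ℝ => 1 / (1 + κ * |z|) ^ 2 := by
    refine continuous_const.div (by fun_prop) fun z => (pow_pos (hpos z) 2).ne'
  have h01 : (∫ z in (0 : ℝ)..1, 1 / (1 + κ * |z|) ^ 2) ≤ 1 / κ := by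
    have h1 : (∫ z in (0 : ℝ)..1, 1 / (1 + κ * |z|) ^ 2) = ∫ z in (0 : ℝ)..1, 1 / (1 + κ * z) ^ 2 := by
      refine intervalIntegral.integral_congr fun z hz => ?_
      rw [uIcc_of_le zero_le_one] at hz
      simp only [abs_of_nonneg hz.1]
    have h2 : (∫ z in (0 : ℝ)..1, 1 / (1 + κ * z) ^ 2) = (-(1 / (κ * (1 + κ * 1)))) - (-(1 / (κ * (1 + κ * 0)))) := by
      refine intervalIntegral.integral_eq_sub_of_hasDerivAt
        (f := fun z => -(1 / (κ * (1 + κ * z)))) (fun z hz => ?_) ?_
      · rw [uIcc_of_le zero_le_one] at hz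
        have hz0 : 0 < 1 + κ * z := by nlinarith [hz.1]
        have hd : HasDerivAt (fun z : ℝ => κ * (1 + κ * z)) (κ * κ) z := by
          have := ((hasDerivAt_id z).const_mul κ).const_add 1 |>.const_mul κ
          simpa using this
        have h3 := (hd.inv (by positivity)).neg
        have h4 : (-(-(κ * κ) / (κ * (1 + κ * z)) ^ 2)) = 1 / (1 + κ * z) ^ 2 := by
          field_simp
        rw [h4] at h3
        refine h3.congr_of_eventuallyEq (Eventually.of_forall fun y => ?_)
        simp [one_div]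
      · refine ContinuousOn.intervalIntegrable ?_
        rw [uIcc_of_le zero_le_one]
        refine continuousOn_const.div (by fun_prop) fun z hz => ?_
        have : 0 < 1 + κ * z := by nlinarith [hz.1]
        positivity
    rw [h1, h2]
    have : 0 < 1 / (κ * (1 + κ * 1)) := by positivity
    have h5 : (1 : ℝ) / (κ * (1 + κ * 0)) = 1 / κ := by simp
    rw [h5]
    linarith
  have h10 : (∫ z in (-1 : ℝ)..0, 1 / (1 + κ * |z|) ^ 2) = ∫ z in (0 : ℝ)..1, 1 / (1 + κ * |z|) ^ 2 := by
    have h := intervalIntegral.integral_comp_neg (a := (0 : ℝ)) (b := 1)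
      (fun z => 1 / (1 + κ * |z|) ^ 2)
    simp only [abs_neg, neg_zero] at h
    exact h.symm
  rw [← intervalIntegral.integral_add_adjacent_intervals (b := (0 : ℝ))
    (hcont.intervalIntegrable _ _) (hcont.intervalIntegrable _ _), h10]
  have : (2 : ℝ) / κ = 1 / κ + 1 / κ := by ring
  linarith

/-- `conv` with the variables exchanged -/
theorem conv_eq {P f : ℝ → ℝ} (hP : Function.Periodic P 2) (hf : Function.Periodic f 2) (x : ℝ) :
    conv P f x = ∫ z in (-1 : ℝ)..1, P z * f (x - z) := by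
  have h1 : conv P f x = ∫ y in (-1 : ℝ)..1, (fun z => P z * f (x - z)) (x - y) := by
    rw [conv]
    refine intervalIntegral.integral_congr fun y _ => ?_
    simp only [sub_sub_cancel]
  rw [h1, intervalIntegral.integral_comp_sub_left (fun z => P z * f (x - z)) x]
  have hper : Function.Periodic (fun z => P z * f (x - z)) 2 := by
    intro z
    have h2 : f (x - (z + 2)) = f (x - z) := by
      rw [← hf (x - (z + 2))]
      congr 1
      ring
    simp only [hP z, h2]
  have h3 := hper.intervalIntegral_add_eq (x - 1) (-1)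
  rw [show x - 1 + 2 = x - -1 by ring, show (-1 : ℝ) + 2 = 1 by norm_num] at h3
  exact h3

/-- the weighted estimate -/
theorem wcs {P D : ℝ → ℝ} {C κ : ℝ} (hκ : 0 < κ) (hC : 0 < C) (hP : Continuous P) (hD : Continuous D)
    (hb : ∀ z, |P z| ≤ C * κ / (1 + κ * dl z) ^ 4) :
    (∫ z in (-1 : ℝ)..1, P z * D z) ^ 2 ≤
      2 / κ * ∫ z in (-1 : ℝ)..1, C ^ 2 * κ ^ 2 / (1 + κ * |z|) ^ 6 * (D z) ^ 2 := by
  have hpos : ∀ z : ℝ, 0 < 1 + κ * |z| := fun z => by positivity
  have ha : Continuous fun z : ℝ => 1 / (1 + κ * |z|) :=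
    continuous_const.div (by fun_prop) fun z => (hpos z).ne'
  have hg : Continuous fun z : ℝ => P z * D z * (1 + κ * |z|) := by fun_prop
  have h6 : Continuous fun z : ℝ => C ^ 2 * κ ^ 2 / (1 + κ * |z|) ^ 6 :=
    continuous_const.div (by fun_prop) fun z => (pow_pos (hpos z) 6).ne'
  have h1 : (∫ z in (-1 : ℝ)..1, P z * D z) =
      ∫ z in (-1 : ℝ)..1, (1 / (1 + κ * |z|)) * (P z * D z * (1 + κ * |z|)) := by
    refine intervalIntegral.integral_congr fun z _ => ?_
    have := (hpos z).ne'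
    field_simp
  have h2 := cs ha hg (a := -1) (b := 1) (by norm_num)
  rw [← h1] at h2
  have h3 : (∫ z in (-1 : ℝ)..1, (1 / (1 + κ * |z|)) ^ 2) ≤ 2 / κ := by
    refine le_trans (le_of_eq ?_) (int_weight hκ)
    refine intervalIntegral.integral_congr fun z _ => ?_
    simp only [div_pow, one_pow]
  have h4 : (∫ z in (-1 : ℝ)..1, (P z * D z * (1 + κ * |z|)) ^ 2) ≤
      ∫ z in (-1 : ℝ)..1, C ^ 2 * κ ^ 2 / (1 + κ * |z|) ^ 6 * (D z) ^ 2 := by
    refine intervalIntegral.integral_mono_on (by norm_num) ?_ ?_ fun z hz => ?_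
    · exact (hg.pow 2).intervalIntegrable _ _
    · exact (h6.mul (hD.pow 2)).intervalIntegrable _ _
    · have hz0 := hpos z
      have hdl : 1 + κ * |z| ≤ 1 + κ * dl z := by
        have := dl_ge hz.1 hz.2
        nlinarith
      have hPz : |P z| ≤ C * κ / (1 + κ * |z|) ^ 4 :=
        (hb z).trans (div_le_div_of_nonneg_left (by positivity) (by positivity)
          (pow_le_pow_left₀ hz0.le hdl 4))
      have hP2 : (P z) ^ 2 ≤ (C * κ / (1 + κ * |z|) ^ 4) ^ 2 := by
        rw [← sq_abs]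
        exact pow_le_pow_left₀ (abs_nonneg _) hPz 2
      have h5 : (P z * D z * (1 + κ * |z|)) ^ 2 = (P z) ^ 2 * ((D z) ^ 2 * (1 + κ * |z|) ^ 2) := by
        ring
      have h7 : C ^ 2 * κ ^ 2 / (1 + κ * |z|) ^ 6 * (D z) ^ 2 =
          (C * κ / (1 + κ * |z|) ^ 4) ^ 2 * ((D z) ^ 2 * (1 + κ * |z|) ^ 2) := by
        field_simp
      rw [h5, h7]
      exact mul_le_mul_of_nonneg_right hP2 (by positivity)
  have h0 : 0 ≤ ∫ z in (-1 : ℝ)..1, (P z * D z * (1 + κ * |z|)) ^ 2 :=
    intervalIntegral.integral_nonneg (by norm_num) fun z _ => sq_nonneg _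
  calc (∫ z in (-1 : ℝ)..1, P z * D z) ^ 2
      ≤ (∫ z in (-1 : ℝ)..1, (1 / (1 + κ * |z|)) ^ 2) *
          ∫ z in (-1 : ℝ)..1, (P z * D z * (1 + κ * |z|)) ^ 2 := h2
    _ ≤ 2 / κ * ∫ z in (-1 : ℝ)..1, (P z * D z * (1 + κ * |z|)) ^ 2 :=
        mul_le_mul_of_nonneg_right h3 h0
    _ ≤ _ := mul_le_mul_of_nonneg_left h4 (by positivity)

/-- the weight against a power of `|z|` -/
theorem wpow {g : ℝ → ℝ} {B C κ : ℝ} (hκ : 0 < κ) (hB : 0 ≤ B) (hg : Continuous g) (j : ℕ)
    (hj : j ≤ 4) (hgb : ∀ z, -1 ≤ z → z ≤ 1 → g z ≤ B * |z| ^ j) :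
    κ ^ j * (∫ z in (-1 : ℝ)..1, C ^ 2 * κ ^ 2 / (1 + κ * |z|) ^ 6 * g z) ≤ 2 * C ^ 2 * B * κ := by
  have hpos : ∀ z : ℝ, 0 < 1 + κ * |z| := fun z => by positivity
  have h6 : Continuous fun z : ℝ => C ^ 2 * κ ^ 2 / (1 + κ * |z|) ^ 6 :=
    continuous_const.div (by fun_prop) fun z => (pow_pos (hpos z) 6).ne'
  have h2c : Continuous fun z : ℝ => 1 / (1 + κ * |z|) ^ 2 :=
    continuous_const.div (by fun_prop) fun z => (pow_pos (hpos z) 2).ne'
  rw [← intervalIntegral.integral_const_mul]
  have h1 : (∫ z in (-1 : ℝ)..1, κ ^ j * (C ^ 2 * κ ^ 2 / (1 + κ * |z|) ^ 6 * g z)) ≤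
      ∫ z in (-1 : ℝ)..1, (C ^ 2 * κ ^ 2 * B) * (1 / (1 + κ * |z|) ^ 2) := by
    refine intervalIntegral.integral_mono_on (by norm_num) ?_ ?_ fun z hz => ?_
    · exact (continuous_const.mul (h6.mul hg)).intervalIntegrable _ _
    · exact (continuous_const.mul h2c).intervalIntegrable _ _
    · have hz0 := hpos z
      have h3 := hgb z hz.1 hz.2
      have h4 : (κ * |z|) ^ j ≤ (1 + κ * |z|) ^ 4 := by
        have h5 : (κ * |z|) ^ j ≤ (1 + κ * |z|) ^ j :=
          pow_le_pow_left₀ (by positivity) (by linarith) j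
        exact h5.trans (pow_le_pow_right₀ (by nlinarith [abs_nonneg z]) hj)
      have h7 : κ ^ j * (C ^ 2 * κ ^ 2 / (1 + κ * |z|) ^ 6 * g z) ≤
          κ ^ j * (C ^ 2 * κ ^ 2 / (1 + κ * |z|) ^ 6 * (B * |z| ^ j)) := by
        refine mul_le_mul_of_nonneg_left (mul_le_mul_of_nonneg_left h3 (by positivity)) (by positivity)
      refine h7.trans ?_
      have h8 : κ ^ j * (C ^ 2 * κ ^ 2 / (1 + κ * |z|) ^ 6 * (B * |z| ^ j)) =
          (C ^ 2 * κ ^ 2 * B) * ((κ * |z|) ^ j / (1 + κ * |z|) ^ 6) := by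
        rw [mul_pow]
        ring
      rw [h8]
      refine mul_le_mul_of_nonneg_left ?_ (by positivity)
      rw [div_le_div_iff₀ (by positivity) (by positivity)]
      calc (κ * |z|) ^ j * (1 + κ * |z|) ^ 2 ≤ (1 + κ * |z|) ^ 4 * (1 + κ * |z|) ^ 2 :=
            mul_le_mul_of_nonneg_right h4 (by positivity)
        _ = 1 * (1 + κ * |z|) ^ 6 := by ring
  refine h1.trans ?_
  rw [intervalIntegral.integral_const_mul]
  have h9 := int_weight hκ
  calc C ^ 2 * κ ^ 2 * B * (∫ z in (-1 : ℝ)..1, 1 / (1 + κ * |z|) ^ 2)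
      ≤ C ^ 2 * κ ^ 2 * B * (2 / κ) := mul_le_mul_of_nonneg_left h9 (by positivity)
    _ = 2 * C ^ 2 * B * κ := by
        field_simp

end LSz

open LSz in
theorem lsize_proof (hKer : KerStatement) : LSizeStatement := by
  obtain ⟨C, hC, hK⟩ := hKer
  intro E
  refine ⟨max 1 (16 * C ^ 2), le_max_left _ _, ?_⟩
  intro u r hp L hL hHL i
  have hVc : ∀ i, Continuous (V i) := fun i => (hK i).1.continuous
  have hVp : ∀ i, Function.Periodic (V i) 2 := fun i => (hK i).2.1
  have hV1 : ∀ i, (∫ z in (-1 : ℝ)..1, V i z) = 1 := fun i => (hK i).2.2.2.1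
  have hVb : ∀ i, ∀ z, |V i z| ≤ C * kap i / (1 + kap i * dl z) ^ 4 := fun i => (hK i).2.2.2.2.2.1
  have hrx : ∀ i x, r x - Lo i r x = ∫ z in (-1 : ℝ)..1, V i z * (r x - r (x - z)) := by
    intro i x
    have hcr := hp.cr
    have h1 : (fun z => V i z * (r x - r (x - z))) = fun z => V i z * r x - V i z * r (x - z) := by
      funext z
      ring
    have hVi := hVc i
    rw [h1, intervalIntegral.integral_sub, intervalIntegral.integral_mul_const, hV1, Lo,
      conv_eq (hVp i) hp.pr, one_mul]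
    all_goals
      refine Continuous.intervalIntegrable ?_ _ _
      fun_prop
  have hsq : ∀ (i : ℕ) (x : ℝ), (r x - Lo i r x) ^ 2 ≤
      2 / kap i * ∫ z in (-1 : ℝ)..1, C ^ 2 * (kap i) ^ 2 / (1 + kap i * |z|) ^ 6 *
        (r x - r (x - z)) ^ 2 := by
    intro i x
    have hcr := hp.cr
    rw [hrx]
    exact wcs (kap_pos i) hC (hVc i) (by fun_prop) (hVb i)
  have hB : 16 * C ^ 2 ≤ max 1 (16 * C ^ 2) := le_max_right _ _
  have hLc : ∀ i, Continuous (Lo i r) := by
    intro i
    have h1 : Lo i r = fun x => ∫ z in (-1 : ℝ)..1, V i z * r (x - z) := by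
      funext x
      rw [Lo, conv_eq (hVp i) hp.pr]
    rw [h1]
    have hVi := hVc i
    have hcr := hp.cr
    exact intervalIntegral.continuous_parametric_intervalIntegral_of_continuous' (by fun_prop) _ _
  -- the `L²` bound
  have hl2 : ∀ i, cint (fun x => (r x - Lo i r x) ^ 2) ≤ 4 * C ^ 2 * L ^ 2 / (kap i) ^ 2 := by
    intro i
    have hκ := kap_pos i
    have hcr := hp.cr
    have hLi := hLc i
    have hpos : ∀ z : ℝ, 0 < 1 + kap i * |z| := fun z => by positivity
    have hw : Continuous fun z : ℝ => C ^ 2 * (kap i) ^ 2 / (1 + kap i * |z|) ^ 6 :=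
      continuous_const.div (by fun_prop) fun z => (pow_pos (hpos z) 6).ne'
    have hF : Continuous (Function.uncurry fun x z : ℝ =>
        C ^ 2 * (kap i) ^ 2 / (1 + kap i * |z|) ^ 6 * (r x - r (x - z)) ^ 2) := by
      have h1 : Continuous fun p : ℝ × ℝ => C ^ 2 * (kap i) ^ 2 / (1 + kap i * |p.2|) ^ 6 :=
        hw.comp continuous_snd
      have h2 : Continuous fun p : ℝ × ℝ => (r p.1 - r (p.1 - p.2)) ^ 2 := by fun_prop
      exact h1.mul h2
    have h1 : cint (fun x => (r x - Lo i r x) ^ 2) ≤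
        ∫ x in (-1 : ℝ)..1, 2 / kap i * ∫ z in (-1 : ℝ)..1,
          C ^ 2 * (kap i) ^ 2 / (1 + kap i * |z|) ^ 6 * (r x - r (x - z)) ^ 2 := by
      rw [cint]
      refine intervalIntegral.integral_mono_on (by norm_num) ?_ ?_ fun x _ => hsq i x
      · refine Continuous.intervalIntegrable ?_ _ _
        fun_prop
      · refine Continuous.intervalIntegrable ?_ _ _
        exact continuous_const.mul
          (intervalIntegral.continuous_parametric_intervalIntegral_of_continuous' hF _ _)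
    refine h1.trans ?_
    rw [intervalIntegral.integral_const_mul, swap hF]
    have h2 : (∫ z in (-1 : ℝ)..1, ∫ x in (-1 : ℝ)..1,
        C ^ 2 * (kap i) ^ 2 / (1 + kap i * |z|) ^ 6 * (r x - r (x - z)) ^ 2) =
        ∫ z in (-1 : ℝ)..1, C ^ 2 * (kap i) ^ 2 / (1 + kap i * |z|) ^ 6 *
          cint (fun x => (r (x + -z) - r x) ^ 2) := by
      refine intervalIntegral.integral_congr fun z _ => ?_
      rw [cint]
      rw [intervalIntegral.integral_const_mul]
      congr 1
      refine intervalIntegral.integral_congr fun x _ => ?_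
      simp only [← sub_eq_add_neg]
      ring
    have hgc : Continuous fun z : ℝ => cint (fun x => (r (x + -z) - r x) ^ 2) := by
      unfold cint
      exact intervalIntegral.continuous_parametric_intervalIntegral_of_continuous' (by fun_prop) _ _
    have h3 := wpow (C := C) hκ (sq_nonneg L) hgc 2 (by norm_num) (fun z _ _ => by
      have := hHL.l2 (-z)
      rw [sq_abs]
      rw [neg_sq] at this
      exact this)
    rw [h2, le_div_iff₀ (by positivity)]
    calc 2 / kap i * (∫ z in (-1 : ℝ)..1, C ^ 2 * (kap i) ^ 2 / (1 + kap i * |z|) ^ 6 *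
          cint (fun x => (r (x + -z) - r x) ^ 2)) * (kap i) ^ 2
        = 2 / kap i * ((kap i) ^ 2 * ∫ z in (-1 : ℝ)..1, C ^ 2 * (kap i) ^ 2 / (1 + kap i * |z|) ^ 6 *
          cint (fun x => (r (x + -z) - r x) ^ 2)) := by ring
      _ ≤ 2 / kap i * (2 * C ^ 2 * L ^ 2 * kap i) := mul_le_mul_of_nonneg_left h3 (by positivity)
      _ = 4 * C ^ 2 * L ^ 2 := by
          field_simp
          ring
  have hPa : ∀ x, Pa i r x = (r x - Lo i r x) - (r x - Lo (i + 1) r x) := by
    intro x
    have hcr := hp.cr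
    have hVi := hVc i
    have hVi1 := hVc (i + 1)
    have h1 : Pa i r x = Lo (i + 1) r x - Lo i r x := by
      simp only [Pa, Lo, conv, A]
      rw [← intervalIntegral.integral_sub]
      · refine intervalIntegral.integral_congr fun y _ => ?_
        ring
      all_goals
        refine Continuous.intervalIntegrable ?_ _ _
        fun_prop
    rw [h1]
    ring
  refine ⟨?_, ?_, ?_⟩
  · have hcr := hp.cr
    have hLi := hLc i
    have hLi1 := hLc (i + 1)
    have h1 : cint (fun x => (Pa i r x) ^ 2) ≤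
        ∫ x in (-1 : ℝ)..1, (2 * (r x - Lo i r x) ^ 2 + 2 * (r x - Lo (i + 1) r x) ^ 2) := by
      rw [cint]
      refine intervalIntegral.integral_mono_on (by norm_num) ?_ ?_ fun x _ => ?_
      · refine Continuous.intervalIntegrable ?_ _ _
        simp only [hPa]
        fun_prop
      · refine Continuous.intervalIntegrable ?_ _ _
        fun_prop
      · rw [hPa]
        nlinarith [sq_nonneg ((r x - Lo i r x) + (r x - Lo (i + 1) r x))]
    have h2 : (∫ x in (-1 : ℝ)..1, (2 * (r x - Lo i r x) ^ 2 + 2 * (r x - Lo (i + 1) r x) ^ 2)) =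
        2 * cint (fun x => (r x - Lo i r x) ^ 2) + 2 * cint (fun x => (r x - Lo (i + 1) r x) ^ 2) := by
      rw [intervalIntegral.integral_add, intervalIntegral.integral_const_mul,
        intervalIntegral.integral_const_mul, cint, cint]
      all_goals
        refine Continuous.intervalIntegrable ?_ _ _
        fun_prop
    have h3 := hl2 i
    have h4 := hl2 (i + 1)
    have hκ := kap_pos i
    have h5 : 4 * C ^ 2 * L ^ 2 / (kap (i + 1)) ^ 2 ≤ 4 * C ^ 2 * L ^ 2 / (kap i) ^ 2 :=
      div_le_div_of_nonneg_left (by positivity) (by positivity)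
        (pow_le_pow_left₀ hκ.le (kap_mono i) 2)
    have h6 : 16 * C ^ 2 * L ^ 2 / (kap i) ^ 2 ≤ max 1 (16 * C ^ 2) * L ^ 2 / (kap i) ^ 2 := by
      gcongr
    have h7 : 16 * C ^ 2 * L ^ 2 / (kap i) ^ 2 = 4 * (4 * C ^ 2 * L ^ 2 / (kap i) ^ 2) := by ring
    linarith
  · intro x
    have hκ := kap_pos i
    have hcr := hp.cr
    have hg : Continuous fun z : ℝ => (r x - r (x - z)) ^ 2 := by fun_prop
    have h3 := wpow (C := C) hκ (sq_nonneg L) hg 1 (by norm_num) (fun z h1 h2 => by
      have := hHL.hol x (x - z) (by rw [sub_sub_cancel, abs_le]; constructor <;> linarith)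
      rw [sub_sub_cancel] at this
      rw [pow_one]
      exact this)
    rw [pow_one] at h3
    have h6 : 16 * C ^ 2 * L ^ 2 / kap i ≤ max 1 (16 * C ^ 2) * L ^ 2 / kap i := by
      gcongr
    refine (hsq i x).trans (le_trans ?_ h6)
    rw [le_div_iff₀ hκ]
    have h8 : 2 / kap i * (2 * C ^ 2 * L ^ 2 * kap i) = 4 * (C ^ 2 * L ^ 2) := by
      field_simp
      ring
    calc 2 / kap i * (∫ z in (-1 : ℝ)..1, C ^ 2 * (kap i) ^ 2 / (1 + kap i * |z|) ^ 6 *
          (r x - r (x - z)) ^ 2) * kap i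
        = 2 / kap i * (kap i * ∫ z in (-1 : ℝ)..1, C ^ 2 * (kap i) ^ 2 / (1 + kap i * |z|) ^ 6 *
          (r x - r (x - z)) ^ 2) := by ring
      _ ≤ 2 / kap i * (2 * C ^ 2 * L ^ 2 * kap i) := mul_le_mul_of_nonneg_left h3 (by positivity)
      _ ≤ 16 * C ^ 2 * L ^ 2 := by
          rw [h8]
          nlinarith [mul_nonneg (sq_nonneg C) (sq_nonneg L)]
  · intro x
    have hκ := kap_pos i
    have hcr := hp.cr
    have hcu := hp.cu
    have hVi := hVc i
    have hVe : ∀ z, V i (-z) = V i z := (hK i).2.2.1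
    have hLo : Lo i u x = ∫ z in (-1 : ℝ)..1, V i z * u (x - z) := by
      rw [Lo, conv_eq (hVp i) hp.pu]
    have hLo2 : Lo i u x = ∫ z in (-1 : ℝ)..1, V i z * u (x + z) := by
      rw [hLo]
      have h := intervalIntegral.integral_comp_neg (a := (-1 : ℝ)) (b := 1)
        (fun z => V i z * u (x - z))
      simp only [hVe, sub_neg_eq_add, neg_neg] at h
      exact h.symm
    have hD : 2 * (u x - Lo i u x) = ∫ z in (-1 : ℝ)..1, V i z * (2 * u x - u (x - z) - u (x + z)) := by
      have h1 : (fun z => V i z * (2 * u x - u (x - z) - u (x + z))) =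
          fun z => V i z * (2 * u x) - V i z * u (x - z) - V i z * u (x + z) := by
        funext z
        ring
      rw [h1, intervalIntegral.integral_sub, intervalIntegral.integral_sub,
        intervalIntegral.integral_mul_const, hV1, ← hLo, ← hLo2]
      · ring
      all_goals
        refine Continuous.intervalIntegrable ?_ _ _
        fun_prop
    have hDpos : ∀ z, 0 ≤ z → z ≤ 1 → (2 * u x - u (x - z) - u (x + z)) ^ 2 ≤ L ^ 2 * z ^ 3 := by
      intro z hz0 hz1
      set φ : ℝ → ℝ := fun s => (r (x + s) + r (-(x + s))) / 2 - (r (x - s) + r (-(x - s))) / 2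
        with hφ
      have hφc : Continuous φ := by
        rw [hφ]
        fun_prop
      have hint : (∫ s in (0 : ℝ)..z, φ s) = (u (x + z) + u (x - z)) - (u (x + 0) + u (x - 0)) := by
        refine intervalIntegral.integral_eq_sub_of_hasDerivAt (f := fun s => u (x + s) + u (x - s))
          (fun s _ => ?_) (hφc.intervalIntegrable _ _)
        have h1 : HasDerivAt (fun s => u (x + s)) ((r (x + s) + r (-(x + s))) / 2) s :=
          (hp.ux (x + s)).comp_const_add x s
        have h2 : HasDerivAt (fun s => u (x - s)) (-((r (x - s) + r (-(x - s))) / 2)) s :=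
          (hp.ux (x - s)).comp_const_sub x s
        have h3 := h1.add h2
        rw [← sub_eq_add_neg] at h3
        exact h3
      have h4 : 2 * u x - u (x - z) - u (x + z) = -∫ s in (0 : ℝ)..z, φ s := by
        rw [hint, add_zero, sub_zero]
        ring
      have h5 := cs (continuous_const (y := (1 : ℝ))) hφc hz0
      simp only [one_mul, one_pow, intervalIntegral.integral_const, sub_zero, smul_eq_mul,
        mul_one] at h5
      have h6 : (∫ s in (0 : ℝ)..z, (φ s) ^ 2) ≤ ∫ s in (0 : ℝ)..z, 2 * L ^ 2 * s := by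
        refine intervalIntegral.integral_mono_on hz0 ((hφc.pow 2).intervalIntegrable _ _)
          (Continuous.intervalIntegrable (by fun_prop) _ _) fun s hs => ?_
        have ha := hHL.hol (x + s) (x - s) (by
          rw [abs_le]
          constructor <;> linarith [hs.1, hs.2])
        have hb := hHL.hol (-(x + s)) (-(x - s)) (by
          rw [abs_le]
          constructor <;> linarith [hs.1, hs.2])
        have e1 : |x + s - (x - s)| = 2 * s := by
          rw [show x + s - (x - s) = 2 * s by ring, abs_of_nonneg (by linarith [hs.1])]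
        have e2 : |-(x + s) - -(x - s)| = 2 * s := by
          rw [show -(x + s) - -(x - s) = -(2 * s) by ring, abs_neg,
            abs_of_nonneg (by linarith [hs.1])]
        rw [e1] at ha
        rw [e2] at hb
        have h7 : φ s = ((r (x + s) - r (x - s)) + (r (-(x + s)) - r (-(x - s)))) / 2 := by
          rw [hφ]
          ring
        rw [h7]
        nlinarith [sq_nonneg ((r (x + s) - r (x - s)) - (r (-(x + s)) - r (-(x - s))))]
      have h8 : (∫ s in (0 : ℝ)..z, 2 * L ^ 2 * s) = L ^ 2 * z ^ 2 := by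
        rw [intervalIntegral.integral_const_mul, integral_id]
        ring
      rw [h8] at h6
      rw [h4, neg_sq]
      calc (∫ s in (0 : ℝ)..z, φ s) ^ 2 ≤ z * ∫ s in (0 : ℝ)..z, (φ s) ^ 2 := h5
        _ ≤ z * (L ^ 2 * z ^ 2) := mul_le_mul_of_nonneg_left h6 hz0
        _ = L ^ 2 * z ^ 3 := by ring
    have hDall : ∀ z, -1 ≤ z → z ≤ 1 → (2 * u x - u (x - z) - u (x + z)) ^ 2 ≤ L ^ 2 * |z| ^ 3 := by
      intro z h1 h2
      rcases le_total 0 z with h | h
      · rw [abs_of_nonneg h]
        exact hDpos z h h2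
      · rw [abs_of_nonpos h]
        have h3 := hDpos (-z) (by linarith) (by linarith)
        have h4 : 2 * u x - u (x - -z) - u (x + -z) = 2 * u x - u (x - z) - u (x + z) := by
          rw [sub_neg_eq_add, ← sub_eq_add_neg]
          ring
        rw [h4] at h3
        exact h3
    have hDc : Continuous fun z : ℝ => 2 * u x - u (x - z) - u (x + z) := by fun_prop
    have h9 := wcs hκ hC hVi hDc (hVb i)
    rw [← hD] at h9
    have h10 := wpow (C := C) hκ (sq_nonneg L) (hDc.pow 2) 3 (by norm_num) hDall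
    have h11 : (2 * (u x - Lo i u x)) ^ 2 * (kap i) ^ 3 ≤ 4 * C ^ 2 * L ^ 2 := by
      calc (2 * (u x - Lo i u x)) ^ 2 * (kap i) ^ 3
          ≤ (2 / kap i * ∫ z in (-1 : ℝ)..1, C ^ 2 * (kap i) ^ 2 / (1 + kap i * |z|) ^ 6 *
              (2 * u x - u (x - z) - u (x + z)) ^ 2) * (kap i) ^ 3 :=
            mul_le_mul_of_nonneg_right h9 (by positivity)
        _ = 2 / kap i * ((kap i) ^ 3 * ∫ z in (-1 : ℝ)..1,
              C ^ 2 * (kap i) ^ 2 / (1 + kap i * |z|) ^ 6 *
              (2 * u x - u (x - z) - u (x + z)) ^ 2) := by ring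
        _ ≤ 2 / kap i * (2 * C ^ 2 * L ^ 2 * kap i) :=
            mul_le_mul_of_nonneg_left h10 (by positivity)
        _ = 4 * C ^ 2 * L ^ 2 := by
            field_simp
            ring
    have h12 : 16 * C ^ 2 * L ^ 2 / (kap i) ^ 3 ≤ max 1 (16 * C ^ 2) * L ^ 2 / (kap i) ^ 3 := by
      gcongr
    refine le_trans ?_ h12
    rw [le_div_iff₀ (by positivity)]
    nlinarith [mul_nonneg (sq_nonneg C) (sq_nonneg L)]

end

end Pool.Agent.C1E
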