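import Pool.Agent.Lib.MP_c1e222_an.Iface
import Pool.Agent.Lib.MP_c1e222_an.A

/-!
# MP_c1e222_an, row Law (section 4): the local law of the densities `ρ_j`
-/

namespace Pool.Agent.C1E

open MeasureTheory Set Filter Topology

noncomputable section

namespace LawP

theorem conv_cont {P : ℝ → ℝ} (hP : Continuous P) {f : ℝ → ℝ → ℝ}
    (hf : Continuous (Function.uncurry f)) :
    Continuous (fun p : ℝ × ℝ => conv P (f p.1) p.2) := by
  unfold conv
  refine intervalIntegral.continuous_parametric_intervalIntegral_of_continuous'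
    (f := fun (p : ℝ × ℝ) (y : ℝ) => P (p.2 - y) * f p.1 y) ?_ _ _
  have h1 : Continuous (fun q : (ℝ × ℝ) × ℝ => P (q.1.2 - q.2)) := hP.comp (by fun_prop)
  have h2 : Continuous (fun q : (ℝ × ℝ) × ℝ => f q.1.1 q.2) :=
    hf.comp (by fun_prop : Continuous (fun q : (ℝ × ℝ) × ℝ => (q.1.1, q.2)))
  exact h1.mul h2

theorem conv_cont_neg {P : ℝ → ℝ} (hP : Continuous P) {f : ℝ → ℝ → ℝ}
    (hf : Continuous (Function.uncurry f)) :
    Continuous (fun p : ℝ × ℝ => conv P (f p.1) (-p.2)) := by
  unfold conv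
  refine intervalIntegral.continuous_parametric_intervalIntegral_of_continuous'
    (f := fun (p : ℝ × ℝ) (y : ℝ) => P (-p.2 - y) * f p.1 y) ?_ _ _
  have h1 : Continuous (fun q : (ℝ × ℝ) × ℝ => P (-q.1.2 - q.2)) := hP.comp (by fun_prop)
  have h2 : Continuous (fun q : (ℝ × ℝ) × ℝ => f q.1.1 q.2) :=
    hf.comp (by fun_prop : Continuous (fun q : (ℝ × ℝ) × ℝ => (q.1.1, q.2)))
  exact h1.mul h2

theorem conv_per {P : ℝ → ℝ} (hp : Function.Periodic P 2) (f : ℝ → ℝ) :
    Function.Periodic (conv P f) 2 := by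
  intro x
  unfold conv
  refine intervalIntegral.integral_congr fun y _ => ?_
  have : x + 2 - y = (x - y) + 2 := by ring
  simp only [this, hp (x - y)]

/-- change of variable -/
theorem conv_shift {P : ℝ → ℝ} (hp : Function.Periodic P 2) {f : ℝ → ℝ}
    (hf : Function.Periodic f 2) (x t : ℝ) :
    conv P f x = ∫ z in (-1 : ℝ)..1, P (x + t - z) * f (z - t) := by
  have h := MPc1e222.per_int (f := fun y => P (x - y) * f y) (fun y => by
    have e : x - (y + 2) = (x - y) - 2 := by ring
    have h1 : P (x - (y + 2)) = P (x - y) := by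
      rw [e]
      have := hp ((x - y) - 2)
      rw [sub_add_cancel] at this
      exact this.symm
    simp only [h1, hf y]) t
  unfold conv
  rw [← h]
  refine intervalIntegral.integral_congr fun z _ => ?_
  have : x - (z - t) = x + t - z := by ring
  simp only [this]

theorem conv_dx {P P' : ℝ → ℝ} (hP : Continuous P) (hP' : Continuous P')
    (hd : ∀ x, HasDerivAt P (P' x) x) {f : ℝ → ℝ} (hf : Continuous f) (x : ℝ) :
    HasDerivAt (conv P f) (conv P' f x) x := by
  refine MPc1e222.hasDerivAt_int (A := fun s y => P (s - y) * f y)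
    (A' := fun s y => P' (s - y) * f y) ?_ ?_ ?_ x
  · exact (hP.comp (by fun_prop : Continuous fun p : ℝ × ℝ => p.1 - p.2)).mul
      (hf.comp continuous_snd)
  · exact (hP'.comp (by fun_prop : Continuous fun p : ℝ × ℝ => p.1 - p.2)).mul
      (hf.comp continuous_snd)
  · intro t y
    have h := (hd (t - y)).comp t ((hasDerivAt_id t).sub_const y)
    simp only [mul_one] at h
    exact h.mul_const _

theorem conv_neg {P : ℝ → ℝ} (he : ∀ x, P (-x) = P x) (f : ℝ → ℝ) (x : ℝ) :
    (∫ y in (-1 : ℝ)..1, P (x - y) * f (-y)) = conv P f (-x) := by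
  unfold conv
  have h := intervalIntegral.integral_comp_neg (a := -1) (b := 1)
    (f := fun y => P (-x - y) * f y)
  simp only [neg_neg] at h
  rw [← h]
  refine intervalIntegral.integral_congr fun y _ => ?_
  have : -x - -y = -(x - y) := by ring
  simp only [this, he]

/-- time derivative of `P * u` -/
theorem conv_ut {E : ℝ} {u r : ℝ → ℝ → ℝ} (h : Core E u r) {P : ℝ → ℝ} (hP : Continuous P)
    (he : ∀ x, P (-x) = P x) (t x : ℝ) :
    HasDerivAt (fun s => conv P (u s) x) ((conv P (r t) x - conv P (r t) (-x)) / 2) t := by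
  have hrc : ∀ s, Continuous (r s) := fun s => h.cr.comp (Continuous.prodMk_right s)
  have h1 := MPc1e222.hasDerivAt_int (a := -1) (b := 1) (A := fun s y => P (x - y) * u s y)
    (A' := fun s y => P (x - y) * ((r s y - r s (-y)) / 2)) ?_ ?_ ?_ t
  · have e : (∫ y in (-1 : ℝ)..1, P (x - y) * ((r t y - r t (-y)) / 2)) =
        (conv P (r t) x - conv P (r t) (-x)) / 2 := by
      rw [← conv_neg he (r t) x]
      unfold conv
      rw [← intervalIntegral.integral_sub, ← intervalIntegral.integral_div]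
      · refine intervalIntegral.integral_congr fun y _ => ?_
        ring
      · exact ((hP.comp (by fun_prop)).mul (hrc t)).intervalIntegrable _ _
      · exact ((hP.comp (by fun_prop)).mul ((hrc t).comp continuous_neg)).intervalIntegrable _ _
    rw [e] at h1
    exact h1
  · exact (hP.comp (by fun_prop : Continuous fun p : ℝ × ℝ => x - p.2)).mul h.cu
  · refine (hP.comp (by fun_prop : Continuous fun p : ℝ × ℝ => x - p.2)).mul
      (Continuous.div_const (Continuous.sub h.cr ?_) 2)
    exact h.cr.comp (by fun_prop : Continuous fun p : ℝ × ℝ => (p.1, -p.2))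
  · intro s y
    exact (h.ut s y).const_mul _

/-- time derivative of `P * r` -/
theorem conv_rt {E : ℝ} {u r : ℝ → ℝ → ℝ} (h : Core E u r) {P P' : ℝ → ℝ} (hP : Continuous P)
    (hP' : Continuous P') (hd : ∀ x, HasDerivAt P (P' x) x) (hp : Function.Periodic P 2)
    (hp' : Function.Periodic P' 2) (t x : ℝ) :
    HasDerivAt (fun s => conv P (r s) x)
      (conv P' (r t) x - conv P (fun y => (u t y) ^ 3) x) t := by
  have hrc : ∀ s, Continuous (r s) := fun s => h.cr.comp (Continuous.prodMk_right s)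
  have huc : ∀ s, Continuous (u s) := fun s => h.cu.comp (Continuous.prodMk_right s)
  have e0 : (fun s => conv P (r s) x) =
      fun s => ∫ z in (-1 : ℝ)..1, P (x + s - z) * r s (z - s) := by
    funext s
    exact conv_shift hp (h.pr s) x s
  rw [e0]
  have h1 := MPc1e222.hasDerivAt_int (a := -1) (b := 1)
    (A := fun s z => P (x + s - z) * r s (z - s))
    (A' := fun s z => P' (x + s - z) * r s (z - s) + P (x + s - z) * (-(u s (z - s)) ^ 3))
    ?_ ?_ ?_ t
  · have e : (∫ z in (-1 : ℝ)..1, (P' (x + t - z) * r t (z - t)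
        + P (x + t - z) * (-(u t (z - t)) ^ 3))) =
        conv P' (r t) x - conv P (fun y => (u t y) ^ 3) x := by
      rw [conv_shift hp' (h.pr t) x t, conv_shift hp (f := fun y => (u t y) ^ 3)
        (fun y => by simp only [h.pu t y]) x t, ← intervalIntegral.integral_sub]
      · refine intervalIntegral.integral_congr fun y _ => ?_
        ring
      · exact ((hP'.comp (by fun_prop)).mul ((hrc t).comp (by fun_prop))).intervalIntegrable _ _
      · exact ((hP.comp (by fun_prop)).mul
          (((huc t).comp (by fun_prop)).pow 3)).intervalIntegrable _ _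
    rw [e] at h1
    exact h1
  · exact (hP.comp (by fun_prop : Continuous fun p : ℝ × ℝ => x + p.1 - p.2)).mul
      (h.cr.comp (by fun_prop : Continuous fun p : ℝ × ℝ => (p.1, p.2 - p.1)))
  · refine Continuous.add ?_ ?_
    · exact (hP'.comp (by fun_prop : Continuous fun p : ℝ × ℝ => x + p.1 - p.2)).mul
        (h.cr.comp (by fun_prop : Continuous fun p : ℝ × ℝ => (p.1, p.2 - p.1)))
    · exact (hP.comp (by fun_prop : Continuous fun p : ℝ × ℝ => x + p.1 - p.2)).mul
        (((h.cu.comp (by fun_prop : Continuous fun p : ℝ × ℝ => (p.1, p.2 - p.1))).pow 3).neg)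
  · intro s z
    have h2 : HasDerivAt (fun s => P (x + s - z)) (P' (x + s - z)) s := by
      have h3 := (hd (x + s - z)).comp s (((hasDerivAt_id s).const_add x).sub_const z)
      simp only [mul_one] at h3
      exact h3
    exact h2.mul (h.rt s z)

/-- the algebra of the local law, for abstract functions -/
theorem abs_law {U W R L Rm Lm Rd G : ℝ → ℝ → ℝ}
    (cU : Continuous (Function.uncurry U)) (cW : Continuous (Function.uncurry W))
    (cR : Continuous (Function.uncurry R)) (cL : Continuous (Function.uncurry L))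
    (cRm : Continuous (Function.uncurry Rm)) (cLm : Continuous (Function.uncurry Lm))
    (cRd : Continuous (Function.uncurry Rd)) (cG : Continuous (Function.uncurry G))
    (pU : ∀ t, Function.Periodic (U t) 2) (pW : ∀ t, Function.Periodic (W t) 2)
    (pR : ∀ t, Function.Periodic (R t) 2)
    (dUt : ∀ t x, HasDerivAt (fun s => U s x) ((L t x - Lm t x) / 2) t)
    (dWt : ∀ t x, HasDerivAt (fun s => W s x) ((R t x - Rm t x) / 2) t)
    (dRt : ∀ t x, HasDerivAt (fun s => R s x) (Rd t x - G t x) t)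
    (dUx : ∀ t x, HasDerivAt (U t) ((L t x + Lm t x) / 2) x)
    (dWx : ∀ t x, HasDerivAt (W t) ((R t x + Rm t x) / 2) x)
    (dRx : ∀ t x, HasDerivAt (R t) (Rd t x) x) :
    ∃ ρt ρx Fx : ℝ → ℝ → ℝ,
      LawOf (fun t x => (R t x) ^ 2 / 2 + 3 * (U t x) ^ 2 * (W t x) ^ 2 / 2) ρt ρx
        (fun t x => 3 * (U t x) ^ 2 * (W t x) ^ 2) Fx
        (fun t x => 3 * U t x * L t x * (W t x) ^ 2
          + (3 * (U t x) ^ 2 * W t x - G t x) * R t x) := by
  have dFx : ∀ t x, HasDerivAt (fun y => 3 * (U t y) ^ 2 * (W t y) ^ 2)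
      (3 * (2 * U t x * ((L t x + Lm t x) / 2)) * (W t x) ^ 2 +
        3 * (U t x) ^ 2 * (2 * W t x * ((R t x + Rm t x) / 2))) x := by
    intro t x
    have h : HasDerivAt (fun y => 3 * (U t y) ^ 2 * (W t y) ^ 2) _ x :=
      (((dUx t x).pow 2).const_mul 3).mul ((dWx t x).pow 2)
    refine h.congr_deriv ?_
    simp only [Nat.reduceSub, pow_one, Pi.pow_apply, Nat.cast_ofNat]
  have dFt : ∀ t x, HasDerivAt (fun s => 3 * (U s x) ^ 2 * (W s x) ^ 2)
      (3 * (2 * U t x * ((L t x - Lm t x) / 2)) * (W t x) ^ 2 +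
        3 * (U t x) ^ 2 * (2 * W t x * ((R t x - Rm t x) / 2))) t := by
    intro t x
    have h : HasDerivAt (fun s => 3 * (U s x) ^ 2 * (W s x) ^ 2) _ t :=
      (((dUt t x).pow 2).const_mul 3).mul ((dWt t x).pow 2)
    refine h.congr_deriv ?_
    simp only [Nat.reduceSub, pow_one, Pi.pow_apply, Nat.cast_ofNat]
  refine ⟨fun t x => R t x * (Rd t x - G t x) + (3 * (2 * U t x * ((L t x - Lm t x) / 2)) *
      (W t x) ^ 2 + 3 * (U t x) ^ 2 * (2 * W t x * ((R t x - Rm t x) / 2))) / 2,
    fun t x => R t x * Rd t x + (3 * (2 * U t x * ((L t x + Lm t x) / 2)) *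
      (W t x) ^ 2 + 3 * (U t x) ^ 2 * (2 * W t x * ((R t x + Rm t x) / 2))) / 2,
    fun t x => 3 * (2 * U t x * ((L t x + Lm t x) / 2)) * (W t x) ^ 2 +
        3 * (U t x) ^ 2 * (2 * W t x * ((R t x + Rm t x) / 2)), ?_⟩
  have cFx : Continuous (Function.uncurry fun t x =>
      3 * (2 * U t x * ((L t x + Lm t x) / 2)) * (W t x) ^ 2 +
        3 * (U t x) ^ 2 * (2 * W t x * ((R t x + Rm t x) / 2))) :=
    ((continuous_const.mul ((continuous_const.mul cU).mul ((cL.add cLm).div_const 2))).mul
      (cW.pow 2)).add ((continuous_const.mul (cU.pow 2)).mul ((continuous_const.mul cW).mul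
      ((cR.add cRm).div_const 2)))
  have cFt : Continuous (Function.uncurry fun t x =>
      3 * (2 * U t x * ((L t x - Lm t x) / 2)) * (W t x) ^ 2 +
        3 * (U t x) ^ 2 * (2 * W t x * ((R t x - Rm t x) / 2))) :=
    ((continuous_const.mul ((continuous_const.mul cU).mul ((cL.sub cLm).div_const 2))).mul
      (cW.pow 2)).add ((continuous_const.mul (cU.pow 2)).mul ((continuous_const.mul cW).mul
      ((cR.sub cRm).div_const 2)))
  have cF : Continuous (Function.uncurry fun t x => 3 * (U t x) ^ 2 * (W t x) ^ 2) :=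
    (continuous_const.mul (cU.pow 2)).mul (cW.pow 2)
  refine ⟨?_, ?_, ?_, cF, cFx, ?_, ?_, ?_, ?_, ?_, dFx, ?_⟩
  · exact ((cR.pow 2).div_const 2).add (cF.div_const 2)
  · exact (cR.mul (cRd.sub cG)).add (cFt.div_const 2)
  · exact (cR.mul cRd).add (cFx.div_const 2)
  · exact (((continuous_const.mul cU).mul cL).mul (cW.pow 2)).add
      ((((continuous_const.mul (cU.pow 2)).mul cW).sub cG).mul cR)
  · intro t x
    simp only [pU t x, pW t x, pR t x]
  · intro t x
    simp only [pU t x, pW t x]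
  · intro t x
    have h : HasDerivAt (fun s => (R s x) ^ 2 / 2 + 3 * (U s x) ^ 2 * (W s x) ^ 2 / 2) _ t :=
      (((dRt t x).pow 2).div_const 2).add ((dFt t x).div_const 2)
    refine h.congr_deriv ?_
    simp only [Nat.reduceSub, pow_one, Nat.cast_ofNat]
    ring
  · intro t x
    have h : HasDerivAt (fun y => (R t y) ^ 2 / 2 + 3 * (U t y) ^ 2 * (W t y) ^ 2 / 2) _ x :=
      (((dRx t x).pow 2).div_const 2).add ((dFx t x).div_const 2)
    refine h.congr_deriv ?_
    simp only [Nat.reduceSub, pow_one, Nat.cast_ofNat]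
    ring
  · intro t x
    ring

end LawP

open LawP

theorem law_proof (h1 : KerStatement) (h2 : IdnStatement) : LawStatement := by
  intro M E u r hc j
  obtain ⟨C, _, hK⟩ := h1
  obtain ⟨-, hI2⟩ := h2
  have vC : ∀ i, Continuous (V i) := fun i => (hK i).1.continuous
  have vP : ∀ i, Function.Periodic (V i) 2 := fun i => (hK i).2.1
  have vE : ∀ i x, V i (-x) = V i x := fun i => (hK i).2.2.1
  have vD : ∀ i x, HasDerivAt (V i) (deriv (V i) x) x := fun i x =>
    (((hK i).1.differentiable (by norm_num)) x).hasDerivAt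
  have vDC : ∀ i, Continuous (deriv (V i)) := fun i => (hK i).1.continuous_deriv (by norm_num)
  have vDP : ∀ i, Function.Periodic (deriv (V i)) 2 := fun i x => by
    have e : (fun y => V i (y + 2)) = V i := funext (vP i)
    have h := deriv_comp_add_const (V i) 2 x
    rw [e] at h
    exact h.symm
  have aC : Continuous (A j) := (vC (j + 1)).sub (vC j)
  have aP : Function.Periodic (A j) 2 := fun x => by
    show V (j + 1) (x + 2) - V j (x + 2) = V (j + 1) x - V j x
    rw [vP (j + 1) x, vP j x]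
  have aE : ∀ x, A j (-x) = A j x := fun x => by
    show V (j + 1) (-x) - V j (-x) = V (j + 1) x - V j x
    rw [vE (j + 1) x, vE j x]
  have aD : ∀ x, HasDerivAt (A j) (deriv (V (j + 1)) x - deriv (V j) x) x := fun x =>
    (vD (j + 1) x).sub (vD j x)
  have aDC : Continuous (fun x => deriv (V (j + 1)) x - deriv (V j) x) := (vDC (j + 1)).sub (vDC j)
  have aDP : Function.Periodic (fun x => deriv (V (j + 1)) x - deriv (V j) x) 2 := fun x => by
    show deriv (V (j + 1)) (x + 2) - deriv (V j) (x + 2) = deriv (V (j + 1)) x - deriv (V j) x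
    rw [vDP (j + 1) x, vDP j x]
  have hrc : ∀ s, Continuous (r s) := fun s => hc.cr.comp (Continuous.prodMk_right s)
  have cR : Continuous (fun p : ℝ × ℝ => Pa j (r p.1) p.2) := conv_cont aC hc.cr
  have cL : Continuous (fun p : ℝ × ℝ => Lo (j - M) (r p.1) p.2) := conv_cont (vC _) hc.cr
  have cU : Continuous (fun p : ℝ × ℝ => Lo (j - M) (u p.1) p.2) := conv_cont (vC _) hc.cu
  have cW : Continuous (fun p : ℝ × ℝ => Pa j (u p.1) p.2) := conv_cont aC hc.cu
  have cRd : Continuous (fun p : ℝ × ℝ =>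
      conv (fun x => deriv (V (j + 1)) x - deriv (V j) x) (r p.1) p.2) := conv_cont aDC hc.cr
  have cG : Continuous (fun p : ℝ × ℝ => Pa j (fun y => (u p.1 y) ^ 3) p.2) :=
    conv_cont (f := fun t y => (u t y) ^ 3) aC (hc.cu.pow 3)
  have cRm : Continuous (fun p : ℝ × ℝ => Pa j (r p.1) (-p.2)) :=
    conv_cont_neg aC hc.cr
  have cLm : Continuous (fun p : ℝ × ℝ => Lo (j - M) (r p.1) (-p.2)) :=
    conv_cont_neg (vC _) hc.cr
  have pU : ∀ t, Function.Periodic (Lo (j - M) (u t)) 2 := fun t => conv_per (vP _) (u t)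
  have pW : ∀ t, Function.Periodic (Pa j (u t)) 2 := fun t => conv_per aP (u t)
  have pR : ∀ t, Function.Periodic (Pa j (r t)) 2 := fun t => conv_per aP (r t)
  have dUt : ∀ t x, HasDerivAt (fun s => Lo (j - M) (u s) x)
      ((Lo (j - M) (r t) x - Lo (j - M) (r t) (-x)) / 2) t := fun t x =>
    conv_ut hc (vC _) (vE _) t x
  have dWt : ∀ t x, HasDerivAt (fun s => Pa j (u s) x)
      ((Pa j (r t) x - Pa j (r t) (-x)) / 2) t := fun t x => conv_ut hc aC aE t x
  have dRt : ∀ t x, HasDerivAt (fun s => Pa j (r s) x)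
      (conv (fun x => deriv (V (j + 1)) x - deriv (V j) x) (r t) x
        - Pa j (fun y => (u t y) ^ 3) x) t := fun t x => conv_rt hc aC aDC aD aP aDP t x
  have dUx : ∀ t x, HasDerivAt (Lo (j - M) (u t))
      ((Lo (j - M) (r t) x + Lo (j - M) (r t) (-x)) / 2) x := fun t x =>
    (hI2 E (u t) (r t) (hc.prof t) (j - M) x).2.1
  have dWx : ∀ t x, HasDerivAt (Pa j (u t)) ((Pa j (r t) x + Pa j (r t) (-x)) / 2) x :=
    fun t x => (hI2 E (u t) (r t) (hc.prof t) j x).2.2.1
  have dRx : ∀ t x, HasDerivAt (Pa j (r t))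
      (conv (fun x => deriv (V (j + 1)) x - deriv (V j) x) (r t) x) x := fun t x =>
    conv_dx aC aDC aD (hrc t) x
  obtain ⟨ρt, ρx, Fx, h⟩ := abs_law (U := fun t => Lo (j - M) (u t)) (W := fun t => Pa j (u t))
    (R := fun t => Pa j (r t)) (L := fun t => Lo (j - M) (r t))
    (Rm := fun t x => Pa j (r t) (-x)) (Lm := fun t x => Lo (j - M) (r t) (-x))
    (Rd := fun t => conv (fun x => deriv (V (j + 1)) x - deriv (V j) x) (r t))
    (G := fun t => Pa j (fun y => (u t y) ^ 3))
    cU cW cR cL cRm cLm cRd cG pU pW pR dUt dWt dRt dUx dWx dRx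
  refine ⟨ρt, ρx, Fx, ?_⟩
  exact h

end

end Pool.Agent.C1E
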