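import Pool.Agent.Lib.MP_c1e222_an.Iface

/-!
# MP_c1e222_an, row MDer: derivative of the interaction functional (section 5)
-/

set_option autoImplicit false

namespace Pool.Agent.C1E

open MeasureTheory Set Filter Topology

noncomputable section

namespace MDer

/-- Swapping the two integrals of a jointly continuous function. -/
theorem swap {F : ℝ → ℝ → ℝ} (hF : Continuous (Function.uncurry F)) (a b c d : ℝ) :
    ∫ x in a..b, ∫ y in c..d, F x y = ∫ y in c..d, ∫ x in a..b, F x y := by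
  refine intervalIntegral_intervalIntegral_swap ?_
  have h : IntegrableOn (Function.uncurry F) (uIcc a b ×ˢ uIcc c d) volume :=
    hF.continuousOn.integrableOn_compact (isCompact_uIcc.prod isCompact_uIcc)
  exact h.mono_set (prod_mono uIoc_subset_uIcc uIoc_subset_uIcc)

theorem cint_add {f g : ℝ → ℝ} (hf : Continuous f) (hg : Continuous g) :
    cint (fun x => f x + g x) = cint f + cint g :=
  intervalIntegral.integral_add (hf.intervalIntegrable _ _) (hg.intervalIntegrable _ _)

theorem cint_sub {f g : ℝ → ℝ} (hf : Continuous f) (hg : Continuous g) :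
    cint (fun x => f x - g x) = cint f - cint g :=
  intervalIntegral.integral_sub (hf.intervalIntegrable _ _) (hg.intervalIntegrable _ _)

theorem cint_neg (f : ℝ → ℝ) : cint (fun x => - f x) = - cint f := intervalIntegral.integral_neg

theorem cint_mul (c : ℝ) (f : ℝ → ℝ) : cint (fun x => c * f x) = c * cint f :=
  intervalIntegral.integral_const_mul c f

theorem cint_congr {f g : ℝ → ℝ} (h : ∀ x, f x = g x) : cint f = cint g := congrArg cint (funext h)

variable {χ χ' : ℝ → ℝ}

/-- Integration by parts in `y`. -/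
theorem ibp_y (hc : Continuous χ') (hp : Function.Periodic χ 2) (hd : ∀ x, HasDerivAt χ (χ' x) x) {G Gy : ℝ → ℝ}
    (gc : Continuous Gy) (gp : Function.Periodic G 2) (gd : ∀ x, HasDerivAt G (Gy x) x) (x : ℝ) :
    cint (fun y => χ (x - y) * Gy y) = cint fun y => χ' (x - y) * G y := by
  have hχ : Continuous χ := continuous_iff_continuousAt.2 fun z => (hd z).continuousAt
  have hG : Continuous G := continuous_iff_continuousAt.2 fun z => (gd z).continuousAt
  have h1 : ∀ y, HasDerivAt (fun y => χ (x - y) * G y) (-(χ' (x - y) * G y) + χ (x - y) * Gy y) y := by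
    intro y
    have h2 : HasDerivAt (fun y : ℝ => χ (x - y)) (χ' (x - y) * (-1)) y :=
      (hd (x - y)).comp y ((hasDerivAt_id y).const_sub x)
    have h3 := h2.mul (gd y)
    refine h3.congr_deriv ?_
    ring
  have c1 : Continuous fun y => χ' (x - y) * G y := (hc.comp (by fun_prop)).mul hG
  have c2 : Continuous fun y => χ (x - y) * Gy y := (hχ.comp (by fun_prop)).mul gc
  have h4 : cint (fun y => -(χ' (x - y) * G y) + χ (x - y) * Gy y) = χ (x - 1) * G 1 - χ (x - (-1)) * G (-1) :=
    intervalIntegral.integral_eq_sub_of_hasDerivAt (a := -1) (b := 1) (fun y _ => h1 y)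
      ((c1.neg.add c2).intervalIntegrable _ _)
  have h5 : χ (x - 1) * G 1 - χ (x - (-1)) * G (-1) = 0 := by
    have e1 := hp (x - 1)
    have e2 := gp (-1)
    rw [show x - 1 + 2 = x - (-1) by ring] at e1
    rw [show (-1 : ℝ) + 2 = 1 by ring] at e2
    rw [e1, e2, sub_self]
  rw [h5, cint_add (f := fun y => -(χ' (x - y) * G y)) c1.neg c2, cint_neg] at h4
  linarith

/-- Integration by parts in `x`. -/
theorem ibp_x (hc : Continuous χ') (hp : Function.Periodic χ 2) (hd : ∀ x, HasDerivAt χ (χ' x) x) {G Gx : ℝ → ℝ}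
    (gc : Continuous Gx) (gp : Function.Periodic G 2) (gd : ∀ x, HasDerivAt G (Gx x) x) (y : ℝ) :
    cint (fun x => χ (x - y) * Gx x) = - cint fun x => χ' (x - y) * G x := by
  have hχ : Continuous χ := continuous_iff_continuousAt.2 fun z => (hd z).continuousAt
  have hG : Continuous G := continuous_iff_continuousAt.2 fun z => (gd z).continuousAt
  have h1 : ∀ x, HasDerivAt (fun x => χ (x - y) * G x) (χ' (x - y) * G x + χ (x - y) * Gx x) x := by
    intro x
    have h2 : HasDerivAt (fun x : ℝ => χ (x - y)) (χ' (x - y) * 1) x :=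
      (hd (x - y)).comp x ((hasDerivAt_id x).sub_const y)
    have h3 := h2.mul (gd x)
    refine h3.congr_deriv ?_
    ring
  have c1 : Continuous fun x => χ' (x - y) * G x := (hc.comp (by fun_prop)).mul hG
  have c2 : Continuous fun x => χ (x - y) * Gx x := (hχ.comp (by fun_prop)).mul gc
  have h4 : cint (fun x => χ' (x - y) * G x + χ (x - y) * Gx x) = χ (1 - y) * G 1 - χ (-1 - y) * G (-1) :=
    intervalIntegral.integral_eq_sub_of_hasDerivAt (a := -1) (b := 1) (fun x _ => h1 x)
      ((c1.add c2).intervalIntegrable _ _)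
  have h5 : χ (1 - y) * G 1 - χ (-1 - y) * G (-1) = 0 := by
    have e1 := hp (-1 - y)
    have e2 := gp (-1)
    rw [show -1 - y + 2 = 1 - y by ring] at e1
    rw [show (-1 : ℝ) + 2 = 1 by ring] at e2
    rw [e1, e2, sub_self]
  rw [h5, cint_add c1 c2] at h4
  linarith

/-- The double integral. -/
def dd (K : ℝ → ℝ) (f g : ℝ → ℝ) : ℝ := cint fun x => cint fun y => K (x - y) * (f x * g y)

theorem cont_k {K f g : ℝ → ℝ} (hK : Continuous K) (hf : Continuous f) (hg : Continuous g) :
    Continuous (Function.uncurry fun x y : ℝ => K (x - y) * (f x * g y)) := by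
  have h1 : Continuous fun p : ℝ × ℝ => K (p.1 - p.2) := hK.comp (by fun_prop)
  have h2 : Continuous fun p : ℝ × ℝ => f p.1 := hf.comp (by fun_prop)
  have h3 : Continuous fun p : ℝ × ℝ => g p.2 := hg.comp (by fun_prop)
  exact h1.mul (h2.mul h3)

theorem cont_in {K f g : ℝ → ℝ} (hK : Continuous K) (hf : Continuous f) (hg : Continuous g) :
    Continuous fun x : ℝ => cint fun y => K (x - y) * (f x * g y) :=
  intervalIntegral.continuous_parametric_intervalIntegral_of_continuous' (μ := volume) (cont_k hK hf hg) (-1) 1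

theorem dd_left (K f g : ℝ → ℝ) : dd K f g = cint fun x => f x * cint fun y => K (x - y) * g y := by
  refine cint_congr fun x => ?_
  rw [← cint_mul]
  exact cint_congr fun y => by ring

theorem dd_right {K f g : ℝ → ℝ} (hK : Continuous K) (hf : Continuous f) (hg : Continuous g) :
    dd K f g = cint fun y => g y * cint fun x => K (x - y) * f x := by
  have h1 : dd K f g = cint fun y => cint fun x => K (x - y) * (f x * g y) := swap (cont_k hK hf hg) _ _ _ _
  rw [h1]
  refine cint_congr fun y => ?_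
  rw [← cint_mul]
  exact cint_congr fun x => by ring

theorem dd_y (hc : Continuous χ') (hp : Function.Periodic χ 2) (hd : ∀ x, HasDerivAt χ (χ' x) x) {f G Gy : ℝ → ℝ}
    (gc : Continuous Gy) (gp : Function.Periodic G 2) (gd : ∀ x, HasDerivAt G (Gy x) x) :
    dd χ f Gy = dd χ' f G := by
  rw [dd_left, dd_left]
  exact cint_congr fun x => by rw [ibp_y hc hp hd gc gp gd x]

theorem dd_x (hc : Continuous χ') (hp : Function.Periodic χ 2) (hd : ∀ x, HasDerivAt χ (χ' x) x) {g G Gx : ℝ → ℝ}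
    (hg : Continuous g) (gc : Continuous Gx) (gp : Function.Periodic G 2) (gd : ∀ x, HasDerivAt G (Gx x) x) :
    dd χ Gx g = - dd χ' G g := by
  have hχ : Continuous χ := continuous_iff_continuousAt.2 fun z => (hd z).continuousAt
  have hG : Continuous G := continuous_iff_continuousAt.2 fun z => (gd z).continuousAt
  rw [dd_right hχ gc hg, dd_right hc hG hg, ← cint_neg]
  refine cint_congr fun y => ?_
  rw [ibp_x hc hp hd gc gp gd y]
  ring

theorem cont_sec {K f g : ℝ → ℝ} (hK : Continuous K) (hg : Continuous g) (x : ℝ) :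
    Continuous fun y : ℝ => K (x - y) * (f x * g y) :=
  (hK.comp (by fun_prop)).mul (continuous_const.mul hg)

/-- Two products. -/
theorem two {K f g f' g' : ℝ → ℝ} (hK : Continuous K) (hf : Continuous f) (hg : Continuous g) (hf' : Continuous f')
    (hg' : Continuous g') :
    (cint fun x => cint fun y => K (x - y) * (f x * g y + f' x * g' y)) = dd K f g + dd K f' g' := by
  unfold dd
  rw [← cint_add (cont_in hK hf hg) (cont_in hK hf' hg')]
  refine cint_congr fun x => ?_
  rw [← cint_add (cont_sec hK hg x) (cont_sec hK hg' x)]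
  exact cint_congr fun y => by ring

theorem dd_add_left {K f f' g : ℝ → ℝ} (hK : Continuous K) (hf : Continuous f) (hf' : Continuous f') (hg : Continuous g) :
    dd K (fun x => f x + f' x) g = dd K f g + dd K f' g := by
  rw [← two hK hf hg hf' hg]
  exact cint_congr fun x => cint_congr fun y => by ring

theorem dd_add_right {K f g g' : ℝ → ℝ} (hK : Continuous K) (hf : Continuous f) (hg : Continuous g)
    (hg' : Continuous g') : dd K f (fun x => g x + g' x) = dd K f g + dd K f g' := by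
  rw [← two hK hf hg hf hg']
  exact cint_congr fun x => cint_congr fun y => by ring

theorem dd_neg_left (K f g : ℝ → ℝ) : dd K (fun x => - f x) g = - dd K f g := by
  unfold dd
  rw [← cint_neg]
  refine cint_congr fun x => ?_
  rw [← cint_neg]
  exact cint_congr fun y => by ring

theorem dd_neg_right (K f g : ℝ → ℝ) : dd K f (fun x => - g x) = - dd K f g := by
  unfold dd
  rw [← cint_neg]
  refine cint_congr fun x => ?_
  rw [← cint_neg]
  exact cint_congr fun y => by ring

end MDer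

open MDer in
theorem mDer_proof : MDerStatement := by
  intro χ χ' hc hp hd ρ₁ ρt₁ ρx₁ F₁ Fx₁ S₁ ρ₂ ρt₂ ρx₂ F₂ Fx₂ S₂ h₁ h₂ t0 t1 _
  have hχ : Continuous χ := continuous_iff_continuousAt.2 fun z => (hd z).continuousAt
  -- sections
  have sec : ∀ {f : ℝ → ℝ → ℝ}, Continuous (Function.uncurry f) → ∀ t, Continuous (f t) := fun h t =>
    h.comp (Continuous.prodMk_right t)
  -- the integrand at a fixed time
  have key : ∀ t, (cint fun x => cint fun y => χ (x - y) * (ρt₁ t x * ρ₂ t y + ρ₁ t x * ρt₂ t y)) =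
      (cint fun x => cint fun y => χ' (x - y) * (F₁ t x * ρ₂ t y - ρ₁ t x * F₂ t y)) +
        (cint fun x => cint fun y => χ (x - y) * (S₁ t x * ρ₂ t y + ρ₁ t x * S₂ t y)) := by
    intro t
    have e1 : ρt₁ t = fun x => (ρx₁ t x + - Fx₁ t x) + S₁ t x := by
      funext x
      rw [h₁.eq]; ring
    have e2 : ρt₂ t = fun x => (ρx₂ t x + - Fx₂ t x) + S₂ t x := by
      funext x
      rw [h₂.eq]; ring
    have a1 := sec h₁.c1 t
    have a3 := sec h₁.c3 t
    have a4 := sec h₁.c4 t
    have a5 := sec h₁.c5 t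
    have a6 := sec h₁.c6 t
    have b1 := sec h₂.c1 t
    have b3 := sec h₂.c3 t
    have b4 := sec h₂.c4 t
    have b5 := sec h₂.c5 t
    have b6 := sec h₂.c6 t
    have a7 : Continuous fun x => ρx₁ t x + - Fx₁ t x := a3.add a5.neg
    have b7 : Continuous fun x => ρx₂ t x + - Fx₂ t x := b3.add b5.neg
    rw [two hχ (sec h₁.c2 t) b1 a1 (sec h₂.c2 t), two hχ a6 b1 a1 b6]
    have a8 : Continuous fun x => - Fx₁ t x := a5.neg
    have b8 : Continuous fun x => - Fx₂ t x := b5.neg
    have b9 : Continuous fun x => - F₂ t x := b4.neg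
    have e3 : (cint fun x => cint fun y => χ' (x - y) * (F₁ t x * ρ₂ t y - ρ₁ t x * F₂ t y)) =
        dd χ' (F₁ t) (ρ₂ t) + dd χ' (ρ₁ t) (fun y => - F₂ t y) := by
      rw [← two hc a4 b1 a1 b9]
      exact cint_congr fun x => cint_congr fun y => by ring
    rw [e3, dd_neg_right, e1, e2, dd_add_left hχ a7 a6 b1, dd_add_left hχ a3 a8 b1, dd_neg_left,
      dd_add_right hχ a1 b7 b6, dd_add_right hχ a1 b3 b8, dd_neg_right,
      dd_x hc hp hd b1 a3 (h₁.p1 t) (h₁.dx t), dd_x hc hp hd b1 a5 (h₁.p2 t) (h₁.dF t),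
      dd_y hc hp hd b3 (h₂.p1 t) (h₂.dx t), dd_y hc hp hd b5 (h₂.p2 t) (h₂.dF t)]
    ring
  -- the time derivative
  have ft : ∀ x y, ∫ t in t0..t1, χ (x - y) * (ρt₁ t x * ρ₂ t y + ρ₁ t x * ρt₂ t y) =
      χ (x - y) * (ρ₁ t1 x * ρ₂ t1 y) - χ (x - y) * (ρ₁ t0 x * ρ₂ t0 y) := by
    intro x y
    refine intervalIntegral.integral_eq_sub_of_hasDerivAt (f := fun t => χ (x - y) * (ρ₁ t x * ρ₂ t y))
      (fun t _ => ?_) ?_
    · exact ((h₁.dt t x).mul (h₂.dt t y)).const_mul (χ (x - y))
    · have sx : ∀ {f : ℝ → ℝ → ℝ}, Continuous (Function.uncurry f) → ∀ x, Continuous fun t => f t x := fun h x =>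
        h.comp (Continuous.prodMk_left x)
      exact (continuous_const.mul (((sx h₁.c2 x).mul (sx h₂.c1 y)).add ((sx h₁.c1 x).mul (sx h₂.c2 y)))).intervalIntegrable
        _ _
  -- continuity in all variables
  have cx : ∀ {f : ℝ → ℝ → ℝ}, Continuous (Function.uncurry f) → ∀ {X : Type} [TopologicalSpace X] {a b : X → ℝ},
      Continuous a → Continuous b → Continuous fun p => f (a p) (b p) := fun h _ _ _ _ ha hb =>
    h.comp (ha.prodMk hb)
  have c3 : Continuous fun p : (ℝ × ℝ) × ℝ => χ (p.1.2 - p.2) * (ρt₁ p.1.1 p.1.2 * ρ₂ p.1.1 p.2 +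
      ρ₁ p.1.1 p.1.2 * ρt₂ p.1.1 p.2) := by
    refine (hχ.comp (by fun_prop)).mul (((cx h₁.c2 ?_ ?_).mul (cx h₂.c1 ?_ ?_)).add
      ((cx h₁.c1 ?_ ?_).mul (cx h₂.c2 ?_ ?_))) <;> fun_prop
  have c2 : Continuous (Function.uncurry fun t x : ℝ => cint fun y => χ (x - y) * (ρt₁ t x * ρ₂ t y + ρ₁ t x * ρt₂ t y)) := by
    exact intervalIntegral.continuous_parametric_intervalIntegral_of_continuous' (μ := volume)
      (f := fun (p : ℝ × ℝ) (y : ℝ) => χ (p.2 - y) * (ρt₁ p.1 p.2 * ρ₂ p.1 y + ρ₁ p.1 p.2 * ρt₂ p.1 y)) c3 (-1) 1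
  have hint : ∫ t in t0..t1, (cint fun x => cint fun y => χ (x - y) * (ρt₁ t x * ρ₂ t y + ρ₁ t x * ρt₂ t y)) =
      cint fun x => cint fun y => ∫ t in t0..t1, χ (x - y) * (ρt₁ t x * ρ₂ t y + ρ₁ t x * ρt₂ t y) := by
    refine (swap c2 _ _ _ _).trans ?_
    refine cint_congr fun x => ?_
    refine swap (F := fun t y => χ (x - y) * (ρt₁ t x * ρ₂ t y + ρ₁ t x * ρt₂ t y)) ?_ _ _ _ _
    exact c3.comp (f := fun p : ℝ × ℝ => ((p.1, x), p.2)) (by fun_prop)
  have hsub : (cint fun x => cint fun y => χ (x - y) * (ρ₁ t1 x * ρ₂ t1 y) - χ (x - y) * (ρ₁ t0 x * ρ₂ t0 y)) =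
      dd χ (ρ₁ t1) (ρ₂ t1) - dd χ (ρ₁ t0) (ρ₂ t0) := by
    unfold dd
    rw [← cint_sub (cont_in hχ (sec h₁.c1 t1) (sec h₂.c1 t1)) (cont_in hχ (sec h₁.c1 t0) (sec h₂.c1 t0))]
    refine cint_congr fun x => ?_
    exact cint_sub (cont_sec hχ (sec h₂.c1 t1) x) (cont_sec hχ (sec h₂.c1 t0) x)
  simp only [ft] at hint
  rw [hsub] at hint
  show dd χ (ρ₁ t1) (ρ₂ t1) - dd χ (ρ₁ t0) (ρ₂ t0) = _
  rw [← hint]
  congr 1
  funext t
  exact key t

end

end Pool.Agent.C1E
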