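import Pool.Agent.Lib.MP_c1e222_an.Iface

/-!
# MP_c1e222_an, row Main (section 5 of finding 4353): the main lemma
-/

namespace Pool.Agent.C1E

open MeasureTheory Set Filter Topology

namespace Mn

noncomputable section

/-! ### integrals over one period -/

theorem cint_cont {X : Type*} [TopologicalSpace X] {f : X → ℝ → ℝ}
    (hf : Continuous (Function.uncurry f)) : Continuous fun t => cint (f t) :=
  intervalIntegral.continuous_parametric_intervalIntegral_of_continuous' hf _ _

theorem conv_cont {X : Type*} [TopologicalSpace X] {P : ℝ → ℝ} {f : X → ℝ → ℝ}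
    (hP : Continuous P) (hf : Continuous (Function.uncurry f)) :
    Continuous (Function.uncurry fun t x => conv P (f t) x) := by
  have h : Continuous (Function.uncurry fun (p : X × ℝ) (y : ℝ) => P (p.2 - y) * f p.1 y) := by
    refine Continuous.mul (hP.comp (by fun_prop)) ?_
    exact hf.comp (by fun_prop : Continuous fun q : (X × ℝ) × ℝ => (q.1.1, q.2))
  exact intervalIntegral.continuous_parametric_intervalIntegral_of_continuous' h _ _

theorem cint_mono {f g : ℝ → ℝ} (hf : Continuous f) (hg : Continuous g) (h : ∀ x, f x ≤ g x) :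
    cint f ≤ cint g :=
  intervalIntegral.integral_mono_on (by norm_num) (hf.intervalIntegrable _ _)
    (hg.intervalIntegrable _ _) fun x _ => h x

theorem cint_nonneg {f : ℝ → ℝ} (h : ∀ x, 0 ≤ f x) : 0 ≤ cint f :=
  intervalIntegral.integral_nonneg (by norm_num) fun x _ => h x

theorem cint_add {f g : ℝ → ℝ} (hf : Continuous f) (hg : Continuous g) :
    cint (fun x => f x + g x) = cint f + cint g :=
  intervalIntegral.integral_add (hf.intervalIntegrable _ _) (hg.intervalIntegrable _ _)

theorem cint_sub {f g : ℝ → ℝ} (hf : Continuous f) (hg : Continuous g) :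
    cint (fun x => f x - g x) = cint f - cint g :=
  intervalIntegral.integral_sub (hf.intervalIntegrable _ _) (hg.intervalIntegrable _ _)

theorem cint_mul (c : ℝ) (f : ℝ → ℝ) : cint (fun x => c * f x) = c * cint f :=
  intervalIntegral.integral_const_mul c f

theorem cint_mul' (c : ℝ) (f : ℝ → ℝ) : cint (fun x => f x * c) = cint f * c :=
  intervalIntegral.integral_mul_const c f

theorem abs_cint_le {f : ℝ → ℝ} : |cint f| ≤ cint fun x => |f x| :=
  intervalIntegral.abs_integral_le_integral_abs (by norm_num)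

/-- shift and reflection invariance -/
theorem cint_shift {f : ℝ → ℝ} (hp : Function.Periodic f 2) (a : ℝ) :
    cint (fun y => f (a - y)) = cint f := by
  have h1 : ∀ s : ℝ, (∫ x in s..(s + 2), f x) = ∫ x in (-1 : ℝ)..1, f x := by
    intro s
    have := hp.intervalIntegral_add_eq s (-1)
    rw [this]
    norm_num
  show (∫ y in (-1 : ℝ)..1, f (a - y)) = ∫ x in (-1 : ℝ)..1, f x
  rw [intervalIntegral.integral_comp_sub_left (fun x => f x) a, ← h1 (a - 1)]
  congr 1
  ring

/-! ### double integrals -/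

/-- double integral over the square of one period -/
def dd (H : ℝ → ℝ → ℝ) : ℝ := cint fun x => cint fun y => H x y

theorem dd_cont {X : Type*} [TopologicalSpace X] {H : X → ℝ → ℝ → ℝ}
    (hH : Continuous fun q : X × ℝ × ℝ => H q.1 q.2.1 q.2.2) : Continuous fun t => dd (H t) := by
  apply cint_cont (f := fun t x => cint fun y => H t x y)
  have h : Continuous (Function.uncurry fun (p : X × ℝ) (y : ℝ) => H p.1 p.2 y) :=
    hH.comp (by fun_prop : Continuous fun q : (X × ℝ) × ℝ => (q.1.1, q.1.2, q.2))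
  exact cint_cont h

theorem in_cont {H : ℝ → ℝ → ℝ} (h : Continuous (Function.uncurry H)) :
    Continuous fun x => cint fun y => H x y := cint_cont h

theorem dd_add {H G : ℝ → ℝ → ℝ} (h : Continuous (Function.uncurry H))
    (g : Continuous (Function.uncurry G)) : dd (fun x y => H x y + G x y) = dd H + dd G := by
  unfold dd
  rw [← cint_add (in_cont h) (in_cont g)]
  congr 1
  funext x
  exact cint_add (h.comp (Continuous.prodMk_right x)) (g.comp (Continuous.prodMk_right x))

theorem dd_sub {H G : ℝ → ℝ → ℝ} (h : Continuous (Function.uncurry H))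
    (g : Continuous (Function.uncurry G)) : dd (fun x y => H x y - G x y) = dd H - dd G := by
  unfold dd
  rw [← cint_sub (in_cont h) (in_cont g)]
  congr 1
  funext x
  exact cint_sub (h.comp (Continuous.prodMk_right x)) (g.comp (Continuous.prodMk_right x))

theorem dd_mul (c : ℝ) (H : ℝ → ℝ → ℝ) : dd (fun x y => c * H x y) = c * dd H := by
  unfold dd
  rw [← cint_mul]
  congr 1
  funext x
  exact cint_mul c _

theorem dd_mono {H G : ℝ → ℝ → ℝ} (h : Continuous (Function.uncurry H))
    (g : Continuous (Function.uncurry G)) (hle : ∀ x y, H x y ≤ G x y) : dd H ≤ dd G := by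
  unfold dd
  refine cint_mono (in_cont h) (in_cont g) fun x => ?_
  exact cint_mono (h.comp (Continuous.prodMk_right x)) (g.comp (Continuous.prodMk_right x))
    fun y => hle x y

theorem dd_prod (f g : ℝ → ℝ) : dd (fun x y => f x * g y) = cint f * cint g := by
  unfold dd
  rw [← cint_mul']
  congr 1
  funext x
  exact cint_mul (f x) g

theorem dd_abs_le {H : ℝ → ℝ → ℝ} (h : Continuous (Function.uncurry H)) :
    |dd H| ≤ dd fun x y => |H x y| := by
  unfold dd
  refine abs_cint_le.trans ?_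
  refine cint_mono (in_cont h).abs (in_cont (H := fun x y => |H x y|) h.abs) fun x => ?_
  exact abs_cint_le

/-- bound of a bilinear interaction with a bounded kernel -/
theorem dd_bound {χ f g : ℝ → ℝ} {B : ℝ} (hχ : Continuous χ) (hf : Continuous f)
    (hg : Continuous g) (hB : ∀ x, |χ x| ≤ B) :
    |dd fun x y => χ (x - y) * (f x * g y)| ≤ B * (cint (fun x => |f x|) * cint (fun x => |g x|)) := by
  have hc : Continuous (Function.uncurry fun x y => χ (x - y) * (f x * g y)) := by
    refine Continuous.mul (hχ.comp (by fun_prop)) (Continuous.mul (hf.comp (by fun_prop))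
      (hg.comp (by fun_prop)))
  refine (dd_abs_le hc).trans ?_
  rw [← dd_prod (fun x => |f x|) (fun x => |g x|), ← dd_mul]
  refine dd_mono hc.abs ?_ fun x y => ?_
  · refine continuous_const.mul (Continuous.mul (hf.abs.comp (by fun_prop))
      (hg.abs.comp (by fun_prop)))
  · rw [abs_mul, abs_mul]
    exact mul_le_mul_of_nonneg_right (hB _) (by positivity)

/-! ### the frequencies -/

theorem kap_pos (i : ℕ) : 0 < kap i := by unfold kap; positivity

theorem one_le_kap (i : ℕ) : 1 ≤ kap i := by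
  unfold kap
  have : (1 : ℝ) ≤ (65 / 64 : ℝ) ^ i := one_le_pow₀ (by norm_num)
  nlinarith

theorem Sep.le {l j : ℕ} (h : Sep l j) : kap l ≤ kap j := by
  unfold Sep at h
  have := kap_pos l
  linarith

theorem cA (hV : ∀ i, Continuous (V i)) (i : ℕ) : Continuous (A i) := by
  unfold A
  exact (hV _).sub (hV _)

theorem cPA (hV : ∀ i, Continuous (V i)) (i : ℕ) : Continuous (PA i) := by
  unfold PA
  exact intervalIntegral.continuous_primitive (fun a b => (cA hV i).intervalIntegrable a b) 0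

/-- the integral of `θ_i` over one period is at most 2 -/
theorem th_cont (i : ℕ) : Continuous (th i) := by
  unfold th dl
  have h0 := kap_pos i
  refine Continuous.div continuous_const (by fun_prop) fun x => ?_
  positivity

theorem abs_le_dl {x : ℝ} (hx : |x| ≤ 1) : |x| ≤ dl x := by
  unfold dl
  have hpi := Real.pi_pos
  have key : ∀ z : ℝ, 0 ≤ z → z ≤ 1 → z ≤ Real.sin (Real.pi * z / 2) := by
    intro z h0 h1
    have h := Real.mul_le_sin (x := Real.pi * z / 2) (by positivity) (by nlinarith)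
    have e : 2 / Real.pi * (Real.pi * z / 2) = z := by field_simp
    rwa [e] at h
  rcases le_total 0 x with h | h
  · rw [abs_of_nonneg h] at hx ⊢
    exact (key x h hx).trans (le_abs_self _)
  · rw [abs_of_nonpos h] at hx ⊢
    have h1 := key (-x) (by linarith) hx
    have e : Real.pi * -x / 2 = -(Real.pi * x / 2) := by ring
    rw [e, Real.sin_neg] at h1
    exact h1.trans (neg_le_abs _)

theorem th_half (i : ℕ) : (∫ x in (0 : ℝ)..1, kap i / (1 + kap i * x) ^ 2) ≤ 1 := by
  have h0 := kap_pos i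
  have hd : ∀ x ∈ uIcc (0 : ℝ) 1, HasDerivAt (fun x => -(1 + kap i * x)⁻¹)
      (kap i / (1 + kap i * x) ^ 2) x := by
    intro x hx
    rw [uIcc_of_le (by norm_num)] at hx
    have hp : 1 + kap i * x ≠ 0 := by
      have := hx.1
      positivity
    have h1 : HasDerivAt (fun x => 1 + kap i * x) (kap i) x := by
      simpa using ((hasDerivAt_id x).const_mul (kap i)).const_add 1
    have h2 := (h1.inv hp).neg
    have e : kap i / (1 + kap i * x) ^ 2 = -(-kap i / (1 + kap i * x) ^ 2) := by ring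
    rw [e]
    exact h2
  rw [intervalIntegral.integral_eq_sub_of_hasDerivAt hd]
  · have h2 : 0 < (1 + kap i * 1)⁻¹ := by positivity
    simp only [mul_zero, add_zero, inv_one]
    linarith
  · refine ContinuousOn.intervalIntegrable ?_
    rw [uIcc_of_le (by norm_num)]
    refine ContinuousOn.div continuousOn_const (by fun_prop) fun x hx => ?_
    have := hx.1
    positivity

theorem cint_th (i : ℕ) : cint (th i) ≤ 2 := by
  have h0 := kap_pos i
  have hI : ∀ a b, IntervalIntegrable (th i) volume a b := fun a b =>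
    (th_cont i).intervalIntegrable a b
  have e : cint (th i) = (∫ x in (-1 : ℝ)..0, th i x) + ∫ x in (0 : ℝ)..1, th i x :=
    (intervalIntegral.integral_add_adjacent_intervals (hI _ _) (hI _ _)).symm
  have hc : ContinuousOn (fun x : ℝ => kap i / (1 + kap i * x) ^ 2) (Icc 0 1) := by
    refine ContinuousOn.div continuousOn_const (by fun_prop) fun x hx => ?_
    have := hx.1
    positivity
  have hle : ∀ x ∈ Icc (0 : ℝ) 1, ∀ y, |y| = x → th i y ≤ kap i / (1 + kap i * x) ^ 2 := by
    intro x hx y hy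
    unfold th
    have h1 := hx.1
    have h2 : x ≤ dl y := hy ▸ abs_le_dl (hy ▸ hx.2)
    have h3 : 1 + kap i * x ≤ 1 + kap i * dl y := by nlinarith
    have h4 : 0 < 1 + kap i * x := by positivity
    gcongr
  have h2 : (∫ x in (0 : ℝ)..1, th i x) ≤ 1 := by
    refine le_trans ?_ (th_half i)
    refine intervalIntegral.integral_mono_on (by norm_num) (hI _ _) ?_ fun x hx => ?_
    · refine ContinuousOn.intervalIntegrable ?_
      rwa [uIcc_of_le (by norm_num)]
    · exact hle x hx x (abs_of_nonneg hx.1)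
  have h1 : (∫ x in (-1 : ℝ)..0, th i x) ≤ 1 := by
    refine le_trans ?_ (th_half i)
    have e2 : (∫ x in (-1 : ℝ)..0, th i x) = ∫ x in (0 : ℝ)..1, th i (-x) := by
      rw [intervalIntegral.integral_comp_neg (fun x => th i x)]
      norm_num
    rw [e2]
    refine intervalIntegral.integral_mono_on (by norm_num)
      (((th_cont i).comp continuous_neg).intervalIntegrable _ _) ?_ fun x hx => ?_
    · refine ContinuousOn.intervalIntegrable ?_
      rwa [uIcc_of_le (by norm_num)]
    · exact hle x hx (-x) (by rw [abs_neg]; exact abs_of_nonneg hx.1)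
  rw [e]
  linarith

/-! ### the primitive of a periodic kernel minus its mean -/

/-- the kernel minus its mean -/
def chd (K : ℝ → ℝ) (x : ℝ) : ℝ := K x - cint K / 2

/-- its primitive -/
def ch (K : ℝ → ℝ) (x : ℝ) : ℝ := ∫ z in (0 : ℝ)..x, chd K z

theorem chd_cont {K : ℝ → ℝ} (hK : Continuous K) : Continuous (chd K) := hK.sub continuous_const

theorem ch_deriv {K : ℝ → ℝ} (hK : Continuous K) (x : ℝ) : HasDerivAt (ch K) (chd K x) x :=
  (chd_cont hK).integral_hasStrictDerivAt 0 x |>.hasDerivAt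

theorem ch_cont {K : ℝ → ℝ} (hK : Continuous K) : Continuous (ch K) :=
  continuous_iff_continuousAt.2 fun x => (ch_deriv hK x).continuousAt

theorem ch_periodic {K : ℝ → ℝ} (hK : Continuous K) (hp : Function.Periodic K 2) :
    Function.Periodic (ch K) 2 := by
  intro x
  have hI : ∀ a b, IntervalIntegrable (chd K) volume a b := fun a b =>
    (chd_cont hK).intervalIntegrable a b
  have hp' : Function.Periodic (chd K) 2 := fun y => by simp [chd, hp y]
  have h1 : ch K (x + 2) = ch K x + ∫ z in x..(x + 2), chd K z :=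
    (intervalIntegral.integral_add_adjacent_intervals (hI 0 x) (hI x (x + 2))).symm
  have h2 : (∫ z in x..(x + 2), chd K z) = 0 := by
    rw [hp'.intervalIntegral_add_eq x (-1)]
    have h3 : (∫ z in (-1 : ℝ)..(-1 + 2), chd K z) = cint (fun z => K z - cint K / 2) := by
      show _ = ∫ z in (-1 : ℝ)..1, chd K z
      norm_num
    rw [h3, cint_sub hK continuous_const]
    have h4 : cint (fun _ => cint K / 2) = cint K := by
      show (∫ _ in (-1 : ℝ)..1, cint K / 2) = cint K
      rw [intervalIntegral.integral_const]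
      norm_num
      ring
    rw [h4, sub_self]
  rw [h1, h2, add_zero]

theorem ch_bound {K : ℝ → ℝ} (hK : Continuous K) (hp : Function.Periodic K 2)
    (h0 : ∀ x, 0 ≤ K x) (x : ℝ) : |ch K x| ≤ 2 * cint K := by
  have hm : 0 ≤ cint K := cint_nonneg h0
  obtain ⟨y, hy, e⟩ := (ch_periodic hK hp).exists_mem_Ico (by norm_num : (0 : ℝ) < 2) x (-1)
  have hy1 : -1 ≤ y := hy.1
  have hy2 : y < 1 := by have := hy.2; linarith
  rw [e]
  have h1 : ch K y = (∫ z in (0 : ℝ)..y, K z) - y * (cint K / 2) := by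
    unfold ch chd
    rw [intervalIntegral.integral_sub (hK.intervalIntegrable _ _)
      (continuous_const.intervalIntegrable _ _), intervalIntegral.integral_const]
    simp
  have h2 : |∫ z in (0 : ℝ)..y, K z| ≤ cint K := by
    have h3 : uIoc (0 : ℝ) y ⊆ uIoc (-1 : ℝ) 1 := by
      rw [uIoc_of_le (by norm_num : (-1 : ℝ) ≤ 1)]
      intro z hz
      rw [mem_uIoc] at hz
      constructor
      · rcases hz with h | h
        · linarith [h.1]
        · linarith [h.1]
      · rcases hz with h | h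
        · linarith [h.2]
        · linarith [h.2]
    have h4 := intervalIntegral.abs_integral_mono_interval (μ := volume) (f := K) h3
      (Filter.Eventually.of_forall h0) (hK.intervalIntegrable _ _)
    refine h4.trans (le_of_eq (abs_of_nonneg hm))
  have h5 : |y * (cint K / 2)| ≤ cint K := by
    rw [abs_mul, abs_of_nonneg (by linarith : 0 ≤ cint K / 2)]
    have : |y| ≤ 1 := abs_le.2 ⟨hy1, hy2.le⟩
    nlinarith [abs_nonneg y]
  rw [h1]
  calc _ ≤ |∫ z in (0 : ℝ)..y, K z| + |y * (cint K / 2)| := abs_sub _ _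
    _ ≤ _ := by linarith

/-! ### crossing with a kernel -/

/-- integral over time and the square: the crossing form -/
theorem cross_kernel {K : ℝ → ℝ} {f g : ℝ → ℝ → ℝ} {t0 t1 B : ℝ}
    (hK : Continuous K) (hK0 : ∀ x, 0 ≤ K x) (hKp : Function.Periodic K 2)
    (hf : Continuous (Function.uncurry f)) (hg : Continuous (Function.uncurry g))
    (hgp : ∀ t, Function.Periodic (g t) 2)
    (hB : ∀ h : ℝ, (∫ t in t0..t1, cint fun x => f t x * g t (h - x)) ≤ B) :
    (∫ t in t0..t1, dd fun x y => K (x - y) * (f t x * g t (-y))) ≤ B * cint K := by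
  -- substitute `y = x - z`
  have e1 : ∀ t, (dd fun x y => K (x - y) * (f t x * g t (-y))) =
      dd fun x z => K z * (f t x * g t (z - x)) := by
    intro t
    unfold dd
    congr 1
    funext x
    have hp : Function.Periodic (fun z => K z * (f t x * g t (z - x))) 2 := by
      intro z
      have e : z + 2 - x = (z - x) + 2 := by ring
      simp only [hKp z, e, hgp t (z - x)]
    rw [← cint_shift hp x]
    congr 1
    funext y
    have e : x - y - x = -y := by ring
    simp only [e]
  have hc : Continuous fun q : ℝ × ℝ × ℝ => K q.2.2 * (f q.1 q.2.1 * g q.1 (q.2.2 - q.2.1)) := by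
    refine Continuous.mul (hK.comp (by fun_prop)) (Continuous.mul ?_ ?_)
    · exact hf.comp (by fun_prop : Continuous fun q : ℝ × ℝ × ℝ => (q.1, q.2.1))
    · exact hg.comp (by fun_prop : Continuous fun q : ℝ × ℝ × ℝ => (q.1, q.2.2 - q.2.1))
  have e2 : ∀ t, (dd fun x z => K z * (f t x * g t (z - x))) =
      cint fun z => K z * cint fun x => f t x * g t (z - x) := by
    intro t
    unfold dd cint
    rw [intervalIntegral_intervalIntegral_swap]
    · congr 1
      funext z
      rw [intervalIntegral.integral_const_mul]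
    · have : Continuous (Function.uncurry fun x z => K z * (f t x * g t (z - x))) :=
        hc.comp (by fun_prop : Continuous fun q : ℝ × ℝ => (t, q.1, q.2))
      exact (this.continuousOn.integrableOn_compact
        ((isCompact_uIcc (a := (-1 : ℝ)) (b := 1)).prod (isCompact_uIcc (a := (-1 : ℝ)) (b := 1)))).mono_set
          (Set.prod_mono uIoc_subset_uIcc uIoc_subset_uIcc)
  have hc2 : Continuous (Function.uncurry fun t z => K z * cint fun x => f t x * g t (z - x)) := by
    refine Continuous.mul (hK.comp (by fun_prop)) ?_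
    have : Continuous (Function.uncurry fun (p : ℝ × ℝ) (x : ℝ) => f p.1 x * g p.1 (p.2 - x)) := by
      refine Continuous.mul ?_ ?_
      · exact hf.comp (by fun_prop : Continuous fun q : (ℝ × ℝ) × ℝ => (q.1.1, q.2))
      · exact hg.comp (by fun_prop : Continuous fun q : (ℝ × ℝ) × ℝ => (q.1.1, q.1.2 - q.2))
    exact cint_cont this
  have e3 : (∫ t in t0..t1, dd fun x y => K (x - y) * (f t x * g t (-y))) =
      cint fun z => K z * ∫ t in t0..t1, cint fun x => f t x * g t (z - x) := by
    calc _ = ∫ t in t0..t1, ∫ z in (-1 : ℝ)..1, K z * cint fun x => f t x * g t (z - x) := by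
          congr 1
          funext t
          rw [e1, e2]
          rfl
      _ = ∫ z in (-1 : ℝ)..1, ∫ t in t0..t1, K z * cint fun x => f t x * g t (z - x) := by
          rw [intervalIntegral_intervalIntegral_swap]
          exact (hc2.continuousOn.integrableOn_compact
            ((isCompact_uIcc (a := t0) (b := t1)).prod (isCompact_uIcc (a := (-1 : ℝ)) (b := 1)))).mono_set
              (Set.prod_mono uIoc_subset_uIcc uIoc_subset_uIcc)
      _ = _ := by
          unfold cint
          congr 1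
          funext z
          rw [intervalIntegral.integral_const_mul]
  rw [e3, ← cint_mul]
  refine cint_mono ?_ (continuous_const.mul hK) fun z => ?_
  · refine hK.mul ?_
    have : Continuous (Function.uncurry fun (z : ℝ) (t : ℝ) => cint fun x => f t x * g t (z - x)) := by
      have : Continuous (Function.uncurry fun (p : ℝ × ℝ) (x : ℝ) => f p.2 x * g p.2 (p.1 - x)) := by
        refine Continuous.mul ?_ ?_
        · exact hf.comp (by fun_prop : Continuous fun q : (ℝ × ℝ) × ℝ => (q.1.2, q.2))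
        · exact hg.comp (by fun_prop : Continuous fun q : (ℝ × ℝ) × ℝ => (q.1.2, q.1.1 - q.2))
      exact cint_cont this
    exact intervalIntegral.continuous_parametric_intervalIntegral_of_continuous' this _ _
  · rw [mul_comm]
    exact mul_le_mul_of_nonneg_right (hB z) (hK0 z)

theorem dd_swap {H : ℝ → ℝ → ℝ} (h : Continuous (Function.uncurry H)) :
    dd H = dd fun x y => H y x := by
  unfold dd cint
  rw [intervalIntegral_intervalIntegral_swap]
  exact (h.continuousOn.integrableOn_compact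
    ((isCompact_uIcc (a := (-1 : ℝ)) (b := 1)).prod (isCompact_uIcc (a := (-1 : ℝ)) (b := 1)))).mono_set
      (Set.prod_mono uIoc_subset_uIcc uIoc_subset_uIcc)

theorem kc {K f g : ℝ → ℝ} (hK : Continuous K) (hf : Continuous f) (hg : Continuous g) :
    Continuous (Function.uncurry fun x y => K (x - y) * (f x * g y)) :=
  Continuous.mul (hK.comp (by fun_prop)) (Continuous.mul (hf.comp (by fun_prop))
    (hg.comp (by fun_prop)))

theorem tint_mono {f g : ℝ → ℝ} {t0 t1 : ℝ} (h01 : t0 ≤ t1) (hf : Continuous f)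
    (hg : Continuous g) (h : ∀ t, f t ≤ g t) :
    (∫ t in t0..t1, f t) ≤ ∫ t in t0..t1, g t :=
  intervalIntegral.integral_mono_on h01 (hf.intervalIntegrable _ _)
    (hg.intervalIntegrable _ _) fun t _ => h t

theorem tint_add {f g : ℝ → ℝ} {t0 t1 : ℝ} (hf : Continuous f) (hg : Continuous g) :
    (∫ t in t0..t1, (f t + g t)) = (∫ t in t0..t1, f t) + ∫ t in t0..t1, g t :=
  intervalIntegral.integral_add (hf.intervalIntegrable _ _) (hg.intervalIntegrable _ _)

theorem tint_lin {f : ℝ → ℝ} {t0 t1 a c : ℝ} (hf : Continuous f) :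
    (∫ t in t0..t1, (a * f t + c)) = a * (∫ t in t0..t1, f t) + c * (t1 - t0) := by
  rw [tint_add (f := fun t => a * f t) (g := fun _ => c) (continuous_const.mul hf)
    continuous_const, intervalIntegral.integral_const_mul, intervalIntegral.integral_const,
    smul_eq_mul]
  ring

theorem tint_lin3 {f g : ℝ → ℝ} {t0 t1 a b c : ℝ} (hf : Continuous f) (hg : Continuous g) :
    (∫ t in t0..t1, (a + b * f t + c * g t)) =
      a * (t1 - t0) + b * (∫ t in t0..t1, f t) + c * ∫ t in t0..t1, g t := by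
  rw [tint_add (f := fun t => a + b * f t) (g := fun t => c * g t)
    (continuous_const.add (continuous_const.mul hf)) (continuous_const.mul hg),
    tint_add (f := fun _ => a) (g := fun t => b * f t) continuous_const
    (continuous_const.mul hf), intervalIntegral.integral_const_mul,
    intervalIntegral.integral_const_mul, intervalIntegral.integral_const, smul_eq_mul]
  ring

/-- both crossing terms -/
theorem cross2 {K : ℝ → ℝ} {p q p' q' : ℝ → ℝ → ℝ} {t0 t1 B : ℝ}
    (hK : Continuous K) (hK0 : ∀ x, 0 ≤ K x) (hKp : Function.Periodic K 2)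
    (hKe : ∀ x, K (-x) = K x)
    (hp : Continuous (Function.uncurry p)) (hq : Continuous (Function.uncurry q))
    (hp' : Continuous (Function.uncurry p')) (hq' : Continuous (Function.uncurry q'))
    (pp : ∀ t, Function.Periodic (p t) 2) (pq' : ∀ t, Function.Periodic (q' t) 2)
    (hB : ∀ h : ℝ, (∫ t in t0..t1, cint fun x => q t x * p t (h - x)) ≤ B)
    (hB' : ∀ h : ℝ, (∫ t in t0..t1, cint fun x => p' t x * q' t (h - x)) ≤ B) :
    (∫ t in t0..t1, dd fun x y => K (x - y) * (p t (-x) * q t y + p' t x * q' t (-y))) ≤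
      2 * (B * cint K) := by
  have k1 := cross_kernel hK hK0 hKp hq hp pp hB
  have k2 := cross_kernel hK hK0 hKp hp' hq' pq' hB'
  have sec : ∀ {f : ℝ → ℝ → ℝ}, Continuous (Function.uncurry f) → ∀ t, Continuous (f t) :=
    fun hf t => hf.comp (Continuous.prodMk_right t)
  have jx : ∀ {f : ℝ → ℝ → ℝ}, Continuous (Function.uncurry f) →
      Continuous fun q : ℝ × ℝ × ℝ => f q.1 q.2.1 := fun hf =>
    hf.comp (by fun_prop : Continuous fun q : ℝ × ℝ × ℝ => (q.1, q.2.1))
  have jny : ∀ {f : ℝ → ℝ → ℝ}, Continuous (Function.uncurry f) →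
      Continuous fun q : ℝ × ℝ × ℝ => f q.1 (-q.2.2) := fun hf =>
    hf.comp (by fun_prop : Continuous fun q : ℝ × ℝ × ℝ => (q.1, -q.2.2))
  have jk : Continuous fun q : ℝ × ℝ × ℝ => K (q.2.1 - q.2.2) := hK.comp (by fun_prop)
  have c1 : Continuous fun t => dd fun x y => K (x - y) * (q t x * p t (-y)) :=
    dd_cont (jk.mul ((jx hq).mul (jny hp)))
  have c2 : Continuous fun t => dd fun x y => K (x - y) * (p' t x * q' t (-y)) :=
    dd_cont (jk.mul ((jx hp').mul (jny hq')))
  have hsplit : ∀ t, (dd fun x y => K (x - y) * (p t (-x) * q t y + p' t x * q' t (-y))) =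
      (dd fun x y => K (x - y) * (q t x * p t (-y))) +
        dd fun x y => K (x - y) * (p' t x * q' t (-y)) := by
    intro t
    have s1 : Continuous (q t) := sec hq t
    have s2 : Continuous fun x => p t (-x) := (sec hp t).comp continuous_neg
    have s3 : Continuous (p' t) := sec hp' t
    have s4 : Continuous fun x => q' t (-x) := (sec hq' t).comp continuous_neg
    rw [dd_swap (kc hK s1 s2), ← dd_add]
    · congr 1
      funext x y
      have e : K (y - x) = K (x - y) := by
        rw [← hKe]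
        congr 1
        ring
      rw [e]
      ring
    · have := kc hK s1 s2
      exact this.comp (by fun_prop : Continuous fun q : ℝ × ℝ => (q.2, q.1))
    · exact kc hK s3 s4
  have e3 : (∫ t in t0..t1, dd fun x y => K (x - y) * (p t (-x) * q t y + p' t x * q' t (-y))) =
      (∫ t in t0..t1, dd fun x y => K (x - y) * (q t x * p t (-y))) +
        ∫ t in t0..t1, dd fun x y => K (x - y) * (p' t x * q' t (-y)) := by
    rw [← tint_add c1 c2]
    congr 1
    funext t
    exact hsplit t
  rw [e3]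
  linarith

/-- the flux part at fixed time -/
theorem flux_id {K F₁ a₁ F₂ a₂ : ℝ → ℝ} (hK : Continuous K) (hF₁ : Continuous F₁)
    (ha₁ : Continuous a₁) (hF₂ : Continuous F₂) (ha₂ : Continuous a₂) :
    (dd fun x y => K (x - y) * (F₁ x * (a₂ y) ^ 2 - (a₁ x) ^ 2 * F₂ y)) =
      2 * (dd fun x y => chd K (x - y) * (F₁ x * ((a₂ y) ^ 2 / 2 + F₂ y / 2)
        - ((a₁ x) ^ 2 / 2 + F₁ x / 2) * F₂ y))
      + (cint K / 2) * (cint F₁ * cint (fun x => (a₂ x) ^ 2) - cint (fun x => (a₁ x) ^ 2) * cint F₂) := by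
  have hp1 : Continuous (Function.uncurry fun x y => F₁ x * (a₂ y) ^ 2) :=
    Continuous.mul (hF₁.comp (by fun_prop)) ((ha₂.comp (by fun_prop)).pow 2)
  have hp2 : Continuous (Function.uncurry fun x y => (a₁ x) ^ 2 * F₂ y) :=
    Continuous.mul ((ha₁.comp (by fun_prop)).pow 2) (hF₂.comp (by fun_prop))
  have hD : Continuous (Function.uncurry fun x y => F₁ x * (a₂ y) ^ 2 - (a₁ x) ^ 2 * F₂ y) :=
    hp1.sub hp2
  have e1 : dd (fun x y => F₁ x * (a₂ y) ^ 2 - (a₁ x) ^ 2 * F₂ y) =
      cint F₁ * cint (fun x => (a₂ x) ^ 2) - cint (fun x => (a₁ x) ^ 2) * cint F₂ := by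
    rw [dd_sub hp1 hp2, dd_prod F₁ (fun y => (a₂ y) ^ 2), dd_prod (fun x => (a₁ x) ^ 2) F₂]
  rw [← e1, ← dd_mul, ← dd_mul, ← dd_add]
  · congr 1
    funext x y
    unfold chd
    ring
  · refine continuous_const.mul (Continuous.mul ((chd_cont hK).comp (by fun_prop)) ?_)
    have := hF₁.comp (continuous_fst : Continuous fun q : ℝ × ℝ => q.1)
    have := hF₂.comp (continuous_snd : Continuous fun q : ℝ × ℝ => q.2)
    have := ha₁.comp (continuous_fst : Continuous fun q : ℝ × ℝ => q.1)
    have := ha₂.comp (continuous_snd : Continuous fun q : ℝ × ℝ => q.2)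
    fun_prop
  · exact continuous_const.mul hD

/-- the source part at fixed time -/
theorem source_bd {χ S₁ ρ₁ S₂ ρ₂ : ℝ → ℝ} {B : ℝ} (hχ : Continuous χ) (hS₁ : Continuous S₁)
    (hρ₁ : Continuous ρ₁) (hS₂ : Continuous S₂) (hρ₂ : Continuous ρ₂) (hB : ∀ x, |χ x| ≤ B) :
    |dd fun x y => χ (x - y) * (S₁ x * ρ₂ y + ρ₁ x * S₂ y)| ≤
      B * (cint (fun x => |S₁ x|) * cint (fun x => |ρ₂ x|))
        + B * (cint (fun x => |ρ₁ x|) * cint (fun x => |S₂ x|)) := by
  have e : (dd fun x y => χ (x - y) * (S₁ x * ρ₂ y + ρ₁ x * S₂ y)) =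
      (dd fun x y => χ (x - y) * (S₁ x * ρ₂ y)) + dd fun x y => χ (x - y) * (ρ₁ x * S₂ y) := by
    rw [← dd_add (kc hχ hS₁ hρ₂) (kc hχ hρ₁ hS₂)]
    congr 1
    funext x y
    ring
  rw [e]
  exact (abs_add_le _ _).trans (add_le_add (dd_bound hχ hS₁ hρ₂ hB) (dd_bound hχ hρ₁ hS₂ hB))

theorem prim_periodic {f : ℝ → ℝ} (hf : Continuous f) (hp : Function.Periodic f 2)
    (h0 : cint f = 0) : Function.Periodic (fun x => ∫ z in (0 : ℝ)..x, f z) 2 := by
  intro x
  have hI : ∀ a b, IntervalIntegrable f volume a b := fun a b => hf.intervalIntegrable a b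
  have h1 : (∫ z in (0 : ℝ)..(x + 2), f z) = (∫ z in (0 : ℝ)..x, f z) + ∫ z in x..(x + 2), f z :=
    (intervalIntegral.integral_add_adjacent_intervals (hI 0 x) (hI x (x + 2))).symm
  have h2 : (∫ z in x..(x + 2), f z) = 0 := by
    rw [hp.intervalIntegral_add_eq x (-1), ← h0]
    show _ = ∫ z in (-1 : ℝ)..1, f z
    norm_num
  show (∫ z in (0 : ℝ)..(x + 2), f z) = _
  rw [h1, h2, add_zero]

theorem conv_per {P f : ℝ → ℝ} (hP : Function.Periodic P 2) : Function.Periodic (conv P f) 2 := by
  intro x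
  unfold conv
  congr 1
  funext y
  have e : x + 2 - y = (x - y) + 2 := by ring
  rw [e, hP]

/-! ### the main lemma -/

theorem PA_per (h7 : KerStatement) (i : ℕ) : Function.Periodic (PA i) 2 := by
  obtain ⟨Cv, hCv, hv⟩ := h7
  have hV : ∀ i, Continuous (V i) := fun i => (hv i).1.continuous
  refine prim_periodic (cA hV i) (fun x => ?_) ?_
  · unfold A
    rw [(hv (i + 1)).2.1 x, (hv i).2.1 x]
  · have : cint (A i) = cint (V (i + 1)) - cint (V i) := cint_sub (hV _) (hV _)
    rw [this, (hv (i + 1)).2.2.2.1, (hv i).2.2.2.1, sub_self]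

end

end Mn

open Mn

theorem main_proof (h1 : PosStatement) (h2 : MDerStatement) (h3 : LawStatement)
    (h4 : CrossStatement) (h5 : SizeStatement) (h6 : KKrStatement) (h7 : KerStatement) :
    MainStatement := by
  intro M hM E
  have hPA := PA_per h7
  obtain ⟨C₀, Cq, hC₀, hCq, hpos⟩ := h1 M hM E
  have hCp : 0 < C₀ + Cq := by linarith
  obtain ⟨Cc, hCc, hcr⟩ := h4 E
  obtain ⟨Cs, hCs, hsz⟩ := h5 E
  obtain ⟨ck, Ck, hck, hCk, hker⟩ := h6
  obtain ⟨Cv, hCv, hv⟩ := h7
  have hV : ∀ i, Continuous (V i) := fun i => (hv i).1.continuous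
  refine ⟨(C₀ + Cq) * (1 + 64 * Ck * Cs ^ 6 + 16 * Ck * Cs ^ 3 + 3 * Ck * Cs ^ 4 + 4 * Ck * Cc),
    by positivity, ?_⟩
  intro u r hur l j hMl hlj t0 t1 h01
  have hkl := kap_pos l
  have hkj := kap_pos j
  have hkl1 := one_le_kap l
  have hkj1 := one_le_kap j
  have hle := Sep.le hlj
  -- continuity
  have cLu : ∀ i, Continuous (Function.uncurry fun t x => Lo i (u t) x) := fun i =>
    conv_cont (hV i) hur.cu
  have cLr : ∀ i, Continuous (Function.uncurry fun t x => Lo i (r t) x) := fun i =>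
    conv_cont (hV i) hur.cr
  have cPu : ∀ i, Continuous (Function.uncurry fun t x => Pa i (u t) x) := fun i =>
    conv_cont (cA hV i) hur.cu
  have cPr : ∀ i, Continuous (Function.uncurry fun t x => Pa i (r t) x) := fun i =>
    conv_cont (cA hV i) hur.cr
  have cPp : ∀ i, Continuous (Function.uncurry fun t x => Pp i (r t) x) := fun i =>
    conv_cont (cPA hV i) hur.cr
  have cP3 : ∀ i, Continuous (Function.uncurry fun t x => Pa i (fun y => (u t y) ^ 3) x) := fun i =>
    conv_cont (f := fun t y => (u t y) ^ 3) (cA hV i) (hur.cu.pow 3)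
  have cFF : ∀ i, Continuous (Function.uncurry fun t x => FF M i (u t) x) := fun i =>
    (continuous_const.mul ((cLu (i - M)).pow 2)).mul ((cPu i).pow 2)
  have cRho : ∀ i, Continuous (Function.uncurry fun t x => Rho M i (u t) (r t) x) := fun i =>
    (((cPr i).pow 2).div_const 2).add ((cFF i).div_const 2)
  have cSS : ∀ i, Continuous (Function.uncurry fun t x => SS M i (u t) (r t) x) := fun i =>
    (((continuous_const.mul (cLu (i - M))).mul (cLr (i - M))).mul ((cPu i).pow 2)).add
      ((((continuous_const.mul ((cLu (i - M)).pow 2)).mul (cPu i)).sub (cP3 i)).mul (cPr i))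
  have sec : ∀ {f : ℝ → ℝ → ℝ}, Continuous (Function.uncurry f) → ∀ t, Continuous (f t) :=
    fun hf t => hf.comp (Continuous.prodMk_right t)
  -- the kernel
  obtain ⟨hKc, -, hKp, -, hKe, -, hKlo, hKhi, -⟩ := hker (l - M)
  have hK0 : ∀ x, 0 ≤ KK (l - M) x := fun x =>
    le_trans (mul_nonneg hck.le (by unfold th; have := kap_pos (l - M); positivity)) (hKlo x)
  have hKint : cint (KK (l - M)) ≤ 2 * Ck := by
    have e1 : cint (KK (l - M)) ≤ cint fun x => Ck * th (l - M) x :=
      cint_mono hKc (continuous_const.mul (th_cont _)) hKhi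
    rw [cint_mul] at e1
    have e2 := cint_th (l - M)
    nlinarith
  have hKint0 : 0 ≤ cint (KK (l - M)) := cint_nonneg hK0
  have hχ : ∀ x, |ch (KK (l - M)) x| ≤ 4 * Ck := fun x =>
    (ch_bound hKc hKp hK0 x).trans (by linarith)
  -- sizes at fixed time
  have hCs0 : 0 < Cs := by linarith
  have sz := fun t => hsz (u t) (r t) (hur.prof t)
  have sPr : ∀ t i, cint (fun x => (Pa i (r t) x) ^ 2) ≤ Cs := fun t i =>
    ((sz t).2.2 i).2.2.2.2.2.2.2.1
  have sPu : ∀ t i, cint (fun x => (Pa i (u t) x) ^ 2) ≤ Cs / (kap i) ^ 2 := fun t i =>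
    ((sz t).2.2 i).2.2.2.2.2.2.2.2.2.1
  have sLu : ∀ t i x, |Lo i (u t) x| ≤ Cs := fun t i x => ((sz t).2.2 i).2.1 x
  have FF0 : ∀ t i x, 0 ≤ FF M i (u t) x := fun t i x => by unfold FF; positivity
  have Rho0 : ∀ t i x, 0 ≤ Rho M i (u t) (r t) x := fun t i x => by
    unfold Rho
    have := FF0 t i x
    positivity
  have sFF : ∀ t i, cint (FF M i (u t)) ≤ 3 * Cs ^ 3 / (kap i) ^ 2 := by
    intro t i
    have e1 : cint (FF M i (u t)) ≤ cint fun x => (3 * Cs ^ 2) * (Pa i (u t) x) ^ 2 := by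
      refine cint_mono (sec (cFF i) t) (continuous_const.mul ((sec (cPu i) t).pow 2)) fun x => ?_
      unfold FF
      have := sq_le_sq' (by linarith [(abs_le.1 (sLu t (i - M) x)).1]) (abs_le.1 (sLu t (i - M) x)).2
      gcongr
    rw [cint_mul] at e1
    refine e1.trans ((mul_le_mul_of_nonneg_left (sPu t i) (by positivity)).trans (le_of_eq ?_))
    ring
  have sRho : ∀ t i, cint (Rho M i (u t) (r t)) ≤ 2 * Cs ^ 3 := by
    intro t i
    have e1 : cint (Rho M i (u t) (r t)) =
        cint (fun x => (Pa i (r t) x) ^ 2 / 2) + cint (fun x => FF M i (u t) x / 2) :=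
      cint_add (((sec (cPr i) t).pow 2).div_const 2) ((sec (cFF i) t).div_const 2)
    have e2 : cint (fun x => (Pa i (r t) x) ^ 2 / 2) = cint (fun x => (Pa i (r t) x) ^ 2) / 2 :=
      intervalIntegral.integral_div _ _
    have e3 : cint (fun x => FF M i (u t) x / 2) = cint (FF M i (u t)) / 2 :=
      intervalIntegral.integral_div _ _
    have e4 : 3 * Cs ^ 3 / (kap i) ^ 2 ≤ 3 * Cs ^ 3 :=
      div_le_self (by positivity) (one_le_pow₀ (one_le_kap i))
    have e5 : Cs ≤ Cs ^ 3 := by nlinarith [mul_self_nonneg (Cs - 1), mul_pos hCs0 hCs0]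
    rw [e1, e2, e3]
    linarith [sPr t i, sFF t i]
  -- the functions of time
  set P : ℝ → ℝ := fun t => dd fun x y => KK (l - M) (x - y) *
    (FF M l (u t) x * (Pa j (r t) y) ^ 2 - (Pa l (r t) x) ^ 2 * FF M j (u t) y) with hPdef
  set Q : ℝ → ℝ := fun t => dd fun x y => KK (l - M) (x - y) *
    ((Pp l (r t) (-x)) ^ 2 * (Pa j (r t) y) ^ 2 + (Pa l (r t) x) ^ 2 * (Pp j (r t) (-y)) ^ 2)
    with hQdef
  set G1 : ℝ → ℝ := fun t => dd fun x y => chd (KK (l - M)) (x - y) *
    (FF M l (u t) x * Rho M j (u t) (r t) y - Rho M l (u t) (r t) x * FF M j (u t) y) with hG1def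
  set G2 : ℝ → ℝ := fun t => dd fun x y => ch (KK (l - M)) (x - y) *
    (SS M l (u t) (r t) x * Rho M j (u t) (r t) y
      + Rho M l (u t) (r t) x * SS M j (u t) (r t) y) with hG2def
  set Mm : ℝ → ℝ := fun t => dd fun x y => ch (KK (l - M)) (x - y) *
    (Rho M l (u t) (r t) x * Rho M j (u t) (r t) y) with hMmdef
  -- joint continuity helpers
  have jx : ∀ {f : ℝ → ℝ → ℝ}, Continuous (Function.uncurry f) →
      Continuous fun q : ℝ × ℝ × ℝ => f q.1 q.2.1 := fun hf =>
    hf.comp (by fun_prop : Continuous fun q : ℝ × ℝ × ℝ => (q.1, q.2.1))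
  have jy : ∀ {f : ℝ → ℝ → ℝ}, Continuous (Function.uncurry f) →
      Continuous fun q : ℝ × ℝ × ℝ => f q.1 q.2.2 := fun hf =>
    hf.comp (by fun_prop : Continuous fun q : ℝ × ℝ × ℝ => (q.1, q.2.2))
  have jnx : ∀ {f : ℝ → ℝ → ℝ}, Continuous (Function.uncurry f) →
      Continuous fun q : ℝ × ℝ × ℝ => f q.1 (-q.2.1) := fun hf =>
    hf.comp (by fun_prop : Continuous fun q : ℝ × ℝ × ℝ => (q.1, -q.2.1))
  have jny : ∀ {f : ℝ → ℝ → ℝ}, Continuous (Function.uncurry f) →
      Continuous fun q : ℝ × ℝ × ℝ => f q.1 (-q.2.2) := fun hf =>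
    hf.comp (by fun_prop : Continuous fun q : ℝ × ℝ × ℝ => (q.1, -q.2.2))
  have jk : ∀ {f : ℝ → ℝ}, Continuous f → Continuous fun q : ℝ × ℝ × ℝ => f (q.2.1 - q.2.2) :=
    fun hf => hf.comp (by fun_prop)
  have cP : Continuous P := dd_cont ((jk hKc).mul (((jx (cFF l)).mul ((jy (cPr j)).pow 2)).sub
    (((jx (cPr l)).pow 2).mul (jy (cFF j)))))
  have cQ : Continuous Q := dd_cont ((jk hKc).mul ((((jnx (cPp l)).pow 2).mul
    ((jy (cPr j)).pow 2)).add (((jx (cPr l)).pow 2).mul ((jny (cPp j)).pow 2))))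
  have cG1 : Continuous G1 := dd_cont ((jk (chd_cont hKc)).mul (((jx (cFF l)).mul
    (jy (cRho j))).sub ((jx (cRho l)).mul (jy (cFF j)))))
  have cG2 : Continuous G2 := dd_cont ((jk (ch_cont hKc)).mul (((jx (cSS l)).mul
    (jy (cRho j))).add ((jx (cRho l)).mul (jy (cSS j)))))
  have cxx : Continuous fun t => xx l j (u t) (r t) :=
    dd_cont ((((jk (th_cont l)).mul ((jx hur.cu).pow 2)).mul ((jx (cPr l)).pow 2)).mul
      ((jy (cPr j)).pow 2))
  -- the flux part
  have hP1 : ∀ t, P t ≤ 2 * G1 t + 3 * Ck * Cs ^ 4 / (kap l) ^ 2 := by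
    intro t
    have e := flux_id hKc (sec (cFF l) t) (sec (cPr l) t) (sec (cFF j) t) (sec (cPr j) t)
    have e2 : P t = 2 * G1 t + (cint (KK (l - M)) / 2) *
        (cint (FF M l (u t)) * cint (fun x => (Pa j (r t) x) ^ 2)
          - cint (fun x => (Pa l (r t) x) ^ 2) * cint (FF M j (u t))) := e
    have f1 : 0 ≤ cint (FF M j (u t)) := cint_nonneg (FF0 t j)
    have f2 : 0 ≤ cint (FF M l (u t)) := cint_nonneg (FF0 t l)
    have f3 : 0 ≤ cint (fun x => (Pa l (r t) x) ^ 2) := cint_nonneg fun x => by positivity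
    have f4 : 0 ≤ cint (fun x => (Pa j (r t) x) ^ 2) := cint_nonneg fun x => by positivity
    have g1 : cint (FF M l (u t)) * cint (fun x => (Pa j (r t) x) ^ 2)
        - cint (fun x => (Pa l (r t) x) ^ 2) * cint (FF M j (u t)) ≤
        3 * Cs ^ 3 / (kap l) ^ 2 * Cs := by
      have := mul_le_mul (sFF t l) (sPr t j) f4 (by positivity)
      have := mul_nonneg f3 f1
      linarith
    have g2 : (cint (KK (l - M)) / 2) *
        (cint (FF M l (u t)) * cint (fun x => (Pa j (r t) x) ^ 2)
          - cint (fun x => (Pa l (r t) x) ^ 2) * cint (FF M j (u t))) ≤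
        Ck * (3 * Cs ^ 3 / (kap l) ^ 2 * Cs) :=
      (mul_le_mul_of_nonneg_left g1 (by linarith)).trans
        (mul_le_mul_of_nonneg_right (by linarith) (by positivity))
    rw [e2]
    have g3 : Ck * (3 * Cs ^ 3 / (kap l) ^ 2 * Cs) = 3 * Ck * Cs ^ 4 / (kap l) ^ 2 := by ring
    linarith
  -- the source part
  have hG2 : ∀ t, -G2 t ≤ 8 * Ck * Cs ^ 3 *
      (cint (fun x => |SS M l (u t) (r t) x|) + cint (fun x => |SS M j (u t) (r t) x|)) := by
    intro t
    have e := source_bd (ch_cont hKc) (sec (cSS l) t) (sec (cRho l) t) (sec (cSS j) t)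
      (sec (cRho j) t) hχ
    have e2 : |G2 t| ≤ 4 * Ck * (cint (fun x => |SS M l (u t) (r t) x|)
          * cint (fun x => |Rho M j (u t) (r t) x|))
        + 4 * Ck * (cint (fun x => |Rho M l (u t) (r t) x|)
          * cint (fun x => |SS M j (u t) (r t) x|)) := e
    have f : ∀ i, cint (fun x => |Rho M i (u t) (r t) x|) ≤ 2 * Cs ^ 3 := by
      intro i
      have : (fun x => |Rho M i (u t) (r t) x|) = Rho M i (u t) (r t) := by
        funext x
        exact abs_of_nonneg (Rho0 t i x)
      rw [this]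
      exact sRho t i
    have s1 : 0 ≤ cint (fun x => |SS M l (u t) (r t) x|) := cint_nonneg fun x => abs_nonneg _
    have s2 : 0 ≤ cint (fun x => |SS M j (u t) (r t) x|) := cint_nonneg fun x => abs_nonneg _
    have m1 := mul_le_mul_of_nonneg_left (f j) s1
    have m2 := mul_le_mul_of_nonneg_right (f l) s2
    have m3 := mul_le_mul_of_nonneg_left (add_le_add m1 m2) (by positivity : 0 ≤ 4 * Ck)
    have m4 : -G2 t ≤ |G2 t| := neg_le_abs _
    calc -G2 t ≤ 4 * Ck * (cint (fun x => |SS M l (u t) (r t) x|)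
          * cint (fun x => |Rho M j (u t) (r t) x|))
        + 4 * Ck * (cint (fun x => |Rho M l (u t) (r t) x|)
          * cint (fun x => |SS M j (u t) (r t) x|)) := m4.trans e2
      _ ≤ 4 * Ck * (cint (fun x => |SS M l (u t) (r t) x|) * (2 * Cs ^ 3)
          + 2 * Cs ^ 3 * cint (fun x => |SS M j (u t) (r t) x|)) := by linarith [m3]
      _ = _ := by ring
  -- the interaction functional
  have hMm : ∀ t, |Mm t| ≤ 16 * Ck * Cs ^ 6 := by
    intro t
    have e := dd_bound (ch_cont hKc) (sec (cRho l) t) (sec (cRho j) t) hχ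
    have e2 : |Mm t| ≤ 4 * Ck * (cint (fun x => |Rho M l (u t) (r t) x|)
        * cint (fun x => |Rho M j (u t) (r t) x|)) := e
    have f : ∀ i, (fun x => |Rho M i (u t) (r t) x|) = Rho M i (u t) (r t) := by
      intro i
      funext x
      exact abs_of_nonneg (Rho0 t i x)
    rw [f l, f j] at e2
    have m1 := mul_le_mul (sRho t l) (sRho t j) (cint_nonneg (Rho0 t j)) (by positivity)
    have m2 := mul_le_mul_of_nonneg_left m1 (by positivity : 0 ≤ 4 * Ck)
    refine (e2.trans m2).trans (le_of_eq (by ring))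
  -- the derivative of the interaction functional
  have hder : Mm t1 - Mm t0 = ∫ t in t0..t1, (G1 t + G2 t) := by
    obtain ⟨ρt₁, ρx₁, Fx₁, L1⟩ := h3 M E u r hur l
    obtain ⟨ρt₂, ρx₂, Fx₂, L2⟩ := h3 M E u r hur j
    exact h2 (ch (KK (l - M))) (chd (KK (l - M))) (chd_cont hKc) (ch_periodic hKc hKp)
      (ch_deriv hKc) _ _ _ _ _ _ _ _ _ _ _ _ L1 L2 t0 t1 h01
  have iG1 : IntervalIntegrable G1 volume t0 t1 := cG1.intervalIntegrable _ _
  have iG2 : IntervalIntegrable G2 volume t0 t1 := cG2.intervalIntegrable _ _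
  rw [intervalIntegral.integral_add iG1 iG2] at hder
  have cSl : ∀ i, Continuous fun t => cint (fun x => |SS M i (u t) (r t) x|) := fun i =>
    cint_cont (f := fun t x => |SS M i (u t) (r t) x|) (cSS i).abs
  have hIG2 : -(∫ t in t0..t1, G2 t) ≤ 8 * Ck * Cs ^ 3 * (Err M l u r t0 t1 + Err M j u r t0 t1) := by
    rw [← intervalIntegral.integral_neg]
    have e1 := tint_mono (f := fun t => -G2 t) (g := fun t => 8 * Ck * Cs ^ 3 *
      (cint (fun x => |SS M l (u t) (r t) x|) + cint (fun x => |SS M j (u t) (r t) x|))) h01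
      cG2.neg (continuous_const.mul ((cSl l).add (cSl j))) hG2
    refine e1.trans (le_of_eq ?_)
    unfold Err
    rw [intervalIntegral.integral_const_mul, intervalIntegral.integral_add
      ((cSl l).intervalIntegrable _ _) ((cSl j).intervalIntegrable _ _)]
  have hIP : (∫ t in t0..t1, P t) ≤ 64 * Ck * Cs ^ 6
      + 16 * Ck * Cs ^ 3 * (Err M l u r t0 t1 + Err M j u r t0 t1)
      + 3 * Ck * Cs ^ 4 / (kap l) ^ 2 * (t1 - t0) := by
    have e1 := tint_mono (f := P) (g := fun t => 2 * G1 t + 3 * Ck * Cs ^ 4 / (kap l) ^ 2) h01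
      cP ((continuous_const.mul cG1).add continuous_const) hP1
    rw [tint_lin cG1] at e1
    have a1 := (abs_le.1 (hMm t1)).2
    have a0 := (abs_le.1 (hMm t0)).1
    linarith
  -- the crossing part
  have hT : 0 ≤ t1 - t0 + 1 := by linarith
  have hIQ : (∫ t in t0..t1, Q t) ≤ 4 * Ck * Cc * (t1 - t0 + 1) / (kap l) ^ 2 := by
    have hcr' := (hcr u r hur t0 t1 h01).1
    have b1 : ∀ h : ℝ, (∫ t in t0..t1, cint fun x => (Pa j (r t) x) ^ 2 * (Pp l (r t) (h - x)) ^ 2) ≤
        Cc * (t1 - t0 + 1) / (kap l) ^ 2 := by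
      intro h
      rw [le_div_iff₀ (by positivity)]
      have := hcr' j l h
      linarith
    have b2 : ∀ h : ℝ, (∫ t in t0..t1, cint fun x => (Pa l (r t) x) ^ 2 * (Pp j (r t) (h - x)) ^ 2) ≤
        Cc * (t1 - t0 + 1) / (kap l) ^ 2 := by
      intro h
      have e1 := hcr' l j h
      have e2 : (∫ t in t0..t1, cint fun x => (Pa l (r t) x) ^ 2 * (Pp j (r t) (h - x)) ^ 2) ≤
          Cc * (t1 - t0 + 1) / (kap j) ^ 2 := by
        rw [le_div_iff₀ (by positivity)]
        linarith
      refine e2.trans ?_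
      gcongr
    have cl2 : Continuous (Function.uncurry fun t x => (Pa l (r t) x) ^ 2) := (cPr l).pow 2
    have cj2 : Continuous (Function.uncurry fun t x => (Pa j (r t) x) ^ 2) := (cPr j).pow 2
    have dl2 : Continuous (Function.uncurry fun t x => (Pp l (r t) x) ^ 2) := (cPp l).pow 2
    have dj2 : Continuous (Function.uncurry fun t x => (Pp j (r t) x) ^ 2) := (cPp j).pow 2
    have pl : ∀ t, Function.Periodic (fun x => (Pp l (r t) x) ^ 2) 2 := fun t x => by
      have := conv_per (f := r t) (hPA l) x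
      simp only [Pp, this]
    have pj : ∀ t, Function.Periodic (fun x => (Pp j (r t) x) ^ 2) 2 := fun t x => by
      have := conv_per (f := r t) (hPA j) x
      simp only [Pp, this]
    have k0 := cross2 (p := fun t x => (Pp l (r t) x) ^ 2) (q := fun t x => (Pa j (r t) x) ^ 2)
      (p' := fun t x => (Pa l (r t) x) ^ 2) (q' := fun t x => (Pp j (r t) x) ^ 2)
      hKc hK0 hKp hKe dl2 cj2 cl2 dj2 pl pj b1 b2
    have hB0 : 0 ≤ Cc * (t1 - t0 + 1) / (kap l) ^ 2 := by positivity
    have k3 := mul_le_mul_of_nonneg_left hKint hB0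
    have k4 : 4 * Ck * Cc * (t1 - t0 + 1) / (kap l) ^ 2 =
        2 * (Cc * (t1 - t0 + 1) / (kap l) ^ 2 * (2 * Ck)) := by ring
    rw [k4]
    refine le_trans k0 ?_
    linarith
  -- assembly
  have hX : X l j u r t0 t1 ≤ Cq * (t1 - t0) + C₀ * (kap l) ^ 2 * (∫ t in t0..t1, P t)
      + Cq * (kap l) ^ 2 * (∫ t in t0..t1, Q t) := by
    have e1 := tint_mono (f := fun t => xx l j (u t) (r t))
      (g := fun t => Cq + C₀ * (kap l) ^ 2 * P t + Cq * (kap l) ^ 2 * Q t) h01 cxx
      ((continuous_const.add (continuous_const.mul cP)).add (continuous_const.mul cQ))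
      (fun t => hpos (u t) (r t) (hur.prof t) l j hMl hlj)
    unfold X
    refine e1.trans (le_of_eq ?_)
    rw [tint_lin3 cP cQ]
  have hE0 : 0 ≤ Err M l u r t0 t1 + Err M j u r t0 t1 := by
    have : ∀ i, 0 ≤ Err M i u r t0 t1 := fun i =>
      intervalIntegral.integral_nonneg h01 fun t _ => cint_nonneg fun x => abs_nonneg _
    linarith [this l, this j]
  have hkk : 0 < (kap l) ^ 2 := by positivity
  have hP2 := mul_le_mul_of_nonneg_left hIP (by positivity : 0 ≤ C₀ * (kap l) ^ 2)
  have hQ2 := mul_le_mul_of_nonneg_left hIQ (by positivity : 0 ≤ Cq * (kap l) ^ 2)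
  have hs : 0 ≤ t1 - t0 := by linarith
  have y1 : 0 ≤ (kap l) ^ 2 * (Err M l u r t0 t1 + Err M j u r t0 t1) := by positivity
  have r2 : Cq * (kap l) ^ 2 * (4 * Ck * Cc * (t1 - t0 + 1) / (kap l) ^ 2) =
      Cq * (4 * Ck * Cc) * (t1 - t0 + 1) := by field_simp
  have r3 : C₀ * (kap l) ^ 2 * (64 * Ck * Cs ^ 6
      + 16 * Ck * Cs ^ 3 * (Err M l u r t0 t1 + Err M j u r t0 t1)
      + 3 * Ck * Cs ^ 4 / (kap l) ^ 2 * (t1 - t0)) =
      C₀ * (64 * Ck * Cs ^ 6) * (kap l) ^ 2
      + C₀ * (16 * Ck * Cs ^ 3) * ((kap l) ^ 2 * (Err M l u r t0 t1 + Err M j u r t0 t1))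
      + C₀ * (3 * Ck * Cs ^ 4) * (t1 - t0) := by
    have r1 : C₀ * (kap l) ^ 2 * (3 * Ck * Cs ^ 4 / (kap l) ^ 2 * (t1 - t0)) =
        C₀ * (3 * Ck * Cs ^ 4) * (t1 - t0) := by field_simp
    rw [← r1]
    ring
  rw [r2] at hQ2
  rw [r3] at hP2
  clear_value P Q G1 G2 Mm
  generalize hW : (kap l) ^ 2 * (Err M l u r t0 t1 + Err M j u r t0 t1) = W at hP2 y1
  have goal_eq : (C₀ + Cq) * (1 + 64 * Ck * Cs ^ 6 + 16 * Ck * Cs ^ 3 + 3 * Ck * Cs ^ 4
      + 4 * Ck * Cc) * (kap l) ^ 2 * (Err M l u r t0 t1 + Err M j u r t0 t1) =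
      (C₀ + Cq) * (1 + 64 * Ck * Cs ^ 6 + 16 * Ck * Cs ^ 3 + 3 * Ck * Cs ^ 4
      + 4 * Ck * Cc) * W := by
    rw [← hW]
    ring
  rw [goal_eq]
  refine hX.trans ?_
  generalize (∫ t in t0..t1, P t) = IP at hP2 ⊢
  generalize (∫ t in t0..t1, Q t) = IQ at hQ2 ⊢
  generalize t1 - t0 = T at hP2 hQ2 hs ⊢
  generalize (kap l) ^ 2 = k at hP2 hQ2 hkk ⊢
  have a1 : 0 ≤ 64 * Ck * Cs ^ 6 := by positivity
  have a2 : 0 ≤ 16 * Ck * Cs ^ 3 := by positivity
  have a3 : 0 ≤ 3 * Ck * Cs ^ 4 := by positivity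
  have a4 : 0 ≤ 4 * Ck * Cc := by positivity
  generalize 64 * Ck * Cs ^ 6 = n1 at *
  generalize 16 * Ck * Cs ^ 3 = n2 at *
  generalize 3 * Ck * Cs ^ 4 = n3 at *
  generalize 4 * Ck * Cc = n4 at *
  have b1 : 0 ≤ C₀ * n1 := by positivity
  have b2 : 0 ≤ C₀ * n2 := by positivity
  have b3 : 0 ≤ C₀ * n3 := by positivity
  have b4 : 0 ≤ C₀ * n4 := by positivity
  have d1 : 0 ≤ Cq * n1 := by positivity
  have d2 : 0 ≤ Cq * n2 := by positivity
  have d3 : 0 ≤ Cq * n3 := by positivity
  have d4 : 0 ≤ Cq * n4 := by positivity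
  have hT1 : 0 ≤ T + 1 := by linarith
  have w1 := mul_nonneg b1 hT1
  have w2 := mul_nonneg b2 hT1
  have w3 : 0 ≤ C₀ * n3 * k := by positivity
  have w3' : 0 ≤ C₀ * n3 := b3
  have w4 := mul_nonneg b4 hT1
  have w5 : 0 ≤ C₀ * n4 * k := by positivity
  have w6 : 0 ≤ C₀ * n2 * k := by positivity
  have v1 := mul_nonneg d1 hT1
  have v2 := mul_nonneg d2 hT1
  have v3 := mul_nonneg d3 hT1
  have v4 : 0 ≤ Cq * n4 * k := by positivity
  have v5 : 0 ≤ Cq * n1 * k := by positivity
  have v6 : 0 ≤ Cq * n2 * k := by positivity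
  have v7 : 0 ≤ Cq * n3 * k := by positivity
  have u1 : 0 ≤ C₀ * (T + 1) := by positivity
  have u2 : 0 ≤ C₀ * k := by positivity
  have u3 : 0 ≤ Cq * k := by positivity
  have m1 : 0 ≤ C₀ * n1 * W := by positivity
  have m2 : 0 ≤ C₀ * n3 * W := by positivity
  have m3 : 0 ≤ C₀ * n4 * W := by positivity
  have m4 : 0 ≤ Cq * n1 * W := by positivity
  have m5 : 0 ≤ Cq * n2 * W := by positivity
  have m6 : 0 ≤ Cq * n3 * W := by positivity
  have m7 : 0 ≤ Cq * n4 * W := by positivity
  have m8 : 0 ≤ C₀ * W := by positivity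
  have m9 : 0 ≤ Cq * W := by positivity
  linarith [w1, w2, w3, w4, w5, w6, v1, v2, v3, v4, v5, v6, v7, u1, u2, u3, m1, m2, m3, m4, m5,
    m6, m7, m8, m9]

end Pool.Agent.C1E
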