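import Pool.Agent.Lib.MP_c1e222_an.Cnv

/-!
# MP_c1e222_an, row Mul: `V_i`, `A_i`, `PA_i` as Fourier multipliers
-/

namespace Pool.Agent.C1E

open MeasureTheory Set Filter Topology intervalIntegral

noncomputable section

namespace MulRow

theorem ee_zero (x : ℝ) : ee 0 x = 1 := by simp [ee]

theorem ee_add (m n : ℤ) (x : ℝ) : ee (m + n) x = ee m x * ee n x := by
  unfold ee
  rw [← Complex.exp_add]
  congr 1
  push_cast
  ring

theorem ee_sub_arg (n : ℤ) (x y : ℝ) : ee n (x - y) = ee n x * ee (-n) y := by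
  unfold ee
  rw [← Complex.exp_add]
  congr 1
  push_cast
  ring

theorem continuous_ee (n : ℤ) : Continuous (ee n) := by
  unfold ee
  fun_prop

theorem ee_periodic (n : ℤ) : Function.Periodic (ee n) 2 := by
  intro x
  unfold ee
  have e : (Real.pi : ℂ) * n * ((x + 2 : ℝ) : ℂ) * Complex.I =
      (Real.pi : ℂ) * n * (x : ℂ) * Complex.I + n * (2 * Real.pi * Complex.I) := by
    push_cast
    ring
  rw [e, Complex.exp_add, Complex.exp_int_mul_two_pi_mul_I, mul_one]

theorem hasDerivAt_ee (n : ℤ) (x : ℝ) :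
    HasDerivAt (ee n) ((Real.pi : ℂ) * n * Complex.I * ee n x) x := by
  have h1 : HasDerivAt (fun x : ℝ => (x : ℂ)) 1 x := by
    simpa using (hasDerivAt_id x).ofReal_comp
  have h2 : HasDerivAt (fun x : ℝ => (Real.pi : ℂ) * n * (x : ℂ) * Complex.I)
      ((Real.pi : ℂ) * n * Complex.I) x := by
    have := (h1.const_mul ((Real.pi : ℂ) * n)).mul_const Complex.I
    simpa using this
  have h3 := h2.cexp
  have h4 : (fun x : ℝ => Complex.exp ((Real.pi : ℂ) * n * (x : ℂ) * Complex.I)) = ee n := rfl
  rw [h4] at h3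
  convert h3 using 1
  unfold ee
  ring

theorem pin_ne {n : ℤ} (hn : n ≠ 0) : (Real.pi : ℂ) * n * Complex.I ≠ 0 := by
  refine mul_ne_zero (mul_ne_zero ?_ ?_) Complex.I_ne_zero
  · exact_mod_cast Real.pi_ne_zero
  · exact_mod_cast hn

theorem integral_ee {n : ℤ} (hn : n ≠ 0) (a b : ℝ) :
    ∫ x in a..b, ee n x = (ee n b - ee n a) / ((Real.pi : ℂ) * n * Complex.I) := by
  have h0 := pin_ne hn
  have h1 : ∀ x ∈ Set.uIcc a b, HasDerivAt (fun x => ee n x / ((Real.pi : ℂ) * n * Complex.I))
      (ee n x) x := by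
    intro x _
    have h2 := (hasDerivAt_ee n x).div_const ((Real.pi : ℂ) * n * Complex.I)
    have h3 : (Real.pi : ℂ) * n * Complex.I * ee n x / ((Real.pi : ℂ) * n * Complex.I) =
        ee n x := by
      rw [div_eq_iff h0]
      ring
    rw [h3] at h2
    exact h2
  rw [intervalIntegral.integral_eq_sub_of_hasDerivAt h1 ((continuous_ee n).intervalIntegrable _ _)]
  rw [sub_div]

theorem integral_ee_period (n : ℤ) :
    ∫ x in (-1 : ℝ)..1, ee n x = if n = 0 then 2 else 0 := by
  split_ifs with h
  · subst h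
    simp only [ee_zero]
    rw [intervalIntegral.integral_const]
    norm_num
  · rw [integral_ee h]
    have := ee_periodic n (-1)
    rw [show (-1 : ℝ) + 2 = 1 by norm_num] at this
    rw [this, sub_self, zero_div]

/-- convolution with a trigonometric polynomial -/
theorem conv_spec {P : ℝ → ℝ} {I : Finset ℤ} {a : ℤ → ℂ}
    (hP : ∀ x, (P x : ℂ) = ∑ n ∈ I, a n * ee n x) {f : ℝ → ℝ} (hf : Continuous f) (x : ℝ) :
    (conv P f x : ℂ) = ∑ n ∈ I, (2 * a n * fc (fun y => (f y : ℂ)) n) * ee n x := by
  unfold conv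
  rw [← intervalIntegral.integral_ofReal]
  have h1 : ∀ y : ℝ, ((P (x - y) * f y : ℝ) : ℂ) =
      ∑ n ∈ I, (a n * ee n x) * (ee (-n) y * (f y : ℂ)) := by
    intro y
    rw [Complex.ofReal_mul, hP, Finset.sum_mul]
    refine Finset.sum_congr rfl fun n _ => ?_
    rw [ee_sub_arg]
    ring
  simp only [h1]
  have hfc : Continuous fun y : ℝ => (f y : ℂ) := Complex.continuous_ofReal.comp hf
  rw [intervalIntegral.integral_finsetSum]
  · refine Finset.sum_congr rfl fun n _ => ?_
    rw [intervalIntegral.integral_const_mul]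
    unfold fc
    ring
  · intro n _
    exact (continuous_const.mul ((continuous_ee (-n)).mul hfc)).intervalIntegrable _ _

theorem tp_sum {I : Finset ℤ} {a : ℤ → ℂ} {S : Set ℤ} (h : ∀ n ∈ I, a n ≠ 0 → n ∈ S) :
    TP (fun x => ∑ n ∈ I, a n * ee n x) S := by
  classical
  refine ⟨Finsupp.onFinset I (fun n => if n ∈ I then a n else 0) ?_, ?_, ?_⟩
  · intro n hn
    by_contra h'
    exact hn (if_neg h')
  · intro n hn
    rw [Finsupp.mem_support_iff, Finsupp.onFinset_apply] at hn
    by_cases hI : n ∈ I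
    · rw [if_pos hI] at hn
      exact h n hI hn
    · rw [if_neg hI] at hn
      exact absurd rfl hn
  · intro x
    rw [Finsupp.onFinset_sum]
    · refine Finset.sum_congr rfl fun n hn => ?_
      rw [if_pos hn]
    · intro n
      rw [zero_mul]

theorem tp_of_eq {f : ℝ → ℂ} {I : Finset ℤ} {a : ℤ → ℂ} {S : Set ℤ}
    (hf : ∀ x, f x = ∑ n ∈ I, a n * ee n x) (h : ∀ n ∈ I, a n ≠ 0 → n ∈ S) : TP f S := by
  have e : f = fun x => ∑ n ∈ I, a n * ee n x := funext hf
  rw [e]
  exact tp_sum h

theorem fc_sum {I : Finset ℤ} {a : ℤ → ℂ} (m : ℤ) :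
    fc (fun x => ∑ n ∈ I, a n * ee n x) m = if m ∈ I then a m else 0 := by
  unfold fc
  have h1 : ∀ x : ℝ, ee (-m) x * ∑ n ∈ I, a n * ee n x = ∑ n ∈ I, a n * ee (-m + n) x := by
    intro x
    rw [Finset.mul_sum]
    refine Finset.sum_congr rfl fun n _ => ?_
    rw [ee_add]
    ring
  simp only [h1]
  rw [intervalIntegral.integral_finsetSum]
  · have h2 : ∀ n ∈ I, ∫ x in (-1 : ℝ)..1, a n * ee (-m + n) x = if n = m then 2 * a m else 0 := by
      intro n _
      rw [intervalIntegral.integral_const_mul, integral_ee_period]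
      by_cases h : n = m
      · subst h
        rw [if_pos (by ring), if_pos rfl]
        ring
      · rw [if_neg (fun h' => h (by linarith)), if_neg h, mul_zero]
    rw [Finset.sum_congr rfl h2, Finset.sum_ite_eq']
    split_ifs
    · ring
    · ring
  · intro n _
    exact (continuous_const.mul (continuous_ee _)).intervalIntegrable _ _

/-- the expansion of `V_i` in a larger range -/
theorem v_ext {i N : ℕ} {c : ℤ → ℝ} (hN : kap i ≤ N) (h0 : ∀ n : ℤ, kap i ≤ |(n : ℝ)| → c n = 0)
    (h : ∀ x, (V i x : ℂ) = ∑ n ∈ Finset.Icc (-(⌈kap i⌉₊ : ℤ)) (⌈kap i⌉₊ : ℤ), (c n : ℂ) * ee n x)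
    (x : ℝ) : (V i x : ℂ) = ∑ n ∈ Finset.Icc (-(N : ℤ)) (N : ℤ), (c n : ℂ) * ee n x := by
  rw [h]
  have hc : ⌈kap i⌉₊ ≤ N := Nat.ceil_le.2 hN
  refine Finset.sum_subset ?_ ?_
  · intro n hn
    rw [Finset.mem_Icc] at hn ⊢
    constructor <;> omega
  · intro n _ hn
    have h1 : kap i ≤ |(n : ℝ)| := by
      by_contra hlt
      rw [not_le] at hlt
      apply hn
      have h2 : |(n : ℝ)| ≤ (⌈kap i⌉₊ : ℝ) := hlt.le.trans (Nat.le_ceil _)
      have h3 : |n| ≤ (⌈kap i⌉₊ : ℤ) := by exact_mod_cast h2
      rw [Finset.mem_Icc]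
      exact abs_le.1 h3
    rw [h0 n h1]
    simp

/-- everything which is needed about `V_i`, `A_i`, `PA_i` -/
theorem data (hV : VSpecStatement) (i : ℕ) : ∃ (I : Finset ℤ) (c d e : ℤ → ℂ),
    (∀ n : ℤ, |(n : ℝ)| < kap i → n ∈ I) ∧
    (∀ n : ℤ, |(n : ℝ)| ≤ (63 / 64) * kap i → c n = 1 / 2) ∧
    (∀ n : ℤ, c n ≠ 0 → |(n : ℝ)| < kap i) ∧
    (∀ n : ℤ, d n ≠ 0 → (63 / 64) * kap i < |(n : ℝ)| ∧ |(n : ℝ)| < kap (i + 1)) ∧
    (∀ n : ℤ, e n ≠ 0 → d n ≠ 0) ∧
    (∀ x, (V i x : ℂ) = ∑ n ∈ I, c n * ee n x) ∧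
    (∀ x, (A i x : ℂ) = ∑ n ∈ I, d n * ee n x) ∧
    (∀ x, (PA i x : ℂ) = ∑ n ∈ I, e n * ee n x) := by
  obtain ⟨c, c1, c2, c3, c4⟩ := hV i
  obtain ⟨c', c1', c2', c3', c4'⟩ := hV (i + 1)
  have hk : kap i ≤ kap (i + 1) := kap_mono (Nat.le_succ i)
  have hkp := kap_pos i
  set N : ℕ := ⌈kap (i + 1)⌉₊ with hN
  have hN1 : kap (i + 1) ≤ N := Nat.le_ceil _
  set I : Finset ℤ := Finset.Icc (-(N : ℤ)) (N : ℤ) with hI
  have hmemI : ∀ n : ℤ, |(n : ℝ)| ≤ kap (i + 1) → n ∈ I := by
    intro n hn
    have h2 : |(n : ℝ)| ≤ (N : ℝ) := hn.trans hN1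
    have h3 : |n| ≤ (N : ℤ) := by exact_mod_cast h2
    rw [hI, Finset.mem_Icc]
    exact abs_le.1 h3
  set d : ℤ → ℂ := fun n => (c' n : ℂ) - (c n : ℂ) with hd
  set e : ℤ → ℂ := fun n => d n / ((Real.pi : ℂ) * n * Complex.I) with he
  have hVi : ∀ x, (V i x : ℂ) = ∑ n ∈ I, (c n : ℂ) * ee n x := v_ext (hk.trans hN1) c2 c4
  have hVi' : ∀ x, (V (i + 1) x : ℂ) = ∑ n ∈ I, (c' n : ℂ) * ee n x := v_ext hN1 c2' c4'
  have hd0 : ∀ n : ℤ, d n ≠ 0 → (63 / 64) * kap i < |(n : ℝ)| ∧ |(n : ℝ)| < kap (i + 1) := by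
    intro n hn
    constructor
    · by_contra h
      rw [not_lt] at h
      apply hn
      have h1 := c1 n h
      have h2 := c1' n (h.trans (by linarith))
      rw [hd]
      simp only [h1, h2]
      push_cast
      ring
    · by_contra h
      rw [not_lt] at h
      apply hn
      have h1 := c2 n (hk.trans h)
      have h2 := c2' n h
      rw [hd]
      simp only [h1, h2]
      push_cast
      ring
  have hd00 : d 0 = 0 := by
    by_contra h
    have h1 := (hd0 0 h).1
    simp at h1
    linarith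
  have hdneg : ∀ n, d (-n) = d n := by
    intro n
    rw [hd]
    simp only [c3, c3']
  have heneg : ∀ n, e (-n) = -e n := by
    intro n
    rw [he]
    simp only [hdneg]
    push_cast
    rw [mul_neg, neg_mul, div_neg]
  have hA : ∀ x, (A i x : ℂ) = ∑ n ∈ I, d n * ee n x := by
    intro x
    unfold A
    rw [Complex.ofReal_sub, hVi, hVi', ← Finset.sum_sub_distrib]
    refine Finset.sum_congr rfl fun n _ => ?_
    rw [hd]
    ring
  refine ⟨I, fun n => (c n : ℂ), d, e, fun n hn => hmemI n (hn.le.trans hk), ?_, ?_, hd0, ?_, hVi,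
    hA, ?_⟩
  · intro n hn
    simp only [c1 n hn]
    push_cast
    ring
  · intro n hn
    by_contra h
    rw [not_lt] at h
    apply hn
    simp only [c2 n h]
    push_cast
    rfl
  · intro n hn h
    apply hn
    rw [he]
    simp only [h, zero_div]
  · intro x
    unfold PA
    rw [← intervalIntegral.integral_ofReal]
    simp only [hA]
    rw [intervalIntegral.integral_finsetSum]
    · have h1 : ∀ n ∈ I, ∫ z in (0 : ℝ)..x, d n * ee n z = e n * ee n x - e n := by
        intro n _
        by_cases h : n = 0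
        · subst h
          rw [he]
          simp only [hd00]
          simp
        · rw [intervalIntegral.integral_const_mul, integral_ee h, he]
          have h0 : ee n 0 = 1 := by simp [ee]
          rw [h0]
          ring
      rw [Finset.sum_congr rfl h1, Finset.sum_sub_distrib]
      have h2 : ∑ n ∈ I, e n = 0 := by
        have h3 : ∑ n ∈ I, e n = ∑ n ∈ I, e (-n) := by
          refine Finset.sum_nbij' (fun n => -n) (fun n => -n) ?_ ?_ ?_ ?_ ?_
          · intro n hn
            rw [hI, Finset.mem_Icc] at hn ⊢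
            constructor <;> omega
          · intro n hn
            rw [hI, Finset.mem_Icc] at hn ⊢
            constructor <;> omega
          · intro n _
            ring
          · intro n _
            ring
          · intro n _
            rw [neg_neg]
        simp only [heneg, Finset.sum_neg_distrib] at h3
        have h4 : (2 : ℂ) * ∑ n ∈ I, e n = 0 := by
          rw [two_mul]
          nth_rewrite 1 [h3]
          ring
        exact (mul_eq_zero.1 h4).resolve_left two_ne_zero
      rw [h2, sub_zero]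
    · intro n _
      exact (continuous_const.mul (continuous_ee n)).intervalIntegrable _ _

end MulRow

open MulRow

/-- Row Mul. -/
theorem mul_proof (hV : VSpecStatement) : MulStatement := by
  intro i
  obtain ⟨I, c, d, e, hI, hc1, hc2, hd, he, hVi, hA, hPA⟩ := data hV i
  have hre : ∀ {f : ℝ → ℝ}, Continuous (fun x => (f x : ℂ)) → Continuous f := by
    intro f hf
    have := Complex.continuous_re.comp hf
    exact this
  have hLo : ∀ {f : ℝ → ℝ}, Continuous f → ∀ x, (Lo i f x : ℂ) =
      ∑ n ∈ I, (2 * c n * fc (fun y => (f y : ℂ)) n) * ee n x := fun hf x => conv_spec hVi hf x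
  have hPa : ∀ {f : ℝ → ℝ}, Continuous f → ∀ x, (Pa i f x : ℂ) =
      ∑ n ∈ I, (2 * d n * fc (fun y => (f y : ℂ)) n) * ee n x := fun hf x => conv_spec hA hf x
  have hPp : ∀ {f : ℝ → ℝ}, Continuous f → ∀ x, (Pp i f x : ℂ) =
      ∑ n ∈ I, (2 * e n * fc (fun y => (f y : ℂ)) n) * ee n x := fun hf x => conv_spec hPA hf x
  have hnz : ∀ {a b : ℂ}, 2 * a * b ≠ 0 → a ≠ 0 ∧ b ≠ 0 := by
    intro a b h
    exact ⟨fun h' => h (by rw [h']; ring), fun h' => h (by rw [h']; ring)⟩
  refine ⟨tp_of_eq hVi fun n _ hn => hc2 n hn, ?_, ?_, ?_⟩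
  · intro f S hf
    have hfc := hre hf.1
    have hS : ∀ n, fc (fun y => (f y : ℂ)) n ≠ 0 → n ∈ S := fun n hn => by
      by_contra h
      exact hn (hf.2.2 n h)
    refine ⟨?_, ?_, ?_, ?_⟩
    · refine tp_of_eq (hLo hfc) fun n _ hn => ?_
      exact ⟨hS n (hnz hn).2, hc2 n (hnz hn).1⟩
    · have hVc : Continuous (V i) := by
        have h1 : Continuous fun x => (V i x : ℂ) := by
          rw [show (fun x => (V i x : ℂ)) = fun x => ∑ n ∈ I, c n * ee n x from funext hVi]
          exact continuous_finsetSum _ fun n _ => continuous_const.mul (continuous_ee n)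
        exact hre h1
      have hLc : Continuous (Lo i f) := continuous_conv hVc hfc
      have hper : Function.Periodic (Lo i f) 2 := by
        intro x
        have h1 : (Lo i f (x + 2) : ℂ) = (Lo i f x : ℂ) := by
          rw [hLo hfc, hLo hfc]
          refine Finset.sum_congr rfl fun n _ => ?_
          rw [ee_periodic n x]
        exact_mod_cast h1
      have hfp : Function.Periodic f 2 := by
        intro x
        have h1 : (f (x + 2) : ℂ) = (f x : ℂ) := hf.2.1 x
        exact_mod_cast h1
      refine ⟨Complex.continuous_ofReal.comp (hfc.sub hLc), ?_, ?_⟩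
      · intro x
        simp only [hfp x, hper x]
      · intro n hn
        have h1 : fc (fun x => ((f x - Lo i f x : ℝ) : ℂ)) n =
            fc (fun x => (f x : ℂ)) n - fc (fun x => (Lo i f x : ℂ)) n := by
          unfold fc
          rw [← mul_sub, ← intervalIntegral.integral_sub]
          · congr 1
            refine intervalIntegral.integral_congr fun x _ => ?_
            simp only [Complex.ofReal_sub]
            ring
          · exact ((continuous_ee _).mul hf.1).intervalIntegrable _ _
          · exact ((continuous_ee _).mul (Complex.continuous_ofReal.comp hLc)).intervalIntegrable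
              _ _
        have h2 : fc (fun x => (Lo i f x : ℂ)) n =
            if n ∈ I then 2 * c n * fc (fun y => (f y : ℂ)) n else 0 := by
          rw [show (fun x => (Lo i f x : ℂ)) = fun x =>
            ∑ n ∈ I, (2 * c n * fc (fun y => (f y : ℂ)) n) * ee n x from funext (hLo hfc)]
          exact fc_sum n
        rw [h1, h2]
        by_cases hnS : n ∈ S
        · have h3 : |(n : ℝ)| ≤ (63 / 64) * kap i := by
            by_contra h
            rw [not_le] at h
            exact hn ⟨hnS, h⟩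
          have h4 : n ∈ I := by
            refine hI n (lt_of_le_of_lt h3 ?_)
            have := kap_pos i
            linarith
          rw [if_pos h4, hc1 n h3]
          ring
        · rw [hf.2.2 n hnS]
          simp
    · refine tp_of_eq (hPa hfc) fun n _ hn => ?_
      have h1 := hd n (hnz hn).1
      exact ⟨hS n (hnz hn).2, h1.1, h1.2⟩
    · refine tp_of_eq (hPp hfc) fun n _ hn => ?_
      have h1 := hd n (he n (hnz hn).1)
      exact ⟨hS n (hnz hn).2, h1.1, h1.2⟩
  · intro f hf hT x
    obtain ⟨a, ha, hfa'⟩ := hT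
    have hfa : ∀ x, (f x : ℂ) = ∑ n ∈ a.support, a n * ee n x := fun x => hfa' x
    have h1 : (fun x => (f x : ℂ)) = fun x => ∑ n ∈ a.support, a n * ee n x := by
      funext x
      exact hfa x
    have h2 : (Lo i f x : ℂ) = (f x : ℂ) := by
      rw [hLo hf.1, hfa x, h1]
      have h3 : ∀ n ∈ I, 2 * c n * fc (fun x => ∑ n ∈ a.support, a n * ee n x) n * ee n x =
          a n * ee n x := by
        intro n _
        rw [fc_sum]
        by_cases hn : n ∈ a.support
        · rw [if_pos hn, hc1 n (ha n hn)]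
          ring
        · rw [if_neg hn, Finsupp.notMem_support_iff.1 hn]
          ring
      rw [Finset.sum_congr rfl h3]
      symm
      refine Finset.sum_subset ?_ ?_
      · intro n hn
        refine hI n (lt_of_le_of_lt (ha n hn) ?_)
        have := kap_pos i
        linarith
      · intro n _ hn
        rw [Finsupp.notMem_support_iff.1 hn]
        ring
    exact_mod_cast h2
  · intro f S hf hS x
    have hfc := hre hf.1
    have h1 : (Pa i f x : ℂ) = 0 := by
      rw [hPa hfc]
      refine Finset.sum_eq_zero fun n _ => ?_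
      by_cases hn : n ∈ S
      · have h2 : d n = 0 := by
          by_contra h
          have h3 := hd n h
          rcases hS n hn with h4 | h4
          · linarith [h3.1]
          · linarith [h3.2]
        rw [h2]
        ring
      · rw [hf.2.2 n hn]
        ring
    exact_mod_cast h1

end

end Pool.Agent.C1E
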