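import Pool.Agent.Lib.MP_c1e222_an.Cnv

/-!
# MP_c1e222_an, row Pos (section 5): positivity at fixed time
-/

namespace Pool.Agent.C1E

open MeasureTheory Set Filter Topology intervalIntegral

noncomputable section

namespace PosAux

/-! ## continuity of the kernels -/

theorem continuous_Dir (a : ℕ) : Continuous (Dir a) := by
  unfold Dir
  fun_prop

theorem continuous_V (i : ℕ) : Continuous (V i) := by
  have h1 := continuous_Dir (vb i)
  have h2 := continuous_Dir (va i)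
  unfold V
  exact (continuous_const.mul h1).mul ((h2.div_const _).pow 3)

theorem continuous_A (i : ℕ) : Continuous (A i) := by
  unfold A
  exact (continuous_V (i + 1)).sub (continuous_V i)

theorem continuous_Pa (i : ℕ) {f : ℝ → ℝ} (hf : Continuous f) : Continuous (Pa i f) :=
  continuous_conv (continuous_A i) hf

theorem continuous_Lo (i : ℕ) {f : ℝ → ℝ} (hf : Continuous f) : Continuous (Lo i f) :=
  continuous_conv (continuous_V i) hf

/-! ## double integrals -/

theorem D_mono {F G : ℝ → ℝ → ℝ} (hF : Continuous (Function.uncurry F))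
    (hG : Continuous (Function.uncurry G)) (h : ∀ x y, F x y ≤ G x y) :
    (cint fun x => cint fun y => F x y) ≤ cint fun x => cint fun y => G x y := by
  refine cint_mono (continuous_cint hF) (continuous_cint hG) fun x => ?_
  exact cint_mono (hF.comp (Continuous.prodMk_right x)) (hG.comp (Continuous.prodMk_right x)) (h x)

theorem lin3 {f g h : ℝ → ℝ} (hf : Continuous f) (hg : Continuous g) (hh : Continuous h)
    (a b c : ℝ) : (cint fun x => a * f x + (b * g x + c * h x)) =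
      a * cint f + (b * cint g + c * cint h) := by
  have k1 : Continuous fun x => a * f x := continuous_const.mul hf
  have k2 : Continuous fun x => b * g x := continuous_const.mul hg
  have k3 : Continuous fun x => c * h x := continuous_const.mul hh
  have k4 : Continuous fun x => b * g x + c * h x := k2.add k3
  rw [cint_add k1 k4, cint_add k2 k3, cint_mul_left, cint_mul_left, cint_mul_left]

theorem D_lin3 {F₁ F₂ F₃ : ℝ → ℝ → ℝ} (h1 : Continuous (Function.uncurry F₁))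
    (h2 : Continuous (Function.uncurry F₂)) (h3 : Continuous (Function.uncurry F₃)) (a b c : ℝ) :
    (cint fun x => cint fun y => a * F₁ x y + (b * F₂ x y + c * F₃ x y)) =
      a * (cint fun x => cint fun y => F₁ x y) + (b * (cint fun x => cint fun y => F₂ x y)
        + c * (cint fun x => cint fun y => F₃ x y)) := by
  have e : ∀ {F : ℝ → ℝ → ℝ}, Continuous (Function.uncurry F) → ∀ x, Continuous (F x) :=
    fun h x => h.comp (Continuous.prodMk_right x)
  have s1 : ∀ x, (cint fun y => a * F₁ x y + (b * F₂ x y + c * F₃ x y)) =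
      a * cint (F₁ x) + (b * cint (F₂ x) + c * cint (F₃ x)) := fun x =>
    lin3 (e h1 x) (e h2 x) (e h3 x) a b c
  rw [cint_congr s1]
  exact lin3 (continuous_cint h1) (continuous_cint h2) (continuous_cint h3) a b c

theorem D_prod (f g : ℝ → ℝ) :
    (cint fun x => cint fun y => f x * g y) = cint f * cint g := by
  have h : ∀ x, (cint fun y => f x * g y) = f x * cint g := fun x => cint_mul_left _ _
  rw [cint_congr h, cint_mul_right]

/-- `F ≤ a G + b f(x) g(y)` -/
theorem D_le {F G : ℝ → ℝ → ℝ} {f g : ℝ → ℝ} (hF : Continuous (Function.uncurry F))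
    (hG : Continuous (Function.uncurry G)) (hf : Continuous f) (hg : Continuous g) {a b : ℝ}
    (h : ∀ x y, F x y ≤ a * G x y + b * (f x * g y)) :
    (cint fun x => cint fun y => F x y) ≤
      a * (cint fun x => cint fun y => G x y) + b * (cint f * cint g) := by
  have hfg : Continuous (Function.uncurry fun x y => f x * g y) := by
    have : Continuous fun p : ℝ × ℝ => f p.1 * g p.2 := by fun_prop
    exact this
  have hR : Continuous (Function.uncurry fun x y => a * G x y + (b * (f x * g y)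
      + 0 * (f x * g y))) := by
    have : Continuous fun p : ℝ × ℝ => a * Function.uncurry G p + (b * (f p.1 * g p.2)
      + 0 * (f p.1 * g p.2)) := by fun_prop
    exact this
  refine (D_mono hF hR fun x y => ?_).trans (le_of_eq ?_)
  · have := h x y; linarith
  · rw [D_lin3 hG hfg hfg, D_prod]; ring

/-- weighted Bernstein, integrated in the second variable -/
theorem wb_int {K K' U U' a ρ s : ℝ → ℝ} (hK : Continuous K) (hK' : Continuous K')
    (hU : Continuous U) (hU' : Continuous U') (ha : Continuous a) (hρ : Continuous ρ)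
    (hs : Continuous s) {β γ B A₁ A₂ : ℝ}
    (K0 : ∀ x, 0 ≤ K x) (hβ : ∀ x, K' x ≤ β * K x) (hγ : ∀ x, (U' x) ^ 2 ≤ γ)
    (hB : ∀ x, K x ≤ B)
    (h : ∀ y, A₁ * cint (fun x => K (x - y) * (U x) ^ 2 * (ρ x) ^ 2) ≤
      A₂ * cint (fun x => K (x - y) * (U x) ^ 2 * (a x) ^ 2)
      + 202 * cint (fun x => (K' (x - y) * (U x) ^ 2 + K (x - y) * (U' x) ^ 2) * (a x) ^ 2)) :
    A₁ * (cint fun y => cint fun x => K (x - y) * (U x) ^ 2 * (ρ x) ^ 2 * (s y) ^ 2) ≤
      (A₂ + 202 * β) * (cint fun y => cint fun x => K (x - y) * (U x) ^ 2 * (a x) ^ 2 * (s y) ^ 2)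
        + 202 * (γ * B * ((cint fun x => (a x) ^ 2) * cint fun y => (s y) ^ 2)) := by
  have hγ0 : 0 ≤ γ := (sq_nonneg _).trans (hγ 0)
  have hB0 : 0 ≤ B := (K0 0).trans (hB 0)
  have c1 : Continuous (Function.uncurry fun y x => K (x - y) * (U x) ^ 2 * (ρ x) ^ 2) := by
    have : Continuous fun p : ℝ × ℝ => K (p.2 - p.1) * (U p.2) ^ 2 * (ρ p.2) ^ 2 := by fun_prop
    exact this
  have c2 : Continuous (Function.uncurry fun y x => K (x - y) * (U x) ^ 2 * (a x) ^ 2) := by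
    have : Continuous fun p : ℝ × ℝ => K (p.2 - p.1) * (U p.2) ^ 2 * (a p.2) ^ 2 := by fun_prop
    exact this
  -- pointwise in `y`
  have h2 : ∀ y, cint (fun x => (K' (x - y) * (U x) ^ 2 + K (x - y) * (U' x) ^ 2) * (a x) ^ 2) ≤
      β * cint (fun x => K (x - y) * (U x) ^ 2 * (a x) ^ 2) + γ * B * cint fun x => (a x) ^ 2 := by
    intro y
    rw [← cint_mul_left, ← cint_mul_left, ← cint_add (by fun_prop) (by fun_prop)]
    refine cint_mono (by fun_prop) (by fun_prop) fun x => ?_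
    have e1 := hβ (x - y)
    have e2 := hγ x
    have e3 := hB (x - y)
    have e4 := K0 (x - y)
    have e5 : K' (x - y) * (U x) ^ 2 ≤ β * K (x - y) * (U x) ^ 2 :=
      mul_le_mul_of_nonneg_right e1 (sq_nonneg _)
    have e6 : K (x - y) * (U' x) ^ 2 ≤ γ * B := by
      rw [mul_comm γ B]
      exact mul_le_mul e3 e2 (sq_nonneg _) hB0
    have e7 := mul_le_mul_of_nonneg_right (add_le_add e5 e6) (sq_nonneg (a x))
    linarith
  have h3 : ∀ y, A₁ * (cint fun x => K (x - y) * (U x) ^ 2 * (ρ x) ^ 2 * (s y) ^ 2) ≤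
      (A₂ + 202 * β) * (cint fun x => K (x - y) * (U x) ^ 2 * (a x) ^ 2 * (s y) ^ 2)
        + 202 * (γ * B * (cint fun x => (a x) ^ 2)) * (s y) ^ 2 := by
    intro y
    rw [cint_mul_right, cint_mul_right]
    have e1 := h y
    have e2 := h2 y
    have e4 : A₁ * cint (fun x => K (x - y) * (U x) ^ 2 * (ρ x) ^ 2) ≤
        (A₂ + 202 * β) * cint (fun x => K (x - y) * (U x) ^ 2 * (a x) ^ 2)
          + 202 * (γ * B * cint fun x => (a x) ^ 2) := by linarith
    have e3 := mul_le_mul_of_nonneg_right e4 (sq_nonneg (s y))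
    linarith
  have m1 : Continuous fun y => cint fun x => K (x - y) * (U x) ^ 2 * (ρ x) ^ 2 * (s y) ^ 2 := by
    apply continuous_cint (F := fun y x => K (x - y) * (U x) ^ 2 * (ρ x) ^ 2 * (s y) ^ 2)
    have : Continuous fun p : ℝ × ℝ => K (p.2 - p.1) * (U p.2) ^ 2 * (ρ p.2) ^ 2 * (s p.1) ^ 2 := by
      fun_prop
    exact this
  have m2 : Continuous fun y => cint fun x => K (x - y) * (U x) ^ 2 * (a x) ^ 2 * (s y) ^ 2 := by
    apply continuous_cint (F := fun y x => K (x - y) * (U x) ^ 2 * (a x) ^ 2 * (s y) ^ 2)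
    have : Continuous fun p : ℝ × ℝ => K (p.2 - p.1) * (U p.2) ^ 2 * (a p.2) ^ 2 * (s p.1) ^ 2 := by
      fun_prop
    exact this
  have n1 : Continuous fun y => A₁ * (cint fun x => K (x - y) * (U x) ^ 2 * (ρ x) ^ 2 * (s y) ^ 2) :=
    continuous_const.mul m1
  have n2 : Continuous fun y => (A₂ + 202 * β) *
      (cint fun x => K (x - y) * (U x) ^ 2 * (a x) ^ 2 * (s y) ^ 2) := continuous_const.mul m2
  have n3 : Continuous fun y => 202 * (γ * B * (cint fun x => (a x) ^ 2)) * (s y) ^ 2 :=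
    continuous_const.mul (hs.pow 2)
  have n4 : Continuous fun y => (A₂ + 202 * β) *
      (cint fun x => K (x - y) * (U x) ^ 2 * (a x) ^ 2 * (s y) ^ 2)
        + 202 * (γ * B * (cint fun x => (a x) ^ 2)) * (s y) ^ 2 := n2.add n3
  have h4 := cint_mono n1 n4 h3
  rw [cint_mul_left, cint_add n2 n3, cint_mul_left, cint_mul_left] at h4
  linarith

theorem two_var {f : ℝ × ℝ → ℝ} (h : Continuous f) :
    Continuous (Function.uncurry fun x y => f (x, y)) := h

/-- `w_l² ≥ (24/100) a_l² - 6 a~_l²` -/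
theorem half_low (a b : ℝ) : (24 / 100) * a ^ 2 - 6 * b ^ 2 ≤ ((a - b) / 2) ^ 2 := by
  nlinarith [sq_nonneg (a - 25 * b)]

theorem half_up (a b : ℝ) : ((a - b) / 2) ^ 2 ≤ (26 / 100) * a ^ 2 + (13 / 2) * b ^ 2 := by
  nlinarith [sq_nonneg (a + 25 * b)]

theorem sq_cmp (a b : ℝ) : a ^ 2 ≤ (101 / 100) * b ^ 2 + 101 * (a - b) ^ 2 := by
  nlinarith [sq_nonneg (b - 100 * (a - b))]

theorem sq_three (a b c : ℝ) : (a + b + c) ^ 2 ≤ 3 * (a ^ 2 + b ^ 2 + c ^ 2) := by
  nlinarith [sq_nonneg (a - b), sq_nonneg (b - c), sq_nonneg (a - c)]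

theorem arith {p k T₁ T₂ Z Zj P N B s : ℝ} (hZ : 0 ≤ Z)
    (hb : Z ≤ (105 / 100) * (p * k * T₁) + 202 * B)
    (hc : (216 / 100) * (p * k * T₂) ≤ (101 / 100) * Zj + 202 * B)
    (hd : Zj ≤ (101 / 100) * Z + 606 * B) (hB : 0 ≤ B) (hp : 0 ≤ p) (hk : 0 ≤ k)
    (ha : (72 / 100) * T₁ - (78 / 100) * T₂ - 20 * s * N ≤ P) :
    Z ≤ (10 / 3) * (p * (k * P) + 433 * B + 20 * p * s * (k * N)) := by
  have h1 := mul_le_mul_of_nonneg_left ha (mul_nonneg hp hk)
  linarith

/-- `Z` against `T₁` -/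
theorem stepb {κ κi κ' q p T₁ Z B₀ Ck Cs i1 i2 : ℝ} (h0 : 0 < κi) (hκ : q * κi = κ)
    (hq : 1000 ≤ q) (hκ' : κ' = 65 / 64 * κ) (hp : 9 ≤ p) (hT : 0 ≤ T₁) (hCk : 0 < Ck)
    (hCs : 1 ≤ Cs) (hi1 : i1 ≤ Cs / κ ^ 2) (hi2 : i2 ≤ Cs) (h2 : 0 ≤ i2)
    (hB : B₀ = Ck * Cs ^ 3)
    (h : 1 * Z ≤ ((101 / 100) * p * (κ' + κi + κi) ^ 2 + 202 * (q ^ 2 / 10 ^ 6 * κi ^ 2)) * T₁
      + 202 * (Cs * κi * (Ck * κi) * (i1 * i2))) :
    Z ≤ (105 / 100) * (p * κ ^ 2 * T₁) + 202 * B₀ := by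
  have hκ0 : 0 < κ := by rw [← hκ]; positivity
  have e1 : κi ≤ κ / 1000 := by
    rw [le_div_iff₀ (by norm_num), ← hκ]; nlinarith
  have e2 : (κ' + κi + κi) ^ 2 ≤ (1036 / 1000) * κ ^ 2 := by
    have e3 : κ' + κi + κi ≤ (10177 / 10000) * κ := by rw [hκ']; linarith
    have e4 : 0 ≤ κ' + κi + κi := by rw [hκ']; positivity
    calc (κ' + κi + κi) ^ 2 ≤ ((10177 / 10000) * κ) ^ 2 := pow_le_pow_left₀ e4 e3 2
      _ ≤ (1036 / 1000) * κ ^ 2 := by nlinarith [sq_nonneg κ]
  have e5 : q ^ 2 / 10 ^ 6 * κi ^ 2 = κ ^ 2 / 10 ^ 6 := by rw [← hκ]; ring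
  have e6 : (101 / 100) * p * (κ' + κi + κi) ^ 2 + 202 * (q ^ 2 / 10 ^ 6 * κi ^ 2) ≤
      (105 / 100) * (p * κ ^ 2) := by
    rw [e5]
    have e7 : (101 / 100) * p * (κ' + κi + κi) ^ 2 ≤ (101 / 100) * p * ((1036 / 1000) * κ ^ 2) :=
      mul_le_mul_of_nonneg_left e2 (by positivity)
    have e8 : 9 * κ ^ 2 ≤ p * κ ^ 2 := mul_le_mul_of_nonneg_right hp (sq_nonneg _)
    linarith [sq_nonneg κ]
  have e9 := mul_le_mul_of_nonneg_right e6 hT
  have e10 : Cs * κi * (Ck * κi) * (i1 * i2) ≤ B₀ := by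
    have f1 : i1 * i2 ≤ Cs / κ ^ 2 * Cs := mul_le_mul hi1 hi2 h2 (by positivity)
    have f2 : κi ^ 2 ≤ κ ^ 2 := pow_le_pow_left₀ h0.le (by linarith) 2
    calc Cs * κi * (Ck * κi) * (i1 * i2) ≤ Cs * κi * (Ck * κi) * (Cs / κ ^ 2 * Cs) :=
          mul_le_mul_of_nonneg_left f1 (by positivity)
      _ = (Ck * Cs ^ 3) * (κi ^ 2 / κ ^ 2) := by ring
      _ ≤ (Ck * Cs ^ 3) * 1 := by
          refine mul_le_mul_of_nonneg_left ?_ (by positivity)
          rw [div_le_one (by positivity)]; exact f2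
      _ = B₀ := by rw [hB, mul_one]
  linarith

/-- `T₂` against `Zj` -/
theorem stepc {κ κi κj κm q p T₂ Zj B₀ Ck Cs i1 i2 : ℝ} (h0 : 0 < κi) (hκ : q * κi = κ)
    (hq : 1000 ≤ q) (hκj : q * κm = κj) (hs : 3 * κ ≤ 2 * κj) (hp : 9 ≤ p) (hT : 0 ≤ T₂)
    (hCk : 0 < Ck) (hCs : 1 ≤ Cs) (hi1 : i1 ≤ Cs / κj ^ 2) (hi2 : i2 ≤ Cs)
    (h2 : 0 ≤ i2) (hB : B₀ = Ck * Cs ^ 3)
    (h : -(101 / 100) * Zj ≤ (-(p * ((63 / 64) * κj - κm - κi) ^ 2)
        + 202 * (q ^ 2 / 10 ^ 6 * κi ^ 2)) * T₂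
      + 202 * (Cs * κm * (Ck * κi) * (i1 * i2))) :
    (216 / 100) * (p * κ ^ 2 * T₂) ≤ (101 / 100) * Zj + 202 * B₀ := by
  have hκ0 : 0 < κ := by rw [← hκ]; positivity
  have hκj0 : 0 < κj := by linarith
  have hm0 : 0 < κm := by
    by_contra hc
    have : q * κm ≤ 0 := mul_nonpos_of_nonneg_of_nonpos (by linarith) (not_lt.1 hc)
    linarith
  have e1 : κi ≤ κ / 1000 := by
    rw [le_div_iff₀ (by norm_num), ← hκ]; nlinarith
  have e1' : κm ≤ κj / 1000 := by
    rw [le_div_iff₀ (by norm_num), ← hκj]; nlinarith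
  have e2 : (964 / 1000) * κj ^ 2 ≤ ((63 / 64) * κj - κm - κi) ^ 2 := by
    have e3 : (9823 / 10000) * κj ≤ (63 / 64) * κj - κm - κi := by linarith
    calc (964 / 1000) * κj ^ 2 ≤ ((9823 / 10000) * κj) ^ 2 := by nlinarith [sq_nonneg κj]
      _ ≤ _ := pow_le_pow_left₀ (by positivity) e3 2
  have e5 : q ^ 2 / 10 ^ 6 * κi ^ 2 = κ ^ 2 / 10 ^ 6 := by rw [← hκ]; ring
  have e4 : (9 / 4) * κ ^ 2 ≤ κj ^ 2 := by
    have := pow_le_pow_left₀ (by positivity) hs 2
    nlinarith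
  have e6 : (216 / 100) * (p * κ ^ 2) ≤ p * ((63 / 64) * κj - κm - κi) ^ 2
      - 202 * (q ^ 2 / 10 ^ 6 * κi ^ 2) := by
    rw [e5]
    have e7 : p * ((964 / 1000) * κj ^ 2) ≤ p * ((63 / 64) * κj - κm - κi) ^ 2 :=
      mul_le_mul_of_nonneg_left e2 (by linarith)
    have e8 : 9 * κ ^ 2 ≤ p * κ ^ 2 := mul_le_mul_of_nonneg_right hp (sq_nonneg _)
    have e9 : p * ((9 / 4) * κ ^ 2) ≤ p * κj ^ 2 := mul_le_mul_of_nonneg_left e4 (by linarith)
    linarith [sq_nonneg κ]
  have e9 := mul_le_mul_of_nonneg_right e6 hT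
  have e10 : Cs * κm * (Ck * κi) * (i1 * i2) ≤ B₀ := by
    have f1 : i1 * i2 ≤ Cs / κj ^ 2 * Cs := mul_le_mul hi1 hi2 h2 (by positivity)
    have f2 : κm * κi ≤ κj ^ 2 := by
      rw [sq]
      exact mul_le_mul (by linarith) (by linarith) h0.le hκj0.le
    calc Cs * κm * (Ck * κi) * (i1 * i2) ≤ Cs * κm * (Ck * κi) * (Cs / κj ^ 2 * Cs) :=
          mul_le_mul_of_nonneg_left f1 (by positivity)
      _ = (Ck * Cs ^ 3) * (κm * κi / κj ^ 2) := by ring
      _ ≤ (Ck * Cs ^ 3) * 1 := by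
          refine mul_le_mul_of_nonneg_left ?_ (by positivity)
          rw [div_le_one (by positivity)]; exact f2
      _ = B₀ := by rw [hB, mul_one]
  linarith

end PosAux

open PosAux

/-- row Pos -/
theorem pos_proof (hBern : BernStatement) (hKKr : KKrStatement) (hSize : SizeStatement)
    (hIdn : IdnStatement) : PosStatement := by
  intro M hM E
  obtain ⟨c, Ck, hc, hCk, hK⟩ := hKKr
  obtain ⟨Cs, hCs, hS⟩ := hSize E
  obtain ⟨hI1, hI2⟩ := hIdn
  obtain ⟨-, hWp, hWm⟩ := hBern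
  obtain ⟨hQ1, hgood⟩ := hM
  set Q : ℝ := (65 / 64 : ℝ) ^ M with hQ
  have hQ0 : 0 < Q := by linarith
  have hCs0 : 0 < Cs := by linarith
  have hpi : 0 < Real.pi := Real.pi_pos
  have hp9 : 9 ≤ Real.pi ^ 2 := by nlinarith [Real.pi_gt_three]
  set G : ℝ := 2 * Q / c with hG
  have hG0 : 0 < G := by positivity
  refine ⟨G * (10 / 3) * Real.pi ^ 2,
    G * (10 / 3) * (433 * (Ck * Cs ^ 3) + 20 * Real.pi ^ 2 * Cs ^ 2) + 2 * Q * Cs ^ 3,
    by positivity, by positivity, ?_⟩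
  intro u r hp l j hl hj
  obtain ⟨-, huu, hi⟩ := hS u r hp
  have hcpu : CP u := ⟨hp.cu, hp.pu⟩
  have hcpr : CP r := ⟨hp.cr, hp.pr⟩
  have hlj : l ≤ j := hj.le
  obtain ⟨hKc, hK1c, -, -, hKe, -, hKlo, hKup, -⟩ := hK (l - M)
  have hgi := hgood (l - M)
  -- scales
  have hκ : Q * kap (l - M) = kap l := kap_sub hl
  have hκj : Q * kap (j - M) = kap j := kap_sub (hl.trans hlj)
  have hki := kap_pos (l - M)
  have hkm := kap_pos (j - M)
  have hkl := kap_pos l
  have hkj := kap_pos j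
  have hkim : kap (l - M) ≤ kap (j - M) := kap_mono (by omega)
  -- sizes
  obtain ⟨sl1, sl2, sl3, -, -, -, -, -, -, -, -, -, -, -⟩ := hi (l - M)
  obtain ⟨sj1, sj2, sj3, -, -, -, -, -, -, -, -, -, -, -⟩ := hi (j - M)
  obtain ⟨-, -, -, -, -, -, -, tl8, tl9, -, -, -, -, -⟩ := hi l
  obtain ⟨-, -, -, -, -, -, -, tj8, tj9, -, -, -, -, -⟩ := hi j
  -- continuity
  have cu : Continuous u := hp.cu
  have cUl : Continuous (Lo (l - M) u) := continuous_Lo _ hp.cu
  have cUj : Continuous (Lo (j - M) u) := continuous_Lo _ hp.cu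
  have crl : Continuous (Pa l r) := continuous_Pa _ hp.cr
  have crj : Continuous (Pa j r) := continuous_Pa _ hp.cr
  have cal : Continuous (Pp l r) :=
    continuous_iff_continuousAt.2 fun x => (hI1 l r hcpr x).continuousAt
  have caj : Continuous (Pp j r) :=
    continuous_iff_continuousAt.2 fun x => (hI1 j r hcpr x).continuousAt
  have cwl : Continuous (Pa l u) := continuous_Pa _ hp.cu
  have cwj : Continuous (Pa j u) := continuous_Pa _ hp.cu
  have cdU : ∀ i, Continuous (deriv (Lo i u)) := by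
    intro i
    have e : deriv (Lo i u) = fun x => (Lo i r x + Lo i r (-x)) / 2 :=
      funext fun x => ((hI2 E u r hp i x).2.1).deriv
    rw [e]
    have := continuous_Lo i hp.cr
    fun_prop
  have cdUl := cdU (l - M)
  have cdUj := cdU (j - M)
  have cth : Continuous (th l) := continuous_th l
  have K0 : ∀ x, 0 ≤ KK (l - M) x := fun x =>
    (mul_nonneg hc.le (th_nonneg _ x)).trans (hKlo x)
  have hKB : ∀ x, KK (l - M) x ≤ Ck * kap (l - M) := fun x =>
    (hKup x).trans (mul_le_mul_of_nonneg_left (th_le_kap _ x) hCk.le)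
  have hwl : ∀ x, Pa l u x = (Pp l r x - Pp l r (-x)) / 2 := fun x => (hI2 E u r hp l x).1
  have hwj : ∀ x, Pa j u x = (Pp j r x - Pp j r (-x)) / 2 := fun x => (hI2 E u r hp j x).1
  have ni2 : 0 ≤ cint fun x => (Pa j r x) ^ 2 := cint_nonneg fun x => sq_nonneg _
  have ni4 : 0 ≤ cint fun x => (Pa l r x) ^ 2 := cint_nonneg fun x => sq_nonneg _
  -- the double integrals
  have cZ : Continuous (Function.uncurry fun x y =>
      KK (l - M) (x - y) * (Lo (l - M) u x) ^ 2 * (Pa l r x) ^ 2 * (Pa j r y) ^ 2) :=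
    two_var (f := fun p => KK (l - M) (p.1 - p.2) * (Lo (l - M) u p.1) ^ 2 * (Pa l r p.1) ^ 2
      * (Pa j r p.2) ^ 2) (by fun_prop)
  have cT1 : Continuous (Function.uncurry fun x y =>
      KK (l - M) (x - y) * (Lo (l - M) u x) ^ 2 * (Pp l r x) ^ 2 * (Pa j r y) ^ 2) :=
    two_var (f := fun p => KK (l - M) (p.1 - p.2) * (Lo (l - M) u p.1) ^ 2 * (Pp l r p.1) ^ 2
      * (Pa j r p.2) ^ 2) (by fun_prop)
  have cT2 : Continuous (Function.uncurry fun x y =>
      KK (l - M) (y - x) * (Lo (j - M) u y) ^ 2 * (Pp j r y) ^ 2 * (Pa l r x) ^ 2) :=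
    two_var (f := fun p => KK (l - M) (p.2 - p.1) * (Lo (j - M) u p.2) ^ 2 * (Pp j r p.2) ^ 2
      * (Pa l r p.1) ^ 2) (by fun_prop)
  have cZj : Continuous (Function.uncurry fun x y =>
      KK (l - M) (y - x) * (Lo (j - M) u y) ^ 2 * (Pa j r y) ^ 2 * (Pa l r x) ^ 2) :=
    two_var (f := fun p => KK (l - M) (p.2 - p.1) * (Lo (j - M) u p.2) ^ 2 * (Pa j r p.2) ^ 2
      * (Pa l r p.1) ^ 2) (by fun_prop)
  have cN : Continuous (Function.uncurry fun x y => KK (l - M) (x - y) *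
      ((Pp l r (-x)) ^ 2 * (Pa j r y) ^ 2 + (Pa l r x) ^ 2 * (Pp j r (-y)) ^ 2)) :=
    two_var (f := fun p => KK (l - M) (p.1 - p.2) *
      ((Pp l r (-p.1)) ^ 2 * (Pa j r p.2) ^ 2 + (Pa l r p.1) ^ 2 * (Pp j r (-p.2)) ^ 2))
      (by fun_prop)
  have cP : Continuous (Function.uncurry fun x y => KK (l - M) (x - y) *
      (FF M l u x * (Pa j r y) ^ 2 - (Pa l r x) ^ 2 * FF M j u y)) := by
    unfold FF
    exact two_var (f := fun p => KK (l - M) (p.1 - p.2) *
      (3 * (Lo (l - M) u p.1) ^ 2 * (Pa l u p.1) ^ 2 * (Pa j r p.2) ^ 2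
        - (Pa l r p.1) ^ 2 * (3 * (Lo (j - M) u p.2) ^ 2 * (Pa j u p.2) ^ 2))) (by fun_prop)
  set Z := cint fun x => cint fun y =>
    KK (l - M) (x - y) * (Lo (l - M) u x) ^ 2 * (Pa l r x) ^ 2 * (Pa j r y) ^ 2 with hZ
  set T₁ := cint fun x => cint fun y =>
    KK (l - M) (x - y) * (Lo (l - M) u x) ^ 2 * (Pp l r x) ^ 2 * (Pa j r y) ^ 2 with hT1
  set T₂ := cint fun x => cint fun y =>
    KK (l - M) (y - x) * (Lo (j - M) u y) ^ 2 * (Pp j r y) ^ 2 * (Pa l r x) ^ 2 with hT2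
  set Zj := cint fun x => cint fun y =>
    KK (l - M) (y - x) * (Lo (j - M) u y) ^ 2 * (Pa j r y) ^ 2 * (Pa l r x) ^ 2 with hZj
  set N := cint fun x => cint fun y => KK (l - M) (x - y) *
      ((Pp l r (-x)) ^ 2 * (Pa j r y) ^ 2 + (Pa l r x) ^ 2 * (Pp j r (-y)) ^ 2) with hN
  set P := cint fun x => cint fun y => KK (l - M) (x - y) *
      (FF M l u x * (Pa j r y) ^ 2 - (Pa l r x) ^ 2 * FF M j u y) with hP
  have Z0 : 0 ≤ Z := cint_nonneg fun x => cint_nonneg fun y => by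
    have := K0 (x - y); positivity
  have T10 : 0 ≤ T₁ := cint_nonneg fun x => cint_nonneg fun y => by
    have := K0 (x - y); positivity
  have T20 : 0 ≤ T₂ := cint_nonneg fun x => cint_nonneg fun y => by
    have := K0 (y - x); positivity
  have N0 : 0 ≤ N := cint_nonneg fun x => cint_nonneg fun y => by
    have := K0 (x - y); positivity
  -- (b)
  have hb : Z ≤ (105 / 100) * (Real.pi ^ 2 * (kap l) ^ 2 * T₁) + 202 * (Ck * Cs ^ 3) := by
    have h1 := wb_int (K := KK (l - M)) (K' := K1 (l - M)) (U := Lo (l - M) u)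
      (U' := deriv (Lo (l - M) u)) (a := Pp l r) (ρ := Pa l r) (s := Pa j r)
      (β := Q ^ 2 / 10 ^ 6 * (kap (l - M)) ^ 2) (γ := Cs * kap (l - M)) (B := Ck * kap (l - M))
      (A₁ := 1) (A₂ := (101 / 100) * Real.pi ^ 2 * (kap (l + 1) + kap (l - M) + kap (l - M)) ^ 2)
      hKc hK1c cUl cdUl cal crl crj K0 hgi sl3 hKB
      (fun y => by
        have := hWp (l - M) l (l - M) r u y hcpr hcpu
        rw [one_mul]; exact this)
    rw [← cint_swap cZ, ← cint_swap cT1] at h1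
    exact stepb hki hκ hQ1 (kap_succ l) hp9 T10 hCk hCs tl9 tj8 ni2 rfl h1
  -- (c)
  have hcc : (216 / 100) * (Real.pi ^ 2 * (kap l) ^ 2 * T₂) ≤
      (101 / 100) * Zj + 202 * (Ck * Cs ^ 3) := by
    have hcond : kap (l - M) + kap (j - M) ≤ (63 / 64) * kap j := by
      have : 1000 * kap (j - M) ≤ kap j := by
        rw [← hκj]; exact mul_le_mul_of_nonneg_right hQ1 hkm.le
      linarith
    have h1 := wb_int (K := KK (l - M)) (K' := K1 (l - M)) (U := Lo (j - M) u)
      (U' := deriv (Lo (j - M) u)) (a := Pp j r) (ρ := Pa j r) (s := Pa l r)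
      (β := Q ^ 2 / 10 ^ 6 * (kap (l - M)) ^ 2) (γ := Cs * kap (j - M)) (B := Ck * kap (l - M))
      (A₁ := -(101 / 100))
      (A₂ := -(Real.pi ^ 2 * ((63 / 64) * kap j - kap (j - M) - kap (l - M)) ^ 2))
      hKc hK1c cUj cdUj caj crj crl K0 hgi sj3 hKB
      (fun y => by
        have := hWm (l - M) j (j - M) r u y hcpr hcpu hcond
        linarith)
    exact stepc hki hκ hQ1 hκj hj hp9 T20 hCk hCs tj9 tl8 ni4 rfl h1
  -- (d)
  have hd : Zj ≤ (101 / 100) * Z + 606 * (Ck * Cs ^ 3) := by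
    have h1 := D_le (f := fun x => (Pa l r x) ^ 2) (g := fun y => (Pa j r y) ^ 2) cZj cZ
      (crl.pow 2) (crj.pow 2) (a := 101 / 100) (b := 606 * (Ck * Cs)) (fun x y => by
        have e0 : KK (l - M) (y - x) = KK (l - M) (x - y) := by rw [← hKe, neg_sub]
        simp only [e0]
        have e1 := sq_cmp (Lo (j - M) u y) (Lo (l - M) u x)
        have e2 := sq_three (Lo (j - M) u y - u y) (u y - u x) (u x - Lo (l - M) u x)
        have e3 : Lo (j - M) u y - u y + (u y - u x) + (u x - Lo (l - M) u x) =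
          Lo (j - M) u y - Lo (l - M) u x := by ring
        rw [e3] at e2
        have e4 : (Lo (j - M) u y - u y) ^ 2 ≤ Cs / kap (j - M) := by
          have := sj1 y
          rw [← neg_sub, neg_sq] at this; exact this
        have e5 : (u y - u x) ^ 2 ≤ Cs * dl (x - y) := by
          rw [dl_sub_comm x y]; exact huu y x
        have e6 := sl1 x
        have e7 : Cs / kap (j - M) ≤ Cs / kap (l - M) :=
          div_le_div_of_nonneg_left hCs0.le hki hkim
        have e8 : (Lo (j - M) u y - Lo (l - M) u x) ^ 2 ≤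
            6 * Cs * (dl (x - y) + 1 / kap (l - M)) := by
          have e9 : Cs / kap (l - M) = Cs * (1 / kap (l - M)) := by ring
          rw [e9] at e6 e7
          have := mul_nonneg hCs0.le (dl_nonneg (x - y))
          linarith
        have e10 : KK (l - M) (x - y) * (dl (x - y) + 1 / kap (l - M)) ≤ Ck := by
          have f1 : 0 ≤ dl (x - y) + 1 / kap (l - M) := by
            have := dl_nonneg (x - y); positivity
          have f2 := mul_le_mul_of_nonneg_right (hKup (x - y)) f1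
          have f3 := mul_le_mul_of_nonneg_left (th_mul_le (l - M) (x - y)) hCk.le
          linarith
        have e11 : KK (l - M) (x - y) * (Lo (j - M) u y) ^ 2 ≤
            (101 / 100) * (KK (l - M) (x - y) * (Lo (l - M) u x) ^ 2) + 606 * (Ck * Cs) := by
          have f1 := mul_le_mul_of_nonneg_left e1 (K0 (x - y))
          have f2 := mul_le_mul_of_nonneg_left e8 (K0 (x - y))
          have f3 := mul_le_mul_of_nonneg_left e10 (by positivity : 0 ≤ 6 * Cs)
          linarith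
        have e12 : 0 ≤ (Pa l r x) ^ 2 * (Pa j r y) ^ 2 := by positivity
        have e13 := mul_le_mul_of_nonneg_right e11 e12
        linarith)
    have h2 : (cint fun x => (Pa l r x) ^ 2) * (cint fun y => (Pa j r y) ^ 2) ≤ Cs * Cs :=
      mul_le_mul tl8 tj8 ni2 hCs0.le
    have h3 := mul_le_mul_of_nonneg_left h2 (by positivity : 0 ≤ 606 * (Ck * Cs))
    have h4 : 606 * (Ck * Cs) * (Cs * Cs) = 606 * (Ck * Cs ^ 3) := by ring
    linarith
  -- (a)
  have ha : (72 / 100) * T₁ - (78 / 100) * T₂ - 20 * Cs ^ 2 * N ≤ P := by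
    have h1 : (cint fun x => cint fun y =>
        (72 / 100) * (KK (l - M) (x - y) * (Lo (l - M) u x) ^ 2 * (Pp l r x) ^ 2 * (Pa j r y) ^ 2)
        + (-(78 / 100) * (KK (l - M) (y - x) * (Lo (j - M) u y) ^ 2 * (Pp j r y) ^ 2
            * (Pa l r x) ^ 2)
          + (-(20 * Cs ^ 2)) * (KK (l - M) (x - y) *
      ((Pp l r (-x)) ^ 2 * (Pa j r y) ^ 2 + (Pa l r x) ^ 2 * (Pp j r (-y)) ^ 2)))) ≤ P := by
      refine D_mono ?_ cP fun x y => ?_
      · have : Continuous fun p : ℝ × ℝ => (72 / 100) * (KK (l - M) (p.1 - p.2)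
            * (Lo (l - M) u p.1) ^ 2 * (Pp l r p.1) ^ 2 * (Pa j r p.2) ^ 2)
          + (-(78 / 100) * (KK (l - M) (p.2 - p.1) * (Lo (j - M) u p.2) ^ 2 * (Pp j r p.2) ^ 2
            * (Pa l r p.1) ^ 2)
          + (-(20 * Cs ^ 2)) * (KK (l - M) (p.1 - p.2) *
            ((Pp l r (-p.1)) ^ 2 * (Pa j r p.2) ^ 2 + (Pa l r p.1) ^ 2 * (Pp j r (-p.2)) ^ 2))) := by
          fun_prop
        exact this
      · have e0 : KK (l - M) (y - x) = KK (l - M) (x - y) := by rw [← hKe, neg_sub]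
        rw [e0]
        unfold FF
        rw [hwl x, hwj y]
        have e1 := half_low (Pp l r x) (Pp l r (-x))
        have e2 := half_up (Pp j r y) (Pp j r (-y))
        have hsq : ∀ {a : ℝ}, |a| ≤ Cs → a ^ 2 ≤ Cs ^ 2 := fun {a} h => by
          rw [← sq_abs]; exact pow_le_pow_left₀ (abs_nonneg _) h 2
        have e3 := hsq (sl2 x)
        have e4 := hsq (sj2 y)
        have f1 : (72 / 100) * ((Lo (l - M) u x) ^ 2 * (Pp l r x) ^ 2)
            - 20 * Cs ^ 2 * (Pp l r (-x)) ^ 2 ≤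
            3 * (Lo (l - M) u x) ^ 2 * ((Pp l r x - Pp l r (-x)) / 2) ^ 2 := by
          have g1 := mul_le_mul_of_nonneg_left e1 (by positivity : 0 ≤ 3 * (Lo (l - M) u x) ^ 2)
          have g2 := mul_le_mul_of_nonneg_right e3 (sq_nonneg (Pp l r (-x)))
          linarith [mul_nonneg (sq_nonneg Cs) (sq_nonneg (Pp l r (-x)))]
        have f2 : 3 * (Lo (j - M) u y) ^ 2 * ((Pp j r y - Pp j r (-y)) / 2) ^ 2 ≤
            (78 / 100) * ((Lo (j - M) u y) ^ 2 * (Pp j r y) ^ 2)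
            + 20 * Cs ^ 2 * (Pp j r (-y)) ^ 2 := by
          have g1 := mul_le_mul_of_nonneg_left e2 (by positivity : 0 ≤ 3 * (Lo (j - M) u y) ^ 2)
          have g2 := mul_le_mul_of_nonneg_right e4 (sq_nonneg (Pp j r (-y)))
          linarith [mul_nonneg (sq_nonneg Cs) (sq_nonneg (Pp j r (-y)))]
        have f3 := mul_le_mul_of_nonneg_right f1 (sq_nonneg (Pa j r y))
        have f4 := mul_le_mul_of_nonneg_left f2 (sq_nonneg (Pa l r x))
        have f5 := mul_le_mul_of_nonneg_left (sub_le_sub f3 f4) (K0 (x - y))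
        linarith
    rw [D_lin3 cT1 cT2 cN] at h1
    linarith
  -- (f)
  have hf : xx l j u r ≤ G * Z + 2 * Q * Cs ^ 3 := by
    have cX : Continuous (Function.uncurry fun x y =>
        th l (x - y) * (u x) ^ 2 * (Pa l r x) ^ 2 * (Pa j r y) ^ 2) :=
      two_var (f := fun p => th l (p.1 - p.2) * (u p.1) ^ 2 * (Pa l r p.1) ^ 2
        * (Pa j r p.2) ^ 2) (by fun_prop)
    have h1 := D_le (f := fun x => (Pa l r x) ^ 2) (g := fun y => (Pa j r y) ^ 2) cX cZ
      (crl.pow 2) (crj.pow 2) (a := G) (b := 2 * Q * Cs) (fun x y => by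
        have e1 : th l (x - y) ≤ Q * th (l - M) (x - y) := by
          have := th_add_le (l - M) M (x - y)
          rwa [Nat.sub_add_cancel hl] at this
        have e2 := sl1 x
        have e3 : (u x) ^ 2 ≤ 2 * (Lo (l - M) u x) ^ 2 + 2 * (Cs / kap (l - M)) := by
          nlinarith [sq_nonneg (u x - 2 * Lo (l - M) u x)]
        have e4 := th_nonneg l (x - y)
        have e5 : th l (x - y) ≤ Q * kap (l - M) := by rw [hκ]; exact th_le_kap l _
        have e6 : th l (x - y) * (Cs / kap (l - M)) ≤ Q * Cs := by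
          have := mul_le_mul_of_nonneg_right e5 (by positivity : 0 ≤ Cs / kap (l - M))
          have h7 : Q * kap (l - M) * (Cs / kap (l - M)) = Q * Cs := by
            field_simp
          rwa [h7] at this
        have e7 : 2 * th l (x - y) ≤ G * KK (l - M) (x - y) := by
          have h8 := mul_le_mul_of_nonneg_left (hKlo (x - y)) hG0.le
          have h9 : G * (c * th (l - M) (x - y)) = 2 * (Q * th (l - M) (x - y)) := by
            rw [hG]; field_simp
          rw [h9] at h8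
          linarith
        have e8 : th l (x - y) * (u x) ^ 2 ≤
            G * (KK (l - M) (x - y) * (Lo (l - M) u x) ^ 2) + 2 * Q * Cs := by
          have g1 := mul_le_mul_of_nonneg_left e3 e4
          have g2 := mul_le_mul_of_nonneg_right e7 (sq_nonneg (Lo (l - M) u x))
          linarith
        have e12 : 0 ≤ (Pa l r x) ^ 2 * (Pa j r y) ^ 2 := by positivity
        have e13 := mul_le_mul_of_nonneg_right e8 e12
        linarith)
    have h2 : (cint fun x => (Pa l r x) ^ 2) * (cint fun y => (Pa j r y) ^ 2) ≤ Cs * Cs :=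
      mul_le_mul tl8 tj8 ni2 hCs0.le
    have h3 := mul_le_mul_of_nonneg_left h2 (by positivity : 0 ≤ 2 * Q * Cs)
    unfold xx
    have h4 : 2 * Q * Cs * (Cs * Cs) = 2 * Q * Cs ^ 3 := by ring
    linarith
  -- end
  have hZZ := arith (p := Real.pi ^ 2) (k := (kap l) ^ 2) (T₁ := T₁) (T₂ := T₂) (Z := Z) (Zj := Zj)
    (P := P) (N := N) (B := Ck * Cs ^ 3) (s := Cs ^ 2) Z0 hb hcc hd (by positivity) (by positivity)
    (by positivity) ha
  have h1 := mul_le_mul_of_nonneg_left hZZ hG0.le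
  have h2 : 0 ≤ (kap l) ^ 2 * N := by positivity
  have h3 : 0 ≤ (G * (10 / 3) * (433 * (Ck * Cs ^ 3)) + 2 * Q * Cs ^ 3) * ((kap l) ^ 2 * N) := by
    positivity
  have h4 : 0 ≤ G * (10 / 3) * (20 * Real.pi ^ 2 * Cs ^ 2) := by positivity
  linarith

end

end Pool.Agent.C1E
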