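import Pool.Agent.Lib.MP_c1e222_an.Cnv

/-!
# MP_c1e222_an, row Rep: reproducing formulas
-/

namespace Pool.Agent.C1E

open MeasureTheory Set Filter Topology intervalIntegral

noncomputable section

/-- Row Rep. -/
theorem rep_proof (hM : MulStatement) (hS : SpcStatement) : RepStatement := by
  intro i f hf
  obtain ⟨hS1, -⟩ := hS
  have hSI : SI (fun x => (f x : ℂ)) Set.univ := by
    refine ⟨Complex.continuous_ofReal.comp hf.1, ?_, fun n hn => absurd (Set.mem_univ n) hn⟩
    intro x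
    simp only [hf.2 x]
  obtain ⟨-, -, h3, h4⟩ := (hM i).2.1 f _ hSI
  have key : ∀ g : ℝ → ℝ, TP (fun x => (g x : ℂ))
      {n | n ∈ (Set.univ : Set ℤ) ∧ (63 / 64) * kap i < |(n : ℝ)| ∧ |(n : ℝ)| < kap (i + 1)} →
      ∀ x, Lo (i + 3) g x = g x := by
    intro g hg
    have hg1 := hS1 _ _ hg
    have hgc : Continuous g := by
      have := Complex.continuous_re.comp hg1.1
      exact this
    have hgp : Function.Periodic g 2 := by
      intro x
      have h1 : (g (x + 2) : ℂ) = (g x : ℂ) := hg1.2.1 x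
      exact_mod_cast h1
    refine (hM (i + 3)).2.2.1 g ⟨hgc, hgp⟩ ?_
    obtain ⟨c, hc, e⟩ := hg
    refine ⟨c, fun n hn => ?_, e⟩
    have h1 := (hc n hn).2.2
    show |(n : ℝ)| ≤ 63 / 64 * kap (i + 3)
    have h2 : kap (i + 3) = (65 / 64) ^ 2 * kap (i + 1) := by
      rw [← kap_add]
    rw [h2]
    have h3 := kap_pos (i + 1)
    nlinarith
  exact fun x => ⟨key _ h3 x, key _ h4 x⟩

end

end Pool.Agent.C1E
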