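import Pool.Agent.Lib.MP_c1e222_an.Iface

/-!
# MP_c1e222_an, row Sa (helper65): the part (S1) of the source
-/

namespace Pool.Agent.C1E

open MeasureTheory Set Filter Topology

noncomputable section

namespace SaA

/-! ## tools -/

theorem cont_int {F : ℝ → ℝ → ℝ} (h : Continuous (Function.uncurry F)) (a b : ℝ) :
    Continuous fun t => ∫ x in a..b, F t x :=
  intervalIntegral.continuous_parametric_intervalIntegral_of_continuous' h a b

theorem cont_cint {F : ℝ → ℝ → ℝ} (h : Continuous (Function.uncurry F)) :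
    Continuous fun t => cint (F t) := cont_int h (-1) 1

theorem cont_cint2 {F : ℝ → ℝ → ℝ → ℝ} (h : Continuous fun p : (ℝ × ℝ) × ℝ => F p.1.1 p.1.2 p.2) :
    Continuous fun p : ℝ × ℝ => cint (F p.1 p.2) := by
  unfold cint
  exact intervalIntegral.continuous_parametric_intervalIntegral_of_continuous'
    (f := fun (p : ℝ × ℝ) y => F p.1 p.2 y) h (-1) 1

/-- joint continuity of a convolution -/
theorem cont_conv {P : ℝ → ℝ} (hP : Continuous P) {f : ℝ → ℝ → ℝ} (hf : Continuous (Function.uncurry f)) :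
    Continuous fun p : ℝ × ℝ => conv P (f p.1) p.2 := by
  unfold conv
  refine intervalIntegral.continuous_parametric_intervalIntegral_of_continuous'
    (f := fun (p : ℝ × ℝ) y => P (p.2 - y) * f p.1 y) ?_ (-1) 1
  have h1 : Continuous fun q : (ℝ × ℝ) × ℝ => P (q.1.2 - q.2) :=
    hP.comp (by fun_prop)
  have h2 : Continuous fun q : (ℝ × ℝ) × ℝ => f q.1.1 q.2 :=
    hf.comp (show Continuous fun q : (ℝ × ℝ) × ℝ => (q.1.1, q.2) by fun_prop)
  exact h1.mul h2

theorem ii {f : ℝ → ℝ} (h : Continuous f) (a b : ℝ) : IntervalIntegrable f volume a b :=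
  h.intervalIntegrable a b

/-- the double integral over time and one period -/
def dd (t0 t1 : ℝ) (F : ℝ → ℝ → ℝ) : ℝ := ∫ t in t0..t1, cint (F t)

theorem cint_mono {f g : ℝ → ℝ} (hf : Continuous f) (hg : Continuous g) (h : ∀ x, f x ≤ g x) :
    cint f ≤ cint g := by
  unfold cint
  exact intervalIntegral.integral_mono_on (by norm_num) (ii hf _ _) (ii hg _ _) (fun x _ => h x)

theorem cint_nonneg {f : ℝ → ℝ} (h : ∀ x, 0 ≤ f x) : 0 ≤ cint f := by
  unfold cint
  exact intervalIntegral.integral_nonneg (by norm_num) (fun x _ => h x)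

theorem dd_mono {t0 t1 : ℝ} (ht : t0 ≤ t1) {F G : ℝ → ℝ → ℝ} (hF : Continuous (Function.uncurry F))
    (hG : Continuous (Function.uncurry G)) (h : ∀ t x, F t x ≤ G t x) : dd t0 t1 F ≤ dd t0 t1 G := by
  unfold dd
  refine intervalIntegral.integral_mono_on ht (ii (cont_cint hF) _ _) (ii (cont_cint hG) _ _) (fun t _ => ?_)
  exact cint_mono (hF.comp (Continuous.prodMk_right t)) (hG.comp (Continuous.prodMk_right t)) (h t)

theorem dd_le {t0 t1 : ℝ} (ht : t0 ≤ t1) {F : ℝ → ℝ → ℝ} (hF : Continuous (Function.uncurry F)) {c : ℝ}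
    (h : ∀ t, cint (F t) ≤ c) : dd t0 t1 F ≤ c * (t1 - t0) := by
  unfold dd
  have := intervalIntegral.integral_mono_on ht (ii (cont_cint hF) _ _) (ii (continuous_const (y := c)) _ _)
    (fun t _ => h t)
  rw [intervalIntegral.integral_const, smul_eq_mul, mul_comm] at this
  exact this

theorem dd_add {t0 t1 : ℝ} {F G : ℝ → ℝ → ℝ} (hF : Continuous (Function.uncurry F))
    (hG : Continuous (Function.uncurry G)) :
    dd t0 t1 (fun t x => F t x + G t x) = dd t0 t1 F + dd t0 t1 G := by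
  unfold dd
  rw [← intervalIntegral.integral_add (ii (cont_cint hF) _ _) (ii (cont_cint hG) _ _)]
  congr 1
  funext t
  unfold cint
  exact intervalIntegral.integral_add (ii (hF.comp (Continuous.prodMk_right t)) _ _)
    (ii (hG.comp (Continuous.prodMk_right t)) _ _)

theorem dd_mul {t0 t1 : ℝ} {F : ℝ → ℝ → ℝ} (c : ℝ) :
    dd t0 t1 (fun t x => c * F t x) = c * dd t0 t1 F := by
  unfold dd
  rw [← intervalIntegral.integral_const_mul]
  congr 1
  funext t
  unfold cint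
  exact intervalIntegral.integral_const_mul _ _

theorem dd_sum {t0 t1 : ℝ} (S : Finset ℕ) (F : ℕ → ℝ → ℝ → ℝ)
    (hF : ∀ l, Continuous (Function.uncurry (F l))) :
    dd t0 t1 (fun t x => ∑ l ∈ S, F l t x) = ∑ l ∈ S, dd t0 t1 (F l) := by
  classical
  induction S using Finset.induction_on with
  | empty => simp [dd, cint]
  | insert a S ha ih =>
    rw [Finset.sum_insert ha, ← ih, ← dd_add (hF a) (by
      have : Continuous fun p : ℝ × ℝ => ∑ l ∈ S, F l p.1 p.2 := continuous_finsetSum _ (fun l _ => hF l)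
      exact this)]
    congr 1
    funext t x
    rw [Finset.sum_insert ha]

theorem dd_nonneg {t0 t1 : ℝ} (ht : t0 ≤ t1) {F : ℝ → ℝ → ℝ} (h : ∀ t x, 0 ≤ F t x) : 0 ≤ dd t0 t1 F := by
  unfold dd
  exact intervalIntegral.integral_nonneg ht (fun t _ => cint_nonneg (h t))

/-- Cauchy-Schwarz from the weighted inequality. -/
theorem cs {S G W : ℝ} (hG : 0 < G) (hW : 0 < W) (h : ∀ lam : ℝ, 0 < lam → S ≤ lam / 2 * G + W / (2 * lam)) :
    S ≤ Real.sqrt (G * W) := by
  have hg := Real.sqrt_pos.2 hG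
  have hw := Real.sqrt_pos.2 hW
  refine (h (Real.sqrt W / Real.sqrt G) (div_pos hw hg)).trans (le_of_eq ?_)
  rw [Real.sqrt_mul hG.le]
  have e1 := Real.mul_self_sqrt hG.le
  have e2 := Real.mul_self_sqrt hW.le
  field_simp
  nlinarith [e1, e2]

theorem kap_pos (i : ℕ) : 0 < kap i := by unfold kap; positivity

theorem kap_mono {i j : ℕ} (h : i ≤ j) : kap i ≤ kap j := by
  unfold kap
  exact mul_le_mul_of_nonneg_left (pow_le_pow_right₀ (by norm_num) h) (by norm_num)

theorem dl_cont : Continuous dl := by unfold dl; fun_prop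

theorem dl_nonneg (x : ℝ) : 0 ≤ dl x := abs_nonneg _

theorem th_cont (i : ℕ) : Continuous (th i) := by
  unfold th
  refine continuous_const.div ((continuous_const.add (continuous_const.mul dl_cont)).pow 2) (fun x => ?_)
  have := mul_nonneg (kap_pos i).le (dl_nonneg x)
  positivity

theorem th_nonneg (i : ℕ) (x : ℝ) : 0 ≤ th i x := by
  unfold th
  exact div_nonneg (kap_pos i).le (sq_nonneg _)

section
variable (hV : ∀ i, Continuous (V i))
include hV

theorem A_cont (i : ℕ) : Continuous (A i) := by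
  unfold A
  exact (hV _).sub (hV _)

theorem PA_cont (i : ℕ) : Continuous (PA i) := by
  unfold PA
  exact intervalIntegral.continuous_primitive (fun a b => ii (A_cont hV i) a b) 0

theorem Lo_cont (i : ℕ) {f : ℝ → ℝ → ℝ} (hf : Continuous (Function.uncurry f)) :
    Continuous fun p : ℝ × ℝ => Lo i (f p.1) p.2 := cont_conv (hV i) hf

theorem Pa_cont (i : ℕ) {f : ℝ → ℝ → ℝ} (hf : Continuous (Function.uncurry f)) :
    Continuous fun p : ℝ × ℝ => Pa i (f p.1) p.2 := cont_conv (A_cont hV i) hf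

theorem Pp_cont (i : ℕ) {f : ℝ → ℝ → ℝ} (hf : Continuous (Function.uncurry f)) :
    Continuous fun p : ℝ × ℝ => Pp i (f p.1) p.2 := cont_conv (PA_cont hV i) hf

/-- telescoping of the frequency pieces -/
theorem Pa_eq {f : ℝ → ℝ} (hf : Continuous f) (i : ℕ) (x : ℝ) : Pa i f x = Lo (i + 1) f x - Lo i f x := by
  unfold Pa Lo conv A
  rw [← intervalIntegral.integral_sub]
  · congr 1
    funext y
    ring
  · exact ii (((hV _).comp (by fun_prop)).mul hf) _ _
  · exact ii (((hV _).comp (by fun_prop)).mul hf) _ _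

theorem Lo_sum {f : ℝ → ℝ} (hf : Continuous f) (M n : ℕ) (h : M ≤ n) (x : ℝ) :
    Lo n f x = Lo M f x + ∑ l ∈ Finset.Ico M n, Pa l f x := by
  induction n, h using Nat.le_induction with
  | base => simp
  | succ n hn ih =>
    rw [Finset.sum_Ico_succ_top hn, ← add_assoc, ← ih, Pa_eq hV hf]
    ring

theorem xx_cont (l j : ℕ) {u r : ℝ → ℝ → ℝ} (hu : Continuous (Function.uncurry u))
    (hr : Continuous (Function.uncurry r)) : Continuous fun t => xx l j (u t) (r t) := by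
  have h1 : Continuous fun q : (ℝ × ℝ) × ℝ =>
      th l (q.1.2 - q.2) * (u q.1.1 q.1.2) ^ 2 * (Pa l (r q.1.1) q.1.2) ^ 2 * (Pa j (r q.1.1) q.2) ^ 2 := by
    have a1 : Continuous fun q : (ℝ × ℝ) × ℝ => th l (q.1.2 - q.2) := (th_cont l).comp (by fun_prop)
    have a2 : Continuous fun q : (ℝ × ℝ) × ℝ => u q.1.1 q.1.2 :=
      hu.comp (show Continuous fun q : (ℝ × ℝ) × ℝ => (q.1.1, q.1.2) by fun_prop)
    have a3 : Continuous fun q : (ℝ × ℝ) × ℝ => Pa l (r q.1.1) q.1.2 :=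
      (Pa_cont hV l hr).comp (show Continuous fun q : (ℝ × ℝ) × ℝ => (q.1.1, q.1.2) by fun_prop)
    have a4 : Continuous fun q : (ℝ × ℝ) × ℝ => Pa j (r q.1.1) q.2 := by
      have g4 : Continuous fun q : (ℝ × ℝ) × ℝ => ((q.1.1, q.2) : ℝ × ℝ) := by fun_prop
      have g5 := (Pa_cont hV j hr).comp g4
      exact g5
    exact ((a1.mul (a2.pow 2)).mul (a3.pow 2)).mul (a4.pow 2)
  have h2 := cont_cint2 (F := fun t x y => th l (x - y) * (u t x) ^ 2 * (Pa l (r t) x) ^ 2 *
      (Pa j (r t) y) ^ 2) h1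
  have h3 := cont_cint (F := fun t x => cint fun y => th l (x - y) * (u t x) ^ 2 *
      (Pa l (r t) x) ^ 2 * (Pa j (r t) y) ^ 2) h2
  exact h3

end

theorem xx_nonneg (l j : ℕ) (u r : ℝ → ℝ) : 0 ≤ xx l j u r := by
  unfold xx
  exact cint_nonneg fun x => cint_nonneg fun y =>
    mul_nonneg (mul_nonneg (mul_nonneg (th_nonneg _ _) (sq_nonneg _)) (sq_nonneg _)) (sq_nonneg _)

theorem X_nonneg (l j : ℕ) (u r : ℝ → ℝ → ℝ) {t0 t1 : ℝ} (ht : t0 ≤ t1) : 0 ≤ X l j u r t0 t1 := by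
  unfold X
  exact intervalIntegral.integral_nonneg ht (fun t _ => xx_nonneg _ _ _ _)

end SaA

open SaA in
theorem sa_proof (hKer : KerStatement) (hTR : TRStatement) (hCross : CrossStatement) (hSize : SizeStatement)
    (hIdn : IdnStatement) : SaStatement := by
  intro M hM E
  obtain ⟨CK, -, hK⟩ := hKer
  have hV : ∀ i, Continuous (V i) := fun i => (hK i).1.continuous
  obtain ⟨CS, hCS1, hS⟩ := hSize E
  obtain ⟨CT, hCT, hT⟩ := hTR M hM E
  obtain ⟨CC, hCC, hC⟩ := hCross E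
  have hCS0 : 0 < CS := by linarith
  set D : ℝ := CS + CS * Real.sqrt (CS * kap M) with hDdef
  have hD0 : 0 < D := by positivity
  set Cg : ℝ := CT + CS ^ 2 * CC with hCg
  have hCg0 : 0 < Cg := by positivity
  refine ⟨D * CS + Real.sqrt (Cg * CS), by positivity, ?_⟩
  intro u r hu j hj t0 t1 ht
  have hkj := kap_pos j
  set T : ℝ := t1 - t0 + 1 with hTdef
  have hT1 : 1 ≤ T := by rw [hTdef]; linarith
  have hMj : M ≤ j - M := by omega
  set n := j - M with hn
  -- continuity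
  have cu := hu.cu
  have cr := hu.cr
  have cLu := Lo_cont hV n cu
  have cLr := Lo_cont hV n cr
  have cw := Pa_cont hV j cu
  have cPl : ∀ l, Continuous fun p : ℝ × ℝ => Pa l (r p.1) p.2 := fun l => Pa_cont hV l cr
  have ca := Pp_cont hV j cr
  have ca' : Continuous fun p : ℝ × ℝ => Pp j (r p.1) (-p.2) :=
    ca.comp (show Continuous fun p : ℝ × ℝ => (p.1, -p.2) by fun_prop)
  have cuu : Continuous fun p : ℝ × ℝ => u p.1 p.2 := cu
  -- W
  have hW : dd t0 t1 (fun t x => (Pa j (u t) x) ^ 2) ≤ CS / (kap j) ^ 2 * T := by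
    have cW2 : Continuous fun p : ℝ × ℝ => (Pa j (u p.1) p.2) ^ 2 := cw.pow 2
    have h1 : dd t0 t1 (fun t x => (Pa j (u t) x) ^ 2) ≤ CS / (kap j) ^ 2 * (t1 - t0) :=
      dd_le (F := fun t x => (Pa j (u t) x) ^ 2) ht cW2 (fun t => (((hS (u t) (r t) (hu.prof t)).2.2 j).2.2.2.2.2.2.2.2.2.1))
    refine h1.trans ?_
    have : 0 ≤ CS / (kap j) ^ 2 := by positivity
    exact mul_le_mul_of_nonneg_left (by rw [hTdef]; linarith) this
  -- G
  have hG : ∀ l ∈ Finset.Ico M n, dd t0 t1 (fun t x => (u t x) ^ 2 * (Pa l (r t) x) ^ 2 * (Pa j (u t) x) ^ 2) ≤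
      Cg / (kap j) ^ 2 * (X l j u r t0 t1 + T) := by
    intro l hl
    rw [Finset.mem_Ico] at hl
    have hsep : Sep l j := by
      unfold Sep
      have h1 : kap l ≤ kap n := kap_mono hl.2.le
      have h2 : kap j = kap n * (65 / 64 : ℝ) ^ M := by
        unfold kap
        rw [mul_assoc, ← pow_add, hn, Nat.sub_add_cancel (by omega)]
      have h3 := mul_le_mul_of_nonneg_left hM.1 (kap_pos n).le
      rw [h2]
      nlinarith [kap_pos n]
    have hX0 := X_nonneg l j u r ht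
    have cA1 : Continuous fun p : ℝ × ℝ => (u p.1 p.2) ^ 2 * (Pp j (r p.1) p.2) ^ 2 * (Pa l (r p.1) p.2) ^ 2 :=
      ((cuu.pow 2).mul (ca.pow 2)).mul ((cPl l).pow 2)
    have cA2 : Continuous fun p : ℝ × ℝ => (Pa l (r p.1) p.2) ^ 2 * (Pp j (r p.1) (-p.2)) ^ 2 :=
      ((cPl l).pow 2).mul (ca'.pow 2)
    have hA1 : dd t0 t1 (fun t x => (u t x) ^ 2 * (Pp j (r t) x) ^ 2 * (Pa l (r t) x) ^ 2) ≤
        CT / (kap j) ^ 2 * (X l j u r t0 t1 + (t1 - t0)) := by
      have hpt : ∀ t, cint (fun x => (u t x) ^ 2 * (Pp j (r t) x) ^ 2 * (Pa l (r t) x) ^ 2) ≤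
          CT / (kap j) ^ 2 * (xx l j (u t) (r t) + 1) := by
        intro t
        have h1 := (hT (u t) (r t) (hu.prof t) l j hl.1 hsep 0).2.2
        have hdl : dl 0 = 0 := by simp [dl]
        simp only [add_zero, hdl, mul_zero, one_pow, mul_one] at h1
        rw [div_mul_eq_mul_div, le_div_iff₀ (by positivity), mul_comm]
        exact h1
      have cx : Continuous fun t => CT / (kap j) ^ 2 * (xx l j (u t) (r t) + 1) :=
        continuous_const.mul ((xx_cont hV l j cu cr).add continuous_const)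
      have cx1 : Continuous fun t => cint ((fun t x => (u t x) ^ 2 * (Pp j (r t) x) ^ 2 * (Pa l (r t) x) ^ 2) t) :=
        cont_cint cA1
      have h2 : (∫ t in t0..t1, cint (fun x => (u t x) ^ 2 * (Pp j (r t) x) ^ 2 * (Pa l (r t) x) ^ 2)) ≤
          ∫ t in t0..t1, CT / (kap j) ^ 2 * (xx l j (u t) (r t) + 1) :=
        intervalIntegral.integral_mono_on ht (ii cx1 _ _) (ii cx _ _) (fun t _ => hpt t)
      unfold dd
      refine h2.trans (le_of_eq ?_)
      rw [intervalIntegral.integral_const_mul, intervalIntegral.integral_add (ii (xx_cont hV l j cu cr) _ _)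
        (ii continuous_const _ _), intervalIntegral.integral_const, smul_eq_mul, mul_one]
      rfl
    have hA2 : dd t0 t1 (fun t x => (Pa l (r t) x) ^ 2 * (Pp j (r t) (-x)) ^ 2) ≤ CC / (kap j) ^ 2 * T := by
      have h1 := (hC u r hu t0 t1 ht).1 l j 0
      simp only [zero_sub] at h1
      rw [div_mul_eq_mul_div, le_div_iff₀ (by positivity), mul_comm]
      exact h1
    have hle : dd t0 t1 (fun t x => (u t x) ^ 2 * (Pa l (r t) x) ^ 2 * (Pa j (u t) x) ^ 2) ≤
        dd t0 t1 (fun t x => 1 / 2 * ((u t x) ^ 2 * (Pp j (r t) x) ^ 2 * (Pa l (r t) x) ^ 2) +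
          CS ^ 2 / 2 * ((Pa l (r t) x) ^ 2 * (Pp j (r t) (-x)) ^ 2)) := by
      refine dd_mono ht (((cuu.pow 2).mul ((cPl l).pow 2)).mul (cw.pow 2))
        ((continuous_const.mul cA1).add (continuous_const.mul cA2)) (fun t x => ?_)
      have hw := (hIdn.2 E (u t) (r t) (hu.prof t) j x).1
      have hu1 : (u t x) ^ 2 ≤ CS ^ 2 := by
        have := (hS (u t) (r t) (hu.prof t)).1 x
        rw [← sq_abs]
        exact pow_le_pow_left₀ (abs_nonneg _) this 2
      rw [hw]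
      have e1 : ((Pp j (r t) x - Pp j (r t) (-x)) / 2) ^ 2 ≤
          1 / 2 * (Pp j (r t) x) ^ 2 + 1 / 2 * (Pp j (r t) (-x)) ^ 2 := by
        nlinarith [sq_nonneg (Pp j (r t) x + Pp j (r t) (-x))]
      calc (u t x) ^ 2 * (Pa l (r t) x) ^ 2 * ((Pp j (r t) x - Pp j (r t) (-x)) / 2) ^ 2
          ≤ (u t x) ^ 2 * (Pa l (r t) x) ^ 2 * (1 / 2 * (Pp j (r t) x) ^ 2 + 1 / 2 * (Pp j (r t) (-x)) ^ 2) :=
            mul_le_mul_of_nonneg_left e1 (by positivity)
        _ = 1 / 2 * ((u t x) ^ 2 * (Pp j (r t) x) ^ 2 * (Pa l (r t) x) ^ 2) +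
            (u t x) ^ 2 * (1 / 2 * ((Pa l (r t) x) ^ 2 * (Pp j (r t) (-x)) ^ 2)) := by ring
        _ ≤ 1 / 2 * ((u t x) ^ 2 * (Pp j (r t) x) ^ 2 * (Pa l (r t) x) ^ 2) +
            CS ^ 2 * (1 / 2 * ((Pa l (r t) x) ^ 2 * (Pp j (r t) (-x)) ^ 2)) := by
            have := mul_le_mul_of_nonneg_right hu1
              (show 0 ≤ 1 / 2 * ((Pa l (r t) x) ^ 2 * (Pp j (r t) (-x)) ^ 2) by positivity)
            linarith
        _ = _ := by ring
    refine hle.trans ?_
    have cB1 : Continuous fun p : ℝ × ℝ =>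
        1 / 2 * ((u p.1 p.2) ^ 2 * (Pp j (r p.1) p.2) ^ 2 * (Pa l (r p.1) p.2) ^ 2) := continuous_const.mul cA1
    have cB2 : Continuous fun p : ℝ × ℝ => CS ^ 2 / 2 * ((Pa l (r p.1) p.2) ^ 2 * (Pp j (r p.1) (-p.2)) ^ 2) :=
      continuous_const.mul cA2
    rw [dd_add (F := fun t x => 1 / 2 * ((u t x) ^ 2 * (Pp j (r t) x) ^ 2 * (Pa l (r t) x) ^ 2))
      (G := fun t x => CS ^ 2 / 2 * ((Pa l (r t) x) ^ 2 * (Pp j (r t) (-x)) ^ 2)) cB1 cB2, dd_mul, dd_mul]
    have e1 := mul_le_mul_of_nonneg_left hA1 (show (0 : ℝ) ≤ 1 / 2 by norm_num)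
    have e2 := mul_le_mul_of_nonneg_left hA2 (show (0 : ℝ) ≤ CS ^ 2 / 2 by positivity)
    refine (add_le_add e1 e2).trans ?_
    have e3 : 1 / 2 * (CT / kap j ^ 2 * (X l j u r t0 t1 + (t1 - t0))) + CS ^ 2 / 2 * (CC / kap j ^ 2 * T) =
        (CT / 2 * (X l j u r t0 t1 + (t1 - t0)) + CS ^ 2 * CC / 2 * T) / kap j ^ 2 := by
      field_simp
    have e4 : Cg / kap j ^ 2 * (X l j u r t0 t1 + T) = Cg * (X l j u r t0 t1 + T) / kap j ^ 2 := by ring
    rw [e3, e4]
    apply div_le_div_of_nonneg_right _ (by positivity)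
    rw [hCg]
    have hTt : t1 - t0 = T - 1 := by rw [hTdef]; ring
    rw [hTt]
    have p1 : 0 ≤ CS ^ 2 * CC := by positivity
    nlinarith [mul_nonneg hCT.le hX0, mul_nonneg p1 hX0, mul_nonneg hCT.le (by linarith : (0 : ℝ) ≤ T),
      mul_nonneg p1 (by linarith : (0 : ℝ) ≤ T)]
  -- S_l
  have cS : ∀ l, Continuous (Function.uncurry fun t x => |u t x| * |Pa l (r t) x| * (Pa j (u t) x) ^ 2) :=
    fun l => (cuu.abs.mul (cPl l).abs).mul (cw.pow 2)
  have hSl : ∀ l ∈ Finset.Ico M n, dd t0 t1 (fun t x => |u t x| * |Pa l (r t) x| * (Pa j (u t) x) ^ 2) ≤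
      Real.sqrt (Cg * CS) / (kap j) ^ 2 * Real.sqrt ((X l j u r t0 t1 + T) * T) := by
    intro l hl
    have hX0 := X_nonneg l j u r ht
    have h1 : dd t0 t1 (fun t x => |u t x| * |Pa l (r t) x| * (Pa j (u t) x) ^ 2) ≤
        Real.sqrt ((Cg / (kap j) ^ 2 * (X l j u r t0 t1 + T)) * (CS / (kap j) ^ 2 * T)) := by
      apply cs (by positivity) (by positivity)
      intro lam hlam
      have cG : Continuous (Function.uncurry fun t x => (u t x) ^ 2 * (Pa l (r t) x) ^ 2 * (Pa j (u t) x) ^ 2) :=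
        ((cuu.pow 2).mul ((cPl l).pow 2)).mul (cw.pow 2)
      have cW : Continuous (Function.uncurry fun t x => (Pa j (u t) x) ^ 2) := cw.pow 2
      have h2 : dd t0 t1 (fun t x => |u t x| * |Pa l (r t) x| * (Pa j (u t) x) ^ 2) ≤
          dd t0 t1 (fun t x => lam / 2 * ((u t x) ^ 2 * (Pa l (r t) x) ^ 2 * (Pa j (u t) x) ^ 2) +
            1 / (2 * lam) * (Pa j (u t) x) ^ 2) := by
        refine dd_mono ht (cS l) ((continuous_const.mul cG).add (continuous_const.mul cW)) (fun t x => ?_)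
        have e1 : |u t x| * |Pa l (r t) x| ≤ lam / 2 * ((u t x) ^ 2 * (Pa l (r t) x) ^ 2) + 1 / (2 * lam) := by
          rw [← sq_abs (u t x), ← sq_abs (Pa l (r t) x)]
          have e2 := sq_nonneg (lam * (|u t x| * |Pa l (r t) x|) - 1)
          have e3 : lam / 2 * (|u t x| ^ 2 * |Pa l (r t) x| ^ 2) + 1 / (2 * lam) =
              (lam ^ 2 * (|u t x| * |Pa l (r t) x|) ^ 2 + 1) / (2 * lam) := by
            field_simp
          rw [e3, le_div_iff₀ (by positivity)]
          nlinarith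
        have e4 := mul_le_mul_of_nonneg_right e1 (sq_nonneg (Pa j (u t) x))
        refine e4.trans (le_of_eq ?_)
        ring
      have cB1 : Continuous fun p : ℝ × ℝ =>
          lam / 2 * ((u p.1 p.2) ^ 2 * (Pa l (r p.1) p.2) ^ 2 * (Pa j (u p.1) p.2) ^ 2) := continuous_const.mul cG
      have cB2 : Continuous fun p : ℝ × ℝ => 1 / (2 * lam) * (Pa j (u p.1) p.2) ^ 2 := continuous_const.mul cW
      rw [dd_add (F := fun t x => lam / 2 * ((u t x) ^ 2 * (Pa l (r t) x) ^ 2 * (Pa j (u t) x) ^ 2))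
        (G := fun t x => 1 / (2 * lam) * (Pa j (u t) x) ^ 2) cB1 cB2, dd_mul, dd_mul] at h2
      refine h2.trans (add_le_add (mul_le_mul_of_nonneg_left (hG l hl) (by positivity)) ?_)
      rw [div_mul_eq_mul_div, one_mul]
      exact div_le_div_of_nonneg_right hW (by positivity)
    refine h1.trans (le_of_eq ?_)
    have e5 : (Cg / (kap j) ^ 2 * (X l j u r t0 t1 + T)) * (CS / (kap j) ^ 2 * T) =
        (Cg * CS) * ((X l j u r t0 t1 + T) * T) * (1 / (kap j) ^ 2) ^ 2 := by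
      field_simp
    rw [e5, Real.sqrt_mul (by positivity), Real.sqrt_mul (by positivity), Real.sqrt_sq (by positivity)]
    ring
  -- the total
  have cL : Continuous (Function.uncurry fun t x => |Lo n (u t) x| * |Lo n (r t) x| * (Pa j (u t) x) ^ 2) :=
    (cLu.abs.mul cLr.abs).mul (cw.pow 2)
  have cW : Continuous (Function.uncurry fun t x => D * (Pa j (u t) x) ^ 2) := continuous_const.mul (cw.pow 2)
  have cSum : Continuous (Function.uncurry fun t x =>
      ∑ l ∈ Finset.Ico M n, |u t x| * |Pa l (r t) x| * (Pa j (u t) x) ^ 2) := by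
    have : Continuous fun p : ℝ × ℝ => ∑ l ∈ Finset.Ico M n, |u p.1 p.2| * |Pa l (r p.1) p.2| *
        (Pa j (u p.1) p.2) ^ 2 := continuous_finsetSum _ (fun l _ => cS l)
    exact this
  have hmain : dd t0 t1 (fun t x => |Lo n (u t) x| * |Lo n (r t) x| * (Pa j (u t) x) ^ 2) ≤
      dd t0 t1 (fun t x => D * (Pa j (u t) x) ^ 2 +
        ∑ l ∈ Finset.Ico M n, |u t x| * |Pa l (r t) x| * (Pa j (u t) x) ^ 2) := by
    refine dd_mono ht cL (cW.add cSum) (fun t x => ?_)
    have hSt := hS (u t) (r t) (hu.prof t)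
    have hr : Continuous (r t) := (hu.prof t).cr
    have b1 : |u t x - Lo n (u t) x| * |Lo n (r t) x| ≤ CS := by
      rw [← abs_mul]
      apply abs_le_of_sq_le_sq _ hCS0.le
      rw [mul_pow]
      have c1 := (hSt.2.2 n).1 x
      have c2 := (hSt.2.2 n).2.2.2.1 x
      have hkn := kap_pos n
      calc (u t x - Lo n (u t) x) ^ 2 * (Lo n (r t) x) ^ 2 ≤ (CS / kap n) * (CS * kap n) :=
            mul_le_mul c1 c2 (sq_nonneg _) (by positivity)
        _ = CS ^ 2 := by field_simp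
    have b2 : |Lo M (r t) x| ≤ Real.sqrt (CS * kap M) := Real.abs_le_sqrt ((hSt.2.2 M).2.2.2.1 x)
    have b3 : |Lo n (r t) x| ≤ |Lo M (r t) x| + ∑ l ∈ Finset.Ico M n, |Pa l (r t) x| := by
      rw [Lo_sum hV hr M n hMj x]
      exact (abs_add_le _ _).trans (add_le_add le_rfl (Finset.abs_sum_le_sum_abs _ _))
    have b4 : |Lo n (u t) x| ≤ |u t x| + |u t x - Lo n (u t) x| := by
      have := abs_sub_abs_le_abs_sub (Lo n (u t) x) (u t x)
      rw [abs_sub_comm (Lo n (u t) x)] at this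
      linarith
    have b5 := hSt.1 x
    have b6 : |Lo n (u t) x| * |Lo n (r t) x| ≤ D + ∑ l ∈ Finset.Ico M n, |u t x| * |Pa l (r t) x| := by
      calc |Lo n (u t) x| * |Lo n (r t) x| ≤ (|u t x| + |u t x - Lo n (u t) x|) * |Lo n (r t) x| :=
            mul_le_mul_of_nonneg_right b4 (abs_nonneg _)
        _ = |u t x| * |Lo n (r t) x| + |u t x - Lo n (u t) x| * |Lo n (r t) x| := by ring
        _ ≤ |u t x| * (|Lo M (r t) x| + ∑ l ∈ Finset.Ico M n, |Pa l (r t) x|) + CS :=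
            add_le_add (mul_le_mul_of_nonneg_left b3 (abs_nonneg _)) b1
        _ = |u t x| * |Lo M (r t) x| + CS + ∑ l ∈ Finset.Ico M n, |u t x| * |Pa l (r t) x| := by
            rw [mul_add, Finset.mul_sum]; ring
        _ ≤ CS * Real.sqrt (CS * kap M) + CS + ∑ l ∈ Finset.Ico M n, |u t x| * |Pa l (r t) x| := by
            gcongr
        _ = _ := by rw [hDdef]; ring
    have b7 := mul_le_mul_of_nonneg_right b6 (sq_nonneg (Pa j (u t) x))
    refine b7.trans (le_of_eq ?_)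
    rw [add_mul, Finset.sum_mul]
  have hsplit : dd t0 t1 (fun t x => D * (Pa j (u t) x) ^ 2 +
        ∑ l ∈ Finset.Ico M n, |u t x| * |Pa l (r t) x| * (Pa j (u t) x) ^ 2) =
      D * dd t0 t1 (fun t x => (Pa j (u t) x) ^ 2) +
        ∑ l ∈ Finset.Ico M n, dd t0 t1 (fun t x => |u t x| * |Pa l (r t) x| * (Pa j (u t) x) ^ 2) := by
    rw [dd_add (F := fun t x => D * (Pa j (u t) x) ^ 2)
      (G := fun t x => ∑ l ∈ Finset.Ico M n, |u t x| * |Pa l (r t) x| * (Pa j (u t) x) ^ 2) cW cSum, dd_mul,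
      dd_sum (Finset.Ico M n) (fun l t x => |u t x| * |Pa l (r t) x| * (Pa j (u t) x) ^ 2) cS]
  have hfin : D * dd t0 t1 (fun t x => (Pa j (u t) x) ^ 2) +
        ∑ l ∈ Finset.Ico M n, dd t0 t1 (fun t x => |u t x| * |Pa l (r t) x| * (Pa j (u t) x) ^ 2) ≤
      D * (CS / (kap j) ^ 2 * T) + ∑ l ∈ Finset.Ico M n,
        Real.sqrt (Cg * CS) / (kap j) ^ 2 * Real.sqrt ((X l j u r t0 t1 + T) * T) :=
    add_le_add (mul_le_mul_of_nonneg_left hW hD0.le) (Finset.sum_le_sum hSl)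
  have hall := (hmain.trans (le_of_eq hsplit)).trans hfin
  refine hall.trans ?_
  rw [← Finset.mul_sum]
  set Ss := ∑ l ∈ Finset.Ico M n, Real.sqrt ((X l j u r t0 t1 + T) * T) with hSs
  have hSs0 : 0 ≤ Ss := Finset.sum_nonneg (fun l _ => Real.sqrt_nonneg _)
  have e1 : D * (CS / (kap j) ^ 2 * T) + Real.sqrt (Cg * CS) / (kap j) ^ 2 * Ss =
      (D * CS * T + Real.sqrt (Cg * CS) * Ss) / (kap j) ^ 2 := by field_simp
  have e2 : (D * CS + Real.sqrt (Cg * CS)) / (kap j) ^ 2 * (T + Ss) =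
      (D * CS + Real.sqrt (Cg * CS)) * (T + Ss) / (kap j) ^ 2 := by ring
  rw [e1, e2]
  apply div_le_div_of_nonneg_right _ (by positivity)
  have q1 : 0 ≤ Real.sqrt (Cg * CS) * T := by positivity
  have q2 : 0 ≤ D * CS * Ss := by positivity
  nlinarith

end

end Pool.Agent.C1E
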