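import Pool.Agent.Lib.MP_c1e222_an.Iface

/-!
# MP_c1e222_an, row Sb (section 7, (S2)): the commutator
-/

namespace Pool.Agent.C1E

open MeasureTheory Set Filter Topology

noncomputable section

/-! ### integrals of continuous functions -/

theorem sb_swap (f : ℝ → ℝ → ℝ) (hf : Continuous (Function.uncurry f)) (a b c d : ℝ) :
    ∫ x in a..b, ∫ y in c..d, f x y = ∫ y in c..d, ∫ x in a..b, f x y := by
  apply intervalIntegral_intervalIntegral_swap
  have h1 : IntegrableOn (Function.uncurry f) (uIcc a b ×ˢ uIcc c d) volume :=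
    hf.continuousOn.integrableOn_compact (isCompact_uIcc.prod isCompact_uIcc)
  exact h1.mono_set (Set.prod_mono uIoc_subset_uIcc uIoc_subset_uIcc)

theorem sb_par (f : ℝ × ℝ → ℝ → ℝ) (hf : Continuous (Function.uncurry f)) (a b : ℝ) :
    Continuous fun p => ∫ x in a..b, f p x :=
  intervalIntegral.continuous_parametric_intervalIntegral_of_continuous' hf a b

theorem sb_par1 (f : ℝ → ℝ → ℝ) (hf : Continuous (Function.uncurry f)) (a b : ℝ) :
    Continuous fun p => ∫ x in a..b, f p x :=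
  intervalIntegral.continuous_parametric_intervalIntegral_of_continuous' hf a b

/-- the variable `x` goes from outside to inside -/
theorem sb_swap3 (F : ℝ → ℝ → ℝ → ℝ) (hF : Continuous fun p : ℝ × ℝ × ℝ => F p.1 p.2.1 p.2.2)
    (a b c d e f : ℝ) :
    ∫ x in a..b, ∫ z in c..d, ∫ s in e..f, F x z s = ∫ z in c..d, ∫ s in e..f, ∫ x in a..b, F x z s := by
  have h1 : Continuous (Function.uncurry fun x z => ∫ s in e..f, F x z s) := by
    have h : Continuous (Function.uncurry fun (p : ℝ × ℝ) s => F p.1 p.2 s) :=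
      hF.comp (f := fun q : (ℝ × ℝ) × ℝ => ((q.1.1, q.1.2, q.2) : ℝ × ℝ × ℝ)) (by fun_prop)
    exact sb_par _ h e f
  rw [sb_swap _ h1]
  refine intervalIntegral.integral_congr fun z _ => ?_
  have h2 : Continuous (Function.uncurry fun x s => F x z s) :=
    hF.comp (f := fun q : ℝ × ℝ => ((q.1, z, q.2) : ℝ × ℝ × ℝ)) (by fun_prop)
  exact sb_swap _ h2 a b e f

/-- Cauchy-Schwarz -/
theorem sb_cs {f g : ℝ → ℝ} (hf : Continuous f) (hg : Continuous g) {a b : ℝ} (hab : a ≤ b) :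
    ∫ x in a..b, f x * g x ≤ Real.sqrt (∫ x in a..b, (f x) ^ 2) * Real.sqrt (∫ x in a..b, (g x) ^ 2) := by
  have hA : 0 ≤ ∫ x in a..b, (f x) ^ 2 := intervalIntegral.integral_nonneg hab fun x _ => sq_nonneg _
  have hB : 0 ≤ ∫ x in a..b, (g x) ^ 2 := intervalIntegral.integral_nonneg hab fun x _ => sq_nonneg _
  have h : ∀ y : ℝ, 0 ≤ (∫ x in a..b, (f x) ^ 2) * (y * y) + (-2 * ∫ x in a..b, f x * g x) * y +
      ∫ x in a..b, (g x) ^ 2 := by
    intro y
    have h1 : ∫ x in a..b, (y * f x - g x) ^ 2 = (∫ x in a..b, (f x) ^ 2) * (y * y) +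
        (-2 * ∫ x in a..b, f x * g x) * y + ∫ x in a..b, (g x) ^ 2 := by
      have h2 : ∀ x, (y * f x - g x) ^ 2 = (y * y) * (f x) ^ 2 + (-2 * y) * (f x * g x) + (g x) ^ 2 := by
        intro x; ring
      simp_rw [h2]
      rw [intervalIntegral.integral_add, intervalIntegral.integral_add, intervalIntegral.integral_const_mul,
        intervalIntegral.integral_const_mul]
      · ring
      · exact (Continuous.mul continuous_const (hf.pow 2)).intervalIntegrable _ _
      · exact (Continuous.mul continuous_const (hf.mul hg)).intervalIntegrable _ _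
      · exact ((Continuous.mul continuous_const (hf.pow 2)).add
          (Continuous.mul continuous_const (hf.mul hg))).intervalIntegrable _ _
      · exact (hg.pow 2).intervalIntegrable _ _
    rw [← h1]
    exact intervalIntegral.integral_nonneg hab fun x _ => sq_nonneg _
  have hd := discrim_le_zero h
  unfold discrim at hd
  rw [← Real.sqrt_mul hA]
  apply Real.le_sqrt_of_sq_le
  nlinarith

theorem sb_mono {f g : ℝ → ℝ} (hf : Continuous f) (hg : Continuous g) {a b : ℝ} (hab : a ≤ b)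
    (h : ∀ x ∈ Icc a b, f x ≤ g x) : ∫ x in a..b, f x ≤ ∫ x in a..b, g x :=
  intervalIntegral.integral_mono_on hab (hf.intervalIntegrable _ _) (hg.intervalIntegrable _ _) h

/-- `∫ √f ≤ √((b - a) ∫ f)` -/
theorem sb_sqrt {f : ℝ → ℝ} (hf : Continuous f) (h0 : ∀ x, 0 ≤ f x) {a b : ℝ} (hab : a ≤ b) :
    ∫ x in a..b, Real.sqrt (f x) ≤ Real.sqrt (b - a) * Real.sqrt (∫ x in a..b, f x) := by
  have h := sb_cs (f := fun _ => (1 : ℝ)) (g := fun x => Real.sqrt (f x)) continuous_const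
    (Real.continuous_sqrt.comp hf) hab
  simp only [one_mul, one_pow, intervalIntegral.integral_const, smul_eq_mul, mul_one] at h
  have h1 : ∫ x in a..b, Real.sqrt (f x) ^ 2 = ∫ x in a..b, f x :=
    intervalIntegral.integral_congr fun x _ => Real.sq_sqrt (h0 x)
  rwa [h1] at h

/-! ### `dl`, `kap`, `th`, convolutions -/

theorem sb_kap_pos (i : ℕ) : 0 < kap i := by unfold kap; positivity

theorem sb_kap_add (i m : ℕ) : kap (i + m) = kap i * (65 / 64 : ℝ) ^ m := by
  unfold kap; rw [pow_add]; ring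

theorem sb_kap_mono {i m : ℕ} (h : i ≤ m) : kap i ≤ kap m := by
  unfold kap
  exact mul_le_mul_of_nonneg_left (pow_le_pow_right₀ (by norm_num) h) (by norm_num)

theorem sb_dl_nonneg (x : ℝ) : 0 ≤ dl x := abs_nonneg _

theorem sb_dl_cont : Continuous dl := by unfold dl; fun_prop

theorem sb_dl_le (x : ℝ) : dl x ≤ 2 * |x| := by
  unfold dl
  have h1 : |Real.sin (Real.pi * x / 2)| ≤ |Real.pi * x / 2| := Real.abs_sin_le_abs
  have h2 : |Real.pi * x / 2| = Real.pi / 2 * |x| := by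
    rw [show Real.pi * x / 2 = Real.pi / 2 * x by ring, abs_mul, abs_of_pos (by positivity)]
  have h3 : Real.pi / 2 ≤ 2 := by linarith [Real.pi_le_four]
  nlinarith [abs_nonneg x]

theorem sb_le_dl {x : ℝ} (h : |x| ≤ 1) : |x| ≤ dl x := by
  unfold dl
  have h1 := Real.mul_abs_le_abs_sin (x := Real.pi * x / 2) (by
    rw [show Real.pi * x / 2 = Real.pi / 2 * x by ring, abs_mul, abs_of_pos (by positivity)]
    nlinarith [Real.pi_pos])
  have h2 : |Real.pi * x / 2| = Real.pi / 2 * |x| := by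
    rw [show Real.pi * x / 2 = Real.pi / 2 * x by ring, abs_mul, abs_of_pos (by positivity)]
  rw [h2] at h1
  have h3 : 2 / Real.pi * (Real.pi / 2 * |x|) = |x| := by
    field_simp
  rwa [h3] at h1

theorem sb_th_cont (i : ℕ) : Continuous (th i) := by
  unfold th
  have hk := sb_kap_pos i
  refine Continuous.div continuous_const ((continuous_const.add (continuous_const.mul sb_dl_cont)).pow 2) fun x => ?_
  have := sb_dl_nonneg x
  positivity

/-- joint continuity of convolutions -/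
theorem sb_conv_cont {P : ℝ → ℝ} (hP : Continuous P) {f : ℝ → ℝ → ℝ} (hf : Continuous (Function.uncurry f)) :
    Continuous (Function.uncurry fun t x => conv P (f t) x) := by
  unfold conv
  have h : Continuous (Function.uncurry fun (p : ℝ × ℝ) y => P (p.2 - y) * f p.1 y) := by
    have h1 : Continuous fun q : (ℝ × ℝ) × ℝ => P (q.1.2 - q.2) := hP.comp (by fun_prop)
    have h2 : Continuous fun q : (ℝ × ℝ) × ℝ => f q.1.1 q.2 := hf.comp (f := fun q : (ℝ × ℝ) × ℝ => (q.1.1, q.2))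
      (by fun_prop)
    exact h1.mul h2
  exact sb_par _ h (-1) 1

theorem sb_conv_cont1 {P : ℝ → ℝ} (hP : Continuous P) {f : ℝ → ℝ} (hf : Continuous f) : Continuous (conv P f) := by
  have h := sb_conv_cont hP (f := fun _ => f) (hf.comp continuous_snd)
  exact h.comp (f := fun x : ℝ => ((0 : ℝ), x)) (by fun_prop)

theorem sb_conv_per {P : ℝ → ℝ} (hP : Function.Periodic P 2) (f : ℝ → ℝ) : Function.Periodic (conv P f) 2 := by
  intro x
  unfold conv
  refine intervalIntegral.integral_congr fun y _ => ?_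
  show P (x + 2 - y) * f y = P (x - y) * f y
  rw [show x + 2 - y = (x - y) + 2 by ring, hP]

/-- periodic functions: reflection and translation -/
theorem sb_refl {F : ℝ → ℝ} (hF : Function.Periodic F 2) (x : ℝ) :
    ∫ y in (-1 : ℝ)..1, F y = ∫ z in (-1 : ℝ)..1, F (x - z) := by
  rw [intervalIntegral.integral_comp_sub_left (fun y => F y) x]
  have h := hF.intervalIntegral_add_eq (-1) (x - 1)
  rw [show (-1 : ℝ) + 2 = 1 by ring, show x - 1 + 2 = x - -1 by ring] at h
  exact h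

theorem sb_trans {F : ℝ → ℝ} (hF : Function.Periodic F 2) (z : ℝ) :
    ∫ x in (-1 : ℝ)..1, F (x - z) = ∫ y in (-1 : ℝ)..1, F y := by
  rw [intervalIntegral.integral_comp_sub_right (fun y => F y) z]
  have h := hF.intervalIntegral_add_eq (-1) (-1 - z)
  rw [show (-1 : ℝ) + 2 = 1 by ring, show -1 - z + 2 = 1 - z by ring] at h
  exact h.symm

/-- the kernel `A_j` -/
theorem sb_ker (hK : KerStatement) : ∃ C : ℝ, 0 < C ∧ ∀ j : ℕ, Continuous (A j) ∧ Function.Periodic (A j) 2 ∧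
    ∀ z, |z| ≤ 1 → |A j z| * |z| * (1 + kap j * |z|) ≤ C * (1 / (1 + kap j * |z|) ^ 2) := by
  obtain ⟨C, hC, h⟩ := hK
  refine ⟨3 * C, by positivity, fun j => ⟨?_, ?_, fun z hz => ?_⟩⟩
  · exact (h (j + 1)).1.continuous.sub (h j).1.continuous
  · intro x
    unfold A
    rw [(h (j + 1)).2.1, (h j).2.1]
  · obtain ⟨-, -, -, -, -, h1, -⟩ := h (j + 1)
    obtain ⟨-, -, -, -, -, h0, -⟩ := h j
    have hk := sb_kap_pos j
    have hk1 : kap (j + 1) = 65 / 64 * kap j := by rw [sb_kap_add]; ring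
    obtain ⟨y, hy⟩ : ∃ y, y = kap j * |z| := ⟨_, rfl⟩
    rw [← hy]
    have hy0 : 0 ≤ y := by rw [hy]; positivity
    have hd := sb_le_dl hz
    have e0 : |V j z| ≤ C * kap j / (1 + y) ^ 4 := by
      refine (h0 z).trans ?_
      have : y ≤ kap j * dl z := by rw [hy]; gcongr
      gcongr
    have e1 : |V (j + 1) z| ≤ 2 * C * kap j / (1 + y) ^ 4 := by
      refine (h1 z).trans ?_
      have h3 : y ≤ kap (j + 1) * dl z := by
        rw [hy]
        have h5 := sb_kap_mono (Nat.le_succ j)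
        have h6 := (sb_kap_pos (j + 1)).le
        exact mul_le_mul h5 hd (abs_nonneg _) h6
      have h4 : C * kap (j + 1) ≤ 2 * C * kap j := by rw [hk1]; nlinarith [mul_pos hC hk]
      gcongr
    have e2 : |A j z| ≤ 3 * C * kap j / (1 + y) ^ 4 := by
      unfold A
      refine (abs_sub _ _).trans ((add_le_add e1 e0).trans (le_of_eq ?_))
      ring
    calc |A j z| * |z| * (1 + y) ≤ (3 * C * kap j / (1 + y) ^ 4) * |z| * (1 + y) := by gcongr
      _ = 3 * C * (y / (1 + y) ^ 3) := by rw [hy]; field_simp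
      _ ≤ 3 * C * (1 / (1 + y) ^ 2) := by
        refine mul_le_mul_of_nonneg_left ?_ (by positivity)
        rw [div_le_div_iff₀ (by positivity) (by positivity)]
        have : (1 + y) ^ 3 = (1 + y) * (1 + y) ^ 2 := by ring
        rw [this]
        have h5 : 0 ≤ (1 + y) ^ 2 := by positivity
        nlinarith

theorem sb_W_cont (κ : ℝ) (hκ : 0 < κ) : Continuous fun z : ℝ => 1 / (1 + κ * |z|) ^ 2 := by
  refine Continuous.div continuous_const (by fun_prop) fun z => ?_
  have := abs_nonneg z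
  positivity

theorem sb_W {κ : ℝ} (hκ : 0 < κ) : ∫ z in (-1 : ℝ)..1, 1 / (1 + κ * |z|) ^ 2 ≤ 2 / κ := by
  have h1 : ∫ z in (0 : ℝ)..1, 1 / (1 + κ * |z|) ^ 2 ≤ 1 / κ := by
    have h2 : ∫ z in (0 : ℝ)..1, 1 / (1 + κ * |z|) ^ 2 = ∫ z in (0 : ℝ)..1, 1 / (1 + κ * z) ^ 2 := by
      refine intervalIntegral.integral_congr fun z hz => ?_
      rw [uIcc_of_le zero_le_one] at hz
      show 1 / (1 + κ * |z|) ^ 2 = 1 / (1 + κ * z) ^ 2
      rw [abs_of_nonneg hz.1]
    have h3 : ∀ z ∈ uIcc (0 : ℝ) 1, HasDerivAt (fun z => -(1 / κ) * (1 + κ * z)⁻¹) (1 / (1 + κ * z) ^ 2) z := by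
      intro z hz
      rw [uIcc_of_le zero_le_one] at hz
      have h4 : 0 < 1 + κ * z := by have := mul_nonneg hκ.le hz.1; linarith
      have h5 : HasDerivAt (fun z => 1 + κ * z) κ z := by
        have := ((hasDerivAt_id z).const_mul κ).const_add 1
        simpa using this
      have h6 := (h5.inv h4.ne').const_mul (-(1 / κ))
      have h7 : -(1 / κ) * (-κ / (1 + κ * z) ^ 2) = 1 / (1 + κ * z) ^ 2 := by
        field_simp
      rwa [h7] at h6
    have h8 : ContinuousOn (fun z : ℝ => 1 / (1 + κ * z) ^ 2) (uIcc 0 1) := by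
      refine ContinuousOn.div continuousOn_const (by fun_prop) fun z hz => ?_
      rw [uIcc_of_le zero_le_one] at hz
      have h4 : 0 < 1 + κ * z := by have := mul_nonneg hκ.le hz.1; linarith
      positivity
    rw [h2, intervalIntegral.integral_eq_sub_of_hasDerivAt h3 h8.intervalIntegrable]
    have h9 : 0 < 1 + κ * 1 := by linarith
    have h10 : 0 ≤ (1 / κ) * (1 + κ * 1)⁻¹ := by positivity
    have h11 : -(1 / κ) * (1 + κ * 1)⁻¹ - -(1 / κ) * (1 + κ * 0)⁻¹ = 1 / κ - (1 / κ) * (1 + κ * 1)⁻¹ := by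
      rw [mul_zero, add_zero, inv_one]; ring
    rw [h11]
    linarith
  have h2 : ∫ z in (-1 : ℝ)..0, 1 / (1 + κ * |z|) ^ 2 = ∫ z in (0 : ℝ)..1, 1 / (1 + κ * |z|) ^ 2 := by
    have h := intervalIntegral.integral_comp_neg (a := (0 : ℝ)) (b := 1) fun z : ℝ => 1 / (1 + κ * |z|) ^ 2
    simp only [abs_neg, neg_zero] at h
    exact h.symm
  have h3 := (sb_W_cont κ hκ).intervalIntegrable (μ := volume) (-1) 0
  have h4 := (sb_W_cont κ hκ).intervalIntegrable (μ := volume) 0 1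
  rw [← intervalIntegral.integral_add_adjacent_intervals h3 h4, h2]
  have : 2 / κ = 1 / κ + 1 / κ := by ring
  rw [this]
  exact add_le_add h1 h1

/-! ### fixed time -/

theorem sb_cm (hAc : ∀ j, Continuous (A j) ∧ Function.Periodic (A j) 2) (hVc : ∀ i, Continuous (V i))
    (hVp : ∀ i, Function.Periodic (V i) 2) (M j : ℕ) {u : ℝ → ℝ} (hu : Continuous u) (x : ℝ) :
    cm M j u x = ∫ z in (-1 : ℝ)..1, A j z * ((Lo (j - M) u x) ^ 2 - (Lo (j - M) u (x - z)) ^ 2) *
      (Lo (j + M) u (x - z) - Lo (j - M) u (x - z)) := by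
  have hL : ∀ i, Continuous (Lo i u) := fun i => sb_conv_cont1 (hVc i) hu
  have hLp : ∀ i, Function.Periodic (Lo i u) 2 := fun i => sb_conv_per (hVp i) u
  have h1 : cm M j u x = ∫ y in (-1 : ℝ)..1, A j (x - y) * ((Lo (j - M) u x) ^ 2 - (Lo (j - M) u y) ^ 2) *
      (Lo (j + M) u y - Lo (j - M) u y) := by
    unfold cm
    show (Lo (j - M) u x) ^ 2 * (∫ y in (-1 : ℝ)..1, A j (x - y) * (Lo (j + M) u y - Lo (j - M) u y)) -
      (∫ y in (-1 : ℝ)..1, A j (x - y) * ((Lo (j - M) u y) ^ 2 * (Lo (j + M) u y - Lo (j - M) u y))) = _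
    have hA : Continuous fun y => A j (x - y) := (hAc j).1.comp (by fun_prop)
    have hd : Continuous fun y => Lo (j + M) u y - Lo (j - M) u y := (hL _).sub (hL _)
    rw [← intervalIntegral.integral_const_mul, ← intervalIntegral.integral_sub]
    · refine intervalIntegral.integral_congr fun y _ => ?_
      ring
    · exact (continuous_const.mul (hA.mul hd)).intervalIntegrable _ _
    · exact (hA.mul (((hL _).pow 2).mul hd)).intervalIntegrable _ _
  rw [h1, sb_refl (F := fun y => A j (x - y) * ((Lo (j - M) u x) ^ 2 - (Lo (j - M) u y) ^ 2) *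
      (Lo (j + M) u y - Lo (j - M) u y)) _ x]
  · refine intervalIntegral.integral_congr fun z _ => ?_
    show A j (x - (x - z)) * _ * _ = _
    rw [sub_sub_cancel]
  · intro y
    show A j (x - (y + 2)) * ((Lo (j - M) u x) ^ 2 - (Lo (j - M) u (y + 2)) ^ 2) *
      (Lo (j + M) u (y + 2) - Lo (j - M) u (y + 2)) = _
    rw [hLp, hLp]
    have h2 := (hAc j).2 (x - (y + 2))
    rw [show x - (y + 2) + 2 = x - y by ring] at h2
    rw [← h2]

theorem sb_diff {v ρ : ℝ → ℝ} (hv : ∀ x, HasDerivAt v ((ρ x + ρ (-x)) / 2) x) (hρ : Continuous ρ) (x z : ℝ) :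
    |(v x) ^ 2 - (v (x - z)) ^ 2| ≤
      |z| * ∫ s in (0 : ℝ)..1, |v (x - s * z)| * (|ρ (x - s * z)| + |ρ (-(x - s * z))|) := by
  have hvc : Continuous v := continuous_iff_continuousAt.2 fun x => (hv x).continuousAt
  have h1 : ∀ s ∈ uIcc (0 : ℝ) 1, HasDerivAt (fun s => (v (x - s * z)) ^ 2)
      (-z * (v (x - s * z) * (ρ (x - s * z) + ρ (-(x - s * z))))) s := by
    intro s _
    have h2 : HasDerivAt (fun s => x - s * z) (-z) s := by
      have := ((hasDerivAt_id s).mul_const z).const_sub x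
      simpa using this
    have h3 := ((hv (x - s * z)).comp s h2).pow 2
    refine h3.congr_deriv ?_
    simp only [Function.comp_apply]
    push_cast
    ring
  have h2 : Continuous fun s : ℝ => -z * (v (x - s * z) * (ρ (x - s * z) + ρ (-(x - s * z)))) := by
    have e1 : Continuous fun s : ℝ => v (x - s * z) := hvc.comp (by fun_prop)
    have e2 : Continuous fun s : ℝ => ρ (x - s * z) := hρ.comp (by fun_prop)
    have e3 : Continuous fun s : ℝ => ρ (-(x - s * z)) := hρ.comp (by fun_prop)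
    exact continuous_const.mul (e1.mul (e2.add e3))
  have h3 := intervalIntegral.integral_eq_sub_of_hasDerivAt h1 (h2.intervalIntegrable _ _)
  rw [one_mul, zero_mul, sub_zero] at h3
  have e1 : Continuous fun s : ℝ => v (x - s * z) := hvc.comp (by fun_prop)
  have e2 : Continuous fun s : ℝ => ρ (x - s * z) := hρ.comp (by fun_prop)
  have e3 : Continuous fun s : ℝ => ρ (-(x - s * z)) := hρ.comp (by fun_prop)
  rw [abs_sub_comm, ← h3, ← intervalIntegral.integral_const_mul]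
  refine (intervalIntegral.abs_integral_le_integral_abs zero_le_one).trans ?_
  refine sb_mono h2.abs (continuous_const.mul (e1.abs.mul (e2.abs.add e3.abs))) zero_le_one fun s _ => ?_
  rw [abs_mul, abs_neg, abs_mul]
  exact mul_le_mul_of_nonneg_left (mul_le_mul_of_nonneg_left (abs_add_le _ _) (abs_nonneg _)) (abs_nonneg _)

theorem sb_tele (hVc : ∀ i, Continuous (V i)) {f : ℝ → ℝ} (hf : Continuous f) (M n : ℕ) (h : M ≤ n) (y : ℝ) :
    Lo n f y = Lo M f y + ∑ l ∈ Finset.Ico M n, Pa l f y := by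
  induction n, h using Nat.le_induction with
  | base => simp
  | succ n hn ih =>
    rw [Finset.sum_Ico_succ_top hn, ← add_assoc, ← ih]
    have h1 : Pa n f y = Lo (n + 1) f y - Lo n f y := by
      show ∫ z in (-1 : ℝ)..1, (V (n + 1) (y - z) - V n (y - z)) * f z =
        (∫ z in (-1 : ℝ)..1, V (n + 1) (y - z) * f z) - ∫ z in (-1 : ℝ)..1, V n (y - z) * f z
      have e1 : ∀ i, Continuous fun z => V i (y - z) * f z := fun i => ((hVc i).comp (by fun_prop)).mul hf
      rw [← intervalIntegral.integral_sub ((e1 _).intervalIntegrable _ _) ((e1 _).intervalIntegrable _ _)]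
      refine intervalIntegral.integral_congr fun z _ => ?_
      ring
    rw [h1]; ring

theorem sb_mono2 {f g : ℝ → ℝ → ℝ} (hf : Continuous (Function.uncurry f)) (hg : Continuous (Function.uncurry g))
    {a b c d : ℝ} (hab : a ≤ b) (hcd : c ≤ d) (h : ∀ x ∈ Icc a b, ∀ y ∈ Icc c d, f x y ≤ g x y) :
    ∫ x in a..b, ∫ y in c..d, f x y ≤ ∫ x in a..b, ∫ y in c..d, g x y := by
  refine sb_mono (sb_par1 f hf c d) (sb_par1 g hg c d) hab fun x hx => ?_
  exact sb_mono (hf.comp (f := fun y : ℝ => (x, y)) (by fun_prop)) (hg.comp (f := fun y : ℝ => (x, y)) (by fun_prop))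
    hcd fun y hy => h x hx y hy

/-- Cauchy-Schwarz for all the parts -/
theorem sb_H (S : Finset ℕ) (c w g fr : ℝ → ℝ) (fl : ℕ → ℝ → ℝ) (hc : Continuous c) (hw : Continuous w)
    (hg : Continuous g) (hfr : Continuous fr) (hfl : ∀ l, Continuous (fl l)) (C1 : ℝ) (hC1 : 0 ≤ C1)
    (h : ∀ x, g x ≤ C1 + ∑ l ∈ S, fl l x + fr x) :
    ∫ x in (-1 : ℝ)..1, g x * |c x| * |w x| ≤
      (C1 * Real.sqrt (∫ x in (-1 : ℝ)..1, (w x) ^ 2) +
        ∑ l ∈ S, Real.sqrt (∫ x in (-1 : ℝ)..1, (fl l x) ^ 2 * (w x) ^ 2) +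
        Real.sqrt (∫ x in (-1 : ℝ)..1, (fr x) ^ 2 * (w x) ^ 2)) * Real.sqrt (∫ x in (-1 : ℝ)..1, (c x) ^ 2) := by
  have h11 : (-1 : ℝ) ≤ 1 := by norm_num
  have hcs : ∀ f : ℝ → ℝ, Continuous f → ∫ x in (-1 : ℝ)..1, f x * |w x| * |c x| ≤
      Real.sqrt (∫ x in (-1 : ℝ)..1, (f x) ^ 2 * (w x) ^ 2) * Real.sqrt (∫ x in (-1 : ℝ)..1, (c x) ^ 2) := by
    intro f hf
    have h1 := sb_cs (f := fun x => f x * |w x|) (g := fun x => |c x|) (hf.mul hw.abs) hc.abs h11
    simp only [mul_pow, sq_abs] at h1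
    exact h1
  have hS : Continuous fun x => ∑ l ∈ S, fl l x := continuous_finsetSum _ fun l _ => hfl l
  have h1 : ∫ x in (-1 : ℝ)..1, g x * |c x| * |w x| ≤
      ∫ x in (-1 : ℝ)..1, (C1 * (1 * |w x| * |c x|) + ∑ l ∈ S, fl l x * |w x| * |c x| + fr x * |w x| * |c x|) := by
    refine sb_mono ((hg.mul hc.abs).mul hw.abs) ?_ h11 fun x _ => ?_
    · refine ((continuous_const.mul ((continuous_const.mul hw.abs).mul hc.abs)).add ?_).add
        ((hfr.mul hw.abs).mul hc.abs)
      exact continuous_finsetSum _ fun l _ => ((hfl l).mul hw.abs).mul hc.abs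
    · have h2 := mul_le_mul_of_nonneg_right (mul_le_mul_of_nonneg_right (h x) (abs_nonneg (c x))) (abs_nonneg (w x))
      refine h2.trans (le_of_eq ?_)
      rw [← Finset.sum_mul, ← Finset.sum_mul]
      ring
  refine h1.trans ?_
  have i0 : IntervalIntegrable (fun x => C1 * (1 * |w x| * |c x|)) volume (-1) 1 :=
    (continuous_const.mul ((continuous_const.mul hw.abs).mul hc.abs)).intervalIntegrable _ _
  have i1 : ∀ l, IntervalIntegrable (fun x => fl l x * |w x| * |c x|) volume (-1) 1 := fun l =>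
    (((hfl l).mul hw.abs).mul hc.abs).intervalIntegrable _ _
  have i1' : IntervalIntegrable (fun x => ∑ l ∈ S, fl l x * |w x| * |c x|) volume (-1) 1 :=
    (continuous_finsetSum _ fun l _ => ((hfl l).mul hw.abs).mul hc.abs).intervalIntegrable _ _
  have i2 : IntervalIntegrable (fun x => fr x * |w x| * |c x|) volume (-1) 1 :=
    ((hfr.mul hw.abs).mul hc.abs).intervalIntegrable _ _
  rw [intervalIntegral.integral_add (i0.add i1') i2, intervalIntegral.integral_add i0 i1',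
    intervalIntegral.integral_const_mul, intervalIntegral.integral_finsetSum fun l _ => i1 l, add_mul, add_mul,
    mul_assoc, Finset.sum_mul]
  refine add_le_add (add_le_add (mul_le_mul_of_nonneg_left ?_ hC1) (Finset.sum_le_sum fun l _ => hcs _ (hfl l)))
    (hcs _ hfr)
  have h2 := hcs (fun _ => 1) continuous_const
  simp only [one_pow, one_mul] at h2 ⊢
  exact h2

theorem sb_xx_nonneg (l j : ℕ) (u r : ℝ → ℝ) : 0 ≤ xx l j u r := by
  unfold xx cint
  refine intervalIntegral.integral_nonneg (by norm_num) fun x _ => ?_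
  refine intervalIntegral.integral_nonneg (by norm_num) fun y _ => ?_
  have : 0 ≤ th l (x - y) := by
    unfold th
    have := sb_kap_pos l
    positivity
  positivity

/-- the estimate at fixed time; the crossing part remains as an integral over `z`, `s` -/
theorem sb_fix (hK : KerStatement) (hS : SizeStatement) (hI : IdnStatement) (hT : TRStatement) :
    ∀ M : ℕ, Good M → ∀ E : ℝ, ∃ C : ℝ, 0 < C ∧ ∀ u r : ℝ → ℝ, Prof E u r → ∀ j : ℕ, 2 * M ≤ j →
      (∫ x in (-1 : ℝ)..1, |cm M j u x| * |Pa j r x|) ≤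
        C / kap j * (1 / kap j * (1 + ∑ l ∈ Finset.Ico M (j - M), Real.sqrt (xx l j u r + 1)) +
          ∫ z in (-1 : ℝ)..1, ∫ s in (0 : ℝ)..1, 1 / (1 + kap j * |z|) ^ 2 *
            Real.sqrt (∫ x in (-1 : ℝ)..1, (Pa j r x) ^ 2 * (Lo (j - M) r (s * z - x)) ^ 2)) := by
  intro M hM E
  obtain ⟨CA, hCA, hA⟩ := sb_ker hK
  obtain ⟨CK, hCK, hV⟩ := hK
  obtain ⟨CS, hCS, hS⟩ := hS E
  obtain ⟨CT, hCT, hT⟩ := hT M hM E
  have hVc : ∀ i, Continuous (V i) := fun i => (hV i).1.continuous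
  have hVp : ∀ i, Function.Periodic (V i) 2 := fun i => (hV i).2.1
  have hAc : ∀ j, Continuous (A j) ∧ Function.Periodic (A j) 2 := fun j => ⟨(hA j).1, (hA j).2.1⟩
  have h11 : (-1 : ℝ) ≤ 1 := by norm_num
  obtain ⟨Qm, hQm⟩ : ∃ Qm : ℝ, Qm = (65 / 64 : ℝ) ^ M := ⟨_, rfl⟩
  have hQ1 : 1000 ≤ Qm := by rw [hQm]; exact hM.1
  obtain ⟨C1, hC1⟩ : ∃ C1 : ℝ, C1 = CS + CS * Real.sqrt (CS * kap M) := ⟨_, rfl⟩
  have hkM := sb_kap_pos M
  have hC10 : 0 < C1 := by rw [hC1]; positivity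
  obtain ⟨B0, hB0⟩ : ∃ B0 : ℝ, B0 = C1 * Real.sqrt CS := ⟨_, rfl⟩
  have hCS0 : 0 < CS := by linarith
  have hsCS : 0 < Real.sqrt CS := Real.sqrt_pos.2 hCS0
  have hsCT : 0 < Real.sqrt CT := Real.sqrt_pos.2 hCT
  have hB00 : 0 < B0 := by rw [hB0]; positivity
  refine ⟨2 * Real.sqrt CS * Qm * CA * (2 * B0 + 4 * Real.sqrt CT + CS), by positivity, ?_⟩
  intro u r hP j hj
  have hu := hP.cu
  have hr := hP.cr
  have hMn : M ≤ j - M := by omega
  obtain ⟨n, hn⟩ : ∃ n, n = j - M := ⟨_, rfl⟩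
  obtain ⟨κ, hκ⟩ : ∃ κ, κ = kap j := ⟨_, rfl⟩
  have hκ0 : 0 < κ := by rw [hκ]; exact sb_kap_pos j
  have hkn : kap n * Qm = κ := by
    rw [hQm, ← sb_kap_add, hκ, hn, Nat.sub_add_cancel (by omega)]
  have hkn0 : 0 < kap n := sb_kap_pos n
  obtain ⟨hub, -, hSi⟩ := hS u r hP
  have hLu : ∀ i, Continuous (Lo i u) := fun i => sb_conv_cont1 (hVc i) hu
  have hLr : ∀ i, Continuous (Lo i r) := fun i => sb_conv_cont1 (hVc i) hr
  have hPr : ∀ i, Continuous (Pa i r) := fun i => sb_conv_cont1 (hA i).1 hr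
  have hLup : ∀ i, Function.Periodic (Lo i u) 2 := fun i => sb_conv_per (hVp i) u
  -- size of `c`
  have hcL2 : ∫ x in (-1 : ℝ)..1, (Lo (j + M) u x - Lo n u x) ^ 2 ≤ (2 * Real.sqrt CS * Qm / κ) ^ 2 := by
    have h1 : ∫ x in (-1 : ℝ)..1, (Lo (j + M) u x - Lo n u x) ^ 2 ≤
        ∫ x in (-1 : ℝ)..1, (2 * (u x - Lo n u x) ^ 2 + 2 * (u x - Lo (j + M) u x) ^ 2) := by
      refine sb_mono (((hLu _).sub (hLu _)).pow 2) ((continuous_const.mul ((hu.sub (hLu _)).pow 2)).add
        (continuous_const.mul ((hu.sub (hLu _)).pow 2))) h11 fun x _ => ?_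
      have := sq_nonneg ((u x - Lo n u x) + (u x - Lo (j + M) u x))
      show (Lo (j + M) u x - Lo n u x) ^ 2 ≤ 2 * (u x - Lo n u x) ^ 2 + 2 * (u x - Lo (j + M) u x) ^ 2
      nlinarith
    have h2 : ∀ i, ∫ x in (-1 : ℝ)..1, (u x - Lo i u x) ^ 2 ≤ CS / (kap i) ^ 2 := fun i =>
      (hSi i).2.2.2.2.2.2.2.2.2.2.1
    have h2' : ∀ i, IntervalIntegrable (fun x => 2 * (u x - Lo i u x) ^ 2) volume (-1) 1 := fun i =>
      (continuous_const.mul ((hu.sub (hLu i)).pow 2)).intervalIntegrable _ _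
    rw [intervalIntegral.integral_add (h2' n) (h2' (j + M)),
      intervalIntegral.integral_const_mul, intervalIntegral.integral_const_mul] at h1
    have h3 : CS / (kap (j + M)) ^ 2 ≤ CS / (kap n) ^ 2 := by
      have := sb_kap_mono (show n ≤ j + M by omega)
      gcongr
    have h4 : (2 * Real.sqrt CS * Qm / κ) ^ 2 = 4 * (CS / (kap n) ^ 2) := by
      rw [← hkn, div_pow, mul_pow, mul_pow, Real.sq_sqrt hCS0.le]
      field_simp
      ring
    rw [h4]
    have h5 := h2 n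
    have h6 := h2 (j + M)
    linarith
  have hcz : ∀ z, Real.sqrt (∫ x in (-1 : ℝ)..1, (Lo (j + M) u (x - z) - Lo n u (x - z)) ^ 2) ≤
      2 * Real.sqrt CS * Qm / κ := by
    intro z
    rw [sb_trans (F := fun x => (Lo (j + M) u x - Lo n u x) ^ 2) (fun x => by
      show (Lo (j + M) u (x + 2) - Lo n u (x + 2)) ^ 2 = _
      rw [hLup, hLup]) z]
    exact Real.sqrt_le_iff.2 ⟨by positivity, hcL2⟩
  -- pointwise bounds
  have hg : ∀ y, |Lo n u y| * |Lo n r y| ≤ C1 + ∑ l ∈ Finset.Ico M n, |u y| * |Pa l r y| := by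
    intro y
    have h1 : |Lo n u y| ≤ |u y| + |u y - Lo n u y| := by
      have := abs_sub_abs_le_abs_sub (Lo n u y) (u y)
      rw [abs_sub_comm] at this
      linarith
    have h2 : |u y - Lo n u y| * |Lo n r y| ≤ CS := by
      have e1 : |u y - Lo n u y| ≤ Real.sqrt (CS / kap n) := by
        rw [← Real.sqrt_sq_eq_abs]
        exact Real.sqrt_le_sqrt ((hSi n).1 y)
      have e2 : |Lo n r y| ≤ Real.sqrt (CS * kap n) := by
        rw [← Real.sqrt_sq_eq_abs]
        exact Real.sqrt_le_sqrt ((hSi n).2.2.2.1 y)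
      have e3 : Real.sqrt (CS / kap n) * Real.sqrt (CS * kap n) = CS := by
        rw [← Real.sqrt_mul (by positivity)]
        have : CS / kap n * (CS * kap n) = CS ^ 2 := by field_simp
        rw [this, Real.sqrt_sq hCS0.le]
      rw [← e3]
      exact mul_le_mul e1 e2 (abs_nonneg _) (Real.sqrt_nonneg _)
    have h3 : |Lo n r y| ≤ Real.sqrt (CS * kap M) + ∑ l ∈ Finset.Ico M n, |Pa l r y| := by
      rw [sb_tele hVc hr M n (by omega) y]
      refine (abs_add_le _ _).trans (add_le_add ?_ (Finset.abs_sum_le_sum_abs _ _))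
      rw [← Real.sqrt_sq_eq_abs]
      exact Real.sqrt_le_sqrt ((hSi M).2.2.2.1 y)
    have h4 : |u y| * |Lo n r y| ≤ CS * Real.sqrt (CS * kap M) + ∑ l ∈ Finset.Ico M n, |u y| * |Pa l r y| := by
      refine (mul_le_mul_of_nonneg_left h3 (abs_nonneg _)).trans ?_
      rw [mul_add, Finset.mul_sum]
      gcongr
      exact hub y
    have h5 := mul_le_mul_of_nonneg_right h1 (abs_nonneg (Lo n r y))
    rw [add_mul] at h5
    rw [hC1]
    linarith
  have hg2 : ∀ y, |Lo n u y| * (|Lo n r y| + |Lo n r (-y)|) ≤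
      C1 + ∑ l ∈ Finset.Ico M n, |u y| * |Pa l r y| + CS * |Lo n r (-y)| := by
    intro y
    have h1 := hg y
    have h2 := mul_le_mul_of_nonneg_right ((hSi n).2.1 y) (abs_nonneg (Lo n r (-y)))
    rw [mul_add]
    linarith
  have hnn : n ≤ j := by omega
  -- the sum of the TR terms
  obtain ⟨S1, hS1⟩ : ∃ S1 : ℝ, S1 = ∑ l ∈ Finset.Ico M n, Real.sqrt (xx l j u r + 1) := ⟨_, rfl⟩
  have hS10 : 0 ≤ S1 := by rw [hS1]; exact Finset.sum_nonneg fun l _ => Real.sqrt_nonneg _
  obtain ⟨N, hN⟩ : ∃ N : ℝ → ℝ, N = fun h => Real.sqrt (∫ x in (-1 : ℝ)..1, (Pa j r x) ^ 2 *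
    (Lo n r (h - x)) ^ 2) := ⟨_, rfl⟩
  have hNc : Continuous N := by
    rw [hN]
    refine Real.continuous_sqrt.comp (sb_par1 (fun h x => (Pa j r x) ^ 2 * (Lo n r (h - x)) ^ 2) ?_ (-1) 1)
    exact (((hPr j).comp continuous_snd).pow 2).mul (((hLr n).comp (continuous_fst.sub continuous_snd)).pow 2)
  have hH : ∀ z ∈ Icc (-1 : ℝ) 1, ∀ s ∈ Icc (0 : ℝ) 1,
      ∫ x in (-1 : ℝ)..1, (|Lo n u (x - s * z)| * (|Lo n r (x - s * z)| + |Lo n r (-(x - s * z))|)) *
        |Lo (j + M) u (x - z) - Lo n u (x - z)| * |Pa j r x| ≤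
      (B0 + 2 * Real.sqrt CT * (1 + κ * |z|) * S1 + CS * N (s * z)) * (2 * Real.sqrt CS * Qm / κ) := by
    intro z hz s hs
    have e : ∀ f : ℝ → ℝ, Continuous f → ∀ h : ℝ, Continuous fun x => f (x - h) := fun f hf h =>
      hf.comp (by fun_prop)
    have h1 := sb_H (Finset.Ico M n) (fun x => Lo (j + M) u (x - z) - Lo n u (x - z)) (Pa j r)
      (fun x => |Lo n u (x - s * z)| * (|Lo n r (x - s * z)| + |Lo n r (-(x - s * z))|))
      (fun x => CS * |Lo n r (-(x - s * z))|) (fun l x => |u (x - s * z)| * |Pa l r (x - s * z)|)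
      ((e _ (hLu _) z).sub (e _ (hLu _) z)) (hPr j)
      ((e _ (hLu _) _).abs.mul ((e _ (hLr _) _).abs.add ((hLr n).comp (by fun_prop)).abs))
      (continuous_const.mul ((hLr n).comp (by fun_prop)).abs)
      (fun l => (e _ hu _).abs.mul (e _ (hPr l) _).abs) C1 hC10.le (fun x => hg2 (x - s * z))
    refine h1.trans (mul_le_mul ?_ (hcz z) (Real.sqrt_nonneg _) (by
      have : 0 ≤ N (s * z) := by rw [hN]; exact Real.sqrt_nonneg _
      positivity))
    refine add_le_add (add_le_add ?_ ?_) ?_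
    · rw [hB0]
      exact mul_le_mul_of_nonneg_left (Real.sqrt_le_sqrt (hSi j).2.2.2.2.2.2.2.1) hC10.le
    · rw [hS1, Finset.mul_sum]
      refine Finset.sum_le_sum fun l hl => ?_
      rw [Finset.mem_Ico] at hl
      have hsep : Sep l j := by
        unfold Sep
        have h2 := sb_kap_mono (show l + M ≤ j by omega)
        rw [sb_kap_add, ← hQm] at h2
        have h3 := sb_kap_pos l
        nlinarith
      have h2 := (hT u r hP l j hl.1 hsep (-(s * z))).1
      have h3 : ∫ x in (-1 : ℝ)..1, (|u (x - s * z)| * |Pa l r (x - s * z)|) ^ 2 * (Pa j r x) ^ 2 ≤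
          CT * (1 + kap l * dl (-(s * z))) ^ 2 * (xx l j u r + 1) := by
        refine le_trans (le_of_eq ?_) h2
        refine intervalIntegral.integral_congr fun x _ => ?_
        show (|u (x - s * z)| * |Pa l r (x - s * z)|) ^ 2 * (Pa j r x) ^ 2 =
          (u (x + -(s * z))) ^ 2 * (Pa l r (x + -(s * z))) ^ 2 * (Pa j r x) ^ 2
        rw [mul_pow, sq_abs, sq_abs, ← sub_eq_add_neg]
      have hd : 1 + kap l * dl (-(s * z)) ≤ 2 * (1 + κ * |z|) := by
        have h4 := sb_dl_le (-(s * z))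
        have h5 : |-(s * z)| ≤ |z| := by
          rw [abs_neg, abs_mul, abs_of_nonneg hs.1]
          exact mul_le_of_le_one_left (abs_nonneg _) hs.2
        have h6 : kap l ≤ κ := by rw [hκ]; exact sb_kap_mono (by omega)
        have h7 : kap l * dl (-(s * z)) ≤ κ * (2 * |z|) :=
          mul_le_mul h6 (h4.trans (by linarith)) (sb_dl_nonneg _) hκ0.le
        linarith
      have hd0 : 0 ≤ 1 + kap l * dl (-(s * z)) := by
        have := mul_nonneg (sb_kap_pos l).le (sb_dl_nonneg (-(s * z)))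
        linarith
      have hx0 := sb_xx_nonneg l j u r
      calc Real.sqrt (∫ x in (-1 : ℝ)..1, (|u (x - s * z)| * |Pa l r (x - s * z)|) ^ 2 * (Pa j r x) ^ 2)
          ≤ Real.sqrt (CT * (1 + kap l * dl (-(s * z))) ^ 2 * (xx l j u r + 1)) := Real.sqrt_le_sqrt h3
        _ = Real.sqrt CT * (1 + kap l * dl (-(s * z))) * Real.sqrt (xx l j u r + 1) := by
          rw [Real.sqrt_mul (by positivity), Real.sqrt_mul hCT.le, Real.sqrt_sq hd0]
        _ ≤ Real.sqrt CT * (2 * (1 + κ * |z|)) * Real.sqrt (xx l j u r + 1) := by gcongr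
        _ = 2 * Real.sqrt CT * (1 + κ * |z|) * Real.sqrt (xx l j u r + 1) := by ring
    · refine le_of_eq ?_
      have h4 : ∫ x in (-1 : ℝ)..1, (CS * |Lo n r (-(x - s * z))|) ^ 2 * (Pa j r x) ^ 2 =
          CS ^ 2 * ∫ x in (-1 : ℝ)..1, (Pa j r x) ^ 2 * (Lo n r (s * z - x)) ^ 2 := by
        rw [← intervalIntegral.integral_const_mul]
        refine intervalIntegral.integral_congr fun x _ => ?_
        show (CS * |Lo n r (-(x - s * z))|) ^ 2 * (Pa j r x) ^ 2 = _
        rw [mul_pow, sq_abs, neg_sub]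
        ring
      rw [h4, Real.sqrt_mul (sq_nonneg _), Real.sqrt_sq hCS0.le, hN]
  -- assembly
  obtain ⟨g, hg'⟩ : ∃ g : ℝ → ℝ, g = fun y => |Lo n u y| * (|Lo n r y| + |Lo n r (-y)|) := ⟨_, rfl⟩
  obtain ⟨c, hc'⟩ : ∃ c : ℝ → ℝ, c = fun y => Lo (j + M) u y - Lo n u y := ⟨_, rfl⟩
  obtain ⟨W, hW⟩ : ∃ W : ℝ → ℝ, W = fun z => 1 / (1 + κ * |z|) ^ 2 := ⟨_, rfl⟩
  have hgc : Continuous g := by
    rw [hg']
    exact (hLu n).abs.mul ((hLr n).abs.add ((hLr n).comp continuous_neg).abs)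
  have hcc : Continuous c := by rw [hc']; exact (hLu _).sub (hLu _)
  have hWc : Continuous W := by rw [hW]; exact sb_W_cont κ hκ0
  have hW0 : ∀ z, 0 ≤ W z := by
    intro z
    rw [hW]
    show 0 ≤ 1 / (1 + κ * |z|) ^ 2
    positivity
  have hN0 : ∀ h, 0 ≤ N h := by
    intro h
    rw [hN]
    exact Real.sqrt_nonneg _
  have hH' : ∀ z ∈ Icc (-1 : ℝ) 1, ∀ s ∈ Icc (0 : ℝ) 1,
      ∫ x in (-1 : ℝ)..1, g (x - s * z) * |c (x - z)| * |Pa j r x| ≤
      (B0 + 2 * Real.sqrt CT * (1 + κ * |z|) * S1 + CS * N (s * z)) * (2 * Real.sqrt CS * Qm / κ) := by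
    rw [hg', hc']
    exact hH
  obtain ⟨F, hF⟩ : ∃ F : ℝ → ℝ → ℝ → ℝ, F = fun x z s => |A j z| * |z| * (g (x - s * z) * |c (x - z)| * |Pa j r x|) :=
    ⟨_, rfl⟩
  have hFc : Continuous fun p : ℝ × ℝ × ℝ => F p.1 p.2.1 p.2.2 := by
    rw [hF]
    have e1 : Continuous fun p : ℝ × ℝ × ℝ => |A j p.2.1| * |p.2.1| :=
      ((hA j).1.comp (continuous_fst.comp continuous_snd)).abs.mul (continuous_fst.comp continuous_snd).abs
    have e2 : Continuous fun p : ℝ × ℝ × ℝ => g (p.1 - p.2.2 * p.2.1) := hgc.comp (by fun_prop)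
    have e3 : Continuous fun p : ℝ × ℝ × ℝ => c (p.1 - p.2.1) := hcc.comp (by fun_prop)
    have e4 : Continuous fun p : ℝ × ℝ × ℝ => Pa j r p.1 := (hPr j).comp continuous_fst
    exact e1.mul ((e2.mul e3.abs).mul e4.abs)
  have hcmc : Continuous (cm M j u) := by
    unfold cm
    have hd : Continuous fun y => Lo (j + M) u y - Lo (j - M) u y := (hLu _).sub (hLu _)
    exact ((hLu _).pow 2).mul (sb_conv_cont1 (hA j).1 hd) |>.sub
      (sb_conv_cont1 (hA j).1 (((hLu _).pow 2).mul hd))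
  have hpt : ∀ x, |cm M j u x| * |Pa j r x| ≤ ∫ z in (-1 : ℝ)..1, ∫ s in (0 : ℝ)..1, F x z s := by
    intro x
    have e0 : Continuous fun z => ∫ s in (0 : ℝ)..1, g (x - s * z) :=
      sb_par1 (fun z s => g (x - s * z)) (hgc.comp (f := fun q : ℝ × ℝ => x - q.2 * q.1) (by fun_prop)) 0 1
    have e1 : Continuous fun z => Lo n u (x - z) := (hLu n).comp (by fun_prop)
    have e2 : Continuous fun z => c (x - z) := hcc.comp (by fun_prop)
    have h1 : |cm M j u x| ≤ ∫ z in (-1 : ℝ)..1, |A j z| * (|z| * ∫ s in (0 : ℝ)..1, g (x - s * z)) * |c (x - z)| := by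
      rw [sb_cm hAc hVc hVp M j hu x, ← hn]
      refine (intervalIntegral.abs_integral_le_integral_abs h11).trans ?_
      refine sb_mono ((((hA j).1.mul (continuous_const.sub (e1.pow 2))).mul ?_).abs)
        (((hA j).1.abs.mul (continuous_abs.mul e0)).mul e2.abs) h11 fun z _ => ?_
      · rw [hc'] at e2
        exact e2
      · show |A j z * ((Lo n u x) ^ 2 - (Lo n u (x - z)) ^ 2) * (Lo (j + M) u (x - z) - Lo n u (x - z))| ≤
          |A j z| * (|z| * ∫ s in (0 : ℝ)..1, g (x - s * z)) * |c (x - z)|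
        rw [abs_mul, abs_mul, hc']
        refine mul_le_mul_of_nonneg_right (mul_le_mul_of_nonneg_left ?_ (abs_nonneg _)) (abs_nonneg _)
        rw [hg']
        exact sb_diff (fun x => ((hI.2 E u r hP n x).2.1)) (hLr n) x z
    refine (mul_le_mul_of_nonneg_right h1 (abs_nonneg _)).trans (le_of_eq ?_)
    rw [← intervalIntegral.integral_mul_const, hF]
    refine intervalIntegral.integral_congr fun z _ => ?_
    show |A j z| * (|z| * ∫ s in (0 : ℝ)..1, g (x - s * z)) * |c (x - z)| * |Pa j r x| =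
      ∫ s in (0 : ℝ)..1, |A j z| * |z| * (g (x - s * z) * |c (x - z)| * |Pa j r x|)
    rw [intervalIntegral.integral_const_mul, intervalIntegral.integral_mul_const, intervalIntegral.integral_mul_const]
    ring
  have hIc : Continuous (Function.uncurry fun z s => W z * N (s * z)) := by
    have e1 : Continuous fun q : ℝ × ℝ => W q.1 := hWc.comp continuous_fst
    have e2 : Continuous fun q : ℝ × ℝ => N (q.2 * q.1) := hNc.comp (by fun_prop)
    exact e1.mul e2
  have hmain : ∫ x in (-1 : ℝ)..1, |cm M j u x| * |Pa j r x| ≤ 2 * Real.sqrt CS * Qm / κ * CA *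
      ((B0 + 2 * Real.sqrt CT * S1) * (∫ z in (-1 : ℝ)..1, W z) +
        CS * ∫ z in (-1 : ℝ)..1, ∫ s in (0 : ℝ)..1, W z * N (s * z)) := by
    have hFp : Continuous (Function.uncurry fun (x z : ℝ) => ∫ s in (0 : ℝ)..1, F x z s) :=
      sb_par (fun p s => F p.1 p.2 s)
        (hFc.comp (f := fun q : (ℝ × ℝ) × ℝ => ((q.1.1, q.1.2, q.2) : ℝ × ℝ × ℝ)) (by fun_prop)) 0 1
    have h1 : ∫ x in (-1 : ℝ)..1, |cm M j u x| * |Pa j r x| ≤
        ∫ x in (-1 : ℝ)..1, ∫ z in (-1 : ℝ)..1, ∫ s in (0 : ℝ)..1, F x z s :=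
      sb_mono (hcmc.abs.mul (hPr j).abs) (sb_par1 _ hFp (-1) 1) h11 fun x _ => hpt x
    rw [sb_swap3 F hFc] at h1
    refine h1.trans ?_
    have h2 : ∫ z in (-1 : ℝ)..1, ∫ s in (0 : ℝ)..1, ∫ x in (-1 : ℝ)..1, F x z s ≤
        ∫ z in (-1 : ℝ)..1, ∫ s in (0 : ℝ)..1, 2 * Real.sqrt CS * Qm / κ * CA *
          ((B0 + 2 * Real.sqrt CT * S1) * W z + CS * (W z * N (s * z))) := by
      refine sb_mono2 ?_ ?_ h11 zero_le_one fun z hz s hs => ?_
      · exact sb_par (fun p x => F x p.1 p.2)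
          (hFc.comp (f := fun q : (ℝ × ℝ) × ℝ => ((q.2, q.1.1, q.1.2) : ℝ × ℝ × ℝ)) (by fun_prop)) (-1) 1
      · exact continuous_const.mul ((continuous_const.mul (hWc.comp continuous_fst)).add (continuous_const.mul hIc))
      · have h3 := hH' z hz s hs
        have h4 := (hA j).2.2 z (abs_le.2 ⟨hz.1, hz.2⟩)
        rw [← hκ] at h4
        have h5 : ∫ x in (-1 : ℝ)..1, F x z s = |A j z| * |z| *
            ∫ x in (-1 : ℝ)..1, g (x - s * z) * |c (x - z)| * |Pa j r x| := by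
          rw [hF]
          exact intervalIntegral.integral_const_mul _ _
        rw [h5]
        have h6 : |A j z| * |z| * (1 + κ * |z|) ≤ CA * W z := by rw [hW]; exact h4
        have h7 : |A j z| * |z| ≤ CA * W z := by
          refine le_trans ?_ h6
          have : 0 ≤ κ * |z| := by positivity
          have h8 : 0 ≤ |A j z| * |z| := by positivity
          nlinarith
        have hc0 : 0 ≤ 2 * Real.sqrt CS * Qm / κ := by positivity
        have hNn := hN0 (s * z)
        calc |A j z| * |z| * ∫ x in (-1 : ℝ)..1, g (x - s * z) * |c (x - z)| * |Pa j r x|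
            ≤ |A j z| * |z| * ((B0 + 2 * Real.sqrt CT * (1 + κ * |z|) * S1 + CS * N (s * z)) *
                (2 * Real.sqrt CS * Qm / κ)) := mul_le_mul_of_nonneg_left h3 (by positivity)
          _ = 2 * Real.sqrt CS * Qm / κ * (|A j z| * |z| * (B0 + CS * N (s * z)) +
                |A j z| * |z| * (1 + κ * |z|) * (2 * Real.sqrt CT * S1)) := by ring
          _ ≤ 2 * Real.sqrt CS * Qm / κ * (CA * W z * (B0 + CS * N (s * z)) +
                CA * W z * (2 * Real.sqrt CT * S1)) := by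
            refine mul_le_mul_of_nonneg_left (add_le_add ?_ ?_) hc0
            · exact mul_le_mul_of_nonneg_right h7 (by positivity)
            · exact mul_le_mul_of_nonneg_right h6 (by positivity)
          _ = _ := by ring
    refine h2.trans (le_of_eq ?_)
    have h3 : ∀ z, ∫ s in (0 : ℝ)..1, 2 * Real.sqrt CS * Qm / κ * CA *
        ((B0 + 2 * Real.sqrt CT * S1) * W z + CS * (W z * N (s * z))) =
        2 * Real.sqrt CS * Qm / κ * CA * ((B0 + 2 * Real.sqrt CT * S1) * W z +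
          CS * ∫ s in (0 : ℝ)..1, W z * N (s * z)) := by
      intro z
      have e2 : Continuous fun s : ℝ => W z * N (s * z) := continuous_const.mul (hNc.comp (by fun_prop))
      have i1 : IntervalIntegrable (fun _ : ℝ => (B0 + 2 * Real.sqrt CT * S1) * W z) volume 0 1 :=
        continuous_const.intervalIntegrable _ _
      have i2 : IntervalIntegrable (fun s : ℝ => CS * (W z * N (s * z))) volume 0 1 :=
        (continuous_const.mul e2).intervalIntegrable _ _
      rw [intervalIntegral.integral_const_mul, intervalIntegral.integral_add i1 i2,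
        intervalIntegral.integral_const_mul CS, intervalIntegral.integral_const]
      simp
    rw [intervalIntegral.integral_congr fun z _ => h3 z]
    have e3 : Continuous fun z => ∫ s in (0 : ℝ)..1, W z * N (s * z) := sb_par1 _ hIc 0 1
    have i1 : IntervalIntegrable (fun z : ℝ => (B0 + 2 * Real.sqrt CT * S1) * W z) volume (-1) 1 :=
      (continuous_const.mul hWc).intervalIntegrable _ _
    have i2 : IntervalIntegrable (fun z : ℝ => CS * ∫ s in (0 : ℝ)..1, W z * N (s * z)) volume (-1) 1 :=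
      (continuous_const.mul e3).intervalIntegrable _ _
    rw [intervalIntegral.integral_const_mul, intervalIntegral.integral_add i1 i2,
        intervalIntegral.integral_const_mul, intervalIntegral.integral_const_mul]
  refine hmain.trans ?_
  have hWi : ∫ z in (-1 : ℝ)..1, W z ≤ 2 / κ := by rw [hW]; exact sb_W hκ0
  obtain ⟨I, hIdef⟩ : ∃ I, I = ∫ z in (-1 : ℝ)..1, ∫ s in (0 : ℝ)..1, W z * N (s * z) := ⟨_, rfl⟩
  have hI0 : 0 ≤ I := by
    rw [hIdef]
    refine intervalIntegral.integral_nonneg h11 fun z _ => ?_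
    exact intervalIntegral.integral_nonneg zero_le_one fun s _ => mul_nonneg (hW0 z) (hN0 _)
  have hI' : ∫ z in (-1 : ℝ)..1, ∫ s in (0 : ℝ)..1, 1 / (1 + kap j * |z|) ^ 2 *
            Real.sqrt (∫ x in (-1 : ℝ)..1, (Pa j r x) ^ 2 * (Lo (j - M) r (s * z - x)) ^ 2) = I := by
    rw [hIdef, hW, hN, hκ, hn]
  rw [hI', ← hn, ← hκ, ← hS1, ← hIdef]
  have h1 : (B0 + 2 * Real.sqrt CT * S1) * (∫ z in (-1 : ℝ)..1, W z) + CS * I ≤
      (2 * B0 + 4 * Real.sqrt CT + CS) * (1 / κ * (1 + S1) + I) := by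
    have h2 : (B0 + 2 * Real.sqrt CT * S1) * (∫ z in (-1 : ℝ)..1, W z) ≤
        (B0 + 2 * Real.sqrt CT * S1) * (2 / κ) := mul_le_mul_of_nonneg_left hWi (by positivity)
    have h3 : (2 * B0 + 4 * Real.sqrt CT + CS) * (1 / κ * (1 + S1) + I) =
        (B0 + 2 * Real.sqrt CT * S1) * (2 / κ) + CS * I + (1 / κ * (2 * B0 * S1 + 4 * Real.sqrt CT +
          CS * (1 + S1)) + (2 * B0 + 4 * Real.sqrt CT) * I) := by ring
    have h4 : 0 ≤ 1 / κ * (2 * B0 * S1 + 4 * Real.sqrt CT + CS * (1 + S1)) +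
        (2 * B0 + 4 * Real.sqrt CT) * I := by positivity
    linarith
  have h5 : 0 ≤ 2 * Real.sqrt CS * Qm / κ * CA := by positivity
  refine (mul_le_mul_of_nonneg_left h1 h5).trans (le_of_eq ?_)
  ring

/-- Sb. -/
theorem sb_proof (hT : TRStatement) (hX : CrossStatement) (hS : SizeStatement) (hI : IdnStatement)
    (hK : KerStatement) : SbStatement := by
  intro M hM E
  obtain ⟨C, hC, hfix⟩ := sb_fix hK hS hI hT M hM E
  obtain ⟨CX, hCX, hcr⟩ := hX E
  obtain ⟨CA, hCA, hA⟩ := sb_ker hK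
  obtain ⟨CK, hCK, hV⟩ := hK
  have hVc : ∀ i, Continuous (V i) := fun i => (hV i).1.continuous
  refine ⟨C * (2 + 2 * Real.sqrt CX), by positivity, ?_⟩
  intro u r hc j hj t0 t1 ht
  have h11 : (-1 : ℝ) ≤ 1 := by norm_num
  obtain ⟨κ, hκ⟩ : ∃ κ, κ = kap j := ⟨_, rfl⟩
  have hκ0 : 0 < κ := by rw [hκ]; exact sb_kap_pos j
  obtain ⟨n, hn⟩ : ∃ n, n = j - M := ⟨_, rfl⟩
  obtain ⟨T, hT'⟩ : ∃ T, T = t1 - t0 + 1 := ⟨_, rfl⟩
  have hT1 : 1 ≤ T := by rw [hT']; linarith
  have hLu : ∀ i, Continuous (Function.uncurry fun t x => Lo i (u t) x) := fun i => sb_conv_cont (hVc i) hc.cu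
  have hLr : ∀ i, Continuous (Function.uncurry fun t x => Lo i (r t) x) := fun i => sb_conv_cont (hVc i) hc.cr
  have hPr : ∀ i, Continuous (Function.uncurry fun t x => Pa i (r t) x) := fun i => sb_conv_cont (hA i).1 hc.cr
  -- continuity in time
  have hcm : Continuous (Function.uncurry fun t x => cm M j (u t) x) := by
    unfold cm
    have hd : Continuous (Function.uncurry fun t y => Lo (j + M) (u t) y - Lo (j - M) (u t) y) :=
      (hLu (j + M)).sub (hLu (j - M))
    have hd2 : Continuous (Function.uncurry fun t y => (Lo (j - M) (u t) y) ^ 2 *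
        (Lo (j + M) (u t) y - Lo (j - M) (u t) y)) := ((hLu (j - M)).pow 2).mul hd
    exact (((hLu (j - M)).pow 2).mul (sb_conv_cont (hA j).1 hd)).sub (sb_conv_cont (hA j).1 hd2)
  have hlhs : Continuous fun t => ∫ x in (-1 : ℝ)..1, |cm M j (u t) x| * |Pa j (r t) x| :=
    sb_par1 (fun t x => |cm M j (u t) x| * |Pa j (r t) x|) (hcm.abs.mul (hPr j).abs) (-1) 1
  have hxx : ∀ l, Continuous fun t => xx l j (u t) (r t) := by
    intro l
    unfold xx cint
    refine sb_par1 (fun t x => ∫ y in (-1 : ℝ)..1, th l (x - y) * (u t x) ^ 2 * (Pa l (r t) x) ^ 2 *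
      (Pa j (r t) y) ^ 2) ?_ (-1) 1
    refine sb_par (fun p y => th l (p.2 - y) * (u p.1 p.2) ^ 2 * (Pa l (r p.1) p.2) ^ 2 * (Pa j (r p.1) y) ^ 2) ?_
      (-1) 1
    have e1 : Continuous fun q : (ℝ × ℝ) × ℝ => th l (q.1.2 - q.2) := (sb_th_cont l).comp (by fun_prop)
    have e2 : Continuous fun q : (ℝ × ℝ) × ℝ => u q.1.1 q.1.2 :=
      hc.cu.comp (f := fun q : (ℝ × ℝ) × ℝ => (q.1.1, q.1.2)) (by fun_prop)
    have e3 : Continuous fun q : (ℝ × ℝ) × ℝ => Pa l (r q.1.1) q.1.2 :=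
      (hPr l).comp (f := fun q : (ℝ × ℝ) × ℝ => (q.1.1, q.1.2)) (by fun_prop)
    have e4 : Continuous fun q : (ℝ × ℝ) × ℝ => Pa j (r q.1.1) q.2 :=
      (hPr j).comp (f := fun q : (ℝ × ℝ) × ℝ => (q.1.1, q.2)) (by fun_prop)
    exact ((e1.mul (e2.pow 2)).mul (e3.pow 2)).mul (e4.pow 2)
  -- the crossing part
  obtain ⟨G, hG⟩ : ∃ G : ℝ → ℝ → ℝ, G = fun t h => ∫ x in (-1 : ℝ)..1, (Pa j (r t) x) ^ 2 *
    (Lo n (r t) (h - x)) ^ 2 := ⟨_, rfl⟩
  have hGc : Continuous (Function.uncurry G) := by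
    rw [hG]
    refine sb_par (fun p x => (Pa j (r p.1) x) ^ 2 * (Lo n (r p.1) (p.2 - x)) ^ 2) ?_ (-1) 1
    have e1 : Continuous fun q : (ℝ × ℝ) × ℝ => Pa j (r q.1.1) q.2 :=
      (hPr j).comp (f := fun q : (ℝ × ℝ) × ℝ => (q.1.1, q.2)) (by fun_prop)
    have e2 : Continuous fun q : (ℝ × ℝ) × ℝ => Lo n (r q.1.1) (q.1.2 - q.2) :=
      (hLr n).comp (f := fun q : (ℝ × ℝ) × ℝ => (q.1.1, q.1.2 - q.2)) (by fun_prop)
    exact (e1.pow 2).mul (e2.pow 2)
  have hG0 : ∀ t h, 0 ≤ G t h := by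
    intro t h
    rw [hG]
    exact intervalIntegral.integral_nonneg h11 fun x _ => by positivity
  have hGint : ∀ h, ∫ t in t0..t1, Real.sqrt (G t h) ≤ Real.sqrt CX * T := by
    intro h
    have h1 := sb_sqrt (f := fun t => G t h) (hGc.comp (f := fun t : ℝ => (t, h)) (by fun_prop)) (fun t => hG0 t h) ht
    have h2 : ∫ t in t0..t1, G t h ≤ CX * T := by
      rw [hG, hT']
      exact (hcr u r hc t0 t1 ht).2.1 n j h
    have h3 : Real.sqrt (t1 - t0) ≤ Real.sqrt T := Real.sqrt_le_sqrt (by rw [hT']; linarith)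
    calc ∫ t in t0..t1, Real.sqrt (G t h) ≤ Real.sqrt (t1 - t0) * Real.sqrt (∫ t in t0..t1, G t h) := h1
      _ ≤ Real.sqrt T * Real.sqrt (CX * T) := mul_le_mul h3 (Real.sqrt_le_sqrt h2) (Real.sqrt_nonneg _)
          (Real.sqrt_nonneg _)
      _ = Real.sqrt CX * T := by
        rw [Real.sqrt_mul hCX.le]
        have : Real.sqrt T * Real.sqrt T = T := Real.mul_self_sqrt (by linarith)
        calc Real.sqrt T * (Real.sqrt CX * Real.sqrt T) = Real.sqrt CX * (Real.sqrt T * Real.sqrt T) := by ring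
          _ = _ := by rw [this]
  obtain ⟨W, hW⟩ : ∃ W : ℝ → ℝ, W = fun z => 1 / (1 + κ * |z|) ^ 2 := ⟨_, rfl⟩
  have hWc : Continuous W := by rw [hW]; exact sb_W_cont κ hκ0
  have hW0 : ∀ z, 0 ≤ W z := by
    intro z
    rw [hW]
    show 0 ≤ 1 / (1 + κ * |z|) ^ 2
    positivity
  have hFc : Continuous fun p : ℝ × ℝ × ℝ => W p.2.1 * Real.sqrt (G p.1 (p.2.2 * p.2.1)) := by
    have e1 : Continuous fun p : ℝ × ℝ × ℝ => G p.1 (p.2.2 * p.2.1) :=
      hGc.comp (f := fun p : ℝ × ℝ × ℝ => (p.1, p.2.2 * p.2.1)) (by fun_prop)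
    exact (hWc.comp (continuous_fst.comp continuous_snd)).mul (Real.continuous_sqrt.comp e1)
  have hIc : Continuous fun t => ∫ z in (-1 : ℝ)..1, ∫ s in (0 : ℝ)..1, W z * Real.sqrt (G t (s * z)) := by
    refine sb_par1 (fun t z => ∫ s in (0 : ℝ)..1, W z * Real.sqrt (G t (s * z))) ?_ (-1) 1
    exact sb_par (fun p s => W p.2 * Real.sqrt (G p.1 (s * p.2)))
      (hFc.comp (f := fun q : (ℝ × ℝ) × ℝ => ((q.1.1, q.1.2, q.2) : ℝ × ℝ × ℝ)) (by fun_prop)) 0 1
  have hII : ∫ t in t0..t1, ∫ z in (-1 : ℝ)..1, ∫ s in (0 : ℝ)..1, W z * Real.sqrt (G t (s * z)) ≤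
      2 / κ * (Real.sqrt CX * T) := by
    rw [sb_swap3 (fun t z s => W z * Real.sqrt (G t (s * z))) hFc]
    have h1 : ∫ z in (-1 : ℝ)..1, ∫ s in (0 : ℝ)..1, ∫ t in t0..t1, W z * Real.sqrt (G t (s * z)) ≤
        ∫ z in (-1 : ℝ)..1, ∫ s in (0 : ℝ)..1, W z * (Real.sqrt CX * T) := by
      refine sb_mono2 ?_ ((hWc.comp continuous_fst).mul continuous_const) h11 zero_le_one fun z _ s _ => ?_
      · exact sb_par (fun p t => W p.1 * Real.sqrt (G t (p.2 * p.1)))
          (hFc.comp (f := fun q : (ℝ × ℝ) × ℝ => ((q.2, q.1.1, q.1.2) : ℝ × ℝ × ℝ)) (by fun_prop)) t0 t1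
      · rw [intervalIntegral.integral_const_mul]
        exact mul_le_mul_of_nonneg_left (hGint _) (hW0 z)
    refine h1.trans ?_
    have h2 : ∀ z, ∫ s in (0 : ℝ)..1, W z * (Real.sqrt CX * T) = W z * (Real.sqrt CX * T) := by
      intro z
      rw [intervalIntegral.integral_const]
      simp
    rw [intervalIntegral.integral_congr fun z _ => h2 z, intervalIntegral.integral_mul_const]
    refine mul_le_mul_of_nonneg_right ?_ (by positivity)
    rw [hW]
    exact sb_W hκ0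
  -- the sum
  have hXi : ∀ l, ∫ t in t0..t1, Real.sqrt (xx l j (u t) (r t) + 1) ≤
      Real.sqrt ((X l j u r t0 t1 + T) * T) := by
    intro l
    have h1 := sb_sqrt (f := fun t => xx l j (u t) (r t) + 1) ((hxx l).add continuous_const)
      (fun t => by have := sb_xx_nonneg l j (u t) (r t); linarith) ht
    have h2 : ∫ t in t0..t1, (xx l j (u t) (r t) + 1) = X l j u r t0 t1 + (t1 - t0) := by
      rw [intervalIntegral.integral_add ((hxx l).intervalIntegrable _ _) (continuous_const.intervalIntegrable _ _),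
        intervalIntegral.integral_const]
      simp [X]
    rw [h2] at h1
    have hX0 : 0 ≤ X l j u r t0 t1 := by
      unfold X
      exact intervalIntegral.integral_nonneg ht fun t _ => sb_xx_nonneg l j (u t) (r t)
    refine h1.trans ?_
    rw [← Real.sqrt_mul (by linarith)]
    refine Real.sqrt_le_sqrt ?_
    have h3 : t1 - t0 ≤ T := by rw [hT']; linarith
    have h4 : 0 ≤ t1 - t0 := by linarith
    nlinarith [mul_nonneg h4 h4]
  -- time integration
  have hbd : ∀ t, ∫ x in (-1 : ℝ)..1, |cm M j (u t) x| * |Pa j (r t) x| ≤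
      C / κ * (1 / κ * (1 + ∑ l ∈ Finset.Ico M n, Real.sqrt (xx l j (u t) (r t) + 1)) +
        ∫ z in (-1 : ℝ)..1, ∫ s in (0 : ℝ)..1, W z * Real.sqrt (G t (s * z))) := by
    intro t
    have h := hfix (u t) (r t) (hc.prof t) j hj
    rw [hW, hG, hκ, hn]
    exact h
  have hSc : Continuous fun t => ∑ l ∈ Finset.Ico M n, Real.sqrt (xx l j (u t) (r t) + 1) :=
    continuous_finsetSum _ fun l _ => Real.continuous_sqrt.comp ((hxx l).add continuous_const)
  have h1 : ∫ t in t0..t1, ∫ x in (-1 : ℝ)..1, |cm M j (u t) x| * |Pa j (r t) x| ≤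
      ∫ t in t0..t1, C / κ * (1 / κ * (1 + ∑ l ∈ Finset.Ico M n, Real.sqrt (xx l j (u t) (r t) + 1)) +
        ∫ z in (-1 : ℝ)..1, ∫ s in (0 : ℝ)..1, W z * Real.sqrt (G t (s * z))) :=
    sb_mono hlhs (continuous_const.mul ((continuous_const.mul (continuous_const.add hSc)).add hIc)) ht fun t _ => hbd t
  have i1 : IntervalIntegrable (fun t => 1 / κ * (1 + ∑ l ∈ Finset.Ico M n, Real.sqrt (xx l j (u t) (r t) + 1)))
      volume t0 t1 := (continuous_const.mul (continuous_const.add hSc)).intervalIntegrable _ _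
  have i2 : IntervalIntegrable (fun t => ∫ z in (-1 : ℝ)..1, ∫ s in (0 : ℝ)..1, W z * Real.sqrt (G t (s * z)))
      volume t0 t1 := hIc.intervalIntegrable _ _
  have i3 : IntervalIntegrable (fun _ : ℝ => (1 : ℝ)) volume t0 t1 := continuous_const.intervalIntegrable _ _
  have i4 : IntervalIntegrable (fun t => ∑ l ∈ Finset.Ico M n, Real.sqrt (xx l j (u t) (r t) + 1)) volume t0 t1 :=
    hSc.intervalIntegrable _ _
  have i5 : ∀ l, IntervalIntegrable (fun t => Real.sqrt (xx l j (u t) (r t) + 1)) volume t0 t1 := fun l =>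
    (Real.continuous_sqrt.comp ((hxx l).add continuous_const)).intervalIntegrable _ _
  rw [intervalIntegral.integral_const_mul, intervalIntegral.integral_add i1 i2, intervalIntegral.integral_const_mul,
    intervalIntegral.integral_add i3 i4, intervalIntegral.integral_finsetSum fun l _ => i5 l] at h1
  obtain ⟨S2, hS2⟩ : ∃ S2 : ℝ, S2 = ∑ l ∈ Finset.Ico M n, Real.sqrt ((X l j u r t0 t1 + T) * T) := ⟨_, rfl⟩
  have hS20 : 0 ≤ S2 := by rw [hS2]; exact Finset.sum_nonneg fun l _ => Real.sqrt_nonneg _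
  have h2 : ∑ l ∈ Finset.Ico M n, ∫ t in t0..t1, Real.sqrt (xx l j (u t) (r t) + 1) ≤ S2 := by
    rw [hS2]
    exact Finset.sum_le_sum fun l _ => hXi l
  have h3 : ∫ _ in t0..t1, (1 : ℝ) ≤ T := by
    rw [intervalIntegral.integral_const, hT']
    simp
  show ∫ t in t0..t1, ∫ x in (-1 : ℝ)..1, |cm M j (u t) x| * |Pa j (r t) x| ≤ _
  rw [← hκ, ← hn, ← hT', ← hS2]
  refine h1.trans ?_
  have h4 : 1 / κ * ((∫ _ in t0..t1, (1 : ℝ)) + ∑ l ∈ Finset.Ico M n,
      ∫ t in t0..t1, Real.sqrt (xx l j (u t) (r t) + 1)) +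
      ∫ t in t0..t1, ∫ z in (-1 : ℝ)..1, ∫ s in (0 : ℝ)..1, W z * Real.sqrt (G t (s * z)) ≤
      1 / κ * (T + S2) + 2 / κ * (Real.sqrt CX * T) := by
    refine add_le_add ?_ hII
    exact mul_le_mul_of_nonneg_left (add_le_add h3 h2) (by positivity)
  refine (mul_le_mul_of_nonneg_left h4 (by positivity)).trans ?_
  have h5 : C * (2 + 2 * Real.sqrt CX) / κ ^ 2 * (T + S2) - C / κ * (1 / κ * (T + S2) +
      2 / κ * (Real.sqrt CX * T)) = C / κ ^ 2 * ((T + S2) + 2 * Real.sqrt CX * S2) := by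
    field_simp
    ring
  have h6 : 0 ≤ C / κ ^ 2 * ((T + S2) + 2 * Real.sqrt CX * S2) := by positivity
  linarith

end

end Pool.Agent.C1E
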