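import Pool.Agent.Lib.MP_c1e222_an.H31.ScMain

/-!
# MP_c1e222_an, row Sc (helper31): the part (S3) of the source
-/

set_option autoImplicit false

namespace Pool.Agent.C1E

open MeasureTheory Set Filter Topology
open S70 (JC ii)

noncomputable section

namespace Sc31

/-- the first factor for a fixed shift -/
theorem fixed_z {E : ℝ} {u r : ℝ → ℝ → ℝ} (hu : Core E u r) {t0 t1 : ℝ} (ht : t0 ≤ t1)
    {j J n : ℕ} {Hs : Finset ℕ} (hHs : Hs ⊆ Finset.Ico n J) {CS B1 B2 B3 : ℝ}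
    (hlo : ∀ t x, (Lo n (u t) x) ^ 2 ≤ CS ^ 2) (hB1 : 0 ≤ B1) (hB2 : 0 ≤ B2) (z : ℝ)
    (h1 : ∀ h ∈ Hs, ii t0 t1 (fun t x => (u t (x - z)) ^ 2 * (Pa h (u t) (x - z)) ^ 2 *
      (Pa j (r t) x) ^ 2) ≤ B1 / (kap h) ^ 2)
    (h2 : ∀ h ∈ Hs, ii t0 t1 (fun t x => (u t (x - z) - Lo n (u t) (x - z)) ^ 2 *
      (Pa h (u t) (x - z)) ^ 2 * (Pa j (r t) x) ^ 2) ≤ B2 / (kap h) ^ 2)
    (h3 : ii t0 t1 (fun t x => (u t (x - z) - Lo J (u t) (x - z)) ^ 2 * (Pa j (r t) x) ^ 2) ≤ B3) :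
    ii t0 t1 (fun t x => (Lo n (u t) (x - z) * (∑ h ∈ Hs, Pa h (u t) (x - z) +
      (u t (x - z) - Lo J (u t) (x - z)))) ^ 2 * (Pa j (r t) x) ^ 2) ≤
      4 * (65 / kap n) ^ 2 * (B1 + B2) + 2 * CS ^ 2 * B3 := by
  have ju : JC u := hu.cu
  have jr : JC r := hu.cr
  have jR : JC fun t x => (Pa j (r t) x) ^ 2 := (jr.pa j).pow 2
  have jus : JC fun t x => u t (x - z) := ju.shift z
  have jlo : JC fun t x => Lo n (u t) (x - z) := (ju.lo n).shift z
  have jLo : JC fun t x => Lo J (u t) (x - z) := (ju.lo J).shift z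
  have jw : ∀ h, JC fun t x => Pa h (u t) (x - z) := fun h => (ju.pa h).shift z
  have jF1 : ∀ h, JC fun t x => (u t (x - z)) ^ 2 * (Pa h (u t) (x - z)) ^ 2 *
      (Pa j (r t) x) ^ 2 := fun h => ((jus.pow 2).mul ((jw h).pow 2)).mul jR
  have jF2 : ∀ h, JC fun t x => (u t (x - z) - Lo n (u t) (x - z)) ^ 2 *
      (Pa h (u t) (x - z)) ^ 2 * (Pa j (r t) x) ^ 2 :=
    fun h => (((jus.sub jlo).pow 2).mul ((jw h).pow 2)).mul jR
  have jF3 : JC fun t x => (u t (x - z) - Lo J (u t) (x - z)) ^ 2 * (Pa j (r t) x) ^ 2 :=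
    ((jus.sub jLo).pow 2).mul jR
  have jS : JC fun t x => ∑ h ∈ Hs, Pa h (u t) (x - z) := JC.sum fun h _ => jw h
  have hkn := S70.kap_pos n
  obtain ⟨G, hG⟩ : ∃ G, G = ∑ h ∈ Hs, 1 / kap h := ⟨_, rfl⟩
  have hG0 : 0 ≤ G := by rw [hG]; exact geo_nonneg Hs
  have hG1 : G ≤ 65 / kap n := by rw [hG]; exact geo_sub hHs
  have jT : ∀ h, JC fun t x => (4 * G * kap h) * ((u t (x - z)) ^ 2 * (Pa h (u t) (x - z)) ^ 2 *
      (Pa j (r t) x) ^ 2 + (u t (x - z) - Lo n (u t) (x - z)) ^ 2 *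
      (Pa h (u t) (x - z)) ^ 2 * (Pa j (r t) x) ^ 2) :=
    fun h => (JC.const _).mul ((jF1 h).add (jF2 h))
  have hle : ii t0 t1 (fun t x => (Lo n (u t) (x - z) * (∑ h ∈ Hs, Pa h (u t) (x - z) +
      (u t (x - z) - Lo J (u t) (x - z)))) ^ 2 * (Pa j (r t) x) ^ 2) ≤
      ii t0 t1 fun t x => (∑ h ∈ Hs, (4 * G * kap h) * ((u t (x - z)) ^ 2 *
        (Pa h (u t) (x - z)) ^ 2 * (Pa j (r t) x) ^ 2 +
        (u t (x - z) - Lo n (u t) (x - z)) ^ 2 * (Pa h (u t) (x - z)) ^ 2 *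
          (Pa j (r t) x) ^ 2)) +
        (2 * CS ^ 2) * ((u t (x - z) - Lo J (u t) (x - z)) ^ 2 * (Pa j (r t) x) ^ 2) := by
    refine S70.ii_mono ht (((jlo.mul (jS.add (jus.sub jLo))).pow 2).mul jR)
      ((JC.sum fun h _ => jT h).add ((JC.const _).mul jF3)) fun t x => ?_
    rw [hG]
    exact pw1 (fun h => Pa h (u t) (x - z)) (sq_nonneg _) (hlo t (x - z))
  refine hle.trans ?_
  rw [S70.ii_add (JC.sum fun h _ => jT h) ((JC.const _).mul jF3), S70.ii_mul,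
    S70.ii_sum Hs fun h _ => jT h]
  refine add_le_add ?_ (mul_le_mul_of_nonneg_left h3 (by positivity))
  have h4 : ∀ h ∈ Hs, ii t0 t1 (fun t x => (4 * G * kap h) * ((u t (x - z)) ^ 2 *
      (Pa h (u t) (x - z)) ^ 2 * (Pa j (r t) x) ^ 2 +
      (u t (x - z) - Lo n (u t) (x - z)) ^ 2 * (Pa h (u t) (x - z)) ^ 2 *
        (Pa j (r t) x) ^ 2)) ≤ (4 * G * (B1 + B2)) * (1 / kap h) := by
    intro h hh
    have hk := S70.kap_pos h
    rw [S70.ii_mul, S70.ii_add (jF1 h) (jF2 h)]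
    have e1 := mul_le_mul_of_nonneg_left (add_le_add (h1 h hh) (h2 h hh))
      (show 0 ≤ 4 * G * kap h by positivity)
    refine e1.trans (le_of_eq ?_)
    field_simp
  refine (Finset.sum_le_sum h4).trans ?_
  rw [← Finset.mul_sum, ← hG]
  have h5 : G * G ≤ (65 / kap n) ^ 2 := by
    rw [sq]
    exact mul_le_mul hG1 hG1 hG0 (by positivity)
  have h6 := mul_le_mul_of_nonneg_right h5 (show 0 ≤ 4 * (B1 + B2) by positivity)
  linarith

/-- the second factor -/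
theorem Q_bd {E CS : ℝ} (hCS : 0 < CS) {u r : ℝ → ℝ → ℝ} (hu : Core E u r) {t0 t1 : ℝ}
    (ht : t0 ≤ t1) {J n : ℕ} {Hn : Finset ℕ} (hHn : Hn ⊆ Finset.Ico n J)
    (s1 : ∀ t, cint (fun x => (u t x - Lo n (u t) x) ^ 2) ≤ CS / (kap n) ^ 2)
    (s2 : ∀ t h, cint (fun x => (Pa h (u t) x) ^ 2) ≤ CS / (kap h) ^ 2) (z : ℝ) :
    ii t0 t1 (fun t x => ((u t (x - z) - Lo n (u t) (x - z)) +
      ∑ h ∈ Hn, Pa h (u t) (x - z)) ^ 2) ≤ (t1 - t0) * (8452 * CS / (kap n) ^ 2) := by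
  have ju : JC u := hu.cu
  have jhi : JC fun t x => u t x - Lo n (u t) x := ju.sub (ju.lo n)
  have jw : ∀ h, JC fun t x => Pa h (u t) x := fun h => ju.pa h
  have jP : JC fun t x => ∑ h ∈ Hn, Pa h (u t) x := JC.sum fun h _ => jw h
  have jQ : JC fun t x => (u t x - Lo n (u t) x) + ∑ h ∈ Hn, Pa h (u t) x := jhi.add jP
  have hkn := S70.kap_pos n
  have jQs : JC fun t x => ((u t (x - z) - Lo n (u t) (x - z)) +
      ∑ h ∈ Hn, Pa h (u t) (x - z)) ^ 2 := (jQ.shift z).pow 2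
  refine S70.ii_le ht jQs fun t _ => ?_
  have hperL : Function.Periodic (Lo n (u t)) 2 := S70.conv_per (S70.V_per n) (u t)
  have hperA : ∀ h, Function.Periodic (Pa h (u t)) 2 := fun h => S70.conv_per (S70.A_per h) (u t)
  have hper : Function.Periodic (fun x => ((u t x - Lo n (u t) x) +
      ∑ h ∈ Hn, Pa h (u t) x) ^ 2) 2 := by
    intro x
    show ((u t (x + 2) - Lo n (u t) (x + 2)) + ∑ h ∈ Hn, Pa h (u t) (x + 2)) ^ 2 = _
    rw [hu.pu t x, hperL x]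
    congr 2
    exact Finset.sum_congr rfl fun h _ => hperA h x
  have h0 : cint (fun x => ((u t (x - z) - Lo n (u t) (x - z)) +
      ∑ h ∈ Hn, Pa h (u t) (x - z)) ^ 2) =
      cint fun x => ((u t x - Lo n (u t) x) + ∑ h ∈ Hn, Pa h (u t) x) ^ 2 :=
    S70.cint_shift hper z
  rw [h0]
  obtain ⟨G, hG⟩ : ∃ G, G = ∑ h ∈ Hn, 1 / kap h := ⟨_, rfl⟩
  have hG0 : 0 ≤ G := by rw [hG]; exact geo_nonneg Hn
  have hG1 : G ≤ 65 / kap n := by rw [hG]; exact geo_sub hHn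
  have c1 : Continuous fun x => (u t x - Lo n (u t) x) ^ 2 := (jhi.pow 2).slice t
  have c2 : ∀ h, Continuous fun x => kap h * (Pa h (u t) x) ^ 2 :=
    fun h => ((JC.const (kap h)).mul ((jw h).pow 2)).slice t
  have c3 : Continuous fun x => ∑ h ∈ Hn, kap h * (Pa h (u t) x) ^ 2 :=
    continuous_finsetSum Hn fun h _ => c2 h
  have c4 : Continuous fun x => ((u t x - Lo n (u t) x) + ∑ h ∈ Hn, Pa h (u t) x) ^ 2 :=
    (jQ.pow 2).slice t
  have h1 : cint (fun x => ((u t x - Lo n (u t) x) + ∑ h ∈ Hn, Pa h (u t) x) ^ 2) ≤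
      cint fun x => 2 * (u t x - Lo n (u t) x) ^ 2 +
        (2 * G) * ∑ h ∈ Hn, kap h * (Pa h (u t) x) ^ 2 := by
    refine S70.cint_mono c4 ((continuous_const.mul c1).add (continuous_const.mul c3)) fun x => ?_
    have e1 := wcs Hn fun h => Pa h (u t) x
    rw [← hG] at e1
    nlinarith [sq_nonneg ((u t x - Lo n (u t) x) - ∑ h ∈ Hn, Pa h (u t) x)]
  refine h1.trans ?_
  have d1 : Continuous fun x => 2 * (u t x - Lo n (u t) x) ^ 2 := continuous_const.mul c1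
  have d3 : Continuous fun x => (2 * G) * ∑ h ∈ Hn, kap h * (Pa h (u t) x) ^ 2 :=
    continuous_const.mul c3
  rw [S70.cint_add d1 d3, S70.cint_mul, S70.cint_mul, S70.cint_sum Hn fun h _ => c2 h]
  have h2 : ∑ h ∈ Hn, cint (fun x => kap h * (Pa h (u t) x) ^ 2) ≤ CS * G := by
    rw [hG, Finset.mul_sum]
    refine Finset.sum_le_sum fun h _ => ?_
    have hk := S70.kap_pos h
    rw [S70.cint_mul]
    have e1 := mul_le_mul_of_nonneg_left (s2 t h) hk.le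
    refine e1.trans (le_of_eq ?_)
    field_simp
  have h3 := mul_le_mul_of_nonneg_left h2 (show 0 ≤ 2 * G by positivity)
  have h4 := mul_le_mul_of_nonneg_left (s1 t) (show (0 : ℝ) ≤ 2 by norm_num)
  refine (add_le_add h4 h3).trans ?_
  have h5 : G * G ≤ (65 / kap n) ^ 2 := by
    rw [sq]
    exact mul_le_mul hG1 hG1 hG0 (by positivity)
  have h6 := mul_le_mul_of_nonneg_left h5 (show 0 ≤ 2 * CS by positivity)
  have h7 : 2 * (CS / kap n ^ 2) + 2 * CS * (65 / kap n) ^ 2 = 8452 * CS / kap n ^ 2 := by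
    field_simp
    norm_num
  linarith

/-- without the resonant part -/
theorem alg {M : ℕ} {E : ℝ} {u r : ℝ → ℝ} (hu : Prof E u r) {j J : ℕ} (hj : M ≤ j)
    (hJ : j - M ≤ J) (Hs Hn : Finset ℕ)
    (hsplit : ∀ f : ℕ → ℝ, ∑ h ∈ Finset.Ico (j - M) J, f h = ∑ h ∈ Hs, f h + ∑ h ∈ Hn, f h)
    (hvan : ∀ h ∈ Hn, ∀ h' ∈ Hn, ∀ x,
      Pa j (fun y => Lo (j - M) u y * Pa h u y * Pa h' u y) x = 0) (x : ℝ) :
    Pa j (fun y => Lo (j - M) u y * (u y - Lo (j - M) u y) ^ 2) x =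
      Pa j (fun y => (Lo (j - M) u y * (∑ h ∈ Hs, Pa h u y + (u y - Lo J u y))) *
        ((u y - Lo (j - M) u y) + ∑ h ∈ Hn, Pa h u y)) x := by
  have cu := hu.cu
  have cl : Continuous (Lo (j - M) u) := S70.conv_cont (S70.V_cont _) cu
  have cL : Continuous (Lo J u) := S70.conv_cont (S70.V_cont _) cu
  have cw : ∀ h, Continuous (Pa h u) := fun h => S70.conv_cont (S70.A_cont h) cu
  have cS : Continuous fun y => ∑ h ∈ Hs, Pa h u y := continuous_finsetSum _ fun h _ => cw h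
  have cN : Continuous fun y => ∑ h ∈ Hn, Pa h u y := continuous_finsetSum _ fun h _ => cw h
  have e1 : (fun y => Lo (j - M) u y * (u y - Lo (j - M) u y) ^ 2) = fun y =>
      (Lo (j - M) u y * (∑ h ∈ Hs, Pa h u y + (u y - Lo J u y))) *
        ((u y - Lo (j - M) u y) + ∑ h ∈ Hn, Pa h u y) +
      ∑ p ∈ Hn ×ˢ Hn, Lo (j - M) u y * Pa p.1 u y * Pa p.2 u y := by
    funext y
    have h1 := sum_pa hJ cu y
    rw [hsplit] at h1
    have h2 : ∑ p ∈ Hn ×ˢ Hn, Lo (j - M) u y * Pa p.1 u y * Pa p.2 u y =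
        Lo (j - M) u y * (∑ h ∈ Hn, Pa h u y) ^ 2 := by
      rw [Finset.sum_product]
      have h4 : ∀ h ∈ Hn, ∑ h' ∈ Hn, Lo (j - M) u y * Pa (h, h').1 u y * Pa (h, h').2 u y =
          Pa h u y * (Lo (j - M) u y * ∑ h' ∈ Hn, Pa h' u y) := by
        intro h _
        show ∑ h' ∈ Hn, Lo (j - M) u y * Pa h u y * Pa h' u y = _
        rw [← Finset.mul_sum]
        ring
      rw [Finset.sum_congr rfl h4, ← Finset.sum_mul]
      ring
    rw [h2]
    have h3 : ∑ h ∈ Hs, Pa h u y + (u y - Lo J u y) =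
        (u y - Lo (j - M) u y) - ∑ h ∈ Hn, Pa h u y := by linarith
    rw [h3]
    ring
  have hc1 : Continuous fun y => (Lo (j - M) u y * (∑ h ∈ Hs, Pa h u y + (u y - Lo J u y))) *
        ((u y - Lo (j - M) u y) + ∑ h ∈ Hn, Pa h u y) :=
    (cl.mul (cS.add (cu.sub cL))).mul ((cu.sub cl).add cN)
  have hc2 : ∀ p : ℕ × ℕ, Continuous fun y => Lo (j - M) u y * Pa p.1 u y * Pa p.2 u y :=
    fun p => (cl.mul (cw _)).mul (cw _)
  rw [e1, Dec31.Pa_add j hc1 (continuous_finsetSum _ fun p _ => hc2 p),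
    Pa_sum j (Hn ×ˢ Hn) (fun p y => Lo (j - M) u y * Pa p.1 u y * Pa p.2 u y) hc2,
    Finset.sum_eq_zero, add_zero]
  intro p hp
  rw [Finset.mem_product] at hp
  exact hvan p.1 hp.1 p.2 hp.2 x

end Sc31

open Sc31 in
theorem sc_proof (hKer : KerStatement) (hVan : VanStatement) (hTR : TRStatement)
    (hCross : CrossStatement) (hSize : SizeStatement) (hLSize : LSizeStatement)
    (hIdn : IdnStatement) : ScStatement := by
  classical
  intro M hM E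
  obtain ⟨CK, hCK, hK⟩ := hKer
  obtain ⟨CS, hCS1, hS⟩ := hSize E
  obtain ⟨CL, hCL1, hLS⟩ := hLSize E
  obtain ⟨CT, hCT, hT⟩ := hTR M hM E
  obtain ⟨CC, hCC, hC⟩ := hCross E
  have hCS : 0 < CS := by linarith
  have hCL : 0 < CL := by linarith
  obtain ⟨q, hq⟩ : ∃ q, q = (65 / 64 : ℝ) ^ M := ⟨_, rfl⟩
  have hq1 : 1 ≤ q := by rw [hq]; exact one_le_pow₀ (by norm_num)
  have hq0 : 0 < q := by linarith
  obtain ⟨C3, hC3⟩ : ∃ C3, C3 = CT + CS ^ 2 * CC := ⟨_, rfl⟩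
  have hC30 : 0 < C3 := by rw [hC3]; positivity
  obtain ⟨C5, hC5⟩ : ∃ C5, C5 = 16900 * q ^ 2 * (C3 + CS ^ 3 * q) + 2 * CS ^ 3 * CL := ⟨_, rfl⟩
  have hC50 : 0 < C5 := by rw [hC5]; positivity
  obtain ⟨C4, hC4⟩ : ∃ C4, C4 = 8452 * CS * q ^ 2 := ⟨_, rfl⟩
  have hC40 : 0 < C4 := by rw [hC4]; positivity
  refine ⟨4 * CK * Real.sqrt (C5 * C4), by positivity, ?_⟩
  intro u r hu t0 t1 ht L hL1 hL J hJ Λ hΛ hX j hj2 hjJ
  have hj : M ≤ j := by omega
  have ju : JC u := hu.cu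
  have jr : JC r := hu.cr
  have hkj := S70.kap_pos j
  have hkn := S70.kap_pos (j - M)
  have hk : kap j = kap (j - M) * q := by
    rw [hq, ← S70.kap_add, Nat.sub_add_cancel hj]
  obtain ⟨T, hTd⟩ : ∃ T, T = t1 - t0 + 1 := ⟨_, rfl⟩
  have hT1 : 1 ≤ T := by rw [hTd]; linarith
  obtain ⟨Y, hY⟩ : ∃ Y, Y = Λ * (T + (kap j) ^ 2) := ⟨_, rfl⟩
  have hY1 : T ≤ Y := by
    rw [hY]
    have h1 : T + (kap j) ^ 2 ≤ Λ * (T + (kap j) ^ 2) :=
      le_mul_of_one_le_left (by positivity) hΛ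
    nlinarith [sq_nonneg (kap j)]
  have hY0 : 0 < Y := by linarith
  -- the two sets of frequencies
  obtain ⟨Hs, hHs⟩ : ∃ Hs, Hs = (Finset.Ico (j - M) J).filter fun h => Sep h j ∨ Sep j h :=
    ⟨_, rfl⟩
  obtain ⟨Hn, hHn⟩ : ∃ Hn, Hn = (Finset.Ico (j - M) J).filter fun h => ¬(Sep h j ∨ Sep j h) :=
    ⟨_, rfl⟩
  have hHs1 : Hs ⊆ Finset.Ico (j - M) J := by rw [hHs]; exact Finset.filter_subset _ _
  have hHn1 : Hn ⊆ Finset.Ico (j - M) J := by rw [hHn]; exact Finset.filter_subset _ _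
  have hsplit : ∀ f : ℕ → ℝ, ∑ h ∈ Finset.Ico (j - M) J, f h = ∑ h ∈ Hs, f h + ∑ h ∈ Hn, f h := by
    intro f
    rw [hHs, hHn]
    exact (Finset.sum_filter_add_sum_filter_not _ _ _).symm
  -- sizes
  have zS := fun t => hS (u t) (r t) (hu.prof t)
  have hlo : ∀ t x, (Lo (j - M) (u t) x) ^ 2 ≤ CS ^ 2 := by
    intro t x
    have := ((zS t).2.2 (j - M)).2.1 x
    rw [← sq_abs]
    exact pow_le_pow_left₀ (abs_nonneg _) this 2
  have hus : ∀ t x, (u t x) ^ 2 ≤ CS ^ 2 := by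
    intro t x
    have := (zS t).1 x
    rw [← sq_abs]
    exact pow_le_pow_left₀ (abs_nonneg _) this 2
  -- the first factor
  have key1 : ∀ z, ii t0 t1 (fun t x => (Lo (j - M) (u t) (x - z) *
      (∑ h ∈ Hs, Pa h (u t) (x - z) + (u t (x - z) - Lo J (u t) (x - z)))) ^ 2 *
        (Pa j (r t) x) ^ 2) ≤ C5 / (kap j) ^ 2 * ((1 + kap j * dl z) ^ 2 * Y) := by
    intro z
    have hdz := S70.dl_nonneg z
    have hw1 : 1 ≤ 1 + kap j * dl z := by nlinarith [mul_nonneg hkj.le hdz]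
    have hw2 : 1 ≤ (1 + kap j * dl z) ^ 2 := one_le_pow₀ hw1
    have hWY : Y ≤ (1 + kap j * dl z) ^ 2 * Y := le_mul_of_one_le_left hY0.le hw2
    obtain ⟨Z, hZ⟩ : ∃ Z, Z = (1 + kap j * dl z) ^ 2 * Y := ⟨_, rfl⟩
    rw [← hZ] at hWY ⊢
    have hTZ : t1 - t0 ≤ Z := by linarith
    have hZ0 : 0 ≤ Z := by linarith
    have b1 : ∀ h ∈ Hs, ii t0 t1 (fun t x => (u t (x - z)) ^ 2 * (Pa h (u t) (x - z)) ^ 2 *
        (Pa j (r t) x) ^ 2) ≤ (C3 * Z) / (kap h) ^ 2 := by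
      intro h hh
      rw [hHs, Finset.mem_filter, Finset.mem_Ico] at hh
      have hMh : M ≤ h := by omega
      have e1 := one_h (M := M) (E := E) (CS := CS) hCT hCC hu ht
        (fun u r hp l j hl hs z => ⟨(hT u r hp l j hl hs z).2.1, (hT u r hp l j hl hs z).2.2⟩)
        (fun l j h => (hC u r hu t0 t1 ht).1 l j h) hus
        (fun t h x => ((hIdn.2 E (u t) (r t) (hu.prof t)) h x).1) hj hMh hh.2 hΛ
        (fun hs => hX h j hMh hjJ hs) (fun hs => hX j h hj hh.1.2 hs) z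
      rw [← hC3, ← hTd, ← hY, ← hZ] at e1
      refine e1.trans (le_of_eq ?_)
      ring
    have b2 : ∀ h ∈ Hs, ii t0 t1 (fun t x => (u t (x - z) - Lo (j - M) (u t) (x - z)) ^ 2 *
        (Pa h (u t) (x - z)) ^ 2 * (Pa j (r t) x) ^ 2) ≤ (CS ^ 3 * q * Z) / (kap h) ^ 2 := by
      intro h hh
      have hkh := S70.kap_pos h
      have e1 := one_h' (M := M) hCS hu ht (j := j) (h := h) hj
        (fun t x => ((zS t).2.2 (j - M)).1 x)
        (fun t x => ((zS t).2.2 j).2.2.2.2.1 x)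
        (fun t => ((zS t).2.2 h).2.2.2.2.2.2.2.2.2.1) z
      refine e1.trans ?_
      rw [← hq, mul_div_assoc']
      apply div_le_div_of_nonneg_right _ (by positivity)
      have : 0 ≤ CS ^ 3 * q := by positivity
      nlinarith
    have b3 := far_bd (E := E) (CS := CS) (CL := CL) (L := L) hCL hu ht hjJ hJ
      (fun t htt x => ((hLS (u t) (r t) (hu.prof t) L (by linarith) (hL t htt)) J).2.2 x)
      (fun t => ((zS t).2.2 j).2.2.2.2.2.2.2.1) z
    have e1 := fixed_z hu ht hHs1 (CS := CS) hlo (by positivity) (by positivity) z b1 b2 b3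
    refine e1.trans ?_
    have f1 : (65 / kap (j - M)) ^ 2 = 4225 * q ^ 2 / (kap j) ^ 2 := by
      rw [hk]
      field_simp
      norm_num
    rw [f1]
    have f2 : 4 * (4225 * q ^ 2 / kap j ^ 2) * (C3 * Z + CS ^ 3 * q * Z) +
        2 * CS ^ 2 * ((t1 - t0) * (CL * CS / kap j ^ 2)) =
        (16900 * q ^ 2 * (C3 + CS ^ 3 * q) * Z + 2 * CS ^ 3 * CL * (t1 - t0)) / kap j ^ 2 := by
      field_simp
      ring
    rw [f2, hC5, div_mul_eq_mul_div]
    apply div_le_div_of_nonneg_right _ (by positivity)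
    have f3 := mul_le_mul_of_nonneg_left hTZ (show 0 ≤ 2 * CS ^ 3 * CL by positivity)
    linarith
  -- the second factor
  have key2 : ∀ z, ii t0 t1 (fun t x => ((u t (x - z) - Lo (j - M) (u t) (x - z)) +
      ∑ h ∈ Hn, Pa h (u t) (x - z)) ^ 2) ≤ C4 / (kap j) ^ 2 * T := by
    intro z
    have e1 := Q_bd hCS hu ht hHn1 (fun t => ((zS t).2.2 (j - M)).2.2.2.2.2.2.2.2.2.2.1)
      (fun t h => ((zS t).2.2 h).2.2.2.2.2.2.2.2.2.1) z
    refine e1.trans ?_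
    have f1 : 8452 * CS / kap (j - M) ^ 2 = C4 / kap j ^ 2 := by
      rw [hC4, hk]
      field_simp
    rw [f1, mul_comm]
    exact mul_le_mul_of_nonneg_left (by linarith) (by positivity)
  -- the product
  obtain ⟨F, hF⟩ : ∃ F : ℝ → ℝ → ℝ, F = fun t x =>
      (Lo (j - M) (u t) x * (∑ h ∈ Hs, Pa h (u t) x + (u t x - Lo J (u t) x))) *
        ((u t x - Lo (j - M) (u t) x) + ∑ h ∈ Hn, Pa h (u t) x) := ⟨_, rfl⟩
  have jlo : JC fun t x => Lo (j - M) (u t) x := ju.lo _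
  have jS : JC fun t x => Lo (j - M) (u t) x *
      (∑ h ∈ Hs, Pa h (u t) x + (u t x - Lo J (u t) x)) :=
    jlo.mul ((JC.sum fun h _ => ju.pa h).add (ju.sub (ju.lo J)))
  have jQ : JC fun t x => (u t x - Lo (j - M) (u t) x) + ∑ h ∈ Hn, Pa h (u t) x :=
    (ju.sub jlo).add (JC.sum fun h _ => ju.pa h)
  have jF : JC F := by rw [hF]; exact jS.mul jQ
  have jR : JC fun t x => Pa j (r t) x := jr.pa j
  have hFp : ∀ t, Function.Periodic (F t) 2 := by
    intro t x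
    have hperL : ∀ n, Function.Periodic (Lo n (u t)) 2 := fun n => S70.conv_per (S70.V_per n) (u t)
    have hperA : ∀ h, Function.Periodic (Pa h (u t)) 2 :=
      fun h => S70.conv_per (S70.A_per h) (u t)
    rw [hF]
    show (Lo (j - M) (u t) (x + 2) * (∑ h ∈ Hs, Pa h (u t) (x + 2) +
      (u t (x + 2) - Lo J (u t) (x + 2)))) *
        ((u t (x + 2) - Lo (j - M) (u t) (x + 2)) + ∑ h ∈ Hn, Pa h (u t) (x + 2)) = _
    rw [hu.pu t x, hperL (j - M) x, hperL J x, Finset.sum_congr rfl fun h _ => hperA h x,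
      Finset.sum_congr rfl fun h _ => hperA h x]
  have hvan : ∀ t, ∀ h ∈ Hn, ∀ h' ∈ Hn, ∀ x,
      Pa j (fun y => Lo (j - M) (u t) y * Pa h (u t) y * Pa h' (u t) y) x = 0 := by
    intro t h hh h' hh' x
    rw [hHn, Finset.mem_filter, not_or] at hh hh'
    have hCP : CP (u t) := ⟨(hu.prof t).cu, hu.pu t⟩
    exact (hVan M hM.1).2.2.2.1 j h h' (u t) (u t) (u t) hj hCP hCP hCP hh.2.1 hh.2.2
      hh'.2.1 hh'.2.2 x
  have step1 : (∫ t in t0..t1, cint (fun x =>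
      |Pa j (fun y => Lo (j - M) (u t) y * (u t y - Lo (j - M) (u t) y) ^ 2) x| *
        |Pa j (r t) x|)) = ii t0 t1 fun t x => |conv (A j) (F t) x| * |Pa j (r t) x| := by
    unfold ii
    refine intervalIntegral.integral_congr fun t _ => ?_
    show cint _ = cint _
    congr 1
    funext x
    rw [alg (hu.prof t) hj (by omega) Hs Hn hsplit (hvan t) x, hF]
    rfl
  rw [step1]
  have step2 := S70.kern ht (S70.A_cont j) (S70.A_per j) jF hFp jR
  refine step2.trans ?_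
  -- Cauchy-Schwarz for each shift
  obtain ⟨W, hW⟩ : ∃ W, W = 1 / (kap j) ^ 2 * (Real.sqrt (C5 * C4) * Real.sqrt (Y * T)) :=
    ⟨_, rfl⟩
  have hW0 : 0 ≤ W := by rw [hW]; positivity
  have step3 : ∀ z, ii t0 t1 (fun t x => |F t (x - z)| * |Pa j (r t) x|) ≤
      (1 + kap j * dl z) * W := by
    intro z
    have hdz := S70.dl_nonneg z
    have hw0 : 0 ≤ 1 + kap j * dl z := by positivity
    have jSz : JC fun t x => |Lo (j - M) (u t) (x - z) *
        (∑ h ∈ Hs, Pa h (u t) (x - z) + (u t (x - z) - Lo J (u t) (x - z)))| *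
          |Pa j (r t) x| := (jS.shift z).abs.mul jR.abs
    have jQz : JC fun t x => |(u t (x - z) - Lo (j - M) (u t) (x - z)) +
        ∑ h ∈ Hn, Pa h (u t) (x - z)| := (jQ.shift z).abs
    have e1 := S70.ii_cs ht jSz jQz
    have e2 : ii t0 t1 (fun t x => (|Lo (j - M) (u t) (x - z) *
        (∑ h ∈ Hs, Pa h (u t) (x - z) + (u t (x - z) - Lo J (u t) (x - z)))| *
          |Pa j (r t) x|) * |(u t (x - z) - Lo (j - M) (u t) (x - z)) +
        ∑ h ∈ Hn, Pa h (u t) (x - z)|) = ii t0 t1 fun t x => |F t (x - z)| * |Pa j (r t) x| := by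
      congr 1
      funext t x
      rw [hF]
      show _ = |_| * |Pa j (r t) x|
      rw [abs_mul (_ * _)]
      ring
    have e3 : ii t0 t1 (fun t x => (|Lo (j - M) (u t) (x - z) *
        (∑ h ∈ Hs, Pa h (u t) (x - z) + (u t (x - z) - Lo J (u t) (x - z)))| *
          |Pa j (r t) x|) ^ 2) = ii t0 t1 (fun t x => (Lo (j - M) (u t) (x - z) *
      (∑ h ∈ Hs, Pa h (u t) (x - z) + (u t (x - z) - Lo J (u t) (x - z)))) ^ 2 *
        (Pa j (r t) x) ^ 2) := by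
      congr 1
      funext t x
      rw [mul_pow, sq_abs, sq_abs]
    have e4 : ii t0 t1 (fun t x => |(u t (x - z) - Lo (j - M) (u t) (x - z)) +
        ∑ h ∈ Hn, Pa h (u t) (x - z)| ^ 2) =
        ii t0 t1 (fun t x => ((u t (x - z) - Lo (j - M) (u t) (x - z)) +
      ∑ h ∈ Hn, Pa h (u t) (x - z)) ^ 2) := by
      congr 1
      funext t x
      rw [sq_abs]
    rw [e2, e3, e4] at e1
    have e5 : (ii t0 t1 (fun t x => ((u t (x - z) - Lo (j - M) (u t) (x - z)) +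
      ∑ h ∈ Hn, Pa h (u t) (x - z)) ^ 2)) ≤ C4 / (kap j) ^ 2 * T := key2 z
    have e6 : 0 ≤ ii t0 t1 (fun t x => ((u t (x - z) - Lo (j - M) (u t) (x - z)) +
      ∑ h ∈ Hn, Pa h (u t) (x - z)) ^ 2) := S70.ii_nonneg ht fun t x => sq_nonneg _
    have e7 := mul_le_mul (key1 z) e5 e6 (by positivity)
    have e8 := e1.trans e7
    have e9 : C5 / (kap j) ^ 2 * ((1 + kap j * dl z) ^ 2 * Y) * (C4 / (kap j) ^ 2 * T) =
        ((1 + kap j * dl z) * W) ^ 2 := by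
      rw [hW]
      have s1 := Real.sq_sqrt (show 0 ≤ C5 * C4 by positivity)
      have s2 := Real.sq_sqrt (show 0 ≤ Y * T by positivity)
      rw [mul_pow, mul_pow, mul_pow, s1, s2]
      field_simp
    rw [e9] at e8
    exact (abs_le_of_sq_le_sq e8 (by positivity)) |> le_trans (le_abs_self _)
  have cA := S70.A_cont j
  have cd := S70.dl_cont
  have cI := ii_shift_cont (t0 := t0) (t1 := t1) jF jR
  have step4 : cint (fun z => |A j z| * ii t0 t1 fun t x => |F t (x - z)| * |Pa j (r t) x|) ≤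
      cint fun z => W * (|A j z| * (1 + kap j * dl z)) := by
    refine S70.cint_mono (cA.abs.mul cI) (by fun_prop) fun z => ?_
    have e1 := mul_le_mul_of_nonneg_left (step3 z) (abs_nonneg (A j z))
    refine e1.trans (le_of_eq ?_)
    ring
  refine step4.trans ?_
  rw [S70.cint_mul]
  have step5 := A_int hCK (fun i x => (hK i).2.2.2.2.2.1 x) j
  have step6 := mul_le_mul_of_nonneg_left step5 hW0
  refine step6.trans (le_of_eq ?_)
  rw [hW, hY, hTd]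
  ring

end

end Pool.Agent.C1E
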