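import Pool.Agent.Lib.MP_c1e222_an.Bas

/-!
# MP_c1e222_an, convolutions
-/

namespace Pool.Agent.C1E

open MeasureTheory Set Filter Topology intervalIntegral

noncomputable section

theorem conv_def (P f : ℝ → ℝ) (x : ℝ) : conv P f x = cint fun y => P (x - y) * f y := rfl

/-- the other form of the convolution -/
theorem conv_eq {P f : ℝ → ℝ} (hP : Function.Periodic P 2) (hf : Function.Periodic f 2) (x : ℝ) :
    conv P f x = cint fun z => P z * f (x - z) := by
  rw [conv_def]
  have hp : Function.Periodic (fun z => P z * f (x - z)) 2 := by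
    intro z
    simp only
    rw [hP z, show x - (z + 2) = (x - z) - 2 by ring, hf.sub_eq]
  have h := cint_sub_left hp x
  simpa using h

/-- joint continuity -/
theorem continuous_conv₂ {P : ℝ → ℝ} {f : ℝ → ℝ → ℝ} (hP : Continuous P)
    (hf : Continuous (Function.uncurry f)) :
    Continuous (Function.uncurry fun t x => conv P (f t) x) := by
  have h : Continuous fun p : (ℝ × ℝ) × ℝ => P (p.1.2 - p.2) * f p.1.1 p.2 := by
    refine (hP.comp (by fun_prop)).mul ?_
    exact hf.comp (by fun_prop : Continuous fun p : (ℝ × ℝ) × ℝ => (p.1.1, p.2))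
  exact continuous_cint' (F := fun (p : ℝ × ℝ) y => P (p.2 - y) * f p.1 y) h

theorem continuous_conv {P f : ℝ → ℝ} (hP : Continuous P) (hf : Continuous f) :
    Continuous (conv P f) := by
  have h := continuous_conv₂ (P := P) (f := fun _ => f) hP (hf.comp continuous_snd)
  exact h.comp (by fun_prop : Continuous fun x : ℝ => ((0 : ℝ), x))

theorem conv_periodic {P : ℝ → ℝ} (hP : Function.Periodic P 2) (f : ℝ → ℝ) :
    Function.Periodic (conv P f) 2 := by
  intro x
  unfold conv
  congr 1
  ext y
  rw [show x + 2 - y = (x - y) + 2 by ring, hP]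

theorem conv_cp {P f : ℝ → ℝ} (hP : Continuous P) (hp : Function.Periodic P 2)
    (hf : Continuous f) : CP (conv P f) := ⟨continuous_conv hP hf, conv_periodic hp f⟩

theorem conv_sub_fun {P f g : ℝ → ℝ} (hP : Continuous P) (hf : Continuous f) (hg : Continuous g)
    (x : ℝ) : conv P (fun y => f y - g y) x = conv P f x - conv P g x := by
  rw [conv_def, conv_def, conv_def, ← cint_sub]
  · exact cint_congr fun y => by ring
  · exact (hP.comp (by fun_prop)).mul hf
  · exact (hP.comp (by fun_prop)).mul hg

theorem conv_add_fun {P f g : ℝ → ℝ} (hP : Continuous P) (hf : Continuous f) (hg : Continuous g)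
    (x : ℝ) : conv P (fun y => f y + g y) x = conv P f x + conv P g x := by
  rw [conv_def, conv_def, conv_def, ← cint_add]
  · exact cint_congr fun y => by ring
  · exact (hP.comp (by fun_prop)).mul hf
  · exact (hP.comp (by fun_prop)).mul hg

theorem conv_smul (P f : ℝ → ℝ) (c x : ℝ) : conv P (fun y => c * f y) x = c * conv P f x := by
  rw [conv_def, conv_def, ← cint_mul_left]
  exact cint_congr fun y => by ring

theorem conv_neg_fun (P f : ℝ → ℝ) (x : ℝ) : conv P (fun y => -f y) x = -conv P f x := by
  rw [conv_def, conv_def, ← cint_neg_fun]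
  exact cint_congr fun y => by ring

theorem conv_sub_ker {P Q f : ℝ → ℝ} (hP : Continuous P) (hQ : Continuous Q) (hf : Continuous f)
    (x : ℝ) : conv (fun y => P y - Q y) f x = conv P f x - conv Q f x := by
  rw [conv_def, conv_def, conv_def, ← cint_sub]
  · exact cint_congr fun y => by ring
  · exact (hP.comp (by fun_prop)).mul hf
  · exact (hQ.comp (by fun_prop)).mul hf

/-- reflection, even kernel -/
theorem conv_even {P : ℝ → ℝ} (hP : ∀ x, P (-x) = P x) (f : ℝ → ℝ) (x : ℝ) :
    conv P (fun y => f (-y)) x = conv P f (-x) := by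
  rw [conv_def, conv_def, ← cint_flip]
  exact cint_congr fun y => by
    simp only [neg_neg]
    rw [← hP (x - -y)]
    congr 2; ring

/-- reflection, odd kernel -/
theorem conv_odd {P : ℝ → ℝ} (hP : ∀ x, P (-x) = -P x) (f : ℝ → ℝ) (x : ℝ) :
    conv P (fun y => f (-y)) x = -conv P f (-x) := by
  rw [conv_def, conv_def, ← cint_flip, ← cint_neg_fun]
  exact cint_congr fun y => by
    simp only [neg_neg]
    rw [show x - -y = -(-x - y) by ring, hP]
    ring

/-- derivative on the kernel -/
theorem hasDerivAt_conv {P P' f : ℝ → ℝ} (hP : ∀ x, HasDerivAt P (P' x) x) (hP' : Continuous P')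
    (hf : Continuous f) (x : ℝ) : HasDerivAt (conv P f) (conv P' f x) x := by
  have hPc : Continuous P := continuous_iff_continuousAt.2 fun x => (hP x).continuousAt
  obtain ⟨C, hC⟩ : ∃ C, ∀ p ∈ (Icc (x - 1) (x + 1) ×ˢ Icc (-1 : ℝ) 1), ‖P' (p.1 - p.2) * f p.2‖ ≤ C := by
    have hc : Continuous fun p : ℝ × ℝ => P' (p.1 - p.2) * f p.2 := by fun_prop
    exact (isCompact_Icc.prod isCompact_Icc).exists_bound_of_continuousOn hc.continuousOn
  have key := intervalIntegral.hasDerivAt_integral_of_dominated_loc_of_deriv_le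
    (μ := volume) (F := fun x y => P (x - y) * f y) (F' := fun x y => P' (x - y) * f y)
    (x₀ := x) (a := -1) (b := 1) (s := Metric.ball x 1) (bound := fun _ => C)
    (Metric.ball_mem_nhds x one_pos)
    (Filter.Eventually.of_forall fun z => by
      have : Continuous fun y => P (z - y) * f y := by fun_prop
      exact this.aestronglyMeasurable)
    (by
      have : Continuous fun y => P (x - y) * f y := by fun_prop
      exact this.intervalIntegrable _ _)
    (by
      have : Continuous fun y => P' (x - y) * f y := by fun_prop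
      exact this.aestronglyMeasurable)
    (Filter.Eventually.of_forall fun y hy z hz => by
      refine hC (z, y) ⟨?_, ?_⟩
      · rw [Metric.mem_ball, Real.dist_eq] at hz
        have := abs_lt.1 hz
        constructor <;> simp only <;> linarith [this.1, this.2]
      · rw [Set.uIoc_of_le (by norm_num)] at hy
        exact ⟨hy.1.le, hy.2⟩)
    (intervalIntegrable_const)
    (Filter.Eventually.of_forall fun y _ z _ => by
      have h1 : HasDerivAt (fun z => P (z - y)) (P' (z - y)) z :=
        (hP (z - y)).comp_sub_const z y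
      exact h1.mul_const (f y))
  exact key.2

/-- derivative on the function -/
theorem hasDerivAt_conv' {P f f' : ℝ → ℝ} (hP : Continuous P) (hPp : Function.Periodic P 2)
    (hfp : Function.Periodic f 2) (hf : ∀ x, HasDerivAt f (f' x) x) (hf' : Continuous f')
    (x : ℝ) : HasDerivAt (conv P f) (conv P f' x) x := by
  have hf'p : Function.Periodic f' 2 := by
    intro y
    have h1 : HasDerivAt (fun z => f (z + 2)) (f' (y + 2)) y :=
      (hf (y + 2)).comp_add_const y 2
    have h2 : (fun z => f (z + 2)) = f := funext fun z => hfp z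
    rw [h2] at h1
    exact h1.unique (hf y)
  have hfc : Continuous f := continuous_iff_continuousAt.2 fun x => (hf x).continuousAt
  have e1 : ∀ g : ℝ → ℝ, Function.Periodic g 2 → conv P g = fun x => conv g P x := by
    intro g hg
    funext x
    rw [conv_eq hPp hg, conv_def]
    exact cint_congr fun y => mul_comm _ _
  rw [e1 f hfp, e1 f' hf'p]
  exact hasDerivAt_conv hf hf' hP x

theorem hasDerivAt_PA_aux {A : ℝ → ℝ} (hA : Continuous A) (x : ℝ) :
    HasDerivAt (fun x => ∫ z in (0 : ℝ)..x, A z) (A x) x :=
  intervalIntegral.integral_hasDerivAt_right (hA.intervalIntegrable _ _)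
    (hA.stronglyMeasurableAtFilter _ _) hA.continuousAt

/-! ### Young inequalities -/

theorem abs_conv_le {P f : ℝ → ℝ} (hP : Continuous P) (hPp : Function.Periodic P 2)
    (hf : Continuous f) {B : ℝ} (hB : ∀ x, |f x| ≤ B) (x : ℝ) :
    |conv P f x| ≤ (cint fun z => |P z|) * B := by
  rw [conv_def]
  refine abs_cint_le.trans ?_
  have h1 : (cint fun y => |P (x - y) * f y|) ≤ cint fun y => |P (x - y)| * B := by
    refine cint_mono ?_ ?_ fun y => ?_
    · exact ((hP.comp (by fun_prop)).mul hf).abs
    · exact (hP.comp (by fun_prop)).abs.mul continuous_const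
    · rw [abs_mul]; exact mul_le_mul_of_nonneg_left (hB y) (abs_nonneg _)
  refine h1.trans ?_
  rw [cint_mul_right]
  have h2 : Function.Periodic (fun z => |P z|) 2 := fun z => by simp only [hPp z]
  rw [cint_sub_left h2 x]

/-- pointwise Cauchy–Schwarz for convolutions -/
theorem conv_sq_le {P f : ℝ → ℝ} (hP : Continuous P) (hPp : Function.Periodic P 2)
    (hf : Continuous f) (x : ℝ) :
    (conv P f x) ^ 2 ≤ (cint fun z => |P z|) * cint fun y => |P (x - y)| * (f y) ^ 2 := by
  have hc1 : Continuous fun y => |P (x - y)| := (hP.comp (by fun_prop)).abs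
  have h0 : |conv P f x| ≤ cint fun y => Real.sqrt |P (x - y)| * (Real.sqrt |P (x - y)| * |f y|) := by
    rw [conv_def]
    refine abs_cint_le.trans (le_of_eq (cint_congr fun y => ?_))
    rw [← mul_assoc, Real.mul_self_sqrt (abs_nonneg _), abs_mul]
  have h1 := cint_mul_sq_le (f := fun y => Real.sqrt |P (x - y)|)
    (g := fun y => Real.sqrt |P (x - y)| * |f y|) hc1.sqrt (hc1.sqrt.mul hf.abs)
  have h2 : (cint fun y => Real.sqrt |P (x - y)| ^ 2) = cint fun z => |P z| := by
    rw [← cint_sub_left (f := fun z => |P z|) (fun z => by simp only [hPp z]) x]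
    exact cint_congr fun y => Real.sq_sqrt (abs_nonneg _)
  have h3 : (cint fun y => (Real.sqrt |P (x - y)| * |f y|) ^ 2) = cint fun y => |P (x - y)| * (f y) ^ 2 :=
    cint_congr fun y => by rw [mul_pow, Real.sq_sqrt (abs_nonneg _), sq_abs]
  rw [h2, h3] at h1
  calc (conv P f x) ^ 2 = |conv P f x| ^ 2 := (sq_abs _).symm
    _ ≤ _ := pow_le_pow_left₀ (abs_nonneg _) h0 2
    _ ≤ _ := h1

/-- Young's inequality in `L²` -/
theorem cint_conv_sq_le {P f : ℝ → ℝ} (hP : Continuous P) (hPp : Function.Periodic P 2)
    (hf : Continuous f) :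
    (cint fun x => (conv P f x) ^ 2) ≤ (cint fun z => |P z|) ^ 2 * cint fun x => (f x) ^ 2 := by
  set N := cint fun z => |P z| with hN
  have hN0 : 0 ≤ N := cint_nonneg fun z => abs_nonneg _
  have hF : Continuous (Function.uncurry fun x y => |P (x - y)| * (f y) ^ 2) := by
    have : Continuous fun p : ℝ × ℝ => |P (p.1 - p.2)| * (f p.2) ^ 2 := by fun_prop
    exact this
  have h1 : (cint fun x => (conv P f x) ^ 2) ≤ cint fun x => N * cint fun y => |P (x - y)| * (f y) ^ 2 := by
    refine cint_mono ((continuous_conv hP hf).pow 2) ?_ fun x => conv_sq_le hP hPp hf x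
    exact continuous_const.mul (continuous_cint hF)
  refine h1.trans ?_
  rw [cint_mul_left, cint_swap hF]
  have h2 : (cint fun y => cint fun x => |P (x - y)| * (f y) ^ 2) = N * cint fun x => (f x) ^ 2 := by
    rw [← cint_mul_left]
    refine cint_congr fun y => ?_
    rw [cint_mul_right]
    congr 1
    exact cint_shift_sub (f := fun z => |P z|) (fun z => by simp only [hPp z]) y
  rw [h2]
  exact le_of_eq (by ring)

end

end Pool.Agent.C1E
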