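import Pool.Agent.Lib.MP_c1e222_an.Iface
import Pool.Agent.Lib.MP_c1e222_an.Bas
import Pool.Agent.Lib.MP_c1e222_an.Cnv

/-!
# MP_c1e222_an, row Sd (section 7, (S4), and small `j`)
-/

namespace Pool.Agent.C1E

open MeasureTheory Set Filter Topology intervalIntegral

noncomputable section

namespace SdRow

theorem half_right {k : ℝ} (hk : 0 < k) :
    (∫ x in (0 : ℝ)..1, k / (1 + k * x) ^ 2) = 1 - 1 / (1 + k) := by
  have h : ∀ x ∈ uIcc (0 : ℝ) 1, HasDerivAt (fun x => -(1 / (1 + k * x))) (k / (1 + k * x) ^ 2) x := by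
    intro x hx
    rw [uIcc_of_le zero_le_one] at hx
    have hp : 0 < 1 + k * x := by have := mul_nonneg hk.le hx.1; linarith
    have h1 : HasDerivAt (fun x => 1 + k * x) k x := by
      simpa using ((hasDerivAt_id x).const_mul k).const_add 1
    have h2 := (h1.inv hp.ne').neg
    have e : (fun x => -(1 / (1 + k * x))) = -(fun x => 1 + k * x)⁻¹ := by
      funext y; simp [one_div]
    rw [e]
    have e2 : k / (1 + k * x) ^ 2 = -(-k / (1 + k * x) ^ 2) := by rw [neg_div, neg_neg]
    rw [e2]
    exact h2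
  have hc : IntervalIntegrable (fun x => k / (1 + k * x) ^ 2) volume 0 1 := by
    apply ContinuousOn.intervalIntegrable
    intro x hx
    rw [uIcc_of_le zero_le_one] at hx
    have hp : 0 < 1 + k * x := by have := mul_nonneg hk.le hx.1; linarith
    apply ContinuousAt.continuousWithinAt
    have : ContinuousAt (fun x => 1 + k * x) x := by fun_prop
    exact continuousAt_const.div (this.pow 2) (pow_pos hp 2).ne'
  rw [integral_eq_sub_of_hasDerivAt h hc]
  simp
  ring

theorem half_left {k : ℝ} (hk : 0 < k) :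
    (∫ x in (-1 : ℝ)..0, k / (1 + k * (-x)) ^ 2) = 1 - 1 / (1 + k) := by
  have := intervalIntegral.integral_comp_neg (f := fun x => k / (1 + k * x) ^ 2) (a := -1) (b := 0)
  rw [this]
  simp only [neg_zero, neg_neg]
  exact half_right hk

theorem cint_th_le (i : ℕ) : cint (th i) ≤ 2 := by
  have hk := kap_pos i
  have hc := continuous_th i
  unfold cint
  rw [← intervalIntegral.integral_add_adjacent_intervals (a := (-1 : ℝ)) (b := 0) (c := 1)
    (hc.intervalIntegrable _ _) (hc.intervalIntegrable _ _)]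
  have h1 : (∫ x in (0 : ℝ)..1, th i x) ≤ ∫ x in (0 : ℝ)..1, kap i / (1 + kap i * x) ^ 2 := by
    refine intervalIntegral.integral_mono_on zero_le_one (hc.intervalIntegrable _ _) ?_ ?_
    · apply ContinuousOn.intervalIntegrable
      intro x hx
      rw [uIcc_of_le zero_le_one] at hx
      have hp : 0 < 1 + kap i * x := by have := mul_nonneg hk.le hx.1; linarith
      apply ContinuousAt.continuousWithinAt
      have : ContinuousAt (fun x => 1 + kap i * x) x := by fun_prop
      exact continuousAt_const.div (this.pow 2) (pow_pos hp 2).ne'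
    · intro x hx
      have hd : |x| ≤ dl x := abs_le_dl (by rw [abs_of_nonneg hx.1]; exact hx.2)
      rw [abs_of_nonneg hx.1] at hd
      have hp : 0 < 1 + kap i * x := by have := mul_nonneg hk.le hx.1; linarith
      unfold th
      apply div_le_div_of_nonneg_left hk.le (pow_pos hp 2)
      apply pow_le_pow_left₀ hp.le
      have := mul_le_mul_of_nonneg_left hd hk.le
      linarith
  have h2 : (∫ x in (-1 : ℝ)..0, th i x) ≤ ∫ x in (-1 : ℝ)..0, kap i / (1 + kap i * (-x)) ^ 2 := by
    refine intervalIntegral.integral_mono_on (by norm_num) (hc.intervalIntegrable _ _) ?_ ?_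
    · apply ContinuousOn.intervalIntegrable
      intro x hx
      rw [uIcc_of_le (by norm_num)] at hx
      have hp : 0 < 1 + kap i * (-x) := by
        have := mul_nonneg hk.le (neg_nonneg.2 hx.2); linarith
      apply ContinuousAt.continuousWithinAt
      have : ContinuousAt (fun x => 1 + kap i * (-x)) x := by fun_prop
      exact continuousAt_const.div (this.pow 2) (pow_pos hp 2).ne'
    · intro x hx
      have hd : |x| ≤ dl x := abs_le_dl (by rw [abs_of_nonpos hx.2]; linarith [hx.1])
      rw [abs_of_nonpos hx.2] at hd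
      have hp : 0 < 1 + kap i * (-x) := by
        have := mul_nonneg hk.le (neg_nonneg.2 hx.2); linarith
      unfold th
      apply div_le_div_of_nonneg_left hk.le (pow_pos hp 2)
      apply pow_le_pow_left₀ hp.le
      have := mul_le_mul_of_nonneg_left hd hk.le
      linarith
  rw [half_right hk] at h1
  rw [half_left hk] at h2
  have h3 : 0 < 1 / (1 + kap i) := by positivity
  linarith

/-- facts about the kernels -/
theorem ker_facts (h : KerStatement) : ∃ N : ℝ, 0 < N ∧ ∀ i : ℕ,
    Continuous (V i) ∧ Continuous (A i) ∧ Function.Periodic (A i) 2 ∧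
      cint (fun z => |A i z|) ≤ N := by
  obtain ⟨C, hC, hk⟩ := h
  have hV : ∀ i, Continuous (V i) := fun i => (hk i).1.continuous
  have hN : ∀ i, cint (fun z => |V i z|) ≤ 2 * C := by
    intro i
    have h1 : cint (fun z => |V i z|) ≤ cint (fun z => C * th i z) := by
      refine cint_mono (hV i).abs (continuous_const.mul (continuous_th i)) fun z => ?_
      refine ((hk i).2.2.2.2.2.1 z).trans ?_
      unfold th
      rw [mul_div_assoc]
      apply mul_le_mul_of_nonneg_left _ hC.le
      apply div_le_div_of_nonneg_left (kap_pos i).le (pow_pos (den_pos i z) 2)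
      exact pow_le_pow_right₀ (one_le_den i z) (by norm_num)
    rw [cint_mul_left] at h1
    have := mul_le_mul_of_nonneg_left (cint_th_le i) hC.le
    linarith
  refine ⟨4 * C, by positivity, fun i => ⟨hV i, (hV (i + 1)).sub (hV i), ?_, ?_⟩⟩
  · intro x
    unfold A
    rw [(hk (i + 1)).2.1 x, (hk i).2.1 x]
  · have h1 : cint (fun z => |A i z|) ≤ cint (fun z => |V (i + 1) z| + |V i z|) := by
      refine cint_mono ((hV (i + 1)).sub (hV i)).abs ((hV (i + 1)).abs.add (hV i).abs) fun z => ?_
      unfold A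
      exact abs_sub _ _
    rw [cint_add (hV (i + 1)).abs (hV i).abs] at h1
    have := hN i
    have := hN (i + 1)
    linarith

end SdRow

open SdRow

theorem sd_proof (h1 : SizeStatement) (h2 : KerStatement) : SdStatement := by
  obtain ⟨N, hN, hker⟩ := ker_facts h2
  intro M hM E
  obtain ⟨C, hC, hsize⟩ := h1 E
  have hC0 : 0 < C := by linarith
  set q : ℝ := (65 / 64) ^ M with hq
  have hq0 : 0 < q := by positivity
  set K : ℝ := kap (2 * M) with hK
  have hK1 : 1024 ≤ K := le_kap _
  have hK0 : 0 < K := by linarith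
  set B : ℝ := 3 * C * (C * K) * C + (3 * C ^ 2 * C + C) * (C * K) with hB
  have hB0 : 0 < B := by positivity
  refine ⟨(N ^ 2 * C ^ 3 / 2 + C / 2) * q ^ 2 + 2 * B * K ^ 2, by positivity, ?_, ?_⟩
  · intro u r hP j hj
    obtain ⟨-, -, hs⟩ := hsize u r hP
    obtain ⟨a1, -, -, -, -, -, -, -, -, -, a11, -, -, -⟩ := hs (j - M)
    obtain ⟨-, -, -, -, -, -, -, b8, -, -, -, -, -, -⟩ := hs j
    set k' := kap (j - M) with hk'
    have hk0 : 0 < k' := kap_pos _
    have hkj : q * k' = kap j := kap_sub hj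
    set f : ℝ → ℝ := fun y => (u y - Lo (j - M) u y) ^ 3 with hf
    have hLo : Continuous (Lo (j - M) u) := continuous_conv (hker (j - M)).1 hP.cu
    have hfc : Continuous f := (hP.cu.sub hLo).pow 3
    have hd : Continuous fun y => (u y - Lo (j - M) u y) ^ 2 := (hP.cu.sub hLo).pow 2
    have e1 : cint (fun y => (f y) ^ 2) ≤ C ^ 3 / k' ^ 4 := by
      have e2 : cint (fun y => (f y) ^ 2) ≤
          cint (fun y => (C / k') ^ 2 * (u y - Lo (j - M) u y) ^ 2) := by
        refine cint_mono (hfc.pow 2) (continuous_const.mul hd) fun y => ?_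
        have h3 : (f y) ^ 2 = ((u y - Lo (j - M) u y) ^ 2) ^ 2 * (u y - Lo (j - M) u y) ^ 2 := by
          simp only [hf]; ring
        rw [h3]
        apply mul_le_mul_of_nonneg_right _ (sq_nonneg _)
        exact pow_le_pow_left₀ (sq_nonneg _) (a1 y) 2
      rw [cint_mul_left] at e2
      refine e2.trans ?_
      have h4 : (C / k') ^ 2 * cint (fun x => (u x - Lo (j - M) u x) ^ 2) ≤
          (C / k') ^ 2 * (C / k' ^ 2) := mul_le_mul_of_nonneg_left a11 (sq_nonneg _)
      refine h4.trans (le_of_eq ?_)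
      field_simp
    obtain ⟨-, hAc, hAp, hAn⟩ := hker j
    have e3 : cint (fun x => (Pa j f x) ^ 2) ≤ N ^ 2 * (C ^ 3 / k' ^ 4) := by
      have h5 := cint_conv_sq_le hAc hAp hfc
      refine h5.trans ?_
      apply mul_le_mul _ e1 (cint_nonneg fun x => sq_nonneg _) (sq_nonneg _)
      exact pow_le_pow_left₀ (cint_nonneg fun z => abs_nonneg _) hAn 2
    have hPf : Continuous (Pa j f) := continuous_conv hAc hfc
    have hPr : Continuous (Pa j r) := continuous_conv hAc hP.cr
    have e4 : cint (fun x => |Pa j f x| * |Pa j r x|) ≤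
        cint (fun x => (k' ^ 2 / 2) * (Pa j f x) ^ 2 + (1 / (2 * k' ^ 2)) * (Pa j r x) ^ 2) := by
      refine cint_mono (hPf.abs.mul hPr.abs)
        ((continuous_const.mul (hPf.pow 2)).add (continuous_const.mul (hPr.pow 2))) fun x => ?_
      have h6 : 0 ≤ (k' * |Pa j f x| - (1 / k') * |Pa j r x|) ^ 2 := sq_nonneg _
      have h7 : (k' * |Pa j f x| - (1 / k') * |Pa j r x|) ^ 2 =
          k' ^ 2 * (Pa j f x) ^ 2 - 2 * (|Pa j f x| * |Pa j r x|) + (1 / k' ^ 2) * (Pa j r x) ^ 2 := by
        rw [← sq_abs (Pa j f x), ← sq_abs (Pa j r x)]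
        field_simp
        ring
      rw [h7] at h6
      have h8 : (1 / (2 * k' ^ 2)) * (Pa j r x) ^ 2 = (1 / k' ^ 2) * (Pa j r x) ^ 2 / 2 := by
        field_simp
      rw [h8]
      linarith
    rw [cint_add (f := fun x => (k' ^ 2 / 2) * (Pa j f x) ^ 2)
      (g := fun x => (1 / (2 * k' ^ 2)) * (Pa j r x) ^ 2)
      (continuous_const.mul (hPf.pow 2)) (continuous_const.mul (hPr.pow 2)),
      cint_mul_left, cint_mul_left] at e4
    have e5 : (k' ^ 2 / 2) * cint (fun x => (Pa j f x) ^ 2) ≤
        (k' ^ 2 / 2) * (N ^ 2 * (C ^ 3 / k' ^ 4)) :=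
      mul_le_mul_of_nonneg_left e3 (by positivity)
    have e6 : (1 / (2 * k' ^ 2)) * cint (fun x => (Pa j r x) ^ 2) ≤ (1 / (2 * k' ^ 2)) * C :=
      mul_le_mul_of_nonneg_left b8 (by positivity)
    have e7 : (k' ^ 2 / 2) * (N ^ 2 * (C ^ 3 / k' ^ 4)) + (1 / (2 * k' ^ 2)) * C =
        (N ^ 2 * C ^ 3 / 2 + C / 2) * q ^ 2 / (kap j) ^ 2 := by
      rw [← hkj]
      field_simp
    refine (e4.trans (add_le_add e5 e6)).trans ?_
    rw [e7]
    apply div_le_div_of_nonneg_right _ (by positivity)
    have : 0 < 2 * B * K ^ 2 := by positivity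
    linarith
  · intro u r hP j hj hj2
    obtain ⟨-, -, hs⟩ := hsize u r hP
    obtain ⟨-, a2, -, a4, -, -, -, -, -, -, -, -, -, -⟩ := hs (j - M)
    obtain ⟨-, -, -, -, b5, b6, -, -, -, -, -, b12, -, -⟩ := hs j
    have hkj0 : 0 < kap j := kap_pos j
    have hkj1 : 1024 ≤ kap j := le_kap j
    have hkK : kap j ≤ K := kap_mono hj2.le
    have hkK' : kap (j - M) ≤ K := (kap_sub_le M j).trans hkK
    have sq_le : ∀ a b : ℝ, 0 ≤ b → a ^ 2 ≤ b ^ 2 → |a| ≤ b := fun a b hb h =>
      abs_le_of_sq_le_sq h hb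
    have hCK : 1 ≤ C * K := by nlinarith
    have c1 : ∀ x, |Lo (j - M) r x| ≤ C * K := by
      intro x
      apply sq_le _ _ (by positivity)
      refine (a4 x).trans ?_
      have h3 : C * kap (j - M) ≤ C * K := mul_le_mul_of_nonneg_left hkK' hC0.le
      nlinarith
    have c2 : ∀ x, |Pa j r x| ≤ C * K := by
      intro x
      apply sq_le _ _ (by positivity)
      refine (b5 x).trans ?_
      have h3 : C * kap j ≤ C * K := mul_le_mul_of_nonneg_left hkK hC0.le
      nlinarith
    have c3 : ∀ x, (Pa j u x) ^ 2 ≤ C := by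
      intro x
      refine (b6 x).trans ?_
      apply div_le_self hC0.le
      linarith
    have c4 : ∀ x, |Pa j u x| ≤ C := by
      intro x
      apply sq_le _ _ hC0.le
      refine (c3 x).trans ?_
      nlinarith
    have hLou : Continuous (Lo (j - M) u) := continuous_conv (hker (j - M)).1 hP.cu
    have hLor : Continuous (Lo (j - M) r) := continuous_conv (hker (j - M)).1 hP.cr
    have hPu : Continuous (Pa j u) := continuous_conv (hker j).2.1 hP.cu
    have hPr : Continuous (Pa j r) := continuous_conv (hker j).2.1 hP.cr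
    have hPu3 : Continuous (Pa j fun y => (u y) ^ 3) :=
      continuous_conv (hker j).2.1 (hP.cu.pow 3)
    have hSS : Continuous (SS M j u r) := by
      unfold SS
      fun_prop
    have c5 : ∀ x, |SS M j u r x| ≤ B := by
      intro x
      unfold SS
      have t1 : |3 * Lo (j - M) u x * Lo (j - M) r x * (Pa j u x) ^ 2| ≤ 3 * C * (C * K) * C := by
        rw [abs_mul, abs_mul, abs_mul, abs_of_nonneg (sq_nonneg (Pa j u x))]
        rw [abs_of_pos (by norm_num : (0 : ℝ) < 3)]
        apply mul_le_mul _ (c3 x) (sq_nonneg _) (by positivity)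
        apply mul_le_mul _ (c1 x) (abs_nonneg _) (by positivity)
        exact mul_le_mul_of_nonneg_left (a2 x) (by norm_num)
      have t2 : |(3 * (Lo (j - M) u x) ^ 2 * Pa j u x - Pa j (fun y => (u y) ^ 3) x) * Pa j r x| ≤
          (3 * C ^ 2 * C + C) * (C * K) := by
        rw [abs_mul]
        apply mul_le_mul _ (c2 x) (abs_nonneg _) (by positivity)
        refine (abs_sub _ _).trans ?_
        apply add_le_add _ (b12 x)
        rw [abs_mul, abs_mul, abs_of_pos (by norm_num : (0 : ℝ) < 3), abs_pow]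
        apply mul_le_mul _ (c4 x) (abs_nonneg _) (by positivity)
        apply mul_le_mul_of_nonneg_left _ (by norm_num)
        exact pow_le_pow_left₀ (abs_nonneg _) (a2 x) 2
      refine (abs_add_le _ _).trans ?_
      rw [hB]
      exact add_le_add t1 t2
    have c6 := cint_le_of_le hSS.abs c5
    refine c6.trans ?_
    rw [le_div_iff₀ (by positivity)]
    have h9 : (kap j) ^ 2 ≤ K ^ 2 := pow_le_pow_left₀ hkj0.le hkK 2
    have h10 : 2 * B * (kap j) ^ 2 ≤ 2 * B * K ^ 2 := mul_le_mul_of_nonneg_left h9 (by positivity)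
    have h11 : 0 ≤ (N ^ 2 * C ^ 3 / 2 + C / 2) * q ^ 2 := by positivity
    linarith

end

end Pool.Agent.C1E
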