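import Pool.Agent.Lib.MP_c1e222_an.Cnv
import Pool.Agent.Lib.MP_c1e222_an.Dom

/-!
# MP_c1e222_an, row Size (section 1): sizes at a fixed time
-/

namespace Pool.Agent.C1E

open MeasureTheory Set Filter Topology

noncomputable section

namespace SizeRow

/-- the facts on the kernels `V_i` which are used here -/
structure KD (C : ℝ) : Prop where
  pos : 0 < C
  cont : ∀ i, Continuous (V i)
  per : ∀ i, Function.Periodic (V i) 2
  mass : ∀ i, cint (V i) = 1
  bd : ∀ i x, |V i x| ≤ C * kap i / (1 + kap i * dl x) ^ 4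

theorem th_int2 (i : ℕ) : cint (th i) ≤ 2 := DomRow.th_int i

section kernel
variable {C : ℝ} (h : KD C) (i : ℕ)
include h

theorem V_le_th (x : ℝ) : |V i x| ≤ C * th i x := by
  refine (h.bd i x).trans ?_
  unfold th
  rw [mul_div_assoc']
  have h1 := one_le_den i x
  have h2 : (1 + kap i * dl x) ^ 2 ≤ (1 + kap i * dl x) ^ 4 := pow_le_pow_right₀ h1 (by norm_num)
  exact div_le_div_of_nonneg_left (mul_nonneg h.pos.le (kap_pos i).le) (by positivity) h2

theorem V_sup (x : ℝ) : |V i x| ≤ C * kap i := by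
  refine (V_le_th h i x).trans ?_
  exact mul_le_mul_of_nonneg_left (th_le_kap i x) h.pos.le

theorem V_int : (cint fun z => |V i z|) ≤ 2 * C := by
  have h1 : (cint fun z => |V i z|) ≤ cint fun z => C * th i z :=
    cint_mono (h.cont i).abs (continuous_const.mul (continuous_th i)) (V_le_th h i)
  rw [cint_mul_left] at h1
  have h2 := mul_le_mul_of_nonneg_left (th_int2 i) h.pos.le
  linarith

theorem V_dl (z : ℝ) : |V i z| * dl z ≤ C / kap i * th i z := by
  have hk := kap_pos i
  have h1 := one_le_den i z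
  have h0 := den_pos i z
  have hd := dl_nonneg z
  have hC := h.pos
  calc |V i z| * dl z ≤ C * kap i / (1 + kap i * dl z) ^ 4 * dl z :=
        mul_le_mul_of_nonneg_right (h.bd i z) hd
    _ = C * (kap i * dl z) / (1 + kap i * dl z) ^ 4 := by ring
    _ ≤ C * (1 + kap i * dl z) ^ 2 / (1 + kap i * dl z) ^ 4 := by
        refine div_le_div_of_nonneg_right ?_ (by positivity)
        refine mul_le_mul_of_nonneg_left ?_ hC.le
        nlinarith
    _ = C / kap i * th i z := by
        unfold th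
        field_simp

theorem V_dl_sq (z : ℝ) : |V i z| * (dl z) ^ 2 ≤ C / (kap i) ^ 2 * th i z := by
  have hk := kap_pos i
  have h1 := one_le_den i z
  have h0 := den_pos i z
  have hd := dl_nonneg z
  have hC := h.pos
  calc |V i z| * (dl z) ^ 2 ≤ C * kap i / (1 + kap i * dl z) ^ 4 * (dl z) ^ 2 :=
        mul_le_mul_of_nonneg_right (h.bd i z) (sq_nonneg _)
    _ = C / kap i * (kap i * dl z) ^ 2 / (1 + kap i * dl z) ^ 4 := by
        field_simp
    _ ≤ C / kap i * (1 + kap i * dl z) ^ 2 / (1 + kap i * dl z) ^ 4 := by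
        refine div_le_div_of_nonneg_right ?_ (by positivity)
        refine mul_le_mul_of_nonneg_left ?_ (by positivity)
        exact pow_le_pow_left₀ (mul_nonneg hk.le hd) (by linarith) 2
    _ = C / (kap i) ^ 2 * th i z := by
        unfold th
        field_simp

theorem V_dl_int : (cint fun z => |V i z| * dl z) ≤ 2 * C / kap i := by
  have h1 : (cint fun z => |V i z| * dl z) ≤ cint fun z => C / kap i * th i z :=
    cint_mono ((h.cont i).abs.mul continuous_dl) (continuous_const.mul (continuous_th i))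
      (V_dl h i)
  rw [cint_mul_left] at h1
  have h2 := mul_le_mul_of_nonneg_left (th_int2 i) (div_pos h.pos (kap_pos i)).le
  calc _ ≤ _ := h1
    _ ≤ _ := h2
    _ = _ := by ring

theorem V_dl_sq_int : (cint fun z => |V i z| * (dl z) ^ 2) ≤ 2 * C / (kap i) ^ 2 := by
  have h1 : (cint fun z => |V i z| * (dl z) ^ 2) ≤ cint fun z => C / (kap i) ^ 2 * th i z :=
    cint_mono ((h.cont i).abs.mul (continuous_dl.pow 2))
      (continuous_const.mul (continuous_th i)) (V_dl_sq h i)
  rw [cint_mul_left] at h1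
  have h2 := mul_le_mul_of_nonneg_left (th_int2 i) (div_pos h.pos (pow_pos (kap_pos i) 2)).le
  calc _ ≤ _ := h1
    _ ≤ _ := h2
    _ = _ := by ring

theorem V_sq_int : (cint fun z => (V i z) ^ 2) ≤ 2 * C ^ 2 * kap i := by
  have h1 : (cint fun z => (V i z) ^ 2) ≤ cint fun z => C * kap i * |V i z| := by
    refine cint_mono ((h.cont i).pow 2) (continuous_const.mul (h.cont i).abs) fun x => ?_
    rw [← sq_abs, sq]
    exact mul_le_mul_of_nonneg_right (V_sup h i x) (abs_nonneg _)
  rw [cint_mul_left] at h1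
  have h2 := mul_le_mul_of_nonneg_left (V_int h i) (mul_pos h.pos (kap_pos i)).le
  calc _ ≤ _ := h1
    _ ≤ _ := h2
    _ = _ := by ring

end kernel

/-- pointwise Cauchy-Schwarz for a convolution -/
theorem conv_sq_le' {P f : ℝ → ℝ} (hP : Continuous P) (hPp : Function.Periodic P 2)
    (hf : Continuous f) (x : ℝ) :
    (conv P f x) ^ 2 ≤ (cint fun z => (P z) ^ 2) * cint fun y => (f y) ^ 2 := by
  have h1 := cint_mul_sq_le (f := fun y => P (x - y)) (g := f) (hP.comp (by fun_prop)) hf
  have h2 : (cint fun y => (P (x - y)) ^ 2) = cint fun z => (P z) ^ 2 :=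
    cint_sub_left (f := fun z => (P z) ^ 2) (fun z => by simp only [hPp z]) x
  rw [h2] at h1
  exact h1

/-- Cauchy-Schwarz against the constant on an interval -/
theorem int_sq_le {g : ℝ → ℝ} (hg : Continuous g) {a b : ℝ} (hab : a ≤ b) :
    (∫ x in a..b, g x) ^ 2 ≤ (b - a) * ∫ x in a..b, (g x) ^ 2 := by
  rcases eq_or_lt_of_le hab with he | hlt
  · subst he; simp
  have hL : 0 < b - a := by linarith
  set S := ∫ x in a..b, g x with hS
  have h1 : 0 ≤ ∫ x in a..b, (g x - S / (b - a)) ^ 2 :=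
    intervalIntegral.integral_nonneg hab fun x _ => sq_nonneg _
  have h2 : (∫ x in a..b, (g x - S / (b - a)) ^ 2)
      = (∫ x in a..b, (g x) ^ 2) - 2 * (S / (b - a)) * S + (S / (b - a)) ^ 2 * (b - a) := by
    have e : ∀ x, (g x - S / (b - a)) ^ 2
        = (g x) ^ 2 - 2 * (S / (b - a)) * g x + (S / (b - a)) ^ 2 := fun x => by ring
    simp_rw [e]
    rw [intervalIntegral.integral_add (Continuous.intervalIntegrable (by fun_prop) _ _)
        (Continuous.intervalIntegrable (by fun_prop) _ _),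
      intervalIntegral.integral_sub (Continuous.intervalIntegrable (by fun_prop) _ _)
        (Continuous.intervalIntegrable (by fun_prop) _ _),
      intervalIntegral.integral_const_mul, intervalIntegral.integral_const, ← hS, smul_eq_mul]
    ring
  rw [h2] at h1
  have h3 : 2 * (S / (b - a)) * S = 2 * (S ^ 2 / (b - a)) := by ring
  have h4 : (S / (b - a)) ^ 2 * (b - a) = S ^ 2 / (b - a) := by field_simp
  rw [h3, h4] at h1
  have h5 : S ^ 2 / (b - a) ≤ ∫ x in a..b, (g x) ^ 2 := by linarith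
  rw [div_le_iff₀ hL] at h5
  linarith

section prof
variable {E : ℝ} {u r : ℝ → ℝ} (h : Prof E u r)
include h

theorem E_nonneg : 0 ≤ E := (cint_nonneg fun x => sq_nonneg (r x)).trans h.hE

/-- the derivative of `u` -/
def gg (r : ℝ → ℝ) (x : ℝ) : ℝ := (r x + r (-x)) / 2

theorem gg_cont : Continuous (gg r) := by
  unfold gg
  have := h.cr
  fun_prop

theorem gg_per : Function.Periodic (gg r) 2 := by
  intro x
  unfold gg
  rw [h.pr x, show -(x + 2) = -x - 2 by ring, h.pr.sub_eq]

theorem gg_int : (cint fun x => (gg r x) ^ 2) ≤ E := by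
  have hc := h.cr
  have h1 : (cint fun x => (gg r x) ^ 2) ≤ cint fun x => ((r x) ^ 2 / 2 + (r (-x)) ^ 2 / 2) := by
    refine cint_mono ((gg_cont h).pow 2) (by fun_prop) fun x => ?_
    unfold gg
    nlinarith [sq_nonneg (r x - r (-x))]
  have h2 : (cint fun x => ((r x) ^ 2 / 2 + (r (-x)) ^ 2 / 2)) = cint fun x => (r x) ^ 2 := by
    rw [cint_add (by fun_prop) (by fun_prop)]
    have e1 : (cint fun x => (r (-x)) ^ 2 / 2) = cint fun x => (r x) ^ 2 / 2 :=
      cint_flip fun x => (r x) ^ 2 / 2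
    rw [e1]
    have e2 : (cint fun x => (r x) ^ 2 / 2) = (1 / 2) * cint fun x => (r x) ^ 2 := by
      rw [← cint_mul_left]
      exact cint_congr fun x => by ring
    rw [e2]
    ring
  rw [h2] at h1
  exact h1.trans h.hE

theorem u_le_of_le {a b : ℝ} (hab : a ≤ b) (h2 : b ≤ a + 2) : (u b - u a) ^ 2 ≤ (b - a) * E := by
  have hg := gg_cont h
  have e1 : (∫ x in a..b, gg r x) = u b - u a :=
    intervalIntegral.integral_eq_sub_of_hasDerivAt (fun x _ => h.ux x)
      (hg.intervalIntegrable _ _)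
  rw [← e1]
  refine (int_sq_le hg hab).trans ?_
  refine mul_le_mul_of_nonneg_left ?_ (by linarith)
  have e2 : (∫ x in a..b, (gg r x) ^ 2) ≤ ∫ x in a..(a + 2), (gg r x) ^ 2 := by
    have e3 := intervalIntegral.integral_add_adjacent_intervals
      (f := fun x => (gg r x) ^ 2) (μ := volume) (a := a) (b := b) (c := a + 2)
      (Continuous.intervalIntegrable (by fun_prop) _ _)
      (Continuous.intervalIntegrable (by fun_prop) _ _)
    have e4 : 0 ≤ ∫ x in b..(a + 2), (gg r x) ^ 2 :=
      intervalIntegral.integral_nonneg h2 fun x _ => sq_nonneg _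
    linarith
  have e5 : (∫ x in a..(a + 2), (gg r x) ^ 2) = cint fun x => (gg r x) ^ 2 :=
    integral_period (f := fun x => (gg r x) ^ 2) (fun x => by simp only [gg_per h x]) a
  rw [e5] at e2
  exact e2.trans (gg_int h)

theorem u_near {x y : ℝ} (hxy : |x - y| ≤ 2) : (u x - u y) ^ 2 ≤ |x - y| * E := by
  rcases le_total x y with hle | hle
  · rw [abs_of_nonpos (by linarith)] at hxy ⊢
    have := u_le_of_le h hle (by linarith)
    nlinarith
  · rw [abs_of_nonneg (by linarith)] at hxy ⊢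
    exact u_le_of_le h hle (by linarith)

theorem u_dl (x y : ℝ) : (u x - u y) ^ 2 ≤ E * dl (x - y) := by
  set n : ℤ := round ((x - y) / 2) with hn
  have h1 : |(x - y) / 2 - n| ≤ 1 / 2 := abs_sub_round _
  have h2 : |(x - n * 2) - y| ≤ 1 := by
    have e : (x - n * 2) - y = 2 * ((x - y) / 2 - n) := by ring
    rw [e, abs_mul, abs_of_nonneg (by norm_num : (0 : ℝ) ≤ 2)]
    linarith
  have h3 : u (x - n * 2) = u x := h.pu.sub_int_mul_eq n
  have h4 : dl ((x - n * 2) - y) = dl (x - y) := by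
    have e : (x - n * 2) - y = (x - y) - n * 2 := by ring
    rw [e]
    exact dl_periodic.sub_int_mul_eq n
  have h5 := u_near h (x := x - n * 2) (y := y) (h2.trans (by norm_num))
  rw [h3] at h5
  have h6 := abs_le_dl h2
  rw [h4] at h6
  have h7 := mul_le_mul_of_nonneg_right h6 (E_nonneg h)
  linarith

theorem u_bound (x : ℝ) : |u x| ≤ 1 + E := by
  have h0 : u 0 = 0 := by
    have := h.odd 0
    rw [neg_zero] at this
    linarith
  have h1 := u_dl h x 0
  rw [h0, sub_zero, sub_zero] at h1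
  have hE := E_nonneg h
  have h2 : (u x) ^ 2 ≤ E := by
    have := mul_le_mul_of_nonneg_left (dl_le_one x) hE
    linarith
  refine abs_le_of_sq_le_sq ?_ (by linarith)
  nlinarith

theorem u_shift_small {z : ℝ} : (cint fun x => (u x - u (x - z)) ^ 2) ≤ z ^ 2 * E := by
  have hg := gg_cont h
  have hcu := h.cu
  have e1 : ∀ x, u x - u (x - z) = z * ∫ s in (0 : ℝ)..1, gg r (x - s * z) := by
    intro x
    have hd : ∀ s ∈ uIcc (0 : ℝ) 1, HasDerivAt (fun s => u (x - s * z)) (-z * gg r (x - s * z)) s := by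
      intro s _
      have h1 : HasDerivAt (fun s : ℝ => x - s * z) (-z) s := by
        have := ((hasDerivAt_id s).mul_const z).const_sub x
        simpa using this
      have h2 := (h.ux (x - s * z)).comp s h1
      have e : (r (x - s * z) + r (-(x - s * z))) / 2 * -z = -z * gg r (x - s * z) := by
        unfold gg; ring
      rw [e] at h2
      exact h2
    have hc : Continuous fun s : ℝ => -z * gg r (x - s * z) := by fun_prop
    have h3 := intervalIntegral.integral_eq_sub_of_hasDerivAt hd (hc.intervalIntegrable _ _)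
    rw [intervalIntegral.integral_const_mul] at h3
    simp only [one_mul, zero_mul, sub_zero] at h3
    linarith
  have hF : Continuous (Function.uncurry fun s x : ℝ => (gg r (x - s * z)) ^ 2) := by
    have : Continuous fun p : ℝ × ℝ => (gg r (p.2 - p.1 * z)) ^ 2 := by fun_prop
    exact this
  have h1 : (cint fun x => (u x - u (x - z)) ^ 2)
      ≤ cint fun x => z ^ 2 * ∫ s in (0 : ℝ)..1, (gg r (x - s * z)) ^ 2 := by
    refine cint_mono (by fun_prop) ?_ fun x => ?_
    · refine continuous_const.mul ?_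
      refine intervalIntegral.continuous_parametric_intervalIntegral_of_continuous' ?_ _ _
      fun_prop
    · rw [e1 x, mul_pow]
      refine mul_le_mul_of_nonneg_left ?_ (sq_nonneg _)
      have hc : Continuous fun s : ℝ => gg r (x - s * z) := by fun_prop
      have := int_sq_le hc (a := 0) (b := 1) (by norm_num)
      rw [sub_zero, one_mul] at this
      exact this
  refine h1.trans ?_
  rw [cint_mul_left, ← time_cint_swap hF]
  refine mul_le_mul_of_nonneg_left ?_ (sq_nonneg _)
  have e2 : ∀ s : ℝ, (cint fun x => (gg r (x - s * z)) ^ 2) = cint fun x => (gg r x) ^ 2 := by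
    intro s
    exact cint_shift_sub (f := fun x => (gg r x) ^ 2) (fun x => by simp only [gg_per h x]) (s * z)
  simp_rw [e2]
  rw [intervalIntegral.integral_const]
  simp only [sub_zero, one_smul]
  exact gg_int h

theorem u_shift (z : ℝ) : (cint fun x => (u x - u (x - z)) ^ 2) ≤ E * (dl z) ^ 2 := by
  set n : ℤ := round (z / 2) with hn
  have h1 : |z / 2 - n| ≤ 1 / 2 := abs_sub_round _
  have h2 : |z - n * 2| ≤ 1 := by
    have e : z - n * 2 = 2 * (z / 2 - n) := by ring
    rw [e, abs_mul, abs_of_nonneg (by norm_num : (0 : ℝ) ≤ 2)]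
    linarith
  have h3 : ∀ x, u (x - (z - n * 2)) = u (x - z) := by
    intro x
    have e : x - (z - n * 2) = (x - z) - ((-n : ℤ) : ℝ) * 2 := by push_cast; ring
    rw [e]
    exact h.pu.sub_int_mul_eq (-n)
  have h4 : dl (z - n * 2) = dl z := dl_periodic.sub_int_mul_eq n
  have h5 := u_shift_small h (z := z - n * 2)
  simp_rw [h3] at h5
  refine h5.trans ?_
  have h6 := abs_le_dl h2
  rw [h4] at h6
  have h7 : (z - n * 2) ^ 2 ≤ (dl z) ^ 2 := by
    rw [← sq_abs (z - n * 2)]
    exact pow_le_pow_left₀ (abs_nonneg _) h6 2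
  have := mul_le_mul_of_nonneg_right h7 (E_nonneg h)
  linarith

theorem Lo_diff {C : ℝ} (hK : KD C) (i : ℕ) (x : ℝ) :
    u x - Lo i u x = cint fun z => V i z * (u x - u (x - z)) := by
  have hVc := hK.cont i
  have hcu := h.cu
  unfold Lo
  rw [conv_eq (hK.per i) h.pu]
  have e : (cint fun z => V i z * (u x - u (x - z)))
      = (cint fun z => V i z * u x) - cint fun z => V i z * u (x - z) := by
    rw [← cint_sub (by fun_prop) (by fun_prop)]
    exact cint_congr fun z => by ring
  rw [e, cint_mul_right, hK.mass i, one_mul]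

/-- Cauchy-Schwarz for the difference `u - V_i * u` -/
theorem Lo_diff_sq {C : ℝ} (hK : KD C) (i : ℕ) (x : ℝ) :
    (u x - Lo i u x) ^ 2 ≤ (2 * C) * cint fun z => |V i z| * (u x - u (x - z)) ^ 2 := by
  have hVc := hK.cont i
  have hcu := h.cu
  rw [Lo_diff h hK i x]
  have h1 : |cint fun z => V i z * (u x - u (x - z))| ≤ cint fun z => |V i z| * |u x - u (x - z)| := by
    refine abs_cint_le.trans (le_of_eq (cint_congr fun z => abs_mul _ _))
  have h2 := DomRow.cs (w := fun z => |V i z|) (f := fun z => u x - u (x - z)) (by fun_prop)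
    (fun y => abs_nonneg _) (by fun_prop) (B := 2 * C) (by have := hK.pos; linarith) (V_int hK i)
  rw [← sq_abs]
  exact (pow_le_pow_left₀ (abs_nonneg _) h1 2).trans h2

theorem Lo_u_near {C : ℝ} (hK : KD C) (i : ℕ) (x : ℝ) :
    (u x - Lo i u x) ^ 2 ≤ 4 * C ^ 2 * E / kap i := by
  have hVc := hK.cont i
  have hcu := h.cu
  have hE := E_nonneg h
  refine (Lo_diff_sq h hK i x).trans ?_
  have h1 : (cint fun z => |V i z| * (u x - u (x - z)) ^ 2) ≤ cint fun z => E * (|V i z| * dl z) := by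
    refine cint_mono (by fun_prop) ?_ fun z => ?_
    · exact continuous_const.mul (hVc.abs.mul continuous_dl)
    · have h2 := u_dl h x (x - z)
      rw [show x - (x - z) = z by ring] at h2
      have := mul_le_mul_of_nonneg_left h2 (abs_nonneg (V i z))
      linarith
  rw [cint_mul_left] at h1
  have h3 := mul_le_mul_of_nonneg_left (V_dl_int hK i) hE
  have h4 := mul_le_mul_of_nonneg_left (h1.trans h3) (by have := hK.pos; linarith : 0 ≤ 2 * C)
  refine h4.trans (le_of_eq ?_)
  ring

theorem Lo_u_int {C : ℝ} (hK : KD C) (i : ℕ) :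
    (cint fun x => (u x - Lo i u x) ^ 2) ≤ 4 * C ^ 2 * E / (kap i) ^ 2 := by
  have hVc := hK.cont i
  have hcu := h.cu
  have hE := E_nonneg h
  have hF : Continuous (Function.uncurry fun x z : ℝ => |V i z| * (u x - u (x - z)) ^ 2) := by
    have : Continuous fun p : ℝ × ℝ => |V i p.2| * (u p.1 - u (p.1 - p.2)) ^ 2 := by fun_prop
    exact this
  have hLc : Continuous (Lo i u) := continuous_conv hVc hcu
  have h1 : (cint fun x => (u x - Lo i u x) ^ 2)
      ≤ cint fun x => (2 * C) * cint fun z => |V i z| * (u x - u (x - z)) ^ 2 := by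
    refine cint_mono (by fun_prop) ?_ fun x => Lo_diff_sq h hK i x
    exact continuous_const.mul (continuous_cint hF)
  rw [cint_mul_left, cint_swap hF] at h1
  have h2 : (cint fun z => cint fun x => |V i z| * (u x - u (x - z)) ^ 2)
      ≤ cint fun z => E * (|V i z| * (dl z) ^ 2) := by
    refine cint_mono ?_ ?_ fun z => ?_
    · have hF' : Continuous (Function.uncurry fun z x : ℝ => |V i z| * (u x - u (x - z)) ^ 2) := by
        have : Continuous fun p : ℝ × ℝ => |V i p.1| * (u p.2 - u (p.2 - p.1)) ^ 2 := by fun_prop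
        exact this
      exact continuous_cint hF'
    · exact continuous_const.mul (hVc.abs.mul (continuous_dl.pow 2))
    · rw [cint_mul_left]
      have := mul_le_mul_of_nonneg_left (u_shift h z) (abs_nonneg (V i z))
      linarith
  rw [cint_mul_left] at h2
  have h3 := mul_le_mul_of_nonneg_left (V_dl_sq_int hK i) hE
  have h4 := mul_le_mul_of_nonneg_left (h2.trans h3) (by have := hK.pos; linarith : 0 ≤ 2 * C)
  refine (h1.trans h4).trans (le_of_eq ?_)
  ring

theorem Lo_r_sq {C : ℝ} (hK : KD C) (i : ℕ) (x : ℝ) : (Lo i r x) ^ 2 ≤ 2 * C ^ 2 * E * kap i := by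
  have h1 := conv_sq_le' (hK.cont i) (hK.per i) h.cr x
  have h2 : (cint fun z => (V i z) ^ 2) * (cint fun y => (r y) ^ 2) ≤ 2 * C ^ 2 * kap i * E :=
    mul_le_mul (V_sq_int hK i) h.hE (cint_nonneg fun x => sq_nonneg _) (by
      have := kap_pos i
      positivity)
  refine (h1.trans h2).trans (le_of_eq ?_)
  ring

theorem Lo_r_int {C : ℝ} (hK : KD C) (i : ℕ) : (cint fun x => (Lo i r x) ^ 2) ≤ 4 * C ^ 2 * E := by
  have h1 := cint_conv_sq_le (hK.cont i) (hK.per i) h.cr
  have h0 : 0 ≤ cint fun z => |V i z| := cint_nonneg fun z => abs_nonneg _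
  have h2 : (cint fun z => |V i z|) ^ 2 * (cint fun x => (r x) ^ 2) ≤ (2 * C) ^ 2 * E :=
    mul_le_mul (pow_le_pow_left₀ h0 (V_int hK i) 2) h.hE (cint_nonneg fun x => sq_nonneg _)
      (sq_nonneg _)
  refine (h1.trans h2).trans (le_of_eq ?_)
  ring

end prof

/-- a piece is a difference of two low passes -/
theorem Pa_eq {C : ℝ} (hK : KD C) {f : ℝ → ℝ} (hf : Continuous f) (i : ℕ) (x : ℝ) :
    Pa i f x = Lo (i + 1) f x - Lo i f x :=
  conv_sub_ker (hK.cont (i + 1)) (hK.cont i) hf x

theorem Lo_cont {C : ℝ} (hK : KD C) {f : ℝ → ℝ} (hf : Continuous f) (i : ℕ) :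
    Continuous (Lo i f) := continuous_conv (hK.cont i) hf

theorem Pa_cont {C : ℝ} (hK : KD C) {f : ℝ → ℝ} (hf : Continuous f) (i : ℕ) :
    Continuous (Pa i f) := continuous_conv ((hK.cont (i + 1)).sub (hK.cont i)) hf

/-- bounded functions -/
theorem Lo_bound {C : ℝ} (hK : KD C) {f : ℝ → ℝ} (hf : Continuous f) {B : ℝ}
    (hB : ∀ x, |f x| ≤ B) (i : ℕ) (x : ℝ) : |Lo i f x| ≤ 2 * C * B := by
  have h0 : 0 ≤ B := (abs_nonneg _).trans (hB 0)
  refine (abs_conv_le (hK.cont i) (hK.per i) hf hB x).trans ?_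
  exact mul_le_mul_of_nonneg_right (V_int hK i) h0

theorem Pa_bound {C : ℝ} (hK : KD C) {f : ℝ → ℝ} (hf : Continuous f) {B : ℝ}
    (hB : ∀ x, |f x| ≤ B) (i : ℕ) (x : ℝ) : |Pa i f x| ≤ 4 * C * B := by
  rw [Pa_eq hK hf]
  have h1 := Lo_bound hK hf hB (i + 1) x
  have h2 := Lo_bound hK hf hB i x
  have h3 := abs_sub (Lo (i + 1) f x) (Lo i f x)
  linarith

end SizeRow

open SizeRow in
theorem size_proof (h1 : KerStatement) (h2 : IdnStatement) (h3 : BernStatement) :
    SizeStatement := by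
  obtain ⟨C, hC, hker⟩ := h1
  have hK : KD C :=
    { pos := hC
      cont := fun i => (hker i).1.continuous
      per := fun i => (hker i).2.1
      mass := fun i => (hker i).2.2.2.1
      bd := fun i => (hker i).2.2.2.2.2.1 }
  intro E
  set E1 : ℝ := max E 0 with hE1
  have hE10 : 0 ≤ E1 := le_max_right _ _
  set B : ℝ := 1 + E1 with hB
  have hB1 : 1 ≤ B := by linarith
  -- the constant
  set K : ℝ := 1 + 16 * C ^ 2 * E1 + 16 * C ^ 2 * E1 * 4 + 2 * C * B + B + 4 * C * B ^ 3
    + 2 * (4 * C * B ^ 3) ^ 2 with hKdef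
  have t1 : 0 ≤ 16 * C ^ 2 * E1 := by positivity
  have t2 : 0 ≤ 2 * C * B := by positivity
  have t3 : 0 ≤ 4 * C * B ^ 3 := by positivity
  have t4 : 0 ≤ 2 * (4 * C * B ^ 3) ^ 2 := by positivity
  have k1 : 1 ≤ K := by linarith
  refine ⟨K, k1, ?_⟩
  intro u r h
  have hE : 0 ≤ E := E_nonneg h
  have hEE : E1 = E := max_eq_left hE
  have hub : ∀ x, |u x| ≤ B := fun x => by rw [hB, hEE]; exact u_bound h x
  have b1 : 4 * C ^ 2 * E ≤ K := by rw [← hEE]; nlinarith
  have b2 : 16 * C ^ 2 * E ≤ K := by rw [← hEE]; nlinarith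
  have b3 : 2 * C * B ≤ K := by linarith
  have b4 : B ≤ K := by linarith
  have b5 : 4 * C * B ^ 3 ≤ K := by linarith
  have b6 : 2 * (4 * C * B ^ 3) ^ 2 ≤ K := by linarith
  have b7 : 2 * C ^ 2 * E ≤ K := by rw [← hEE]; nlinarith
  have hu3c : Continuous fun y => (u y) ^ 3 := h.cu.pow 3
  have hu3b : ∀ x, |(u x) ^ 3| ≤ B ^ 3 := fun x => by
    rw [abs_pow]
    exact pow_le_pow_left₀ (abs_nonneg _) (hub x) 3
  have hu3p : Function.Periodic (fun y => (u y) ^ 3) 2 := fun x => by simp only [h.pu x]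
  refine ⟨fun x => (hub x).trans b4, fun x y => ?_, fun i => ?_⟩
  · refine (u_dl h x y).trans ?_
    refine mul_le_mul_of_nonneg_right ?_ (dl_nonneg _)
    rw [← hEE]
    linarith
  have hk := kap_pos i
  have hk1 := kap_pos (i + 1)
  have hkk : kap i ≤ kap (i + 1) := kap_mono (Nat.le_succ i)
  have hkk2 : kap (i + 1) ≤ 2 * kap i := by rw [kap_succ]; linarith
  have hLc := Lo_cont hK h.cr
  have hPc := Pa_cont hK h.cr
  -- pieces of r, pointwise
  have p1 : ∀ x, (Lo i r x) ^ 2 ≤ K * kap i := fun x => by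
    refine (Lo_r_sq h hK i x).trans ?_
    exact mul_le_mul_of_nonneg_right b7 hk.le
  have p2 : ∀ x, (Pa i r x) ^ 2 ≤ K * kap i := fun x => by
    rw [Pa_eq hK h.cr]
    have e1 := Lo_r_sq h hK i x
    have e2 := Lo_r_sq h hK (i + 1) x
    have e3 : 2 * C ^ 2 * E * kap (i + 1) ≤ 2 * C ^ 2 * E * (2 * kap i) :=
      mul_le_mul_of_nonneg_left hkk2 (by positivity)
    have e4 : (Lo (i + 1) r x - Lo i r x) ^ 2 ≤ 2 * (Lo (i + 1) r x) ^ 2 + 2 * (Lo i r x) ^ 2 := by
      nlinarith [sq_nonneg (Lo (i + 1) r x + Lo i r x)]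
    have e5 : 16 * C ^ 2 * E * kap i ≤ K * kap i := mul_le_mul_of_nonneg_right b2 hk.le
    have e6 : 0 ≤ C ^ 2 * E * kap i := by positivity
    nlinarith
  have p3 : (cint fun x => (Pa i r x) ^ 2) ≤ K := by
    have e0 : ∀ x, (Pa i r x) ^ 2 ≤ 2 * (Lo (i + 1) r x) ^ 2 + 2 * (Lo i r x) ^ 2 := fun x => by
      rw [Pa_eq hK h.cr]
      nlinarith [sq_nonneg (Lo (i + 1) r x + Lo i r x)]
    have c1 := hLc (i + 1)
    have c2 := hLc i
    have c3 := hPc i
    have e1 := cint_mono (f := fun x => (Pa i r x) ^ 2)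
      (g := fun x => 2 * (Lo (i + 1) r x) ^ 2 + 2 * (Lo i r x) ^ 2)
      (by fun_prop) (by fun_prop) e0
    rw [cint_add (by fun_prop) (by fun_prop), cint_mul_left, cint_mul_left] at e1
    have e2 := Lo_r_int h hK i
    have e3 := Lo_r_int h hK (i + 1)
    linarith
  have q1 : ∀ x, (u x - Lo i u x) ^ 2 ≤ K / kap i := fun x => by
    refine (Lo_u_near h hK i x).trans ?_
    exact div_le_div_of_nonneg_right b1 hk.le
  have q2 : (cint fun x => (Pp i r x) ^ 2) ≤ K / (kap i) ^ 2 := by
    rw [le_div_iff₀ (by positivity)]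
    have := h3.1 i r ⟨h.cr, h.pr⟩
    linarith
  have hPpc : Continuous (Pp i r) :=
    continuous_iff_continuousAt.2 fun x => (h2.1 i r ⟨h.cr, h.pr⟩ x).continuousAt
  refine ⟨q1, fun x => (Lo_bound hK h.cu hub i x).trans b3, fun x => ?_, p1, p2, fun x => ?_,
    ?_, p3, q2, ?_, ?_, fun x => ?_, fun x => ?_, ?_⟩
  · -- derivative of the low pass
    rw [((h2.2 E u r h i x).2.1).deriv]
    have e1 := p1 x
    have e2 := p1 (-x)
    nlinarith [sq_nonneg (Lo i r x - Lo i r (-x))]
  · -- the piece of u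
    rw [Pa_eq hK h.cu]
    have e1 := Lo_u_near h hK i x
    have e2 := Lo_u_near h hK (i + 1) x
    have e3 : 4 * C ^ 2 * E / kap (i + 1) ≤ 4 * C ^ 2 * E / kap i :=
      div_le_div_of_nonneg_left (by positivity) hk hkk
    have e4 : (Lo (i + 1) u x - Lo i u x) ^ 2
        ≤ 2 * (u x - Lo (i + 1) u x) ^ 2 + 2 * (u x - Lo i u x) ^ 2 := by
      nlinarith [sq_nonneg ((u x - Lo (i + 1) u x) + (u x - Lo i u x))]
    have e5 : 16 * C ^ 2 * E / kap i ≤ K / kap i := div_le_div_of_nonneg_right b2 hk.le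
    have e6 : 16 * C ^ 2 * E / kap i = 4 * (4 * C ^ 2 * E / kap i) := by ring
    rw [e6] at e5
    linarith
  · exact (Lo_r_int h hK i).trans b1
  · -- the piece of u in L²
    have e0 : ∀ x, (Pa i u x) ^ 2 ≤ (1 / 2) * (Pp i r x) ^ 2 + (1 / 2) * (Pp i r (-x)) ^ 2 := fun x => by
      rw [(h2.2 E u r h i x).1]
      nlinarith [sq_nonneg (Pp i r x + Pp i r (-x))]
    have c3 := Pa_cont hK h.cu i
    have e1 := cint_mono (f := fun x => (Pa i u x) ^ 2)
      (g := fun x => (1 / 2) * (Pp i r x) ^ 2 + (1 / 2) * (Pp i r (-x)) ^ 2)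
      (by fun_prop) (by fun_prop) e0
    rw [cint_add (by fun_prop) (by fun_prop), cint_mul_left, cint_mul_left] at e1
    have e2 : (cint fun x => (Pp i r (-x)) ^ 2) = cint fun x => (Pp i r x) ^ 2 :=
      cint_flip fun x => (Pp i r x) ^ 2
    rw [e2] at e1
    linarith
  · refine (Lo_u_int h hK i).trans ?_
    exact div_le_div_of_nonneg_right b1 (by positivity)
  · exact (Pa_bound hK hu3c hu3b i x).trans b5
  · refine (Lo_bound hK hu3c hu3b i x).trans ?_
    have : 0 ≤ C * B ^ 3 := by positivity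
    linarith
  · -- the primitive of the piece of u³
    rw [le_div_iff₀ (by positivity)]
    have e1 := h3.1 i (fun y => (u y) ^ 3) ⟨hu3c, hu3p⟩
    have c3 := Pa_cont hK hu3c i
    have e2 : (cint fun x => (Pa i (fun y => (u y) ^ 3) x) ^ 2) ≤ cint fun _ => (4 * C * B ^ 3) ^ 2 := by
      refine cint_mono (by fun_prop) continuous_const fun x => ?_
      rw [← sq_abs]
      exact pow_le_pow_left₀ (abs_nonneg _) (Pa_bound hK hu3c hu3b i x) 2
    rw [cint_const] at e2
    linarith

end

end Pool.Agent.C1E
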