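import Pool.Agent.Lib.MP_c1e222_an.Iface

/-!
# MP_c1e222_an, row Spc: trigonometric polynomials, spectra of products, Parseval, Bernstein
-/

namespace Pool.Agent.C1E

open MeasureTheory Set Filter Topology intervalIntegral

noncomputable section

/-! ## the characters -/

theorem ee_add (a b : ℤ) (x : ℝ) : ee (a + b) x = ee a x * ee b x := by
  unfold ee
  rw [← Complex.exp_add]
  congr 1
  push_cast
  ring

theorem ee_zero (x : ℝ) : ee 0 x = 1 := by
  unfold ee
  simp

theorem ee_continuous (n : ℤ) : Continuous (ee n) := by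
  unfold ee
  fun_prop

theorem ee_two (n : ℤ) : ee n 2 = 1 := by
  unfold ee
  rw [Complex.exp_eq_one_iff]
  refine ⟨n, ?_⟩
  push_cast
  ring

theorem ee_add_right (n : ℤ) (x y : ℝ) : ee n (x + y) = ee n x * ee n y := by
  unfold ee
  rw [← Complex.exp_add]
  congr 1
  push_cast
  ring

theorem ee_periodic (n : ℤ) : Function.Periodic (ee n) 2 := by
  intro x
  rw [ee_add_right, ee_two, mul_one]

theorem ee_conj (n : ℤ) (x : ℝ) : (starRingEnd ℂ) (ee n x) = ee (-n) x := by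
  unfold ee
  rw [← Complex.exp_conj]
  congr 1
  simp only [map_mul, Complex.conj_I, Complex.conj_ofReal, map_intCast]
  push_cast
  ring

theorem ee_hasDerivAt (n : ℤ) (x : ℝ) :
    HasDerivAt (ee n) (((Real.pi * n : ℝ) : ℂ) * Complex.I * ee n x) x := by
  unfold ee
  have h1 : HasDerivAt (fun y : ℝ => (y : ℂ)) 1 x := Complex.ofRealCLM.hasDerivAt
  have h2 : HasDerivAt (fun y : ℝ => (Real.pi : ℂ) * n * (y : ℂ) * Complex.I)
      ((Real.pi : ℂ) * n * 1 * Complex.I) x := (h1.const_mul _).mul_const _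
  have h3 := h2.cexp
  convert h3 using 1
  push_cast
  ring

theorem ee_integral (n : ℤ) : ∫ x in (-1 : ℝ)..1, ee n x = if n = 0 then 2 else 0 := by
  split_ifs with h
  · subst h
    simp only [ee_zero]
    rw [intervalIntegral.integral_const]
    norm_num
  · have hc : ((Real.pi * n : ℝ) : ℂ) * Complex.I ≠ 0 := by
      apply mul_ne_zero _ Complex.I_ne_zero
      have : Real.pi * n ≠ 0 := mul_ne_zero Real.pi_ne_zero (by exact_mod_cast h)
      exact_mod_cast this
    have h1 : ∀ x ∈ Set.uIcc (-1 : ℝ) 1, HasDerivAt (fun y => (((Real.pi * n : ℝ) : ℂ) * Complex.I)⁻¹ * ee n y)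
        (ee n x) x := by
      intro x _
      have h2 := (ee_hasDerivAt n x).const_mul ((((Real.pi * n : ℝ) : ℂ) * Complex.I)⁻¹)
      rw [← mul_assoc, inv_mul_cancel₀ hc, one_mul] at h2
      exact h2
    rw [intervalIntegral.integral_eq_sub_of_hasDerivAt h1 ((ee_continuous n).intervalIntegrable _ _)]
    have h3 : ee n 1 = ee n (-1) := by
      have := ee_periodic n (-1)
      rw [← this]
      norm_num
    rw [h3, sub_self]

/-! ## Fourier coefficients -/

theorem fc_add {f g : ℝ → ℂ} (hf : Continuous f) (hg : Continuous g) (n : ℤ) :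
    fc (fun x => f x + g x) n = fc f n + fc g n := by
  unfold fc
  have h1 : Continuous fun x => ee (-n) x * f x := (ee_continuous _).mul hf
  have h2 : Continuous fun x => ee (-n) x * g x := (ee_continuous _).mul hg
  rw [← mul_add, ← intervalIntegral.integral_add (h1.intervalIntegrable _ _)
    (h2.intervalIntegrable _ _)]
  simp only [mul_add]

theorem fc_sub {f g : ℝ → ℂ} (hf : Continuous f) (hg : Continuous g) (n : ℤ) :
    fc (fun x => f x - g x) n = fc f n - fc g n := by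
  unfold fc
  have h1 : Continuous fun x => ee (-n) x * f x := (ee_continuous _).mul hf
  have h2 : Continuous fun x => ee (-n) x * g x := (ee_continuous _).mul hg
  rw [← mul_sub, ← intervalIntegral.integral_sub (h1.intervalIntegrable _ _)
    (h2.intervalIntegrable _ _)]
  simp only [mul_sub]

theorem fc_const_mul (a : ℂ) (f : ℝ → ℂ) (n : ℤ) :
    fc (fun x => a * f x) n = a * fc f n := by
  unfold fc
  have h : ∀ x, ee (-n) x * (a * f x) = a * (ee (-n) x * f x) := fun x => by ring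
  simp only [h]
  rw [intervalIntegral.integral_const_mul]
  ring

theorem fc_sum {ι : Type*} (s : Finset ι) {F : ι → ℝ → ℂ} (hF : ∀ i ∈ s, Continuous (F i)) (n : ℤ) :
    fc (fun x => ∑ i ∈ s, F i x) n = ∑ i ∈ s, fc (F i) n := by
  unfold fc
  rw [← Finset.mul_sum, ← intervalIntegral.integral_finsetSum]
  · simp only [Finset.mul_sum]
  · intro i hi
    exact ((ee_continuous _).mul (hF i hi)).intervalIntegrable _ _

theorem fc_ee_mul (a : ℤ) (f : ℝ → ℂ) (n : ℤ) :
    fc (fun x => ee a x * f x) n = fc f (n - a) := by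
  unfold fc
  congr 1
  apply intervalIntegral.integral_congr
  intro x _
  show ee (-n) x * (ee a x * f x) = ee (-(n - a)) x * f x
  rw [← mul_assoc, ← ee_add]
  congr 2
  ring

theorem fc_ee (a n : ℤ) : fc (ee a) n = if n = a then 1 else 0 := by
  have h := fc_ee_mul a (fun _ => 1) n
  simp only [mul_one] at h
  rw [show (fun x => ee a x) = ee a from rfl] at h
  rw [h]
  unfold fc
  simp only [mul_one]
  rw [ee_integral]
  by_cases hn : n = a
  · subst hn
    simp
  · have h1 : -(n - a) ≠ 0 := by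
      intro h2
      apply hn
      linarith
    rw [if_neg h1, if_neg hn, mul_zero]

/-! ## trigonometric polynomials -/

theorem TP.congr {f g : ℝ → ℂ} {S : Set ℤ} (h : TP f S) (hfg : ∀ x, g x = f x) : TP g S := by
  obtain ⟨c, hc, hf⟩ := h
  exact ⟨c, hc, fun x => by rw [hfg, hf]⟩

theorem TP.mono {f : ℝ → ℂ} {S T : Set ℤ} (h : TP f S) (hST : S ⊆ T) : TP f T := by
  obtain ⟨c, hc, hf⟩ := h
  exact ⟨c, fun n hn => hST (hc n hn), hf⟩

theorem TP.zero (S : Set ℤ) : TP (fun _ => 0) S :=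
  ⟨0, by simp, by simp⟩

theorem TP.mono_ee {S : Set ℤ} {n : ℤ} (hn : n ∈ S) (a : ℂ) : TP (fun x => a * ee n x) S := by
  refine ⟨Finsupp.single n a, ?_, ?_⟩
  · intro m hm
    have := Finsupp.support_single_subset hm
    rw [Finset.mem_singleton] at this
    rw [this]
    exact hn
  · intro x
    rw [Finsupp.sum_single_index]
    simp

theorem TP.add {f g : ℝ → ℂ} {S : Set ℤ} (hf : TP f S) (hg : TP g S) :
    TP (fun x => f x + g x) S := by
  obtain ⟨c, hc, hf⟩ := hf
  obtain ⟨d, hd, hg⟩ := hg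
  refine ⟨c + d, ?_, ?_⟩
  · intro n hn
    rcases Finset.mem_union.1 (Finsupp.support_add hn) with h | h
    · exact hc n h
    · exact hd n h
  · intro x
    show f x + g x = _
    rw [hf, hg, Finsupp.sum_add_index']
    · simp
    · intro a b1 b2
      ring

theorem TP.const_mul {f : ℝ → ℂ} {S : Set ℤ} (a : ℂ) (hf : TP f S) : TP (fun x => a * f x) S := by
  obtain ⟨c, hc, hf⟩ := hf
  refine ⟨a • c, ?_, ?_⟩
  · intro n hn
    exact hc n (Finsupp.support_smul hn)
  · intro x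
    show a * f x = _
    rw [hf, Finsupp.sum_smul_index' (by simp), Finsupp.mul_sum]
    congr 1
    funext n b
    rw [smul_eq_mul]
    ring

theorem TP.sub {f g : ℝ → ℂ} {S : Set ℤ} (hf : TP f S) (hg : TP g S) :
    TP (fun x => f x - g x) S :=
  (hf.add (hg.const_mul (-1))).congr fun x => by ring

theorem TP.sum {ι : Type*} (s : Finset ι) {F : ι → ℝ → ℂ} {S : Set ℤ}
    (hF : ∀ i ∈ s, TP (F i) S) : TP (fun x => ∑ i ∈ s, F i x) S := by
  classical
  induction s using Finset.induction_on with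
  | empty => exact (TP.zero S).congr fun x => by simp
  | insert a s ha ih =>
    refine ((hF a (Finset.mem_insert_self _ _)).add
      (ih fun i hi => hF i (Finset.mem_insert_of_mem hi))).congr fun x => ?_
    rw [Finset.sum_insert ha]

theorem TP.mul {f g : ℝ → ℂ} {S T : Set ℤ} (hf : TP f S) (hg : TP g T) :
    TP (fun x => f x * g x) {n | ∃ a ∈ S, ∃ b ∈ T, n = a + b} := by
  obtain ⟨c, hc, hf⟩ := hf
  obtain ⟨d, hd, hg⟩ := hg
  have h : TP (fun x => ∑ a ∈ c.support, ∑ b ∈ d.support, (c a * d b) * ee (a + b) x)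
      {n | ∃ a ∈ S, ∃ b ∈ T, n = a + b} := by
    apply TP.sum
    intro a ha
    apply TP.sum
    intro b hb
    have hab : a + b ∈ {n | ∃ a ∈ S, ∃ b ∈ T, n = a + b} := ⟨a, hc a ha, b, hd b hb, rfl⟩
    exact TP.mono_ee hab _
  refine h.congr fun x => ?_
  rw [hf, hg, Finsupp.sum, Finsupp.sum, Finset.sum_mul_sum]
  refine Finset.sum_congr rfl fun a _ => Finset.sum_congr rfl fun b _ => ?_
  rw [ee_add]
  ring

theorem TP.eq_sum {f : ℝ → ℂ} {S : Set ℤ} (hf : TP f S) :
    ∃ (s : Finset ℤ) (c : ℤ → ℂ), (∀ n ∈ s, n ∈ S) ∧ ∀ x, f x = ∑ n ∈ s, c n * ee n x := by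
  obtain ⟨c, hc, hf⟩ := hf
  exact ⟨c.support, c, hc, hf⟩

theorem TP.continuous {f : ℝ → ℂ} {S : Set ℤ} (hf : TP f S) : Continuous f := by
  obtain ⟨s, c, _, h⟩ := hf.eq_sum
  rw [show f = fun x => ∑ n ∈ s, c n * ee n x from funext h]
  exact continuous_finsetSum _ fun n _ => continuous_const.mul (ee_continuous n)

theorem TP.periodic {f : ℝ → ℂ} {S : Set ℤ} (hf : TP f S) : Function.Periodic f 2 := by
  obtain ⟨s, c, _, h⟩ := hf.eq_sum
  intro x
  rw [h, h]
  refine Finset.sum_congr rfl fun n _ => ?_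
  rw [ee_periodic n x]

theorem fc_poly (s : Finset ℤ) (c : ℤ → ℂ) (n : ℤ) :
    fc (fun x => ∑ m ∈ s, c m * ee m x) n = if n ∈ s then c n else 0 := by
  rw [fc_sum s (F := fun m x => c m * ee m x) fun m _ => continuous_const.mul (ee_continuous m)]
  simp only [fc_const_mul]
  have h : ∀ m, fc (fun x => ee m x) n = if n = m then 1 else 0 := fun m => fc_ee m n
  simp only [h, mul_ite, mul_one, mul_zero]
  rw [Finset.sum_ite_eq]

theorem TP.si {f : ℝ → ℂ} {S : Set ℤ} (hf : TP f S) : SI f S := by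
  refine ⟨hf.continuous, hf.periodic, ?_⟩
  intro n hn
  obtain ⟨s, c, hs, h⟩ := hf.eq_sum
  rw [show f = fun x => ∑ n ∈ s, c n * ee n x from funext h, fc_poly, if_neg]
  exact fun h1 => hn (hs n h1)

theorem SI.mono {f : ℝ → ℂ} {S T : Set ℤ} (h : SI f S) (hST : S ⊆ T) : SI f T :=
  ⟨h.1, h.2.1, fun n hn => h.2.2 n fun h1 => hn (hST h1)⟩

theorem SI.mul {f g : ℝ → ℂ} {S T : Set ℤ} (hf : TP f S) (hg : SI g T) :
    SI (fun x => f x * g x) {n | ∃ a ∈ S, ∃ b ∈ T, n = a + b} := by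
  refine ⟨hf.continuous.mul hg.1, ?_, ?_⟩
  · intro x
    show f (x + 2) * g (x + 2) = f x * g x
    rw [hf.periodic x, hg.2.1 x]
  · intro n hn
    obtain ⟨s, c, hs, h⟩ := hf.eq_sum
    have h1 : (fun x => f x * g x) = fun x => ∑ a ∈ s, c a * (ee a x * g x) := by
      funext x
      rw [h, Finset.sum_mul]
      exact Finset.sum_congr rfl fun a _ => by ring
    rw [h1, fc_sum s (F := fun a x => c a * (ee a x * g x))
      fun a _ => continuous_const.mul ((ee_continuous a).mul hg.1)]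
    apply Finset.sum_eq_zero
    intro a ha
    rw [fc_const_mul, fc_ee_mul, hg.2.2, mul_zero]
    intro h2
    exact hn ⟨a, hs a ha, n - a, h2, by ring⟩

theorem SI.add {f g : ℝ → ℂ} {S : Set ℤ} (hf : SI f S) (hg : SI g S) :
    SI (fun x => f x + g x) S := by
  refine ⟨hf.1.add hg.1, ?_, ?_⟩
  · intro x
    show f (x + 2) + g (x + 2) = f x + g x
    rw [hf.2.1 x, hg.2.1 x]
  · intro n hn
    rw [fc_add hf.1 hg.1, hf.2.2 n hn, hg.2.2 n hn, add_zero]

theorem SI.sub {f g : ℝ → ℂ} {S : Set ℤ} (hf : SI f S) (hg : SI g S) :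
    SI (fun x => f x - g x) S := by
  refine ⟨hf.1.sub hg.1, ?_, ?_⟩
  · intro x
    show f (x + 2) - g (x + 2) = f x - g x
    rw [hf.2.1 x, hg.2.1 x]
  · intro n hn
    rw [fc_sub hf.1 hg.1, hf.2.2 n hn, hg.2.2 n hn, sub_zero]

theorem SI.integral {f : ℝ → ℂ} {S : Set ℤ} (hf : SI f S) (h0 : (0 : ℤ) ∉ S) :
    ∫ x in (-1 : ℝ)..1, f x = 0 := by
  have h := hf.2.2 0 h0
  unfold fc at h
  simp only [neg_zero, ee_zero, one_mul] at h
  rcases mul_eq_zero.1 h with h1 | h1
  · norm_num at h1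
  · exact h1

/-! ## Parseval -/

theorem parseval (s : Finset ℤ) (c : ℤ → ℂ) :
    ∫ x in (-1 : ℝ)..1, ‖∑ n ∈ s, c n * ee n x‖ ^ 2 = 2 * ∑ n ∈ s, ‖c n‖ ^ 2 := by
  set f : ℝ → ℂ := fun x => ∑ n ∈ s, c n * ee n x with hf
  have hfc : Continuous f := continuous_finsetSum _ fun n _ => continuous_const.mul (ee_continuous n)
  have key : ((∫ x in (-1 : ℝ)..1, ‖f x‖ ^ 2 : ℝ) : ℂ) = ((2 * ∑ n ∈ s, ‖c n‖ ^ 2 : ℝ) : ℂ) := by
    rw [← intervalIntegral.integral_ofReal]
    have h1 : ∀ x, ((‖f x‖ ^ 2 : ℝ) : ℂ) = ∑ n ∈ s, (starRingEnd ℂ) (c n) * (ee (-n) x * f x) := by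
      intro x
      have h2 : ((‖f x‖ ^ 2 : ℝ) : ℂ) = (starRingEnd ℂ) (f x) * f x := by
        rw [Complex.conj_mul']
        push_cast
        rfl
      rw [h2]
      conv_lhs => rw [hf]
      simp only
      rw [map_sum, Finset.sum_mul]
      refine Finset.sum_congr rfl fun n _ => ?_
      rw [map_mul, ee_conj]
      ring
    simp only [h1]
    rw [intervalIntegral.integral_finsetSum]
    · have h3 : ∀ n ∈ s, (∫ x in (-1 : ℝ)..1, (starRingEnd ℂ) (c n) * (ee (-n) x * f x)) =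
          2 * ((‖c n‖ ^ 2 : ℝ) : ℂ) := by
        intro n hn
        rw [intervalIntegral.integral_const_mul]
        have h4 := fc_poly s c n
        rw [if_pos hn] at h4
        unfold fc at h4
        have h5 : (∫ x in (-1 : ℝ)..1, ee (-n) x * f x) = 2 * c n := by
          rw [← h4, ← mul_assoc]
          norm_num
          rfl
        rw [h5]
        have h6 : ((‖c n‖ ^ 2 : ℝ) : ℂ) = (starRingEnd ℂ) (c n) * c n := by
          rw [Complex.conj_mul']
          push_cast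
          rfl
        rw [h6]
        ring
      rw [Finset.sum_congr rfl h3, ← Finset.mul_sum]
      push_cast
      rfl
    · intro n _
      exact (continuous_const.mul ((ee_continuous _).mul hfc)).intervalIntegrable _ _
  exact_mod_cast key

theorem deriv_poly (s : Finset ℤ) (c : ℤ → ℂ) (x : ℝ) :
    deriv (fun x => ∑ n ∈ s, c n * ee n x) x =
      ∑ n ∈ s, (c n * (((Real.pi * n : ℝ) : ℂ) * Complex.I)) * ee n x := by
  have h : HasDerivAt (fun x => ∑ n ∈ s, c n * ee n x)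
      (∑ n ∈ s, c n * (((Real.pi * n : ℝ) : ℂ) * Complex.I * ee n x)) x :=
    HasDerivAt.fun_sum fun n _ => (ee_hasDerivAt n x).const_mul (c n)
  rw [h.deriv]
  exact Finset.sum_congr rfl fun n _ => by ring

theorem norm_coef (a : ℂ) (n : ℤ) :
    ‖a * (((Real.pi * n : ℝ) : ℂ) * Complex.I)‖ ^ 2 = (Real.pi * n) ^ 2 * ‖a‖ ^ 2 := by
  rw [norm_mul, norm_mul, Complex.norm_I, mul_one, Complex.norm_real, Real.norm_eq_abs, mul_pow,
    sq_abs]
  ring

theorem bern_up (s : Finset ℤ) (c : ℤ → ℂ) (N : ℝ) (h : ∀ n ∈ s, |(n : ℝ)| ≤ N) :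
    ∫ x in (-1 : ℝ)..1, ‖deriv (fun x => ∑ n ∈ s, c n * ee n x) x‖ ^ 2 ≤
      (Real.pi * N) ^ 2 * ∫ x in (-1 : ℝ)..1, ‖∑ n ∈ s, c n * ee n x‖ ^ 2 := by
  simp only [deriv_poly]
  rw [parseval, parseval]
  simp only [norm_coef]
  rw [mul_left_comm, Finset.mul_sum (a := (Real.pi * N) ^ 2)]
  apply mul_le_mul_of_nonneg_left _ (by norm_num)
  apply Finset.sum_le_sum
  intro n hn
  apply mul_le_mul_of_nonneg_right _ (sq_nonneg _)
  have h1 := h n hn
  rw [mul_pow, mul_pow]
  apply mul_le_mul_of_nonneg_left _ (sq_nonneg _)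
  rw [← sq_abs]
  exact pow_le_pow_left₀ (abs_nonneg _) h1 2

theorem bern_down (s : Finset ℤ) (c : ℤ → ℂ) (N : ℝ) (hN : 0 ≤ N) (h : ∀ n ∈ s, N ≤ |(n : ℝ)|) :
    (Real.pi * N) ^ 2 * ∫ x in (-1 : ℝ)..1, ‖∑ n ∈ s, c n * ee n x‖ ^ 2 ≤
      ∫ x in (-1 : ℝ)..1, ‖deriv (fun x => ∑ n ∈ s, c n * ee n x) x‖ ^ 2 := by
  simp only [deriv_poly]
  rw [parseval, parseval]
  simp only [norm_coef]
  rw [mul_left_comm, Finset.mul_sum (a := (Real.pi * N) ^ 2)]
  apply mul_le_mul_of_nonneg_left _ (by norm_num)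
  apply Finset.sum_le_sum
  intro n hn
  apply mul_le_mul_of_nonneg_right _ (sq_nonneg _)
  have h1 := h n hn
  rw [mul_pow, mul_pow]
  apply mul_le_mul_of_nonneg_left _ (sq_nonneg _)
  rw [← sq_abs (n : ℝ)]
  exact pow_le_pow_left₀ hN h1 2

/-! ## the row -/

theorem spc_proof : SpcStatement := by
  refine ⟨fun f S h => h.si, fun f g S T hf hg => hf.mul hg, fun f g S T hf hg => SI.mul hf hg,
    fun f g S hf hg => ⟨hf.sub hg, hf.add hg⟩, fun f g S hf hg => ⟨hf.sub hg, hf.add hg⟩,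
    fun f S hf h0 => hf.integral h0, ?_, ?_⟩
  · intro f S N hf hN
    obtain ⟨s, c, hs, h⟩ := hf.eq_sum
    rw [show f = fun x => ∑ n ∈ s, c n * ee n x from funext h]
    exact bern_up s c N fun n hn => hN n (hs n hn)
  · intro f S N hf hN0 hN
    obtain ⟨s, c, hs, h⟩ := hf.eq_sum
    rw [show f = fun x => ∑ n ∈ s, c n * ee n x from funext h]
    exact bern_down s c N hN0 fun n hn => hN n (hs n hn)

end

end Pool.Agent.C1E
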