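import Pool.Agent.Lib.MP_c1e222_an.Idn

/-!
# MP_c1e222_an, row TR (section 6): transfer at fixed time (helper16)
-/

namespace Pool.Agent.C1E

open MeasureTheory Set Filter Topology

noncomputable section

namespace TRRow

/-- `u(x)² ≤ 2 u(y)² + 2 S δ(x-y)` -/
theorem u_sq {u : ℝ → ℝ} {S : ℝ} (hu : ∀ x y, (u x - u y) ^ 2 ≤ S * dl (x - y)) (x y : ℝ) :
    (u x) ^ 2 ≤ 2 * (u y) ^ 2 + 2 * (S * dl (x - y)) := by
  have h := hu x y
  nlinarith [sq_nonneg (u x - 2 * u y)]

theorem one_le_sq (l : ℕ) (z : ℝ) : 1 ≤ (1 + kap l * dl z) ^ 2 := one_le_pow₀ (one_le_den l z)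

/-- the weight at `x+z` against the weight at `x` -/
theorem th_shift (l : ℕ) (w z : ℝ) : th l (w + z) ≤ (1 + kap l * dl z) ^ 2 * th l w := by
  have h := th_double l w (w + z)
  have e : w - (w + z) = -z := by ring
  rwa [e, dl_neg] at h

theorem th_shift' (l : ℕ) (w z : ℝ) : th l w ≤ (1 + kap l * dl z) ^ 2 * th l (w + z) := by
  have h := th_double l (w + z) w
  have e : w + z - w = z := by ring
  rwa [e] at h

/-- first pointwise inequality -/
theorem pt1 {u : ℝ → ℝ} {S : ℝ} (hS : 0 ≤ S) (hu : ∀ x y, (u x - u y) ^ 2 ≤ S * dl (x - y)) (l : ℕ)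
    (x y z : ℝ) :
    (u (x + z)) ^ 2 * th l (x + z - y) ≤
      (1 + kap l * dl z) ^ 2 * (2 * ((u y) ^ 2 * th l (x - y)) + 2 * S) := by
  have h1 := u_sq hu (x + z) y
  have h2 := th_nonneg l (x + z - y)
  have h3 := mul_le_mul_of_nonneg_right h1 h2
  have h4 := th_mul_dl_le l (x + z - y)
  have h5 := th_shift l (x - y) z
  rw [show x - y + z = x + z - y by ring] at h5
  have h6 := one_le_sq l z
  have h7 : 2 * (u y) ^ 2 * th l (x + z - y) ≤ 2 * (u y) ^ 2 * ((1 + kap l * dl z) ^ 2 * th l (x - y)) :=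
    mul_le_mul_of_nonneg_left h5 (by positivity)
  have h8 : 2 * (S * dl (x + z - y)) * th l (x + z - y) ≤ 2 * S := by
    have := mul_le_mul_of_nonneg_left h4 hS
    nlinarith
  have h9 : 2 * S ≤ (1 + kap l * dl z) ^ 2 * (2 * S) := by nlinarith
  nlinarith

/-- second pointwise inequality -/
theorem pt2 {u : ℝ → ℝ} {S : ℝ} (hS : 0 ≤ S) (hu : ∀ x y, (u x - u y) ^ 2 ≤ S * dl (x - y)) (l : ℕ)
    (x y z : ℝ) :
    (u (x + z)) ^ 2 * th l (x - y) ≤
      (1 + kap l * dl z) ^ 2 * (2 * ((u y) ^ 2 * th l (x + z - y)) + 2 * S) := by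
  have h1 := u_sq hu (x + z) y
  have h2 := th_nonneg l (x + z - y)
  have h3 := mul_le_mul_of_nonneg_right h1 h2
  have h4 := th_mul_dl_le l (x + z - y)
  have h5 := th_shift' l (x - y) z
  rw [show x - y + z = x + z - y by ring] at h5
  have h6 := one_le_sq l z
  have h8 : 2 * (S * dl (x + z - y)) * th l (x + z - y) ≤ 2 * S := by
    have := mul_le_mul_of_nonneg_left h4 hS
    nlinarith
  have h9 : (u (x + z)) ^ 2 * th l (x - y) ≤
      (u (x + z)) ^ 2 * ((1 + kap l * dl z) ^ 2 * th l (x + z - y)) :=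
    mul_le_mul_of_nonneg_left h5 (sq_nonneg _)
  have h10 : (u (x + z)) ^ 2 * th l (x + z - y) ≤ 2 * ((u y) ^ 2 * th l (x + z - y)) + 2 * S := by
    linarith
  have h11 := mul_le_mul_of_nonneg_left h10 (le_trans zero_le_one h6)
  nlinarith

/-- the double integral -/
theorem xx_swap (l : ℕ) {u a b : ℝ → ℝ} (hu : Continuous u) (ha : Continuous a) (hb : Continuous b) :
    (cint fun x => cint fun y => th l (x - y) * (u x) ^ 2 * (a x) ^ 2 * (b y) ^ 2) =
      cint fun x => cint fun y => (b x) ^ 2 * ((u y) ^ 2 * th l (x - y) * (a y) ^ 2) := by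
  have hth := continuous_th l
  rw [cint_swap (F := fun x y => th l (x - y) * (u x) ^ 2 * (a x) ^ 2 * (b y) ^ 2) (by
    unfold Function.uncurry
    fun_prop)]
  refine cint_congr fun x => cint_congr fun y => ?_
  rw [th_sub_comm l y x]
  ring

/-- TR1 and TR2 in general form -/
theorem gen1 {u a b g : ℝ → ℝ} {S K : ℝ} (hS : 0 ≤ S) (hK : 0 ≤ K) (huc : Continuous u)
    (hac : Continuous a) (hbc : Continuous b) (hgc : Continuous g)
    (hu : ∀ x y, (u x - u y) ^ 2 ≤ S * dl (x - y)) (l : ℕ)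
    (hg : ∀ x, (g x) ^ 2 ≤ K * cint (fun y => th l (x - y) * (a y) ^ 2)) (z : ℝ) :
    cint (fun x => (u (x + z)) ^ 2 * (g (x + z)) ^ 2 * (b x) ^ 2) ≤
      K * (1 + kap l * dl z) ^ 2 *
        (2 * (cint fun x => cint fun y => th l (x - y) * (u x) ^ 2 * (a x) ^ 2 * (b y) ^ 2) +
          2 * S * (cint fun x => (a x) ^ 2) * cint fun x => (b x) ^ 2) := by
  have hth := continuous_th l
  set D := (1 + kap l * dl z) ^ 2 with hD
  have hpt : ∀ x, (u (x + z)) ^ 2 * (g (x + z)) ^ 2 * (b x) ^ 2 ≤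
      K * D * (2 * (cint fun y => (b x) ^ 2 * ((u y) ^ 2 * th l (x - y) * (a y) ^ 2)) +
        2 * S * (cint fun y => (a y) ^ 2) * (b x) ^ 2) := by
    intro x
    have h1 : (u (x + z)) ^ 2 * cint (fun y => th l (x + z - y) * (a y) ^ 2) ≤
        D * (2 * (cint fun y => (u y) ^ 2 * th l (x - y) * (a y) ^ 2) + 2 * S * cint fun y => (a y) ^ 2) := by
      have e1 : (u (x + z)) ^ 2 * cint (fun y => th l (x + z - y) * (a y) ^ 2) =
          cint (fun y => (u (x + z)) ^ 2 * (th l (x + z - y) * (a y) ^ 2)) := (cint_mul_left _ _).symm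
      have e2 : D * (2 * (cint fun y => (u y) ^ 2 * th l (x - y) * (a y) ^ 2) +
          2 * S * cint fun y => (a y) ^ 2) =
          cint (fun y => D * (2 * ((u y) ^ 2 * th l (x - y) * (a y) ^ 2) + 2 * S * (a y) ^ 2)) := by
        rw [cint_mul_left, cint_add (by fun_prop) (by fun_prop), cint_mul_left, cint_mul_left]
      rw [e1, e2]
      refine cint_mono (by fun_prop) (by fun_prop) fun y => ?_
      have h2 := pt1 hS hu l x y z
      rw [← hD] at h2
      have h3 := mul_le_mul_of_nonneg_right h2 (sq_nonneg (a y))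
      nlinarith
    have h4 : (u (x + z)) ^ 2 * (g (x + z)) ^ 2 ≤
        (u (x + z)) ^ 2 * (K * cint (fun y => th l (x + z - y) * (a y) ^ 2)) :=
      mul_le_mul_of_nonneg_left (hg (x + z)) (sq_nonneg _)
    have h5 : (u (x + z)) ^ 2 * (g (x + z)) ^ 2 ≤
        K * (D * (2 * (cint fun y => (u y) ^ 2 * th l (x - y) * (a y) ^ 2) + 2 * S * cint fun y => (a y) ^ 2)) := by
      refine h4.trans ?_
      have := mul_le_mul_of_nonneg_left h1 hK
      nlinarith
    have h6 := mul_le_mul_of_nonneg_right h5 (sq_nonneg (b x))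
    refine h6.trans (le_of_eq ?_)
    rw [cint_mul_left]
    ring
  have hc1 : Continuous fun x => cint fun y => (b x) ^ 2 * ((u y) ^ 2 * th l (x - y) * (a y) ^ 2) :=
    continuous_cint (F := fun x y => (b x) ^ 2 * ((u y) ^ 2 * th l (x - y) * (a y) ^ 2)) (by
      unfold Function.uncurry
      fun_prop)
  have hI := cint_mono (by fun_prop) (by fun_prop) hpt
  refine hI.trans (le_of_eq ?_)
  rw [cint_mul_left, cint_add (by fun_prop) (by fun_prop), cint_mul_left, cint_mul_left,
    xx_swap l huc hac hbc]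

/-- TR3 in general form -/
theorem gen2 {u a b p : ℝ → ℝ} {S K Lc : ℝ} (hS : 0 ≤ S) (hK : 0 ≤ K) (huc : Continuous u)
    (hac : Continuous a) (hbc : Continuous b) (hpc : Continuous p) (hpp : Function.Periodic p 2)
    (hu : ∀ x y, (u x - u y) ^ 2 ≤ S * dl (x - y)) (l : ℕ)
    (ha : ∀ x, (a x) ^ 2 ≤ K * cint (fun y => th l (x - y) * (a y) ^ 2))
    (hp : ∀ x, cint (fun y => th l (x - y) * (p y) ^ 2) ≤ Lc * cint (fun y => th l (x - y) * (b y) ^ 2))
    (z : ℝ) :
    cint (fun x => (u (x + z)) ^ 2 * (p (x + z)) ^ 2 * (a x) ^ 2) ≤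
      K * (1 + kap l * dl z) ^ 2 *
        (2 * (Lc * (cint fun x => cint fun y => th l (x - y) * (u x) ^ 2 * (a x) ^ 2 * (b y) ^ 2)) +
          2 * S * (cint fun x => (a x) ^ 2) * cint fun x => (p x) ^ 2) := by
  have hth := continuous_th l
  set D := (1 + kap l * dl z) ^ 2 with hD
  have hD0 : 0 ≤ D := sq_nonneg _
  have hpt : ∀ x, (u (x + z)) ^ 2 * (p (x + z)) ^ 2 * (a x) ^ 2 ≤
      K * D * (2 * (cint fun y => (p (x + z)) ^ 2 * ((u y) ^ 2 * th l (x + z - y) * (a y) ^ 2)) +
        2 * S * (cint fun y => (a y) ^ 2) * (p (x + z)) ^ 2) := by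
    intro x
    have h1 : (u (x + z)) ^ 2 * cint (fun y => th l (x - y) * (a y) ^ 2) ≤
        D * (2 * (cint fun y => (u y) ^ 2 * th l (x + z - y) * (a y) ^ 2) + 2 * S * cint fun y => (a y) ^ 2) := by
      have e1 : (u (x + z)) ^ 2 * cint (fun y => th l (x - y) * (a y) ^ 2) =
          cint (fun y => (u (x + z)) ^ 2 * (th l (x - y) * (a y) ^ 2)) := (cint_mul_left _ _).symm
      have e2 : D * (2 * (cint fun y => (u y) ^ 2 * th l (x + z - y) * (a y) ^ 2) +
          2 * S * cint fun y => (a y) ^ 2) =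
          cint (fun y => D * (2 * ((u y) ^ 2 * th l (x + z - y) * (a y) ^ 2) + 2 * S * (a y) ^ 2)) := by
        rw [cint_mul_left, cint_add (by fun_prop) (by fun_prop), cint_mul_left, cint_mul_left]
      rw [e1, e2]
      refine cint_mono (by fun_prop) (by fun_prop) fun y => ?_
      have h2 := pt2 hS hu l x y z
      rw [← hD] at h2
      have h3 := mul_le_mul_of_nonneg_right h2 (sq_nonneg (a y))
      nlinarith
    have h4 : (u (x + z)) ^ 2 * (a x) ^ 2 ≤
        (u (x + z)) ^ 2 * (K * cint (fun y => th l (x - y) * (a y) ^ 2)) :=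
      mul_le_mul_of_nonneg_left (ha x) (sq_nonneg _)
    have h5 : (u (x + z)) ^ 2 * (a x) ^ 2 ≤
        K * (D * (2 * (cint fun y => (u y) ^ 2 * th l (x + z - y) * (a y) ^ 2) +
          2 * S * cint fun y => (a y) ^ 2)) := by
      refine h4.trans ?_
      have := mul_le_mul_of_nonneg_left h1 hK
      nlinarith
    have h6 := mul_le_mul_of_nonneg_right h5 (sq_nonneg (p (x + z)))
    have e3 : (u (x + z)) ^ 2 * (p (x + z)) ^ 2 * (a x) ^ 2 =
        (u (x + z)) ^ 2 * (a x) ^ 2 * (p (x + z)) ^ 2 := by ring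
    rw [e3]
    refine h6.trans (le_of_eq ?_)
    rw [cint_mul_left]
    ring
  have hc1 : Continuous fun x => cint fun y => (p (x + z)) ^ 2 * ((u y) ^ 2 * th l (x + z - y) * (a y) ^ 2) :=
    continuous_cint (F := fun x y => (p (x + z)) ^ 2 * ((u y) ^ 2 * th l (x + z - y) * (a y) ^ 2)) (by
      unfold Function.uncurry
      fun_prop)
  have hI := cint_mono (by fun_prop) (by fun_prop) hpt
  refine hI.trans ?_
  rw [cint_mul_left, cint_add (by fun_prop) (by fun_prop), cint_mul_left, cint_mul_left]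
  refine mul_le_mul_of_nonneg_left ?_ (mul_nonneg hK hD0)
  have hs1 : (cint fun x => (p (x + z)) ^ 2) = cint fun x => (p x) ^ 2 :=
    cint_shift (f := fun x => (p x) ^ 2) (fun x => by simp only [hpp x]) z
  have hs2 : (cint fun x => cint fun y => (p (x + z)) ^ 2 * ((u y) ^ 2 * th l (x + z - y) * (a y) ^ 2)) ≤
      Lc * (cint fun x => cint fun y => th l (x - y) * (u x) ^ 2 * (a x) ^ 2 * (b y) ^ 2) := by
    rw [cint_swap (F := fun x y => (p (x + z)) ^ 2 * ((u y) ^ 2 * th l (x + z - y) * (a y) ^ 2)) (by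
      unfold Function.uncurry
      fun_prop), ← cint_mul_left]
    have hc2 : Continuous fun y => cint fun x =>
        (p (x + z)) ^ 2 * ((u y) ^ 2 * th l (x + z - y) * (a y) ^ 2) :=
      continuous_cint (F := fun y x => (p (x + z)) ^ 2 * ((u y) ^ 2 * th l (x + z - y) * (a y) ^ 2)) (by
        unfold Function.uncurry
        fun_prop)
    have hc3 : Continuous fun x => Lc * cint fun y => th l (x - y) * (u x) ^ 2 * (a x) ^ 2 * (b y) ^ 2 := by
      have : Continuous fun x => cint fun y => th l (x - y) * (u x) ^ 2 * (a x) ^ 2 * (b y) ^ 2 :=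
        continuous_cint (F := fun x y => th l (x - y) * (u x) ^ 2 * (a x) ^ 2 * (b y) ^ 2) (by
          unfold Function.uncurry
          fun_prop)
      exact continuous_const.mul this
    refine cint_mono hc2 hc3 fun y => ?_
    have e1 : (cint fun x => (p (x + z)) ^ 2 * ((u y) ^ 2 * th l (x + z - y) * (a y) ^ 2)) =
        ((u y) ^ 2 * (a y) ^ 2) * cint fun x => th l (y - x) * (p x) ^ 2 := by
      have e2 : (cint fun x => th l (y - (x + z)) * (p (x + z)) ^ 2) = cint fun x => th l (y - x) * (p x) ^ 2 :=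
        cint_shift (f := fun x => th l (y - x) * (p x) ^ 2) (fun x => by
          have h1 := th_periodic l (y - (x + 2))
          rw [show y - (x + 2) + 2 = y - x by ring] at h1
          simp only [hpp x, ← h1]) z
      rw [← e2, ← cint_mul_left]
      refine cint_congr fun x => ?_
      rw [th_sub_comm l y (x + z)]
      ring
    have e3 : (cint fun x => th l (y - x) * (u y) ^ 2 * (a y) ^ 2 * (b x) ^ 2) =
        ((u y) ^ 2 * (a y) ^ 2) * cint fun x => th l (y - x) * (b x) ^ 2 := by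
      rw [← cint_mul_left]
      exact cint_congr fun x => by ring
    rw [e1, e3]
    have h1 := mul_le_mul_of_nonneg_left (hp y) (by positivity : 0 ≤ (u y) ^ 2 * (a y) ^ 2)
    nlinarith
  rw [hs1]
  nlinarith

end TRRow

open TRRow in
/-- row TR -/
theorem tr_proof (hKer : KerStatement) (hDom : DomStatement) (hLB : LBStatement)
    (hSize : SizeStatement) : TRStatement := by
  intro M hM E
  obtain ⟨C1, hC1, hdom⟩ := hDom
  obtain ⟨CL, hCL, hlb⟩ := hLB M hM
  obtain ⟨S, hS1, hsize⟩ := hSize E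
  have hS0 : 0 ≤ S := by linarith
  refine ⟨2 * C1 * (1 + CL) * S ^ 3, by positivity, ?_⟩
  intro u r hP l j hl hsep z
  obtain ⟨-, hu, hsz⟩ := hsize u r hP
  have hr : CP r := ⟨hP.cr, hP.pr⟩
  have hAc : ∀ i, Continuous (Pa i r) := fun i => continuous_conv (IDN.A_cont hKer i) hP.cr
  have hPc : ∀ i, Continuous (Pp i r) := fun i => continuous_conv (IDN.PA_cont hKer i) hP.cr
  have hPp : ∀ i, Function.Periodic (Pp i r) 2 := fun i => conv_periodic (IDN.PA_per hKer i) r
  have hI : ∀ i, cint (fun x => (Pa i r x) ^ 2) ≤ S := fun i => (hsz i).2.2.2.2.2.2.2.1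
  have hJ : ∀ i, cint (fun x => (Pp i r x) ^ 2) ≤ S / (kap i) ^ 2 := fun i => (hsz i).2.2.2.2.2.2.2.2.1
  have hI0 : ∀ i, 0 ≤ cint (fun x => (Pa i r x) ^ 2) := fun i => cint_nonneg fun x => sq_nonneg _
  have hD1 := one_le_sq l z
  set D := (1 + kap l * dl z) ^ 2 with hD
  have hxx0 : 0 ≤ xx l j u r := by
    unfold xx
    exact cint_nonneg fun x => cint_nonneg fun y => by
      have := th_nonneg l (x - y)
      positivity
  have hS3 : 1 ≤ S ^ 3 := one_le_pow₀ hS1
  have hII : (cint fun x => (Pa l r x) ^ 2) * (cint fun x => (Pa j r x) ^ 2) ≤ S * S :=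
    mul_le_mul (hI l) (hI j) (hI0 j) hS0
  have hbig : 2 * xx l j u r + 2 * S * (cint fun x => (Pa l r x) ^ 2) * (cint fun x => (Pa j r x) ^ 2) ≤
      2 * S ^ 3 * (xx l j u r + 1) := by
    have h1 := mul_le_mul_of_nonneg_left hII hS0
    have h2 : xx l j u r ≤ S ^ 3 * xx l j u r := by nlinarith
    nlinarith
  have hkl : 0 < kap l := kap_pos l
  have hkj : 0 < kap j := kap_pos j
  refine ⟨?_, ?_, ?_⟩
  · have h := gen1 hS0 hC1.le hP.cu (hAc l) (hAc j) (hAc l) hu l (fun x => (hdom l r hr x).1) z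
    rw [← hD] at h
    refine h.trans ?_
    have h1 : C1 * D * (2 * xx l j u r + 2 * S * (cint fun x => (Pa l r x) ^ 2) * (cint fun x => (Pa j r x) ^ 2)) ≤
        C1 * D * (2 * S ^ 3 * (xx l j u r + 1)) := mul_le_mul_of_nonneg_left hbig (by positivity)
    refine h1.trans ?_
    have h2 : 0 ≤ C1 * D * (2 * S ^ 3 * (xx l j u r + 1)) := by positivity
    have h3 : 0 ≤ C1 * D * (2 * S ^ 3 * (xx l j u r + 1)) * CL := mul_nonneg h2 hCL.le
    nlinarith
  · have hg : ∀ x, (kap l * Pp l r x) ^ 2 ≤ (C1 * CL) * cint (fun y => th l (x - y) * (Pa l r y) ^ 2) := by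
      intro x
      have h1 := (hdom l r hr x).2
      have h2 := hlb l l hl le_rfl r hr x
      have h3 := mul_le_mul_of_nonneg_left h2 (by positivity : 0 ≤ C1 * (kap l) ^ 2)
      have h4 := mul_le_mul_of_nonneg_left h1 (by positivity : 0 ≤ (kap l) ^ 2)
      have e : C1 * (kap l) ^ 2 * (CL / (kap l) ^ 2 * cint (fun y => th l (x - y) * (Pa l r y) ^ 2)) =
          (C1 * CL) * cint (fun y => th l (x - y) * (Pa l r y) ^ 2) := by
        field_simp
      rw [e] at h3
      nlinarith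
    have h := gen1 hS0 (by positivity : 0 ≤ C1 * CL) hP.cu (hAc l) (hAc j)
      (continuous_const.mul (hPc l)) hu l hg z
    rw [← hD] at h
    have e1 : (kap l) ^ 2 * cint (fun x => (u (x + z)) ^ 2 * (Pp l r (x + z)) ^ 2 * (Pa j r x) ^ 2) =
        cint (fun x => (u (x + z)) ^ 2 * (kap l * Pp l r (x + z)) ^ 2 * (Pa j r x) ^ 2) := by
      rw [← cint_mul_left]
      exact cint_congr fun x => by ring
    rw [e1]
    refine h.trans ?_
    have h1 : C1 * CL * D * (2 * xx l j u r +
        2 * S * (cint fun x => (Pa l r x) ^ 2) * (cint fun x => (Pa j r x) ^ 2)) ≤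
        C1 * CL * D * (2 * S ^ 3 * (xx l j u r + 1)) := mul_le_mul_of_nonneg_left hbig (by positivity)
    refine h1.trans ?_
    have h2 : 0 ≤ C1 * D * (2 * S ^ 3 * (xx l j u r + 1)) := by positivity
    nlinarith
  · have hlj : l ≤ j := hsep.le
    have hp : ∀ x, cint (fun y => th l (x - y) * (kap j * Pp j r y) ^ 2) ≤
        CL * cint (fun y => th l (x - y) * (Pa j r y) ^ 2) := by
      intro x
      have h2 := hlb l j hl hlj r hr x
      have h3 := mul_le_mul_of_nonneg_left h2 (by positivity : 0 ≤ (kap j) ^ 2)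
      have e : (kap j) ^ 2 * (CL / (kap j) ^ 2 * cint (fun y => th l (x - y) * (Pa j r y) ^ 2)) =
          CL * cint (fun y => th l (x - y) * (Pa j r y) ^ 2) := by
        field_simp
      rw [e, ← cint_mul_left] at h3
      refine le_trans (le_of_eq (cint_congr fun y => ?_)) h3
      ring
    have hpper : Function.Periodic (fun x => kap j * Pp j r x) 2 := fun x => by
      simp only [hPp j x]
    have h := gen2 hS0 hC1.le hP.cu (hAc l) (hAc j) (continuous_const.mul (hPc j)) hpper hu l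
      (fun x => (hdom l r hr x).1) hp z
    rw [← hD] at h
    have e1 : (kap j) ^ 2 * cint (fun x => (u (x + z)) ^ 2 * (Pp j r (x + z)) ^ 2 * (Pa l r x) ^ 2) =
        cint (fun x => (u (x + z)) ^ 2 * (kap j * Pp j r (x + z)) ^ 2 * (Pa l r x) ^ 2) := by
      rw [← cint_mul_left]
      exact cint_congr fun x => by ring
    rw [e1]
    refine h.trans ?_
    have hJ' : (cint fun x => (kap j * Pp j r x) ^ 2) ≤ S := by
      have h1 := mul_le_mul_of_nonneg_left (hJ j) (by positivity : 0 ≤ (kap j) ^ 2)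
      have e2 : (kap j) ^ 2 * (S / (kap j) ^ 2) = S := by field_simp
      rw [e2, ← cint_mul_left] at h1
      refine le_trans (le_of_eq (cint_congr fun y => ?_)) h1
      ring
    have hJ0 : 0 ≤ (cint fun x => (kap j * Pp j r x) ^ 2) := cint_nonneg fun x => sq_nonneg _
    have hIJ : (cint fun x => (Pa l r x) ^ 2) * (cint fun x => (kap j * Pp j r x) ^ 2) ≤ S * S :=
      mul_le_mul (hI l) hJ' hJ0 hS0
    have hbig2 : 2 * (CL * xx l j u r) +
        2 * S * (cint fun x => (Pa l r x) ^ 2) * (cint fun x => (kap j * Pp j r x) ^ 2) ≤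
        2 * (1 + CL) * S ^ 3 * (xx l j u r + 1) := by
      have h1 := mul_le_mul_of_nonneg_left hIJ hS0
      have h2 : CL * xx l j u r ≤ CL * (S ^ 3 * xx l j u r) := by
        refine mul_le_mul_of_nonneg_left ?_ hCL.le
        nlinarith
      have h3 : 0 ≤ S ^ 3 * xx l j u r := by positivity
      have h4 : 0 ≤ CL * S ^ 3 := by positivity
      nlinarith
    have h1 : C1 * D * (2 * (CL * xx l j u r) +
        2 * S * (cint fun x => (Pa l r x) ^ 2) * (cint fun x => (kap j * Pp j r x) ^ 2)) ≤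
        C1 * D * (2 * (1 + CL) * S ^ 3 * (xx l j u r + 1)) :=
      mul_le_mul_of_nonneg_left hbig2 (by positivity)
    refine h1.trans (le_of_eq ?_)
    ring

end

end Pool.Agent.C1E
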