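import Mathlib
import Pool.Agent.Lib.MP_c1e222_an.A

/-!
The crossing lemma: functions moving in opposite directions meet with finite energy product.
-/

namespace MPc1e222

open MeasureTheory intervalIntegral Set Filter Topology

/-- Integral over a window of a reflected `2`-periodic function. -/
theorem per_int' {f : ℝ → ℝ} (hf : ∀ x, f (x + 2) = f x) (s : ℝ) :
    ∫ x in (-1:ℝ)..1, f (x + s) = ∫ x in (-1:ℝ)..1, f x := by
  have h := per_int hf (-s)
  simpa using h

/-- Cauchy-Schwarz in the form `(∫_s^t f)^2 ≤ ∫_s^{s+1} f^2` for `s ≤ t ≤ s + 1`. -/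
theorem sq_int_le {f : ℝ → ℝ} (hf : Continuous f) {s t : ℝ} (h1 : s ≤ t) (h2 : t ≤ s + 1) :
    (∫ τ in s..t, f τ) ^ 2 ≤ ∫ τ in s..(s + 1), f τ ^ 2 := by
  set m := ∫ τ in s..t, f τ with hm
  have i1 : IntervalIntegrable f volume s t := hf.intervalIntegrable _ _
  have i2 : IntervalIntegrable (fun τ => f τ ^ 2) volume s t := (hf.pow 2).intervalIntegrable _ _
  have h3 : 0 ≤ ∫ τ in s..t, (f τ - m) ^ 2 :=
    intervalIntegral.integral_nonneg h1 fun τ _ => sq_nonneg _
  have h4 : ∫ τ in s..t, (f τ - m) ^ 2 = (∫ τ in s..t, f τ ^ 2) - 2 * m * m + m ^ 2 * (t - s) := by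
    have e : (fun τ => (f τ - m) ^ 2) = fun τ => (f τ ^ 2 - 2 * m * f τ) + m ^ 2 := by
      funext τ
      ring
    rw [e, intervalIntegral.integral_add (i2.sub (i1.const_mul _)) intervalIntegrable_const,
      intervalIntegral.integral_sub i2 (i1.const_mul _), intervalIntegral.integral_const_mul,
      intervalIntegral.integral_const, ← hm]
    simp only [smul_eq_mul]
    ring
  have h5 : ∫ τ in s..t, f τ ^ 2 ≤ ∫ τ in s..(s + 1), f τ ^ 2 := by
    refine intervalIntegral.integral_mono_interval le_rfl h1 h2 ?_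
      ((hf.pow 2).intervalIntegrable _ _)
    exact Eventually.of_forall fun τ => sq_nonneg _
  have h6 : m ^ 2 * (t - s) ≤ m ^ 2 := by
    nlinarith [sq_nonneg m]
  nlinarith

/-- Swapping the two integrals of a jointly continuous function. -/
theorem int_swap {F : ℝ → ℝ → ℝ} (hF : Continuous (fun p : ℝ × ℝ => F p.1 p.2)) (a b c d : ℝ) :
    ∫ x in a..b, ∫ y in c..d, F x y = ∫ y in c..d, ∫ x in a..b, F x y := by
  refine intervalIntegral_intervalIntegral_swap ?_
  have h : IntegrableOn (Function.uncurry F) (uIcc a b ×ˢ uIcc c d) volume :=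
    hF.continuousOn.integrableOn_compact (isCompact_uIcc.prod isCompact_uIcc)
  exact h.mono_set (prod_mono uIoc_subset_uIcc uIoc_subset_uIcc)

/-- The interaction of two functions moving in opposite directions, on a time block of length 1. -/
theorem cross_block {α β : ℝ → ℝ} (hα : Continuous α) (hβ : Continuous β)
    (pα : ∀ x, α (x + 2) = α x) (pβ : ∀ x, β (x + 2) = β x) (s h : ℝ) :
    ∫ t in s..(s + 1), ∫ x in (-1:ℝ)..1, α (x + t) * β (t - x + h) =
      (1 / 2) * ((∫ y in (-1:ℝ)..1, α y) * ∫ z in (-1:ℝ)..1, β z) := by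
  have h1 : ∀ t, ∫ x in (-1:ℝ)..1, α (x + t) * β (t - x + h) =
      ∫ y in (-1:ℝ)..1, α y * β (2 * t - y + h) := by
    intro t
    have hp : ∀ x, α (x + 2) * β (2 * t - (x + 2) + h) = α x * β (2 * t - x + h) := by
      intro x
      rw [pα, ← pβ (2 * t - (x + 2) + h)]
      congr 2
      ring
    have := per_int' (f := fun x => α x * β (2 * t - x + h)) hp t
    rw [← this]
    congr 1
    funext x
    congr 2
    ring
  simp only [h1]
  have hc : Continuous (fun p : ℝ × ℝ => (fun t y => α y * β (2 * t - y + h)) p.1 p.2) :=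
    (hα.comp continuous_snd).mul (hβ.comp (by fun_prop))
  rw [int_swap hc]
  have h2 : ∀ y, ∫ t in s..(s + 1), α y * β (2 * t - y + h) =
      α y * ((1 / 2) * ∫ z in (-1:ℝ)..1, β z) := by
    intro y
    rw [intervalIntegral.integral_const_mul]
    congr 1
    have e1 : ∫ t in s..(s + 1), β (2 * t - y + h) = ∫ t in s..(s + 1), β (2 * t + (h - y)) := by
      congr 1
      funext t
      congr 1
      ring
    rw [e1, intervalIntegral.integral_comp_mul_add (fun z => β z) (by norm_num : (2:ℝ) ≠ 0)]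
    have hp : Function.Periodic β 2 := pβ
    have h3 := hp.intervalIntegral_add_eq (2 * s + (h - y)) (-1)
    have e2 : (2 * s + (h - y) + 2 : ℝ) = 2 * (s + 1) + (h - y) := by ring
    have e3 : (-1 + 2 : ℝ) = 1 := by norm_num
    rw [e2, e3] at h3
    rw [h3]
    norm_num
  simp only [h2]
  rw [intervalIntegral.integral_mul_const]
  ring

/-- Data for the crossing lemma: a function of `(t,y)`, `2`-periodic in `y`, with `L^2` bounds
on itself and on its time derivative. -/
structure Slow (G G' : ℝ → ℝ → ℝ) (a : ℝ) : Prop where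
  cont : Continuous (fun p : ℝ × ℝ => G p.1 p.2)
  cont' : Continuous (fun p : ℝ × ℝ => G' p.1 p.2)
  per : ∀ t y, G t (y + 2) = G t y
  per' : ∀ t y, G' t (y + 2) = G' t y
  der : ∀ t y, HasDerivAt (fun s => G s y) (G' t y) t
  bd : ∀ t, ∫ y in (-1:ℝ)..1, G t y ^ 2 ≤ a
  bd' : ∀ t, ∫ y in (-1:ℝ)..1, G' t y ^ 2 ≤ a

/-- The majorant of `G^2` on a time block. -/
noncomputable def maj (G G' : ℝ → ℝ → ℝ) (s y : ℝ) : ℝ :=
  2 * G s y ^ 2 + 2 * ∫ τ in s..(s + 1), G' τ y ^ 2

theorem Slow.maj_cont {G G' : ℝ → ℝ → ℝ} {a : ℝ} (h : Slow G G' a) (s : ℝ) :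
    Continuous (maj G G' s) := by
  have h1 : Continuous (fun y => G s y) := h.cont.comp (by fun_prop : Continuous fun y : ℝ => (s, y))
  have h2 : Continuous (Function.uncurry fun y τ : ℝ => G' τ y ^ 2) :=
    (h.cont'.comp (by fun_prop : Continuous fun p : ℝ × ℝ => (p.2, p.1))).pow 2
  have h3 := continuous_parametric_intervalIntegral_of_continuous' (μ := volume) h2 s (s + 1)
  exact ((h1.pow 2).const_smul (2:ℝ)).add (h3.const_smul (2:ℝ))

theorem Slow.maj_per {G G' : ℝ → ℝ → ℝ} {a : ℝ} (h : Slow G G' a) (s y : ℝ) :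
    maj G G' s (y + 2) = maj G G' s y := by
  unfold maj
  simp only [h.per, h.per']

theorem Slow.le_maj {G G' : ℝ → ℝ → ℝ} {a : ℝ} (h : Slow G G' a) {s t : ℝ} (h1 : s ≤ t)
    (h2 : t ≤ s + 1) (y : ℝ) : G t y ^ 2 ≤ maj G G' s y := by
  have hc : Continuous (fun τ => G' τ y) := h.cont'.comp (by fun_prop : Continuous fun τ : ℝ => (τ, y))
  have e : ∫ τ in s..t, G' τ y = G t y - G s y :=
    integral_eq_sub_of_hasDerivAt (fun τ _ => h.der τ y) (hc.intervalIntegrable _ _)
  have h3 := sq_int_le hc h1 h2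
  rw [e] at h3
  unfold maj
  nlinarith [sq_nonneg (G t y - 2 * G s y)]

theorem Slow.maj_int {G G' : ℝ → ℝ → ℝ} {a : ℝ} (h : Slow G G' a) (s : ℝ) :
    ∫ y in (-1:ℝ)..1, maj G G' s y ≤ 4 * a := by
  have h1 : Continuous (fun y => G s y) := h.cont.comp (by fun_prop : Continuous fun y : ℝ => (s, y))
  have h2 : Continuous (Function.uncurry fun y τ : ℝ => G' τ y ^ 2) :=
    (h.cont'.comp (by fun_prop : Continuous fun p : ℝ × ℝ => (p.2, p.1))).pow 2
  have h3 := continuous_parametric_intervalIntegral_of_continuous' (μ := volume) h2 s (s + 1)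
  have i1 : IntervalIntegrable (fun y => 2 * G s y ^ 2) volume (-1) 1 :=
    (continuous_const.mul (h1.pow 2)).intervalIntegrable _ _
  have i2 : IntervalIntegrable (fun y => 2 * ∫ τ in s..(s + 1), G' τ y ^ 2) volume (-1) 1 :=
    (continuous_const.mul h3).intervalIntegrable _ _
  unfold maj
  rw [intervalIntegral.integral_add i1 i2, intervalIntegral.integral_const_mul,
    intervalIntegral.integral_const_mul]
  have h4 : ∫ y in (-1:ℝ)..1, ∫ τ in s..(s + 1), G' τ y ^ 2 =
      ∫ τ in s..(s + 1), ∫ y in (-1:ℝ)..1, G' τ y ^ 2 :=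
    int_swap (F := fun y τ => G' τ y ^ 2) h2 _ _ _ _
  have h5 : ∫ τ in s..(s + 1), ∫ y in (-1:ℝ)..1, G' τ y ^ 2 ≤ ∫ _τ in s..(s + 1), a := by
    refine intervalIntegral.integral_mono_on (by linarith) ?_ intervalIntegrable_const
      fun τ _ => h.bd' τ
    have h6 : Continuous (Function.uncurry fun τ y : ℝ => G' τ y ^ 2) := h.cont'.pow 2
    exact (continuous_parametric_intervalIntegral_of_continuous' (μ := volume) h6
      (-1) 1).intervalIntegrable _ _
  rw [intervalIntegral.integral_const] at h5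
  simp only [smul_eq_mul] at h5
  have h7 := h.bd s
  rw [h4]
  linarith

/-- **Crossing lemma.** -/
theorem cross {G1 G1' G2 G2' : ℝ → ℝ → ℝ} {a b : ℝ} (h1 : Slow G1 G1' a) (h2 : Slow G2 G2' b)
    {t0 t1 : ℝ} (ht : t0 ≤ t1) (h : ℝ) :
    ∫ t in t0..t1, ∫ x in (-1:ℝ)..1, G1 t (x + t) ^ 2 * G2 t (t - x + h) ^ 2 ≤
      8 * a * b * (t1 - t0 + 1) := by
  have ha : 0 ≤ a := le_trans (intervalIntegral.integral_nonneg (by norm_num)
    fun x _ => sq_nonneg _) (h1.bd 0)
  have hb : 0 ≤ b := le_trans (intervalIntegral.integral_nonneg (by norm_num)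
    fun x _ => sq_nonneg _) (h2.bd 0)
  have c1 : Continuous (fun p : ℝ × ℝ => G1 p.1 (p.2 + p.1)) :=
    h1.cont.comp (by fun_prop : Continuous fun p : ℝ × ℝ => (p.1, p.2 + p.1))
  have c2 : Continuous (fun p : ℝ × ℝ => G2 p.1 (p.1 - p.2 + h)) :=
    h2.cont.comp (by fun_prop : Continuous fun p : ℝ × ℝ => (p.1, p.1 - p.2 + h))
  have c3 : Continuous (Function.uncurry fun t x : ℝ => G1 t (x + t) ^ 2 * G2 t (t - x + h) ^ 2) :=
    (c1.pow 2).mul (c2.pow 2)
  set Q : ℝ → ℝ := fun t => ∫ x in (-1:ℝ)..1, G1 t (x + t) ^ 2 * G2 t (t - x + h) ^ 2 with hQ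
  have cQ : Continuous Q :=
    continuous_parametric_intervalIntegral_of_continuous' (μ := volume) c3 (-1) 1
  have Q0 : ∀ t, 0 ≤ Q t := fun t =>
    intervalIntegral.integral_nonneg (by norm_num) fun x _ => by positivity
  have block : ∀ s, ∫ t in s..(s + 1), Q t ≤ 8 * a * b := by
    intro s
    have hle : ∫ t in s..(s + 1), Q t ≤
        ∫ t in s..(s + 1), ∫ x in (-1:ℝ)..1, maj G1 G1' s (x + t) * maj G2 G2' s (t - x + h) := by
      have cc : Continuous (Function.uncurry fun t x : ℝ =>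
          maj G1 G1' s (x + t) * maj G2 G2' s (t - x + h)) :=
        ((h1.maj_cont s).comp (by fun_prop : Continuous fun p : ℝ × ℝ => p.2 + p.1)).mul
          ((h2.maj_cont s).comp (by fun_prop : Continuous fun p : ℝ × ℝ => p.1 - p.2 + h))
      refine intervalIntegral.integral_mono_on (by linarith) (cQ.intervalIntegrable _ _)
        ((continuous_parametric_intervalIntegral_of_continuous' (μ := volume) cc
          (-1) 1).intervalIntegrable _ _) ?_
      intro t htt
      refine intervalIntegral.integral_mono_on (by norm_num)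
        ((c3.comp (by fun_prop : Continuous fun x : ℝ => (t, x))).intervalIntegrable _ _)
        ((cc.comp (by fun_prop : Continuous fun x : ℝ => (t, x))).intervalIntegrable _ _) ?_
      intro x _
      exact mul_le_mul (h1.le_maj htt.1 htt.2 _) (h2.le_maj htt.1 htt.2 _) (sq_nonneg _)
        ((sq_nonneg _).trans (h1.le_maj htt.1 htt.2 _))
    rw [cross_block (h1.maj_cont s) (h2.maj_cont s) (h1.maj_per s) (h2.maj_per s)] at hle
    have n1 : 0 ≤ ∫ y in (-1:ℝ)..1, maj G2 G2' s y := by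
      refine intervalIntegral.integral_nonneg (by norm_num) fun x _ => ?_
      exact (sq_nonneg _).trans (h2.le_maj le_rfl (by linarith) x)
    have m1 := h1.maj_int s
    have m2 := h2.maj_int s
    have : (∫ y in (-1:ℝ)..1, maj G1 G1' s y) * (∫ y in (-1:ℝ)..1, maj G2 G2' s y) ≤
        (4 * a) * (4 * b) := mul_le_mul m1 m2 n1 (by positivity)
    linarith
  have hsum : ∀ n : ℕ, ∫ t in t0..(t0 + n), Q t ≤ 8 * a * b * n := by
    intro n
    induction n with
    | zero => simp
    | succ n ih =>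
      have e := intervalIntegral.integral_add_adjacent_intervals
        (cQ.intervalIntegrable (μ := volume) t0 (t0 + n))
        (cQ.intervalIntegrable (μ := volume) (t0 + n) (t0 + n + 1))
      have hb := block (t0 + n)
      push_cast
      rw [show t0 + ((n:ℝ) + 1) = t0 + n + 1 by ring, ← e]
      linarith
  set n := ⌈t1 - t0⌉₊ with hn
  have hn1 : t1 - t0 ≤ n := Nat.le_ceil _
  have hn2 : (n:ℝ) ≤ t1 - t0 + 1 := (Nat.ceil_lt_add_one (by linarith)).le
  have h5 : ∫ t in t0..t1, Q t ≤ ∫ t in t0..(t0 + n), Q t := by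
    refine intervalIntegral.integral_mono_interval le_rfl ht (by linarith) ?_
      (cQ.intervalIntegrable _ _)
    exact Eventually.of_forall fun t => Q0 t
  calc ∫ t in t0..t1, Q t ≤ ∫ t in t0..(t0 + n), Q t := h5
    _ ≤ 8 * a * b * n := hsum n
    _ ≤ 8 * a * b * (t1 - t0 + 1) := mul_le_mul_of_nonneg_left hn2 (by positivity)

end MPc1e222
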