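import Mathlib
import Pool.Agent.Lib.MP_c1e222_an.A

/-!
Solutions of `u_tt - u_xx + u^3 = 0` in the energy class of `V`, written through the odd
`2`-periodic extension, and their elementary properties.
-/

namespace MPc1e222

open MeasureTheory intervalIntegral Set Filter Topology

/-- The time derivative of `u`. -/
noncomputable def ut (u : ℝ → ℝ → ℝ) (t x : ℝ) : ℝ := deriv (fun s => u s x) t

/-- The space derivative of `u`. -/
noncomputable def ux (u : ℝ → ℝ → ℝ) (t x : ℝ) : ℝ := deriv (u t) x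

/-- `Sol u`: the function `u t x` is the odd, `2`-periodic (in `x`) extension of a global solution
of `u_tt - u_xx + u^3 = 0` on `(0,1)` with Dirichlet boundary conditions and data in
`(H^2 ∩ H^1_0) × H^1_0`.  The equation is `(∂_t - ∂_x)(u_t + u_x) = - u^3`, in integrated form. -/
structure Sol (u : ℝ → ℝ → ℝ) : Prop where
  /-- `u` is of class `C^1` in `(t,x)`. -/
  smooth : ContDiff ℝ 1 (fun p : ℝ × ℝ => u p.1 p.2)
  /-- `u` is odd in `x`. -/
  odd : ∀ t x, u t (-x) = - u t x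
  /-- `u` is `2`-periodic in `x`. -/
  per : ∀ t x, u t (x + 2) = u t x
  /-- the equation, integrated along the lines `x + t = const`. -/
  eqn : ∀ t x, ut u t (x - t) + ux u t (x - t) =
    ut u 0 x + ux u 0 x - ∫ s in (0:ℝ)..t, u s (x - s) ^ 3
  /-- `u_x(0,·)` is absolutely continuous. -/
  acx : ∀ a b, AbsolutelyContinuousOnInterval (ux u 0) a b
  /-- `u_t(0,·)` is absolutely continuous. -/
  act : ∀ a b, AbsolutelyContinuousOnInterval (ut u 0) a b
  /-- `u_xx(0,·)` is square integrable. -/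
  l2x : IntervalIntegrable (fun x => deriv (ux u 0) x ^ 2) volume (-1) 1
  /-- `u_tx(0,·)` is square integrable. -/
  l2t : IntervalIntegrable (fun x => deriv (ut u 0) x ^ 2) volume (-1) 1

section C1

variable {u : ℝ → ℝ → ℝ} (hu : ContDiff ℝ 1 (fun p : ℝ × ℝ => u p.1 p.2))
include hu

theorem hdt (t x : ℝ) : HasDerivAt (fun s => u s x)
    (fderiv ℝ (fun p : ℝ × ℝ => u p.1 p.2) (t, x) (1, 0)) t := by
  have h1 : HasFDerivAt (fun p : ℝ × ℝ => u p.1 p.2)
      (fderiv ℝ (fun p : ℝ × ℝ => u p.1 p.2) (t, x)) (t, x) :=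
    (hu.differentiable (by norm_num) (t, x)).hasFDerivAt
  have h2 : HasDerivAt (fun s : ℝ => (s, x)) ((1:ℝ), (0:ℝ)) t :=
    (hasDerivAt_id t).prodMk (hasDerivAt_const t x)
  exact h1.comp_hasDerivAt t h2

theorem hdx (t x : ℝ) : HasDerivAt (fun y => u t y)
    (fderiv ℝ (fun p : ℝ × ℝ => u p.1 p.2) (t, x) (0, 1)) x := by
  have h1 : HasFDerivAt (fun p : ℝ × ℝ => u p.1 p.2)
      (fderiv ℝ (fun p : ℝ × ℝ => u p.1 p.2) (t, x)) (t, x) :=
    (hu.differentiable (by norm_num) (t, x)).hasFDerivAt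
  have h2 : HasDerivAt (fun y : ℝ => (t, y)) ((0:ℝ), (1:ℝ)) x :=
    (hasDerivAt_const x t).prodMk (hasDerivAt_id x)
  exact h1.comp_hasDerivAt x h2

theorem ut_eq (t x : ℝ) : ut u t x = fderiv ℝ (fun p : ℝ × ℝ => u p.1 p.2) (t, x) (1, 0) :=
  (hdt hu t x).deriv

theorem ux_eq (t x : ℝ) : ux u t x = fderiv ℝ (fun p : ℝ × ℝ => u p.1 p.2) (t, x) (0, 1) :=
  (hdx hu t x).deriv

theorem has_ut (t x : ℝ) : HasDerivAt (fun s => u s x) (ut u t x) t := by
  rw [ut_eq hu]
  exact hdt hu t x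

theorem has_ux (t x : ℝ) : HasDerivAt (u t) (ux u t x) x := by
  rw [ux_eq hu]
  exact hdx hu t x

theorem cont_ut : Continuous (fun p : ℝ × ℝ => ut u p.1 p.2) := by
  have h := hu.continuous_fderiv (by norm_num)
  have h2 : Continuous fun p : ℝ × ℝ =>
      fderiv ℝ (fun p : ℝ × ℝ => u p.1 p.2) p ((1:ℝ), (0:ℝ)) := h.clm_apply continuous_const
  exact h2.congr fun p => (ut_eq hu p.1 p.2).symm

theorem cont_ux : Continuous (fun p : ℝ × ℝ => ux u p.1 p.2) := by
  have h := hu.continuous_fderiv (by norm_num)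
  have h2 : Continuous fun p : ℝ × ℝ =>
      fderiv ℝ (fun p : ℝ × ℝ => u p.1 p.2) p ((0:ℝ), (1:ℝ)) := h.clm_apply continuous_const
  exact h2.congr fun p => (ux_eq hu p.1 p.2).symm

theorem cont_u : Continuous (fun p : ℝ × ℝ => u p.1 p.2) := hu.continuous

/-- derivative along the characteristic `x + t = ξ`. -/
theorem has_char (t ξ : ℝ) : HasDerivAt (fun s => u s (ξ - s))
    (ut u t (ξ - t) - ux u t (ξ - t)) t := by
  have h1 : HasFDerivAt (fun p : ℝ × ℝ => u p.1 p.2)
      (fderiv ℝ (fun p : ℝ × ℝ => u p.1 p.2) (t, ξ - t)) (t, ξ - t) :=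
    (hu.differentiable (by norm_num) (t, ξ - t)).hasFDerivAt
  have h2 : HasDerivAt (fun s : ℝ => (s, ξ - s)) ((1:ℝ), (-1:ℝ)) t :=
    (hasDerivAt_id t).prodMk ((hasDerivAt_id t).const_sub ξ)
  have h3 := h1.comp_hasDerivAt t h2
  have e : fderiv ℝ (fun p : ℝ × ℝ => u p.1 p.2) (t, ξ - t) ((1:ℝ), (-1:ℝ)) =
      ut u t (ξ - t) - ux u t (ξ - t) := by
    rw [ut_eq hu, ux_eq hu, ← map_sub]
    simp
  rw [e] at h3
  exact h3

theorem has_shift (t ξ : ℝ) : HasDerivAt (fun y => u t (y - t)) (ux u t (ξ - t)) ξ := by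
  have h := (has_ux hu t (ξ - t)).comp ξ ((hasDerivAt_id ξ).sub_const t)
  simpa [Function.comp_def] using h

end C1

variable {u : ℝ → ℝ → ℝ}

namespace Sol

theorem ut_neg (hs : Sol u) (t x : ℝ) : ut u t (-x) = - ut u t x := by
  have h := has_ut hs.smooth t (-x)
  have h2 := (has_ut hs.smooth t x).neg
  have e : (fun s => u s (-x)) = (fun s => - u s x) := by
    funext s
    exact hs.odd s x
  rw [e] at h
  exact h.unique h2

theorem ux_neg (hs : Sol u) (t x : ℝ) : ux u t (-x) = ux u t x := by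
  have h := (has_ux hs.smooth t (-x)).comp x (hasDerivAt_neg x)
  have h2 := (has_ux hs.smooth t x).neg
  have e : (u t ∘ Neg.neg) = (fun y => - u t y) := by
    funext y
    exact hs.odd t y
  rw [e] at h
  have := h.unique h2
  linarith

theorem ut_per (hs : Sol u) (t x : ℝ) : ut u t (x + 2) = ut u t x := by
  have h := has_ut hs.smooth t (x + 2)
  have h2 := (has_ut hs.smooth t x)
  have e : (fun s => u s (x + 2)) = (fun s => u s x) := by
    funext s
    exact hs.per s x
  rw [e] at h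
  exact h.unique h2

theorem ux_per (hs : Sol u) (t x : ℝ) : ux u t (x + 2) = ux u t x := by
  have h := (has_ux hs.smooth t (x + 2)).comp x ((hasDerivAt_id x).add_const (2:ℝ))
  have h2 := (has_ux hs.smooth t x)
  have e : (u t ∘ fun y => id y + 2) = (fun y => u t y) := by
    funext y
    exact hs.per t y
  rw [e] at h
  have := h.unique h2
  linarith

theorem u_zero (hs : Sol u) (t : ℝ) : u t 0 = 0 := by
  have := hs.odd t 0
  rw [neg_zero] at this
  linarith

theorem u_pm (hs : Sol u) (t : ℝ) : u t (-1) = u t 1 := by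
  have := hs.per t (-1)
  norm_num at this
  linarith

end Sol

end MPc1e222
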