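import Mathlib
import Pool.Agent.Lib.MP_c1e222_an.B

/-!
The Riemann invariant `P = u_t + u_x`, its derivative, and the energy identity.
-/

namespace MPc1e222

open MeasureTheory intervalIntegral Set Filter Topology

/-- The Riemann invariant. -/
noncomputable def P (u : ℝ → ℝ → ℝ) (t x : ℝ) : ℝ := ut u t x + ux u t x

/-- The Riemann invariant in the characteristic coordinate `ξ = x + t`. -/
noncomputable def g (u : ℝ → ℝ → ℝ) (t ξ : ℝ) : ℝ := P u t (ξ - t)

/-- `∂_x (u^3)` in the characteristic coordinate. -/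
noncomputable def k (u : ℝ → ℝ → ℝ) (t ξ : ℝ) : ℝ := 3 * u t (ξ - t) ^ 2 * ux u t (ξ - t)

/-- The primitive in time of `k`. -/
noncomputable def K (u : ℝ → ℝ → ℝ) (t ξ : ℝ) : ℝ := ∫ s in (0:ℝ)..t, k u s ξ

/-- The derivative of the Riemann invariant at time `0`. -/
noncomputable def h0 (u : ℝ → ℝ → ℝ) (ξ : ℝ) : ℝ := deriv (P u 0) ξ

/-- The derivative of the Riemann invariant. -/
noncomputable def H (u : ℝ → ℝ → ℝ) (t ξ : ℝ) : ℝ := h0 u ξ - K u t ξ

variable {u : ℝ → ℝ → ℝ}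

namespace Sol

theorem cont_P (hs : Sol u) : Continuous (fun p : ℝ × ℝ => P u p.1 p.2) :=
  (cont_ut hs.smooth).add (cont_ux hs.smooth)

theorem cont_P' (hs : Sol u) (t : ℝ) : Continuous (P u t) :=
  hs.cont_P.comp (by fun_prop : Continuous fun x : ℝ => (t, x))

theorem cont_g (hs : Sol u) : Continuous (fun p : ℝ × ℝ => g u p.1 p.2) :=
  hs.cont_P.comp (by fun_prop : Continuous fun p : ℝ × ℝ => (p.1, p.2 - p.1))

theorem cont_g' (hs : Sol u) (t : ℝ) : Continuous (g u t) :=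
  hs.cont_g.comp (by fun_prop : Continuous fun x : ℝ => (t, x))

theorem cont_v (hs : Sol u) : Continuous (fun p : ℝ × ℝ => u p.1 (p.2 - p.1)) :=
  hs.smooth.continuous.comp (by fun_prop : Continuous fun p : ℝ × ℝ => (p.1, p.2 - p.1))

theorem cont_vx (hs : Sol u) : Continuous (fun p : ℝ × ℝ => ux u p.1 (p.2 - p.1)) :=
  (cont_ux hs.smooth).comp (by fun_prop : Continuous fun p : ℝ × ℝ => (p.1, p.2 - p.1))

theorem cont_vt (hs : Sol u) : Continuous (fun p : ℝ × ℝ => ut u p.1 (p.2 - p.1)) :=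
  (cont_ut hs.smooth).comp (by fun_prop : Continuous fun p : ℝ × ℝ => (p.1, p.2 - p.1))

theorem cont_v' (hs : Sol u) (t : ℝ) : Continuous (fun x : ℝ => u t (x - t)) :=
  hs.cont_v.comp (by fun_prop : Continuous fun x : ℝ => (t, x))

theorem cont_vx' (hs : Sol u) (t : ℝ) : Continuous (fun x : ℝ => ux u t (x - t)) :=
  hs.cont_vx.comp (by fun_prop : Continuous fun x : ℝ => (t, x))

theorem cont_k (hs : Sol u) : Continuous (fun p : ℝ × ℝ => k u p.1 p.2) :=
  (continuous_const.mul (hs.cont_v.pow 2)).mul hs.cont_vx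

theorem cont_K (hs : Sol u) : Continuous (fun p : ℝ × ℝ => K u p.1 p.2) := by
  have h : Continuous (Function.uncurry (fun ξ s : ℝ => k u s ξ)) :=
    hs.cont_k.comp (by fun_prop : Continuous fun p : ℝ × ℝ => (p.2, p.1))
  have h2 := continuous_parametric_primitive_of_continuous (μ := volume) (a₀ := (0:ℝ)) h
  exact h2.comp (by fun_prop : Continuous fun p : ℝ × ℝ => (p.2, p.1))

theorem cont_K' (hs : Sol u) (t : ℝ) : Continuous (K u t) :=
  hs.cont_K.comp (by fun_prop : Continuous fun x : ℝ => (t, x))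

/-! Periodicity. -/

theorem P_per (hs : Sol u) (t x : ℝ) : P u t (x + 2) = P u t x := by
  unfold P
  rw [hs.ut_per, hs.ux_per]

theorem g_per (hs : Sol u) (t x : ℝ) : g u t (x + 2) = g u t x := by
  unfold g
  rw [show x + 2 - t = x - t + 2 by ring, hs.P_per]

theorem k_per (hs : Sol u) (t x : ℝ) : k u t (x + 2) = k u t x := by
  unfold k
  rw [show x + 2 - t = x - t + 2 by ring, hs.per, hs.ux_per]

theorem K_per (hs : Sol u) (t x : ℝ) : K u t (x + 2) = K u t x := by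
  unfold K
  simp only [hs.k_per]

/-! Derivatives. -/

theorem g_time (hs : Sol u) (t ξ : ℝ) : HasDerivAt (fun s => g u s ξ) (-(u t (ξ - t) ^ 3)) t := by
  have e : (fun s => g u s ξ) = fun s => (ut u 0 ξ + ux u 0 ξ) - ∫ r in (0:ℝ)..s, u r (ξ - r) ^ 3 := by
    funext s
    exact hs.eqn s ξ
  rw [e]
  have hc : Continuous (fun r : ℝ => u r (ξ - r) ^ 3) :=
    (hs.cont_v.comp (by fun_prop : Continuous fun r : ℝ => (r, ξ))).pow 3
  have h := (intervalIntegral.integral_hasDerivAt_right (hc.intervalIntegrable 0 t)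
    hc.aestronglyMeasurable.stronglyMeasurableAtFilter hc.continuousAt)
  exact h.const_sub _

theorem K_time (hs : Sol u) (t ξ : ℝ) : HasDerivAt (fun s => K u s ξ) (k u t ξ) t := by
  have hc : Continuous (fun r : ℝ => k u r ξ) :=
    hs.cont_k.comp (by fun_prop : Continuous fun r : ℝ => (r, ξ))
  exact (intervalIntegral.integral_hasDerivAt_right (hc.intervalIntegrable 0 t)
    hc.aestronglyMeasurable.stronglyMeasurableAtFilter hc.continuousAt)

/-- The Duhamel term. -/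
theorem J_space (hs : Sol u) (t ξ : ℝ) :
    HasDerivAt (fun y => ∫ s in (0:ℝ)..t, u s (y - s) ^ 3) (K u t ξ) ξ := by
  have hA : Continuous (fun p : ℝ × ℝ => (fun y s : ℝ => u s (y - s) ^ 3) p.1 p.2) :=
    (hs.cont_v.comp (by fun_prop : Continuous fun p : ℝ × ℝ => (p.2, p.1))).pow 3
  have hA' : Continuous (fun p : ℝ × ℝ => (fun y s : ℝ => k u s y) p.1 p.2) :=
    hs.cont_k.comp (by fun_prop : Continuous fun p : ℝ × ℝ => (p.2, p.1))
  refine hasDerivAt_int (A := fun y s : ℝ => u s (y - s) ^ 3) (A' := fun y s : ℝ => k u s y)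
    hA hA' ?_ ξ
  intro y s
  have h := (has_shift hs.smooth s y).fun_pow 3
  simpa [k] using h

theorem g_eq (hs : Sol u) (t ξ : ℝ) :
    g u t ξ = P u 0 ξ - ∫ s in (0:ℝ)..t, u s (ξ - s) ^ 3 := hs.eqn t ξ

theorem P_ac (hs : Sol u) (a b : ℝ) : AbsolutelyContinuousOnInterval (P u 0) a b :=
  (hs.act a b).fun_add (hs.acx a b)

theorem J_ac (hs : Sol u) (t a b : ℝ) :
    AbsolutelyContinuousOnInterval (fun y => ∫ s in (0:ℝ)..t, u s (y - s) ^ 3) a b := by
  refine ContDiffOn.absolutelyContinuousOnInterval (ContDiff.contDiffOn ?_)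
  rw [contDiff_one_iff_deriv]
  refine ⟨fun ξ => (hs.J_space t ξ).differentiableAt, ?_⟩
  have e : deriv (fun y => ∫ s in (0:ℝ)..t, u s (y - s) ^ 3) = K u t := by
    funext ξ
    exact (hs.J_space t ξ).deriv
  rw [e]
  exact hs.cont_K' t

theorem g_ac (hs : Sol u) (t a b : ℝ) : AbsolutelyContinuousOnInterval (g u t) a b := by
  have h := (hs.P_ac a b).fun_sub (hs.J_ac t a b)
  have e : g u t = fun ξ => P u 0 ξ - ∫ s in (0:ℝ)..t, u s (ξ - s) ^ 3 := by
    funext ξ
    exact hs.g_eq t ξ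
  rw [e]
  exact h

theorem g_space_of_diff (hs : Sol u) (t ξ : ℝ) (hd : DifferentiableAt ℝ (P u 0) ξ) :
    HasDerivAt (g u t) (H u t ξ) ξ := by
  have e : g u t = fun ξ => P u 0 ξ - ∫ s in (0:ℝ)..t, u s (ξ - s) ^ 3 := by
    funext ξ
    exact hs.g_eq t ξ
  rw [e]
  exact hd.hasDerivAt.sub (hs.J_space t ξ)

/-- `P u 0` is differentiable almost everywhere. -/
theorem P_ae (hs : Sol u) : ∀ᵐ ξ : ℝ, DifferentiableAt ℝ (P u 0) ξ := by
  have h : ∀ n : ℕ, ∀ᵐ ξ : ℝ, ξ ∈ uIcc (-(n:ℝ)) n → DifferentiableAt ℝ (P u 0) ξ :=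
    fun n => (hs.P_ac _ _).ae_differentiableAt
  rw [← ae_all_iff] at h
  filter_upwards [h] with ξ hξ
  obtain ⟨n, hn⟩ := exists_nat_ge |ξ|
  refine hξ n ?_
  rw [uIcc_of_le (by have : (0:ℝ) ≤ n := Nat.cast_nonneg n
                     linarith)]
  exact abs_le.mp hn

theorem g_space (hs : Sol u) (t : ℝ) : ∀ᵐ ξ : ℝ, HasDerivAt (g u t) (H u t ξ) ξ := by
  filter_upwards [hs.P_ae] with ξ hξ
  exact hs.g_space_of_diff t ξ hξ

theorem H_ae (hs : Sol u) (t : ℝ) : ∀ᵐ ξ : ℝ, H u t ξ = deriv (g u t) ξ := by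
  filter_upwards [hs.g_space t] with ξ hξ
  exact hξ.deriv.symm

theorem h0_int (hs : Sol u) (a b : ℝ) : IntervalIntegrable (h0 u) volume a b :=
  (hs.P_ac a b).intervalIntegrable_deriv

theorem h0_sq (hs : Sol u) : IntervalIntegrable (fun ξ => h0 u ξ ^ 2) volume (-1) 1 := by
  have hm : Measurable (h0 u) := measurable_deriv _
  have hb := (hs.l2x.const_mul 2).add (hs.l2t.const_mul 2)
  refine hb.mono_fun ?_ ?_
  · exact (hm.pow_const 2).aestronglyMeasurable
  · refine (ae_restrict_iff' measurableSet_uIoc).mpr ?_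
    filter_upwards [(hs.acx (-1) 1).ae_differentiableAt, (hs.act (-1) 1).ae_differentiableAt]
      with x h1 h2 hx
    have hx' := uIoc_subset_uIcc hx
    have e : h0 u x = deriv (ut u 0) x + deriv (ux u 0) x :=
      ((h2 hx').hasDerivAt.add (h1 hx').hasDerivAt).deriv
    rw [e, Real.norm_eq_abs, Real.norm_eq_abs, abs_of_nonneg (sq_nonneg _),
      abs_of_nonneg (by positivity)]
    nlinarith [sq_nonneg (deriv (ut u 0) x - deriv (ux u 0) x)]

theorem H_int (hs : Sol u) (t a b : ℝ) : IntervalIntegrable (H u t) volume a b :=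
  (hs.h0_int a b).sub ((hs.cont_K' t).intervalIntegrable a b)

theorem H_sq_eq (t ξ : ℝ) : H u t ξ ^ 2 =
    h0 u ξ ^ 2 + h0 u ξ * (-2 * K u t ξ) + K u t ξ ^ 2 := by
  unfold H
  ring

theorem H_sq (hs : Sol u) (t : ℝ) : IntervalIntegrable (fun ξ => H u t ξ ^ 2) volume (-1) 1 := by
  have h1 := hs.h0_sq
  have h2 := (hs.h0_int (-1) 1).mul_continuousOn
    (continuous_const.mul (hs.cont_K' t) : Continuous fun ξ => (-2:ℝ) * K u t ξ).continuousOn
  have h3 := ((hs.cont_K' t).pow 2).intervalIntegrable (μ := volume) (-1) 1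
  refine ((h1.add h2).add h3).congr ?_
  exact fun ξ _ => (H_sq_eq t ξ).symm

theorem H_per_ae (hs : Sol u) (t : ℝ) (ξ : ℝ) : H u t (ξ + 2) = H u t ξ := by
  unfold H
  rw [hs.K_per]
  congr 1
  unfold h0
  have e : P u 0 = fun x => P u 0 (x + 2) := by
    funext x
    exact (hs.P_per 0 x).symm
  conv_rhs => rw [e]
  rw [deriv_comp_add_const]

end Sol

end MPc1e222
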