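import Mathlib
import Pool.Agent.Lib.MP_c1e222_an.C

/-!
The energy identity and the modified second-order energy.
-/

namespace MPc1e222

open MeasureTheory intervalIntegral Set Filter Topology

variable {u : ℝ → ℝ → ℝ}

/-- The energy. -/
noncomputable def En (u : ℝ → ℝ → ℝ) (t : ℝ) : ℝ :=
  (∫ ξ in (-1:ℝ)..1, g u t ξ ^ 2) + (1 / 2) * ∫ x in (-1:ℝ)..1, u t x ^ 4

/-- The modified second-order energy. -/
noncomputable def W (u : ℝ → ℝ → ℝ) (t : ℝ) : ℝ :=
  (∫ ξ in (-1:ℝ)..1, H u t ξ ^ 2) - ∫ ξ in (-1:ℝ)..1, u t (ξ - t) ^ 3 * H u t ξ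

namespace Sol

theorem cont_u' (hs : Sol u) (t : ℝ) : Continuous (u t) :=
  hs.smooth.continuous.comp (by fun_prop : Continuous fun x : ℝ => (t, x))

theorem cont_ux' (hs : Sol u) (t : ℝ) : Continuous (ux u t) :=
  (cont_ux hs.smooth).comp (by fun_prop : Continuous fun x : ℝ => (t, x))

theorem cont_ut' (hs : Sol u) (t : ℝ) : Continuous (ut u t) :=
  (cont_ut hs.smooth).comp (by fun_prop : Continuous fun x : ℝ => (t, x))

/-- `∫ u^3 u_x = 0`. -/
theorem int_u3ux (hs : Sol u) (t : ℝ) : ∫ x in (-1:ℝ)..1, u t x ^ 3 * ux u t x = 0 := by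
  have h : ∀ x ∈ uIcc (-1:ℝ) 1, HasDerivAt (fun y => u t y ^ 4 / 4) (u t x ^ 3 * ux u t x) x := by
    intro x _
    have h1 := ((has_ux hs.smooth t x).fun_pow 4).div_const 4
    refine h1.congr_deriv ?_
    push_cast
    ring
  rw [integral_eq_sub_of_hasDerivAt h
    (((hs.cont_u' t).pow 3).mul (hs.cont_ux' t) |>.intervalIntegrable _ _), hs.u_pm]
  ring

theorem En_deriv (hs : Sol u) (t : ℝ) : HasDerivAt (En u) 0 t := by
  have h1 : HasDerivAt (fun s => ∫ ξ in (-1:ℝ)..1, g u s ξ ^ 2)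
      (∫ ξ in (-1:ℝ)..1, 2 * g u t ξ * (-(u t (ξ - t) ^ 3))) t := by
    refine hasDerivAt_int (A := fun s ξ => g u s ξ ^ 2)
      (A' := fun s ξ => 2 * g u s ξ * (-(u s (ξ - s) ^ 3))) (hs.cont_g.pow 2)
      ((continuous_const.mul hs.cont_g).mul (hs.cont_v.pow 3).neg) ?_ t
    intro s ξ
    have h := (hs.g_time s ξ).fun_pow 2
    simpa using h
  have h2 : HasDerivAt (fun s => ∫ x in (-1:ℝ)..1, u s x ^ 4)
      (∫ x in (-1:ℝ)..1, 4 * u t x ^ 3 * ut u t x) t := by
    refine hasDerivAt_int (A := fun s x => u s x ^ 4)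
      (A' := fun s x => 4 * u s x ^ 3 * ut u s x) (hs.smooth.continuous.pow 4)
      ((continuous_const.mul (hs.smooth.continuous.pow 3)).mul (cont_ut hs.smooth)) ?_ t
    intro s x
    have h := (has_ut hs.smooth s x).fun_pow 4
    simpa using h
  have h3 := h1.add (h2.const_mul (1 / 2))
  have e : (∫ ξ in (-1:ℝ)..1, 2 * g u t ξ * (-(u t (ξ - t) ^ 3))) +
      1 / 2 * (∫ x in (-1:ℝ)..1, 4 * u t x ^ 3 * ut u t x) = 0 := by
    have hp := per_int (f := fun x => 2 * P u t x * (-(u t x ^ 3)))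
      (fun x => by simp only [hs.P_per, hs.per]) t
    have e1 : (∫ ξ in (-1:ℝ)..1, 2 * g u t ξ * (-(u t (ξ - t) ^ 3))) =
        ∫ x in (-1:ℝ)..1, 2 * P u t x * (-(u t x ^ 3)) := hp
    rw [e1, ← intervalIntegral.integral_const_mul, ← intervalIntegral.integral_add]
    · have e2 : (∫ x in (-1:ℝ)..1, (2 * P u t x * (-(u t x ^ 3)) +
          1 / 2 * (4 * u t x ^ 3 * ut u t x))) =
          ∫ x in (-1:ℝ)..1, (-2) * (u t x ^ 3 * ux u t x) := by
        congr 1
        funext x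
        unfold P
        ring
      rw [e2, intervalIntegral.integral_const_mul, hs.int_u3ux, mul_zero]
    · exact ((continuous_const.mul (hs.cont_P' t)).mul
        ((hs.cont_u' t).pow 3).neg).intervalIntegrable _ _
    · exact (continuous_const.mul ((continuous_const.mul ((hs.cont_u' t).pow 3)).mul
        (hs.cont_ut' t))).intervalIntegrable _ _
  rw [e] at h3
  exact h3

theorem En_const (hs : Sol u) (t : ℝ) : En u t = En u 0 :=
  is_const_of_deriv_eq_zero (fun s => (hs.En_deriv s).differentiableAt)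
    (fun s => (hs.En_deriv s).deriv) t 0

/-- `v t ξ = u t (ξ - t)` is `C^1` in `ξ`. -/
theorem v_contDiff (hs : Sol u) (t : ℝ) : ContDiff ℝ 1 (fun ξ => u t (ξ - t)) :=
  hs.smooth.comp (contDiff_const.prodMk (contDiff_id.sub contDiff_const) :
    ContDiff ℝ 1 (fun ξ : ℝ => (t, ξ - t)))

theorem v_ac (hs : Sol u) (t a b : ℝ) :
    AbsolutelyContinuousOnInterval (fun ξ => u t (ξ - t)) a b :=
  (hs.v_contDiff t).contDiffOn.absolutelyContinuousOnInterval

theorem v_pm (hs : Sol u) (t : ℝ) : u t (-1 - t) = u t (1 - t) := by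
  have := hs.per t (-1 - t)
  rw [← this]
  congr 1
  ring

theorem g_pm (hs : Sol u) (t : ℝ) : g u t (-1) = g u t 1 := by
  have := hs.g_per t (-1)
  rw [← this]
  congr 1
  norm_num

/-- `∫ u^5 u_x = 0`. -/
theorem int_v5vx (hs : Sol u) (t : ℝ) :
    ∫ ξ in (-1:ℝ)..1, u t (ξ - t) ^ 5 * ux u t (ξ - t) = 0 := by
  have h : ∀ x ∈ uIcc (-1:ℝ) 1, HasDerivAt (fun y => u t (y - t) ^ 6 / 6)
      (u t (x - t) ^ 5 * ux u t (x - t)) x := by
    intro x _
    have h1 := ((has_shift hs.smooth t x).fun_pow 6).div_const 6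
    refine h1.congr_deriv ?_
    push_cast
    ring
  rw [integral_eq_sub_of_hasDerivAt h
    (((hs.cont_v' t).pow 5).mul (hs.cont_vx' t) |>.intervalIntegrable _ _), hs.v_pm]
  ring

/-- The integration by parts behind the gain. -/
theorem int_ibp (hs : Sol u) (t : ℝ) :
    ∫ ξ in (-1:ℝ)..1, u t (ξ - t) ^ 2 * g u t ξ * H u t ξ =
      - ∫ ξ in (-1:ℝ)..1, u t (ξ - t) * ux u t (ξ - t) * g u t ξ ^ 2 := by
  have hv := hs.v_ac t (-1) 1
  have hg := hs.g_ac t (-1) 1
  have hf := (hv.fun_mul hg).fun_mul (hv.fun_mul hg)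
  have h1 := hf.integral_deriv_eq_sub
  have h2 : ∫ x in (-1:ℝ)..1, deriv (fun x => u t (x - t) * g u t x * (u t (x - t) * g u t x)) x =
      ∫ ξ in (-1:ℝ)..1, (2 * (u t (ξ - t) * ux u t (ξ - t) * g u t ξ ^ 2) +
        2 * (u t (ξ - t) ^ 2 * g u t ξ * H u t ξ)) := by
    apply intervalIntegral.integral_congr_ae
    filter_upwards [hs.g_space t] with x hx _
    have h3 := (has_shift hs.smooth t x).fun_mul hx
    have h4 := h3.fun_mul h3
    rw [h4.deriv]
    ring
  have i1 : IntervalIntegrable (fun ξ => 2 * (u t (ξ - t) * ux u t (ξ - t) * g u t ξ ^ 2))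
      volume (-1) 1 :=
    (continuous_const.mul (((hs.cont_v' t).mul (hs.cont_vx' t)).mul
      ((hs.cont_g' t).pow 2))).intervalIntegrable _ _
  have i2 : IntervalIntegrable (fun ξ => 2 * (u t (ξ - t) ^ 2 * g u t ξ * H u t ξ))
      volume (-1) 1 :=
    ((hs.H_int t (-1) 1).continuousOn_mul
      (((hs.cont_v' t).pow 2).mul (hs.cont_g' t)).continuousOn).const_mul 2
  rw [h2, intervalIntegral.integral_add i1 i2, intervalIntegral.integral_const_mul,
    intervalIntegral.integral_const_mul, hs.v_pm, hs.g_pm] at h1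
  linarith

theorem W_deriv (hs : Sol u) (t : ℝ) : HasDerivAt (W u)
    (3 * ∫ ξ in (-1:ℝ)..1, u t (ξ - t) * ux u t (ξ - t) * g u t ξ ^ 2) t := by
  -- rewrite `W`
  have eW : W u = fun s => (∫ ξ in (-1:ℝ)..1, h0 u ξ ^ 2) +
      ((∫ ξ in (-1:ℝ)..1, h0 u ξ * (-2 * K u s ξ - u s (ξ - s) ^ 3)) +
        ∫ ξ in (-1:ℝ)..1, (K u s ξ ^ 2 + u s (ξ - s) ^ 3 * K u s ξ)) := by
    funext s
    unfold W
    have c1 : Continuous fun ξ => -2 * K u s ξ - u s (ξ - s) ^ 3 :=
      (continuous_const.mul (hs.cont_K' s)).sub ((hs.cont_v' s).pow 3)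
    have c2 : Continuous fun ξ => K u s ξ ^ 2 + u s (ξ - s) ^ 3 * K u s ξ :=
      ((hs.cont_K' s).pow 2).add (((hs.cont_v' s).pow 3).mul (hs.cont_K' s))
    have i1 := (hs.h0_int (-1) 1).mul_continuousOn c1.continuousOn
    have i2 := c2.intervalIntegrable (μ := volume) (-1) 1
    have i3 : IntervalIntegrable (fun ξ => u s (ξ - s) ^ 3 * H u s ξ) volume (-1) 1 :=
      ((hs.H_int s (-1) 1).continuousOn_mul ((hs.cont_v' s).pow 3).continuousOn)
    rw [← intervalIntegral.integral_add i1 i2, ← intervalIntegral.integral_add hs.h0_sq (i1.add i2)]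
    rw [← intervalIntegral.integral_sub (hs.H_sq s) i3]
    congr 1
    funext ξ
    unfold H
    ring
  have d1 : HasDerivAt (fun s => ∫ ξ in (-1:ℝ)..1, h0 u ξ * (-2 * K u s ξ - u s (ξ - s) ^ 3))
      (∫ ξ in (-1:ℝ)..1, h0 u ξ * (-2 * k u t ξ -
        3 * u t (ξ - t) ^ 2 * (ut u t (ξ - t) - ux u t (ξ - t)))) t := by
    refine hasDerivAt_wint (w := h0 u) (A := fun s ξ => -2 * K u s ξ - u s (ξ - s) ^ 3)
      (A' := fun s ξ => -2 * k u s ξ -
        3 * u s (ξ - s) ^ 2 * (ut u s (ξ - s) - ux u s (ξ - s))) (hs.h0_int _ _)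
      ((continuous_const.mul hs.cont_K).sub (hs.cont_v.pow 3))
      ((continuous_const.mul hs.cont_k).sub ((continuous_const.mul (hs.cont_v.pow 2)).mul
        (hs.cont_vt.sub hs.cont_vx))) ?_ t
    intro s ξ
    have h1 := (hs.K_time s ξ).const_mul (-2)
    have h2 := (has_char hs.smooth s ξ).fun_pow 3
    have h3 := h1.fun_sub h2
    simpa using h3
  have d2 : HasDerivAt (fun s => ∫ ξ in (-1:ℝ)..1, (K u s ξ ^ 2 + u s (ξ - s) ^ 3 * K u s ξ))
      (∫ ξ in (-1:ℝ)..1, (2 * K u t ξ * k u t ξ +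
        (3 * u t (ξ - t) ^ 2 * (ut u t (ξ - t) - ux u t (ξ - t)) * K u t ξ +
          u t (ξ - t) ^ 3 * k u t ξ))) t := by
    refine hasDerivAt_int (A := fun s ξ => K u s ξ ^ 2 + u s (ξ - s) ^ 3 * K u s ξ)
      (A' := fun s ξ => 2 * K u s ξ * k u s ξ +
        (3 * u s (ξ - s) ^ 2 * (ut u s (ξ - s) - ux u s (ξ - s)) * K u s ξ +
          u s (ξ - s) ^ 3 * k u s ξ))
      ((hs.cont_K.pow 2).add ((hs.cont_v.pow 3).mul hs.cont_K))
      (((continuous_const.mul hs.cont_K).mul hs.cont_k).add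
        (((((continuous_const.mul (hs.cont_v.pow 2)).mul
        (hs.cont_vt.sub hs.cont_vx))).mul hs.cont_K).add ((hs.cont_v.pow 3).mul hs.cont_k))) ?_ t
    intro s ξ
    have h1 := (hs.K_time s ξ).fun_pow 2
    have h2 := ((has_char hs.smooth s ξ).fun_pow 3).fun_mul (hs.K_time s ξ)
    have h3 := h1.fun_add h2
    simpa using h3
  rw [eW]
  have h := (hasDerivAt_const t (∫ ξ in (-1:ℝ)..1, h0 u ξ ^ 2)).fun_add (d1.fun_add d2)
  refine h.congr_deriv ?_
  have c1 : Continuous fun ξ => -2 * k u t ξ -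
        3 * u t (ξ - t) ^ 2 * (ut u t (ξ - t) - ux u t (ξ - t)) :=
    (((continuous_const.mul hs.cont_k).sub ((continuous_const.mul (hs.cont_v.pow 2)).mul
        (hs.cont_vt.sub hs.cont_vx))).comp (by fun_prop : Continuous fun x : ℝ => (t, x)))
  have c2 : Continuous fun ξ => (2 * K u t ξ * k u t ξ +
        (3 * u t (ξ - t) ^ 2 * (ut u t (ξ - t) - ux u t (ξ - t)) * K u t ξ +
          u t (ξ - t) ^ 3 * k u t ξ)) :=
    ((((continuous_const.mul hs.cont_K).mul hs.cont_k).add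
        (((((continuous_const.mul (hs.cont_v.pow 2)).mul
        (hs.cont_vt.sub hs.cont_vx))).mul hs.cont_K).add
          ((hs.cont_v.pow 3).mul hs.cont_k))).comp
          (by fun_prop : Continuous fun x : ℝ => (t, x)))
  have i1 := (hs.h0_int (-1) 1).mul_continuousOn c1.continuousOn
  have i2 := c2.intervalIntegrable (μ := volume) (-1) 1
  have i3 : IntervalIntegrable (fun ξ => -3 * (u t (ξ - t) ^ 2 * g u t ξ * H u t ξ))
      volume (-1) 1 :=
    ((hs.H_int t (-1) 1).continuousOn_mul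
      (((hs.cont_v' t).pow 2).mul (hs.cont_g' t)).continuousOn).const_mul (-3)
  have i4 : IntervalIntegrable (fun ξ => 3 * (u t (ξ - t) ^ 5 * ux u t (ξ - t)))
      volume (-1) 1 :=
    (continuous_const.mul (((hs.cont_v' t).pow 5).mul (hs.cont_vx' t))).intervalIntegrable _ _
  rw [← intervalIntegral.integral_add i1 i2, zero_add]
  have e1 : (∫ ξ in (-1:ℝ)..1, (h0 u ξ * (-2 * k u t ξ -
        3 * u t (ξ - t) ^ 2 * (ut u t (ξ - t) - ux u t (ξ - t))) +
        (2 * K u t ξ * k u t ξ +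
        (3 * u t (ξ - t) ^ 2 * (ut u t (ξ - t) - ux u t (ξ - t)) * K u t ξ +
          u t (ξ - t) ^ 3 * k u t ξ)))) =
      ∫ ξ in (-1:ℝ)..1, (-3 * (u t (ξ - t) ^ 2 * g u t ξ * H u t ξ) +
        3 * (u t (ξ - t) ^ 5 * ux u t (ξ - t))) := by
    congr 1
    funext ξ
    unfold H g P k
    ring
  rw [e1, intervalIntegral.integral_add i3 i4, intervalIntegral.integral_const_mul,
    intervalIntegral.integral_const_mul, hs.int_v5vx, hs.int_ibp]
  ring

end Sol

end MPc1e222
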