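import Mathlib
import Pool.Agent.Lib.MP_c1e222_an.D

/-!
General one-dimensional estimates, and the bounds on `u`, `P` used in the growth argument.
-/

namespace MPc1e222

open MeasureTheory intervalIntegral Set Filter Topology

/-- Oscillation bound. -/
theorem osc {F D : ℝ → ℝ} (hF : AbsolutelyContinuousOnInterval F (-1) 1)
    (hD : ∀ᵐ x : ℝ, HasDerivAt F (D x) x) (hi : IntervalIntegrable D volume (-1) 1)
    {x y : ℝ} (hx : x ∈ Icc (-1:ℝ) 1) (hy : y ∈ Icc (-1:ℝ) 1) :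
    |F x - F y| ≤ ∫ z in (-1:ℝ)..1, |D z| := by
  have hsub : uIcc y x ⊆ uIcc (-1:ℝ) 1 := by
    rw [uIcc_of_le (by norm_num : (-1:ℝ) ≤ 1)]
    exact uIcc_subset_Icc hy hx
  have h1 := (hF.mono hsub).integral_deriv_eq_sub
  have h2 : ∫ z in y..x, deriv F z = ∫ z in y..x, D z := by
    apply intervalIntegral.integral_congr_ae
    filter_upwards [hD] with z hz _
    exact hz.deriv
  rw [h2] at h1
  rw [← h1, ← Real.norm_eq_abs]
  refine intervalIntegral.norm_integral_le_abs_integral_norm.trans ?_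
  have hsub' : uIoc y x ⊆ uIoc (-1:ℝ) 1 := by
    rw [uIoc_of_le (by norm_num : (-1:ℝ) ≤ 1)]
    intro z hz
    rw [mem_uIoc] at hz
    rcases hz with hz | hz
    · exact ⟨lt_of_le_of_lt hy.1 hz.1, hz.2.trans hx.2⟩
    · exact ⟨lt_of_le_of_lt hx.1 hz.1, hz.2.trans hy.2⟩
  refine (abs_integral_mono_interval hsub' (Eventually.of_forall fun z => norm_nonneg _)
    hi.norm).trans ?_
  rw [abs_of_nonneg (intervalIntegral.integral_nonneg (by norm_num) fun z _ => norm_nonneg _)]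
  exact le_of_eq rfl

/-- Averaging bound. -/
theorem avg {F : ℝ → ℝ} {M x : ℝ} (hF : IntervalIntegrable F volume (-1) 1)
    (h : ∀ y ∈ Icc (-1:ℝ) 1, |F x - F y| ≤ M) :
    F x ≤ (1 / 2) * (∫ y in (-1:ℝ)..1, F y) + M := by
  have h1 : ∫ _y in (-1:ℝ)..1, (F x - M) ≤ ∫ y in (-1:ℝ)..1, F y := by
    refine intervalIntegral.integral_mono_on (by norm_num) intervalIntegrable_const hF ?_
    intro y hy
    have := (abs_le.mp (h y hy)).2
    linarith
  rw [intervalIntegral.integral_const] at h1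
  norm_num at h1
  linarith

/-- `∫ |D| ≤ 1 + (1/2) ∫ D^2` on `[-1,1]`. -/
theorem int_abs_le {D : ℝ → ℝ} (hi : IntervalIntegrable D volume (-1) 1)
    (h2 : IntervalIntegrable (fun x => D x ^ 2) volume (-1) 1) :
    ∫ z in (-1:ℝ)..1, |D z| ≤ 1 + (1 / 2) * ∫ z in (-1:ℝ)..1, D z ^ 2 := by
  have h1 : ∫ z in (-1:ℝ)..1, |D z| ≤ ∫ z in (-1:ℝ)..1, ((1 / 2 : ℝ) + (1 / 2) * D z ^ 2) := by
    refine intervalIntegral.integral_mono_on (by norm_num) hi.norm
      (intervalIntegrable_const.add (h2.const_mul _)) ?_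
    intro z _
    nlinarith [sq_nonneg (|D z| - 1), sq_abs (D z)]
  rw [intervalIntegral.integral_add intervalIntegrable_const (h2.const_mul _),
    intervalIntegral.integral_const_mul, intervalIntegral.integral_const] at h1
  norm_num at h1
  norm_num
  linarith

variable {u : ℝ → ℝ → ℝ}

namespace Sol

theorem g_sq_eq (hs : Sol u) (t : ℝ) :
    ∫ ξ in (-1:ℝ)..1, g u t ξ ^ 2 = ∫ x in (-1:ℝ)..1, P u t x ^ 2 :=
  per_int (f := fun x => P u t x ^ 2) (fun x => by simp only [hs.P_per]) t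

theorem vx_sq_eq (hs : Sol u) (t : ℝ) :
    ∫ ξ in (-1:ℝ)..1, ux u t (ξ - t) ^ 2 = ∫ x in (-1:ℝ)..1, ux u t x ^ 2 :=
  per_int (f := fun x => ux u t x ^ 2) (fun x => by simp only [hs.ux_per]) t

theorem P_refl (hs : Sol u) (t x : ℝ) : P u t (-x) = - ut u t x + ux u t x := by
  unfold P
  rw [hs.ut_neg, hs.ux_neg]

theorem ux_eq' (hs : Sol u) (t x : ℝ) : ux u t x = (1 / 2) * (P u t x + P u t (-x)) := by
  rw [hs.P_refl]
  unfold P
  ring

theorem ut_eq' (hs : Sol u) (t x : ℝ) : ut u t x = (1 / 2) * (P u t x - P u t (-x)) := by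
  rw [hs.P_refl]
  unfold P
  ring

theorem cont_Pneg (hs : Sol u) (t : ℝ) : Continuous (fun x => P u t (-x)) :=
  (hs.cont_P' t).comp continuous_neg

theorem ux_sq_le (hs : Sol u) (t : ℝ) :
    ∫ x in (-1:ℝ)..1, ux u t x ^ 2 ≤ ∫ x in (-1:ℝ)..1, P u t x ^ 2 := by
  have h1 : ∫ x in (-1:ℝ)..1, ux u t x ^ 2 ≤
      ∫ x in (-1:ℝ)..1, ((1 / 2) * P u t x ^ 2 + (1 / 2) * P u t (-x) ^ 2) := by
    refine intervalIntegral.integral_mono_on (by norm_num)
      (((hs.cont_ux' t).pow 2).intervalIntegrable _ _)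
      (((continuous_const.mul ((hs.cont_P' t).pow 2)).add
        (continuous_const.mul ((hs.cont_Pneg t).pow 2))).intervalIntegrable _ _) ?_
    intro x _
    rw [hs.ux_eq']
    nlinarith [sq_nonneg (P u t x - P u t (-x))]
  have j1 : IntervalIntegrable (fun x => 1 / 2 * P u t x ^ 2) volume (-1) 1 :=
    (continuous_const.mul ((hs.cont_P' t).pow 2)).intervalIntegrable _ _
  have j2 : IntervalIntegrable (fun x => 1 / 2 * P u t (-x) ^ 2) volume (-1) 1 :=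
    (continuous_const.mul ((hs.cont_Pneg t).pow 2)).intervalIntegrable _ _
  rw [intervalIntegral.integral_add j1 j2,
    intervalIntegral.integral_const_mul, intervalIntegral.integral_const_mul] at h1
  have h2 := refl_int (fun x => P u t x ^ 2)
  rw [h2] at h1
  linarith

/-- Pointwise bound for `u` on `[-1,1]`. -/
theorem u_le_aux (hs : Sol u) (t : ℝ) {x : ℝ} (hx : x ∈ Icc (-1:ℝ) 1) :
    |u t x| ≤ 1 + (1 / 2) * ∫ x in (-1:ℝ)..1, ux u t x ^ 2 := by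
  have hac : AbsolutelyContinuousOnInterval (u t) (-1) 1 := by
    have : ContDiff ℝ 1 (u t) :=
      hs.smooth.comp (contDiff_const.prodMk contDiff_id : ContDiff ℝ 1 (fun ξ : ℝ => (t, ξ)))
    exact this.contDiffOn.absolutelyContinuousOnInterval
  have h1 := osc hac (Eventually.of_forall fun x => has_ux hs.smooth t x)
    ((hs.cont_ux' t).intervalIntegrable _ _) hx (y := 0) (by norm_num)
  rw [hs.u_zero, sub_zero] at h1
  exact h1.trans (int_abs_le ((hs.cont_ux' t).intervalIntegrable _ _)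
    (((hs.cont_ux' t).pow 2).intervalIntegrable _ _))

theorem exists_rep {f : ℝ → ℝ} (hf : ∀ x, f (x + 2) = f x) (x : ℝ) :
    ∃ y ∈ Icc (-1:ℝ) 1, f x = f y := by
  have hp : Function.Periodic f 2 := hf
  obtain ⟨y, hy, h⟩ := hp.exists_mem_Ico (by norm_num : (0:ℝ) < 2) x (-1)
  refine ⟨y, ⟨hy.1, ?_⟩, h⟩
  have := hy.2
  norm_num at this
  exact this.le

theorem u_le (hs : Sol u) (t x : ℝ) :
    |u t x| ≤ 1 + (1 / 2) * ∫ x in (-1:ℝ)..1, ux u t x ^ 2 := by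
  obtain ⟨y, hy, h⟩ := exists_rep (hs.per t) x
  rw [h]
  exact hs.u_le_aux t hy

theorem int_u4_nonneg (t : ℝ) : 0 ≤ ∫ x in (-1:ℝ)..1, u t x ^ 4 :=
  intervalIntegral.integral_nonneg (by norm_num) fun x _ => by positivity

theorem P_sq_le (hs : Sol u) {E : ℝ} (hE : En u 0 ≤ E) (t : ℝ) :
    ∫ x in (-1:ℝ)..1, P u t x ^ 2 ≤ E := by
  have h1 := hs.En_const t
  have h2 : 0 ≤ ∫ x in (-1:ℝ)..1, u t x ^ 4 := int_u4_nonneg t
  unfold En at h1 hE
  rw [← hs.g_sq_eq]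
  linarith

theorem g_sq_le (hs : Sol u) {E : ℝ} (hE : En u 0 ≤ E) (t : ℝ) :
    ∫ ξ in (-1:ℝ)..1, g u t ξ ^ 2 ≤ E := by
  rw [hs.g_sq_eq]
  exact hs.P_sq_le hE t

theorem vx_sq_le (hs : Sol u) {E : ℝ} (hE : En u 0 ≤ E) (t : ℝ) :
    ∫ ξ in (-1:ℝ)..1, ux u t (ξ - t) ^ 2 ≤ E := by
  rw [hs.vx_sq_eq]
  exact (hs.ux_sq_le t).trans (hs.P_sq_le hE t)

theorem u_bound (hs : Sol u) {E : ℝ} (hE : En u 0 ≤ E) (t x : ℝ) :
    |u t x| ≤ 1 + E / 2 := by
  have h1 := hs.u_le t x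
  have h2 := (hs.ux_sq_le t).trans (hs.P_sq_le hE t)
  linarith

theorem E_nonneg (hs : Sol u) {E : ℝ} (hE : En u 0 ≤ E) : 0 ≤ E :=
  le_trans (intervalIntegral.integral_nonneg (by norm_num) fun x _ => sq_nonneg _)
    (hs.g_sq_le hE 0)

/-- Pointwise bound of `g` on one period. -/
theorem g_pt_aux (hs : Sol u) {E : ℝ} (hE : En u 0 ≤ E) (t : ℝ) {q : ℝ} (hq : 1 ≤ q)
    (hY : ∫ ξ in (-1:ℝ)..1, H u t ξ ^ 2 ≤ q ^ 4) {x : ℝ} (hx : x ∈ Icc (-1:ℝ) 1) :
    g u t x ^ 2 ≤ (3 / 2 * E + 1) * q ^ 2 := by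
  have hq2 : 0 < q ^ 2 := by positivity
  have hg := hs.g_ac t (-1) 1
  have hF := hg.fun_mul hg
  have hD : ∀ᵐ z : ℝ, HasDerivAt (fun z => g u t z * g u t z)
      (2 * (g u t z * H u t z)) z := by
    filter_upwards [hs.g_space t] with z hz
    refine (hz.fun_mul hz).congr_deriv ?_
    ring
  have hi : IntervalIntegrable (fun z => 2 * (g u t z * H u t z)) volume (-1) 1 :=
    ((hs.H_int t (-1) 1).continuousOn_mul (hs.cont_g' t).continuousOn).const_mul 2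
  have i1 : IntervalIntegrable (fun z => q ^ 2 * g u t z ^ 2) volume (-1) 1 :=
    (continuous_const.mul ((hs.cont_g' t).pow 2)).intervalIntegrable _ _
  have i2 : IntervalIntegrable (fun z => (q ^ 2)⁻¹ * H u t z ^ 2) volume (-1) 1 :=
    (hs.H_sq t).const_mul _
  have hM : ∫ z in (-1:ℝ)..1, |2 * (g u t z * H u t z)| ≤ (E + 1) * q ^ 2 := by
    have h1 : ∫ z in (-1:ℝ)..1, |2 * (g u t z * H u t z)| ≤
        ∫ z in (-1:ℝ)..1, (q ^ 2 * g u t z ^ 2 + (q ^ 2)⁻¹ * H u t z ^ 2) := by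
      refine intervalIntegral.integral_mono_on (by norm_num) hi.norm (i1.add i2) ?_
      intro z _
      rw [abs_mul, abs_of_pos (by norm_num : (0:ℝ) < 2), abs_mul]
      have h2 : 0 ≤ (q * |g u t z| - q⁻¹ * |H u t z|) ^ 2 := sq_nonneg _
      have h3 : q * q⁻¹ = 1 := mul_inv_cancel₀ (by positivity)
      have h4 : (q * |g u t z| - q⁻¹ * |H u t z|) ^ 2 =
          q ^ 2 * g u t z ^ 2 - 2 * (q * q⁻¹) * (|g u t z| * |H u t z|) +
            (q ^ 2)⁻¹ * H u t z ^ 2 := by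
        rw [← sq_abs (g u t z), ← sq_abs (H u t z)]
        ring
      rw [h4, h3] at h2
      linarith
    rw [intervalIntegral.integral_add i1 i2, intervalIntegral.integral_const_mul,
      intervalIntegral.integral_const_mul] at h1
    have h5 : q ^ 2 * ∫ ξ in (-1:ℝ)..1, g u t ξ ^ 2 ≤ q ^ 2 * E :=
      mul_le_mul_of_nonneg_left (hs.g_sq_le hE t) hq2.le
    have h6 : (q ^ 2)⁻¹ * ∫ ξ in (-1:ℝ)..1, H u t ξ ^ 2 ≤ (q ^ 2)⁻¹ * q ^ 4 :=
      mul_le_mul_of_nonneg_left hY (by positivity)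
    have h7 : (q ^ 2)⁻¹ * q ^ 4 = q ^ 2 := by
      field_simp
    rw [h7] at h6
    linarith
  have h8 := avg (x := x) (F := fun z => g u t z * g u t z)
    (((hs.cont_g' t).mul (hs.cont_g' t)).intervalIntegrable _ _)
    (fun y hy => (osc hF hD hi hx hy).trans hM)
  have h9 : (∫ y in (-1:ℝ)..1, g u t y * g u t y) = ∫ y in (-1:ℝ)..1, g u t y ^ 2 := by
    congr 1
    funext y
    ring
  rw [h9] at h8
  have h10 := hs.g_sq_le hE t
  have h11 : 1 ≤ q ^ 2 := by nlinarith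
  have hEn := hs.E_nonneg hE
  nlinarith

theorem g_pt (hs : Sol u) {E : ℝ} (hE : En u 0 ≤ E) (t : ℝ) {q : ℝ} (hq : 1 ≤ q)
    (hY : ∫ ξ in (-1:ℝ)..1, H u t ξ ^ 2 ≤ q ^ 4) (x : ℝ) :
    |g u t x| ≤ (3 / 2 * E + 1) * q := by
  obtain ⟨y, hy, h⟩ := exists_rep (hs.g_per t) x
  rw [h]
  have h1 := hs.g_pt_aux hE t hq hY hy
  have hEn := hs.E_nonneg hE
  refine abs_le_of_sq_le_sq ?_ (by positivity)
  refine h1.trans ?_
  rw [mul_pow]
  refine mul_le_mul_of_nonneg_right ?_ (by positivity)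
  nlinarith

/-! The second-order energy. -/

theorem v3H_int (hs : Sol u) (t : ℝ) :
    IntervalIntegrable (fun ξ => u t (ξ - t) ^ 3 * H u t ξ) volume (-1) 1 :=
  (hs.H_int t (-1) 1).continuousOn_mul ((hs.cont_v' t).pow 3).continuousOn

theorem v6_le (hs : Sol u) {E : ℝ} (hE : En u 0 ≤ E) (t : ℝ) :
    ∫ ξ in (-1:ℝ)..1, u t (ξ - t) ^ 6 ≤ 2 * (1 + E / 2) ^ 6 := by
  have h1 : ∫ ξ in (-1:ℝ)..1, u t (ξ - t) ^ 6 ≤ ∫ _ξ in (-1:ℝ)..1, (1 + E / 2) ^ 6 := by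
    refine intervalIntegral.integral_mono_on (by norm_num)
      (((hs.cont_v' t).pow 6).intervalIntegrable _ _) intervalIntegrable_const ?_
    intro ξ _
    have h2 := hs.u_bound hE t (ξ - t)
    calc u t (ξ - t) ^ 6 = |u t (ξ - t)| ^ 6 := by
          rw [show (6:ℕ) = 2 * 3 by norm_num, pow_mul, pow_mul, sq_abs]
      _ ≤ (1 + E / 2) ^ 6 := pow_le_pow_left₀ (abs_nonneg _) h2 6
  rw [intervalIntegral.integral_const] at h1
  norm_num at h1
  linarith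

theorem H_sq_le (hs : Sol u) {E : ℝ} (hE : En u 0 ≤ E) (t : ℝ) :
    ∫ ξ in (-1:ℝ)..1, H u t ξ ^ 2 ≤ 2 * W u t + 2 * (1 + E / 2) ^ 6 := by
  have i1 := hs.H_sq t
  have i2 := hs.v3H_int t
  have i3 : IntervalIntegrable (fun ξ => u t (ξ - t) ^ 6) volume (-1) 1 :=
    ((hs.cont_v' t).pow 6).intervalIntegrable _ _
  have h1 : ∫ ξ in (-1:ℝ)..1, H u t ξ ^ 2 ≤
      ∫ ξ in (-1:ℝ)..1, (2 * (H u t ξ ^ 2 - u t (ξ - t) ^ 3 * H u t ξ) + u t (ξ - t) ^ 6) := by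
    refine intervalIntegral.integral_mono_on (by norm_num) i1
      (((i1.sub i2).const_mul 2).add i3) ?_
    intro ξ _
    nlinarith [sq_nonneg (H u t ξ - u t (ξ - t) ^ 3)]
  rw [intervalIntegral.integral_add ((i1.sub i2).const_mul 2) i3,
    intervalIntegral.integral_const_mul, intervalIntegral.integral_sub i1 i2] at h1
  have h2 := hs.v6_le hE t
  unfold W
  linarith

theorem W_le (hs : Sol u) {E : ℝ} (hE : En u 0 ≤ E) (t : ℝ) :
    W u t ≤ 3 / 2 * (∫ ξ in (-1:ℝ)..1, H u t ξ ^ 2) + (1 + E / 2) ^ 6 := by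
  have i1 := hs.H_sq t
  have i2 := hs.v3H_int t
  have i3 : IntervalIntegrable (fun ξ => u t (ξ - t) ^ 6) volume (-1) 1 :=
    ((hs.cont_v' t).pow 6).intervalIntegrable _ _
  have h1 : ∫ ξ in (-1:ℝ)..1, (H u t ξ ^ 2 - u t (ξ - t) ^ 3 * H u t ξ) ≤
      ∫ ξ in (-1:ℝ)..1, (3 / 2 * H u t ξ ^ 2 + 1 / 2 * u t (ξ - t) ^ 6) := by
    refine intervalIntegral.integral_mono_on (by norm_num) (i1.sub i2)
      ((i1.const_mul _).add (i3.const_mul _)) ?_
    intro ξ _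
    nlinarith [sq_nonneg (H u t ξ + u t (ξ - t) ^ 3)]
  rw [intervalIntegral.integral_add (i1.const_mul _) (i3.const_mul _),
    intervalIntegral.integral_const_mul, intervalIntegral.integral_const_mul,
    intervalIntegral.integral_sub i1 i2] at h1
  have h2 := hs.v6_le hE t
  unfold W
  linarith

/-- The growth rate. -/
theorem W'_le (hs : Sol u) {E : ℝ} (hE : En u 0 ≤ E) (t : ℝ) {q : ℝ} (hq : 1 ≤ q)
    (hY : ∫ ξ in (-1:ℝ)..1, H u t ξ ^ 2 ≤ q ^ 4) :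
    |∫ ξ in (-1:ℝ)..1, u t (ξ - t) * ux u t (ξ - t) * g u t ξ ^ 2| ≤
      (1 + E / 2) * (3 / 2 * E + 1) * E * q := by
  have hEn := hs.E_nonneg hE
  have i1 : IntervalIntegrable (fun z => 1 / 2 * ux u t (z - t) ^ 2) volume (-1) 1 :=
    (continuous_const.mul ((hs.cont_vx' t).pow 2)).intervalIntegrable _ _
  have i2 : IntervalIntegrable (fun z => 1 / 2 * g u t z ^ 2) volume (-1) 1 :=
    (continuous_const.mul ((hs.cont_g' t).pow 2)).intervalIntegrable _ _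
  rw [← Real.norm_eq_abs]
  refine (intervalIntegral.norm_integral_le_integral_norm (by norm_num)).trans ?_
  have h1 : ∫ ξ in (-1:ℝ)..1, ‖u t (ξ - t) * ux u t (ξ - t) * g u t ξ ^ 2‖ ≤
      ∫ ξ in (-1:ℝ)..1, ((1 + E / 2) * ((3 / 2 * E + 1) * q)) *
        (1 / 2 * ux u t (ξ - t) ^ 2 + 1 / 2 * g u t ξ ^ 2) := by
    refine intervalIntegral.integral_mono_on (by norm_num)
      ((((hs.cont_v' t).mul (hs.cont_vx' t)).mul
        ((hs.cont_g' t).pow 2)).norm.intervalIntegrable _ _) ((i1.add i2).const_mul _) ?_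
    intro ξ _
    have h2 := hs.u_bound hE t (ξ - t)
    have h3 := hs.g_pt hE t hq hY ξ
    rw [Real.norm_eq_abs, abs_mul, abs_mul, abs_of_nonneg (sq_nonneg (g u t ξ))]
    have h4 : |ux u t (ξ - t)| * |g u t ξ| ≤ 1 / 2 * ux u t (ξ - t) ^ 2 + 1 / 2 * g u t ξ ^ 2 := by
      rw [← sq_abs (ux u t (ξ - t)), ← sq_abs (g u t ξ)]
      nlinarith [sq_nonneg (|ux u t (ξ - t)| - |g u t ξ|)]
    calc |u t (ξ - t)| * |ux u t (ξ - t)| * g u t ξ ^ 2
        = (|u t (ξ - t)| * |g u t ξ|) * (|ux u t (ξ - t)| * |g u t ξ|) := by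
          rw [← sq_abs (g u t ξ)]
          ring
      _ ≤ ((1 + E / 2) * ((3 / 2 * E + 1) * q)) *
          (1 / 2 * ux u t (ξ - t) ^ 2 + 1 / 2 * g u t ξ ^ 2) := by
          gcongr
  refine h1.trans ?_
  rw [intervalIntegral.integral_const_mul, intervalIntegral.integral_add i1 i2,
    intervalIntegral.integral_const_mul, intervalIntegral.integral_const_mul]
  have h5 := hs.vx_sq_le hE t
  have h6 := hs.g_sq_le hE t
  have h7 : 0 ≤ (1 + E / 2) * ((3 / 2 * E + 1) * q) := by positivity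
  calc _ ≤ ((1 + E / 2) * ((3 / 2 * E + 1) * q)) * E := by
        refine mul_le_mul_of_nonneg_left ?_ h7
        linarith
    _ = _ := by ring

/-- Growth of the second-order quantity. -/
theorem H_growth (hs : Sol u) {E Y0 : ℝ} (hE : En u 0 ≤ E)
    (hY0 : ∫ ξ in (-1:ℝ)..1, H u 0 ξ ^ 2 ≤ Y0) (t : ℝ) :
    ∫ ξ in (-1:ℝ)..1, H u t ξ ^ 2 ≤
      ((3 * Y0 + 4 * (1 + E / 2) ^ 6 + 1) ^ ((3:ℝ) / 4) +
        6 * ((1 + E / 2) * (3 / 2 * E + 1) * E) * |t|) ^ ((4:ℝ) / 3) := by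
  have hEn := hs.E_nonneg hE
  set F : ℝ → ℝ := fun s => 2 * W u s + 2 * (1 + E / 2) ^ 6 + 1 with hF
  have hHF : ∀ s, ∫ ξ in (-1:ℝ)..1, H u s ξ ^ 2 ≤ F s := by
    intro s
    have := hs.H_sq_le hE s
    simp only [hF]
    linarith
  have h1F : ∀ s, 1 ≤ F s := by
    intro s
    have h1 := hs.H_sq_le hE s
    have h2 : 0 ≤ ∫ ξ in (-1:ℝ)..1, H u s ξ ^ 2 :=
      intervalIntegral.integral_nonneg (by norm_num) fun x _ => sq_nonneg _
    simp only [hF]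
    linarith
  have hd : ∀ s, HasDerivAt F
      (6 * ∫ ξ in (-1:ℝ)..1, u s (ξ - s) * ux u s (ξ - s) * g u s ξ ^ 2) s := by
    intro s
    have h := (((hs.W_deriv s).const_mul 2).add_const (2 * (1 + E / 2) ^ 6)).add_const 1
    refine h.congr_deriv ?_
    ring
  have hb : ∀ s, |6 * ∫ ξ in (-1:ℝ)..1, u s (ξ - s) * ux u s (ξ - s) * g u s ξ ^ 2| ≤
      6 * ((1 + E / 2) * (3 / 2 * E + 1) * E) * (F s) ^ ((1:ℝ) / 4) := by
    intro s
    have hpos : 0 < F s := lt_of_lt_of_le one_pos (h1F s)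
    have hq : 1 ≤ (F s) ^ ((1:ℝ) / 4) := Real.one_le_rpow (h1F s) (by norm_num)
    have hq4 : ((F s) ^ ((1:ℝ) / 4)) ^ 4 = F s := by
      rw [← Real.rpow_natCast, ← Real.rpow_mul hpos.le]
      norm_num
    have h := hs.W'_le hE s hq (by rw [hq4]; exact hHF s)
    rw [abs_mul, abs_of_pos (by norm_num : (0:ℝ) < 6)]
    linarith
  have hg := growth hd h1F hb t
  refine (hHF t).trans (hg.trans ?_)
  have h0 : F 0 ≤ 3 * Y0 + 4 * (1 + E / 2) ^ 6 + 1 := by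
    have := hs.W_le hE 0
    simp only [hF]
    linarith
  have hF0 : 0 ≤ F 0 := le_trans zero_le_one (h1F 0)
  refine Real.rpow_le_rpow (by positivity) ?_ (by norm_num)
  have := Real.rpow_le_rpow hF0 h0 (by norm_num : (0:ℝ) ≤ 3 / 4)
  linarith

end Sol

end MPc1e222
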