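import Mathlib
import Pool.Agent.Lib.MP_c1e222_an.E

/-!
The `V`-norm, its relation to the second-order quantity, and the main growth bound.
-/

namespace MPc1e222

open MeasureTheory intervalIntegral Set Filter Topology

/-- The square of the norm of `(u(t,·), u_t(t,·))` in `H^2(0,1) × H^1(0,1)`. -/
noncomputable def VnormSq (u : ℝ → ℝ → ℝ) (t : ℝ) : ℝ :=
  ∫ x in (0:ℝ)..1, (u t x ^ 2 + ux u t x ^ 2 + deriv (ux u t) x ^ 2 +
    (ut u t x ^ 2 + deriv (ut u t) x ^ 2))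

/-- The norm of `(u(t,·), u_t(t,·))` in `H^2(0,1) × H^1(0,1)`. -/
noncomputable def Vnorm (u : ℝ → ℝ → ℝ) (t : ℝ) : ℝ := Real.sqrt (VnormSq u t)

theorem ac_of_int {f D : ℝ → ℝ} (hD : ∀ a b, IntervalIntegrable D volume a b)
    (h : ∀ x, f x = f 0 + ∫ y in (0:ℝ)..x, D y) (a b : ℝ) :
    AbsolutelyContinuousOnInterval f a b := by
  set M := max |a| |b| with hM
  have hM0 : 0 ≤ M := le_trans (abs_nonneg a) (le_max_left _ _)
  have e1 : uIcc (-M) M = Icc (-M) M := uIcc_of_le (by linarith)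
  have h1 : AbsolutelyContinuousOnInterval (fun x => ∫ y in (0:ℝ)..x, D y) (-M) M :=
    (hD (-M) M).absolutelyContinuousOnInterval_intervalIntegral (by
      rw [e1]
      exact ⟨by linarith, hM0⟩)
  have h2 : AbsolutelyContinuousOnInterval (fun _ : ℝ => f 0) (-M) M :=
    (contDiff_const.contDiffOn).absolutelyContinuousOnInterval
  have h3 := h2.fun_add h1
  have e2 : f = fun x => f 0 + ∫ y in (0:ℝ)..x, D y := funext h
  rw [e2]
  refine AbsolutelyContinuousOnInterval.mono h3 ?_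
  rw [e1]
  refine uIcc_subset_Icc ⟨?_, ?_⟩ ⟨?_, ?_⟩
  · have := neg_abs_le a
    have := le_max_left |a| |b|
    linarith
  · exact (le_abs_self a).trans (le_max_left _ _)
  · have := neg_abs_le b
    have := le_max_right |a| |b|
    linarith
  · exact (le_abs_self b).trans (le_max_right _ _)

variable {u : ℝ → ℝ → ℝ}

namespace Sol

theorem H_sq_all (hs : Sol u) (t a b : ℝ) :
    IntervalIntegrable (fun ξ => H u t ξ ^ 2) volume a b := by
  have hp : Function.Periodic (fun ξ => H u t ξ ^ 2) 2 := by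
    intro ξ
    simp only [hs.H_per_ae]
  refine hp.intervalIntegrable (t := -1) (by norm_num) ?_ a b
  norm_num
  exact hs.H_sq t

theorem g_diff (hs : Sol u) (t a b : ℝ) : ∫ ξ in a..b, H u t ξ = g u t b - g u t a := by
  rw [← (hs.g_ac t a b).integral_deriv_eq_sub]
  apply intervalIntegral.integral_congr_ae
  filter_upwards [hs.H_ae t] with ξ hξ _
  exact hξ

theorem Hp_int (hs : Sol u) (t a b : ℝ) :
    IntervalIntegrable (fun x => H u t (x + t)) volume a b := by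
  have h := (hs.H_int t (a + t) (b + t)).comp_add_right t
  simpa using h

theorem Hm_int (hs : Sol u) (t a b : ℝ) :
    IntervalIntegrable (fun x => H u t (t - x)) volume a b := by
  have h := (hs.H_int t (t - a) (t - b)).comp_sub_left t
  simpa using h

theorem Hp_sq (hs : Sol u) (t a b : ℝ) :
    IntervalIntegrable (fun x => H u t (x + t) ^ 2) volume a b := by
  have h := (hs.H_sq_all t (a + t) (b + t)).comp_add_right t
  simpa using h

theorem Hm_sq (hs : Sol u) (t a b : ℝ) :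
    IntervalIntegrable (fun x => H u t (t - x) ^ 2) volume a b := by
  have h := (hs.H_sq_all t (t - a) (t - b)).comp_sub_left t
  simpa using h

theorem P_g (t x : ℝ) : P u t x = g u t (x + t) := by
  unfold g
  congr 1
  ring

theorem Pneg_g (t x : ℝ) : P u t (-x) = g u t (t - x) := by
  unfold g
  congr 1
  ring

theorem P_rep (hs : Sol u) (t x : ℝ) :
    P u t x = P u t 0 + ∫ y in (0:ℝ)..x, H u t (y + t) := by
  have h1 : ∫ y in (0:ℝ)..x, H u t (y + t) = ∫ y in (0 + t)..(x + t), H u t y :=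
    intervalIntegral.integral_comp_add_right (H u t) t
  rw [h1, hs.g_diff, P_g, P_g]
  ring

theorem Pneg_rep (hs : Sol u) (t x : ℝ) :
    P u t (-x) = P u t 0 - ∫ y in (0:ℝ)..x, H u t (t - y) := by
  have h1 : ∫ y in (0:ℝ)..x, H u t (t - y) = ∫ y in (t - x)..(t - 0), H u t y :=
    intervalIntegral.integral_comp_sub_left (H u t) t
  have h2 : P u t 0 = g u t (t - 0) := by
    have := Pneg_g (u := u) t 0
    rwa [neg_zero] at this
  rw [h1, hs.g_diff, h2, Pneg_g]
  ring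

theorem ux_ac (hs : Sol u) (t a b : ℝ) : AbsolutelyContinuousOnInterval (ux u t) a b := by
  refine ac_of_int (D := fun y => 1 / 2 * H u t (y + t) - 1 / 2 * H u t (t - y))
    (fun a b => ((hs.Hp_int t a b).const_mul _).sub ((hs.Hm_int t a b).const_mul _)) ?_ a b
  intro x
  rw [intervalIntegral.integral_sub ((hs.Hp_int t 0 x).const_mul _)
    ((hs.Hm_int t 0 x).const_mul _), intervalIntegral.integral_const_mul,
    intervalIntegral.integral_const_mul, hs.ux_eq', hs.ux_eq' t 0, hs.P_rep t x, hs.Pneg_rep t x,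
    neg_zero]
  ring

theorem ut_ac (hs : Sol u) (t a b : ℝ) : AbsolutelyContinuousOnInterval (ut u t) a b := by
  refine ac_of_int (D := fun y => 1 / 2 * H u t (y + t) + 1 / 2 * H u t (t - y))
    (fun a b => ((hs.Hp_int t a b).const_mul _).add ((hs.Hm_int t a b).const_mul _)) ?_ a b
  intro x
  rw [intervalIntegral.integral_add ((hs.Hp_int t 0 x).const_mul _)
    ((hs.Hm_int t 0 x).const_mul _), intervalIntegral.integral_const_mul,
    intervalIntegral.integral_const_mul, hs.ut_eq', hs.ut_eq' t 0, hs.P_rep t x, hs.Pneg_rep t x,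
    neg_zero]
  ring

theorem P_deriv_ae (hs : Sol u) (t : ℝ) : ∀ᵐ x : ℝ, HasDerivAt (P u t) (H u t (x + t)) x := by
  have h := (measurePreserving_add_right volume t).quasiMeasurePreserving.ae (hs.g_space t)
  filter_upwards [h] with x hx
  have e : P u t = fun x => g u t (x + t) := funext fun x => P_g t x
  rw [e]
  exact hx.comp_add_const x t

theorem Pneg_deriv_ae (hs : Sol u) (t : ℝ) :
    ∀ᵐ x : ℝ, HasDerivAt (fun x => P u t (-x)) (-H u t (t - x)) x := by
  have h := (volume.measurePreserving_sub_left t).quasiMeasurePreserving.ae (hs.g_space t)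
  filter_upwards [h] with x hx
  have e : (fun x => P u t (-x)) = fun x => g u t (t - x) := funext fun x => Pneg_g t x
  rw [e]
  exact hx.comp_const_sub t x

theorem ux_deriv_ae (hs : Sol u) (t : ℝ) :
    ∀ᵐ x : ℝ, deriv (ux u t) x = 1 / 2 * (H u t (x + t) - H u t (t - x)) := by
  filter_upwards [hs.P_deriv_ae t, hs.Pneg_deriv_ae t] with x h1 h2
  have e : ux u t = fun x => 1 / 2 * (P u t x + P u t (-x)) := funext fun x => hs.ux_eq' t x
  have h := (h1.fun_add h2).const_mul (1 / 2)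
  rw [e, h.deriv]
  ring

theorem ut_deriv_ae (hs : Sol u) (t : ℝ) :
    ∀ᵐ x : ℝ, deriv (ut u t) x = 1 / 2 * (H u t (x + t) + H u t (t - x)) := by
  filter_upwards [hs.P_deriv_ae t, hs.Pneg_deriv_ae t] with x h1 h2
  have e : ut u t = fun x => 1 / 2 * (P u t x - P u t (-x)) := funext fun x => hs.ut_eq' t x
  have h := (h1.fun_sub h2).const_mul (1 / 2)
  rw [e, h.deriv]
  ring

theorem uxx_sq (hs : Sol u) (t a b : ℝ) :
    IntervalIntegrable (fun x => deriv (ux u t) x ^ 2) volume a b := by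
  have hb := ((hs.Hp_sq t a b).const_mul (1 / 2)).add ((hs.Hm_sq t a b).const_mul (1 / 2))
  refine hb.mono_fun ((measurable_deriv _).pow_const 2).aestronglyMeasurable ?_
  refine ae_restrict_of_ae ?_
  filter_upwards [hs.ux_deriv_ae t] with x hx
  rw [hx, Real.norm_eq_abs, Real.norm_eq_abs, abs_of_nonneg (sq_nonneg _),
    abs_of_nonneg (by positivity)]
  nlinarith [sq_nonneg (H u t (x + t) + H u t (t - x))]

theorem utx_sq (hs : Sol u) (t a b : ℝ) :
    IntervalIntegrable (fun x => deriv (ut u t) x ^ 2) volume a b := by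
  have hb := ((hs.Hp_sq t a b).const_mul (1 / 2)).add ((hs.Hm_sq t a b).const_mul (1 / 2))
  refine hb.mono_fun ((measurable_deriv _).pow_const 2).aestronglyMeasurable ?_
  refine ae_restrict_of_ae ?_
  filter_upwards [hs.ut_deriv_ae t] with x hx
  rw [hx, Real.norm_eq_abs, Real.norm_eq_abs, abs_of_nonneg (sq_nonneg _),
    abs_of_nonneg (by positivity)]
  nlinarith [sq_nonneg (H u t (x + t) - H u t (t - x))]

/-- The second-order part of the norm. -/
theorem second_eq (hs : Sol u) (t : ℝ) :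
    ∫ x in (-1:ℝ)..1, (deriv (ux u t) x ^ 2 + deriv (ut u t) x ^ 2) =
      ∫ ξ in (-1:ℝ)..1, H u t ξ ^ 2 := by
  have h1 : ∫ x in (-1:ℝ)..1, (deriv (ux u t) x ^ 2 + deriv (ut u t) x ^ 2) =
      ∫ x in (-1:ℝ)..1, (1 / 2 * H u t (x + t) ^ 2 + 1 / 2 * H u t (t - x) ^ 2) := by
    apply intervalIntegral.integral_congr_ae
    filter_upwards [hs.ux_deriv_ae t, hs.ut_deriv_ae t] with x h2 h3 _
    rw [h2, h3]
    ring
  have hp : ∀ ξ, H u t (ξ + 2) ^ 2 = H u t ξ ^ 2 := fun ξ => by rw [hs.H_per_ae]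
  have h2 : ∫ x in (-1:ℝ)..1, H u t (x + t) ^ 2 = ∫ x in (-1:ℝ)..1, H u t x ^ 2 := by
    have := per_int (f := fun ξ => H u t ξ ^ 2) hp (-t)
    simpa using this
  have h3 : ∫ x in (-1:ℝ)..1, H u t (t - x) ^ 2 = ∫ x in (-1:ℝ)..1, H u t (x + t) ^ 2 := by
    have := refl_int (fun x => H u t (x + t) ^ 2)
    rw [← this]
    congr 1
    funext x
    rw [show -x + t = t - x by ring]
  rw [h1, intervalIntegral.integral_add ((hs.Hp_sq t _ _).const_mul _)
    ((hs.Hm_sq t _ _).const_mul _), intervalIntegral.integral_const_mul,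
    intervalIntegral.integral_const_mul, h3, h2]
  ring

/-! Evenness of the integrand of `VnormSq`. -/

theorem uxx_neg (hs : Sol u) (t x : ℝ) : deriv (ux u t) (-x) = - deriv (ux u t) x := by
  have e : ux u t = fun x => ux u t (-x) := funext fun x => (hs.ux_neg t x).symm
  have h : deriv (ux u t) x = - deriv (ux u t) (-x) := by
    conv_lhs => rw [e]
    rw [deriv_comp_neg]
  linarith

theorem utx_neg (hs : Sol u) (t x : ℝ) : deriv (ut u t) (-x) = deriv (ut u t) x := by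
  have e : ut u t = fun x => - ut u t (-x) := by
    funext x
    rw [hs.ut_neg, neg_neg]
  have h : deriv (ut u t) x = deriv (ut u t) (-x) := by
    conv_lhs => rw [e]
    rw [deriv.fun_neg, deriv_comp_neg, neg_neg]
  exact h.symm

/-- Twice the square of the norm is the integral over a full period. -/
theorem two_V (hs : Sol u) (t : ℝ) :
    2 * VnormSq u t = (∫ x in (-1:ℝ)..1, u t x ^ 2) + (∫ x in (-1:ℝ)..1, ux u t x ^ 2) +
      (∫ x in (-1:ℝ)..1, ut u t x ^ 2) + ∫ ξ in (-1:ℝ)..1, H u t ξ ^ 2 := by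
  set S : ℝ → ℝ := fun x => (u t x ^ 2 + ux u t x ^ 2 + deriv (ux u t) x ^ 2 +
    (ut u t x ^ 2 + deriv (ut u t) x ^ 2)) with hS
  have i1 : ∀ a b, IntervalIntegrable (fun x => u t x ^ 2) volume a b := fun a b =>
    ((hs.cont_u' t).pow 2).intervalIntegrable a b
  have i2 : ∀ a b, IntervalIntegrable (fun x => ux u t x ^ 2) volume a b := fun a b =>
    ((hs.cont_ux' t).pow 2).intervalIntegrable a b
  have i3 : ∀ a b, IntervalIntegrable (fun x => ut u t x ^ 2) volume a b := fun a b =>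
    ((hs.cont_ut' t).pow 2).intervalIntegrable a b
  have iS : ∀ a b, IntervalIntegrable S volume a b := fun a b =>
    (((i1 a b).add (i2 a b)).add (hs.uxx_sq t a b)).add ((i3 a b).add (hs.utx_sq t a b))
  have hSe : ∀ x, S (-x) = S x := by
    intro x
    simp only [hS]
    rw [hs.odd, hs.ux_neg, hs.uxx_neg, hs.ut_neg, hs.utx_neg]
    ring
  have h1 : ∫ x in (-1:ℝ)..0, S x = ∫ x in (0:ℝ)..1, S x := by
    have h := intervalIntegral.integral_comp_neg (a := 0) (b := 1) S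
    rw [neg_zero] at h
    rw [← h]
    simp only [hSe]
  have h2 := intervalIntegral.integral_add_adjacent_intervals (iS (-1) 0) (iS 0 1)
  have h3 : VnormSq u t = ∫ x in (0:ℝ)..1, S x := rfl
  have h4 : ∫ x in (-1:ℝ)..1, S x = (∫ x in (-1:ℝ)..1, u t x ^ 2) +
      (∫ x in (-1:ℝ)..1, ux u t x ^ 2) +
      (∫ x in (-1:ℝ)..1, ut u t x ^ 2) + ∫ ξ in (-1:ℝ)..1, H u t ξ ^ 2 := by
    rw [← hs.second_eq, ← intervalIntegral.integral_add (i1 _ _) (i2 _ _),
      ← intervalIntegral.integral_add ((i1 _ _).add (i2 _ _)) (i3 _ _),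
      ← intervalIntegral.integral_add (((i1 _ _).add (i2 _ _)).add (i3 _ _))
        ((hs.uxx_sq t _ _).add (hs.utx_sq t _ _))]
    congr 1
    funext x
    simp only [hS]
    ring
  rw [h3, ← h4, ← h2, h1]
  ring

theorem ut_sq_le (hs : Sol u) (t : ℝ) :
    ∫ x in (-1:ℝ)..1, ut u t x ^ 2 ≤ ∫ x in (-1:ℝ)..1, P u t x ^ 2 := by
  have h1 : ∫ x in (-1:ℝ)..1, ut u t x ^ 2 ≤
      ∫ x in (-1:ℝ)..1, ((1 / 2) * P u t x ^ 2 + (1 / 2) * P u t (-x) ^ 2) := by
    refine intervalIntegral.integral_mono_on (by norm_num)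
      (((hs.cont_ut' t).pow 2).intervalIntegrable _ _)
      (((continuous_const.mul ((hs.cont_P' t).pow 2)).add
        (continuous_const.mul ((hs.cont_Pneg t).pow 2))).intervalIntegrable _ _) ?_
    intro x _
    rw [hs.ut_eq']
    nlinarith [sq_nonneg (P u t x + P u t (-x))]
  have j1 : IntervalIntegrable (fun x => 1 / 2 * P u t x ^ 2) volume (-1) 1 :=
    (continuous_const.mul ((hs.cont_P' t).pow 2)).intervalIntegrable _ _
  have j2 : IntervalIntegrable (fun x => 1 / 2 * P u t (-x) ^ 2) volume (-1) 1 :=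
    (continuous_const.mul ((hs.cont_Pneg t).pow 2)).intervalIntegrable _ _
  rw [intervalIntegral.integral_add j1 j2,
    intervalIntegral.integral_const_mul, intervalIntegral.integral_const_mul] at h1
  have h2 := refl_int (fun x => P u t x ^ 2)
  rw [h2] at h1
  linarith

/-- The energy is controlled by the norm of the data. -/
theorem En_le (hs : Sol u) {r : ℝ} (hr : VnormSq u 0 ≤ r) :
    En u 0 ≤ 4 * r + (1 + r) ^ 4 := by
  have h2V := hs.two_V 0
  have n1 : 0 ≤ ∫ x in (-1:ℝ)..1, u 0 x ^ 2 :=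
    intervalIntegral.integral_nonneg (by norm_num) fun x _ => sq_nonneg _
  have n2 : 0 ≤ ∫ x in (-1:ℝ)..1, ux u 0 x ^ 2 :=
    intervalIntegral.integral_nonneg (by norm_num) fun x _ => sq_nonneg _
  have n3 : 0 ≤ ∫ x in (-1:ℝ)..1, ut u 0 x ^ 2 :=
    intervalIntegral.integral_nonneg (by norm_num) fun x _ => sq_nonneg _
  have n4 : 0 ≤ ∫ x in (-1:ℝ)..1, H u 0 x ^ 2 :=
    intervalIntegral.integral_nonneg (by norm_num) fun x _ => sq_nonneg _
  have hP : ∫ x in (-1:ℝ)..1, P u 0 x ^ 2 ≤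
      2 * (∫ x in (-1:ℝ)..1, ut u 0 x ^ 2) + 2 * ∫ x in (-1:ℝ)..1, ux u 0 x ^ 2 := by
    have j1 : IntervalIntegrable (fun x => 2 * ut u 0 x ^ 2) volume (-1) 1 :=
      (((hs.cont_ut' 0).pow 2).intervalIntegrable _ _).const_mul 2
    have j2 : IntervalIntegrable (fun x => 2 * ux u 0 x ^ 2) volume (-1) 1 :=
      (((hs.cont_ux' 0).pow 2).intervalIntegrable _ _).const_mul 2
    rw [← intervalIntegral.integral_const_mul, ← intervalIntegral.integral_const_mul,
      ← intervalIntegral.integral_add j1 j2]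
    refine intervalIntegral.integral_mono_on (by norm_num)
      (((hs.cont_P' 0).pow 2).intervalIntegrable _ _) (j1.add j2) ?_
    intro x _
    unfold P
    nlinarith [sq_nonneg (ut u 0 x - ux u 0 x)]
  have hu : ∀ x, |u 0 x| ≤ 1 + r := by
    intro x
    have := hs.u_le 0 x
    linarith
  have hr0 : 0 ≤ r := by linarith
  have hu4 : ∫ x in (-1:ℝ)..1, u 0 x ^ 4 ≤ 2 * (1 + r) ^ 4 := by
    have h1 : ∫ x in (-1:ℝ)..1, u 0 x ^ 4 ≤ ∫ _x in (-1:ℝ)..1, (1 + r) ^ 4 := by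
      refine intervalIntegral.integral_mono_on (by norm_num)
        (((hs.cont_u' 0).pow 4).intervalIntegrable _ _) intervalIntegrable_const ?_
      intro x _
      calc u 0 x ^ 4 = |u 0 x| ^ 4 := by
            rw [show (4:ℕ) = 2 * 2 by norm_num, pow_mul, pow_mul, sq_abs]
        _ ≤ (1 + r) ^ 4 := pow_le_pow_left₀ (abs_nonneg _) (hu x) 4
    rw [intervalIntegral.integral_const] at h1
    norm_num at h1
    linarith
  unfold En
  rw [hs.g_sq_eq]
  linarith

/-- The growth bound for the square of the norm. -/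
theorem V_growth (hs : Sol u) {r : ℝ} (hr : VnormSq u 0 ≤ r) (t : ℝ) :
    VnormSq u t ≤ ((1 + (4 * r + (1 + r) ^ 4) / 2) ^ 2 + (4 * r + (1 + r) ^ 4) +
      ((3 * (2 * r) + 4 * (1 + (4 * r + (1 + r) ^ 4) / 2) ^ 6 + 1) ^ ((3:ℝ) / 4) +
        6 * ((1 + (4 * r + (1 + r) ^ 4) / 2) * (3 / 2 * (4 * r + (1 + r) ^ 4) + 1) *
          (4 * r + (1 + r) ^ 4))) ^ ((4:ℝ) / 3)) * (1 + |t|) ^ ((4:ℝ) / 3) := by
  have hE := hs.En_le hr
  set E := 4 * r + (1 + r) ^ 4 with hEdef
  have hEn := hs.E_nonneg hE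
  have h2V0 := hs.two_V 0
  have n1 : 0 ≤ ∫ x in (-1:ℝ)..1, u 0 x ^ 2 :=
    intervalIntegral.integral_nonneg (by norm_num) fun x _ => sq_nonneg _
  have n2 : 0 ≤ ∫ x in (-1:ℝ)..1, ux u 0 x ^ 2 :=
    intervalIntegral.integral_nonneg (by norm_num) fun x _ => sq_nonneg _
  have n3 : 0 ≤ ∫ x in (-1:ℝ)..1, ut u 0 x ^ 2 :=
    intervalIntegral.integral_nonneg (by norm_num) fun x _ => sq_nonneg _
  have n4 : 0 ≤ ∫ x in (-1:ℝ)..1, H u 0 x ^ 2 :=
    intervalIntegral.integral_nonneg (by norm_num) fun x _ => sq_nonneg _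
  have hr0 : 0 ≤ r := by linarith
  have hY0 : ∫ ξ in (-1:ℝ)..1, H u 0 ξ ^ 2 ≤ 2 * r := by linarith
  have hH := hs.H_growth hE hY0 t
  have h2V := hs.two_V t
  have hPE := hs.P_sq_le hE t
  have m2 := (hs.ux_sq_le t).trans hPE
  have m3 := (hs.ut_sq_le t).trans hPE
  have m1 : ∫ x in (-1:ℝ)..1, u t x ^ 2 ≤ 2 * (1 + E / 2) ^ 2 := by
    have h1 : ∫ x in (-1:ℝ)..1, u t x ^ 2 ≤ ∫ _x in (-1:ℝ)..1, (1 + E / 2) ^ 2 := by
      refine intervalIntegral.integral_mono_on (by norm_num)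
        (((hs.cont_u' t).pow 2).intervalIntegrable _ _) intervalIntegrable_const ?_
      intro x _
      rw [← sq_abs (u t x)]
      exact pow_le_pow_left₀ (abs_nonneg _) (hs.u_bound hE t x) 2
    rw [intervalIntegral.integral_const] at h1
    norm_num at h1
    linarith
  set B := (3 * (2 * r) + 4 * (1 + E / 2) ^ 6 + 1) ^ ((3:ℝ) / 4) with hB
  set c := 6 * ((1 + E / 2) * (3 / 2 * E + 1) * E) with hc
  have hB0 : 0 ≤ B := by positivity
  have hc0 : 0 ≤ c := by positivity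
  have ht : (0:ℝ) ≤ |t| := abs_nonneg t
  have h5 : (B + c * |t|) ^ ((4:ℝ) / 3) ≤ (B + c) ^ ((4:ℝ) / 3) * (1 + |t|) ^ ((4:ℝ) / 3) := by
    rw [← Real.mul_rpow (by positivity) (by positivity)]
    refine Real.rpow_le_rpow (by positivity) ?_ (by norm_num)
    nlinarith [mul_nonneg hB0 ht]
  have h6 : 1 ≤ (1 + |t|) ^ ((4:ℝ) / 3) := Real.one_le_rpow (by linarith) (by norm_num)
  have h7 : 0 ≤ (B + c) ^ ((4:ℝ) / 3) * (1 + |t|) ^ ((4:ℝ) / 3) := by positivity
  have h8 : (1 + E / 2) ^ 2 + E ≤ ((1 + E / 2) ^ 2 + E) * (1 + |t|) ^ ((4:ℝ) / 3) := by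
    have : 0 ≤ (1 + E / 2) ^ 2 + E := by positivity
    nlinarith
  rw [add_mul]
  linarith

/-- **Main bound.** The `V`-norm grows at most like `t^(2/3)`. -/
theorem Vnorm_growth (R : ℝ) : ∃ C : ℝ, ∀ u : ℝ → ℝ → ℝ, Sol u → Vnorm u 0 ≤ R →
    ∀ t : ℝ, Vnorm u t ≤ C * (1 + |t|) ^ ((2:ℝ) / 3) := by
  obtain ⟨D, hD⟩ : ∃ D : ℝ, D = ((1 + (4 * R ^ 2 + (1 + R ^ 2) ^ 4) / 2) ^ 2 +
      (4 * R ^ 2 + (1 + R ^ 2) ^ 4) +
      ((3 * (2 * R ^ 2) + 4 * (1 + (4 * R ^ 2 + (1 + R ^ 2) ^ 4) / 2) ^ 6 + 1) ^ ((3:ℝ) / 4) +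
        6 * ((1 + (4 * R ^ 2 + (1 + R ^ 2) ^ 4) / 2) * (3 / 2 * (4 * R ^ 2 + (1 + R ^ 2) ^ 4) + 1) *
          (4 * R ^ 2 + (1 + R ^ 2) ^ 4))) ^ ((4:ℝ) / 3)) := ⟨_, rfl⟩
  refine ⟨Real.sqrt D, fun u hs h0 t => ?_⟩
  have hr : VnormSq u 0 ≤ R ^ 2 := by
    unfold Vnorm at h0
    have hR : 0 ≤ R := (Real.sqrt_nonneg _).trans h0
    exact (Real.sqrt_le_left hR).mp h0
  have h := hs.V_growth hr t
  rw [← hD] at h
  have hD0 : 0 ≤ D := by
    rw [hD]
    positivity
  unfold Vnorm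
  have hpos : 0 < 1 + |t| := by positivity
  have e : (1 + |t|) ^ ((2:ℝ) / 3) = Real.sqrt ((1 + |t|) ^ ((4:ℝ) / 3)) := by
    rw [Real.sqrt_eq_rpow, ← Real.rpow_mul hpos.le]
    norm_num
  rw [e, ← Real.sqrt_mul hD0]
  exact Real.sqrt_le_sqrt h

end Sol

end MPc1e222
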