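import Mathlib
import Pool.Agent.Lib.MP_c1e222_an.F

/-!
Classical solutions satisfy `Sol`, and the bound for the gradient.
-/

namespace MPc1e222

open MeasureTheory intervalIntegral Set Filter Topology

/-- A classical (`C^2`) solution of `u_tt - u_xx + u^3 = 0`, odd and `2`-periodic in `x`,
is a solution in the sense of `Sol`. -/
theorem sol_of_classical {u : ℝ → ℝ → ℝ} (hu : ContDiff ℝ 2 (fun p : ℝ × ℝ => u p.1 p.2))
    (hodd : ∀ t x, u t (-x) = - u t x) (hper : ∀ t x, u t (x + 2) = u t x)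
    (heq : ∀ t x, deriv (fun s => ut u s x) t - deriv (fun y => ux u t y) x + u t x ^ 3 = 0) :
    Sol u := by
  have hu1 : ContDiff ℝ 1 (fun p : ℝ × ℝ => u p.1 p.2) := hu.of_le (by norm_num)
  set U : ℝ × ℝ → ℝ := fun p => u p.1 p.2 with hU
  have hF : ContDiff ℝ 1 (fderiv ℝ U) := hu.fderiv_right (by norm_num)
  have hFd : ∀ p, HasFDerivAt (fderiv ℝ U) (fderiv ℝ (fderiv ℝ U) p) p := fun p =>
    (hF.differentiable (by norm_num) p).hasFDerivAt
  have hut : ∀ t x, ut u t x = fderiv ℝ U (t, x) (1, 0) := fun t x => ut_eq hu1 t x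
  have hux : ∀ t x, ux u t x = fderiv ℝ U (t, x) (0, 1) := fun t x => ux_eq hu1 t x
  have hsymm : ∀ p v w, fderiv ℝ (fderiv ℝ U) p v w = fderiv ℝ (fderiv ℝ U) p w v := by
    intro p v w
    have h : IsSymmSndFDerivAt ℝ U p := by
      refine (hu.contDiffAt (x := p)).isSymmSndFDerivAt ?_
      simp
    exact h v w
  have huF : ContDiff ℝ 1 (fun p : ℝ × ℝ => fderiv ℝ U p ((0:ℝ), (1:ℝ))) := hF.clm_apply contDiff_const
  have huF' : ContDiff ℝ 1 (fun p : ℝ × ℝ => fderiv ℝ U p ((1:ℝ), (0:ℝ))) := hF.clm_apply contDiff_const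
  have cux : ContDiff ℝ 1 (ux u 0) := by
    have h := huF.comp (contDiff_const.prodMk contDiff_id : ContDiff ℝ 1 (fun x : ℝ => ((0:ℝ), x)))
    have e : ux u 0 = ((fun p : ℝ × ℝ => fderiv ℝ U p ((0:ℝ), (1:ℝ))) ∘ fun x : ℝ => ((0:ℝ), x)) := by
      funext x
      exact hux 0 x
    rw [e]
    exact h
  have cut : ContDiff ℝ 1 (ut u 0) := by
    have h := huF'.comp (contDiff_const.prodMk contDiff_id : ContDiff ℝ 1 (fun x : ℝ => ((0:ℝ), x)))
    have e : ut u 0 = ((fun p : ℝ × ℝ => fderiv ℝ U p ((1:ℝ), (0:ℝ))) ∘ fun x : ℝ => ((0:ℝ), x)) := by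
      funext x
      exact hut 0 x
    rw [e]
    exact h
  refine ⟨hu1, hodd, hper, ?_, fun a b => cux.contDiffOn.absolutelyContinuousOnInterval,
    fun a b => cut.contDiffOn.absolutelyContinuousOnInterval,
    (((contDiff_one_iff_deriv.mp cux).2).pow 2).intervalIntegrable _ _,
    (((contDiff_one_iff_deriv.mp cut).2).pow 2).intervalIntegrable _ _⟩
  intro t x
  -- second derivatives
  have htt : ∀ t x, deriv (fun s => ut u s x) t =
      fderiv ℝ (fderiv ℝ U) (t, x) (1, 0) (1, 0) := by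
    intro t x
    have h1 : HasDerivAt (fun s : ℝ => (s, x)) ((1:ℝ), (0:ℝ)) t :=
      (hasDerivAt_id t).prodMk (hasDerivAt_const t x)
    have h2 := (hFd (t, x)).comp_hasDerivAt t h1
    have h3 := h2.clm_apply (hasDerivAt_const t ((1:ℝ), (0:ℝ)))
    have e : (fun s => ut u s x) = fun s => (fderiv ℝ U ∘ fun s : ℝ => (s, x)) s ((1:ℝ), (0:ℝ)) := by
      funext s
      exact hut s x
    rw [e, h3.deriv]
    simp
  have hxx : ∀ t x, deriv (fun y => ux u t y) x =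
      fderiv ℝ (fderiv ℝ U) (t, x) (0, 1) (0, 1) := by
    intro t x
    have h1 : HasDerivAt (fun y : ℝ => (t, y)) ((0:ℝ), (1:ℝ)) x :=
      (hasDerivAt_const x t).prodMk (hasDerivAt_id x)
    have h2 := (hFd (t, x)).comp_hasDerivAt x h1
    have h3 := h2.clm_apply (hasDerivAt_const x ((0:ℝ), (1:ℝ)))
    have e : (fun y => ux u t y) = fun y => (fderiv ℝ U ∘ fun y : ℝ => (t, y)) y ((0:ℝ), (1:ℝ)) := by
      funext y
      exact hux t y
    rw [e, h3.deriv]
    simp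
  have hφ : ∀ s, HasDerivAt (fun s => ut u s (x - s) + ux u s (x - s)) (-(u s (x - s) ^ 3)) s := by
    intro s
    have h1 : HasDerivAt (fun s : ℝ => (s, x - s)) ((1:ℝ), (-1:ℝ)) s :=
      (hasDerivAt_id s).prodMk ((hasDerivAt_id s).const_sub x)
    have h2 := (hFd (s, x - s)).comp_hasDerivAt s h1
    have h3 := h2.clm_apply (hasDerivAt_const s ((1:ℝ), (1:ℝ)))
    have e : (fun s => ut u s (x - s) + ux u s (x - s)) =
        fun s => (fderiv ℝ U ∘ fun s : ℝ => (s, x - s)) s ((1:ℝ), (1:ℝ)) := by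
      funext s
      rw [hut, hux, ← map_add]
      simp
    rw [e]
    refine h3.congr_deriv ?_
    have h4 := heq s (x - s)
    rw [htt, hxx] at h4
    have h5 := hsymm (s, x - s) (1, 0) (0, 1)
    have e1 : ((1:ℝ), (-1:ℝ)) = (1, 0) - (0, 1) := by simp
    have e2 : ((1:ℝ), (1:ℝ)) = (1, 0) + (0, 1) := by simp
    rw [e1, e2, map_zero, add_zero, map_sub, sub_apply, map_add, map_add]
    linarith
  have hc : Continuous (fun r : ℝ => -(u r (x - r) ^ 3)) :=
    ((hu1.continuous.comp (by fun_prop : Continuous fun r : ℝ => (r, x - r))).pow 3).neg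
  have h := integral_eq_sub_of_hasDerivAt (a := 0) (b := t) (fun s _ => hφ s)
    (hc.intervalIntegrable _ _)
  rw [intervalIntegral.integral_neg, sub_zero] at h
  linarith

variable {u : ℝ → ℝ → ℝ}

/-- Pointwise bound for `u_x`, `u_t` in terms of the second-order quantity. -/
theorem Sol.grad_le (hs : Sol u) {E : ℝ} (hE : En u 0 ≤ E) (t : ℝ) {q : ℝ} (hq : 1 ≤ q)
    (hY : ∫ ξ in (-1:ℝ)..1, H u t ξ ^ 2 ≤ q ^ 4) (x : ℝ) :
    |ux u t x| ≤ (3 / 2 * E + 1) * q ∧ |ut u t x| ≤ (3 / 2 * E + 1) * q := by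
  have hP : ∀ y, |P u t y| ≤ (3 / 2 * E + 1) * q := by
    intro y
    rw [Sol.P_g]
    exact hs.g_pt hE t hq hY _
  have h1 := abs_le.mp (hP x)
  have h2 := abs_le.mp (hP (-x))
  rw [hs.ux_eq', hs.ut_eq']
  constructor
  · rw [abs_le]
    constructor <;> linarith [h1.1, h1.2, h2.1, h2.2]
  · rw [abs_le]
    constructor <;> linarith [h1.1, h1.2, h2.1, h2.2]

/-- **Main theorem.** Growth at most `t^(2/3)` of the `V`-norm, at most `t^(1/3)` of the sup norm
of the gradient, uniformly on bounded sets of data. -/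
theorem main (R : ℝ) : ∃ C : ℝ, ∀ u : ℝ → ℝ → ℝ, Sol u → Vnorm u 0 ≤ R → ∀ t : ℝ,
    ((∀ a b, AbsolutelyContinuousOnInterval (ux u t) a b) ∧
      (∀ a b, AbsolutelyContinuousOnInterval (ut u t) a b) ∧
      IntervalIntegrable (fun x => deriv (ux u t) x ^ 2) volume 0 1 ∧
      IntervalIntegrable (fun x => deriv (ut u t) x ^ 2) volume 0 1) ∧
    Vnorm u t ≤ C * (1 + |t|) ^ ((2:ℝ) / 3) ∧
    ∀ x : ℝ, |ux u t x| ≤ C * (1 + |t|) ^ ((1:ℝ) / 3) ∧
      |ut u t x| ≤ C * (1 + |t|) ^ ((1:ℝ) / 3) := by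
  obtain ⟨C1, hC1⟩ := Sol.Vnorm_growth R
  set r : ℝ := R ^ 2 with hr
  set E : ℝ := 4 * r + (1 + r) ^ 4 with hE
  set B : ℝ := (3 * (2 * r) + 4 * (1 + E / 2) ^ 6 + 1) ^ ((3:ℝ) / 4) with hB
  set c : ℝ := 6 * ((1 + E / 2) * (3 / 2 * E + 1) * E) with hc
  have hr0 : 0 ≤ r := by positivity
  have hE0 : 0 ≤ E := by positivity
  have hB1 : 1 ≤ B := by
    refine Real.one_le_rpow ?_ (by norm_num)
    have : 0 ≤ 3 * (2 * r) + 4 * (1 + E / 2) ^ 6 := by positivity
    linarith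
  have hc0 : 0 ≤ c := by positivity
  set C2 : ℝ := (3 / 2 * E + 1) * (B + c) ^ ((1:ℝ) / 3) with hC2
  refine ⟨max C1 C2, fun u hs h0 t => ⟨⟨hs.ux_ac t, hs.ut_ac t, hs.uxx_sq t 0 1,
    hs.utx_sq t 0 1⟩, ?_, ?_⟩⟩
  · refine (hC1 u hs h0 t).trans ?_
    exact mul_le_mul_of_nonneg_right (le_max_left _ _) (by positivity)
  · intro x
    have hV : VnormSq u 0 ≤ r := by
      unfold Vnorm at h0
      have hR : 0 ≤ R := (Real.sqrt_nonneg _).trans h0
      exact (Real.sqrt_le_left hR).mp h0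
    have hEn : En u 0 ≤ E := hs.En_le hV
    have h2V0 := hs.two_V 0
    have n1 : 0 ≤ ∫ x in (-1:ℝ)..1, u 0 x ^ 2 :=
      intervalIntegral.integral_nonneg (by norm_num) fun x _ => sq_nonneg _
    have n2 : 0 ≤ ∫ x in (-1:ℝ)..1, ux u 0 x ^ 2 :=
      intervalIntegral.integral_nonneg (by norm_num) fun x _ => sq_nonneg _
    have n3 : 0 ≤ ∫ x in (-1:ℝ)..1, ut u 0 x ^ 2 :=
      intervalIntegral.integral_nonneg (by norm_num) fun x _ => sq_nonneg _
    have hY0 : ∫ ξ in (-1:ℝ)..1, H u 0 ξ ^ 2 ≤ 2 * r := by linarith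
    have hH := hs.H_growth hEn hY0 t
    have ht : (0:ℝ) ≤ |t| := abs_nonneg t
    have hq1 : 1 ≤ (B + c * |t|) ^ ((1:ℝ) / 3) := by
      refine Real.one_le_rpow ?_ (by norm_num)
      have : 0 ≤ c * |t| := mul_nonneg hc0 ht
      linarith
    have hpos : 0 ≤ B + c * |t| := by positivity
    have hq4 : ((B + c * |t|) ^ ((1:ℝ) / 3)) ^ 4 = (B + c * |t|) ^ ((4:ℝ) / 3) := by
      rw [← Real.rpow_natCast, ← Real.rpow_mul hpos]
      norm_num
    have hgr := hs.grad_le hEn t hq1 (by rw [hq4]; exact hH) x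
    have h5 : (B + c * |t|) ^ ((1:ℝ) / 3) ≤ (B + c) ^ ((1:ℝ) / 3) * (1 + |t|) ^ ((1:ℝ) / 3) := by
      rw [← Real.mul_rpow (by positivity) (by positivity)]
      refine Real.rpow_le_rpow (by positivity) ?_ (by norm_num)
      nlinarith [mul_nonneg (zero_le_one.trans hB1) ht]
    have h6 : (3 / 2 * E + 1) * (B + c * |t|) ^ ((1:ℝ) / 3) ≤
        max C1 C2 * (1 + |t|) ^ ((1:ℝ) / 3) := by
      calc (3 / 2 * E + 1) * (B + c * |t|) ^ ((1:ℝ) / 3)
          ≤ (3 / 2 * E + 1) * ((B + c) ^ ((1:ℝ) / 3) * (1 + |t|) ^ ((1:ℝ) / 3)) :=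
            mul_le_mul_of_nonneg_left h5 (by positivity)
        _ = C2 * (1 + |t|) ^ ((1:ℝ) / 3) := by
            rw [hC2]
            ring
        _ ≤ _ := mul_le_mul_of_nonneg_right (le_max_right _ _) (by positivity)
    exact ⟨hgr.1.trans h6, hgr.2.trans h6⟩

end MPc1e222
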