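import Mathlib
import Pool.Agent.Lib.MP_c1e222_an.G
import Pool.Agent.Lib.MP_c1e222_an.Cross

/-!
From the trilinear estimate to the growth bound `t^(1/2)` (up to logarithms).
-/

namespace MPc1e222

open MeasureTheory intervalIntegral Set Filter Topology

/-- The trilinear estimate. -/
def TriStatement : Prop := ∀ E : ℝ, ∃ C : ℝ, ∀ u : ℝ → ℝ → ℝ, Sol u → En u 0 ≤ E →
  ∀ (t0 t1 L : ℝ) (J : ℕ), t0 ≤ t1 → 1 ≤ L → 1 ≤ J →
  (∀ t ∈ Icc t0 t1, ∫ ξ in (-1:ℝ)..1, H u t ξ ^ 2 ≤ L ^ 2) →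
  L ^ 2 ≤ 1024 * (65 / 64) ^ J →
  |∫ t in t0..t1, ∫ x in (-1:ℝ)..1, u t x * P u t x ^ 3| ≤
    C * (J:ℝ) ^ 4 * Real.sqrt ((t1 - t0 + 1 + L ^ 2) * (t1 - t0 + 1))

/-- The elementary inequality behind the growth rate. -/
theorem log_ineq (A : ℝ) : ∃ B : ℝ, 1 ≤ B ∧ ∀ m τ : ℝ, 1 ≤ m → 1 ≤ τ →
    m ≤ A * (1 + Real.log m) ^ 4 * Real.sqrt ((τ + m) * τ) →
    m ≤ B * (τ * (1 + Real.log τ) ^ 8) := by
  set A' : ℝ := max A 1 with hA'
  have hA1 : 1 ≤ A' := le_max_right _ _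
  set D : ℝ := 2 * A' ^ 2 * 17 ^ 8 with hD
  have hD1 : 1 ≤ D := by
    have : 1 ≤ A' ^ 2 := one_le_pow₀ hA1
    rw [hD]
    nlinarith
  have hlD : 0 ≤ Real.log D := Real.log_nonneg hD1
  refine ⟨max 1 (2 * A' ^ 2 * (3 + 2 * Real.log D) ^ 8), le_max_left _ _, ?_⟩
  intro m τ hm hτ h
  have hlτ : 0 ≤ Real.log τ := Real.log_nonneg hτ
  have hlm : 0 ≤ Real.log m := Real.log_nonneg hm
  have hm0 : 0 < m := by linarith
  have hτ0 : 0 < τ := by linarith
  have hτ8 : 0 ≤ τ * (1 + Real.log τ) ^ 8 := by positivity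
  rcases le_or_gt m τ with hmt | hmt
  · have h1 : 1 ≤ (1 + Real.log τ) ^ 8 := one_le_pow₀ (by linarith)
    calc m ≤ τ := hmt
      _ = 1 * (τ * 1) := by ring
      _ ≤ max 1 (2 * A' ^ 2 * (3 + 2 * Real.log D) ^ 8) * (τ * (1 + Real.log τ) ^ 8) := by
          refine mul_le_mul (le_max_left _ _) (mul_le_mul_of_nonneg_left h1 hτ0.le)
            (by positivity) (by positivity)
  · set ℓ := 1 + Real.log m with hℓ
    have hℓ0 : 0 ≤ ℓ := by linarith
    have h2 : m ≤ A' * ℓ ^ 4 * Real.sqrt ((τ + m) * τ) := by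
      refine h.trans ?_
      have : A ≤ A' := le_max_left _ _
      gcongr
    have h3 : m ^ 2 ≤ A' ^ 2 * ℓ ^ 8 * ((τ + m) * τ) := by
      have h4 := pow_le_pow_left₀ hm0.le h2 2
      have h5 : (A' * ℓ ^ 4 * Real.sqrt ((τ + m) * τ)) ^ 2 = A' ^ 2 * ℓ ^ 8 * ((τ + m) * τ) := by
        rw [mul_pow, mul_pow, Real.sq_sqrt (by positivity)]
        ring
      linarith
    have h6 : m ≤ 2 * A' ^ 2 * ℓ ^ 8 * τ := by
      have h7 : A' ^ 2 * ℓ ^ 8 * ((τ + m) * τ) ≤ A' ^ 2 * ℓ ^ 8 * ((2 * m) * τ) := by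
        gcongr
        linarith
      have h8 : m * m ≤ (2 * A' ^ 2 * ℓ ^ 8 * τ) * m := by nlinarith
      exact le_of_mul_le_mul_right h8 hm0
    -- crude bound for the logarithm
    have h9 : ℓ ≤ 17 * m ^ ((1:ℝ) / 16) := by
      have h10 : Real.log (m ^ ((1:ℝ) / 16)) ≤ m ^ ((1:ℝ) / 16) - 1 :=
        Real.log_le_sub_one_of_pos (by positivity)
      rw [Real.log_rpow hm0] at h10
      have h11 : 1 ≤ m ^ ((1:ℝ) / 16) := Real.one_le_rpow hm (by norm_num)
      linarith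
    have h12 : ℓ ^ 8 ≤ 17 ^ 8 * m ^ ((1:ℝ) / 2) := by
      have h13 := pow_le_pow_left₀ hℓ0 h9 8
      have h14 : (17 * m ^ ((1:ℝ) / 16)) ^ 8 = 17 ^ 8 * m ^ ((1:ℝ) / 2) := by
        rw [mul_pow, ← Real.rpow_natCast (m ^ ((1:ℝ) / 16)) 8, ← Real.rpow_mul hm0.le]
        norm_num
      linarith
    have h15 : m ^ ((1:ℝ) / 2) ≤ D * τ := by
      have h16 : 0 < m ^ ((1:ℝ) / 2) := by positivity
      have h17 : m ^ ((1:ℝ) / 2) * m ^ ((1:ℝ) / 2) = m := by
        rw [← Real.rpow_add hm0]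
        norm_num
      have h18 : m ^ ((1:ℝ) / 2) * m ^ ((1:ℝ) / 2) ≤ (D * τ) * m ^ ((1:ℝ) / 2) := by
        rw [h17]
        calc m ≤ 2 * A' ^ 2 * ℓ ^ 8 * τ := h6
          _ ≤ 2 * A' ^ 2 * (17 ^ 8 * m ^ ((1:ℝ) / 2)) * τ := by gcongr
          _ = (D * τ) * m ^ ((1:ℝ) / 2) := by rw [hD]; ring
      exact le_of_mul_le_mul_right h18 h16
    have h19 : ℓ ≤ (3 + 2 * Real.log D) * (1 + Real.log τ) := by
      have h20 : Real.log (m ^ ((1:ℝ) / 2)) ≤ Real.log (D * τ) :=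
        Real.log_le_log (by positivity) h15
      rw [Real.log_rpow hm0, Real.log_mul (by positivity) (by positivity)] at h20
      have h21 : 0 ≤ Real.log D * Real.log τ := mul_nonneg hlD hlτ
      nlinarith
    calc m ≤ 2 * A' ^ 2 * ℓ ^ 8 * τ := h6
      _ ≤ 2 * A' ^ 2 * ((3 + 2 * Real.log D) * (1 + Real.log τ)) ^ 8 * τ := by gcongr
      _ = (2 * A' ^ 2 * (3 + 2 * Real.log D) ^ 8) * (τ * (1 + Real.log τ) ^ 8) := by ring
      _ ≤ max 1 (2 * A' ^ 2 * (3 + 2 * Real.log D) ^ 8) * (τ * (1 + Real.log τ) ^ 8) :=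
          mul_le_mul_of_nonneg_right (le_max_right _ _) hτ8

variable {u : ℝ → ℝ → ℝ}

namespace Sol

/-- `g` moves slowly. -/
theorem slow_g (hs : Sol u) {E : ℝ} (hE : En u 0 ≤ E) :
    Slow (g u) (fun t y => -(u t (y - t) ^ 3)) (E + 2 * (1 + E / 2) ^ 6) := by
  have hEn := hs.E_nonneg hE
  refine ⟨hs.cont_g, (hs.cont_v.pow 3).neg, hs.g_per, ?_, hs.g_time, ?_, ?_⟩
  · intro t y
    rw [show y + 2 - t = y - t + 2 by ring, hs.per]
  · intro t
    have := hs.g_sq_le hE t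
    have h2 : 0 ≤ 2 * (1 + E / 2) ^ 6 := by positivity
    linarith
  · intro t
    have := hs.v6_le hE t
    have e : (fun y => (-(u t (y - t) ^ 3)) ^ 2) = fun y => u t (y - t) ^ 6 := by
      funext y
      ring
    rw [e]
    linarith

theorem cross_PP (hs : Sol u) {E : ℝ} (hE : En u 0 ≤ E) {t0 t1 : ℝ} (ht : t0 ≤ t1) :
    ∫ t in t0..t1, ∫ x in (-1:ℝ)..1, P u t x ^ 2 * P u t (-x) ^ 2 ≤
      8 * (E + 2 * (1 + E / 2) ^ 6) * (E + 2 * (1 + E / 2) ^ 6) * (t1 - t0 + 1) := by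
  have h := cross (hs.slow_g hE) (hs.slow_g hE) ht 0
  have e : (fun t => ∫ x in (-1:ℝ)..1, g u t (x + t) ^ 2 * g u t (t - x + 0) ^ 2) =
      fun t => ∫ x in (-1:ℝ)..1, P u t x ^ 2 * P u t (-x) ^ 2 := by
    funext t
    congr 1
    funext x
    rw [P_g t x, Pneg_g t x, add_zero]
  rw [e] at h
  exact h

/-- `6 ∫ u u_x P^2 = 3 ∫ u P^3 + 3 ∫ u P~ P^2`. -/
theorem split_deriv (hs : Sol u) (t : ℝ) :
    6 * ∫ ξ in (-1:ℝ)..1, u t (ξ - t) * ux u t (ξ - t) * g u t ξ ^ 2 =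
      3 * (∫ x in (-1:ℝ)..1, u t x * P u t x ^ 3) +
        3 * ∫ x in (-1:ℝ)..1, u t x * (P u t (-x) * P u t x ^ 2) := by
  have hp := per_int (f := fun x => u t x * ux u t x * P u t x ^ 2)
    (fun x => by simp only [hs.per, hs.ux_per, hs.P_per]) t
  have e1 : ∫ ξ in (-1:ℝ)..1, u t (ξ - t) * ux u t (ξ - t) * g u t ξ ^ 2 =
      ∫ x in (-1:ℝ)..1, u t x * ux u t x * P u t x ^ 2 := hp
  have i1 : IntervalIntegrable (fun x => u t x * P u t x ^ 3) volume (-1) 1 :=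
    ((hs.cont_u' t).mul ((hs.cont_P' t).pow 3)).intervalIntegrable _ _
  have i2 : IntervalIntegrable (fun x => u t x * (P u t (-x) * P u t x ^ 2)) volume (-1) 1 :=
    ((hs.cont_u' t).mul ((hs.cont_Pneg t).mul ((hs.cont_P' t).pow 2))).intervalIntegrable _ _
  rw [e1, ← intervalIntegral.integral_const_mul, ← intervalIntegral.integral_const_mul,
    ← intervalIntegral.integral_const_mul,
    ← intervalIntegral.integral_add (i1.const_mul 3) (i2.const_mul 3)]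
  congr 1
  funext x
  rw [hs.ux_eq']
  ring

theorem cont_A1 (hs : Sol u) : Continuous fun t => ∫ x in (-1:ℝ)..1, u t x * P u t x ^ 3 := by
  have h : Continuous (Function.uncurry fun t x : ℝ => u t x * P u t x ^ 3) :=
    hs.smooth.continuous.mul (hs.cont_P.pow 3)
  exact continuous_parametric_intervalIntegral_of_continuous' (μ := volume) h (-1) 1

theorem cont_Pn (hs : Sol u) : Continuous fun p : ℝ × ℝ => P u p.1 (-p.2) :=
  hs.cont_P.comp (by fun_prop : Continuous fun p : ℝ × ℝ => (p.1, -p.2))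

theorem cont_A2 (hs : Sol u) :
    Continuous fun t => ∫ x in (-1:ℝ)..1, u t x * (P u t (-x) * P u t x ^ 2) := by
  have h : Continuous (Function.uncurry fun t x : ℝ => u t x * (P u t (-x) * P u t x ^ 2)) :=
    hs.smooth.continuous.mul (hs.cont_Pn.mul (hs.cont_P.pow 2))
  exact continuous_parametric_intervalIntegral_of_continuous' (μ := volume) h (-1) 1

/-- The crossing part of the derivative. -/
theorem A2_le (hs : Sol u) {E : ℝ} (hE : En u 0 ≤ E) {t0 t1 : ℝ} (ht : t0 ≤ t1) :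
    |∫ t in t0..t1, ∫ x in (-1:ℝ)..1, u t x * (P u t (-x) * P u t x ^ 2)| ≤
      (1 + E / 2) * (8 * (E + 2 * (1 + E / 2) ^ 6) * (E + 2 * (1 + E / 2) ^ 6) + E) *
        (t1 - t0 + 1) := by
  have hEn := hs.E_nonneg hE
  have hT : 0 ≤ t1 - t0 := by linarith
  have hcPP : Continuous (Function.uncurry fun t x : ℝ => P u t x ^ 2 * P u t (-x) ^ 2) :=
    (hs.cont_P.pow 2).mul (hs.cont_Pn.pow 2)
  have cPP := continuous_parametric_intervalIntegral_of_continuous' (μ := volume) hcPP (-1) 1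
  rw [← Real.norm_eq_abs]
  refine (intervalIntegral.norm_integral_le_integral_norm ht).trans ?_
  have h1 : ∀ t, ‖∫ x in (-1:ℝ)..1, u t x * (P u t (-x) * P u t x ^ 2)‖ ≤
      (1 + E / 2) * ((1 / 2) * (∫ x in (-1:ℝ)..1, P u t x ^ 2 * P u t (-x) ^ 2) +
        (1 / 2) * E) := by
    intro t
    refine (intervalIntegral.norm_integral_le_integral_norm (by norm_num)).trans ?_
    have j1 : IntervalIntegrable (fun x => (1 / 2) * (P u t x ^ 2 * P u t (-x) ^ 2))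
        volume (-1) 1 :=
      (continuous_const.mul (((hs.cont_P' t).pow 2).mul
        ((hs.cont_Pneg t).pow 2))).intervalIntegrable _ _
    have j2 : IntervalIntegrable (fun x => (1 / 2) * P u t x ^ 2) volume (-1) 1 :=
      (continuous_const.mul ((hs.cont_P' t).pow 2)).intervalIntegrable _ _
    have h2 : ∫ x in (-1:ℝ)..1, ‖u t x * (P u t (-x) * P u t x ^ 2)‖ ≤
        ∫ x in (-1:ℝ)..1, (1 + E / 2) * ((1 / 2) * (P u t x ^ 2 * P u t (-x) ^ 2) +
          (1 / 2) * P u t x ^ 2) := by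
      refine intervalIntegral.integral_mono_on (by norm_num)
        (((hs.cont_u' t).mul ((hs.cont_Pneg t).mul
          ((hs.cont_P' t).pow 2))).norm.intervalIntegrable _ _) ((j1.add j2).const_mul _) ?_
      intro x _
      rw [Real.norm_eq_abs, abs_mul]
      refine mul_le_mul (hs.u_bound hE t x) ?_ (abs_nonneg _) (by positivity)
      have e : P u t (-x) * P u t x ^ 2 = (P u t (-x) * P u t x) * P u t x := by ring
      rw [e, abs_mul]
      have h3 : P u t x ^ 2 * P u t (-x) ^ 2 = |P u t (-x) * P u t x| ^ 2 := by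
        rw [sq_abs]
        ring
      rw [h3, ← sq_abs (P u t x)]
      nlinarith [sq_nonneg (|P u t (-x) * P u t x| - |P u t x|)]
    refine h2.trans ?_
    rw [intervalIntegral.integral_const_mul, intervalIntegral.integral_add j1 j2,
      intervalIntegral.integral_const_mul, intervalIntegral.integral_const_mul]
    have h4 := hs.P_sq_le hE t
    refine mul_le_mul_of_nonneg_left ?_ (by positivity)
    linarith
  have h5 : ∫ t in t0..t1, ‖∫ x in (-1:ℝ)..1, u t x * (P u t (-x) * P u t x ^ 2)‖ ≤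
      ∫ t in t0..t1, (1 + E / 2) * ((1 / 2) *
        (∫ x in (-1:ℝ)..1, P u t x ^ 2 * P u t (-x) ^ 2) + (1 / 2) * E) := by
    refine intervalIntegral.integral_mono_on ht (hs.cont_A2.norm.intervalIntegrable _ _)
      ((continuous_const.mul ((continuous_const.mul cPP).add
        continuous_const)).intervalIntegrable _ _) fun t _ => h1 t
  refine h5.trans ?_
  have j3 : IntervalIntegrable (fun t => (1 / 2) *
      (∫ x in (-1:ℝ)..1, P u t x ^ 2 * P u t (-x) ^ 2)) volume t0 t1 :=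
    (continuous_const.mul cPP).intervalIntegrable _ _
  rw [intervalIntegral.integral_const_mul, intervalIntegral.integral_add j3
    intervalIntegrable_const, intervalIntegral.integral_const_mul, intervalIntegral.integral_const]
  have h6 := hs.cross_PP hE ht
  simp only [smul_eq_mul]
  rw [mul_assoc]
  refine mul_le_mul_of_nonneg_left ?_ (by positivity)
  have h7 : 0 ≤ (E + 2 * (1 + E / 2) ^ 6) := by positivity
  nlinarith [mul_nonneg hEn hT, mul_nonneg h7 h7]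

theorem J_aux {m : ℝ} (hm1 : 1 ≤ m) : ∃ J : ℕ, 1 ≤ J ∧ (J:ℝ) ≤ 65 * (1 + Real.log m) ∧
    m ≤ 1024 * (65 / 64) ^ J := by
  have hm0 : 0 < m := by linarith
  have hlm : 0 ≤ Real.log m := Real.log_nonneg hm1
  refine ⟨⌈65 * Real.log m⌉₊ + 1, by omega, ?_, ?_⟩
  · have := Nat.ceil_lt_add_one (by positivity : 0 ≤ 65 * Real.log m)
    push_cast
    linarith
  · have hJ1 : 65 * Real.log m ≤ ((⌈65 * Real.log m⌉₊ + 1 : ℕ) : ℝ) := by
      have := Nat.le_ceil (65 * Real.log m)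
      push_cast
      linarith
    generalize ⌈65 * Real.log m⌉₊ + 1 = J at hJ1
    have h3 : m ≤ (65 / 64 : ℝ) ^ J := by
      have h4 : (65 / 64 : ℝ) ^ J = Real.exp (J * Real.log (65 / 64)) := by
        rw [mul_comm, Real.exp_mul, Real.exp_log (by norm_num), Real.rpow_natCast]
      rw [h4, ← Real.log_le_iff_le_exp hm0]
      have h5 := Real.one_sub_inv_le_log_of_pos (by norm_num : (0:ℝ) < 65 / 64)
      norm_num at h5
      nlinarith
    have h6 : 0 ≤ (65 / 64 : ℝ) ^ J := by positivity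
    linarith

theorem sqrt_aux {τ m : ℝ} (hτ : 0 ≤ τ) (hm : 0 ≤ m) : τ ≤ Real.sqrt ((τ + m) * τ) := by
  refine Real.le_sqrt_of_sq_le ?_
  nlinarith [mul_nonneg hm hτ]

theorem fin_aux {m f F0 C c2 τ ℓ S : ℝ} (hF0 : 0 ≤ F0) (hc2 : 0 ≤ c2)
    (h : m - f ≤ 3 * (C * (65 * ℓ) ^ 4 * S) + 3 * (c2 * τ)) (hf : f ≤ F0) (hS : τ ≤ S)
    (hS1 : 1 ≤ S) (hℓ : 1 ≤ ℓ ^ 4) :
    m ≤ (F0 + 3 * (65 ^ 4 * C) + 3 * c2) * ℓ ^ 4 * S := by
  have hℓS : S ≤ ℓ ^ 4 * S := le_mul_of_one_le_left (by linarith) hℓ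
  have p1 : F0 ≤ F0 * (ℓ ^ 4 * S) := le_mul_of_one_le_right hF0 (hS1.trans hℓS)
  have p2 : c2 * τ ≤ c2 * (ℓ ^ 4 * S) := mul_le_mul_of_nonneg_left (hS.trans hℓS) hc2
  have p3 : C * (65 * ℓ) ^ 4 * S = 65 ^ 4 * C * (ℓ ^ 4 * S) := by ring
  rw [p3] at h
  calc m ≤ F0 + (3 * (65 ^ 4 * C * (ℓ ^ 4 * S)) + 3 * (c2 * τ)) := by linarith
    _ ≤ F0 * (ℓ ^ 4 * S) + (3 * (65 ^ 4 * C * (ℓ ^ 4 * S)) + 3 * (c2 * (ℓ ^ 4 * S))) := by
        linarith
    _ = _ := by ring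

/-- **Growth of the second-order quantity from the trilinear estimate.** -/
theorem F_growth (htri : TriStatement) (r : ℝ) : ∃ B : ℝ, 1 ≤ B ∧ ∀ u : ℝ → ℝ → ℝ, Sol u →
    VnormSq u 0 ≤ r → ∀ t : ℝ,
    ∫ ξ in (-1:ℝ)..1, H u t ξ ^ 2 ≤ B * ((1 + |t|) * (1 + Real.log (1 + |t|)) ^ 8) := by
  set E : ℝ := 4 * r + (1 + r) ^ 4 with hEdef
  obtain ⟨C0, hC0⟩ := htri E
  set C : ℝ := max C0 0 with hC
  have hC0' : 0 ≤ C := le_max_right _ _
  set c2 : ℝ := (1 + E / 2) * (8 * (E + 2 * (1 + E / 2) ^ 6) * (E + 2 * (1 + E / 2) ^ 6) + E)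
    with hc2
  set F0 : ℝ := 6 * r + 4 * (1 + E / 2) ^ 6 + 1 with hF0
  obtain ⟨B, hB1, hB⟩ := log_ineq (F0 + 3 * (65 ^ 4 * C) + 3 * c2)
  refine ⟨B, hB1, ?_⟩
  intro u hs hr t
  have hE : En u 0 ≤ E := hs.En_le hr
  have hEn := hs.E_nonneg hE
  have hr0 : 0 ≤ r := by
    refine le_trans ?_ hr
    exact intervalIntegral.integral_nonneg (by norm_num) fun x _ => by positivity
  have hc20 : 0 ≤ c2 := by positivity
  have hF00 : 0 ≤ F0 := by positivity
  set F : ℝ → ℝ := fun s => 2 * W u s + 2 * (1 + E / 2) ^ 6 + 1 with hF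
  have hHF : ∀ s, ∫ ξ in (-1:ℝ)..1, H u s ξ ^ 2 ≤ F s := by
    intro s
    have := hs.H_sq_le hE s
    simp only [hF]
    linarith
  have h1F : ∀ s, 1 ≤ F s := by
    intro s
    have h1 := hs.H_sq_le hE s
    have h2 : 0 ≤ ∫ ξ in (-1:ℝ)..1, H u s ξ ^ 2 :=
      intervalIntegral.integral_nonneg (by norm_num) fun x _ => sq_nonneg _
    simp only [hF]
    linarith
  have hd : ∀ s, HasDerivAt F (3 * (∫ x in (-1:ℝ)..1, u s x * P u s x ^ 3) +
      3 * ∫ x in (-1:ℝ)..1, u s x * (P u s (-x) * P u s x ^ 2)) s := by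
    intro s
    have h := (((hs.W_deriv s).const_mul 2).add_const (2 * (1 + E / 2) ^ 6)).add_const 1
    refine h.congr_deriv ?_
    rw [← hs.split_deriv]
    ring
  have hF0le : F 0 ≤ F0 := by
    have h1 := hs.W_le hE 0
    have h2V0 := hs.two_V 0
    have n1 : 0 ≤ ∫ x in (-1:ℝ)..1, u 0 x ^ 2 :=
      intervalIntegral.integral_nonneg (by norm_num) fun x _ => sq_nonneg _
    have n2 : 0 ≤ ∫ x in (-1:ℝ)..1, ux u 0 x ^ 2 :=
      intervalIntegral.integral_nonneg (by norm_num) fun x _ => sq_nonneg _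
    have n3 : 0 ≤ ∫ x in (-1:ℝ)..1, ut u 0 x ^ 2 :=
      intervalIntegral.integral_nonneg (by norm_num) fun x _ => sq_nonneg _
    simp only [hF, hF0]
    linarith
  -- the maximum over `[-|t|, |t|]`
  have hcF : Continuous F := continuous_iff_continuousAt.mpr fun s => (hd s).continuousAt
  have hne : (Icc (-|t|) |t|).Nonempty := ⟨0, by constructor <;> simp⟩
  obtain ⟨s, hsI, hsmax⟩ := isCompact_Icc.exists_isMaxOn hne hcF.continuousOn
  have hst : F t ≤ F s := hsmax ⟨neg_abs_le t, le_abs_self t⟩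
  have h0s : F 0 ≤ F s := hsmax ⟨by simp, abs_nonneg t⟩
  set m := F s with hm
  have hm1 : 1 ≤ m := h1F s
  have hm0 : 0 < m := by linarith
  have hlm : 0 ≤ Real.log m := Real.log_nonneg hm1
  obtain ⟨J, hJ1, hJ2, hmJ⟩ := J_aux hm1
  have hsq : (Real.sqrt m) ^ 2 = m := Real.sq_sqrt hm0.le
  have hL1 : 1 ≤ Real.sqrt m := Real.one_le_sqrt.mpr hm1
  have habs : |s| ≤ |t| := abs_le.mpr hsI
  -- the increment of `F`
  have key : ∀ a b : ℝ, a ≤ b → b - a ≤ |t| → (∀ x ∈ Icc a b, x ∈ Icc (-|t|) |t|) →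
      |F b - F a| ≤ 3 * (C * (65 * (1 + Real.log m)) ^ 4 *
        Real.sqrt ((1 + |t| + m) * (1 + |t|))) + 3 * (c2 * (1 + |t|)) := by
    intro a b hab hba hsub
    have e1 : F b - F a = ∫ t in a..b, (3 * (∫ x in (-1:ℝ)..1, u t x * P u t x ^ 3) +
        3 * ∫ x in (-1:ℝ)..1, u t x * (P u t (-x) * P u t x ^ 2)) := by
      rw [integral_eq_sub_of_hasDerivAt (fun x _ => hd x)]
      exact ((continuous_const.mul hs.cont_A1).add
        (continuous_const.mul hs.cont_A2)).intervalIntegrable _ _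
    have k1 : IntervalIntegrable (fun t => 3 * ∫ x in (-1:ℝ)..1, u t x * P u t x ^ 3)
        volume a b := (continuous_const.mul hs.cont_A1).intervalIntegrable _ _
    have k2 : IntervalIntegrable (fun t => 3 * ∫ x in (-1:ℝ)..1,
        u t x * (P u t (-x) * P u t x ^ 2)) volume a b :=
      (continuous_const.mul hs.cont_A2).intervalIntegrable _ _
    rw [e1, intervalIntegral.integral_add k1 k2, intervalIntegral.integral_const_mul,
      intervalIntegral.integral_const_mul]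
    refine (abs_add_le _ _).trans ?_
    rw [abs_mul, abs_mul, abs_of_pos (by norm_num : (0:ℝ) < 3)]
    have g1 := hC0 u hs hE a b (Real.sqrt m) J hab hL1 hJ1 (by
      intro x hx
      rw [hsq]
      exact (hHF x).trans (hsmax (hsub x hx))) (by rw [hsq]; exact hmJ)
    rw [hsq] at g1
    have g2 : |∫ t in a..b, ∫ x in (-1:ℝ)..1, u t x * (P u t (-x) * P u t x ^ 2)| ≤
      c2 * (b - a + 1) := hs.A2_le hE hab
    have g3 : C0 * (J:ℝ) ^ 4 * Real.sqrt ((b - a + 1 + m) * (b - a + 1)) ≤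
        C * (65 * (1 + Real.log m)) ^ 4 * Real.sqrt ((1 + |t| + m) * (1 + |t|)) := by
      have g4 : (b - a + 1 + m) * (b - a + 1) ≤ (1 + |t| + m) * (1 + |t|) := by
        refine mul_le_mul (by linarith) (by linarith) (by linarith) (by positivity)
      have g5 := Real.sqrt_le_sqrt g4
      have g6 : C0 ≤ C := le_max_left _ _
      calc C0 * (J:ℝ) ^ 4 * Real.sqrt ((b - a + 1 + m) * (b - a + 1))
          ≤ C * (J:ℝ) ^ 4 * Real.sqrt ((b - a + 1 + m) * (b - a + 1)) := by gcongr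
        _ ≤ C * (65 * (1 + Real.log m)) ^ 4 * Real.sqrt ((1 + |t| + m) * (1 + |t|)) := by
            gcongr
    have g7 : c2 * (b - a + 1) ≤ c2 * (1 + |t|) :=
      mul_le_mul_of_nonneg_left (by linarith) hc20
    linarith
  have hinc : m - F 0 ≤ 3 * (C * (65 * (1 + Real.log m)) ^ 4 *
        Real.sqrt ((1 + |t| + m) * (1 + |t|))) + 3 * (c2 * (1 + |t|)) := by
    rcases le_total 0 s with h | h
    · have := key 0 s h (by rw [sub_zero]; exact (le_abs_self s).trans habs)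
        (fun x hx => ⟨by have := abs_nonneg t; linarith [hx.1],
          hx.2.trans ((le_abs_self s).trans habs)⟩)
      exact (le_abs_self _).trans this
    · have := key s 0 h (by rw [zero_sub]; exact (neg_le_abs s).trans habs)
        (fun x hx => ⟨hsI.1.trans hx.1, hx.2.trans (abs_nonneg t)⟩)
      rw [abs_sub_comm] at this
      exact (le_abs_self _).trans this
  -- the final inequality
  have hτ1 : 1 ≤ 1 + |t| := by
    have := abs_nonneg t
    linarith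
  have hS : 1 + |t| ≤ Real.sqrt ((1 + |t| + m) * (1 + |t|)) :=
    sqrt_aux (by positivity) hm0.le
  have hℓ : 1 ≤ (1 + Real.log m) ^ 4 := one_le_pow₀ (by linarith)
  have hS1 : 1 ≤ Real.sqrt ((1 + |t| + m) * (1 + |t|)) := hτ1.trans hS
  have hfin : m ≤ (F0 + 3 * (65 ^ 4 * C) + 3 * c2) * (1 + Real.log m) ^ 4 *
      Real.sqrt ((1 + |t| + m) * (1 + |t|)) :=
    fin_aux hF00 hc20 hinc hF0le hS hS1 hℓ
  have := hB m (1 + |t|) hm1 hτ1 hfin
  exact (hHF t).trans (hst.trans this)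

end Sol

/-- **Main theorem, conditional on the trilinear estimate.** -/
theorem main_of_tri (htri : TriStatement) (R : ℝ) : ∃ C : ℝ, ∀ u : ℝ → ℝ → ℝ, Sol u →
    Vnorm u 0 ≤ R → ∀ t : ℝ,
    ((∀ a b, AbsolutelyContinuousOnInterval (ux u t) a b) ∧
      (∀ a b, AbsolutelyContinuousOnInterval (ut u t) a b) ∧
      IntervalIntegrable (fun x => deriv (ux u t) x ^ 2) volume 0 1 ∧
      IntervalIntegrable (fun x => deriv (ut u t) x ^ 2) volume 0 1) ∧
    Vnorm u t ≤ C * ((1 + |t|) ^ ((1:ℝ) / 2) * Real.log (2 + |t|) ^ 4) ∧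
    ∀ x : ℝ, |ux u t x| ≤ C * ((1 + |t|) ^ ((1:ℝ) / 4) * Real.log (2 + |t|) ^ 2) ∧
      |ut u t x| ≤ C * ((1 + |t|) ^ ((1:ℝ) / 4) * Real.log (2 + |t|) ^ 2) := by
  set r : ℝ := R ^ 2 with hr
  set E : ℝ := 4 * r + (1 + r) ^ 4 with hE
  have hr0 : 0 ≤ r := by positivity
  have hE0 : 0 ≤ E := by positivity
  obtain ⟨B, hB1, hB⟩ := Sol.F_growth htri r
  set D : ℝ := (1 + E / 2) ^ 2 + E + B with hD
  have hD0 : 0 ≤ D := by positivity
  refine ⟨max (81 * Real.sqrt D) (9 * ((3 / 2 * E + 1) * B)), fun u hs h0 t => ⟨⟨hs.ux_ac t,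
    hs.ut_ac t, hs.uxx_sq t 0 1, hs.utx_sq t 0 1⟩, ?_⟩⟩
  have hV : VnormSq u 0 ≤ r := by
    unfold Vnorm at h0
    have hR : 0 ≤ R := (Real.sqrt_nonneg _).trans h0
    exact (Real.sqrt_le_left hR).mp h0
  have hEn : En u 0 ≤ E := hs.En_le hV
  have hH := hB u hs hV t
  have ht : (0:ℝ) ≤ |t| := abs_nonneg t
  set τ : ℝ := 1 + |t| with hτ
  have hτ1 : 1 ≤ τ := by linarith
  have hτ0 : 0 < τ := by linarith
  have hlτ : 0 ≤ Real.log τ := Real.log_nonneg hτ1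
  -- comparison of logarithms
  have hlog : 1 + Real.log τ ≤ 3 * Real.log (2 + |t|) := by
    have h1 : Real.log τ ≤ Real.log (2 + |t|) := Real.log_le_log hτ0 (by linarith)
    have h2 : Real.log 2 ≤ Real.log (2 + |t|) := Real.log_le_log (by norm_num) (by linarith)
    have h3 := Real.log_two_gt_d9
    linarith
  have hl0 : 0 ≤ Real.log (2 + |t|) := Real.log_nonneg (by linarith)
  constructor
  · have h2V := hs.two_V t
    have hPE := hs.P_sq_le hEn t
    have m2 := (hs.ux_sq_le t).trans hPE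
    have m3 := (hs.ut_sq_le t).trans hPE
    have m1 : ∫ x in (-1:ℝ)..1, u t x ^ 2 ≤ 2 * (1 + E / 2) ^ 2 := by
      have h1 : ∫ x in (-1:ℝ)..1, u t x ^ 2 ≤ ∫ _x in (-1:ℝ)..1, (1 + E / 2) ^ 2 := by
        refine intervalIntegral.integral_mono_on (by norm_num)
          (((hs.cont_u' t).pow 2).intervalIntegrable _ _) intervalIntegrable_const ?_
        intro x _
        rw [← sq_abs (u t x)]
        exact pow_le_pow_left₀ (abs_nonneg _) (hs.u_bound hEn t x) 2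
      rw [intervalIntegral.integral_const] at h1
      norm_num at h1
      linarith
    have h5 : 1 ≤ τ * (1 + Real.log τ) ^ 8 := by
      have : 1 ≤ (1 + Real.log τ) ^ 8 := one_le_pow₀ (by linarith)
      nlinarith
    have h6 : VnormSq u t ≤ D * (τ * (1 + Real.log τ) ^ 8) := by
      have h7 : 0 ≤ (1 + E / 2) ^ 2 + E := by positivity
      have h8 : (1 + E / 2) ^ 2 + E ≤ ((1 + E / 2) ^ 2 + E) * (τ * (1 + Real.log τ) ^ 8) :=
        le_mul_of_one_le_right h7 h5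
      have h9 : 0 ≤ B * (τ * (1 + Real.log τ) ^ 8) := by positivity
      rw [hD, add_mul]
      linarith
    unfold Vnorm
    have h10 : τ * (1 + Real.log τ) ^ 8 = (τ ^ ((1:ℝ) / 2) * (1 + Real.log τ) ^ 4) ^ 2 := by
      rw [mul_pow, ← Real.rpow_natCast (τ ^ ((1:ℝ) / 2)) 2, ← Real.rpow_mul hτ0.le]
      norm_num
      left
      ring
    have h11 : 0 ≤ τ ^ ((1:ℝ) / 2) * (1 + Real.log τ) ^ 4 := by positivity
    calc Real.sqrt (VnormSq u t) ≤ Real.sqrt (D * (τ * (1 + Real.log τ) ^ 8)) :=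
          Real.sqrt_le_sqrt h6
      _ = Real.sqrt D * (τ ^ ((1:ℝ) / 2) * (1 + Real.log τ) ^ 4) := by
          rw [Real.sqrt_mul hD0, h10, Real.sqrt_sq h11]
      _ ≤ Real.sqrt D * (τ ^ ((1:ℝ) / 2) * (3 * Real.log (2 + |t|)) ^ 4) := by gcongr
      _ = (81 * Real.sqrt D) * (τ ^ ((1:ℝ) / 2) * Real.log (2 + |t|) ^ 4) := by ring
      _ ≤ _ := mul_le_mul_of_nonneg_right (le_max_left _ _) (by positivity)
  · intro x
    set q : ℝ := B * (τ ^ ((1:ℝ) / 4) * (1 + Real.log τ) ^ 2) with hq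
    have hq1 : 1 ≤ q := by
      have h1 : 1 ≤ τ ^ ((1:ℝ) / 4) := Real.one_le_rpow hτ1 (by norm_num)
      have h2 : 1 ≤ (1 + Real.log τ) ^ 2 := one_le_pow₀ (by linarith)
      have h3 : 1 ≤ τ ^ ((1:ℝ) / 4) * (1 + Real.log τ) ^ 2 := by nlinarith
      rw [hq]
      nlinarith
    have hq4 : B * (τ * (1 + Real.log τ) ^ 8) ≤ q ^ 4 := by
      have h1 : q ^ 4 = B ^ 4 * (τ * (1 + Real.log τ) ^ 8) := by
        rw [hq, mul_pow, mul_pow, ← Real.rpow_natCast (τ ^ ((1:ℝ) / 4)) 4,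
          ← Real.rpow_mul hτ0.le]
        norm_num
        left
        left
        ring
      rw [h1]
      have h2 : B ≤ B ^ 4 := le_self_pow₀ hB1 (by norm_num)
      exact mul_le_mul_of_nonneg_right h2 (by positivity)
    have hgr := hs.grad_le hEn t hq1 (hH.trans hq4) x
    have h6 : (3 / 2 * E + 1) * q ≤ max (81 * Real.sqrt D) (9 * ((3 / 2 * E + 1) * B)) *
        (τ ^ ((1:ℝ) / 4) * Real.log (2 + |t|) ^ 2) := by
      calc (3 / 2 * E + 1) * q
          = (3 / 2 * E + 1) * (B * (τ ^ ((1:ℝ) / 4) * (1 + Real.log τ) ^ 2)) := by rw [hq]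
        _ ≤ (3 / 2 * E + 1) * (B * (τ ^ ((1:ℝ) / 4) * (3 * Real.log (2 + |t|)) ^ 2)) := by
            gcongr
        _ = (9 * ((3 / 2 * E + 1) * B)) * (τ ^ ((1:ℝ) / 4) * Real.log (2 + |t|) ^ 2) := by ring
        _ ≤ _ := mul_le_mul_of_nonneg_right (le_max_right _ _) (by positivity)
    exact ⟨hgr.1.trans h6, hgr.2.trans h6⟩

end MPc1e222
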