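import Mathlib
import Pool.Agent.Lib.MP_c1e222_an.Asm
import Pool.Agent.Lib.MP_c1e222_an.Iface

/-!
The trilinear estimate of the board `c1e_modules` implies the one used in `Asm`.
-/

namespace MPc1e222

open MeasureTheory intervalIntegral Set Filter Topology

/-- Cauchy-Schwarz on an interval. -/
theorem cs_int {h : ℝ → ℝ} {a b : ℝ} (hab : a ≤ b) (h1 : IntervalIntegrable h volume a b)
    (h2 : IntervalIntegrable (fun x => h x ^ 2) volume a b) :
    (∫ x in a..b, h x) ^ 2 ≤ (b - a) * ∫ x in a..b, h x ^ 2 := by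
  rcases hab.eq_or_lt with rfl | hlt
  · simp
  · have hba : 0 < b - a := by linarith
    set m := (∫ x in a..b, h x) / (b - a) with hm
    have hI : ∫ x in a..b, h x = m * (b - a) := by
      rw [hm]
      field_simp
    have h3 : 0 ≤ ∫ x in a..b, (h x - m) ^ 2 :=
      intervalIntegral.integral_nonneg hab fun x _ => sq_nonneg _
    have h4 : ∫ x in a..b, (h x - m) ^ 2 =
        (∫ x in a..b, h x ^ 2) - 2 * m * (m * (b - a)) + m ^ 2 * (b - a) := by
      have e : (fun x => (h x - m) ^ 2) = fun x => (h x ^ 2 - 2 * m * h x) + m ^ 2 := by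
        funext x
        ring
      rw [e, intervalIntegral.integral_add (h2.sub (h1.const_mul _)) intervalIntegrable_const,
        intervalIntegral.integral_sub h2 (h1.const_mul _), intervalIntegral.integral_const_mul,
        intervalIntegral.integral_const, hI]
      simp only [smul_eq_mul]
      ring
    rw [h4] at h3
    rw [hI]
    nlinarith

/-- A function with a `2`-periodic square integrable derivative satisfies `HL`. -/
theorem hl_of_deriv {f h : ℝ → ℝ} (hf : ∀ x, f x = f 0 + ∫ y in (0:ℝ)..x, h y)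
    (hi : ∀ a b, IntervalIntegrable h volume a b)
    (h2 : ∀ a b, IntervalIntegrable (fun x => h x ^ 2) volume a b)
    (hp : ∀ x, h (x + 2) = h x) (pf : ∀ x, f (x + 2) = f x) (cf : Continuous f) {L : ℝ}
    (hL : ∫ x in (-1:ℝ)..1, h x ^ 2 ≤ L ^ 2) : Pool.Agent.C1E.HL L f := by
  have hfd : ∀ x y, f x - f y = ∫ s in y..x, h s := by
    intro x y
    rw [hf x, hf y, ← intervalIntegral.integral_interval_sub_left (hi 0 x) (hi 0 y)]
    ring
  have hper : Function.Periodic (fun x => h x ^ 2) 2 := fun x => by simp only [hp]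
  have hIper : ∀ a, ∫ x in a..(a + 2), h x ^ 2 = ∫ x in (-1:ℝ)..1, h x ^ 2 := by
    intro a
    have := hper.intervalIntegral_add_eq a (-1)
    rw [this]
    norm_num
  set G : ℝ → ℝ := fun x => ∫ y in (0:ℝ)..x, h y ^ 2 with hG
  have hGc : Continuous G := continuous_primitive (fun a b => h2 a b) 0
  have hGd : ∀ x y, ∫ s in y..x, h s ^ 2 = G x - G y := by
    intro x y
    simp only [hG]
    rw [← intervalIntegral.integral_interval_sub_left (h2 0 x) (h2 0 y)]
  constructor
  · intro x y hxy
    wlog hyx : y ≤ x generalizing x y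
    · have := this y x (by rwa [abs_sub_comm]) (by linarith)
      rw [abs_sub_comm]
      calc (f x - f y) ^ 2 = (f y - f x) ^ 2 := by ring
        _ ≤ _ := this
    rw [abs_of_nonneg (by linarith : 0 ≤ x - y)] at hxy ⊢
    rw [hfd]
    refine (cs_int hyx (hi _ _) (h2 _ _)).trans ?_
    have h3 : ∫ s in y..x, h s ^ 2 ≤ ∫ s in y..(y + 2), h s ^ 2 :=
      intervalIntegral.integral_mono_interval le_rfl hyx (by linarith)
        (Eventually.of_forall fun s => sq_nonneg _) (h2 _ _)
    rw [hIper] at h3
    have h4 : 0 ≤ x - y := by linarith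
    nlinarith [mul_le_mul_of_nonneg_left (h3.trans hL) h4]
  · -- the L2 modulus
    have main : ∀ z : ℝ, 0 ≤ z →
        Pool.Agent.C1E.cint (fun x => (f (x + z) - f x) ^ 2) ≤ L ^ 2 * z ^ 2 := by
      intro z hz
      unfold Pool.Agent.C1E.cint
      have h3 : ∫ x in (-1:ℝ)..1, (f (x + z) - f x) ^ 2 ≤
          ∫ x in (-1:ℝ)..1, z * (G (x + z) - G x) := by
        refine intervalIntegral.integral_mono_on (by norm_num) ?_ ?_ ?_
        · exact (((cf.comp (by fun_prop : Continuous fun x : ℝ => x + z)).sub
            cf).pow 2).intervalIntegrable _ _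
        · exact (continuous_const.mul ((hGc.comp (by fun_prop : Continuous fun x : ℝ => x + z)).sub
            hGc)).intervalIntegrable _ _
        · intro x _
          rw [hfd, ← hGd]
          have := cs_int (a := x) (b := x + z) (by linarith) (hi _ _) (h2 _ _)
          rw [add_sub_cancel_left] at this
          exact this
      refine h3.trans ?_
      have iG : ∀ a b, IntervalIntegrable G volume a b := fun a b => hGc.intervalIntegrable a b
      have iGz : IntervalIntegrable (fun x => G (x + z)) volume (-1) 1 :=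
        (hGc.comp (by fun_prop : Continuous fun x : ℝ => x + z)).intervalIntegrable _ _
      rw [intervalIntegral.integral_const_mul, intervalIntegral.integral_sub iGz (iG _ _)]
      have e1 : ∫ x in (-1:ℝ)..1, G (x + z) = ∫ x in (-1 + z)..(1 + z), G x :=
        intervalIntegral.integral_comp_add_right (fun x => G x) z
      have e2 : (∫ x in (-1 + z)..(1 + z), G x) - ∫ x in (-1:ℝ)..1, G x =
          (∫ x in (1:ℝ)..(1 + z), G x) - ∫ x in (-1:ℝ)..(-1 + z), G x := by
        have a1 := intervalIntegral.integral_add_adjacent_intervals (iG (-1) 1) (iG 1 (1 + z))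
        have a2 := intervalIntegral.integral_add_adjacent_intervals (iG (-1) (-1 + z))
          (iG (-1 + z) (1 + z))
        linarith
      have e3 : ∫ x in (1:ℝ)..(1 + z), G x = ∫ x in (-1:ℝ)..(-1 + z), G (x + 2) := by
        have := intervalIntegral.integral_comp_add_right (a := -1) (b := -1 + z) (fun x => G x) 2
        rw [this]
        congr 1 <;> ring
      have iG2 : IntervalIntegrable (fun x => G (x + 2)) volume (-1) (-1 + z) :=
        (hGc.comp (by fun_prop : Continuous fun x : ℝ => x + 2)).intervalIntegrable _ _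
      have e4 : (∫ x in (-1:ℝ)..(-1 + z), G (x + 2)) - ∫ x in (-1:ℝ)..(-1 + z), G x =
          z * ∫ x in (-1:ℝ)..1, h x ^ 2 := by
        rw [← intervalIntegral.integral_sub iG2 (iG _ _)]
        have e5 : (fun x => G (x + 2) - G x) = fun _ => ∫ x in (-1:ℝ)..1, h x ^ 2 := by
          funext x
          rw [← hGd, hIper]
        rw [e5, intervalIntegral.integral_const]
        simp only [smul_eq_mul]
        ring
      rw [e1, e2, e3, e4]
      calc z * (z * ∫ x in (-1:ℝ)..1, h x ^ 2) = z ^ 2 * ∫ x in (-1:ℝ)..1, h x ^ 2 := by ring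
        _ ≤ z ^ 2 * L ^ 2 := mul_le_mul_of_nonneg_left hL (sq_nonneg z)
        _ = L ^ 2 * z ^ 2 := by ring
    intro z
    rcases le_total 0 z with hz | hz
    · exact main z hz
    · have h3 := main (-z) (by linarith)
      have hpz : ∀ x, (f (x + 2 + z) - f (x + 2)) ^ 2 = (f (x + z) - f x) ^ 2 := by
        intro x
        rw [pf, show x + 2 + z = x + z + 2 by ring, pf]
      have h4 := per_int (f := fun x => (f (x + z) - f x) ^ 2) hpz z
      have h5 : Pool.Agent.C1E.cint (fun x => (f (x + -z) - f x) ^ 2) =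
          Pool.Agent.C1E.cint (fun x => (f (x + z) - f x) ^ 2) := by
        unfold Pool.Agent.C1E.cint
        rw [← h4]
        congr 1
        funext x
        show (f (x + -z) - f x) ^ 2 = (f (x - z + z) - f (x - z)) ^ 2
        rw [show x - z + z = x by ring, show x + -z = x - z by ring]
        ring
      rw [h5] at h3
      calc _ ≤ L ^ 2 * (-z) ^ 2 := h3
        _ = L ^ 2 * z ^ 2 := by ring

variable {u : ℝ → ℝ → ℝ}

theorem Sol.core (hs : Sol u) {E : ℝ} (hE : En u 0 ≤ E) : Pool.Agent.C1E.Core E u (P u) where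
  cu := hs.smooth.continuous
  cr := hs.cont_P
  pu := fun t x => hs.per t x
  pr := fun t x => hs.P_per t x
  odd := hs.odd
  ux := fun t x => by
    have h := has_ux hs.smooth t x
    rw [hs.ux_eq'] at h
    refine h.congr_deriv ?_
    ring
  ut := fun t x => by
    have h := has_ut hs.smooth t x
    rw [hs.ut_eq'] at h
    refine h.congr_deriv ?_
    ring
  rt := fun t y => hs.g_time t y
  hE := fun t => hs.P_sq_le hE t

theorem Sol.hl (hs : Sol u) {L : ℝ} (t : ℝ) (hL : ∫ ξ in (-1:ℝ)..1, H u t ξ ^ 2 ≤ L ^ 2) :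
    Pool.Agent.C1E.HL L (P u t) := by
  refine hl_of_deriv (h := fun x => H u t (x + t)) (fun x => hs.P_rep t x)
    (fun a b => hs.Hp_int t a b) (fun a b => hs.Hp_sq t a b) ?_ (fun x => hs.P_per t x)
    (hs.cont_P' t) ?_
  · intro x
    show H u t (x + 2 + t) = H u t (x + t)
    rw [show x + 2 + t = x + t + 2 by ring, hs.H_per_ae]
  · have := per_int (f := fun ξ => H u t ξ ^ 2) (fun ξ => by rw [hs.H_per_ae]) (-t)
    have e : ∫ x in (-1:ℝ)..1, H u t (x + t) ^ 2 = ∫ x in (-1:ℝ)..1, H u t x ^ 2 := by
      simpa using this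
    show ∫ x in (-1:ℝ)..1, H u t (x + t) ^ 2 ≤ L ^ 2
    rw [e]
    exact hL

/-- The trilinear estimate of the board gives the one used in `Asm`. -/
theorem tri_of_c1e (h : Pool.Agent.C1E.TriStatement) : TriStatement := by
  intro E
  obtain ⟨C, _, hC⟩ := h E
  refine ⟨C, ?_⟩
  intro u hs hE t0 t1 L J ht hL hJ hH hLJ
  have h1 := hC u (P u) (hs.core hE) t0 t1 ht L hL (fun t htt => hs.hl t (hH t htt)) J hJ hLJ
  exact h1

end MPc1e222
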