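import Mathlib
import Pool.Agent.Lib.MP_c1e222_an.Bridge

/-!
From the class `VSol` on `(0,1)` to the class `Sol` of the odd periodic extensions.
-/

namespace MPc1e222

open MeasureTheory intervalIntegral Set Filter Topology Pool.Agent.C1E

theorem contDiff_of_partials {u a b : ℝ → ℝ → ℝ}
    (ha : ∀ t x, HasDerivAt (fun s => u s x) (a t x) t)
    (hb : ∀ t x, HasDerivAt (u t) (b t x) x)
    (ca : Continuous (fun p : ℝ × ℝ => a p.1 p.2)) (cb : Continuous (fun p : ℝ × ℝ => b p.1 p.2)) :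
    ContDiff ℝ 1 (fun p : ℝ × ℝ => u p.1 p.2) := by
  have es : ∀ c : ℝ, ContinuousLinearMap.toSpanSingleton ℝ c = c • (1 : ℝ →L[ℝ] ℝ) := by
    intro c
    ext
    simp
  have key : ∀ p : ℝ × ℝ, HasStrictFDerivAt (fun p : ℝ × ℝ => u p.1 p.2)
      ((ContinuousLinearMap.toSpanSingleton ℝ (a p.1 p.2)).coprod
        (ContinuousLinearMap.toSpanSingleton ℝ (b p.1 p.2))) p := by
    intro p
    exact hasStrictFDerivAt_uncurry_coprod (𝕜 := ℝ) (f := u)
      (f₁ := fun t x => ContinuousLinearMap.toSpanSingleton ℝ (a t x))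
      (f₂ := fun t x => ContinuousLinearMap.toSpanSingleton ℝ (b t x))
      (Eventually.of_forall fun v => (ha v.1 v.2).hasFDerivAt)
      (Eventually.of_forall fun v => (hb v.1 v.2).hasFDerivAt)
      (by
        have : Continuous fun p : ℝ × ℝ => ContinuousLinearMap.toSpanSingleton ℝ (a p.1 p.2) := by
          simp only [es]
          exact ca.smul continuous_const
        exact this.continuousAt)
      (by
        have : Continuous fun p : ℝ × ℝ => ContinuousLinearMap.toSpanSingleton ℝ (b p.1 p.2) := by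
          simp only [es]
          exact cb.smul continuous_const
        exact this.continuousAt)
  rw [contDiff_one_iff_fderiv]
  refine ⟨fun p => (key p).differentiableAt, ?_⟩
  have e : fderiv ℝ (fun p : ℝ × ℝ => u p.1 p.2) = fun p =>
      a p.1 p.2 • ContinuousLinearMap.fst ℝ ℝ ℝ + b p.1 p.2 • ContinuousLinearMap.snd ℝ ℝ ℝ := by
    funext p
    rw [(key p).hasFDerivAt.fderiv]
    ext <;> simp
  rw [e]
  exact (ca.smul continuous_const).add (cb.smul continuous_const)

/-! Reduction modulo 2. -/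

theorem rd_per (x : ℝ) : rd (x + 2) = rd x := by
  unfold rd
  have : ⌊(x + 2 + 1) / 2⌋ = ⌊(x + 1) / 2⌋ + 1 := by
    rw [show (x + 2 + 1) / 2 = (x + 1) / 2 + 1 by ring, Int.floor_add_one]
  rw [this]
  push_cast
  ring

theorem oext_per (f : ℝ → ℝ) (x : ℝ) : oext f (x + 2) = oext f x := by
  unfold oext
  rw [rd_per]

theorem eext_per (f : ℝ → ℝ) (x : ℝ) : eext f (x + 2) = eext f x := by
  unfold eext
  rw [rd_per]

theorem rd_self {x : ℝ} (h0 : -1 ≤ x) (h1 : x < 1) : rd x = x := by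
  have : ⌊(x + 1) / 2⌋ = 0 := Int.floor_eq_zero_iff.mpr ⟨by linarith, by linarith⟩
  simp [rd, this]

theorem rd_one' : rd 1 = -1 := by
  have : ⌊((1 : ℝ) + 1) / 2⌋ = 1 := by norm_num
  simp only [rd, this]
  norm_num

theorem oext_on {f : ℝ → ℝ} (h1 : f 1 = 0) {x : ℝ} (hx : x ∈ Icc (0 : ℝ) 1) : oext f x = f x := by
  rcases eq_or_lt_of_le hx.2 with h | h
  · subst h
    rw [oext, rd_one', if_neg (by norm_num)]
    simp [h1]
  · rw [oext, rd_self (by linarith [hx.1]) h, if_pos hx.1]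

theorem oext_on_neg {f : ℝ → ℝ} (h0 : f 0 = 0) {x : ℝ} (hx : x ∈ Icc (0 : ℝ) 1) :
    oext f (-x) = -f x := by
  rcases eq_or_lt_of_le hx.1 with h | h
  · subst h
    rw [neg_zero, oext, rd_self (by norm_num) (by norm_num), if_pos le_rfl, h0]
    simp
  · rw [oext, rd_self (by linarith [hx.2]) (by linarith), if_neg (by linarith), neg_neg]

theorem eext_on {f : ℝ → ℝ} {x : ℝ} (hx : x ∈ Icc (0 : ℝ) 1) : eext f x = f x := by
  rcases eq_or_lt_of_le hx.2 with h | h
  · subst h
    rw [eext, rd_one']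
    simp
  · rw [eext, rd_self (by linarith [hx.1]) h, abs_of_nonneg hx.1]

theorem eext_on_neg {f : ℝ → ℝ} {x : ℝ} (hx : x ∈ Icc (0 : ℝ) 1) : eext f (-x) = f x := by
  rcases eq_or_lt_of_le hx.1 with h | h
  · subst h
    rw [neg_zero, eext, rd_self (by norm_num) (by norm_num), abs_zero]
  · rw [eext, rd_self (by linarith [hx.2]) (by linarith), abs_neg, abs_of_pos h]

/-! Primitives of periodic extensions. -/

section prim

variable {k K : ℝ → ℝ} {σ : ℝ}

theorem ae_ne' (a : ℝ) : ∀ᵐ x : ℝ, x ≠ a := by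
  simp [ae_iff]

theorem K_int (hk : IntervalIntegrable k volume 0 1) (h1 : ∀ x ∈ Ioo (0:ℝ) 1, K x = k x)
    (h2 : ∀ x ∈ Ioo (0:ℝ) 1, K (-x) = σ * k x) (hp : ∀ x, K (x + 2) = K x) (a b : ℝ) :
    IntervalIntegrable K volume a b := by
  have i1 : IntervalIntegrable K volume 0 1 := by
    refine hk.congr_ae ?_
    refine (ae_restrict_iff' measurableSet_uIoc).mpr ?_
    filter_upwards [ae_ne' 1] with x hx hx'
    rw [uIoc_of_le (by norm_num)] at hx'
    exact (h1 x ⟨hx'.1, lt_of_le_of_ne hx'.2 hx⟩).symm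
  have i2 : IntervalIntegrable K volume (-1) 0 := by
    have h3 : IntervalIntegrable (fun x => σ * k (-x)) volume (-1) 0 := by
      have h5 : IntervalIntegrable (fun x => k (-x)) volume 0 (-1) := by
        have := IntervalIntegrable.comp_sub_left (c := 0) hk
        simpa using this
      exact (h5.const_mul σ).symm
    refine h3.congr_ae ?_
    refine (ae_restrict_iff' measurableSet_uIoc).mpr ?_
    filter_upwards [ae_ne' 0] with x hx hx'
    rw [uIoc_of_le (by norm_num)] at hx'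
    have h4 := h2 (-x) ⟨by
      have := lt_of_le_of_ne hx'.2 hx
      linarith, by linarith [hx'.1]⟩
    rw [neg_neg] at h4
    exact h4.symm
  have hper : Function.Periodic K 2 := hp
  refine hper.intervalIntegrable (t := -1) (by norm_num) ?_ a b
  have := i2.trans i1
  norm_num
  exact this

theorem K_pos (h1 : ∀ x ∈ Ioo (0:ℝ) 1, K x = k x) {x : ℝ} (hx : x ∈ Icc (0:ℝ) 1) :
    ∫ y in (0:ℝ)..x, K y = ∫ y in (0:ℝ)..x, k y := by
  apply intervalIntegral.integral_congr_ae
  filter_upwards [ae_ne' 1] with y hy hy'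
  rw [uIoc_of_le hx.1] at hy'
  exact h1 y ⟨hy'.1, lt_of_le_of_ne (hy'.2.trans hx.2) hy⟩

theorem K_neg (h2 : ∀ x ∈ Ioo (0:ℝ) 1, K (-x) = σ * k x) {x : ℝ} (hx : x ∈ Icc (0:ℝ) 1) :
    ∫ y in (0:ℝ)..(-x), K y = -(σ * ∫ y in (0:ℝ)..x, k y) := by
  have e1 : ∫ y in (0:ℝ)..x, K (-y) = ∫ y in (-x)..(-0), K y :=
    intervalIntegral.integral_comp_neg (fun y => K y)
  have e2 : ∫ y in (0:ℝ)..x, K (-y) = ∫ y in (0:ℝ)..x, σ * k y := by
    apply intervalIntegral.integral_congr_ae
    filter_upwards [ae_ne' 1] with y hy hy'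
    rw [uIoc_of_le hx.1] at hy'
    exact h2 y ⟨hy'.1, lt_of_le_of_ne (hy'.2.trans hx.2) hy⟩
  rw [neg_zero] at e1
  rw [intervalIntegral.integral_symm, ← e1, e2, intervalIntegral.integral_const_mul]

theorem K_prim_per (hk : IntervalIntegrable k volume 0 1) (h1 : ∀ x ∈ Ioo (0:ℝ) 1, K x = k x)
    (h2 : ∀ x ∈ Ioo (0:ℝ) 1, K (-x) = σ * k x) (hp : ∀ x, K (x + 2) = K x)
    (h0 : (1 + σ) * (∫ y in (0:ℝ)..1, k y) = 0) (x : ℝ) :
    ∫ y in (0:ℝ)..(x + 2), K y = ∫ y in (0:ℝ)..x, K y := by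
  have iK := K_int hk h1 h2 hp
  have hper : Function.Periodic K 2 := hp
  have e1 := intervalIntegral.integral_add_adjacent_intervals (iK 0 x) (iK x (x + 2))
  have e2 := hper.intervalIntegral_add_eq x (-1)
  have e3 := intervalIntegral.integral_add_adjacent_intervals (iK (-1) 0) (iK 0 1)
  have e4 : ∫ y in (0:ℝ)..1, K y = ∫ y in (0:ℝ)..1, k y := K_pos h1 ⟨by norm_num, le_rfl⟩
  have e5 := K_neg h2 (x := 1) ⟨by norm_num, le_rfl⟩
  rw [intervalIntegral.integral_symm] at e5
  have e6 : (-1 + 2 : ℝ) = 1 := by norm_num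
  rw [e6] at e2
  linarith

/-- two `2`-periodic functions which agree on `[0,1]` and `[-1,0]` agree. -/
theorem per_ext {f g : ℝ → ℝ} (hf : ∀ x, f (x + 2) = f x) (hg : ∀ x, g (x + 2) = g x)
    (h1 : ∀ x ∈ Icc (0:ℝ) 1, f x = g x) (h2 : ∀ x ∈ Icc (0:ℝ) 1, f (-x) = g (-x)) (x : ℝ) :
    f x = g x := by
  have hp : ∀ x, f (x + 2) - g (x + 2) = f x - g x := fun x => by rw [hf, hg]
  obtain ⟨y, hy, h⟩ := Sol.exists_rep (f := fun x => f x - g x) hp x
  have h3 : f y - g y = 0 := by
    rcases le_total 0 y with h0 | h0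
    · rw [h1 y ⟨h0, hy.2⟩, sub_self]
    · have := h2 (-y) ⟨by linarith, by linarith [hy.1]⟩
      rw [neg_neg] at this
      rw [this, sub_self]
  have h4 : f x - g x = f y - g y := h
  linarith

end prim

/-- even extension of an `H^1` function -/
theorem eext_rep {f k : ℝ → ℝ} (hk : IntervalIntegrable k volume 0 1)
    (hf : ∀ x ∈ Icc (0:ℝ) 1, f x = f 0 + ∫ y in (0:ℝ)..x, k y) :
    (∀ a b, IntervalIntegrable (oext k) volume a b) ∧
      ∀ x, eext f x = f 0 + ∫ y in (0:ℝ)..x, oext k y := by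
  have h1 : ∀ x ∈ Ioo (0:ℝ) 1, oext k x = k x := fun x hx => by
    rw [oext, rd_self (by linarith [hx.1]) hx.2, if_pos hx.1.le]
  have h2 : ∀ x ∈ Ioo (0:ℝ) 1, oext k (-x) = (-1) * k x := fun x hx => by
    rw [oext, rd_self (by linarith [hx.2]) (by linarith [hx.1]), if_neg (by linarith [hx.1]),
      neg_neg]
    ring
  refine ⟨K_int hk h1 h2 (oext_per k), ?_⟩
  refine per_ext (eext_per f) ?_ ?_ ?_
  · intro x
    rw [K_prim_per hk h1 h2 (oext_per k) (by ring)]
  · intro x hx
    rw [eext_on hx, hf x hx, K_pos h1 hx]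
  · intro x hx
    rw [eext_on_neg hx, hf x hx, K_neg h2 hx]
    ring

/-- odd extension of an `H^1_0` function -/
theorem oext_rep {f k : ℝ → ℝ} (hk : IntervalIntegrable k volume 0 1) (h0 : f 0 = 0) (hf1 : f 1 = 0)
    (hf : ∀ x ∈ Icc (0:ℝ) 1, f x = ∫ y in (0:ℝ)..x, k y) :
    (∀ a b, IntervalIntegrable (eext k) volume a b) ∧
      ∀ x, oext f x = ∫ y in (0:ℝ)..x, eext k y := by
  have h1 : ∀ x ∈ Ioo (0:ℝ) 1, eext k x = k x := fun x hx => by
    rw [eext, rd_self (by linarith [hx.1]) hx.2, abs_of_pos hx.1]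
  have h2 : ∀ x ∈ Ioo (0:ℝ) 1, eext k (-x) = 1 * k x := fun x hx => by
    rw [eext, rd_self (by linarith [hx.2]) (by linarith [hx.1]), abs_neg, abs_of_pos hx.1, one_mul]
  refine ⟨K_int hk h1 h2 (eext_per k), ?_⟩
  refine per_ext (oext_per f) ?_ ?_ ?_
  · intro x
    refine K_prim_per hk h1 h2 (eext_per k) ?_ x
    rw [← hf 1 ⟨by norm_num, le_rfl⟩, hf1, mul_zero]
  · intro x hx
    rw [oext_on hf1 hx, hf x hx, K_pos h1 hx]
  · intro x hx
    rw [oext_on_neg h0 hx, hf x hx, K_neg h2 hx]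
    ring

theorem oext_neg' {f : ℝ → ℝ} (h0 : f 0 = 0) (hf1 : f 1 = 0) (x : ℝ) : oext f (-x) = -oext f x := by
  have h := per_ext (f := fun x => oext f (-x)) (g := fun x => -oext f x) ?_ ?_ ?_ ?_ x
  · exact h
  · intro x
    have := oext_per f (-(x + 2))
    rw [show -(x + 2) + 2 = -x by ring] at this
    exact this.symm
  · intro x
    simp only [oext_per]
  · intro x hx
    simp only [oext_on_neg h0 hx, oext_on hf1 hx]
  · intro x hx
    simp only [neg_neg, oext_on_neg h0 hx, oext_on hf1 hx]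

theorem eext_neg' (f : ℝ → ℝ) (x : ℝ) : eext f (-x) = eext f x := by
  have h := per_ext (f := fun x => eext f (-x)) (g := fun x => eext f x) ?_ ?_ ?_ ?_ x
  · exact h
  · intro x
    have := eext_per f (-(x + 2))
    rw [show -(x + 2) + 2 = -x by ring] at this
    exact this.symm
  · intro x
    simp only [eext_per]
  · intro x hx
    simp only [eext_on_neg hx, eext_on hx]
  · intro x hx
    simp only [neg_neg, eext_on_neg hx, eext_on hx]

/-- almost everywhere derivative of a primitive -/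
theorem deriv_prim_ae {f D : ℝ → ℝ} (hD : ∀ a b, IntervalIntegrable D volume a b)
    (h : ∀ x, f x = f 0 + ∫ y in (0:ℝ)..x, D y) : ∀ᵐ x : ℝ, deriv f x = D x := by
  have hloc : LocallyIntegrable D volume := by
    rw [locallyIntegrable_iff]
    intro S hS
    obtain ⟨a, b, hab⟩ : ∃ a b : ℝ, S ⊆ Ioc a b := by
      obtain ⟨R, hR⟩ := hS.isBounded.subset_closedBall 0
      refine ⟨-R - 1, R, fun x hx => ?_⟩
      have := hR hx
      rw [Real.closedBall_eq_Icc] at this
      exact ⟨by linarith [this.1], by linarith [this.2]⟩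
    rcases le_or_gt a b with hle | hlt
    · exact ((intervalIntegrable_iff_integrableOn_Ioc_of_le hle).mp (hD a b)).mono_set hab
    · rw [Ioc_eq_empty (by linarith)] at hab
      rw [subset_empty_iff.mp hab]
      exact integrableOn_empty
  filter_upwards [LocallyIntegrable.ae_hasDerivAt_integral hloc] with x hx
  have e : f = fun x => f 0 + ∫ y in (0:ℝ)..x, D y := funext h
  rw [e]
  exact ((hx 0).const_add (f 0)).deriv

section main

variable {u ux₀ ut₀ uxx utx : ℝ → ℝ → ℝ}

/-- **From `VSol` to `Sol`.** -/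
theorem sol_of_vsol (hext : ExtStatement) (h : VSol u ux₀ ut₀ uxx utx) :
    Sol (fun t => oext (u t)) ∧
      ∀ t, VnormSq (fun t => oext (u t)) t = VN u ux₀ ut₀ uxx utx t := by
  obtain ⟨hC, -⟩ := hext u ux₀ ut₀ uxx utx h
  set U : ℝ → ℝ → ℝ := fun t => oext (u t) with hU
  have ixx : ∀ t, IntervalIntegrable (uxx t) volume 0 1 := fun t =>
    (intervalIntegrable_iff_integrableOn_Ioc_of_le (by norm_num)).mpr
      ((h.mxx t).integrable (by norm_num))
  have itx : ∀ t, IntervalIntegrable (utx t) volume 0 1 := fun t =>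
    (intervalIntegrable_iff_integrableOn_Ioc_of_le (by norm_num)).mpr
      ((h.mtx t).integrable (by norm_num))
  have rx := fun t => eext_rep (ixx t) (h.iux t)
  have rt := fun t => oext_rep (itx t) (h.v0 t) (h.v1 t) (h.iut t)
  have podd := fun t => oext_neg' (h.v0 t) (h.v1 t)
  have hUx : ∀ t x, HasDerivAt (U t) (eext (ux₀ t) x) x := by
    intro t x
    refine (hC.ux t x).congr_deriv ?_
    simp only [podd, eext_neg']
    ring
  have hUt : ∀ t x, HasDerivAt (fun s => U s x) (oext (ut₀ t) x) t := by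
    intro t x
    refine (hC.ut t x).congr_deriv ?_
    simp only [podd, eext_neg']
    ring
  have cR : Continuous (fun p : ℝ × ℝ => oext (ut₀ p.1) p.2 + eext (ux₀ p.1) p.2) := hC.cr
  have cRn : Continuous (fun p : ℝ × ℝ => oext (ut₀ p.1) (-p.2) + eext (ux₀ p.1) (-p.2)) :=
    hC.cr.comp (by fun_prop : Continuous fun p : ℝ × ℝ => (p.1, -p.2))
  have cx : Continuous (fun p : ℝ × ℝ => eext (ux₀ p.1) p.2) := by
    have h3 : Continuous (fun p : ℝ × ℝ => (1 / 2 : ℝ) * ((oext (ut₀ p.1) p.2 + eext (ux₀ p.1) p.2) +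
        (oext (ut₀ p.1) (-p.2) + eext (ux₀ p.1) (-p.2)))) := continuous_const.mul (cR.add cRn)
    refine h3.congr fun p => ?_
    rw [podd, eext_neg']
    ring
  have ct : Continuous (fun p : ℝ × ℝ => oext (ut₀ p.1) p.2) := by
    have h3 : Continuous (fun p : ℝ × ℝ => (1 / 2 : ℝ) * ((oext (ut₀ p.1) p.2 + eext (ux₀ p.1) p.2) -
        (oext (ut₀ p.1) (-p.2) + eext (ux₀ p.1) (-p.2)))) := continuous_const.mul (cR.sub cRn)
    refine h3.congr fun p => ?_
    rw [podd, eext_neg']
    ring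
  have eux : ∀ t, ux U t = eext (ux₀ t) := fun t => funext fun x => (hUx t x).deriv
  have eut : ∀ t, ut U t = oext (ut₀ t) := fun t => funext fun x => (hUt t x).deriv
  have smooth : ContDiff ℝ 1 (fun p : ℝ × ℝ => U p.1 p.2) := contDiff_of_partials hUt hUx ct cx
  -- representation of `u_x`, `u_t` as primitives
  have rx' : ∀ t x, eext (ux₀ t) x = eext (ux₀ t) 0 + ∫ y in (0:ℝ)..x, oext (uxx t) y := by
    intro t x
    rw [(rx t).2 x, (rx t).2 0]
    simp
  have rt' : ∀ t x, oext (ut₀ t) x = oext (ut₀ t) 0 + ∫ y in (0:ℝ)..x, eext (utx t) y := by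
    intro t x
    rw [(rt t).2 x, (rt t).2 0]
    simp
  have dxx : ∀ t, ∀ᵐ x : ℝ, deriv (ux U t) x = oext (uxx t) x := by
    intro t
    rw [eux]
    exact deriv_prim_ae (rx t).1 (rx' t)
  have dtx : ∀ t, ∀ᵐ x : ℝ, deriv (ut U t) x = eext (utx t) x := by
    intro t
    rw [eut]
    exact deriv_prim_ae (rt t).1 (rt' t)
  -- squares
  have sqx : ∀ t, IntervalIntegrable (fun x => uxx t x ^ 2) volume 0 1 := fun t =>
    (intervalIntegrable_iff_integrableOn_Ioc_of_le (by norm_num)).mpr ((h.mxx t).integrable_sq)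
  have sqt : ∀ t, IntervalIntegrable (fun x => utx t x ^ 2) volume 0 1 := fun t =>
    (intervalIntegrable_iff_integrableOn_Ioc_of_le (by norm_num)).mpr ((h.mtx t).integrable_sq)
  have sqox : ∀ t, IntervalIntegrable (fun x => oext (uxx t) x ^ 2) volume (-1) 1 := by
    intro t
    refine K_int (k := fun x => uxx t x ^ 2) (σ := 1) (sqx t) ?_ ?_ ?_ (-1) 1
    · intro x hx
      rw [oext, rd_self (by linarith [hx.1]) hx.2, if_pos hx.1.le]
    · intro x hx
      rw [oext, rd_self (by linarith [hx.2]) (by linarith [hx.1]), if_neg (by linarith [hx.1]),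
        neg_neg]
      ring
    · intro x
      rw [oext_per]
  have sqet : ∀ t, IntervalIntegrable (fun x => eext (utx t) x ^ 2) volume (-1) 1 := by
    intro t
    refine K_int (k := fun x => utx t x ^ 2) (σ := 1) (sqt t) ?_ ?_ ?_ (-1) 1
    · intro x hx
      rw [eext, rd_self (by linarith [hx.1]) hx.2, abs_of_pos hx.1]
    · intro x hx
      rw [eext, rd_self (by linarith [hx.2]) (by linarith [hx.1]), abs_neg, abs_of_pos hx.1, one_mul]
    · intro x
      rw [eext_per]
  constructor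
  · refine ⟨smooth, hC.odd, fun t x => hC.pu t x, ?_, ?_, ?_, ?_, ?_⟩
    · intro t x
      have hc : Continuous (fun s : ℝ => -(U s (x - s)) ^ 3) :=
        ((smooth.continuous.comp (by fun_prop : Continuous fun s : ℝ => (s, x - s))).pow 3).neg
      have h1 := integral_eq_sub_of_hasDerivAt (a := 0) (b := t) (fun s _ => hC.rt s x)
        (hc.intervalIntegrable _ _)
      simp only [sub_zero] at h1
      have h2 : ∀ s y, ut U s y + ux U s y = oext (ut₀ s) y + eext (ux₀ s) y := by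
        intro s y
        rw [eux, eut]
      rw [h2, h2]
      have h3 : ∫ s in (0:ℝ)..t, -(U s (x - s)) ^ 3 = -∫ s in (0:ℝ)..t, U s (x - s) ^ 3 :=
        intervalIntegral.integral_neg
      rw [h3] at h1
      linarith
    · intro a b
      rw [eux]
      exact ac_of_int (rx 0).1 (rx' 0) a b
    · intro a b
      rw [eut]
      exact ac_of_int (rt 0).1 (rt' 0) a b
    · refine (sqox 0).congr_ae ?_
      refine ae_restrict_of_ae ?_
      filter_upwards [dxx 0] with x hx
      rw [hx]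
    · refine (sqet 0).congr_ae ?_
      refine ae_restrict_of_ae ?_
      filter_upwards [dtx 0] with x hx
      rw [hx]
  · intro t
    have sx2 : IntervalIntegrable (fun x => U t x ^ 2 + ux U t x ^ 2) volume 0 1 := by
      have c1 : Continuous (U t) := smooth.continuous.comp (by fun_prop : Continuous fun x : ℝ => (t, x))
      have c2 : Continuous (ux U t) := (cont_ux smooth).comp (by fun_prop : Continuous fun x : ℝ => (t, x))
      exact ((c1.pow 2).add (c2.pow 2)).intervalIntegrable _ _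
    have st2 : IntervalIntegrable (fun x => ut U t x ^ 2) volume 0 1 := by
      have c2 : Continuous (ut U t) := (cont_ut smooth).comp (by fun_prop : Continuous fun x : ℝ => (t, x))
      exact (c2.pow 2).intervalIntegrable _ _
    -- identify the integrands on `(0,1)`
    have key : ∀ᵐ x : ℝ, x ∈ uIoc (0:ℝ) 1 → (U t x ^ 2 + ux U t x ^ 2 + deriv (ux U t) x ^ 2 +
        (ut U t x ^ 2 + deriv (ut U t) x ^ 2)) =
        (u t x ^ 2 + ux₀ t x ^ 2 + uxx t x ^ 2) + (ut₀ t x ^ 2 + utx t x ^ 2) := by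
      filter_upwards [dxx t, dtx t, ae_ne' 1] with x h1 h2 h3 hx
      rw [uIoc_of_le (by norm_num)] at hx
      have hx1 : x < 1 := lt_of_le_of_ne hx.2 h3
      have hxI : x ∈ Icc (0:ℝ) 1 := ⟨hx.1.le, hx.2⟩
      rw [h1, h2, eux, eut]
      have e1 : U t x = u t x := oext_on (h.u1 t) hxI
      have e2 : eext (ux₀ t) x = ux₀ t x := eext_on hxI
      have e3 : oext (ut₀ t) x = ut₀ t x := oext_on (h.v1 t) hxI
      have e4 : oext (uxx t) x = uxx t x := by
        rw [oext, rd_self (by linarith [hx.1]) hx1, if_pos hx.1.le]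
      have e5 : eext (utx t) x = utx t x := eext_on hxI
      rw [e1, e2, e3, e4, e5]
    unfold VnormSq VN
    rw [intervalIntegral.integral_congr_ae key]
    have j1 : IntervalIntegrable (fun x => u t x ^ 2 + ux₀ t x ^ 2 + uxx t x ^ 2) volume 0 1 := by
      have j0 := sx2.add (sqx t)
      refine j0.congr_ae ?_
      refine (ae_restrict_iff' measurableSet_uIoc).mpr (Eventually.of_forall fun x hx => ?_)
      rw [uIoc_of_le (by norm_num)] at hx
      have hxI : x ∈ Icc (0:ℝ) 1 := ⟨hx.1.le, hx.2⟩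
      show U t x ^ 2 + ux U t x ^ 2 + uxx t x ^ 2 = _
      rw [eux]
      have e1 : U t x = u t x := oext_on (h.u1 t) hxI
      have e2 : eext (ux₀ t) x = ux₀ t x := eext_on hxI
      rw [e1, e2]
    have j2 : IntervalIntegrable (fun x => ut₀ t x ^ 2 + utx t x ^ 2) volume 0 1 := by
      have j0 := st2.add (sqt t)
      refine j0.congr_ae ?_
      refine (ae_restrict_iff' measurableSet_uIoc).mpr (Eventually.of_forall fun x hx => ?_)
      rw [uIoc_of_le (by norm_num)] at hx
      have hxI : x ∈ Icc (0:ℝ) 1 := ⟨hx.1.le, hx.2⟩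
      show ut U t x ^ 2 + utx t x ^ 2 = _
      rw [eut]
      have e3 : oext (ut₀ t) x = ut₀ t x := oext_on (h.v1 t) hxI
      rw [e3]
    exact intervalIntegral.integral_add j1 j2

/-- **Final theorem for `V`-solutions on `(0,1)`**, with a constant that depends only on the size
of the data. -/
theorem main_vsol (hext : ExtStatement) (htri : Pool.Agent.C1E.TriStatement) (R : ℝ) : ∃ C : ℝ,
    ∀ u ux₀ ut₀ uxx utx : ℝ → ℝ → ℝ, VSol u ux₀ ut₀ uxx utx →
      Real.sqrt (VN u ux₀ ut₀ uxx utx 0) ≤ R → ∀ t : ℝ,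
      Real.sqrt (VN u ux₀ ut₀ uxx utx t) ≤
        C * ((1 + |t|) ^ ((1:ℝ) / 2) * Real.log (2 + |t|) ^ 4) ∧
      ∀ x ∈ Icc (0:ℝ) 1, |ux₀ t x| ≤ C * ((1 + |t|) ^ ((1:ℝ) / 4) * Real.log (2 + |t|) ^ 2) ∧
        |ut₀ t x| ≤ C * ((1 + |t|) ^ ((1:ℝ) / 4) * Real.log (2 + |t|) ^ 2) := by
  obtain ⟨C, hC⟩ := main_of_tri (tri_of_c1e htri) R
  refine ⟨C, fun u ux₀ ut₀ uxx utx h h0 t => ?_⟩
  obtain ⟨hs, hV⟩ := sol_of_vsol hext h
  have h0' : Vnorm (fun t => oext (u t)) 0 ≤ R := by
    unfold Vnorm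
    rw [hV]
    exact h0
  obtain ⟨-, h1, h2⟩ := hC _ hs h0' t
  constructor
  · unfold Vnorm at h1
    rwa [hV] at h1
  · intro x hx
    obtain ⟨h3, h4⟩ := h2 x
    obtain ⟨hCo, -⟩ := hext u ux₀ ut₀ uxx utx h
    have podd := fun t => oext_neg' (h.v0 t) (h.v1 t)
    have e1 : ux (fun t => oext (u t)) t x = ux₀ t x := by
      have := (hCo.ux t x).deriv
      simp only [podd, eext_neg'] at this
      show deriv (oext (u t)) x = _
      rw [this, eext_on hx]
      ring
    have e2 : ut (fun t => oext (u t)) t x = ut₀ t x := by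
      have := (hCo.ut t x).deriv
      simp only [podd, eext_neg'] at this
      show deriv (fun s => oext (u s) x) t = _
      rw [this, oext_on (h.v1 t) hx]
      ring
    rw [e1] at h3
    rw [e2] at h4
    exact ⟨h3, h4⟩

end main

end MPc1e222
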