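import Pool.Agent.Lib.MP_c1e222_an.Spc
import Pool.Agent.Lib.MP_c1e222_an.Bas

/-!
# MP_c1e222_an, row VSpec: Fourier coefficients of `V_i`
-/

namespace Pool.Agent.C1E

open MeasureTheory Set Filter Topology

noncomputable section

namespace VSp

theorem two_cos (a : ℕ) (x : ℝ) :
    ((2 * Real.cos (Real.pi * (a + 1) * x) : ℝ) : ℂ) = ee (-((a : ℤ) + 1)) x + ee ((a : ℤ) + 1) x := by
  unfold ee
  push_cast
  rw [Complex.cos]
  have e1 : (Real.pi : ℂ) * (-1 + -(a : ℂ)) * x * Complex.I = -(Real.pi * (a + 1) * x) * Complex.I := by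
    ring
  have e2 : (Real.pi : ℂ) * (-((a : ℂ) + 1)) * x * Complex.I
      = -(Real.pi * (a + 1) * x) * Complex.I := by ring
  rw [e2]
  ring

theorem dir_eq (a : ℕ) (x : ℝ) :
    (Dir a x : ℂ) = ∑ n ∈ Finset.Icc (-(a : ℤ)) (a : ℤ), ee n x := by
  induction a with
  | zero => simp [Dir, ee_zero]
  | succ a ih =>
    have hD : Dir (a + 1) x = Dir a x + 2 * Real.cos (Real.pi * (a + 1) * x) := by
      unfold Dir
      rw [Finset.sum_range_succ]
      ring
    have hI : Finset.Icc (-((a + 1 : ℕ) : ℤ)) ((a + 1 : ℕ) : ℤ)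
        = insert (-((a : ℤ) + 1)) (insert ((a : ℤ) + 1) (Finset.Icc (-(a : ℤ)) (a : ℤ))) := by
      ext n
      simp only [Finset.mem_Icc, Finset.mem_insert]
      push_cast
      constructor
      · rintro ⟨h1, h2⟩
        by_cases h3 : n = -((a : ℤ) + 1)
        · exact Or.inl h3
        · by_cases h4 : n = (a : ℤ) + 1
          · exact Or.inr (Or.inl h4)
          · exact Or.inr (Or.inr ⟨by omega, by omega⟩)
      · rintro (h | h | ⟨h1, h2⟩) <;> constructor <;> omega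
    have hn1 : (a : ℤ) + 1 ∉ Finset.Icc (-(a : ℤ)) (a : ℤ) := by
      simp only [Finset.mem_Icc]; omega
    have hn2 : -((a : ℤ) + 1) ∉ insert ((a : ℤ) + 1) (Finset.Icc (-(a : ℤ)) (a : ℤ)) := by
      simp only [Finset.mem_insert, Finset.mem_Icc]; omega
    rw [hI, Finset.sum_insert hn2, Finset.sum_insert hn1, ← ih, hD, Complex.ofReal_add, two_cos]
    ring

/-- triples of frequencies -/
def P (a : ℕ) : Finset (ℤ × ℤ × ℤ) :=
  Finset.Icc (-(a : ℤ)) (a : ℤ) ×ˢ (Finset.Icc (-(a : ℤ)) (a : ℤ) ×ˢ Finset.Icc (-(a : ℤ)) (a : ℤ))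

theorem card_P (a : ℕ) : (P a).card = (2 * a + 1) ^ 3 := by
  unfold P
  rw [Finset.card_product, Finset.card_product, Int.card_Icc]
  have : ((a : ℤ) + 1 - -(a : ℤ)).toNat = 2 * a + 1 := by omega
  rw [this]
  ring

theorem mem_P {a : ℕ} {p : ℤ × ℤ × ℤ} (hp : p ∈ P a) :
    -(3 * (a : ℤ)) ≤ p.1 + p.2.1 + p.2.2 ∧ p.1 + p.2.1 + p.2.2 ≤ 3 * (a : ℤ) := by
  simp only [P, Finset.mem_product, Finset.mem_Icc] at hp
  constructor <;> omega

theorem cube_eq (a : ℕ) (x : ℝ) :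
    ((Dir a x : ℝ) : ℂ) ^ 3 = ∑ p ∈ P a, ee (p.1 + p.2.1 + p.2.2) x := by
  rw [dir_eq, P, Finset.sum_product]
  rw [pow_three, Finset.sum_mul_sum, Finset.sum_mul_sum]
  refine Finset.sum_congr rfl fun n _ => ?_
  rw [Finset.sum_product]
  refine Finset.sum_congr rfl fun m _ => ?_
  rw [Finset.mul_sum]
  refine Finset.sum_congr rfl fun l _ => ?_
  rw [ee_add, ee_add, mul_assoc]

/-- shift of a finite sum of characters -/
theorem shift_eq (b K : ℕ) (s : ℤ) (x : ℝ) (h1 : (b : ℤ) + s ≤ K) (h2 : -(K : ℤ) ≤ s - b) :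
    (∑ m ∈ Finset.Icc (-(b : ℤ)) (b : ℤ), ee m x) * ee s x
      = ∑ n ∈ Finset.Icc (-(K : ℤ)) (K : ℤ), (if |n - s| ≤ (b : ℤ) then (1 : ℂ) else 0) * ee n x := by
  simp only [ite_mul, one_mul, zero_mul]
  rw [← Finset.sum_filter, Finset.sum_mul]
  refine Finset.sum_bij (fun m _ => m + s) ?_ ?_ ?_ ?_
  · intro m hm
    simp only [Finset.mem_Icc] at hm
    simp only [Finset.mem_filter, Finset.mem_Icc]
    refine ⟨⟨by omega, by omega⟩, ?_⟩
    rw [abs_le]
    constructor <;> omega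
  · intro m _ m' _ h
    omega
  · intro n hn
    simp only [Finset.mem_filter, Finset.mem_Icc, abs_le] at hn
    exact ⟨n - s, by simp only [Finset.mem_Icc]; omega, by omega⟩
  · intro m _
    rw [ee_add]

/-- number of triples `p` with `|n - |p|| ≤ b` -/
def cnt (a b : ℕ) (n : ℤ) : ℕ := ((P a).filter fun p => |n - (p.1 + p.2.1 + p.2.2)| ≤ (b : ℤ)).card

theorem prod_eq (a b K : ℕ) (x : ℝ) (h : 3 * a + b ≤ K) :
    ((Dir b x : ℝ) : ℂ) * ((Dir a x : ℝ) : ℂ) ^ 3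
      = ∑ n ∈ Finset.Icc (-(K : ℤ)) (K : ℤ), (cnt a b n : ℂ) * ee n x := by
  rw [cube_eq, Finset.mul_sum]
  have : ∀ p ∈ P a, ((Dir b x : ℝ) : ℂ) * ee (p.1 + p.2.1 + p.2.2) x
      = ∑ n ∈ Finset.Icc (-(K : ℤ)) (K : ℤ),
        (if |n - (p.1 + p.2.1 + p.2.2)| ≤ (b : ℤ) then (1 : ℂ) else 0) * ee n x := by
    intro p hp
    have := mem_P hp
    rw [dir_eq]
    exact shift_eq b K _ x (by omega) (by omega)
  rw [Finset.sum_congr rfl this, Finset.sum_comm]
  refine Finset.sum_congr rfl fun n _ => ?_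
  rw [← Finset.sum_mul]
  congr 1
  rw [cnt, Finset.card_filter]
  push_cast
  rfl

theorem cnt_full {a b : ℕ} {n : ℤ} (h : |n| + 3 * a ≤ b) : cnt a b n = (2 * a + 1) ^ 3 := by
  rw [cnt, Finset.filter_true_of_mem, card_P]
  intro p hp
  have := mem_P hp
  have h1 := neg_abs_le n
  have h2 := le_abs_self n
  rw [abs_le]
  constructor <;> omega

theorem cnt_zero {a b : ℕ} {n : ℤ} (h : (b : ℤ) + 3 * a < |n|) : cnt a b n = 0 := by
  rw [cnt, Finset.filter_false_of_mem, Finset.card_empty]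
  intro p hp
  have := mem_P hp
  rw [abs_le]
  rintro ⟨h3, h4⟩
  rcases abs_cases n with h5 | h5 <;> omega

theorem cnt_neg (a b : ℕ) (n : ℤ) : cnt a b (-n) = cnt a b n := by
  unfold cnt
  refine Finset.card_bij (fun p _ => (-p.1, -p.2.1, -p.2.2)) ?_ ?_ ?_
  · intro p hp
    simp only [Finset.mem_filter, P, Finset.mem_product, Finset.mem_Icc, abs_le] at hp ⊢
    omega
  · rintro ⟨p, q, r⟩ _ ⟨p', q', r'⟩ _ h
    simp only [Prod.mk.injEq, neg_inj] at h
    simp only [Prod.mk.injEq]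
    exact h
  · rintro ⟨p, q, r⟩ hp
    refine ⟨(-p, -q, -r), ?_, by simp⟩
    simp only [Finset.mem_filter, P, Finset.mem_product, Finset.mem_Icc, abs_le] at hp ⊢
    omega

theorem va_le (i : ℕ) : (va i : ℝ) ≤ kap i / 1024 :=
  Nat.floor_le (div_nonneg (kap_pos i).le (by norm_num))

theorem vb_le (i : ℕ) : (vb i : ℝ) ≤ (127 / 128) * kap i :=
  Nat.floor_le (mul_nonneg (by norm_num) (kap_pos i).le)

end VSp

open VSp in
theorem vspec_proof : VSpecStatement := by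
  intro i
  have hk := kap_pos i
  have ha := va_le i
  have hb := vb_le i
  refine ⟨fun n => (cnt (va i) (vb i) n : ℝ) / (2 * (2 * (va i : ℝ) + 1) ^ 3), ?_, ?_, ?_, ?_⟩
  · intro n hn
    have h1 : |n| + 3 * (va i : ℤ) ≤ (vb i : ℤ) := by
      have h2 : ((|n| + 3 * (va i : ℤ)).toNat : ℝ) ≤ (127 / 128) * kap i := by
        have h3 : (((|n| + 3 * (va i : ℤ)).toNat : ℤ) : ℝ) = |(n : ℝ)| + 3 * va i := by
          rw [Int.toNat_of_nonneg (by positivity)]
          push_cast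
          ring
        have h4 : ((|n| + 3 * (va i : ℤ)).toNat : ℝ) = |(n : ℝ)| + 3 * va i := by
          exact_mod_cast h3
        rw [h4]
        linarith
      have h5 := Nat.le_floor h2
      have h6 : (|n| + 3 * (va i : ℤ)).toNat ≤ vb i := h5
      omega
    show ((cnt (va i) (vb i) n : ℕ) : ℝ) / (2 * (2 * (va i : ℝ) + 1) ^ 3) = 1 / 2
    rw [cnt_full h1]
    push_cast
    have : (2 * (va i : ℝ) + 1) ^ 3 ≠ 0 := by positivity
    field_simp
  · intro n hn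
    have h1 : (vb i : ℤ) + 3 * (va i : ℤ) < |n| := by
      have : (((vb i : ℤ) + 3 * (va i : ℤ) : ℤ) : ℝ) < ((|n| : ℤ) : ℝ) := by
        push_cast
        linarith
      exact_mod_cast this
    show ((cnt (va i) (vb i) n : ℕ) : ℝ) / (2 * (2 * (va i : ℝ) + 1) ^ 3) = 0
    rw [cnt_zero h1]
    simp
  · intro n
    show ((cnt (va i) (vb i) (-n) : ℕ) : ℝ) / (2 * (2 * (va i : ℝ) + 1) ^ 3)
      = ((cnt (va i) (vb i) n : ℕ) : ℝ) / (2 * (2 * (va i : ℝ) + 1) ^ 3)
    rw [cnt_neg]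
  · intro x
    have h1 : 3 * va i + vb i ≤ ⌈kap i⌉₊ := by
      have h2 : ((3 * va i + vb i : ℕ) : ℝ) ≤ (⌈kap i⌉₊ : ℝ) := by
        push_cast
        have := Nat.le_ceil (kap i)
        linarith
      exact_mod_cast h2
    have h3 := prod_eq (va i) (vb i) ⌈kap i⌉₊ x h1
    have h4 : (2 * (va i : ℂ) + 1) ≠ 0 := by
      have : (2 * (va i : ℝ) + 1) ≠ 0 := by positivity
      exact_mod_cast this
    have h5 : (V i x : ℂ) = (((Dir (vb i) x : ℝ) : ℂ) * ((Dir (va i) x : ℝ) : ℂ) ^ 3)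
        / (2 * (2 * (va i : ℂ) + 1) ^ 3) := by
      unfold V
      push_cast
      field_simp
    rw [h5, h3, Finset.sum_div]
    refine Finset.sum_congr rfl fun n _ => ?_
    push_cast
    ring

end

end Pool.Agent.C1E
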