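import Pool.Agent.Lib.MP_c1e222_an.Iface

/-!
# MP_c1e222_an, row Van: products without resonance
-/

namespace Pool.Agent.C1E

open MeasureTheory Set Filter Topology

namespace Van72

theorem kap_pos (i : ℕ) : 0 < kap i := by
  unfold kap
  positivity

theorem kap_succ (i : ℕ) : kap (i + 1) = 65 / 64 * kap i := by
  unfold kap
  rw [pow_succ]
  ring

theorem kap_add (i m : ℕ) : kap (i + m) = (65 / 64 : ℝ) ^ m * kap i := by
  unfold kap
  rw [pow_add]
  ring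

theorem kap_low {M j : ℕ} (hM : 1000 ≤ (65 / 64 : ℝ) ^ M) (hj : M ≤ j) :
    1000 * kap (j - M) ≤ kap j := by
  have h := kap_add (j - M) M
  rw [Nat.sub_add_cancel hj] at h
  rw [h]
  exact mul_le_mul_of_nonneg_right hM (kap_pos _).le

theorem kap_high {M : ℕ} (hM : 1000 ≤ (65 / 64 : ℝ) ^ M) (j : ℕ) :
    1000 * kap j ≤ kap (j + M) := by
  rw [kap_add]
  exact mul_le_mul_of_nonneg_right hM (kap_pos _).le

theorem kap_mono {a b : ℕ} (h : a ≤ b) : kap a ≤ kap b := by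
  unfold kap
  exact mul_le_mul_of_nonneg_left (pow_le_pow_right₀ (by norm_num) h) (by norm_num)

theorem TP_mono {f : ℝ → ℂ} {S T : Set ℤ} (h : TP f S) (hST : ∀ n ∈ S, n ∈ T) : TP f T := by
  obtain ⟨c, hc, hf⟩ := h
  exact ⟨c, fun n hn => hST n (hc n hn), hf⟩

theorem SI_mono {f : ℝ → ℂ} {S T : Set ℤ} (h : SI f S) (hST : ∀ n ∈ S, n ∈ T) : SI f T :=
  ⟨h.1, h.2.1, fun n hn => h.2.2 n fun hs => hn (hST n hs)⟩

theorem SI_univ {f : ℝ → ℝ} (hf : CP f) : SI (fun x => (f x : ℂ)) Set.univ := by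
  refine ⟨Complex.continuous_ofReal.comp hf.1, fun x => ?_, fun n hn => absurd (Set.mem_univ n) hn⟩
  show ((f (x + 2) : ℝ) : ℂ) = (f x : ℂ)
  rw [hf.2 x]

/-- frequencies which `A_j` does not see -/
def Z (j : ℕ) : Set ℤ := {n | |(n : ℝ)| ≤ (63 / 64) * kap j ∨ kap (j + 1) ≤ |(n : ℝ)|}

theorem zero_of {i : ℕ} (hM : MulStatement) {f : ℝ → ℝ}
    (h : SI (fun x => (f x : ℂ)) (Z i)) (x : ℝ) : Pa i f x = 0 :=
  (hM i).2.2.2 f (Z i) h (fun _ hn => hn) x

theorem Lo_TP (hM : MulStatement) (i : ℕ) {f : ℝ → ℝ} (hf : CP f) :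
    TP (fun x => (Lo i f x : ℂ)) {n | |(n : ℝ)| < kap i} :=
  TP_mono ((hM i).2.1 f _ (SI_univ hf)).1 fun _ hn => hn.2

theorem Hi_SI (hM : MulStatement) (i : ℕ) {f : ℝ → ℝ} (hf : CP f) :
    SI (fun x => ((f x - Lo i f x : ℝ) : ℂ)) {n | (63 / 64) * kap i < |(n : ℝ)|} :=
  SI_mono ((hM i).2.1 f _ (SI_univ hf)).2.1 fun _ hn => hn.2

theorem Pa_TP (hM : MulStatement) (i : ℕ) {f : ℝ → ℝ} (hf : CP f) :
    TP (fun x => (Pa i f x : ℂ)) {n | (63 / 64) * kap i < |(n : ℝ)| ∧ |(n : ℝ)| < kap (i + 1)} :=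
  TP_mono ((hM i).2.1 f _ (SI_univ hf)).2.2.1 fun _ hn => hn.2

/-! ## arithmetic of frequencies -/

theorem ar1 {K k a b c : ℝ} (hk : 1000 * k ≤ K) (ha : |a| < k) (hb : |b| < k) (hc : |c| < k) :
    |a + b + c| ≤ (63 / 64) * K := by
  have h1 := abs_add_le (a + b) c
  have h2 := abs_add_le a b
  have h3 := abs_nonneg a
  linarith

theorem ar2 {K K1 k N a b c : ℝ} (hK : 0 < K) (hK1 : K1 = 65 / 64 * K) (hk : 1000 * k ≤ K)
    (hN : 1000 * K ≤ N) (ha : |a| < k) (hb : |b| < k) (hc : (63 / 64) * N < |c|) :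
    K1 ≤ |a + b + c| := by
  have h1 : |c| ≤ |a + b + c| + |a + b| := by
    have := abs_sub (a + b + c) (a + b)
    have h : a + b + c - (a + b) = c := by ring
    rw [h] at this
    exact this
  have h2 := abs_add_le a b
  linarith

theorem ar4 {K K1 k P P1 Q Q1 a b c : ℝ} (hK1 : K1 = 65 / 64 * K)
    (hk : 1000 * k ≤ K) (hP1 : P1 = 65 / 64 * P) (hQ1 : Q1 = 65 / 64 * Q)
    (hP : 2 * K < 3 * P) (hP' : 2 * P < 3 * K) (hQ : 2 * K < 3 * Q) (hQ' : 2 * Q < 3 * K)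
    (ha : |a| < k) (hb : (63 / 64) * P < |b|) (hb' : |b| < P1)
    (hc : (63 / 64) * Q < |c|) (hc' : |c| < Q1) :
    |a + b + c| ≤ (63 / 64) * K ∨ K1 ≤ |a + b + c| := by
  subst hK1 hP1 hQ1
  rcases abs_cases a with ⟨e1, h1⟩ | ⟨e1, h1⟩ <;> rcases abs_cases b with ⟨e2, h2⟩ | ⟨e2, h2⟩ <;>
    rcases abs_cases c with ⟨e3, h3⟩ | ⟨e3, h3⟩ <;> rw [e1] at ha <;> rw [e2] at hb hb' <;>
    rw [e3] at hc hc'
  all_goals first
    | (right; rw [le_abs]; left; linarith)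
    | (right; rw [le_abs]; right; linarith)
    | (left; rw [abs_le]; constructor <;> linarith)

theorem ar5 {A A1 k B B1 C C1 a b c d : ℝ} (hA : 0 < A) (hk : 1000 * k ≤ A)
    (hA1 : A1 = 65 / 64 * A) (hB1 : B1 = 65 / 64 * B) (hC1 : C1 = 65 / 64 * C)
    (hAB : A ≤ B) (hBC : B ≤ C) (hCA : 2 * C < 3 * A)
    (ha : |a| < k) (hb : (63 / 64) * A < |b|) (hb' : |b| < A1)
    (hc : (63 / 64) * B < |c|) (hc' : |c| < B1) (hd : (63 / 64) * C < |d|) (hd' : |d| < C1) :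
    a + b + c + d ≠ 0 := by
  subst hA1 hB1 hC1
  intro h0
  rcases abs_cases a with ⟨e1, h1⟩ | ⟨e1, h1⟩ <;> rcases abs_cases b with ⟨e2, h2⟩ | ⟨e2, h2⟩ <;>
    rcases abs_cases c with ⟨e3, h3⟩ | ⟨e3, h3⟩ <;> rcases abs_cases d with ⟨e4, h4⟩ | ⟨e4, h4⟩ <;>
    rw [e1] at ha <;> rw [e2] at hb hb' <;> rw [e3] at hc hc' <;> rw [e4] at hd hd' <;> linarith

end Van72

open Van72 in
theorem van_proof (hMul : MulStatement) (hSpc : SpcStatement) : VanStatement := by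
  obtain ⟨sTS, sTT, sTI, sTa, sSa, s0, -, -⟩ := hSpc
  intro M hM
  refine ⟨?_, ?_, ?_, ?_, ?_⟩
  · -- cube of the low part
    intro j f hj hf x
    have hL := Lo_TP hMul (j - M) hf
    refine zero_of hMul ?_ x
    have h : SI _ (Z j) := SI_mono (sTS _ _ (sTT _ _ _ _ (sTT _ _ _ _ hL hL) hL)) (by
      rintro n ⟨m, ⟨a, ha, b, hb, rfl⟩, c, hc, rfl⟩
      left
      have := ar1 (kap_low hM hj) ha hb hc
      push_cast
      exact this)
    have e : (fun x => (((Lo (j - M) f x) ^ 3 : ℝ) : ℂ)) =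
        fun x => (Lo (j - M) f x : ℂ) * (Lo (j - M) f x : ℂ) * (Lo (j - M) f x : ℂ) := by
      funext y
      push_cast
      ring
    rw [e]
    exact h
  · intro j f hj hf x
    have hL := Lo_TP hMul (j - M) hf
    have hH := Hi_SI hMul (j + M) hf
    refine zero_of hMul ?_ x
    have hLL := sTT _ _ _ _ hL hL
    have h1 : SI _ (Z j) := SI_mono (sTS _ _ (sTT _ _ _ _ hLL hL)) (by
      rintro n ⟨m, ⟨a, ha, b, hb, rfl⟩, c, hc, rfl⟩
      left
      have := ar1 (kap_low hM hj) ha hb hc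
      push_cast
      exact this)
    have h2 : SI _ (Z j) := SI_mono (sTI _ _ _ _ hLL hH) (by
      rintro n ⟨m, ⟨a, ha, b, hb, rfl⟩, c, hc, rfl⟩
      right
      have := ar2 (kap_pos j) (kap_succ j) (kap_low hM hj) (kap_high hM j) ha hb hc
      push_cast
      exact this)
    have h := (sSa _ _ _ h2 h1).2
    have e : (fun y => (((Lo (j - M) f y) ^ 2 *
        (f y - (Lo (j + M) f y - Lo (j - M) f y)) : ℝ) : ℂ)) =
        fun x => (Lo (j - M) f x : ℂ) * (Lo (j - M) f x : ℂ) * ((f x - Lo (j + M) f x : ℝ) : ℂ)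
          + (Lo (j - M) f x : ℂ) * (Lo (j - M) f x : ℂ) * (Lo (j - M) f x : ℂ) := by
      funext y
      push_cast
      ring
    rw [e]
    exact h
  · intro j f hj hf x
    have hL := Lo_TP hMul (j - M) hf
    have hH := Hi_SI hMul (j + M) hf
    refine zero_of hMul ?_ x
    have h0 : |(0 : ℝ)| < kap (j - M) := by
      rw [abs_zero]
      exact kap_pos _
    have h1 : SI _ (Z j) := SI_mono (sTS _ _ hL) (by
      intro c hc
      left
      have := ar1 (kap_low hM hj) h0 h0 hc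
      rw [add_zero, zero_add] at this
      exact this)
    have h2 : SI _ (Z j) := SI_mono hH (by
      intro c hc
      right
      have := ar2 (kap_pos j) (kap_succ j) (kap_low hM hj) (kap_high hM j) h0 h0 hc
      rw [add_zero, zero_add] at this
      exact this)
    have h := (sSa _ _ _ h2 h1).2
    have e : (fun y => ((f y - (Lo (j + M) f y - Lo (j - M) f y) : ℝ) : ℂ)) =
        fun x => ((f x - Lo (j + M) f x : ℝ) : ℂ) + (Lo (j - M) f x : ℂ) := by
      funext y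
      push_cast
      ring
    rw [e]
    exact h
  · intro j h h' f g g' hj hf hg hg' n1 n2 n3 n4 x
    have hL := Lo_TP hMul (j - M) hf
    have hG := Pa_TP hMul h hg
    have hG' := Pa_TP hMul h' hg'
    simp only [Sep, not_le] at n1 n2 n3 n4
    refine zero_of hMul ?_ x
    have h1 : SI _ (Z j) := SI_mono (sTS _ _ (sTT _ _ _ _ (sTT _ _ _ _ hL hG) hG')) (by
      rintro n ⟨m, ⟨a, ha, b, hb, rfl⟩, c, hc, rfl⟩
      have := ar4 (kap_succ j) (kap_low hM hj) (kap_succ h) (kap_succ h')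
        n1 n2 n3 n4 ha hb.1 hb.2 hc.1 hc.2
      show _ ∨ _
      push_cast
      exact this)
    have e : (fun y => ((Lo (j - M) f y * Pa h g y * Pa h' g' y : ℝ) : ℂ)) =
        fun x => (Lo (j - M) f x : ℂ) * (Pa h g x : ℂ) * (Pa h' g' x : ℂ) := by
      funext y
      push_cast
      ring
    rw [e]
    exact h1
  · intro a b c f g hMa hab hbc hac hf hg
    have hL := Lo_TP hMul (a - M) hf
    have hA := Pa_TP hMul a hg
    have hB := Pa_TP hMul b hg
    have hC := Pa_TP hMul c hg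
    simp only [Sep, not_le] at hac
    have h := sTS _ _ (sTT _ _ _ _ (sTT _ _ _ _ (sTT _ _ _ _ hL hA) hB) hC)
    have hz := s0 _ _ h (by
      rintro ⟨m, ⟨m', ⟨n0, h0, n1, h1, rfl⟩, n2, h2, rfl⟩, n3, h3, h4⟩
      have := ar5 (kap_pos a) (kap_low hM hMa) (kap_succ a) (kap_succ b) (kap_succ c)
        (kap_mono hab) (kap_mono hbc) hac h0 h1.1 h1.2 h2.1 h2.2 h3.1 h3.2
      apply this
      have h5 : ((0 : ℤ) : ℝ) = ((n0 + n1 + n2 + n3 : ℤ) : ℝ) := by rw [h4]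
      push_cast at h5
      exact h5.symm)
    have e : ∫ x in (-1 : ℝ)..1, (Lo (a - M) f x : ℂ) * (Pa a g x : ℂ) * (Pa b g x : ℂ) *
        (Pa c g x : ℂ) = ((cint (fun x => Lo (a - M) f x * Pa a g x * Pa b g x * Pa c g x) : ℝ) : ℂ) := by
      unfold cint
      rw [← intervalIntegral.integral_ofReal]
      congr 1
      funext y
      push_cast
      ring
    rw [e] at hz
    exact_mod_cast hz

end Pool.Agent.C1E
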