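import Pool.Agent.Lib.MP_c1e222_an.Ker
import Pool.Agent.Lib.MP_c1e222_an.VSpec
import Pool.Agent.Lib.MP_c1e222_an.Spc
import Pool.Agent.Lib.MP_c1e222_an.Mul
import Pool.Agent.Lib.MP_c1e222_an.Idn
import Pool.Agent.Lib.MP_c1e222_an.KKr
import Pool.Agent.Lib.MP_c1e222_an.Gd
import Pool.Agent.Lib.MP_c1e222_an.Rep
import Pool.Agent.Lib.MP_c1e222_an.Van
import Pool.Agent.Lib.MP_c1e222_an.Dec
import Pool.Agent.Lib.MP_c1e222_an.Bern
import Pool.Agent.Lib.MP_c1e222_an.Size
import Pool.Agent.Lib.MP_c1e222_an.LSize
import Pool.Agent.Lib.MP_c1e222_an.Crossing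
import Pool.Agent.Lib.MP_c1e222_an.Dom
import Pool.Agent.Lib.MP_c1e222_an.LB
import Pool.Agent.Lib.MP_c1e222_an.TR
import Pool.Agent.Lib.MP_c1e222_an.Law
import Pool.Agent.Lib.MP_c1e222_an.MDer
import Pool.Agent.Lib.MP_c1e222_an.Pos
import Pool.Agent.Lib.MP_c1e222_an.Main
import Pool.Agent.Lib.MP_c1e222_an.Sa
import Pool.Agent.Lib.MP_c1e222_an.Sb
import Pool.Agent.Lib.MP_c1e222_an.Sc
import Pool.Agent.Lib.MP_c1e222_an.Sd
import Pool.Agent.Lib.MP_c1e222_an.Er
import Pool.Agent.Lib.MP_c1e222_an.H51.Boot2
import Pool.Agent.Lib.MP_c1e222_an.Tri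
import Pool.Agent.Lib.MP_c1e222_an.Ext
import Pool.Agent.Lib.MP_c1e222_an.VS

/-!
# MP_c1e222_an: the rows put together
-/

namespace Pool.Agent.C1E

theorem ker : KerStatement := ker_proof
theorem spc : SpcStatement := spc_proof
theorem mul : MulStatement := mul_proof vspec_proof
theorem idn : IdnStatement := idn_proof ker
theorem kkr : KKrStatement := kkr_proof ker
theorem gd : GdStatement := gd_proof kkr
theorem rep : RepStatement := rep_proof mul spc
theorem van : VanStatement := van_proof mul spc
theorem dec : DecStatement := dec_proof van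
theorem bern : BernStatement := bern_proof mul spc ker idn
theorem size : SizeStatement := size_proof ker idn bern
theorem lsize : LSizeStatement := lsize_proof ker
theorem cross : CrossStatement := cross_proof ker size
theorem dom : DomStatement := dom_proof ker rep
theorem lb : LBStatement := lb_proof bern kkr ker
theorem tr : TRStatement := tr_proof ker dom lb size
theorem law : LawStatement := law_proof ker idn
theorem pos : PosStatement := pos_proof bern kkr size idn
theorem main : MainStatement := main_proof pos mDer_proof law cross size kkr ker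
theorem sa : SaStatement := sa_proof ker tr cross size idn
theorem sb : SbStatement := sb_proof tr cross size idn ker
theorem sc : ScStatement := sc_proof ker van tr cross size lsize idn
theorem sd : SdStatement := sd_proof size ker
theorem er : ErStatement := er_proof dec sa sb sc sd
theorem boot : BootStatement := boot_proof2 main er
theorem tri : TriStatement := tri_proof boot gd tr size lsize van

end Pool.Agent.C1E
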