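import Pool.Agent.Lib.MP_c1e222_an.Iface
import Pool.Agent.Lib.MP_c1e222_an.Cnv
import Pool.Agent.Lib.MP_c1e222_an.Cross

/-!
# MP_c1e222_an, row Cross (section 3): the instances of the crossing lemma
-/

namespace Pool.Agent.C1E

open MeasureTheory Set Filter Topology

noncomputable section

namespace CrossRow

/-- the travelling form of a convolution: derivative in time -/
theorem conv_time {P : ℝ → ℝ} {r v : ℝ → ℝ → ℝ} (hP : Continuous P)
    (hPp : Function.Periodic P 2) (cr : Continuous (Function.uncurry r))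
    (cv : Continuous (Function.uncurry v)) (pr : ∀ t, Function.Periodic (r t) 2)
    (pv : ∀ t, Function.Periodic (v t) 2)
    (hr : ∀ t y, HasDerivAt (fun s => r s (y - s)) (v t (y - t)) t) (t y : ℝ) :
    HasDerivAt (fun s => conv P (r s) (y - s)) (conv P (v t) (y - t)) t := by
  have cF : Continuous fun p : ℝ × ℝ => P p.2 * v p.1 (y - p.1 - p.2) :=
    (hP.comp continuous_snd).mul
      (cv.comp (by fun_prop : Continuous fun p : ℝ × ℝ => (p.1, y - p.1 - p.2)))
  have cG : Continuous fun p : ℝ × ℝ => P p.2 * r p.1 (y - p.1 - p.2) :=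
    (hP.comp continuous_snd).mul
      (cr.comp (by fun_prop : Continuous fun p : ℝ × ℝ => (p.1, y - p.1 - p.2)))
  obtain ⟨C, hC⟩ : ∃ C, ∀ p ∈ (Icc (t - 1) (t + 1) ×ˢ Icc (-1 : ℝ) 1),
      ‖P p.2 * v p.1 (y - p.1 - p.2)‖ ≤ C :=
    (isCompact_Icc.prod isCompact_Icc).exists_bound_of_continuousOn cF.continuousOn
  have key := intervalIntegral.hasDerivAt_integral_of_dominated_loc_of_deriv_le
    (μ := volume) (F := fun s z => P z * r s (y - s - z))
    (F' := fun s z => P z * v s (y - s - z))
    (x₀ := t) (a := -1) (b := 1) (s := Metric.ball t 1) (bound := fun _ => C)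
    (Metric.ball_mem_nhds t one_pos)
    (Filter.Eventually.of_forall fun s =>
      (cG.comp (by fun_prop : Continuous fun z : ℝ => (s, z))).aestronglyMeasurable)
    ((cG.comp (by fun_prop : Continuous fun z : ℝ => (t, z))).intervalIntegrable _ _)
    ((cF.comp (by fun_prop : Continuous fun z : ℝ => (t, z))).aestronglyMeasurable)
    (Filter.Eventually.of_forall fun z hz s hs => by
      refine hC (s, z) ⟨?_, ?_⟩
      · rw [Metric.mem_ball, Real.dist_eq] at hs
        have := abs_lt.1 hs
        constructor <;> simp only <;> linarith [this.1, this.2]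
      · rw [Set.uIoc_of_le (by norm_num)] at hz
        exact ⟨hz.1.le, hz.2⟩)
    (intervalIntegrable_const)
    (Filter.Eventually.of_forall fun z _ s _ => by
      have h1 := (hr s (y - z)).const_mul (P z)
      have e1 : (fun s => P z * r s (y - z - s)) = fun s => P z * r s (y - s - z) := by
        funext s
        rw [sub_right_comm]
      rw [e1, sub_right_comm] at h1
      exact h1)
  have h2 := key.2
  have e2 : (fun s => ∫ z in (-1 : ℝ)..1, P z * r s (y - s - z)) =
      fun s => conv P (r s) (y - s) := by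
    funext s
    rw [conv_eq hPp (pr s)]
    rfl
  have e3 : (∫ z in (-1 : ℝ)..1, P z * v t (y - t - z)) = conv P (v t) (y - t) := by
    rw [conv_eq hPp (pv t)]
    rfl
  rw [e2, e3] at h2
  exact h2

/-- a slow function from a kernel -/
theorem slow_conv {P : ℝ → ℝ} {r v : ℝ → ℝ → ℝ} (hP : Continuous P)
    (hPp : Function.Periodic P 2) (cr : Continuous (Function.uncurry r))
    (cv : Continuous (Function.uncurry v)) (pr : ∀ t, Function.Periodic (r t) 2)
    (pv : ∀ t, Function.Periodic (v t) 2)
    (hr : ∀ t y, HasDerivAt (fun s => r s (y - s)) (v t (y - t)) t) {a : ℝ}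
    (h1 : ∀ t, cint (fun x => (conv P (r t) x) ^ 2) ≤ a)
    (h2 : ∀ t, cint (fun x => (conv P (v t) x) ^ 2) ≤ a) :
    MPc1e222.Slow (fun t y => conv P (r t) (y - t)) (fun t y => conv P (v t) (y - t)) a where
  cont := (continuous_conv₂ hP cr).comp (by fun_prop : Continuous fun p : ℝ × ℝ => (p.1, p.2 - p.1))
  cont' := (continuous_conv₂ hP cv).comp (by fun_prop : Continuous fun p : ℝ × ℝ => (p.1, p.2 - p.1))
  per := fun t y => by
    rw [show y + 2 - t = (y - t) + 2 by ring]
    exact conv_periodic hPp (r t) (y - t)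
  per' := fun t y => by
    rw [show y + 2 - t = (y - t) + 2 by ring]
    exact conv_periodic hPp (v t) (y - t)
  der := fun t y => conv_time hP hPp cr cv pr pv hr t y
  bd := fun t => by
    have h3 : Function.Periodic (fun x => (conv P (r t) x) ^ 2) 2 := fun x => by
      simp only [conv_periodic hPp (r t) x]
    have h4 := cint_shift_sub h3 t
    have h5 := h1 t
    rw [← h4] at h5
    exact h5
  bd' := fun t => by
    have h3 : Function.Periodic (fun x => (conv P (v t) x) ^ 2) 2 := fun x => by
      simp only [conv_periodic hPp (v t) x]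
    have h4 := cint_shift_sub h3 t
    have h5 := h2 t
    rw [← h4] at h5
    exact h5

/-- a slow function without kernel -/
theorem slow_id {r v : ℝ → ℝ → ℝ} (cr : Continuous (Function.uncurry r))
    (cv : Continuous (Function.uncurry v)) (pr : ∀ t, Function.Periodic (r t) 2)
    (pv : ∀ t, Function.Periodic (v t) 2)
    (hr : ∀ t y, HasDerivAt (fun s => r s (y - s)) (v t (y - t)) t) {a : ℝ}
    (h1 : ∀ t, cint (fun x => (r t x) ^ 2) ≤ a)
    (h2 : ∀ t, cint (fun x => (v t x) ^ 2) ≤ a) :
    MPc1e222.Slow (fun t y => r t (y - t)) (fun t y => v t (y - t)) a where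
  cont := cr.comp (by fun_prop : Continuous fun p : ℝ × ℝ => (p.1, p.2 - p.1))
  cont' := cv.comp (by fun_prop : Continuous fun p : ℝ × ℝ => (p.1, p.2 - p.1))
  per := fun t y => by
    rw [show y + 2 - t = (y - t) + 2 by ring]
    exact pr t (y - t)
  per' := fun t y => by
    rw [show y + 2 - t = (y - t) + 2 by ring]
    exact pv t (y - t)
  der := fun t y => hr t y
  bd := fun t => by
    have h3 : Function.Periodic (fun x => (r t x) ^ 2) 2 := fun x => by
      simp only [pr t x]
    have h4 := cint_shift_sub h3 t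
    have h5 := h1 t
    rw [← h4] at h5
    exact h5
  bd' := fun t => by
    have h3 : Function.Periodic (fun x => (v t x) ^ 2) 2 := fun x => by
      simp only [pv t x]
    have h4 := cint_shift_sub h3 t
    have h5 := h2 t
    rw [← h4] at h5
    exact h5

/-- square integral from a pointwise bound -/
theorem cint_sq_le_of_abs {f : ℝ → ℝ} (hf : Continuous f) {B : ℝ} (h : ∀ x, |f x| ≤ B) :
    cint (fun x => (f x) ^ 2) ≤ 2 * B ^ 2 := by
  refine cint_le_of_le (f := fun x => (f x) ^ 2) (hf.pow 2) fun x => ?_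
  have h1 := h x
  have h2 := abs_nonneg (f x)
  have h3 := pow_le_pow_left₀ h2 h1 2
  rwa [sq_abs] at h3

theorem conv_neg_sq (P f : ℝ → ℝ) :
    cint (fun x => (conv P (fun y => -f y) x) ^ 2) = cint (fun x => (conv P f x) ^ 2) := by
  refine cint_congr fun x => ?_
  rw [conv_neg_fun]
  ring

theorem V_cont (h : KerStatement) (i : ℕ) : Continuous (V i) := by
  obtain ⟨C, _, h⟩ := h
  exact (h i).1.continuous

theorem V_per (h : KerStatement) (i : ℕ) : Function.Periodic (V i) 2 := by
  obtain ⟨C, _, h⟩ := h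
  exact (h i).2.1

theorem A_cont (h : KerStatement) (i : ℕ) : Continuous (A i) :=
  (V_cont h (i + 1)).sub (V_cont h i)

theorem A_per (h : KerStatement) (i : ℕ) : Function.Periodic (A i) 2 := by
  intro x
  unfold A
  rw [V_per h (i + 1) x, V_per h i x]

theorem A_mean (h : KerStatement) (i : ℕ) : cint (A i) = 0 := by
  have h1 : cint (A i) = cint (V (i + 1)) - cint (V i) :=
    cint_sub (V_cont h (i + 1)) (V_cont h i)
  obtain ⟨C, _, h⟩ := h
  rw [h1, (h i).2.2.2.1, (h (i + 1)).2.2.2.1]
  ring

theorem PA_cont (h : KerStatement) (i : ℕ) : Continuous (PA i) :=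
  continuous_iff_continuousAt.2 fun x => (hasDerivAt_PA_aux (A_cont h i) x).continuousAt

theorem PA_per (h : KerStatement) (i : ℕ) : Function.Periodic (PA i) 2 := by
  intro x
  unfold PA
  have h1 := intervalIntegral.integral_add_adjacent_intervals
    ((A_cont h i).intervalIntegrable (μ := volume) 0 x)
    ((A_cont h i).intervalIntegrable (μ := volume) x (x + 2))
  have h2 := integral_period (A_per h i) x
  rw [A_mean h i] at h2
  rw [← h1, h2, add_zero]

end CrossRow

open CrossRow

/-- row Cross -/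
theorem cross_proof (ker : KerStatement) (size : SizeStatement) : CrossStatement := by
  intro E
  obtain ⟨C, hC1, hC⟩ := size E
  have hC0 : 0 < C := by linarith
  -- bounds
  refine ⟨8 * (2 * C ^ 2 + C + |E| + 2 * C ^ 6) ^ 2, by positivity, ?_⟩
  intro u r hc t0 t1 ht
  set a : ℝ := 2 * C ^ 2 + C + |E| + 2 * C ^ 6 with ha
  have hE0 : 0 ≤ |E| := abs_nonneg E
  have hC6 : 0 ≤ C ^ 6 := by positivity
  have hC2 : 0 ≤ C ^ 2 := by positivity
  have ha1 : 2 * C ^ 2 ≤ a := by rw [ha]; linarith
  have ha2 : C ≤ a := by rw [ha]; linarith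
  have ha3 : E ≤ a := by rw [ha]; linarith [le_abs_self E]
  have ha4 : 2 * C ^ 6 ≤ a := by rw [ha]; linarith
  have ha0 : 0 ≤ a := by linarith
  set v : ℝ → ℝ → ℝ := fun t y => -(u t y) ^ 3 with hv
  have cv : Continuous (Function.uncurry v) := (hc.cu.pow 3).neg
  have pv : ∀ t, Function.Periodic (v t) 2 := fun t y => by
    simp only [hv, hc.pu t y]
  have cuv : ∀ t, Continuous (v t) := fun t => cv.comp (by fun_prop : Continuous fun y : ℝ => (t, y))
  have hr : ∀ t y, HasDerivAt (fun s => r s (y - s)) (v t (y - t)) t := hc.rt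
  -- slow functions
  have sA : ∀ l, MPc1e222.Slow (fun t y => conv (A l) (r t) (y - t))
      (fun t y => conv (A l) (v t) (y - t)) a := by
    intro l
    refine slow_conv (A_cont ker l) (A_per ker l) hc.cr cv hc.pr pv hr (fun t => ?_) fun t => ?_
    · obtain ⟨-, -, h⟩ := hC (u t) (r t) (hc.prof t)
      obtain ⟨-, -, -, -, -, -, -, h8, -⟩ := h l
      exact h8.trans ha2
    · obtain ⟨-, -, h⟩ := hC (u t) (r t) (hc.prof t)
      obtain ⟨-, -, -, -, -, -, -, -, -, -, -, h12, -, -⟩ := h l
      rw [hv, conv_neg_sq]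
      refine (cint_sq_le_of_abs ?_ h12).trans ha1
      exact continuous_conv (A_cont ker l) ((hc.prof t).cu.pow 3)
  have sV : ∀ i, MPc1e222.Slow (fun t y => conv (V i) (r t) (y - t))
      (fun t y => conv (V i) (v t) (y - t)) a := by
    intro i
    refine slow_conv (V_cont ker i) (V_per ker i) hc.cr cv hc.pr pv hr (fun t => ?_) fun t => ?_
    · obtain ⟨-, -, h⟩ := hC (u t) (r t) (hc.prof t)
      obtain ⟨-, -, -, -, -, -, h7, -⟩ := h i
      exact h7.trans ha2
    · obtain ⟨-, -, h⟩ := hC (u t) (r t) (hc.prof t)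
      obtain ⟨-, -, -, -, -, -, -, -, -, -, -, -, h13, -⟩ := h i
      rw [hv, conv_neg_sq]
      refine (cint_sq_le_of_abs ?_ h13).trans ha1
      exact continuous_conv (V_cont ker i) ((hc.prof t).cu.pow 3)
  have sP : ∀ j, MPc1e222.Slow (fun t y => conv (PA j) (r t) (y - t))
      (fun t y => conv (PA j) (v t) (y - t)) (C / (kap j) ^ 2) := by
    intro j
    refine slow_conv (PA_cont ker j) (PA_per ker j) hc.cr cv hc.pr pv hr (fun t => ?_) fun t => ?_
    · obtain ⟨-, -, h⟩ := hC (u t) (r t) (hc.prof t)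
      obtain ⟨-, -, -, -, -, -, -, -, h9, -⟩ := h j
      exact h9
    · obtain ⟨-, -, h⟩ := hC (u t) (r t) (hc.prof t)
      obtain ⟨-, -, -, -, -, -, -, -, -, -, -, -, -, h14⟩ := h j
      rw [hv, conv_neg_sq]
      exact h14
  have sI : MPc1e222.Slow (fun t y => r t (y - t)) (fun t y => v t (y - t)) a := by
    refine slow_id hc.cr cv hc.pr pv hr (fun t => (hc.hE t).trans ha3) fun t => ?_
    obtain ⟨h1, -, -⟩ := hC (u t) (r t) (hc.prof t)
    refine (cint_sq_le_of_abs (B := C ^ 3) (cuv t) fun x => ?_).trans ?_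
    · rw [hv]
      simp only [abs_neg, abs_pow]
      exact pow_le_pow_left₀ (abs_nonneg _) (h1 x) 3
    · rw [← pow_mul]
      exact ha4
  have hT : 0 ≤ t1 - t0 + 1 := by linarith
  have e1 : ∀ t x : ℝ, x + t - t = x := fun t x => by ring
  have e2 : ∀ t x h : ℝ, t - x + h - t = h - x := fun t x h => by ring
  refine ⟨fun l j h => ?_, fun i j h => ?_, ?_⟩
  · have h1 := MPc1e222.cross (sA l) (sP j) ht h
    simp only [e1, e2] at h1
    have hk : 0 < (kap j) ^ 2 := by have := kap_pos j; positivity
    have h2 := mul_le_mul_of_nonneg_left h1 hk.le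
    refine h2.trans ?_
    have h3 : (kap j) ^ 2 * (8 * a * (C / (kap j) ^ 2) * (t1 - t0 + 1)) =
        8 * (a * C) * (t1 - t0 + 1) := by
      calc (kap j) ^ 2 * (8 * a * (C / (kap j) ^ 2) * (t1 - t0 + 1)) =
          8 * a * ((kap j) ^ 2 * (C / (kap j) ^ 2)) * (t1 - t0 + 1) := by ring
        _ = 8 * a * C * (t1 - t0 + 1) := by rw [mul_div_cancel₀ C hk.ne']
        _ = _ := by ring
    rw [h3]
    refine mul_le_mul_of_nonneg_right ?_ hT
    have h4 : a * C ≤ a ^ 2 := by
      rw [sq]
      exact mul_le_mul_of_nonneg_left ha2 ha0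
    linarith
  · have h1 := MPc1e222.cross (sA j) (sV i) ht h
    simp only [e1, e2] at h1
    refine h1.trans (le_of_eq ?_)
    ring
  · have h1 := MPc1e222.cross sI sI ht 0
    simp only [e1, e2, zero_sub] at h1
    refine h1.trans (le_of_eq ?_)
    ring

end

end Pool.Agent.C1E
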