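import Mathlib

/-!
# MP_c1e222_an, definitions (paper: finding 4353)

All functions of `x` have period 2; `cint` is the integral over one period.
-/

namespace Pool.Agent.C1E

open MeasureTheory Set Filter Topology

noncomputable section

/-- integral over one period `[-1,1]` -/
def cint (f : ℝ → ℝ) : ℝ := ∫ x in (-1 : ℝ)..1, f x

/-- periodic distance function `|sin (π x / 2)|` -/
def dl (x : ℝ) : ℝ := |Real.sin (Real.pi * x / 2)|

/-- the frequencies `k_i = 1024 * q ^ i`, `q = 65/64` -/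
def kap (i : ℕ) : ℝ := 1024 * (65 / 64 : ℝ) ^ i

/-- the weights `θ_i` -/
def th (i : ℕ) (x : ℝ) : ℝ := kap i / (1 + kap i * dl x) ^ 2

/-- Dirichlet kernel `∑_{|n| ≤ a} cos (π n x)` -/
def Dir (a : ℕ) (x : ℝ) : ℝ := 1 + 2 * ∑ n ∈ Finset.range a, Real.cos (Real.pi * (n + 1) * x)

def va (i : ℕ) : ℕ := ⌊kap i / 1024⌋₊

def vb (i : ℕ) : ℕ := ⌊(127 / 128 : ℝ) * kap i⌋₊

/-- the kernels `V_i` -/
def V (i : ℕ) (x : ℝ) : ℝ := (1 / 2) * Dir (vb i) x * (Dir (va i) x / (2 * va i + 1)) ^ 3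

/-- the kernels `A_i = V_{i+1} - V_i` of the frequency pieces -/
def A (i : ℕ) (x : ℝ) : ℝ := V (i + 1) x - V i x

/-- the primitive of `A_i` vanishing at `0` -/
def PA (i : ℕ) (x : ℝ) : ℝ := ∫ z in (0 : ℝ)..x, A i z

/-- convolution on the circle of length 2 -/
def conv (P f : ℝ → ℝ) (x : ℝ) : ℝ := ∫ y in (-1 : ℝ)..1, P (x - y) * f y

/-- positive kernel `K_i` -/
def KK (i : ℕ) (x : ℝ) : ℝ := (1 / kap i) * cint (fun h => th i h * (V i (x - h)) ^ 2)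

/-- the kernel `K_i^{(1)}` -/
def K1 (i : ℕ) (x : ℝ) : ℝ := (1 / kap i) * cint (fun h => th i h * (deriv (V i) (x - h)) ^ 2)

/-- good shifts `M` -/
def Good (M : ℕ) : Prop :=
  1000 ≤ (65 / 64 : ℝ) ^ M ∧
    ∀ (i : ℕ) (x : ℝ), K1 i x ≤ ((65 / 64 : ℝ) ^ M) ^ 2 / 10 ^ 6 * (kap i) ^ 2 * KK i x

/-- separated pieces: `k_j ≥ (3/2) k_l` -/
def Sep (l j : ℕ) : Prop := 3 * kap l ≤ 2 * kap j

/-- low pass `V_i * f` -/
def Lo (i : ℕ) (f : ℝ → ℝ) (x : ℝ) : ℝ := conv (V i) f x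

/-- frequency piece `A_i * f` (gives `r_i` and `w_i`) -/
def Pa (i : ℕ) (f : ℝ → ℝ) (x : ℝ) : ℝ := conv (A i) f x

/-- primitive of the frequency piece, `PA_i * f` (gives `a_i`) -/
def Pp (i : ℕ) (f : ℝ → ℝ) (x : ℝ) : ℝ := conv (PA i) f x

/-- flux `F_j = 3 u_lo^2 w_j^2` -/
def FF (M j : ℕ) (u : ℝ → ℝ) (x : ℝ) : ℝ := 3 * (Lo (j - M) u x) ^ 2 * (Pa j u x) ^ 2

/-- density `ρ_j` -/
def Rho (M j : ℕ) (u r : ℝ → ℝ) (x : ℝ) : ℝ := (Pa j r x) ^ 2 / 2 + FF M j u x / 2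

/-- source `S_j` -/
def SS (M j : ℕ) (u r : ℝ → ℝ) (x : ℝ) : ℝ :=
  3 * Lo (j - M) u x * Lo (j - M) r x * (Pa j u x) ^ 2
    + (3 * (Lo (j - M) u x) ^ 2 * Pa j u x - Pa j (fun y => (u y) ^ 3) x) * Pa j r x

/-- density of `X_{lj}` at fixed time -/
def xx (l j : ℕ) (u r : ℝ → ℝ) : ℝ :=
  cint fun x => cint fun y => th l (x - y) * (u x) ^ 2 * (Pa l r x) ^ 2 * (Pa j r y) ^ 2

/-- `X_{lj}(I)`, `I = [t0,t1]` -/
def X (l j : ℕ) (u r : ℝ → ℝ → ℝ) (t0 t1 : ℝ) : ℝ := ∫ t in t0..t1, xx l j (u t) (r t)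

/-- `Err_j(I)` -/
def Err (M j : ℕ) (u r : ℝ → ℝ → ℝ) (t0 t1 : ℝ) : ℝ :=
  ∫ t in t0..t1, cint fun x => |SS M j (u t) (r t) x|

/-- spatial profile at one time -/
structure Prof (E : ℝ) (u r : ℝ → ℝ) : Prop where
  cu : Continuous u
  cr : Continuous r
  pu : Function.Periodic u 2
  pr : Function.Periodic r 2
  odd : ∀ x, u (-x) = -u x
  ux : ∀ x, HasDerivAt u ((r x + r (-x)) / 2) x
  hE : cint (fun x => (r x) ^ 2) ≤ E

/-- solution in characteristic form; `r = u_t + u_x`, energy bound `E` -/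
structure Core (E : ℝ) (u r : ℝ → ℝ → ℝ) : Prop where
  cu : Continuous (Function.uncurry u)
  cr : Continuous (Function.uncurry r)
  pu : ∀ t, Function.Periodic (u t) 2
  pr : ∀ t, Function.Periodic (r t) 2
  odd : ∀ t x, u t (-x) = -u t x
  ux : ∀ t x, HasDerivAt (u t) ((r t x + r t (-x)) / 2) x
  ut : ∀ t x, HasDerivAt (fun s => u s x) ((r t x - r t (-x)) / 2) t
  rt : ∀ t y, HasDerivAt (fun s => r s (y - s)) (-(u t (y - t)) ^ 3) t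
  hE : ∀ t, cint (fun x => (r t x) ^ 2) ≤ E

theorem Core.prof {E : ℝ} {u r : ℝ → ℝ → ℝ} (h : Core E u r) (t : ℝ) : Prof E (u t) (r t) where
  cu := h.cu.comp (Continuous.prodMk_right t)
  cr := h.cr.comp (Continuous.prodMk_right t)
  pu := h.pu t
  pr := h.pr t
  odd := h.odd t
  ux := h.ux t
  hE := h.hE t

/-- `‖r_x‖_{L²} ≤ L`, in the two forms which are used -/
structure HL (L : ℝ) (r : ℝ → ℝ) : Prop where
  hol : ∀ x y, |x - y| ≤ 2 → (r x - r y) ^ 2 ≤ L ^ 2 * |x - y|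
  l2 : ∀ z, cint (fun x => (r (x + z) - r x) ^ 2) ≤ L ^ 2 * z ^ 2

end

end Pool.Agent.C1E
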