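import Pool.Agent.Lib.MP_c1e222_an.Iface

/-!
# Row Ext, part A: odd and even extension of functions on `[0,1]` to the circle
-/

namespace Pool.Agent.C1E

open MeasureTheory Set Filter Topology

noncomputable section

namespace ExtAux

theorem rd_mem (x : ℝ) : rd x ∈ Ico (-1 : ℝ) 1 := by
  unfold rd
  have h1 := Int.floor_le ((x + 1) / 2)
  have h2 := Int.lt_floor_add_one ((x + 1) / 2)
  constructor <;> linarith

theorem rd_of_mem {x : ℝ} (h : x ∈ Ico (-1 : ℝ) 1) : rd x = x := by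
  unfold rd
  have : ⌊(x + 1) / 2⌋ = 0 := by
    rw [Int.floor_eq_iff]
    constructor
    · have := h.1; push_cast; linarith
    · have := h.2; push_cast; linarith
  rw [this]; simp

theorem rd_add_two (x : ℝ) : rd (x + 2) = rd x := by
  unfold rd
  have : (x + 2 + 1) / 2 = (x + 1) / 2 + 1 := by ring
  rw [this, Int.floor_add_one]
  push_cast; ring

theorem per_rd {f : ℝ → ℝ} (hf : Function.Periodic f 2) (x : ℝ) : f (rd x) = f x := by
  unfold rd
  have := hf.sub_int_mul_eq (x := x) ⌊(x + 1) / 2⌋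
  rw [mul_comm] at this
  exact this

theorem per_ext {f g : ℝ → ℝ} (hf : Function.Periodic f 2) (hg : Function.Periodic g 2)
    (h : ∀ x ∈ Ico (-1 : ℝ) 1, f x = g x) (x : ℝ) : f x = g x := by
  rw [← per_rd hf x, ← per_rd hg x]
  exact h _ (rd_mem x)

theorem oext_per (f : ℝ → ℝ) : Function.Periodic (oext f) 2 := by
  intro x
  unfold oext
  rw [rd_add_two]

theorem eext_per (f : ℝ → ℝ) : Function.Periodic (eext f) 2 := by
  intro x
  unfold eext
  rw [rd_add_two]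

theorem oext_pos (f : ℝ → ℝ) {x : ℝ} (h : x ∈ Ico (0 : ℝ) 1) : oext f x = f x := by
  unfold oext
  rw [rd_of_mem ⟨by linarith [h.1], h.2⟩, if_pos h.1]

theorem oext_neg (f : ℝ → ℝ) {x : ℝ} (h : x ∈ Ico (-1 : ℝ) 0) : oext f x = -f (-x) := by
  unfold oext
  rw [rd_of_mem ⟨h.1, by linarith [h.2]⟩, if_neg (by linarith [h.2])]

theorem rd_one : rd 1 = -1 := by
  have := rd_add_two (-1)
  rw [rd_of_mem (x := -1) ⟨le_rfl, by norm_num⟩] at this
  rw [← this]; norm_num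

theorem eext_pos (f : ℝ → ℝ) {x : ℝ} (h : x ∈ Icc (0 : ℝ) 1) : eext f x = f x := by
  unfold eext
  rcases eq_or_lt_of_le h.2 with h1 | h1
  · rw [h1, rd_one]; norm_num
  · rw [rd_of_mem ⟨by linarith [h.1], h1⟩, abs_of_nonneg h.1]

theorem eext_neg (f : ℝ → ℝ) {x : ℝ} (h : x ∈ Icc (-1 : ℝ) 0) : eext f x = f (-x) := by
  unfold eext
  rw [rd_of_mem ⟨h.1, by linarith [h.2]⟩, abs_of_nonpos h.2]

theorem oext_odd {f : ℝ → ℝ} (h0 : f 0 = 0) (h1 : f 1 = 0) (x : ℝ) :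
    oext f (-x) = -oext f x := by
  have hp : Function.Periodic (fun x => oext f (-x)) 2 := by
    intro x
    have := oext_per f (-(x + 2))
    simp only at this ⊢
    rw [← this]
    congr 1; ring
  have hq : Function.Periodic (fun x => -oext f x) 2 := by
    intro x
    simp only [oext_per f x]
  refine per_ext hp hq ?_ x
  intro x hx
  rcases lt_trichotomy x 0 with h | h | h
  · rcases eq_or_lt_of_le hx.1 with h2 | h2
    · rw [← h2]
      rw [oext_neg f (x := -1) ⟨le_rfl, by norm_num⟩]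
      unfold oext
      rw [neg_neg, rd_one, if_neg (by norm_num), neg_neg, h1, neg_zero]
      simp
    · rw [oext_pos f ⟨by linarith, by linarith⟩, oext_neg f ⟨h2.le, h⟩, neg_neg]
  · rw [h, neg_zero, oext_pos f ⟨le_rfl, by norm_num⟩, h0, neg_zero]
  · rw [oext_pos f ⟨h.le, hx.2⟩, oext_neg f ⟨by linarith [hx.2], by linarith⟩, neg_neg]

theorem eext_even (f : ℝ → ℝ) (x : ℝ) : eext f (-x) = eext f x := by
  have hp : Function.Periodic (fun x => eext f (-x)) 2 := by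
    intro x
    have := eext_per f (-(x + 2))
    simp only at this ⊢
    rw [← this]
    congr 1; ring
  refine per_ext hp (eext_per f) ?_ x
  intro x hx
  rcases le_or_gt x 0 with h | h
  · rw [eext_pos f ⟨by linarith, by linarith [hx.1]⟩, eext_neg f ⟨hx.1, h⟩]
  · rw [eext_neg f (x := -x) ⟨by linarith [hx.2], by linarith⟩, eext_pos f ⟨h.le, hx.2.le⟩, neg_neg]

/-! ### algebra -/

theorem oext_sq (f : ℝ → ℝ) (x : ℝ) : (oext f x) ^ 2 = eext (fun y => (f y) ^ 2) x := by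
  unfold oext eext
  split_ifs with h
  · rw [abs_of_nonneg h]
  · rw [abs_of_neg (not_le.1 h)]; ring

theorem eext_sq (f : ℝ → ℝ) (x : ℝ) : (eext f x) ^ 2 = eext (fun y => (f y) ^ 2) x := rfl

theorem oe_mul (f g : ℝ → ℝ) (x : ℝ) : oext f x * eext g x = oext (fun y => f y * g y) x := by
  unfold oext eext
  split_ifs with h
  · rw [abs_of_nonneg h]
  · rw [abs_of_neg (not_le.1 h)]; ring

theorem oext_cube (f : ℝ → ℝ) (x : ℝ) : (oext f x) ^ 3 = oext (fun y => (f y) ^ 3) x := by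
  unfold oext
  split_ifs with h
  · rfl
  · ring

theorem sum_sq (f g : ℝ → ℝ) (x : ℝ) : (oext f x + eext g x) ^ 2 =
    eext (fun y => (f y) ^ 2 + (g y) ^ 2) x + oext (fun y => 2 * (f y * g y)) x := by
  unfold oext eext
  split_ifs with h
  · rw [abs_of_nonneg h]; ring
  · rw [abs_of_neg (not_le.1 h)]; ring

/-! ### integrability -/

theorem ii_pm {f g : ℝ → ℝ} (hg : Function.Periodic g 2) (h : IntervalIntegrable f volume 0 1)
    (h1 : ∀ x ∈ Ioo (0 : ℝ) 1, g x = f x) (c : ℝ) (h2 : ∀ x ∈ Ioo (-1 : ℝ) 0, g x = c * f (-x))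
    (a b : ℝ) : IntervalIntegrable g volume a b := by
  have e1 : IntervalIntegrable g volume 0 1 := by
    refine h.congr_uIoo ?_
    rw [uIoo_of_le zero_le_one]
    intro x hx
    exact (h1 x hx).symm
  have e2 : IntervalIntegrable g volume (-1) 0 := by
    have h3 : IntervalIntegrable (fun x => f (-x)) volume (-0) (-1) :=
      (IntervalIntegrable.iff_comp_neg (by simp)).1 h
    rw [neg_zero] at h3
    refine (h3.symm.const_mul c).congr_uIoo ?_
    rw [uIoo_of_le (by norm_num)]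
    intro x hx
    exact (h2 x hx).symm
  refine hg.intervalIntegrable (t := -1) two_ne_zero ?_ a b
  have e3 : (-1 : ℝ) + 2 = 1 := by norm_num
  rw [e3]
  exact e2.trans e1

theorem ii_oext {f : ℝ → ℝ} (h : IntervalIntegrable f volume 0 1) (a b : ℝ) :
    IntervalIntegrable (oext f) volume a b :=
  ii_pm (oext_per f) h (fun x hx => oext_pos f ⟨hx.1.le, hx.2⟩) (-1)
    (fun x hx => by rw [oext_neg f ⟨hx.1.le, hx.2⟩]; ring) a b

theorem ii_eext {f : ℝ → ℝ} (h : IntervalIntegrable f volume 0 1) (a b : ℝ) :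
    IntervalIntegrable (eext f) volume a b :=
  ii_pm (eext_per f) h (fun x hx => eext_pos f ⟨hx.1.le, hx.2.le⟩) 1
    (fun x hx => by rw [eext_neg f ⟨hx.1.le, hx.2.le⟩]; ring) a b

/-! ### integrals -/

theorem int_pos {f g : ℝ → ℝ} (h1 : ∀ x ∈ Ioo (0 : ℝ) 1, g x = f x) {x : ℝ}
    (hx : x ∈ Icc (0 : ℝ) 1) : ∫ y in (0 : ℝ)..x, g y = ∫ y in (0 : ℝ)..x, f y := by
  refine intervalIntegral.integral_congr_uIoo ?_
  rw [uIoo_of_le hx.1]
  intro y hy
  exact h1 y ⟨hy.1, by linarith [hy.2, hx.2]⟩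

theorem int_neg {f g : ℝ → ℝ} (c : ℝ) (h2 : ∀ x ∈ Ioo (-1 : ℝ) 0, g x = c * f (-x)) {x : ℝ}
    (hx : x ∈ Icc (-1 : ℝ) 0) : ∫ y in (0 : ℝ)..x, g y = -c * ∫ y in (0 : ℝ)..(-x), f y := by
  have e1 : ∫ y in (0 : ℝ)..x, g y = ∫ y in (0 : ℝ)..x, c * f (-y) := by
    refine intervalIntegral.integral_congr_uIoo ?_
    rw [uIoo_of_ge hx.2]
    intro y hy
    exact h2 y ⟨by linarith [hy.1, hx.1], hy.2⟩
  rw [e1, intervalIntegral.integral_const_mul]
  have e2 : ∫ y in (0 : ℝ)..x, f (-y) = ∫ y in (-x)..(-0 : ℝ), f y :=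
    intervalIntegral.integral_comp_neg (fun y => f y)
  rw [e2, neg_zero, intervalIntegral.integral_symm]
  ring

theorem oint_pos (f : ℝ → ℝ) {x : ℝ} (hx : x ∈ Icc (0 : ℝ) 1) :
    ∫ y in (0 : ℝ)..x, oext f y = ∫ y in (0 : ℝ)..x, f y :=
  int_pos (fun _ hx => oext_pos f ⟨hx.1.le, hx.2⟩) hx

theorem oint_neg (f : ℝ → ℝ) {x : ℝ} (hx : x ∈ Icc (-1 : ℝ) 0) :
    ∫ y in (0 : ℝ)..x, oext f y = ∫ y in (0 : ℝ)..(-x), f y := by
  rw [int_neg (f := f) (-1) (fun _ hx => by rw [oext_neg f ⟨hx.1.le, hx.2⟩]; ring) hx]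
  ring

theorem eint_pos (f : ℝ → ℝ) {x : ℝ} (hx : x ∈ Icc (0 : ℝ) 1) :
    ∫ y in (0 : ℝ)..x, eext f y = ∫ y in (0 : ℝ)..x, f y :=
  int_pos (fun _ hx => eext_pos f ⟨hx.1.le, hx.2.le⟩) hx

theorem eint_neg (f : ℝ → ℝ) {x : ℝ} (hx : x ∈ Icc (-1 : ℝ) 0) :
    ∫ y in (0 : ℝ)..x, eext f y = -∫ y in (0 : ℝ)..(-x), f y := by
  rw [int_neg (f := f) 1 (fun _ hx => by rw [eext_neg f ⟨hx.1.le, hx.2.le⟩]; ring) hx]
  ring

theorem cint_split {g : ℝ → ℝ} (h : ∀ a b, IntervalIntegrable g volume a b) :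
    cint g = (∫ y in (0 : ℝ)..1, g y) - ∫ y in (0 : ℝ)..(-1), g y := by
  unfold cint
  rw [intervalIntegral.integral_interval_sub_left (h _ _) (h _ _)]

theorem cint_oext {f : ℝ → ℝ} (h : IntervalIntegrable f volume 0 1) : cint (oext f) = 0 := by
  rw [cint_split (ii_oext h), oint_pos f ⟨zero_le_one, le_rfl⟩, oint_neg f ⟨le_rfl, by norm_num⟩]
  simp

theorem cint_eext {f : ℝ → ℝ} (h : IntervalIntegrable f volume 0 1) :
    cint (eext f) = 2 * ∫ y in (0 : ℝ)..1, f y := by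
  rw [cint_split (ii_eext h), eint_pos f ⟨zero_le_one, le_rfl⟩, eint_neg f ⟨le_rfl, by norm_num⟩]
  rw [neg_neg]; ring

theorem cint_shift {g : ℝ → ℝ} (hg : Function.Periodic g 2) (c : ℝ) :
    cint (fun x => g (x + c)) = cint g := by
  unfold cint
  rw [intervalIntegral.integral_comp_add_right (fun x => g x) c]
  have := hg.intervalIntegral_add_eq (-1 + c) (-1)
  have e1 : -1 + c + 2 = 1 + c := by ring
  have e2 : (-1 : ℝ) + 2 = 1 := by ring
  rw [e1, e2] at this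
  exact this

/-- primitives of periodic functions with mean zero -/
theorem prim_per {g : ℝ → ℝ} (hg : Function.Periodic g 2)
    (h : ∀ a b, IntervalIntegrable g volume a b) (h0 : cint g = 0) :
    Function.Periodic (fun x => ∫ y in (0 : ℝ)..x, g y) 2 := by
  intro x
  simp only
  rw [← intervalIntegral.integral_add_adjacent_intervals (h 0 x) (h x (x + 2)),
    hg.intervalIntegral_add_eq x (-1)]
  have e2 : (-1 : ℝ) + 2 = 1 := by ring
  rw [e2]
  unfold cint at h0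
  rw [h0, add_zero]

/-- the odd extension of a primitive -/
theorem prim_o {f g : ℝ → ℝ} (hg : IntervalIntegrable g volume 0 1) (h1 : f 1 = 0)
    (h : ∀ x ∈ Icc (0 : ℝ) 1, f x = ∫ y in (0 : ℝ)..x, g y) (x : ℝ) :
    oext f x = ∫ y in (0 : ℝ)..x, eext g y := by
  have hm : cint (eext g) = 0 := by
    rw [cint_eext hg, ← h 1 ⟨zero_le_one, le_rfl⟩, h1, mul_zero]
  refine per_ext (oext_per f) (prim_per (eext_per g) (ii_eext hg) hm) ?_ x
  intro x hx
  rcases le_or_gt 0 x with h2 | h2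
  · rw [oext_pos f ⟨h2, hx.2⟩, eint_pos g ⟨h2, hx.2.le⟩, h x ⟨h2, hx.2.le⟩]
  · rw [oext_neg f ⟨hx.1, h2⟩, eint_neg g ⟨hx.1, h2.le⟩, h (-x) ⟨by linarith, by linarith [hx.1]⟩]

/-- the even extension of a primitive -/
theorem prim_e {f g : ℝ → ℝ} (hg : IntervalIntegrable g volume 0 1)
    (h : ∀ x ∈ Icc (0 : ℝ) 1, f x = f 0 + ∫ y in (0 : ℝ)..x, g y) (x : ℝ) :
    eext f x = f 0 + ∫ y in (0 : ℝ)..x, oext g y := by
  have hp := prim_per (oext_per g) (ii_oext hg) (cint_oext hg)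
  refine per_ext (eext_per f) (g := fun x => f 0 + ∫ y in (0 : ℝ)..x, oext g y) ?_ ?_ x
  · intro x
    have := hp x
    simp only at this ⊢
    rw [this]
  intro x hx
  rcases le_or_gt 0 x with h2 | h2
  · rw [eext_pos f ⟨h2, hx.2.le⟩, oint_pos g ⟨h2, hx.2.le⟩, h x ⟨h2, hx.2.le⟩]
  · rw [eext_neg f ⟨hx.1, h2.le⟩, oint_neg g ⟨hx.1, h2.le⟩, h (-x) ⟨by linarith, by linarith [hx.1]⟩]

end ExtAux

end

end Pool.Agent.C1E
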