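import Pool.Agent.Lib.MP_c1e222_an.ExtA

/-!
# Row Ext, part B: Cauchy-Schwarz, shifts, transport equation in weak form
-/

namespace Pool.Agent.C1E

open MeasureTheory Set Filter Topology

noncomputable section

namespace ExtAux

theorem cs {g : ℝ → ℝ} {a b : ℝ} (hab : a ≤ b) (h1 : IntervalIntegrable g volume a b)
    (h2 : IntervalIntegrable (fun x => (g x) ^ 2) volume a b) :
    (∫ x in a..b, g x) ^ 2 ≤ (b - a) * ∫ x in a..b, (g x) ^ 2 := by
  rcases eq_or_lt_of_le hab with h | h
  · rw [h]; simp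
  have hb : 0 < b - a := by linarith
  set m : ℝ := (∫ x in a..b, g x) / (b - a) with hm
  have e1 : ∫ x in a..b, (g x - m) ^ 2 =
      (∫ x in a..b, (g x) ^ 2) - 2 * m * (∫ x in a..b, g x) + m ^ 2 * (b - a) := by
    have e2 : ∀ x, (g x - m) ^ 2 = ((g x) ^ 2 - (2 * m) * g x) + m ^ 2 := fun x => by ring
    simp only [e2]
    rw [intervalIntegral.integral_add (h2.sub (h1.const_mul _)) intervalIntegrable_const,
      intervalIntegral.integral_sub h2 (h1.const_mul _), intervalIntegral.integral_const_mul,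
      intervalIntegral.integral_const, smul_eq_mul]
    ring
  have e3 : 0 ≤ ∫ x in a..b, (g x - m) ^ 2 :=
    intervalIntegral.integral_nonneg hab (fun x _ => sq_nonneg _)
  rw [e1] at e3
  have e4 : m * (b - a) = ∫ x in a..b, g x := by
    rw [hm]; field_simp
  have e5 : 0 ≤ (b - a) * ((∫ x in a..b, (g x) ^ 2) - 2 * m * (∫ x in a..b, g x)
      + m ^ 2 * (b - a)) := mul_nonneg hb.le e3
  rw [← e4] at e5 ⊢
  nlinarith [e5]

/-- a periodic function, locally square integrable -/
structure PL (g : ℝ → ℝ) : Prop where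
  per : Function.Periodic g 2
  ii : ∀ a b, IntervalIntegrable g volume a b
  i2 : ∀ a b, IntervalIntegrable (fun x => (g x) ^ 2) volume a b

theorem PL.mono {g : ℝ → ℝ} (h : PL g) {a b : ℝ} (hb : b ≤ a + 2) :
    ∫ x in a..b, (g x) ^ 2 ≤ cint (fun x => (g x) ^ 2) := by
  have hp : Function.Periodic (fun x => (g x) ^ 2) 2 := by
    intro x; simp only [h.per x]
  have e1 : cint (fun x => (g x) ^ 2) = ∫ x in a..(a + 2), (g x) ^ 2 := by
    unfold cint
    have := hp.intervalIntegral_add_eq (-1) a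
    rw [← this]; norm_num
  rw [e1, ← intervalIntegral.integral_add_adjacent_intervals (h.i2 a b) (h.i2 b (a + 2))]
  have : 0 ≤ ∫ x in b..(a + 2), (g x) ^ 2 :=
    intervalIntegral.integral_nonneg hb (fun x _ => sq_nonneg _)
  linarith

theorem PL.cint_nonneg {g : ℝ → ℝ} : 0 ≤ cint (fun x => (g x) ^ 2) :=
  intervalIntegral.integral_nonneg (by norm_num) (fun x _ => sq_nonneg _)

theorem PL.cs {g : ℝ → ℝ} (h : PL g) {a b : ℝ} (hab : a ≤ b) (hb : b ≤ a + 2) :
    (∫ x in a..b, g x) ^ 2 ≤ (b - a) * cint (fun x => (g x) ^ 2) := by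
  refine (ExtAux.cs hab (h.ii a b) (h.i2 a b)).trans ?_
  exact mul_le_mul_of_nonneg_left (h.mono hb) (by linarith)

/-- `r` has the weak derivative `g` -/
theorem PL.hol {g r : ℝ → ℝ} (h : PL g) (hr : ∀ x y, r x - r y = ∫ s in y..x, g s) (x y : ℝ)
    (hxy : |x - y| ≤ 2) : (r x - r y) ^ 2 ≤ cint (fun x => (g x) ^ 2) * |x - y| := by
  rcases le_total y x with h1 | h1
  · rw [abs_of_nonneg (by linarith)] at hxy ⊢
    rw [hr x y, mul_comm]
    exact h.cs h1 (by linarith)
  · rw [abs_of_nonpos (by linarith)] at hxy ⊢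
    have e1 : (r x - r y) ^ 2 = (r y - r x) ^ 2 := by ring
    rw [e1, hr y x, mul_comm]
    have := h.cs h1 (by linarith)
    have e2 : -(x - y) = y - x := by ring
    rw [e2]; exact this

theorem PL.l2pos {g r : ℝ → ℝ} (h : PL g) (hr : ∀ x y, r x - r y = ∫ s in y..x, g s)
    (hc : Continuous r) {z : ℝ} (hz : 0 ≤ z) :
    cint (fun x => (r (x + z) - r x) ^ 2) ≤ z ^ 2 * cint (fun x => (g x) ^ 2) := by
  set N : ℝ → ℝ := fun x => ∫ s in (0 : ℝ)..x, (g s) ^ 2 with hN
  have hNc : Continuous N := intervalIntegral.continuous_primitive h.i2 0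
  have hp : Function.Periodic (fun x => (g x) ^ 2) 2 := by
    intro x; simp only [h.per x]
  have hN2 : ∀ x, N (x + 2) = N x + cint (fun x => (g x) ^ 2) := by
    intro x
    simp only [hN]
    rw [← intervalIntegral.integral_add_adjacent_intervals (h.i2 0 x) (h.i2 x (x + 2)),
      hp.intervalIntegral_add_eq x (-1)]
    unfold cint
    norm_num
  have hle : ∀ x, (r (x + z) - r x) ^ 2 ≤ z * (N (x + z) - N x) := by
    intro x
    rw [hr (x + z) x]
    have e1 := ExtAux.cs (a := x) (b := x + z) (by linarith) (h.ii _ _) (h.i2 _ _)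
    have e2 : x + z - x = z := by ring
    rw [e2] at e1
    have e3 : N (x + z) - N x = ∫ s in x..(x + z), (g s) ^ 2 := by
      simp only [hN]
      rw [intervalIntegral.integral_interval_sub_left (h.i2 _ _) (h.i2 _ _)]
    rw [e3]; exact e1
  have hci : ∀ (f : ℝ → ℝ), Continuous f → ∀ a b, IntervalIntegrable f volume a b :=
    fun f hf a b => hf.intervalIntegrable a b
  have hNz : Continuous fun x => N (x + z) := hNc.comp (continuous_add_const z)
  have e4 : cint (fun x => (r (x + z) - r x) ^ 2) ≤ cint (fun x => z * (N (x + z) - N x)) := by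
    unfold cint
    refine intervalIntegral.integral_mono_on (by norm_num) ?_ ?_ (fun x _ => hle x)
    · exact (((hc.comp (continuous_add_const z)).sub hc).pow 2).intervalIntegrable _ _
    · exact ((hNz.sub hNc).const_mul z).intervalIntegrable _ _
  refine e4.trans (le_of_eq ?_)
  unfold cint
  rw [intervalIntegral.integral_const_mul,
    intervalIntegral.integral_sub (hci _ hNz _ _) (hci _ hNc _ _),
    intervalIntegral.integral_comp_add_right (fun x => N x) z]
  have e5 : (∫ x in (-1 + z)..(1 + z), N x) - ∫ x in (-1 : ℝ)..1, N x =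
      (∫ x in (1 : ℝ)..(1 + z), N x) - ∫ x in (-1 : ℝ)..(-1 + z), N x := by
    have a1 := intervalIntegral.integral_add_adjacent_intervals (hci N hNc (-1) (-1 + z))
      (hci N hNc (-1 + z) (1 + z))
    have a2 := intervalIntegral.integral_add_adjacent_intervals (hci N hNc (-1) 1)
      (hci N hNc 1 (1 + z))
    linarith
  have e6 : ∫ x in (1 : ℝ)..(1 + z), N x = ∫ x in (-1 : ℝ)..(-1 + z), N (x + 2) := by
    rw [intervalIntegral.integral_comp_add_right (fun x => N x) 2]
    congr 1 <;> ring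
  have hN2c : Continuous fun x => N (x + 2) := hNc.comp (continuous_add_const 2)
  rw [e5, e6, ← intervalIntegral.integral_sub (hci _ hN2c _ _) (hci _ hNc _ _)]
  have e7 : ∀ x, N (x + 2) - N x = cint (fun x => (g x) ^ 2) := fun x => by rw [hN2]; ring
  simp only [e7]
  rw [intervalIntegral.integral_const, smul_eq_mul]
  unfold cint
  ring

theorem PL.l2 {g r : ℝ → ℝ} (h : PL g) (hr : ∀ x y, r x - r y = ∫ s in y..x, g s)
    (hc : Continuous r) (hp : Function.Periodic r 2) (z : ℝ) :
    cint (fun x => (r (x + z) - r x) ^ 2) ≤ z ^ 2 * cint (fun x => (g x) ^ 2) := by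
  rcases le_total 0 z with hz | hz
  · exact h.l2pos hr hc hz
  · have hq : Function.Periodic (fun x => (r (x + z) - r x) ^ 2) 2 := by
      intro x
      have e1 : x + 2 + z = (x + z) + 2 := by ring
      simp only [e1, hp (x + z), hp x]
    rw [← cint_shift hq (-z)]
    have e2 : ∀ x, (r (x + -z + z) - r (x + -z)) ^ 2 = (r (x + -z) - r x) ^ 2 := by
      intro x
      have : x + -z + z = x := by ring
      rw [this]; ring
    simp only [e2]
    have := h.l2pos hr hc (z := -z) (by linarith)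
    rw [neg_sq] at this
    exact this

theorem PL.hl {g r : ℝ → ℝ} (h : PL g) (hr : ∀ x y, r x - r y = ∫ s in y..x, g s)
    (hc : Continuous r) (hp : Function.Periodic r 2) {L : ℝ}
    (hL : cint (fun x => (g x) ^ 2) ≤ L ^ 2) : HL L r where
  hol x y hxy := (h.hol hr x y hxy).trans (mul_le_mul_of_nonneg_right hL (abs_nonneg _))
  l2 z := by
    refine (h.l2 hr hc hp z).trans ?_
    rw [mul_comm]
    exact mul_le_mul_of_nonneg_right hL (sq_nonneg _)

/-! ### joint continuity -/

theorem joint {f : ℝ → ℝ → ℝ} (h1 : ∀ t, Continuous (f t))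
    (h2 : ∀ t, ∀ ε > 0, ∀ᶠ s in 𝓝 t, ∀ x, |f s x - f t x| ≤ ε) :
    Continuous (Function.uncurry f) := by
  rw [continuous_iff_continuousAt]
  rintro ⟨t, x⟩
  rw [Metric.continuousAt_iff']
  intro ε hε
  have a1 : ∀ᶠ p : ℝ × ℝ in 𝓝 (t, x), ∀ y, |f p.1 y - f t y| ≤ ε / 3 :=
    (h2 t (ε / 3) (by positivity)).prod_inl_nhds x
  have a2 : ∀ᶠ y in 𝓝 x, dist (f t y) (f t x) < ε / 3 :=
    Metric.continuousAt_iff'.1 (h1 t).continuousAt (ε / 3) (by positivity)
  have a3 : ∀ᶠ p : ℝ × ℝ in 𝓝 (t, x), dist (f t p.2) (f t x) < ε / 3 := a2.prod_inr_nhds t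
  filter_upwards [a1, a3] with p b1 b2
  have b3 := b1 p.2
  rw [← Real.dist_eq] at b3
  calc dist (Function.uncurry f p) (Function.uncurry f (t, x))
      = dist (f p.1 p.2) (f t x) := rfl
    _ ≤ dist (f p.1 p.2) (f t p.2) + dist (f t p.2) (f t x) := dist_triangle _ _ _
    _ < ε := by linarith

/-! ### integration in time -/

theorem int_time {F F' : ℝ → ℝ → ℝ} (hF : ∀ t, Continuous (F t))
    (hc : Continuous (Function.uncurry F')) (hd : ∀ s y, HasDerivAt (fun s => F s y) (F' s y) s)
    (a b t₀ t : ℝ) :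
    (∫ y in a..b, F t y) - (∫ y in a..b, F t₀ y) = ∫ s in t₀..t, ∫ y in a..b, F' s y := by
  rw [← intervalIntegral.integral_sub ((hF t).intervalIntegrable _ _)
    ((hF t₀).intervalIntegrable _ _)]
  have e1 : ∀ y, F t y - F t₀ y = ∫ s in t₀..t, F' s y := by
    intro y
    have hcy : Continuous fun s => F' s y := hc.comp (Continuous.prodMk_left y)
    exact (intervalIntegral.integral_eq_sub_of_hasDerivAt (fun s _ => hd s y)
      (hcy.intervalIntegrable _ _)).symm
  simp only [e1]
  rw [intervalIntegral_intervalIntegral_swap]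
  have hc2 : Continuous (Function.uncurry fun y s => F' s y) := hc.comp continuous_swap
  exact (hc2.continuousOn.integrableOn_compact (isCompact_uIcc.prod isCompact_uIcc)).mono_set
    (Set.prod_mono uIoc_subset_uIcc uIoc_subset_uIcc)

end ExtAux

end

end Pool.Agent.C1E
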