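import Pool.Agent.Lib.MP_c1e222_an.ExtB

/-!
# Row Ext, part C: the transport equation from `L²` difference quotients
-/

namespace Pool.Agent.C1E

open MeasureTheory Set Filter Topology

noncomputable section

namespace ExtAux

/-- derivative of a moving average -/
theorem avg_deriv {R P g : ℝ → ℝ → ℝ} (hR : Continuous (Function.uncurry R))
    (hP : Continuous (Function.uncurry P)) (hg : ∀ t a b, IntervalIntegrable (g t) volume a b)
    (hr : ∀ t x y, R t x - R t y = ∫ s in y..x, g t s)
    (hD : ∀ t h, PL (fun x => (R (t + h) x - R t x) / h - (g t x - P t x)))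
    (hL : ∀ t, Tendsto (fun h => cint (fun x => ((R (t + h) x - R t x) / h
      - (g t x - P t x)) ^ 2)) (𝓝[≠] 0) (𝓝 0))
    {a b : ℝ} (hab : a ≤ b) (hb : b ≤ a + 2) (t : ℝ) :
    HasDerivAt (fun s => ∫ x in (a - s)..(b - s), R s x) (-∫ x in (a - t)..(b - t), P t x) t := by
  have hRt : ∀ t, Continuous (R t) := fun t => hR.comp (Continuous.prodMk_right t)
  have hPt : ∀ t, Continuous (P t) := fun t => hP.comp (Continuous.prodMk_right t)
  have hRi : ∀ t a b, IntervalIntegrable (R t) volume a b := fun t a b =>
    (hRt t).intervalIntegrable a b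
  have hPi : ∀ t a b, IntervalIntegrable (P t) volume a b := fun t a b =>
    (hPt t).intervalIntegrable a b
  rw [hasDerivAt_iff_tendsto_slope_zero]
  -- term 1
  have t1 : Tendsto (fun h => ∫ x in (a - t - h)..(b - t - h),
      ((R (t + h) x - R t x) / h - (g t x - P t x))) (𝓝[≠] 0) (𝓝 0) := by
    have s1 : Tendsto (fun h => Real.sqrt (2 * cint (fun x => ((R (t + h) x - R t x) / h
      - (g t x - P t x)) ^ 2))) (𝓝[≠] 0) (𝓝 0) := by
      have := (Real.continuous_sqrt.tendsto _).comp ((hL t).const_mul 2)
      rw [mul_zero, Real.sqrt_zero] at this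
      exact this
    refine squeeze_zero_norm (fun h => ?_) s1
    rw [Real.norm_eq_abs]
    refine Real.abs_le_sqrt ?_
    refine ((hD t h).cs (by linarith) (by linarith)).trans ?_
    exact mul_le_mul_of_nonneg_right (by linarith) PL.cint_nonneg
  -- term 2
  have hgP : ∀ a b, IntervalIntegrable (fun x => g t x - P t x) volume a b := fun a b =>
    (hg t a b).sub (hPi t a b)
  have hG2 : Continuous fun x => ∫ s in (0 : ℝ)..x, (g t s - P t s) :=
    intervalIntegral.continuous_primitive hgP 0
  have t2 : Tendsto (fun h => ∫ x in (a - t - h)..(b - t - h), (g t x - P t x)) (𝓝[≠] 0)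
      (𝓝 (∫ x in (a - t)..(b - t), (g t x - P t x))) := by
    have s1 : ∀ h, ∫ x in (a - t - h)..(b - t - h), (g t x - P t x) =
        (∫ s in (0 : ℝ)..(b - t - h), (g t s - P t s)) -
          ∫ s in (0 : ℝ)..(a - t - h), (g t s - P t s) := fun h => by
      rw [intervalIntegral.integral_interval_sub_left (hgP _ _) (hgP _ _)]
    have s2 : Continuous fun h => ∫ x in (a - t - h)..(b - t - h), (g t x - P t x) := by
      simp only [s1]
      exact (hG2.comp (continuous_const.sub continuous_id)).sub
        (hG2.comp (continuous_const.sub continuous_id))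
    have s3 := s2.tendsto 0
    simp only [sub_zero] at s3
    exact s3.mono_left nhdsWithin_le_nhds
  -- term 3
  have t3 : Tendsto (fun h => h⁻¹ • ((∫ x in (a - t - h)..(b - t - h), R t x)
      - ∫ x in (a - t)..(b - t), R t x)) (𝓝[≠] 0) (𝓝 (R t (a - t) - R t (b - t))) := by
    have s0 : ∀ x, HasDerivAt (fun x => ∫ s in (0 : ℝ)..x, R t s) (R t x) x := fun x =>
      ((hRt t).integral_hasStrictDerivAt 0 x).hasDerivAt
    have s1 : ∀ h, ∫ x in (a - t - h)..(b - t - h), R t x =
        (∫ s in (0 : ℝ)..(b - t - h), R t s) - ∫ s in (0 : ℝ)..(a - t - h), R t s := fun h => by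
      rw [intervalIntegral.integral_interval_sub_left (hRi _ _ _) (hRi _ _ _)]
    have s2 : HasDerivAt (fun h => ∫ x in (a - t - h)..(b - t - h), R t x)
        (-R t (b - t) - -R t (a - t)) 0 := by
      simp only [s1]
      have d1 : ∀ c : ℝ, HasDerivAt (fun h : ℝ => ∫ s in (0 : ℝ)..(c - h), R t s) (-R t c) 0 := by
        intro c
        have e1 : HasDerivAt (fun h : ℝ => c - h) (-1) 0 := by
          simpa using (hasDerivAt_id (0 : ℝ)).const_sub c
        have e2 := (s0 (c - 0)).comp (0 : ℝ) e1
        rw [sub_zero, mul_neg_one] at e2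
        exact e2
      exact (d1 (b - t)).sub (d1 (a - t))
    rw [hasDerivAt_iff_tendsto_slope_zero] at s2
    simp only [zero_add, sub_zero] at s2
    have e3 : -R t (b - t) - -R t (a - t) = R t (a - t) - R t (b - t) := by ring
    rw [e3] at s2
    exact s2
  have t4 := (t1.add t2).add t3
  have e4 : 0 + (∫ x in (a - t)..(b - t), (g t x - P t x)) + (R t (a - t) - R t (b - t)) =
      -∫ x in (a - t)..(b - t), P t x := by
    rw [intervalIntegral.integral_sub (hg t _ _) (hPi t _ _), ← hr t (b - t) (a - t)]
    ring
  rw [e4] at t4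
  refine t4.congr' ?_
  filter_upwards [self_mem_nhdsWithin] with h hh
  have hh' : h ≠ 0 := hh
  have e5 : ∀ x, ((R (t + h) x - R t x) / h - (g t x - P t x)) + (g t x - P t x) =
      h⁻¹ * (R (t + h) x - R t x) := fun x => by
    rw [sub_add_cancel, div_eq_inv_mul]
  rw [← intervalIntegral.integral_add ((hD t h).ii _ _) (hgP _ _)]
  simp only [e5]
  rw [intervalIntegral.integral_const_mul, intervalIntegral.integral_sub (hRi _ _ _) (hRi _ _ _)]
  have e6 : a - (t + h) = a - t - h := by ring
  have e7 : b - (t + h) = b - t - h := by ring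
  rw [e6, e7, smul_eq_mul, smul_eq_mul]
  ring

/-- the transport equation -/
theorem transport {R P g : ℝ → ℝ → ℝ} (hR : Continuous (Function.uncurry R))
    (hP : Continuous (Function.uncurry P)) (hg : ∀ t a b, IntervalIntegrable (g t) volume a b)
    (hr : ∀ t x y, R t x - R t y = ∫ s in y..x, g t s)
    (hD : ∀ t h, PL (fun x => (R (t + h) x - R t x) / h - (g t x - P t x)))
    (hL : ∀ t, Tendsto (fun h => cint (fun x => ((R (t + h) x - R t x) / h
      - (g t x - P t x)) ^ 2)) (𝓝[≠] 0) (𝓝 0)) (t y : ℝ) :
    HasDerivAt (fun s => R s (y - s)) (-P t (y - t)) t := by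
  have hRt : ∀ t, Continuous (R t) := fun t => hR.comp (Continuous.prodMk_right t)
  have hPt : ∀ t, Continuous (P t) := fun t => hP.comp (Continuous.prodMk_right t)
  -- the function `Q s y = P s (y - s)`
  have hQ : Continuous (Function.uncurry fun s y => P s (y - s)) :=
    hP.comp (continuous_fst.prodMk (continuous_snd.sub continuous_fst))
  have hG : Continuous (Function.uncurry fun s y => R s (y - s)) :=
    hR.comp (continuous_fst.prodMk (continuous_snd.sub continuous_fst))
  have hQy : ∀ y, Continuous fun s => P s (y - s) := fun y => hQ.comp (Continuous.prodMk_left y)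
  have hint : ∀ t : ℝ, Continuous fun y => ∫ s in (0 : ℝ)..t, P s (y - s) := by
    intro t
    have hQ2 : Continuous (Function.uncurry fun y s => P s (y - s)) := hQ.comp continuous_swap
    exact intervalIntegral.continuous_parametric_intervalIntegral_of_continuous' hQ2 0 t
  have key : ∀ t y, R t (y - t) = R 0 y - ∫ s in (0 : ℝ)..t, P s (y - s) := by
    intro t y0
    set K : ℝ → ℝ := fun y => R t (y - t) - R 0 y + ∫ s in (0 : ℝ)..t, P s (y - s) with hK
    have hKc : Continuous K :=
      (((hRt t).comp (continuous_id.sub continuous_const)).sub (hRt 0)).add (hint t)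
    have hJ : ∀ a b, a ≤ b → b ≤ a + 2 → ∫ y in a..b, K y = 0 := by
      intro a b hab hb
      have e0 : ∀ s, ∫ x in (a - s)..(b - s), P s x = ∫ y in a..b, P s (y - s) := fun s => by
        rw [intervalIntegral.integral_comp_sub_right (fun x => P s x) s]
      have e1 := fun s => avg_deriv hR hP hg hr hD hL hab hb s
      simp only [e0] at e1
      have hc1 : Continuous fun s => ∫ y in a..b, P s (y - s) :=
        intervalIntegral.continuous_parametric_intervalIntegral_of_continuous' hQ a b
      have e2 := intervalIntegral.integral_eq_sub_of_hasDerivAt (a := 0) (b := t)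
        (fun s _ => e1 s) (hc1.neg.intervalIntegrable _ _)
      rw [intervalIntegral.integral_neg] at e2
      have e3 : ∫ x in (a - t)..(b - t), R t x = ∫ y in a..b, R t (y - t) := by
        rw [intervalIntegral.integral_comp_sub_right (fun x => R t x) t]
      rw [e3, sub_zero, sub_zero] at e2
      have e4 : (∫ s in (0 : ℝ)..t, ∫ y in a..b, P s (y - s)) =
          ∫ y in a..b, ∫ s in (0 : ℝ)..t, P s (y - s) := by
        rw [intervalIntegral_intervalIntegral_swap]
        exact (hQ.continuousOn.integrableOn_compact (isCompact_uIcc.prod isCompact_uIcc)).mono_set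
          (Set.prod_mono uIoc_subset_uIcc uIoc_subset_uIcc)
      simp only [hK]
      rw [intervalIntegral.integral_add, intervalIntegral.integral_sub, ← e4]
      · linarith
      · exact ((hRt t).comp (continuous_id.sub continuous_const)).intervalIntegrable _ _
      · exact (hRt 0).intervalIntegrable _ _
      · exact (((hRt t).comp (continuous_id.sub continuous_const)).sub
          (hRt 0)).intervalIntegrable _ _
      · exact (hint t).intervalIntegrable _ _
    have hd : HasDerivAt (fun x => ∫ y in (y0 - 1)..x, K y) (K y0) y0 :=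
      (hKc.integral_hasStrictDerivAt (y0 - 1) y0).hasDerivAt
    have hz : (fun x => ∫ y in (y0 - 1)..x, K y) =ᶠ[𝓝 y0] fun _ => (0 : ℝ) := by
      have : Ioo (y0 - 1) (y0 + 1) ∈ 𝓝 y0 := Ioo_mem_nhds (by linarith) (by linarith)
      filter_upwards [this] with x hx
      exact hJ _ _ hx.1.le (by linarith [hx.2])
    have hd2 : HasDerivAt (fun x => ∫ y in (y0 - 1)..x, K y) 0 y0 :=
      (hasDerivAt_const y0 (0 : ℝ)).congr_of_eventuallyEq hz
    have := hd.unique hd2
    simp only [hK] at this
    linarith
  have e8 : (fun s => R s (y - s)) = fun t => R 0 y - ∫ s in (0 : ℝ)..t, P s (y - s) := by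
    funext s; exact key s y
  rw [e8]
  exact (((hQy y).integral_hasStrictDerivAt 0 t).hasDerivAt).const_sub _

end ExtAux

end

end Pool.Agent.C1E
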