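import Pool.Agent.Lib.MP_c1e222_an.ExtC

/-!
# Row Ext, part D: facts on `[0,1]`
-/

namespace Pool.Agent.C1E

open MeasureTheory Set Filter Topology

noncomputable section

namespace ExtAux

/-- square integrable on `(0,1]` -/
def L2 (f : ℝ → ℝ) : Prop := MemLp f 2 (volume.restrict (Ioc (0 : ℝ) 1))

theorem L2.ii {f : ℝ → ℝ} (h : L2 f) : IntervalIntegrable f volume 0 1 := by
  rw [intervalIntegrable_iff_integrableOn_Ioc_of_le zero_le_one]
  exact MemLp.integrable one_le_two h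

theorem L2.mul {f g : ℝ → ℝ} (hf : L2 f) (hg : L2 g) :
    IntervalIntegrable (fun x => f x * g x) volume 0 1 := by
  rw [intervalIntegrable_iff_integrableOn_Ioc_of_le zero_le_one]
  exact MemLp.integrable_mul hf hg

theorem L2.sq {f : ℝ → ℝ} (hf : L2 f) :
    IntervalIntegrable (fun x => (f x) ^ 2) volume 0 1 := by
  have e : (fun x => (f x) ^ 2) = fun x => f x * f x := by
    funext x; ring
  rw [e]
  exact hf.mul hf

theorem L2.add {f g : ℝ → ℝ} (hf : L2 f) (hg : L2 g) : L2 (fun x => f x + g x) :=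
  MemLp.add hf hg

theorem L2.sub {f g : ℝ → ℝ} (hf : L2 f) (hg : L2 g) : L2 (fun x => f x - g x) :=
  MemLp.sub hf hg

theorem L2.div {f : ℝ → ℝ} (hf : L2 f) (c : ℝ) : L2 (fun x => f x / c) := by
  have h1 : L2 (fun x => c⁻¹ * f x) := MemLp.const_mul hf c⁻¹
  have e : (fun x => f x / c) = fun x => c⁻¹ * f x := by
    funext x; rw [div_eq_inv_mul]
  rw [e]; exact h1

theorem L2.of_cont {f : ℝ → ℝ} (hf : ContinuousOn f (Icc (0 : ℝ) 1)) : L2 f := by
  have hb : ∃ C, ∀ x ∈ Icc (0 : ℝ) 1, ‖f x‖ ≤ C := isCompact_Icc.exists_bound_of_continuousOn hf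
  obtain ⟨C, hC⟩ := hb
  refine MemLp.of_bound ?_ C ?_
  · exact (hf.mono Ioc_subset_Icc_self).aestronglyMeasurable measurableSet_Ioc
  · exact ae_restrict_of_forall_mem measurableSet_Ioc fun x hx => hC x (Ioc_subset_Icc_self hx)

theorem PL.mk' {f g : ℝ → ℝ} (hf : L2 f) (hg : L2 g) : PL (fun x => oext f x + eext g x) where
  per := by
    intro x
    simp only [oext_per f x, eext_per g x]
  ii a b := (ii_oext hf.ii a b).add (ii_eext hg.ii a b)
  i2 a b := by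
    simp only [sum_sq]
    exact (ii_eext (hf.sq.add hg.sq) a b).add (ii_oext ((hf.mul hg).const_mul 2) a b)

theorem cint_sum_sq {f g : ℝ → ℝ} (hf : L2 f) (hg : L2 g) :
    cint (fun x => (oext f x + eext g x) ^ 2) =
      2 * ∫ x in (0 : ℝ)..1, ((f x) ^ 2 + (g x) ^ 2) := by
  simp only [sum_sq]
  have h1 : IntervalIntegrable (fun x => (f x) ^ 2 + (g x) ^ 2) volume 0 1 := hf.sq.add hg.sq
  have h2 : IntervalIntegrable (fun x => 2 * (f x * g x)) volume 0 1 := (hf.mul hg).const_mul 2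
  have e : cint (fun x => eext (fun y => (f y) ^ 2 + (g y) ^ 2) x
      + oext (fun y => 2 * (f y * g y)) x) = cint (eext (fun y => (f y) ^ 2 + (g y) ^ 2))
      + cint (oext (fun y => 2 * (f y * g y))) := by
    unfold cint
    exact intervalIntegral.integral_add (ii_eext h1 _ _) (ii_oext h2 _ _)
  rw [e, cint_eext h1, cint_oext h2, add_zero]

/-- bounds of the extensions -/
theorem oext_le {f : ℝ → ℝ} {c : ℝ} (h : ∀ x ∈ Icc (0 : ℝ) 1, |f x| ≤ c) (x : ℝ) :
    |oext f x| ≤ c := by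
  have hx := rd_mem x
  unfold oext
  split_ifs with h1
  · exact h _ ⟨h1, hx.2.le⟩
  · rw [abs_neg]
    exact h _ ⟨by linarith, by linarith [hx.1]⟩

theorem eext_le {f : ℝ → ℝ} {c : ℝ} (h : ∀ x ∈ Icc (0 : ℝ) 1, |f x| ≤ c) (x : ℝ) :
    |eext f x| ≤ c := by
  have hx := rd_mem x
  unfold eext
  exact h _ ⟨abs_nonneg _, abs_le.2 ⟨hx.1, hx.2.le⟩⟩

/-- primitives -/
theorem prim_le {g : ℝ → ℝ} (hg : L2 g) {x : ℝ} (hx : x ∈ Icc (0 : ℝ) 1) :
    |∫ y in (0 : ℝ)..x, g y| ≤ Real.sqrt (∫ y in (0 : ℝ)..1, (g y) ^ 2) := by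
  refine Real.abs_le_sqrt ?_
  have hs : uIcc (0 : ℝ) x ⊆ uIcc (0 : ℝ) 1 := by
    rw [uIcc_of_le hx.1, uIcc_of_le zero_le_one]
    exact Icc_subset_Icc_right hx.2
  have hs2 : uIcc x 1 ⊆ uIcc (0 : ℝ) 1 := by
    rw [uIcc_of_le hx.2, uIcc_of_le zero_le_one]
    exact Icc_subset_Icc_left hx.1
  have h1 := cs hx.1 (hg.ii.mono_set hs) (hg.sq.mono_set hs)
  have h2 := intervalIntegral.integral_add_adjacent_intervals (hg.sq.mono_set hs)
    (hg.sq.mono_set hs2)
  have h3 : 0 ≤ ∫ y in x..1, (g y) ^ 2 :=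
    intervalIntegral.integral_nonneg hx.2 (fun y _ => sq_nonneg _)
  have h4 : 0 ≤ ∫ y in (0 : ℝ)..x, (g y) ^ 2 :=
    intervalIntegral.integral_nonneg hx.1 (fun y _ => sq_nonneg _)
  have h5 : (x - 0) * (∫ y in (0 : ℝ)..x, (g y) ^ 2) ≤ 1 * ∫ y in (0 : ℝ)..x, (g y) ^ 2 :=
    mul_le_mul_of_nonneg_right (by linarith [hx.2]) h4
  linarith

theorem prim_cont {g : ℝ → ℝ} (hg : L2 g) :
    ContinuousOn (fun x => ∫ y in (0 : ℝ)..x, g y) (Icc (0 : ℝ) 1) := by
  have h1 : Continuous fun x => ∫ y in (0 : ℝ)..x, eext g y :=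
    intervalIntegral.continuous_primitive (ii_eext hg.ii) 0
  refine h1.continuousOn.congr ?_
  intro x hx
  exact (eint_pos g hx).symm

theorem mean_le {f g : ℝ → ℝ} (hg : L2 g) (hf : ContinuousOn f (Icc (0 : ℝ) 1))
    (h : ∀ x ∈ Icc (0 : ℝ) 1, f x = f 0 + ∫ y in (0 : ℝ)..x, g y)
    (h0 : ∫ x in (0 : ℝ)..1, f x = 0) {x : ℝ} (hx : x ∈ Icc (0 : ℝ) 1) :
    |f x| ≤ 2 * Real.sqrt (∫ y in (0 : ℝ)..1, (g y) ^ 2) := by
  set S := Real.sqrt (∫ y in (0 : ℝ)..1, (g y) ^ 2) with hS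
  have h1 : |f 0| ≤ S := by
    have hfi : IntervalIntegrable f volume 0 1 := (L2.of_cont hf).ii
    have e1 : ∫ x in (0 : ℝ)..1, (f x - f 0) = -f 0 := by
      rw [intervalIntegral.integral_sub hfi intervalIntegrable_const, h0,
        intervalIntegral.integral_const, smul_eq_mul]
      ring
    have e2 : |∫ x in (0 : ℝ)..1, (f x - f 0)| ≤ S * |1 - 0| := by
      have := intervalIntegral.norm_integral_le_of_norm_le_const (a := (0 : ℝ)) (b := 1)
        (f := fun x => f x - f 0) (C := S) ?_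
      · rw [Real.norm_eq_abs] at this; exact this
      · intro y hy
        rw [uIoc_of_le zero_le_one] at hy
        rw [h y (Ioc_subset_Icc_self hy), Real.norm_eq_abs, add_sub_cancel_left]
        exact prim_le hg (Ioc_subset_Icc_self hy)
    rw [e1, abs_neg] at e2
    simpa using e2
  rw [h x hx]
  calc |f 0 + ∫ y in (0 : ℝ)..x, g y| ≤ |f 0| + |∫ y in (0 : ℝ)..x, g y| := abs_add_le _ _
    _ ≤ S + S := add_le_add h1 (prim_le hg hx)
    _ = 2 * S := by ring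

end ExtAux

end

end Pool.Agent.C1E
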