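import Pool.Agent.Lib.MP_c1e222_an.VSpec

/-!
# MP_c1e222_an, row Ker: size of the kernels `V_i`
-/

namespace Pool.Agent.C1E

open MeasureTheory Set Filter Topology

noncomputable section

namespace KerAux

/-- derivative of the Dirichlet kernel -/
def DirD (a : ℕ) (x : ℝ) : ℝ :=
  2 * ∑ n ∈ Finset.range a, -Real.sin (Real.pi * (n + 1) * x) * (Real.pi * (n + 1))

theorem dir_hasDeriv (a : ℕ) (x : ℝ) : HasDerivAt (Dir a) (DirD a x) x := by
  have h1 : ∀ n ∈ Finset.range a, HasDerivAt (fun y : ℝ => Real.cos (Real.pi * (n + 1) * y))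
      (-Real.sin (Real.pi * (n + 1) * x) * (Real.pi * (n + 1))) x := by
    intro n _
    have h2 : HasDerivAt (fun y : ℝ => Real.pi * (n + 1) * y) (Real.pi * (n + 1)) x := by
      simpa using (hasDerivAt_id x).const_mul (Real.pi * (n + 1))
    exact h2.cos
  have h3 := HasDerivAt.fun_sum h1
  have h4 := (h3.const_mul 2).const_add 1
  exact h4

theorem dir_succ (a : ℕ) (x : ℝ) :
    Dir (a + 1) x = Dir a x + 2 * Real.cos (Real.pi * (a + 1) * x) := by
  unfold Dir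
  rw [Finset.sum_range_succ]
  ring

theorem dir_sin (a : ℕ) (x : ℝ) : Dir a x * Real.sin (Real.pi * x / 2)
    = Real.sin ((2 * a + 1) * (Real.pi * x / 2)) := by
  induction a with
  | zero => simp [Dir]
  | succ a ih =>
    rw [dir_succ, add_mul, ih]
    push_cast
    have h1 : (2 * ((a : ℝ) + 1) + 1) * (Real.pi * x / 2)
        = (Real.pi * (a + 1) * x) + Real.pi * x / 2 := by ring
    have h2 : (2 * (a : ℝ) + 1) * (Real.pi * x / 2)
        = (Real.pi * (a + 1) * x) - Real.pi * x / 2 := by ring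
    rw [h1, h2, Real.sin_add, Real.sin_sub]
    ring

theorem dirD_sin (a : ℕ) (x : ℝ) :
    DirD a x * Real.sin (Real.pi * x / 2) + Dir a x * (Real.cos (Real.pi * x / 2) * (Real.pi / 2))
      = Real.cos ((2 * a + 1) * (Real.pi * x / 2)) * ((2 * a + 1) * (Real.pi / 2)) := by
  have h0 : HasDerivAt (fun y : ℝ => Real.pi * y / 2) (Real.pi / 2) x := by
    have := ((hasDerivAt_id x).const_mul Real.pi).div_const 2
    simpa using this
  have h1 : HasDerivAt (fun y => Dir a y * Real.sin (Real.pi * y / 2))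
      (DirD a x * Real.sin (Real.pi * x / 2)
        + Dir a x * (Real.cos (Real.pi * x / 2) * (Real.pi / 2))) x :=
    (dir_hasDeriv a x).mul h0.sin
  have h2 : HasDerivAt (fun y : ℝ => Real.sin ((2 * a + 1) * (Real.pi * y / 2)))
      (Real.cos ((2 * a + 1) * (Real.pi * x / 2)) * ((2 * a + 1) * (Real.pi / 2))) x :=
    (h0.const_mul (2 * (a : ℝ) + 1)).sin
  have h3 : (fun y => Dir a y * Real.sin (Real.pi * y / 2))
      = fun y : ℝ => Real.sin ((2 * a + 1) * (Real.pi * y / 2)) := funext fun y => dir_sin a y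
  rw [h3] at h1
  exact h1.unique h2

theorem dir_abs (a : ℕ) (x : ℝ) : |Dir a x| ≤ 2 * a + 1 := by
  induction a with
  | zero => simp [Dir]
  | succ a ih =>
    rw [dir_succ]
    have h1 := Real.abs_cos_le_one (Real.pi * (a + 1) * x)
    have h2 := abs_add_le (Dir a x) (2 * Real.cos (Real.pi * (a + 1) * x))
    rw [abs_mul, abs_two] at h2
    push_cast
    linarith

theorem dirD_succ (a : ℕ) (x : ℝ) :
    DirD (a + 1) x = DirD a x
      + 2 * (-Real.sin (Real.pi * (a + 1) * x) * (Real.pi * (a + 1))) := by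
  unfold DirD
  rw [Finset.sum_range_succ]
  ring

theorem dirD_abs (a : ℕ) (x : ℝ) : |DirD a x| ≤ Real.pi * (2 * a + 1) ^ 2 := by
  induction a with
  | zero =>
    simp [DirD, Real.pi_pos.le]
  | succ a ih =>
    rw [dirD_succ]
    have hp := Real.pi_pos
    have h1 := Real.abs_sin_le_one (Real.pi * (a + 1) * x)
    have h2 := abs_add_le (DirD a x)
      (2 * (-Real.sin (Real.pi * (a + 1) * x) * (Real.pi * (a + 1))))
    have h3 : |2 * (-Real.sin (Real.pi * (a + 1) * x) * (Real.pi * (a + 1)))|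
        ≤ 2 * (1 * (Real.pi * (a + 1))) := by
      rw [abs_mul, abs_two, abs_mul, abs_neg, abs_of_nonneg (show 0 ≤ Real.pi * ((a : ℝ) + 1) by positivity)]
      gcongr
    push_cast
    have h4 : 0 ≤ Real.pi * (a : ℝ) := by positivity
    nlinarith

theorem dir_dl (a : ℕ) (x : ℝ) : |Dir a x| * dl x ≤ 1 := by
  unfold dl
  rw [← abs_mul, dir_sin]
  exact Real.abs_sin_le_one _

theorem dirD_dl (a : ℕ) (x : ℝ) : |DirD a x| * dl x ≤ Real.pi * (2 * a + 1) := by
  have hp := Real.pi_pos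
  unfold dl
  rw [← abs_mul]
  have h1 := dirD_sin a x
  have h2 : DirD a x * Real.sin (Real.pi * x / 2)
      = Real.cos ((2 * a + 1) * (Real.pi * x / 2)) * ((2 * a + 1) * (Real.pi / 2))
        - Dir a x * (Real.cos (Real.pi * x / 2) * (Real.pi / 2)) := by linarith
  rw [h2]
  have h3 := abs_sub (Real.cos ((2 * a + 1) * (Real.pi * x / 2)) * ((2 * a + 1) * (Real.pi / 2)))
    (Dir a x * (Real.cos (Real.pi * x / 2) * (Real.pi / 2)))
  have h4 : |Real.cos ((2 * a + 1) * (Real.pi * x / 2)) * ((2 * a + 1) * (Real.pi / 2))|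
      ≤ 1 * ((2 * a + 1) * (Real.pi / 2)) := by
    rw [abs_mul, abs_of_nonneg (show 0 ≤ (2 * (a : ℝ) + 1) * (Real.pi / 2) by positivity)]
    gcongr
    exact Real.abs_cos_le_one _
  have h5 : |Dir a x * (Real.cos (Real.pi * x / 2) * (Real.pi / 2))|
      ≤ (2 * a + 1) * (1 * (Real.pi / 2)) := by
    rw [abs_mul, abs_mul, abs_of_nonneg (show 0 ≤ Real.pi / 2 by positivity)]
    gcongr
    · exact dir_abs a x
    · exact Real.abs_cos_le_one _
  linarith

theorem dir_per (a : ℕ) : Function.Periodic (Dir a) 2 := by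
  intro x
  unfold Dir
  congr 2
  refine Finset.sum_congr rfl fun n _ => ?_
  have h1 : Real.pi * ((n : ℝ) + 1) * (x + 2)
      = Real.pi * (n + 1) * x + ((n + 1 : ℕ) : ℝ) * (2 * Real.pi) := by
    push_cast
    ring
  rw [h1, Real.cos_add_nat_mul_two_pi]

theorem dir_even (a : ℕ) (x : ℝ) : Dir a (-x) = Dir a x := by
  unfold Dir
  congr 2
  refine Finset.sum_congr rfl fun n _ => ?_
  rw [mul_neg, Real.cos_neg]

theorem dir_smooth (a : ℕ) : ContDiff ℝ 2 (Dir a) := by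
  unfold Dir
  fun_prop

/-- the factor `g = D_a / (2a+1)` -/
def g (a : ℕ) (x : ℝ) : ℝ := Dir a x / (2 * a + 1)

theorem g_hasDeriv (a : ℕ) (x : ℝ) : HasDerivAt (g a) (DirD a x / (2 * a + 1)) x :=
  (dir_hasDeriv a x).div_const _

theorem V_hasDeriv (i : ℕ) (x : ℝ) : HasDerivAt (V i)
    (1 / 2 * DirD (vb i) x * (g (va i) x) ^ 3
      + 1 / 2 * Dir (vb i) x * (3 * (g (va i) x) ^ 2 * (DirD (va i) x / (2 * va i + 1)))) x := by
  have h0 : HasDerivAt (fun y => (g (va i) y) ^ 3)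
      (3 * (g (va i) x) ^ 2 * (DirD (va i) x / (2 * va i + 1))) x := by
    have := (g_hasDeriv (va i) x).fun_pow 3
    simpa using this
  exact ((dir_hasDeriv (vb i) x).const_mul (1 / 2)).fun_mul h0

theorem V_abs {k m D G : ℝ} (hm : 0 ≤ m) (hk : 0 ≤ k) (h1 : |D| * (1 + m) ≤ 3 * k)
    (h2 : |G| * (1 + m) ≤ 1025) :
    |1 / 2 * D * G ^ 3| ≤ 13 * 1025 ^ 3 * k / (1 + m) ^ 4 := by
  have hp : 0 < 1 + m := by linarith
  rw [le_div_iff₀ (by positivity)]
  have e1 : |1 / 2 * D * G ^ 3| * (1 + m) ^ 4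
      = 1 / 2 * (|D| * (1 + m)) * (|G| * (1 + m)) ^ 3 := by
    rw [abs_mul, abs_mul, abs_pow, abs_of_nonneg (show (0 : ℝ) ≤ 1 / 2 by norm_num)]
    ring
  rw [e1]
  calc 1 / 2 * (|D| * (1 + m)) * (|G| * (1 + m)) ^ 3 ≤ 1 / 2 * (3 * k) * 1025 ^ 3 := by
        gcongr
    _ ≤ 13 * 1025 ^ 3 * k := by nlinarith

theorem V_abs' {k m D D' G G' : ℝ} (hm : 0 ≤ m) (hk : 0 ≤ k) (h1 : |D| * (1 + m) ≤ 3 * k)
    (h2 : |G| * (1 + m) ≤ 1025) (h3 : |D'| * (1 + m) ≤ 24 * k ^ 2) (h4 : |G'| * (1 + m) ≤ 8 * k) :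
    |1 / 2 * D' * G ^ 3 + 1 / 2 * D * (3 * G ^ 2 * G')| ≤ 13 * 1025 ^ 3 * k ^ 2 / (1 + m) ^ 4 := by
  have hp : 0 < 1 + m := by linarith
  rw [le_div_iff₀ (by positivity)]
  have e1 : |1 / 2 * D' * G ^ 3| * (1 + m) ^ 4
      = 1 / 2 * (|D'| * (1 + m)) * (|G| * (1 + m)) ^ 3 := by
    rw [abs_mul, abs_mul, abs_pow, abs_of_nonneg (show (0 : ℝ) ≤ 1 / 2 by norm_num)]
    ring
  have e2 : |1 / 2 * D * (3 * G ^ 2 * G')| * (1 + m) ^ 4
      = 1 / 2 * (|D| * (1 + m)) * (3 * (|G| * (1 + m)) ^ 2 * (|G'| * (1 + m))) := by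
    rw [abs_mul, abs_mul, abs_mul, abs_mul, abs_pow, abs_of_nonneg (show (0 : ℝ) ≤ 1 / 2 by norm_num),
      abs_of_nonneg (show (0 : ℝ) ≤ 3 by norm_num)]
    ring
  calc |1 / 2 * D' * G ^ 3 + 1 / 2 * D * (3 * G ^ 2 * G')| * (1 + m) ^ 4
      ≤ (|1 / 2 * D' * G ^ 3| + |1 / 2 * D * (3 * G ^ 2 * G')|) * (1 + m) ^ 4 := by
        gcongr
        exact abs_add_le _ _
    _ = 1 / 2 * (|D'| * (1 + m)) * (|G| * (1 + m)) ^ 3
        + 1 / 2 * (|D| * (1 + m)) * (3 * (|G| * (1 + m)) ^ 2 * (|G'| * (1 + m))) := by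
        rw [add_mul, e1, e2]
    _ ≤ 1 / 2 * (24 * k ^ 2) * 1025 ^ 3 + 1 / 2 * (3 * k) * (3 * 1025 ^ 2 * (8 * k)) := by
        gcongr
    _ ≤ 13 * 1025 ^ 3 * k ^ 2 := by nlinarith [sq_nonneg k]

theorem lt_va (i : ℕ) : kap i / 1024 < va i + 1 := Nat.lt_floor_add_one _

theorem lt_vb (i : ℕ) : (127 / 128) * kap i < vb i + 1 := Nat.lt_floor_add_one _

theorem bounds (i : ℕ) (x : ℝ) :
    |Dir (vb i) x| * (1 + kap i * dl x) ≤ 3 * kap i ∧
    |g (va i) x| * (1 + kap i * dl x) ≤ 1025 ∧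
    |DirD (vb i) x| * (1 + kap i * dl x) ≤ 24 * (kap i) ^ 2 ∧
    |DirD (va i) x / (2 * va i + 1)| * (1 + kap i * dl x) ≤ 8 * kap i := by
  have hk := le_kap i
  have ha := VSp.va_le i
  have hb := VSp.vb_le i
  have ha' := lt_va i
  have hpi : Real.pi ≤ 4 := Real.pi_le_four
  have hpi0 := Real.pi_pos
  have hd := dl_nonneg x
  have hA : 0 < 2 * (va i : ℝ) + 1 := by positivity
  have hB : 0 < 2 * (vb i : ℝ) + 1 := by positivity
  have hA1 : kap i / 1024 ≤ 2 * (va i : ℝ) + 1 := by linarith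
  have hA2 : 2 * (va i : ℝ) + 1 ≤ kap i := by linarith
  have hB2 : 2 * (vb i : ℝ) + 1 ≤ 2 * kap i := by linarith
  have k0 : 0 ≤ kap i := by linarith
  refine ⟨?_, ?_, ?_, ?_⟩
  · have h1 := dir_abs (vb i) x
    have h2 := dir_dl (vb i) x
    have h3 : |Dir (vb i) x| * (1 + kap i * dl x)
        = |Dir (vb i) x| + kap i * (|Dir (vb i) x| * dl x) := by ring
    rw [h3]
    have h4 : kap i * (|Dir (vb i) x| * dl x) ≤ kap i * 1 := by gcongr
    linarith
  · have h1 := dir_abs (va i) x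
    have h2 := dir_dl (va i) x
    unfold g
    rw [abs_div, abs_of_pos hA, div_mul_eq_mul_div, div_le_iff₀ hA]
    have h3 : |Dir (va i) x| * (1 + kap i * dl x)
        = |Dir (va i) x| + kap i * (|Dir (va i) x| * dl x) := by ring
    rw [h3]
    have h4 : kap i * (|Dir (va i) x| * dl x) ≤ kap i * 1 := by gcongr
    linarith
  · have h1 := dirD_abs (vb i) x
    have h2 := dirD_dl (vb i) x
    have h3 : |DirD (vb i) x| * (1 + kap i * dl x)
        = |DirD (vb i) x| + kap i * (|DirD (vb i) x| * dl x) := by ring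
    rw [h3]
    calc |DirD (vb i) x| + kap i * (|DirD (vb i) x| * dl x)
        ≤ Real.pi * (2 * vb i + 1) ^ 2 + kap i * (Real.pi * (2 * vb i + 1)) := by gcongr
      _ ≤ 4 * (2 * kap i) ^ 2 + kap i * (4 * (2 * kap i)) := by gcongr
      _ = 24 * (kap i) ^ 2 := by ring
  · have h1 := dirD_abs (va i) x
    have h2 := dirD_dl (va i) x
    rw [abs_div, abs_of_pos hA, div_mul_eq_mul_div, div_le_iff₀ hA]
    have h3 : |DirD (va i) x| * (1 + kap i * dl x)
        = |DirD (va i) x| + kap i * (|DirD (va i) x| * dl x) := by ring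
    rw [h3]
    calc |DirD (va i) x| + kap i * (|DirD (va i) x| * dl x)
        ≤ Real.pi * (2 * va i + 1) ^ 2 + kap i * (Real.pi * (2 * va i + 1)) := by gcongr
      _ = (Real.pi * (2 * va i + 1) + kap i * Real.pi) * (2 * va i + 1) := by ring
      _ ≤ (4 * kap i + kap i * 4) * (2 * va i + 1) := by gcongr
      _ = 8 * kap i * (2 * va i + 1) := by ring

theorem cint_V (i : ℕ) : cint (V i) = 1 := by
  obtain ⟨c, hc1, -, -, hc⟩ := vspec_proof i
  have h0 : c 0 = 1 / 2 := hc1 0 (by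
    have := kap_pos i
    simp
    linarith)
  have h1 : fc (fun x => (V i x : ℂ)) 0 = (c 0 : ℂ) := by
    have h2 : (fun x => (V i x : ℂ)) = fun x => ∑ n ∈ Finset.Icc (-(⌈kap i⌉₊ : ℤ)) (⌈kap i⌉₊ : ℤ),
      (c n : ℂ) * ee n x := funext hc
    rw [h2, fc_poly (Finset.Icc (-(⌈kap i⌉₊ : ℤ)) (⌈kap i⌉₊ : ℤ)) (fun n => (c n : ℂ)) 0]
    simp
  have h3 : fc (fun x => (V i x : ℂ)) 0 = (1 / 2) * ((cint (V i) : ℝ) : ℂ) := by
    unfold fc cint
    simp only [neg_zero, ee_zero, one_mul]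
    rw [intervalIntegral.integral_ofReal]
  rw [h1, h0] at h3
  have h4 : (((1 / 2 : ℝ)) : ℂ) = (((1 / 2) * cint (V i) : ℝ) : ℂ) := by
    rw [h3]
    push_cast
    ring
  have h5 : (1 / 2 : ℝ) = (1 / 2) * cint (V i) := by exact_mod_cast h4
  linarith

theorem dir_at_zero (a : ℕ) : Dir a 0 = 2 * a + 1 := by
  unfold Dir
  simp
  ring

end KerAux

open KerAux in
theorem ker_proof : KerStatement := by
  refine ⟨13 * 1025 ^ 3, by norm_num, fun i => ?_⟩
  have hk := le_kap i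
  have hA : 0 < 2 * (va i : ℝ) + 1 := by positivity
  refine ⟨?_, ?_, ?_, cint_V i, ?_, ?_, ?_⟩
  · unfold V
    have h1 := dir_smooth (va i)
    have h2 := dir_smooth (vb i)
    exact (contDiff_const.mul h2).mul ((h1.div_const _).pow 3)
  · intro x
    unfold V
    rw [dir_per, dir_per]
  · intro x
    unfold V
    rw [dir_even, dir_even]
  · unfold V
    rw [dir_at_zero, dir_at_zero, div_self hA.ne']
    have := lt_vb i
    linarith
  · intro x
    obtain ⟨h1, h2, -, -⟩ := bounds i x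
    exact V_abs (mul_nonneg (by linarith) (dl_nonneg x)) (by linarith) h1 h2
  · intro x
    obtain ⟨h1, h2, h3, h4⟩ := bounds i x
    rw [(V_hasDeriv i x).deriv]
    exact V_abs' (mul_nonneg (by linarith) (dl_nonneg x)) (by linarith) h1 h2 h3 h4

end

end Pool.Agent.C1E
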