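import Pool.Agent.Lib.MP_c1e222_an.H70.St

/-!
# MP_c1e222_an, row Tri (section 9): the trilinear estimate
-/

set_option autoImplicit false

namespace Pool.Agent.C1E

open MeasureTheory Set Filter Topology S70

noncomputable section

namespace Tri70

theorem pa_eq (i : ℕ) {f : ℝ → ℝ} (hf : Continuous f) (x : ℝ) :
    Pa i f x = Lo (i + 1) f x - Lo i f x := by
  unfold Pa Lo conv
  rw [← intervalIntegral.integral_sub]
  · refine intervalIntegral.integral_congr fun y _ => ?_
    show A i (x - y) * f y = V (i + 1) (x - y) * f y - V i (x - y) * f y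
    unfold A
    ring
  · exact (((V_cont (i + 1)).comp (continuous_const.sub continuous_id)).mul hf).intervalIntegrable _ _
  · exact (((V_cont i).comp (continuous_const.sub continuous_id)).mul hf).intervalIntegrable _ _

theorem sum_pa {M N : ℕ} (h : M ≤ N) {f : ℝ → ℝ} (hf : Continuous f) (x : ℝ) :
    ∑ a ∈ Finset.Ico M N, Pa a f x = Lo N f x - Lo M f x := by
  induction N, h using Nat.le_induction with
  | base => simp
  | succ n hn ih =>
    rw [Finset.sum_Ico_succ_top hn, ih, pa_eq n hf]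
    ring

theorem cube_sum {S : Finset ℕ} (v : ℝ) (f : ℕ → ℝ) :
    v * (∑ a ∈ S, f a) ^ 3 = ∑ a ∈ S, ∑ b ∈ S, ∑ c ∈ S, v * (f a * f b * f c) := by
  calc v * (∑ a ∈ S, f a) ^ 3
      = (∑ a ∈ S, f a) * (v * (∑ b ∈ S, f b) * ∑ c ∈ S, f c) := by ring
    _ = ∑ a ∈ S, f a * (v * (∑ b ∈ S, f b) * ∑ c ∈ S, f c) := Finset.sum_mul _ _ _
    _ = _ := by
      refine Finset.sum_congr rfl fun a _ => ?_
      calc f a * (v * (∑ b ∈ S, f b) * ∑ c ∈ S, f c)
          = (∑ b ∈ S, f b) * (f a * v * ∑ c ∈ S, f c) := by ring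
        _ = ∑ b ∈ S, f b * (f a * v * ∑ c ∈ S, f c) := Finset.sum_mul _ _ _
        _ = _ := by
          refine Finset.sum_congr rfl fun b _ => ?_
          rw [← mul_assoc, Finset.mul_sum]
          refine Finset.sum_congr rfl fun c _ => ?_
          ring

/-- removing a bounded part of `r` from the cube -/
theorem fix1 {u r p : ℝ → ℝ} (hu : Continuous u) (hr : Continuous r) (hp : Continuous p)
    {B G E : ℝ} (h0 : 0 ≤ B) (hB : ∀ x, |u x| ≤ B) (hG0 : 0 ≤ G) (hG : ∀ x, |r x - p x| ≤ G)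
    (hE : cint (fun x => (r x) ^ 2) ≤ E) :
    |cint fun x => u x * (r x) ^ 3 - u x * (p x) ^ 3| ≤ B * G * (5 * E + 6 * G ^ 2) := by
  refine (abs_cint_le _).trans ?_
  have h1 : ∀ x, |u x * (r x) ^ 3 - u x * (p x) ^ 3| ≤ B * G * (5 * (r x) ^ 2 + 3 * G ^ 2) := by
    intro x
    have e : u x * (r x) ^ 3 - u x * (p x) ^ 3 =
        u x * (r x - p x) * ((r x) ^ 2 + r x * p x + (p x) ^ 2) := by ring
    rw [e, abs_mul, abs_mul]
    have hg2 : (r x - p x) ^ 2 ≤ G ^ 2 := by
      rw [← sq_abs (r x - p x)]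
      exact pow_le_pow_left₀ (abs_nonneg _) (hG x) 2
    have h2 : |(r x) ^ 2 + r x * p x + (p x) ^ 2| ≤ 5 * (r x) ^ 2 + 3 * G ^ 2 := by
      rw [abs_of_nonneg (by nlinarith [sq_nonneg (r x + p x), sq_nonneg (r x), sq_nonneg (p x)])]
      nlinarith [sq_nonneg (r x + (r x - p x)), sq_nonneg (r x), sq_nonneg G]
    have h3 : |u x| * |r x - p x| ≤ B * G := mul_le_mul (hB x) (hG x) (abs_nonneg _) h0
    exact mul_le_mul h3 h2 (abs_nonneg _) (mul_nonneg h0 hG0)
  have h2 : cint (fun x => |u x * (r x) ^ 3 - u x * (p x) ^ 3|) ≤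
      cint fun x => B * G * (5 * (r x) ^ 2 + 3 * G ^ 2) :=
    cint_mono (by fun_prop) (by fun_prop) h1
  refine h2.trans ?_
  rw [cint_mul, cint_add (by fun_prop) (by fun_prop), cint_mul, cint_const]
  refine mul_le_mul_of_nonneg_left ?_ (mul_nonneg h0 hG0)
  linarith

theorem abs_le_of_sq {x y : ℝ} (hy : 0 ≤ y) (h : x ^ 2 ≤ y ^ 2) : |x| ≤ y :=
  abs_le_of_sq_le_sq h hy

/-- three pieces which are not separated (fixed time) -/
theorem nonsep {M : ℕ} {C₁ : ℝ} (hC : 1 ≤ C₁) {u r : ℝ → ℝ} (hu : Continuous u)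
    (hr : Continuous r) {a b c : ℕ} (hM : M ≤ a)
    (hvan : cint (fun x => Lo (a - M) u x * Pa a r x * Pa b r x * Pa c r x) = 0)
    (s2 : ∀ x, (u x - Lo (a - M) u x) ^ 2 ≤ C₁ / kap (a - M))
    (s4 : ∀ x, (Pa a r x) ^ 2 ≤ C₁ * kap a)
    (s5 : cint (fun x => (Pa b r x) ^ 2) ≤ C₁) (s6 : cint (fun x => (Pa c r x) ^ 2) ≤ C₁) :
    |cint fun x => u x * (Pa a r x * Pa b r x * Pa c r x)| ≤ C₁ ^ 2 * (65 / 64 : ℝ) ^ M := by
  have ca : Continuous (Pa a r) := conv_cont (A_cont a) hr
  have cb : Continuous (Pa b r) := conv_cont (A_cont b) hr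
  have cc : Continuous (Pa c r) := conv_cont (A_cont c) hr
  have cl : Continuous (Lo (a - M) u) := conv_cont (V_cont _) hu
  set q : ℝ := (65 / 64 : ℝ) ^ M with hq
  have hq1 : 1 ≤ q := one_le_pow₀ (by norm_num)
  have hk : kap a = kap (a - M) * q := by
    rw [hq, ← kap_add, Nat.sub_add_cancel hM]
  have hkp := kap_pos (a - M)
  have e1 : cint (fun x => u x * (Pa a r x * Pa b r x * Pa c r x)) =
      cint fun x => (u x - Lo (a - M) u x) * (Pa a r x * Pa b r x * Pa c r x) := by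
    have e2 : cint (fun x => u x * (Pa a r x * Pa b r x * Pa c r x)) =
        cint fun x => (u x - Lo (a - M) u x) * (Pa a r x * Pa b r x * Pa c r x) +
          Lo (a - M) u x * Pa a r x * Pa b r x * Pa c r x := by
      congr 1
      funext x
      ring
    rw [e2, cint_add (by fun_prop) (by fun_prop), hvan, add_zero]
  rw [e1]
  refine (abs_cint_le _).trans ?_
  have h1 : ∀ x, |(u x - Lo (a - M) u x) * (Pa a r x * Pa b r x * Pa c r x)| ≤
      C₁ * q * ((1 / 2) * (Pa b r x) ^ 2 + (1 / 2) * (Pa c r x) ^ 2) := by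
    intro x
    have h2 : |(u x - Lo (a - M) u x) * Pa a r x| ≤ C₁ * q := by
      apply abs_le_of_sq (by positivity)
      rw [mul_pow]
      have h3 : (u x - Lo (a - M) u x) ^ 2 * (Pa a r x) ^ 2 ≤
          C₁ / kap (a - M) * (C₁ * kap a) :=
        mul_le_mul (s2 x) (s4 x) (sq_nonneg _) (by positivity)
      have h4 : C₁ / kap (a - M) * (C₁ * kap a) = C₁ ^ 2 * q := by
        rw [hk]
        field_simp
      rw [h4] at h3
      refine h3.trans ?_
      rw [mul_pow]
      have h5 : q ≤ q ^ 2 := by nlinarith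
      exact mul_le_mul_of_nonneg_left h5 (sq_nonneg _)
    have e3 : (u x - Lo (a - M) u x) * (Pa a r x * Pa b r x * Pa c r x) =
        ((u x - Lo (a - M) u x) * Pa a r x) * (Pa b r x * Pa c r x) := by ring
    rw [e3, abs_mul]
    have h6 : |Pa b r x * Pa c r x| ≤ (1 / 2) * (Pa b r x) ^ 2 + (1 / 2) * (Pa c r x) ^ 2 := by
      rw [abs_le]
      constructor <;> nlinarith [sq_nonneg (Pa b r x + Pa c r x), sq_nonneg (Pa b r x - Pa c r x)]
    exact mul_le_mul h2 h6 (abs_nonneg _) (by positivity)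
  refine (cint_mono (by fun_prop) (by fun_prop) h1).trans ?_
  rw [cint_mul, cint_add (by fun_prop) (by fun_prop), cint_mul, cint_mul]
  have h7 : 1 / 2 * cint (fun x => Pa b r x ^ 2) + 1 / 2 * cint (fun x => Pa c r x ^ 2) ≤ C₁ := by
    linarith
  calc C₁ * q * (1 / 2 * cint (fun x => Pa b r x ^ 2) + 1 / 2 * cint (fun x => Pa c r x ^ 2))
      ≤ C₁ * q * C₁ := mul_le_mul_of_nonneg_left h7 (by positivity)
    _ = C₁ ^ 2 * q := by ring

end Tri70

open Tri70

/-- row Tri -/
theorem tri_proof (hBoot : BootStatement) (hGd : GdStatement) (hTR : TRStatement)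
    (hSize : SizeStatement) (hLSize : LSizeStatement) (hVan : VanStatement) : TriStatement := by
  intro E
  obtain ⟨M, hM⟩ := hGd
  obtain ⟨C₁, hC₁, S1⟩ := hSize E
  obtain ⟨C₂, hC₂, S2⟩ := hLSize E
  obtain ⟨C₃, hC₃, S3⟩ := hTR M hM E
  obtain ⟨C₄, hC₄, S4⟩ := hBoot M hM E
  have hvan := (hVan M hM.1).2.2.2.2
  set q : ℝ := (65 / 64 : ℝ) ^ M with hq
  have hq1 : 1 ≤ q := one_le_pow₀ (by norm_num)
  -- constants
  set G : ℝ := 1 + 2 * (C₁ * kap M + C₂) with hG
  have hkM := kap_pos M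
  have hG0 : 0 < G := by positivity
  set K : ℝ := C₃ * (C₄ + 1) * (C₁ + C₂) with hK
  have hK0 : 0 ≤ K := by positivity
  set CB : ℝ := C₁ ^ 2 * q + K + 1 with hCB
  have hCB0 : 0 < CB := by positivity
  set CA : ℝ := C₁ * G * (5 * |E| + 6 * G ^ 2) with hCA
  have hCA0 : 0 ≤ CA := by positivity
  refine ⟨CA + CB, by linarith, ?_⟩
  intro u r hcore t0 t1 ht L hL hHL J hJ hJL
  have hu : JC u := hcore.cu
  have hr : JC r := hcore.cr
  have hcp : ∀ t, CP (u t) := fun t => ⟨(hcore.prof t).cu, (hcore.prof t).pu⟩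
  have hcr : ∀ t, CP (r t) := fun t => ⟨(hcore.prof t).cr, (hcore.prof t).pr⟩
  set T : ℝ := t1 - t0 + 1 with hT
  have hT1 : 1 ≤ T := by linarith
  have hT0 : 0 < T := by linarith
  have hTt : t1 - t0 ≤ T := by linarith
  have htt : 0 ≤ t1 - t0 := by linarith
  have hJr : (1 : ℝ) ≤ J := by exact_mod_cast hJ
  set D : ℝ := Real.sqrt ((T + L ^ 2) * T) with hD
  have hDsq : D ^ 2 = (T + L ^ 2) * T := Real.sq_sqrt (by positivity)
  have hD0 : 0 ≤ D := Real.sqrt_nonneg _
  have hTD : T ≤ D := by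
    apply Real.le_sqrt_of_sq_le
    nlinarith [sq_nonneg L]
  have sz : ∀ t, _ := fun t => S1 (u t) (r t) (hcore.prof t)
  -- a triple with `a ≤ b ≤ c`
  have trip : ∀ a b c : ℕ, M ≤ a → a ≤ b → b ≤ c → c < J →
      |ii t0 t1 fun t x => u t x * (Pa a (r t) x * Pa b (r t) x * Pa c (r t) x)| ≤
        CB * J * D := by
    intro a b c hMa hab hbc hcJ
    have hJD : D ≤ J * D := le_mul_of_one_le_left hD0 hJr
    have ja : JC fun t x => Pa a (r t) x := hr.pa a
    have jb : JC fun t x => Pa b (r t) x := hr.pa b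
    have jc : JC fun t x => Pa c (r t) x := hr.pa c
    by_cases hs : Sep a c
    · have hcs := ii_cs (t0 := t0) (t1 := t1) ht ((hu.mul ja).mul jc) jb
      have e1 : (ii t0 t1 fun t x => u t x * (Pa a (r t) x * Pa b (r t) x * Pa c (r t) x)) =
          ii t0 t1 fun t x => (u t x * Pa a (r t) x * Pa c (r t) x) * Pa b (r t) x := by
        congr 1
        funext t x
        ring
      rw [← e1] at hcs
      -- first factor
      have hX : X a c u r t0 t1 ≤ C₄ * (J : ℝ) ^ 2 * (T + (kap a) ^ 2) :=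
        S4 u r hcore t0 t1 ht L hL hHL J hJ hJL a c hMa hcJ hs
      have hf1 : (ii t0 t1 fun t x => (u t x * Pa a (r t) x * Pa c (r t) x) ^ 2) ≤
          C₃ * (X a c u r t0 t1 + (t1 - t0)) := by
        have h1 : ∀ t, cint (fun x => (u t x * Pa a (r t) x * Pa c (r t) x) ^ 2) ≤
            C₃ * (xx a c (u t) (r t) + 1) := by
          intro t
          have h2 := (S3 (u t) (r t) (hcore.prof t) a c hMa hs 0).1
          rw [dl_zero] at h2
          have e2 : cint (fun x => (u t x * Pa a (r t) x * Pa c (r t) x) ^ 2) =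
              cint fun x => (u t (x + 0)) ^ 2 * (Pa a (r t) (x + 0)) ^ 2 * (Pa c (r t) x) ^ 2 := by
            congr 1
            funext x
            rw [add_zero]
            ring
          rw [e2]
          refine h2.trans (le_of_eq ?_)
          ring
        have hxc := xx_cont hu hr a c
        have h3 : (ii t0 t1 fun t x => (u t x * Pa a (r t) x * Pa c (r t) x) ^ 2) ≤
            ∫ t in t0..t1, C₃ * (xx a c (u t) (r t) + 1) :=
          intervalIntegral.integral_mono ht
            ((((hu.mul ja).mul jc).pow 2).cint.intervalIntegrable _ _)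
            ((continuous_const.mul (hxc.add continuous_const)).intervalIntegrable _ _) h1
        refine h3.trans (le_of_eq ?_)
        rw [intervalIntegral.integral_const_mul, intervalIntegral.integral_add
          (hxc.intervalIntegrable _ _) (continuous_const.intervalIntegrable _ _),
          intervalIntegral.integral_const]
        simp [X]
      -- second factor
      set m : ℝ := min 1 (L ^ 2 / (kap a) ^ 2) with hm
      have hka := kap_pos a
      have hkab := kap_mono hab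
      have hm0 : 0 ≤ m := le_min zero_le_one (by positivity)
      have hf2 : (ii t0 t1 fun t x => (Pa b (r t) x) ^ 2) ≤ (t1 - t0) * ((C₁ + C₂) * m) := by
        refine ii_le ht (jb.pow 2) fun t htI => ?_
        have h1 : cint (fun x => (Pa b (r t) x) ^ 2) ≤ C₁ := ((sz t).2.2 b).2.2.2.2.2.2.2.1
        have h2 : cint (fun x => (Pa b (r t) x) ^ 2) ≤ C₂ * L ^ 2 / (kap b) ^ 2 :=
          (S2 (u t) (r t) (hcore.prof t) L (by linarith) (hHL t htI) b).1
        rcases min_cases 1 (L ^ 2 / (kap a) ^ 2) with ⟨h3, -⟩ | ⟨h3, -⟩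
        · rw [hm, h3]; linarith
        · rw [hm, h3]
          refine h2.trans ?_
          have h4 : C₂ * L ^ 2 / (kap b) ^ 2 ≤ C₂ * L ^ 2 / (kap a) ^ 2 := by
            apply div_le_div_of_nonneg_left (by positivity) (by positivity)
            exact pow_le_pow_left₀ hka.le hkab 2
          refine h4.trans ?_
          rw [mul_div_assoc]
          have h5 : 0 ≤ L ^ 2 / (kap a) ^ 2 := by positivity
          nlinarith
      have hprod : (T + (kap a) ^ 2) * m ≤ T + L ^ 2 := by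
        have h1 : T * m ≤ T := mul_le_of_le_one_right hT0.le (min_le_left _ _)
        have h2 : (kap a) ^ 2 * m ≤ L ^ 2 := by
          have h3 : (kap a) ^ 2 * m ≤ (kap a) ^ 2 * (L ^ 2 / (kap a) ^ 2) :=
            mul_le_mul_of_nonneg_left (min_le_right _ _) (by positivity)
          have h4 : (kap a) ^ 2 * (L ^ 2 / (kap a) ^ 2) = L ^ 2 := by field_simp
          linarith
        nlinarith
      have hsq : (ii t0 t1 fun t x => u t x * (Pa a (r t) x * Pa b (r t) x * Pa c (r t) x)) ^ 2 ≤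
          ((K + 1) * J * D) ^ 2 := by
        refine hcs.trans ?_
        have hA1 : (ii t0 t1 fun t x => (u t x * Pa a (r t) x * Pa c (r t) x) ^ 2) ≤
            C₃ * ((C₄ + 1) * (J : ℝ) ^ 2 * (T + (kap a) ^ 2)) := by
          refine hf1.trans (mul_le_mul_of_nonneg_left ?_ hC₃.le)
          have h1 : t1 - t0 ≤ (J : ℝ) ^ 2 * (T + (kap a) ^ 2) := by
            have h2 : (1 : ℝ) ≤ (J : ℝ) ^ 2 := one_le_pow₀ hJr
            have h3 : T ≤ T + (kap a) ^ 2 := by linarith [sq_nonneg (kap a)]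
            have h4 : T + (kap a) ^ 2 ≤ (J : ℝ) ^ 2 * (T + (kap a) ^ 2) :=
              le_mul_of_one_le_left (by positivity) h2
            linarith
          linarith
        have hA2 : (ii t0 t1 fun t x => (Pa b (r t) x) ^ 2) ≤ T * ((C₁ + C₂) * m) :=
          hf2.trans (mul_le_mul_of_nonneg_right hTt (by positivity))
        have h1 := mul_le_mul hA1 hA2 (ii_nonneg ht fun t x => sq_nonneg _) (by positivity)
        refine h1.trans ?_
        have h2 : C₃ * ((C₄ + 1) * (J : ℝ) ^ 2 * (T + (kap a) ^ 2)) * (T * ((C₁ + C₂) * m)) =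
            K * (J : ℝ) ^ 2 * T * ((T + (kap a) ^ 2) * m) := by rw [hK]; ring
        rw [h2]
        have h3 : K * (J : ℝ) ^ 2 * T * ((T + (kap a) ^ 2) * m) ≤
            K * (J : ℝ) ^ 2 * T * (T + L ^ 2) :=
          mul_le_mul_of_nonneg_left hprod (by positivity)
        refine h3.trans ?_
        have h4 : K * (J : ℝ) ^ 2 * T * (T + L ^ 2) = K * ((J : ℝ) ^ 2 * D ^ 2) := by
          rw [hDsq]; ring
        have h5 : ((K + 1) * J * D) ^ 2 = (K + 1) ^ 2 * ((J : ℝ) ^ 2 * D ^ 2) := by ring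
        rw [h4, h5]
        apply mul_le_mul_of_nonneg_right _ (by positivity)
        nlinarith
      refine (abs_le_of_sq (by positivity) hsq).trans ?_
      have h6 : K + 1 ≤ CB := by
        rw [hCB]
        have : 0 ≤ C₁ ^ 2 * q := by positivity
        linarith
      have h7 : (K + 1) * (J * D) ≤ CB * (J * D) := mul_le_mul_of_nonneg_right h6 (by positivity)
      linarith
    · have h1 : ∀ t ∈ Icc t0 t1,
          |cint fun x => u t x * (Pa a (r t) x * Pa b (r t) x * Pa c (r t) x)| ≤ C₁ ^ 2 * q := by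
        intro t _
        refine nonsep hC₁ (hcp t).1 (hcr t).1 hMa
          (hvan a b c (u t) (r t) hMa hab hbc hs (hcp t) (hcr t)) ?_ ?_ ?_ ?_
        · exact ((sz t).2.2 (a - M)).1
        · exact ((sz t).2.2 a).2.2.2.2.1
        · exact ((sz t).2.2 b).2.2.2.2.2.2.2.1
        · exact ((sz t).2.2 c).2.2.2.2.2.2.2.1
      refine (abs_ii_le ht (hu.mul ((ja.mul jb).mul jc)) h1).trans ?_
      have h2 : (t1 - t0) * (C₁ ^ 2 * q) ≤ D * (C₁ ^ 2 * q) :=
        mul_le_mul_of_nonneg_right (hTt.trans hTD) (by positivity)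
      have h3 : C₁ ^ 2 * q ≤ CB := by rw [hCB]; linarith
      calc (t1 - t0) * (C₁ ^ 2 * q) ≤ D * (C₁ ^ 2 * q) := h2
        _ ≤ (J * D) * CB := mul_le_mul hJD h3 (by positivity) (by positivity)
        _ = CB * J * D := by ring
  -- all triples
  have trip' : ∀ a b c : ℕ, M ≤ a → M ≤ b → M ≤ c → a < J → b < J → c < J →
      |ii t0 t1 fun t x => u t x * (Pa a (r t) x * Pa b (r t) x * Pa c (r t) x)| ≤
        CB * J * D := by
    intro a b c ha hb hc ha' hb' hc'
    have key : ∀ a₁ b₁ c₁ : ℕ, (∀ t x, Pa a (r t) x * Pa b (r t) x * Pa c (r t) x =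
        Pa a₁ (r t) x * Pa b₁ (r t) x * Pa c₁ (r t) x) → M ≤ a₁ → a₁ ≤ b₁ → b₁ ≤ c₁ → c₁ < J →
        |ii t0 t1 fun t x => u t x * (Pa a (r t) x * Pa b (r t) x * Pa c (r t) x)| ≤
          CB * J * D := by
      intro a₁ b₁ c₁ h0 h1 h2 h3 h4
      have e : (fun t x => u t x * (Pa a (r t) x * Pa b (r t) x * Pa c (r t) x)) =
          fun t x => u t x * (Pa a₁ (r t) x * Pa b₁ (r t) x * Pa c₁ (r t) x) := by
        funext t x
        rw [h0]
      rw [e]
      exact trip a₁ b₁ c₁ h1 h2 h3 h4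
    rcases le_total a b with h1 | h1
    · rcases le_total b c with h2 | h2
      · exact key a b c (fun t x => rfl) ha h1 h2 hc'
      · rcases le_total a c with h3 | h3
        · exact key a c b (fun t x => by ring) ha h3 h2 hb'
        · exact key c a b (fun t x => by ring) hc h3 h1 hb'
    · rcases le_total a c with h2 | h2
      · exact key b a c (fun t x => by ring) hb h1 h2 hc'
      · rcases le_total b c with h3 | h3
        · exact key b c a (fun t x => by ring) hb h3 h2 ha'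
        · exact key c b a (fun t x => by ring) hc h3 h1 ha'
  -- the decomposition
  set N : ℕ := max J M with hN
  set S : Finset ℕ := Finset.Ico M N with hS
  have hMN : M ≤ N := le_max_right _ _
  have hJN : J ≤ N := le_max_left _ _
  have hmem : ∀ a ∈ S, M ≤ a ∧ a < J := by
    intro a ha
    rw [hS, Finset.mem_Ico] at ha
    refine ⟨ha.1, ?_⟩
    rcases le_total J M with h1 | h1
    · rw [hN, max_eq_right h1] at ha; omega
    · rw [hN, max_eq_left h1] at ha; exact ha.2
  have hcard : (S.card : ℝ) ≤ J := by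
    have h1 : S.card ≤ J := by
      rw [hS, Nat.card_Ico, hN]
      rcases le_total J M with h1 | h1
      · rw [max_eq_right h1]; omega
      · rw [max_eq_left h1]; omega
    exact_mod_cast h1
  set p : ℝ → ℝ → ℝ := fun t x => ∑ a ∈ S, Pa a (r t) x with hp
  have jp : JC p := JC.sum fun a _ => hr.pa a
  have hpeq : ∀ t x, p t x = Lo N (r t) x - Lo M (r t) x := fun t x =>
    sum_pa hMN (hcr t).1 x
  have hgap : ∀ t ∈ Icc t0 t1, ∀ x, |r t x - p t x| ≤ G := by
    intro t htI x
    apply abs_le_of_sq hG0.le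
    have h1 : (Lo M (r t) x) ^ 2 ≤ C₁ * kap M := ((sz t).2.2 M).2.2.2.1 x
    have h2 : (r t x - Lo N (r t) x) ^ 2 ≤ C₂ * L ^ 2 / kap N :=
      (S2 (u t) (r t) (hcore.prof t) L (by linarith) (hHL t htI) N).2.1 x
    have hkN := kap_pos N
    have h3 : C₂ * L ^ 2 / kap N ≤ C₂ := by
      rw [div_le_iff₀ hkN]
      exact mul_le_mul_of_nonneg_left (hJL.trans (kap_mono hJN)) (by linarith)
    have h4 : (r t x - p t x) ^ 2 ≤ 2 * (C₁ * kap M + C₂) := by
      rw [hpeq]
      nlinarith [sq_nonneg (Lo M (r t) x - (r t x - Lo N (r t) x))]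
    have h5 : (1 : ℝ) ≤ G := by
      have : 0 ≤ 2 * (C₁ * kap M + C₂) := by positivity
      rw [hG]; linarith
    have h6 : G ≤ G ^ 2 := by nlinarith
    refine h4.trans ?_
    refine le_trans ?_ h6
    rw [hG]
    linarith
  have ju3 : JC fun t x => u t x * (r t x) ^ 3 := hu.mul (hr.pow 3)
  have jp3 : JC fun t x => u t x * (p t x) ^ 3 := hu.mul (jp.pow 3)
  -- the difference
  have hdiff : |ii t0 t1 fun t x => u t x * (r t x) ^ 3 - u t x * (p t x) ^ 3| ≤ T * CA := by
    have h1 : ∀ t ∈ Icc t0 t1, |cint fun x => u t x * (r t x) ^ 3 - u t x * (p t x) ^ 3| ≤ CA := by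
      intro t htI
      exact fix1 (hcp t).1 (hcr t).1 (jp.slice t) (by linarith) (sz t).1 hG0.le (hgap t htI)
        ((hcore.hE t).trans (le_abs_self E))
    refine (abs_ii_le ht (ju3.sub jp3) h1).trans ?_
    exact mul_le_mul_of_nonneg_right hTt hCA0
  -- the main part
  have hmain : |ii t0 t1 fun t x => u t x * (p t x) ^ 3| ≤ (J : ℝ) ^ 3 * (CB * J * D) := by
    have e1 : (ii t0 t1 fun t x => u t x * (p t x) ^ 3) = ∑ a ∈ S, ∑ b ∈ S, ∑ c ∈ S,
        ii t0 t1 fun t x => u t x * (Pa a (r t) x * Pa b (r t) x * Pa c (r t) x) := by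
      have e2 : (fun t x => u t x * (p t x) ^ 3) = fun t x => ∑ a ∈ S, ∑ b ∈ S, ∑ c ∈ S,
          u t x * (Pa a (r t) x * Pa b (r t) x * Pa c (r t) x) := by
        funext t x
        exact cube_sum (u t x) fun a => Pa a (r t) x
      have jt : ∀ a b c : ℕ, JC fun t x => u t x * (Pa a (r t) x * Pa b (r t) x * Pa c (r t) x) :=
        fun a b c => hu.mul (((hr.pa a).mul (hr.pa b)).mul (hr.pa c))
      rw [e2, ii_sum S fun a _ => JC.sum fun b _ => JC.sum fun c _ => jt a b c]
      refine Finset.sum_congr rfl fun a _ => ?_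
      rw [ii_sum S fun b _ => JC.sum fun c _ => jt a b c]
      refine Finset.sum_congr rfl fun b _ => ?_
      rw [ii_sum S fun c _ => jt a b c]
    rw [e1]
    have hB0 : 0 ≤ CB * J * D := by positivity
    have hc0 : (0 : ℝ) ≤ S.card := Nat.cast_nonneg _
    calc |∑ a ∈ S, ∑ b ∈ S, ∑ c ∈ S,
          ii t0 t1 fun t x => u t x * (Pa a (r t) x * Pa b (r t) x * Pa c (r t) x)|
        ≤ ∑ a ∈ S, ∑ b ∈ S, ∑ c ∈ S,
          |ii t0 t1 fun t x => u t x * (Pa a (r t) x * Pa b (r t) x * Pa c (r t) x)| := by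
          refine (Finset.abs_sum_le_sum_abs _ _).trans (Finset.sum_le_sum fun a _ => ?_)
          refine (Finset.abs_sum_le_sum_abs _ _).trans (Finset.sum_le_sum fun b _ => ?_)
          exact Finset.abs_sum_le_sum_abs _ _
      _ ≤ ∑ _a ∈ S, ∑ _b ∈ S, ∑ _c ∈ S, CB * J * D := by
          refine Finset.sum_le_sum fun a ha => Finset.sum_le_sum fun b hb =>
            Finset.sum_le_sum fun c hc => ?_
          exact trip' a b c (hmem a ha).1 (hmem b hb).1 (hmem c hc).1 (hmem a ha).2 (hmem b hb).2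
            (hmem c hc).2
      _ = (S.card : ℝ) ^ 3 * (CB * J * D) := by
          simp only [Finset.sum_const, nsmul_eq_mul]
          ring
      _ ≤ (J : ℝ) ^ 3 * (CB * J * D) :=
          mul_le_mul_of_nonneg_right (pow_le_pow_left₀ hc0 hcard 3) hB0
  -- the end
  have hfin : (ii t0 t1 fun t x => u t x * (r t x) ^ 3) =
      (ii t0 t1 fun t x => u t x * (r t x) ^ 3 - u t x * (p t x) ^ 3) +
        ii t0 t1 fun t x => u t x * (p t x) ^ 3 := by
    rw [ii_sub ju3 jp3]
    ring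
  show |ii t0 t1 fun t x => u t x * (r t x) ^ 3| ≤ _
  rw [hfin]
  have hJ4 : (1 : ℝ) ≤ (J : ℝ) ^ 4 := one_le_pow₀ hJr
  have h8 : T * CA ≤ CA * (J : ℝ) ^ 4 * D := by
    have h9 : T * CA ≤ D * CA := mul_le_mul_of_nonneg_right hTD hCA0
    have h10 : D * CA ≤ (D * CA) * (J : ℝ) ^ 4 := le_mul_of_one_le_right (by positivity) hJ4
    linarith
  calc |(ii t0 t1 fun t x => u t x * (r t x) ^ 3 - u t x * (p t x) ^ 3) +
        ii t0 t1 fun t x => u t x * (p t x) ^ 3|
      ≤ |ii t0 t1 fun t x => u t x * (r t x) ^ 3 - u t x * (p t x) ^ 3| +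
        |ii t0 t1 fun t x => u t x * (p t x) ^ 3| := abs_add_le _ _
    _ ≤ T * CA + (J : ℝ) ^ 3 * (CB * J * D) := add_le_add hdiff hmain
    _ ≤ CA * (J : ℝ) ^ 4 * D + (J : ℝ) ^ 3 * (CB * J * D) := by linarith
    _ = (CA + CB) * (J : ℝ) ^ 4 * D := by ring

end

end Pool.Agent.C1E
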